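import Mathlib

set_option autoImplicit false

/-! Golod–Shafarevich in the dual form, three generators, one relation per degree ≥ 2. -/

namespace Pool.Agent.GS

open MonoidAlgebra

abbrev W := FreeMonoid (Fin 3)

variable {k : Type} [Field k]

/-- monomial -/
noncomputable def m (w : W) : MonoidAlgebra k W := MonoidAlgebra.single w 1

theorem m_mul (a b : W) : (m (a * b) : MonoidAlgebra k W) = m a * m b := by
  simp [m]

theorem m_one : (m 1 : MonoidAlgebra k W) = 1 := rfl

/-- linear extension -/
noncomputable def ext (f : W → k) : MonoidAlgebra k W →ₗ[k] k :=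
  (Finsupp.linearCombination k f) ∘ₗ (MonoidAlgebra.coeffLinearEquiv k).toLinearMap

theorem ext_single (f : W → k) (w : W) (c : k) : ext f (MonoidAlgebra.single w c) = c * f w := by
  simp [ext]

theorem ext_m (f : W → k) (w : W) : ext f (m w) = f w := by
  simp [m, ext_single]

theorem ext_sum (f : W → k) (a : MonoidAlgebra k W) : ext f a = a.coeff.sum (fun w c => c * f w) := by
  simp [ext, Finsupp.linearCombination_apply]

theorem ext_add_left (f g : W → k) (a : MonoidAlgebra k W) : ext (f + g) a = ext f a + ext g a := by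
  induction a using MonoidAlgebra.induction_linear with
  | zero => simp
  | add a b ha hb => rw [map_add, map_add, map_add, ha, hb]; ring
  | single w c => simp [ext_single, mul_add]

theorem ext_smul_left (q : k) (f : W → k) (a : MonoidAlgebra k W) : ext (q • f) a = q * ext f a := by
  induction a using MonoidAlgebra.induction_linear with
  | zero => simp
  | add a b ha hb => rw [map_add, map_add, ha, hb]; ring
  | single w c => simp [ext_single]; ring

/-- homogeneity -/
def Homog (n : ℕ) (a : MonoidAlgebra k W) : Prop := ∀ w, a.coeff w ≠ 0 → w.length = n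

theorem ext_homog {n : ℕ} {a : MonoidAlgebra k W} (ha : Homog n a) {f : W → k} {n' : ℕ}
    (hf : ∀ w, w.length ≠ n' → f w = 0) (h : n ≠ n') : ext f a = 0 := by
  rw [ext_sum]
  apply Finset.sum_eq_zero
  intro w hw
  change a.coeff w * f w = 0
  rw [hf w (by rw [ha w (Finsupp.mem_support_iff.mp hw)]; exact h), mul_zero]

theorem ext_congr_left (f : W → k) (a c : MonoidAlgebra k W) :
    ext f (a * c) = a.coeff.sum (fun w q => q * ext f (m w * c)) := by
  induction a using MonoidAlgebra.induction_linear with
  | zero => simp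
  | add a b ha hb =>
    rw [add_mul, map_add, ha, hb, MonoidAlgebra.coeff_add, Finsupp.sum_add_index']
    · intro w; simp
    · intro w q q'; ring
  | single w q =>
    rw [MonoidAlgebra.coeff_single, Finsupp.sum_single_index (by simp)]
    have : (MonoidAlgebra.single w q : MonoidAlgebra k W) = q • m w := by simp [m]
    rw [this, smul_mul_assoc, map_smul, smul_eq_mul]

/-- a linear functional identity reduces to monomials -/
theorem ext_comp (f : W → k) (c : MonoidAlgebra k W) (a : MonoidAlgebra k W) :
    ext (fun b => ext f (c * m b)) a = ext f (c * a) := by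
  induction a using MonoidAlgebra.induction_linear with
  | zero => simp
  | add a b ha hb => rw [map_add, mul_add, map_add, ha, hb]
  | single w q =>
    have : (MonoidAlgebra.single w q : MonoidAlgebra k W) = q • m w := by simp [m]
    rw [this, map_smul, ext_m, mul_smul_comm, map_smul]

/-- functionals of degree `n` killing the ideal -/
def V (r : ℕ → MonoidAlgebra k W) (n : ℕ) : Submodule k (W → k) where
  carrier := {f | (∀ w, w.length ≠ n → f w = 0) ∧ ∀ i a b, ext f (m a * r i * m b) = 0}
  add_mem' := by
    rintro f g ⟨h1, h2⟩ ⟨h3, h4⟩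
    refine ⟨fun w hw => by simp [h1 w hw, h3 w hw], fun i a b => ?_⟩
    rw [ext_add_left, h2, h4, add_zero]
  zero_mem' := by
    refine ⟨fun w hw => rfl, fun i a b => ?_⟩
    have : ext (0 : W → k) (m a * r i * m b) = ext ((0 : k) • (0 : W → k)) (m a * r i * m b) := by simp
    rw [this, ext_smul_left, zero_mul]
  smul_mem' := by
    rintro q f ⟨h1, h2⟩
    refine ⟨fun w hw => by simp [h1 w hw], fun i a b => ?_⟩
    rw [ext_smul_left, h2, mul_zero]

theorem V_supp {r : ℕ → MonoidAlgebra k W} {n : ℕ} {f : W → k} (hf : f ∈ V r n) {w : W} (hw : w.length ≠ n) :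
    f w = 0 := hf.1 w hw

theorem V_rel {r : ℕ → MonoidAlgebra k W} {n : ℕ} {f : W → k} (hf : f ∈ V r n) (i : ℕ) (a b : W) :
    ext f (m a * r i * m b) = 0 := hf.2 i a b

instance V_fin (r : ℕ → MonoidAlgebra k W) (n : ℕ) : FiniteDimensional k (V r n) := by
  let φ : V r n →ₗ[k] ((Fin n → Fin 3) → k) :=
    { toFun := fun f v => f.1 (FreeMonoid.ofList (List.ofFn v))
      map_add' := fun f g => rfl
      map_smul' := fun q f => rfl }
  apply FiniteDimensional.of_injective φ
  intro f g hfg
  apply Subtype.ext
  funext w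
  by_cases hw : w.length = n
  · subst hw
    obtain ⟨v, hv⟩ : ∃ v : Fin w.length → Fin 3, FreeMonoid.ofList (List.ofFn v) = w :=
      ⟨fun i => (FreeMonoid.toList w).get i, List.ofFn_get _⟩
    have h1 := congrFun hfg v
    simp only [φ, LinearMap.coe_mk, AddHom.coe_mk] at h1
    rw [hv] at h1
    exact h1
  · rw [f.2.1 w hw, g.2.1 w hw]

/-- glue three functionals along the first letter -/
def glue (F : Fin 3 → (W → k)) : W → k := fun w =>
  match FreeMonoid.toList w with
  | [] => 0
  | x :: w' => F x (FreeMonoid.ofList w')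

theorem glue_one (F : Fin 3 → (W → k)) : glue F 1 = 0 := rfl

theorem glue_cons (F : Fin 3 → (W → k)) (x : Fin 3) (w : W) : glue F (FreeMonoid.of x * w) = F x w := rfl

theorem ext_glue (F : Fin 3 → (W → k)) (x : Fin 3) (a : MonoidAlgebra k W) :
    ext (glue F) (m (FreeMonoid.of x) * a) = ext (F x) a := by
  rw [← ext_comp]
  have : (fun b => ext (glue F) (m (FreeMonoid.of x) * m b)) = F x := by
    funext b
    rw [← m_mul, ext_m, glue_cons]
  rw [this]

theorem word_cases (w : W) : w = 1 ∨ ∃ x w', w = FreeMonoid.of x * w' := by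
  induction w using FreeMonoid.casesOn with
  | one => left; rfl
  | of_mul x xs => right; exact ⟨x, xs, rfl⟩

theorem glue_supp {r : ℕ → MonoidAlgebra k W} {n : ℕ} (F : Fin 3 → (W → k)) (hF : ∀ x, F x ∈ V r n) :
    ∀ w : W, w.length ≠ n + 1 → glue F w = 0 := by
  intro w hw
  rcases word_cases w with rfl | ⟨x, w', rfl⟩
  · rfl
  · rw [glue_cons]
    apply V_supp (hF x)
    intro h
    apply hw
    rw [FreeMonoid.length_mul, FreeMonoid.length_of, h]
    omega

theorem homog_mul {n n' : ℕ} {a b : MonoidAlgebra k W} (ha : Homog n a) (hb : Homog n' b) :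
    Homog (n + n') (a * b) := by
  classical
  intro w hw
  have := MonoidAlgebra.support_coeff_mul_subset a b (Finsupp.mem_support_iff.mpr hw)
  rw [Finset.mem_mul] at this
  obtain ⟨u, hu, v, hv, rfl⟩ := this
  rw [FreeMonoid.length_mul, ha u (Finsupp.mem_support_iff.mp hu), hb v (Finsupp.mem_support_iff.mp hv)]

theorem homog_m (w : W) : Homog w.length (m w : MonoidAlgebra k W) := by
  classical
  intro v hv
  simp only [m, MonoidAlgebra.coeff_single, Finsupp.single_apply] at hv
  split_ifs at hv with h
  · rw [h]
  · exact absurd rfl hv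

theorem rel_glue {r : ℕ → MonoidAlgebra k W} {n : ℕ} (hr : ∀ i, Homog i (r i)) (hr0 : r 0 = 0)
    (F : Fin 3 → (W → k)) (hF : ∀ x, F x ∈ V r n) (i : ℕ) (l : ℕ) (a b : W) :
    ext (glue F) (r i * (m a * r l * m b)) = 0 := by
  rw [ext_congr_left]
  apply Finset.sum_eq_zero
  intro w hw
  have hw' := hr i w (Finsupp.mem_support_iff.mp hw)
  rcases word_cases w with rfl | ⟨x, w', rfl⟩
  · rw [FreeMonoid.length_one] at hw'
    subst hw'
    rw [hr0] at hw
    simp at hw
  · change (r i).coeff _ * ext (glue F) (m (FreeMonoid.of x * w') * _) = 0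
    rw [m_mul, mul_assoc, ext_glue]
    have : (m w' * (m a * r l * m b) : MonoidAlgebra k W) = m (w' * a) * r l * m b := by
      rw [m_mul]; noncomm_ring
    rw [this, V_rel (hF x), mul_zero]

theorem glue_add (F G : Fin 3 → (W → k)) : glue (F + G) = glue F + glue G := by
  funext w
  rcases word_cases w with rfl | ⟨x, w', rfl⟩
  · simp [glue_one]
  · simp [glue_cons]

theorem glue_smul (q : k) (F : Fin 3 → (W → k)) : glue (q • F) = q • glue F := by
  funext w
  rcases word_cases w with rfl | ⟨x, w', rfl⟩
  · simp [glue_one]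
  · simp [glue_cons]

/-- the obstruction map -/
noncomputable def Phi (r : ℕ → MonoidAlgebra k W) (hr : ∀ i, Homog i (r i)) (hr0 : r 0 = 0) (n : ℕ) :
    (Fin 3 → V r n) →ₗ[k] ((j : Fin n) → V r j.val) where
  toFun F := fun j => ⟨fun b => ext (glue (fun x => (F x).1)) (r (n + 1 - j) * m b), by
    refine ⟨?_, ?_⟩
    · intro w hw
      refine ext_homog (homog_mul (hr _) (homog_m w)) (glue_supp (r := r) _ (fun x => (F x).2)) ?_
      have := j.2
      omega
    · intro l a b
      rw [ext_comp]
      exact rel_glue hr hr0 _ (fun x => (F x).2) _ _ _ _⟩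
  map_add' F G := by
    funext j
    apply Subtype.ext
    funext b
    have : glue (fun x => ((F + G) x).1) = glue (fun x => (F x).1) + glue (fun x => (G x).1) := by
      rw [← glue_add]; rfl
    simp only [this, ext_add_left]
    rfl
  map_smul' q F := by
    funext j
    apply Subtype.ext
    funext b
    have : glue (fun x => ((q • F) x).1) = q • glue (fun x => (F x).1) := by
      rw [← glue_smul]; rfl
    simp only [this, ext_smul_left]
    rfl

theorem glue_mem {r : ℕ → MonoidAlgebra k W} {hr : ∀ i, Homog i (r i)} {hr0 : r 0 = 0} (hr1 : r 1 = 0) {n : ℕ}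
    (F : Fin 3 → V r n) (hF : Phi r hr hr0 n F = 0) : glue (fun x => (F x).1) ∈ V r (n + 1) := by
  refine ⟨glue_supp (r := r) _ (fun x => (F x).2), ?_⟩
  intro i a b
  rcases word_cases a with rfl | ⟨x, a', rfl⟩
  · rw [m_one, one_mul]
    by_cases hi : i + b.length = n + 1
    · by_cases hi2 : 2 ≤ i
      · have hj : b.length < n := by omega
        have h1 := congrFun hF ⟨b.length, hj⟩
        have h2 := congrArg (fun f : V r b.length => f.1 b) h1
        have h3 : n + 1 - b.length = i := by omega
        simp only [Phi, LinearMap.coe_mk, AddHom.coe_mk, h3] at h2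
        exact h2
      · have : i = 0 ∨ i = 1 := by omega
        rcases this with rfl | rfl
        · rw [hr0]; simp
        · rw [hr1]; simp
    · exact ext_homog (homog_mul (hr i) (homog_m b)) (glue_supp (r := r) _ (fun x => (F x).2)) hi
  · rw [m_mul, mul_assoc, mul_assoc, ext_glue, ← mul_assoc]
    exact V_rel (F x).2 i a' b

theorem dim_ineq (r : ℕ → MonoidAlgebra k W) (hr : ∀ i, Homog i (r i)) (hr0 : r 0 = 0) (hr1 : r 1 = 0) (n : ℕ) :
    3 * Module.finrank k (V r n) ≤ Module.finrank k (V r (n + 1)) + ∑ j ∈ Finset.range n, Module.finrank k (V r j) := by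
  have h1 := LinearMap.finrank_range_add_finrank_ker (Phi r hr hr0 n)
  have h2 : Module.finrank k (Fin 3 → V r n) = 3 * Module.finrank k (V r n) := by
    rw [Module.finrank_pi_fintype]; simp
  have h3 : Module.finrank k (LinearMap.range (Phi r hr hr0 n)) ≤ ∑ j ∈ Finset.range n, Module.finrank k (V r j) := by
    refine (Submodule.finrank_le _).trans ?_
    rw [Module.finrank_pi_fintype, Finset.sum_range]
  have h4 : Module.finrank k (LinearMap.ker (Phi r hr hr0 n)) ≤ Module.finrank k (V r (n + 1)) := by
    let ψ : LinearMap.ker (Phi r hr hr0 n) →ₗ[k] V r (n + 1) :=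
      { toFun := fun F => ⟨glue (fun x => (F.1 x).1), glue_mem hr1 F.1 (LinearMap.mem_ker.mp F.2)⟩
        map_add' := fun F G => by
          apply Subtype.ext
          change glue (fun x => ((F.1 + G.1) x).1) = glue (fun x => (F.1 x).1) + glue (fun x => (G.1 x).1)
          rw [← glue_add]; rfl
        map_smul' := fun q F => by
          apply Subtype.ext
          change glue (fun x => ((q • F.1) x).1) = q • glue (fun x => (F.1 x).1)
          rw [← glue_smul]; rfl }
    apply LinearMap.finrank_le_finrank_of_injective (f := ψ)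
    intro F G hFG
    apply Subtype.ext
    funext x
    apply Subtype.ext
    funext w
    have h5 := congrArg (fun f : V r (n + 1) => f.1 (FreeMonoid.of x * w)) hFG
    exact h5
  omega

theorem growth (r : ℕ → MonoidAlgebra k W) (hr : ∀ i, Homog i (r i)) (hr0 : r 0 = 0) (hr1 : r 1 = 0) (n : ℕ) :
    ∑ j ∈ Finset.range n, Module.finrank k (V r j) ≤ Module.finrank k (V r n) := by
  induction n with
  | zero => simp
  | succ n ih =>
    rw [Finset.sum_range_succ]
    have := dim_ineq r hr hr0 hr1 n
    omega

theorem V_zero_ne (r : ℕ → MonoidAlgebra k W) (hr : ∀ i, Homog i (r i)) (hr0 : r 0 = 0) :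
    1 ≤ Module.finrank k (V r 0) := by
  classical
  rw [Nat.one_le_iff_ne_zero]
  intro h
  have h1 : V r 0 = ⊥ := Submodule.finrank_eq_zero.mp h
  have h2 : (fun w : W => if w = 1 then (1 : k) else 0) ∈ V r 0 := by
    refine ⟨?_, ?_⟩
    · intro w hw
      have : w ≠ 1 := fun h => hw (by rw [h]; rfl)
      simp [this]
    · intro i a b
      by_cases hi : i = 0
      · rw [hi, hr0]; simp
      · apply ext_homog (n' := 0) (homog_mul (homog_mul (homog_m a) (hr i)) (homog_m b))
        · intro w hw
          have : w ≠ 1 := fun h => hw (by rw [h]; rfl)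
          simp [this]
        · omega
  rw [h1, Submodule.mem_bot] at h2
  have := congrFun h2 1
  simp at this

theorem exists_functional (r : ℕ → MonoidAlgebra k W) (hr : ∀ i, Homog i (r i)) (hr0 : r 0 = 0) (hr1 : r 1 = 0)
    (n : ℕ) : ∃ f ∈ V r n, f ≠ 0 := by
  have h0 : 1 ≤ Module.finrank k (V r n) := by
    rcases Nat.eq_zero_or_pos n with rfl | hn
    · exact V_zero_ne r hr hr0
    · have h1 := growth r hr hr0 hr1 n
      have h2 : Module.finrank k (V r 0) ≤ ∑ j ∈ Finset.range n, Module.finrank k (V r j) :=
        Finset.single_le_sum (f := fun j => Module.finrank k (V r j)) (fun _ _ => Nat.zero_le _)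
          (Finset.mem_range.mpr hn)
      have h3 := V_zero_ne r hr hr0
      omega
  have h1 : Nontrivial (V r n) := (Module.finrank_pos_iff (R := k)).mp h0
  obtain ⟨f, hf⟩ := exists_ne (0 : V r n)
  exact ⟨f.1, f.2, fun h => hf (Subtype.ext h)⟩

end Pool.Agent.GS
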