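import Pool.Agent.GS

set_option autoImplicit false

namespace Pool.Agent.GS

open MonoidAlgebra

variable {k : Type} [Field k]

noncomputable def homc (n : ℕ) (a : MonoidAlgebra k W) : MonoidAlgebra k W :=
  MonoidAlgebra.ofCoeff (a.coeff.filter (fun w => w.length = n))

theorem homc_homog (n : ℕ) (a : MonoidAlgebra k W) : Homog n (homc n a) := by
  intro w hw
  by_contra h
  apply hw
  simp [homc, Finsupp.filter_apply, h]

def Len (lo hi : ℕ) (a : MonoidAlgebra k W) : Prop :=
  ∀ w, a.coeff w ≠ 0 → lo ≤ w.length ∧ w.length ≤ hi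

theorem Len_mul {lo hi lo' hi' : ℕ} {a b : MonoidAlgebra k W} (ha : Len lo hi a) (hb : Len lo' hi' b) :
    Len (lo + lo') (hi + hi') (a * b) := by
  classical
  intro w hw
  have := MonoidAlgebra.support_coeff_mul_subset a b (Finsupp.mem_support_iff.mpr hw)
  rw [Finset.mem_mul] at this
  obtain ⟨u, hu, v, hv, rfl⟩ := this
  have h1 := ha u (Finsupp.mem_support_iff.mp hu)
  have h2 := hb v (Finsupp.mem_support_iff.mp hv)
  rw [FreeMonoid.length_mul]
  omega

theorem Len_one : Len 0 0 (1 : MonoidAlgebra k W) := by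
  classical
  intro w hw
  rw [MonoidAlgebra.one_def, MonoidAlgebra.coeff_single, Finsupp.single_apply] at hw
  split_ifs at hw with h
  · rw [← h]; simp
  · exact absurd rfl hw

theorem Len_pow {lo hi : ℕ} {a : MonoidAlgebra k W} (ha : Len lo hi a) (n : ℕ) :
    Len (n * lo) (n * hi) (a ^ n) := by
  induction n with
  | zero => simpa using Len_one
  | succ n ih =>
    rw [pow_succ, Nat.succ_mul, Nat.succ_mul]
    exact Len_mul ih ha

theorem sum_homc {lo hi : ℕ} {a : MonoidAlgebra k W} (ha : Len lo hi a) :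
    a = ∑ n ∈ Finset.Icc lo hi, homc n a := by
  classical
  apply MonoidAlgebra.coeff_injective
  ext w
  rw [MonoidAlgebra.coeff_sum, Finsupp.finsetSum_apply]
  simp only [homc, MonoidAlgebra.coeff_ofCoeff, Finsupp.filter_apply]
  by_cases hw : a.coeff w = 0
  · rw [hw]; simp
  · have := ha w hw
    rw [Finset.sum_eq_single w.length]
    · simp
    · intro n _ hn
      simp [hn.symm]
    · intro h
      exact absurd (Finset.mem_Icc.mpr this) h

theorem exists_rel [Countable k] : ∃ r : ℕ → MonoidAlgebra k W, (∀ i, Homog i (r i)) ∧ r 0 = 0 ∧ r 1 = 0 ∧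
    ∀ a : MonoidAlgebra k W, a.coeff 1 = 0 → ∃ (M : ℕ) (s : Finset ℕ), a ^ M = ∑ n ∈ s, r n := by
  classical
  have hcount : Countable (MonoidAlgebra k W) := by
    have : Countable (W →₀ k) := inferInstance
    exact (MonoidAlgebra.coeff_injective (R := k) (M := W)).countable
  obtain ⟨e, he⟩ := exists_surjective_nat (MonoidAlgebra k W)
  let f : ℕ → MonoidAlgebra k W := fun j => e j - MonoidAlgebra.single 1 ((e j).coeff 1)
  have hδ : ∀ j, ∃ δ : ℕ, Len 1 δ (f j) := by
    intro j
    refine ⟨(f j).coeff.support.sup FreeMonoid.length, ?_⟩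
    intro w hw
    refine ⟨?_, Finset.le_sup (f := FreeMonoid.length) (Finsupp.mem_support_iff.mpr hw)⟩
    by_contra hlt
    have h0 : w.length = 0 := by omega
    have h1 : w = 1 := FreeMonoid.length_eq_zero.mp h0
    apply hw
    rw [h1]
    simp [f]
  choose δ hδ using hδ
  let D : ℕ → ℕ := fun j => Nat.rec 1 (fun j Dj => (Dj + 1) * (δ j + 1)) j
  have hD0 : D 0 = 1 := rfl
  have hDs : ∀ j, D (j + 1) = (D j + 1) * (δ j + 1) := fun j => rfl
  have hDlt : ∀ j, D j < D (j + 1) := by
    intro j; rw [hDs]; nlinarith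
  have hDmono : StrictMono D := strictMono_nat_of_lt_succ hDlt
  let P : ℕ → MonoidAlgebra k W := fun j => (f j) ^ (D j + 1)
  have hP : ∀ j, Len (D j + 1) (D (j + 1)) (P j) := by
    intro j w hw
    have := Len_pow (hδ j) (D j + 1) w hw
    rw [hDs]
    constructor
    · simpa using this.1
    · nlinarith [this.2]
  let r : ℕ → MonoidAlgebra k W := fun n =>
    @dite _ (∃ j, D j < n ∧ n ≤ D (j + 1)) (Classical.propDecidable _)
      (fun h => homc n (P h.choose)) (fun _ => 0)
  have hr : ∀ j n, D j < n → n ≤ D (j + 1) → r n = homc n (P j) := by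
    intro j n h1 h2
    have hex : ∃ j, D j < n ∧ n ≤ D (j + 1) := ⟨j, h1, h2⟩
    have hj : hex.choose = j := by
      have h3 := hex.choose_spec
      set j' := hex.choose
      by_contra hne
      rcases lt_or_gt_of_ne hne with h | h
      · have : D (j' + 1) ≤ D j := hDmono.monotone h
        omega
      · have : D (j + 1) ≤ D j' := hDmono.monotone h
        omega
    simp only [r, dif_pos hex, hj]
  refine ⟨r, ?_, ?_, ?_, ?_⟩
  · intro i
    rcases Classical.em (∃ j, D j < i ∧ i ≤ D (j + 1)) with h | h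
    · obtain ⟨j, h1, h2⟩ := h
      rw [hr j i h1 h2]
      exact homc_homog _ _
    · simp only [r, dif_neg h]
      intro w hw
      simp at hw
  · have h : ¬ ∃ j, D j < 0 ∧ 0 ≤ D (j + 1) := by rintro ⟨j, h1, _⟩; omega
    simp only [r, dif_neg h]
  · have h : ¬ ∃ j, D j < 1 ∧ 1 ≤ D (j + 1) := by
      rintro ⟨j, h1, _⟩
      have : D 0 ≤ D j := hDmono.monotone (Nat.zero_le _)
      omega
    simp only [r, dif_neg h]
  · intro a ha
    obtain ⟨j, rfl⟩ := he a
    have hf : f j = e j := by simp [f, ha]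
    refine ⟨D j + 1, Finset.Icc (D j + 1) (D (j + 1)), ?_⟩
    rw [← hf]
    change P j = _
    conv_lhs => rw [sum_homc (hP j)]
    apply Finset.sum_congr rfl
    intro n hn
    rw [Finset.mem_Icc] at hn
    rw [hr j n (by omega) hn.2]

end Pool.Agent.GS
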