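import Mathlib

set_option autoImplicit false

open MeasureTheory

namespace Pool.Agent.GSchm

theorem gs {X : Type*} [AddCommGroup X] [Module ℝ X] (c : InnerProductSpace.Core ℝ X) (d : ℕ → X) :
    ∃ a : ℕ → X, (∀ i j, i ≠ j → c.inner (a i) (a j) = 0) ∧
      Submodule.span ℝ (Set.range a) = Submodule.span ℝ (Set.range d) := by
  letI : NormedAddCommGroup X := @InnerProductSpace.Core.toNormedAddCommGroup ℝ X _ _ _ c
  letI : InnerProductSpace ℝ X := InnerProductSpace.ofCore c.toCore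
  refine ⟨InnerProductSpace.gramSchmidt ℝ d, ?_, InnerProductSpace.span_gramSchmidt ℝ d⟩
  intro i j hij
  exact InnerProductSpace.gramSchmidt_orthogonal ℝ d hij

/-- a clamped cubic -/
noncomputable def Q (u : ℝ) : ℝ := (max 0 (min u 1)) * (1 - max 0 (min u 1)) * (max 0 (min u 1) - 1 / 2)

theorem Q_cont : Continuous Q := by
  unfold Q
  fun_prop

theorem Q_zero {u : ℝ} (h : u ≤ 0 ∨ 1 ≤ u) : Q u = 0 := by
  unfold Q
  rcases h with h | h
  · rw [min_eq_left (by linarith), max_eq_left h]; simp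
  · rw [min_eq_right h]; simp

theorem Q_eq {u : ℝ} (h0 : 0 ≤ u) (h1 : u ≤ 1) : Q u = u * (1 - u) * (u - 1 / 2) := by
  unfold Q
  rw [min_eq_left h1, max_eq_right h0]

theorem Q_abs (u : ℝ) : |Q u| ≤ 1 := by
  by_cases h : u ≤ 0 ∨ 1 ≤ u
  · rw [Q_zero h]; simp
  · push Not at h
    rw [Q_eq h.1.le h.2.le, abs_le]
    have h1 : 0 ≤ u * (1 - u) := by nlinarith [h.1, h.2]
    have h2 : u * (1 - u) ≤ 1 := by nlinarith [h.1, h.2]
    constructor <;> nlinarith [h.1, h.2]

theorem Q_supp : HasCompactSupport Q := by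
  apply HasCompactSupport.intro (isCompact_Icc (a := (0:ℝ)) (b := 1))
  intro u hu
  apply Q_zero
  simp only [Set.mem_Icc, not_and_or, not_le] at hu
  rcases hu with h | h
  · exact Or.inl h.le
  · exact Or.inr h.le

theorem Q_int : ∫ u, Q u = 0 := by
  have h1 : ∫ u, Q (1 - u) = ∫ u, Q u := integral_sub_left_eq_self Q volume 1
  have h2 : ∀ u, Q (1 - u) = - Q u := by
    intro u
    by_cases h : u ≤ 0 ∨ 1 ≤ u
    · rw [Q_zero h, Q_zero (by rcases h with h | h; right; linarith; left; linarith)]; simp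
    · push Not at h
      rw [Q_eq h.1.le h.2.le, Q_eq (by linarith [h.2]) (by linarith [h.1])]
      ring
  simp_rw [h2] at h1
  rw [integral_neg] at h1
  linarith

/-- scaled version -/
noncomputable def S (M δ a t : ℝ) : ℝ := M * Q ((t - a) / δ)

theorem S_cont (M δ a : ℝ) : Continuous (S M δ a) := by
  unfold S
  exact continuous_const.mul (Q_cont.comp (by fun_prop))

theorem S_zero (M δ a t : ℝ) (hδ : 0 < δ) (h : t ≤ a ∨ a + δ ≤ t) : S M δ a t = 0 := by
  unfold S
  rw [Q_zero, mul_zero]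
  rcases h with h | h
  · left; exact div_nonpos_of_nonpos_of_nonneg (by linarith) hδ.le
  · right; rw [le_div_iff₀ hδ]; linarith

theorem S_supp (M δ a : ℝ) (hδ : 0 < δ) : HasCompactSupport (S M δ a) := by
  apply HasCompactSupport.intro (isCompact_Icc (a := a) (b := a + δ))
  intro u hu
  apply S_zero _ _ _ _ hδ
  simp only [Set.mem_Icc, not_and_or, not_le] at hu
  rcases hu with h | h
  · exact Or.inl h.le
  · exact Or.inr h.le

theorem int_scale (g : ℝ → ℝ) (δ a : ℝ) (hδ : 0 < δ) : ∫ t, g ((t - a) / δ) = δ * ∫ t, g t := by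
  have h1 : ∫ t, g ((t - a) / δ) = ∫ t, g (t / δ) := integral_sub_right_eq_self (fun t => g (t / δ)) a
  rw [h1, Measure.integral_comp_div]
  simp [abs_of_pos hδ]

theorem S_int (M δ a : ℝ) (hδ : 0 < δ) : ∫ t, S M δ a t = 0 := by
  unfold S
  rw [integral_const_mul, int_scale Q δ a hδ, Q_int]
  simp

theorem S_sq (M δ a : ℝ) (hδ : 0 < δ) : ∫ t, S M δ a t * S M δ a t = M ^ 2 * δ * ∫ t, Q t * Q t := by
  unfold S
  have : ∀ t, M * Q ((t - a) / δ) * (M * Q ((t - a) / δ)) = M ^ 2 * (fun u => Q u * Q u) ((t - a) / δ) := by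
    intro t; ring
  simp_rw [this]
  rw [integral_const_mul, int_scale (fun u => Q u * Q u) δ a hδ]
  ring

theorem bump (a b ε M : ℝ) (hab : a < b) (hε : 0 < ε) (hM : 0 < M) :
    ∃ h w : ℝ → ℝ, Continuous h ∧ Continuous w ∧ (∀ t, t ≤ a ∨ b ≤ t → h t = 0 ∧ w t = 0) ∧
      ∫ t, h t * w t = 0 ∧ ∫ t, w t = 0 ∧ (∀ t, |h t - w t| ≤ ε) ∧
      (∃ x, a < x ∧ x < b ∧ M ≤ h x) ∧ ∃ x, a < x ∧ x < b ∧ w x ≠ 0 := by
  set ρ := b - a with hρ
  have hρ0 : 0 < ρ := by linarith
  set β := ε / 2 with hβ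
  have hβ0 : 0 < β := by positivity
  set M' := 64 / 3 * (M + 2 * β) with hM'
  have hM'0 : 0 < M' := by positivity
  have hM'β : β ≤ M' := by rw [hM']; nlinarith
  set δ := β ^ 2 * ρ / M' ^ 2 with hδ
  have hδ0 : 0 < δ := by positivity
  have hδρ : δ ≤ ρ := by
    rw [hδ, div_le_iff₀ (by positivity)]
    have : β ^ 2 ≤ M' ^ 2 := pow_le_pow_left₀ hβ0.le hM'β 2
    nlinarith
  have hcond : M' ^ 2 * δ = β ^ 2 * ρ := by rw [hδ]; field_simp
  let T := S M' δ a
  let g := S β ρ a
  have hTc : Continuous T := S_cont _ _ _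
  have hgc : Continuous g := S_cont _ _ _
  have hTs : HasCompactSupport T := S_supp _ _ _ hδ0
  have hgs : HasCompactSupport g := S_supp _ _ _ hρ0
  have hgabs : ∀ t, |g t| ≤ β := by
    intro t
    change |β * Q _| ≤ β
    rw [abs_mul, abs_of_pos hβ0]
    exact mul_le_of_le_one_right hβ0.le (Q_abs _)
  have hx1 : a < a + δ * (3/4) := by nlinarith
  have hx2 : a + δ * (3/4) < b := by nlinarith
  have hTx : T (a + δ * (3/4)) = M' * (3 / 64) := by
    change M' * Q _ = _
    have : (a + δ * (3/4) - a) / δ = 3/4 := by field_simp; ring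
    rw [this, Q_eq (by norm_num) (by norm_num)]
    norm_num
  have hval : M + 2 * β = M' * (3/64) := by rw [hM']; ring
  have hgx := abs_le.mp (hgabs (a + δ * (3/4)))
  refine ⟨fun t => T t + g t, fun t => T t - g t, hTc.add hgc, hTc.sub hgc, ?_, ?_, ?_, ?_,
    ⟨a + δ * (3/4), hx1, hx2, ?_⟩, ⟨a + δ * (3/4), hx1, hx2, ?_⟩⟩
  · intro t ht
    have h1 : T t = 0 := S_zero _ _ _ _ hδ0 (by rcases ht with h | h; left; exact h; right; linarith)
    have h2 : g t = 0 := S_zero _ _ _ _ hρ0 (by rcases ht with h | h; left; exact h; right; linarith)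
    simp [h1, h2]
  · have h1 : ∀ t, (T t + g t) * (T t - g t) = T t * T t - g t * g t := fun t => by ring
    simp_rw [h1]
    rw [integral_sub, S_sq _ _ _ hδ0, S_sq _ _ _ hρ0, hcond, sub_self]
    · exact (hTc.mul hTc).integrable_of_hasCompactSupport hTs.mul_left
    · exact (hgc.mul hgc).integrable_of_hasCompactSupport hgs.mul_left
  · rw [integral_sub, S_int _ _ _ hδ0, S_int _ _ _ hρ0, sub_self]
    · exact hTc.integrable_of_hasCompactSupport hTs
    · exact hgc.integrable_of_hasCompactSupport hgs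
  · intro t
    have h1 : T t + g t - (T t - g t) = 2 * g t := by ring
    rw [h1, abs_mul, abs_of_pos (by norm_num : (0:ℝ) < 2)]
    have := hgabs t
    rw [hβ] at this
    linarith
  · change M ≤ T _ + g _
    rw [hTx, ← hval]
    linarith [hgx.1]
  · change T _ - g _ ≠ 0
    rw [hTx, ← hval]
    intro h
    linarith [hgx.2]

end Pool.Agent.GSchm
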