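import Mathlib

set_option autoImplicit false

namespace Pool.Agent.HypA

variable {𝕂 : Type} [RCLike 𝕂]

theorem fd_no {V : Type} [AddCommGroup V] [Module 𝕂 V] [TopologicalSpace V] [IsTopologicalAddGroup V]
    [ContinuousSMul 𝕂 V] [T2Space V] [FiniteDimensional 𝕂 V] [Nontrivial V] (S : V →ₗ[𝕂] V) (v : V)
    (hv : Dense (Set.range fun n : ℕ => (S ^ n) v)) : False := by
  -- cyclic
  let C : Polynomial 𝕂 →ₗ[𝕂] V := (LinearMap.applyₗ v) ∘ₗ (Polynomial.aeval S).toLinearMap
  have hC : ∀ p, C p = Polynomial.aeval S p v := fun p => rfl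
  have hsurj : ∀ y, ∃ p, C p = y := by
    have hcl : IsClosed ((LinearMap.range C : Submodule 𝕂 V) : Set V) :=
      Submodule.closed_of_finiteDimensional _
    have hsub : Set.range (fun n : ℕ => (S ^ n) v) ⊆ (LinearMap.range C : Submodule 𝕂 V) := by
      rintro _ ⟨n, rfl⟩
      exact ⟨Polynomial.X ^ n, by rw [hC]; simp⟩
    have hd : Dense ((LinearMap.range C : Submodule 𝕂 V) : Set V) := hv.mono hsub
    intro y
    have : y ∈ closure ((LinearMap.range C : Submodule 𝕂 V) : Set V) := hd y
    rw [hcl.closure_eq] at this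
    exact this
  let b := Module.finBasis 𝕂 V
  choose p hp using fun j => hsurj (b j)
  let G : V → 𝕂 := fun y => Matrix.det (Matrix.of fun i j => b.repr (Polynomial.aeval S (p j) y) i)
  have hGc : Continuous G := by
    refine Continuous.matrix_det ?_
    refine continuous_matrix (fun i j => ?_)
    exact ((b.coord i) ∘ₗ (Polynomial.aeval S (p j))).continuous_of_finiteDimensional
  have hG1 : ∀ n, G ((S^n) v) = (LinearMap.det S)^n := by
    intro n
    have : (Matrix.of fun i j => b.repr (Polynomial.aeval S (p j) ((S^n) v)) i)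
        = LinearMap.toMatrix b b (S^n) := by
      ext i j
      rw [LinearMap.toMatrix_apply]
      show b.repr (Polynomial.aeval S (p j) ((S^n) v)) i = _
      have hcomm : Polynomial.aeval S (p j) ((S^n) v) = (S^n) (Polynomial.aeval S (p j) v) := by
        have h1 : Polynomial.aeval S (p j) * S^n = S^n * Polynomial.aeval S (p j) := by
          have e : (S^n) = Polynomial.aeval S (Polynomial.X ^ n : Polynomial 𝕂) := by simp
          rw [e, ← map_mul, ← map_mul, mul_comm]
        exact congrArg (fun f => f v) h1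
      rw [hcomm, ← hC, hp]
    show Matrix.det (Matrix.of fun i j => b.repr (Polynomial.aeval S (p j) ((S^n) v)) i) = _
    rw [this, LinearMap.det_toMatrix, map_pow]
  have hG2 : ∀ α : 𝕂, G (α • v) = α ^ (Module.finrank 𝕂 V) := by
    intro α
    have : (Matrix.of fun i j => b.repr (Polynomial.aeval S (p j) (α • v)) i)
        = α • (1 : Matrix (Fin (Module.finrank 𝕂 V)) (Fin (Module.finrank 𝕂 V)) 𝕂) := by
      ext i j
      show b.repr (Polynomial.aeval S (p j) (α • v)) i = _
      rw [map_smul, ← hC, hp, map_smul, Finsupp.smul_apply, b.repr_self, Matrix.smul_apply,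
        Matrix.one_apply, Finsupp.single_apply]
      simp only [eq_comm]
    show Matrix.det (Matrix.of fun i j => b.repr (Polynomial.aeval S (p j) (α • v)) i) = _
    rw [this, Matrix.det_smul, Matrix.det_one, mul_one, Fintype.card_fin]
  have hcl : ∀ α : 𝕂, α ^ (Module.finrank 𝕂 V) ∈ closure (Set.range fun n : ℕ => (LinearMap.det S)^n) := by
    intro α
    rw [← hG2]
    have h1 : α • v ∈ closure (Set.range fun n : ℕ => (S ^ n) v) := hv _
    have h2 := image_closure_subset_closure_image hGc ⟨_, h1, rfl⟩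
    refine closure_mono ?_ h2
    rintro _ ⟨_, ⟨n, rfl⟩, rfl⟩
    exact ⟨n, (hG1 n).symm⟩
  have hd : 0 < Module.finrank 𝕂 V := Module.finrank_pos
  rcases le_or_gt ‖LinearMap.det S‖ 1 with h | h
  · have hsub : closure (Set.range fun n : ℕ => (LinearMap.det S)^n) ⊆ Metric.closedBall 0 1 := by
      refine closure_minimal ?_ Metric.isClosed_closedBall
      rintro _ ⟨n, rfl⟩
      show (LinearMap.det S)^n ∈ Metric.closedBall 0 1
      rw [mem_closedBall_zero_iff, norm_pow]
      exact pow_le_one₀ (norm_nonneg _) h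
    have h2 := hsub (hcl 2)
    rw [mem_closedBall_zero_iff, norm_pow] at h2
    have h3 : (1:ℝ) < ‖(2:𝕂)‖ ^ (Module.finrank 𝕂 V) :=
      one_lt_pow₀ (by rw [RCLike.norm_ofNat]; norm_num) hd.ne'
    linarith
  · have hsub : closure (Set.range fun n : ℕ => (LinearMap.det S)^n) ⊆ {z : 𝕂 | 1 ≤ ‖z‖} := by
      refine closure_minimal ?_ (isClosed_le continuous_const continuous_norm)
      rintro _ ⟨n, rfl⟩
      show 1 ≤ ‖(LinearMap.det S)^n‖
      rw [norm_pow]
      exact one_le_pow₀ h.le
    have h2 : 1 ≤ ‖((2:𝕂)⁻¹) ^ (Module.finrank 𝕂 V)‖ := hsub (hcl (2⁻¹))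
    rw [norm_pow, norm_inv, RCLike.norm_ofNat] at h2
    have h3 : ((2:ℝ)⁻¹) ^ (Module.finrank 𝕂 V) < 1 := pow_lt_one₀ (by norm_num) (by norm_num) hd.ne'
    linarith

theorem dense_poly {X : Type} [AddCommGroup X] [Module 𝕂 X] [TopologicalSpace X]
    [IsTopologicalAddGroup X] [ContinuousSMul 𝕂 X] (T : X →L[𝕂] X) (x : X)
    (hx : Dense (Set.range fun n : ℕ => (T^n) x)) (p : Polynomial 𝕂) (hp : p ≠ 0) :
    DenseRange (Polynomial.aeval T p) := by
  set PT : X →L[𝕂] X := Polynomial.aeval T p with hPT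
  set R : Submodule 𝕂 X := LinearMap.range (PT : X →ₗ[𝕂] X) with hR
  set Y : Submodule 𝕂 X := R.topologicalClosure with hY
  have hTcomm : ∀ q : Polynomial 𝕂, ∀ z, T (Polynomial.aeval T q z) = Polynomial.aeval T q (T z) := by
    intro q z
    have h1 : T * Polynomial.aeval T q = Polynomial.aeval T q * T := by
      have e : T = Polynomial.aeval T (Polynomial.X : Polynomial 𝕂) := by simp
      nth_rewrite 1 [e]
      nth_rewrite 4 [e]
      rw [← map_mul, ← map_mul, mul_comm]
    exact congrArg (fun f : X →L[𝕂] X => f z) h1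
  have hTY : Y ≤ Y.comap (T : X →ₗ[𝕂] X) := by
    intro y hy
    show T y ∈ closure (R : Set X)
    have hy' : y ∈ closure (R : Set X) := hy
    have h2 := image_closure_subset_closure_image T.continuous ⟨_, hy', rfl⟩
    refine closure_mono ?_ h2
    rintro _ ⟨_, ⟨z, rfl⟩, rfl⟩
    exact ⟨T z, (hTcomm p z).symm⟩
  haveI hYc : IsClosed (Y : Set X) := R.isClosed_topologicalClosure
  by_contra hnd
  have hYne : Y ≠ ⊤ := by
    intro h
    apply hnd
    intro z
    have : z ∈ (Y : Set X) := by rw [h]; trivial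
    exact this
  haveI : Nontrivial (X ⧸ Y) := Submodule.Quotient.nontrivial_iff.mpr hYne
  let S : (X ⧸ Y) →ₗ[𝕂] (X ⧸ Y) := Y.mapQ Y (T : X →ₗ[𝕂] X) hTY
  have hS : ∀ z, S (Y.mkQ z) = Y.mkQ (T z) := fun z => rfl
  have hSn : ∀ n : ℕ, ∀ z, (S^n) (Y.mkQ z) = Y.mkQ ((T^n) z) := by
    intro n
    induction n with
    | zero => intro z; rfl
    | succ n ih =>
      intro z
      rw [pow_succ, Module.End.mul_apply, hS, ih]
      rfl
  have hSp : ∀ q : Polynomial 𝕂, ∀ z, Polynomial.aeval S q (Y.mkQ z) = Y.mkQ (Polynomial.aeval T q z) := by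
    intro q z
    induction q using Polynomial.induction_on' with
    | add q r hq hr =>
      rw [map_add, map_add, LinearMap.add_apply, hq, hr]
      rw [← map_add]; rfl
    | monomial n a =>
      rw [← Polynomial.C_mul_X_pow_eq_monomial, map_mul, map_mul, map_pow, map_pow, Polynomial.aeval_X,
        Polynomial.aeval_X, Polynomial.aeval_C, Polynomial.aeval_C, Module.End.mul_apply, hSn]
      rfl
  have hq0 : ∀ w, Polynomial.aeval S p w = 0 := by
    intro w
    obtain ⟨z, rfl⟩ := Y.mkQ_surjective w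
    rw [hSp, Submodule.mkQ_apply, Submodule.Quotient.mk_eq_zero]
    exact R.le_topologicalClosure ⟨z, rfl⟩
  have hcont : Continuous (Y.mkQ) := continuous_quot_mk
  have hdense : Dense (Set.range fun n : ℕ => (S^n) (Y.mkQ x)) := by
    have h1 := (Y.mkQ_surjective.denseRange).dense_image hcont hx
    rw [← Set.range_comp] at h1
    convert h1 using 2
    funext n
    exact hSn n x
  -- finite dimension
  let C : Polynomial 𝕂 →ₗ[𝕂] (X ⧸ Y) := (LinearMap.applyₗ (Y.mkQ x)) ∘ₗ (Polynomial.aeval S).toLinearMap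
  have hC : ∀ q, C q = Polynomial.aeval S q (Y.mkQ x) := fun q => rfl
  let W : Submodule 𝕂 (X ⧸ Y) := (Polynomial.degreeLT 𝕂 (p.natDegree)).map C
  haveI : FiniteDimensional 𝕂 (Polynomial.degreeLT 𝕂 (p.natDegree)) :=
    (Polynomial.degreeLTEquiv 𝕂 p.natDegree).symm.finiteDimensional
  haveI : FiniteDimensional 𝕂 W := inferInstance
  have hWc : IsClosed (W : Set (X ⧸ Y)) := Submodule.closed_of_finiteDimensional W
  have hWtop : W = ⊤ := by
    have hsub : Set.range (fun n : ℕ => (S^n) (Y.mkQ x)) ⊆ W := by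
      rintro _ ⟨n, rfl⟩
      refine ⟨(Polynomial.X ^ n) % p, ?_, ?_⟩
      · show (Polynomial.X ^ n) % p ∈ Polynomial.degreeLT 𝕂 (p.natDegree)
        rw [Polynomial.mem_degreeLT]
        have := EuclideanDomain.mod_lt (Polynomial.X ^ n : Polynomial 𝕂) hp
        rwa [← Polynomial.degree_eq_natDegree hp]
      · rw [hC]
        have e := EuclideanDomain.div_add_mod (Polynomial.X ^ n : Polynomial 𝕂) p
        have e2 : Polynomial.aeval S (Polynomial.X ^ n : Polynomial 𝕂) (Y.mkQ x) =
            Polynomial.aeval S ((Polynomial.X ^ n) % p) (Y.mkQ x) := by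
          conv_lhs => rw [← e]
          rw [map_add, map_mul, LinearMap.add_apply, Module.End.mul_apply, hq0, zero_add]
        rw [← e2]
        simp
    have hd : Dense (W : Set (X ⧸ Y)) := hdense.mono hsub
    rw [eq_top_iff]
    intro y _
    have : y ∈ closure (W : Set (X ⧸ Y)) := hd y
    rwa [hWc.closure_eq] at this
  haveI : FiniteDimensional 𝕂 (X ⧸ Y) := by
    have : FiniteDimensional 𝕂 (⊤ : Submodule 𝕂 (X ⧸ Y)) := hWtop ▸ (inferInstance : FiniteDimensional 𝕂 W)
    exact Module.finite_def.mpr (Submodule.fg_top _ |>.mp (Module.finite_def.mp this))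
  exact fd_no S (Y.mkQ x) hdense

end Pool.Agent.HypA
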