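import Mathlib
import Pool.Agent.HypA

set_option autoImplicit false

namespace Pool.Agent.HypB

open Filter Topology Set

open scoped BoundedContinuousFunction

variable {𝕂 : Type} [RCLike 𝕂] {X : Type} [AddCommGroup X] [Module 𝕂 X] [UniformSpace X]
      [IsUniformAddGroup X] [CompleteSpace X] [ContinuousSMul 𝕂 X]
      [TopologicalSpace.MetrizableSpace X]

omit [CompleteSpace X] [ContinuousSMul 𝕂 X] [Module 𝕂 X] [IsUniformAddGroup X] in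
theorem exists_W [IsTopologicalAddGroup X] : ∃ W : ℕ → Set X, (∀ n, W n ∈ 𝓝 (0:X)) ∧
    (∀ n, ∀ a ∈ W (n+1), ∀ b ∈ W (n+1), a + b ∈ W n) ∧ (∀ V ∈ 𝓝 (0:X), ∃ n, W n ⊆ V) := by
  obtain ⟨V, hV⟩ := (𝓝 (0:X)).exists_antitone_basis
  have hstep : ∀ (U : {U : Set X // U ∈ 𝓝 (0:X)}) (n : ℕ), ∃ U' : {U : Set X // U ∈ 𝓝 (0:X)},
      ∀ a ∈ U'.1, ∀ b ∈ U'.1, a + b ∈ U.1 ∩ V n := by
    intro U n
    obtain ⟨U', hU', h⟩ := exists_nhds_zero_half (inter_mem U.2 (hV.1.mem_of_mem trivial : V n ∈ 𝓝 (0:X)))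
    exact ⟨⟨U', hU'⟩, h⟩
  choose f hf using hstep
  let W : ℕ → {U : Set X // U ∈ 𝓝 (0:X)} := fun n => Nat.rec ⟨univ, univ_mem⟩ (fun n U => f U n) n
  refine ⟨fun n => (W n).1, fun n => (W n).2, fun n a ha b hb => (hf (W n) n a ha b hb).1, ?_⟩
  intro U hU
  obtain ⟨n, _, hn⟩ := hV.1.mem_iff.mp hU
  refine ⟨n + 1, fun a ha => hn ?_⟩
  have := (hf (W n) n a ha 0 (mem_of_mem_nhds (W (n+1)).2)).2
  rwa [add_zero] at this

omit [CompleteSpace X] [ContinuousSMul 𝕂 X] [Module 𝕂 X] [IsUniformAddGroup X]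
  [TopologicalSpace.MetrizableSpace X] in
theorem W_anti (W : ℕ → Set X) (h0 : ∀ n, W n ∈ 𝓝 (0:X))
    (h1 : ∀ n, ∀ a ∈ W (n+1), ∀ b ∈ W (n+1), a + b ∈ W n) : Antitone W := by
  refine antitone_nat_of_succ_le (fun n a ha => ?_)
  have := h1 n a ha 0 (mem_of_mem_nhds (h0 _))
  rwa [add_zero] at this

omit [CompleteSpace X] [ContinuousSMul 𝕂 X] [Module 𝕂 X] [IsUniformAddGroup X]
  [TopologicalSpace.MetrizableSpace X] in
theorem sum_mem_W (W : ℕ → Set X) (h0 : ∀ n, W n ∈ 𝓝 (0:X))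
    (h1 : ∀ n, ∀ a ∈ W (n+1), ∀ b ∈ W (n+1), a + b ∈ W n) (f : ℕ → X) (M : ℕ)
    (hf : ∀ k, M ≤ k → f k ∈ W (k+1)) : ∀ d n, M ≤ n → ∀ t : Finset ℕ, (∀ k ∈ t, n ≤ k ∧ k < n + d) →
      ∑ k ∈ t, f k ∈ W n := by
  intro d
  induction d with
  | zero =>
    intro n _ t ht
    have : t = ∅ := by
      rw [Finset.eq_empty_iff_forall_notMem]
      intro k hk
      have := ht k hk
      omega
    rw [this, Finset.sum_empty]
    exact mem_of_mem_nhds (h0 n)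
  | succ d ih =>
    intro n hn t ht
    have h2 : ∑ k ∈ t.erase n, f k ∈ W (n+1) := by
      apply ih (n+1) (by omega)
      intro k hk
      have h3 := Finset.mem_erase.mp hk
      have := ht k h3.2
      have := h3.1
      omega
    by_cases hnt : n ∈ t
    · rw [← Finset.add_sum_erase t f hnt]
      exact h1 n _ (hf n hn) _ h2
    · rw [Finset.erase_eq_of_notMem hnt] at h2
      exact W_anti W h0 h1 (Nat.le_succ n) h2

omit [ContinuousSMul 𝕂 X] [Module 𝕂 X] [TopologicalSpace.MetrizableSpace X] in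
theorem summ_W (W : ℕ → Set X) (h0 : ∀ n, W n ∈ 𝓝 (0:X))
    (h1 : ∀ n, ∀ a ∈ W (n+1), ∀ b ∈ W (n+1), a + b ∈ W n) (h2 : ∀ V ∈ 𝓝 (0:X), ∃ n, W n ⊆ V)
    (f : ℕ → X) (M : ℕ) (hf : ∀ k, M ≤ k → f k ∈ W (k+1)) : Summable f := by
  rw [summable_iff_vanishing]
  intro e he
  obtain ⟨n0, hn0⟩ := h2 e he
  refine ⟨Finset.range (max n0 M), fun t ht => ?_⟩
  apply hn0
  apply W_anti W h0 h1 (le_max_left n0 M)
  obtain ⟨d, hd⟩ : ∃ d, ∀ k ∈ t, k < d := ⟨t.sup id + 1, fun k hk => Nat.lt_succ_of_le (Finset.le_sup (f := id) hk)⟩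
  apply sum_mem_W W h0 h1 f M hf d (max n0 M) (le_max_right _ _) t
  intro k hk
  have h3 := Finset.disjoint_left.mp ht hk
  rw [Finset.mem_range] at h3
  have := hd k hk
  omega

/-- coefficient -/
noncomputable def cf (δ : ℕ → ℝ) (k : ℕ) (s : ℕ → Icc (0:ℝ) 1) (w : ℕ → 𝕂) : 𝕂 :=
  w (Nat.unpair k).1 * ((δ k * (s k : ℝ) : ℝ) : 𝕂)

omit [CompleteSpace X] [IsUniformAddGroup X] [TopologicalSpace.MetrizableSpace X] in
theorem exists_delta (W : ℕ → Set X) (h0 : ∀ n, W n ∈ 𝓝 (0:X)) (y : ℕ → X) :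
    ∃ δ : ℕ → ℝ, (∀ k, 0 < δ k) ∧ ∀ k : ℕ, ∀ c : 𝕂, ‖c‖ ≤ k → (c * ((δ k : ℝ) : 𝕂)) • y k ∈ W (k+1) := by
  have h : ∀ k : ℕ, ∃ δ : ℝ, 0 < δ ∧ ∀ c : 𝕂, ‖c‖ ≤ k → (c * ((δ : ℝ) : 𝕂)) • y k ∈ W (k+1) := by
    intro k
    have hc : Continuous (fun z : ℝ × 𝕂 => (z.2 * ((z.1 : ℝ) : 𝕂)) • y k) :=
      (continuous_snd.mul (RCLike.continuous_ofReal.comp continuous_fst)).smul continuous_const
    have hev : ∀ᶠ δ : ℝ in 𝓝 (0:ℝ), ∀ c ∈ Metric.closedBall (0:𝕂) k, (c * ((δ : ℝ) : 𝕂)) • y k ∈ W (k+1) := by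
      refine (isCompact_closedBall (0:𝕂) (k:ℝ)).eventually_forall_of_forall_eventually (fun c _ => ?_)
      have h2 := hc.tendsto ((0:ℝ), c)
      simp only [RCLike.ofReal_zero, mul_zero, zero_smul] at h2
      exact h2 (h0 (k+1))
    have hev2 : ∀ᶠ δ : ℝ in 𝓝[>] (0:ℝ), ∀ c ∈ Metric.closedBall (0:𝕂) k, (c * ((δ : ℝ) : 𝕂)) • y k ∈ W (k+1) :=
      hev.filter_mono nhdsWithin_le_nhds
    obtain ⟨δ, hδ, hδ2⟩ := (hev2.and self_mem_nhdsWithin).exists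
    exact ⟨δ, hδ2, fun c hc => hδ c (mem_closedBall_zero_iff.mpr hc)⟩
  choose δ hδ using h
  exact ⟨δ, fun k => (hδ k).1, fun k => (hδ k).2⟩

/-- the series -/
noncomputable def LL (y : ℕ → X) (δ : ℕ → ℝ) (s : ℕ → Icc (0:ℝ) 1) (w : ℕ → 𝕂) : X :=
  ∑' k, cf δ k s w • y k

omit [UniformSpace X] [IsUniformAddGroup X] [CompleteSpace X] [ContinuousSMul 𝕂 X]
  [TopologicalSpace.MetrizableSpace X] in
theorem term_mem (W : ℕ → Set X) (y : ℕ → X) (δ : ℕ → ℝ)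
    (hδ : ∀ k : ℕ, ∀ c : 𝕂, ‖c‖ ≤ k → (c * ((δ k : ℝ) : 𝕂)) • y k ∈ W (k+1))
    (s : ℕ → Icc (0:ℝ) 1) (w : ℕ → 𝕂) (M : ℕ) (hw : ∀ j, ‖w j‖ ≤ M) (k : ℕ) (hk : M ≤ k) :
    cf δ k s w • y k ∈ W (k+1) := by
  have e : cf δ k s w = (w (Nat.unpair k).1 * (((s k : ℝ)) : 𝕂)) * ((δ k : ℝ) : 𝕂) := by
    unfold cf
    push_cast
    ring
  rw [e]
  apply hδ
  rw [norm_mul, RCLike.norm_ofReal, abs_of_nonneg (s k).2.1]
  have h1 := hw (Nat.unpair k).1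
  have h2 := (s k).2.2
  have h3 : (M:ℝ) ≤ k := by exact_mod_cast hk
  have h4 := norm_nonneg (w (Nat.unpair k).1)
  calc ‖w (Nat.unpair k).1‖ * (s k : ℝ) ≤ ‖w (Nat.unpair k).1‖ * 1 := mul_le_mul_of_nonneg_left h2 h4
    _ ≤ k := by linarith

/-- continuity of the series on bounded sets -/
theorem LL_cont (W : ℕ → Set X) (h0 : ∀ n, W n ∈ 𝓝 (0:X))
    (h1 : ∀ n, ∀ a ∈ W (n+1), ∀ b ∈ W (n+1), a + b ∈ W n) (h2 : ∀ V ∈ 𝓝 (0:X), ∃ n, W n ⊆ V)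
    (y : ℕ → X) (δ : ℕ → ℝ)
    (hδ : ∀ k : ℕ, ∀ c : 𝕂, ‖c‖ ≤ k → (c * ((δ k : ℝ) : 𝕂)) • y k ∈ W (k+1)) (M : ℕ) :
    ContinuousOn (fun p : (ℕ → Icc (0:ℝ) 1) × (ℕ → 𝕂) => LL y δ p.1 p.2) {p | ∀ j, ‖p.2 j‖ ≤ M} := by
  have hunif : TendstoUniformlyOn (fun n (p : (ℕ → Icc (0:ℝ) 1) × (ℕ → 𝕂)) =>
      ∑ k ∈ Finset.range n, cf δ k p.1 p.2 • y k) (fun p => LL y δ p.1 p.2) atTop {p | ∀ j, ‖p.2 j‖ ≤ M} := by
    intro u hu
    rw [uniformity_eq_comap_nhds_zero X] at hu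
    obtain ⟨V, hV, hVu⟩ := hu
    obtain ⟨V', hV', hV'c, hV'V⟩ := exists_mem_nhds_isClosed_subset hV
    obtain ⟨U, hU, hUV⟩ := exists_nhds_zero_half hV'
    -- symmetric version
    have hneg : (fun a : X => -a) ⁻¹' V' ∈ 𝓝 (0:X) := by
      have : Tendsto (fun a : X => -a) (𝓝 0) (𝓝 0) := by
        simpa using (continuous_neg.tendsto (0:X))
      exact this hV'
    obtain ⟨n0, hn0⟩ := h2 _ hneg
    filter_upwards [eventually_ge_atTop (max n0 M)] with n hn p hp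
    apply hVu
    show (∑ k ∈ Finset.range n, cf δ k p.1 p.2 • y k) - LL y δ p.1 p.2 ∈ V
    apply hV'V
    have hsum : Summable (fun k => cf δ k p.1 p.2 • y k) :=
      summ_W W h0 h1 h2 _ M (fun k hk => term_mem W y δ hδ p.1 p.2 M hp k hk)
    have hlim : Tendsto (fun m => (∑ k ∈ Finset.range n, cf δ k p.1 p.2 • y k) -
        ∑ k ∈ Finset.range m, cf δ k p.1 p.2 • y k) atTop
        (𝓝 ((∑ k ∈ Finset.range n, cf δ k p.1 p.2 • y k) - LL y δ p.1 p.2)) :=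
      hsum.hasSum.tendsto_sum_nat.const_sub _
    refine hV'c.mem_of_tendsto hlim ?_
    filter_upwards [eventually_ge_atTop n] with m hm
    have e : (∑ k ∈ Finset.range n, cf δ k p.1 p.2 • y k) - ∑ k ∈ Finset.range m, cf δ k p.1 p.2 • y k
        = - ∑ k ∈ Finset.Ico n m, cf δ k p.1 p.2 • y k := by
      rw [Finset.sum_Ico_eq_sub _ hm]; abel
    rw [e]
    have h5 : ∑ k ∈ Finset.Ico n m, cf δ k p.1 p.2 • y k ∈ W n0 := by
      apply W_anti W h0 h1 ((le_max_left n0 M).trans hn)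
      apply sum_mem_W W h0 h1 _ M (fun k hk => term_mem W y δ hδ p.1 p.2 M hp k hk) (m - n) n
        ((le_max_right n0 M).trans hn)
      intro k hk
      rw [Finset.mem_Ico] at hk
      omega
    exact hn0 h5
  refine hunif.continuousOn (Frequently.of_forall (fun n => ?_))
  apply Continuous.continuousOn
  refine continuous_finsetSum _ (fun k _ => ?_)
  refine Continuous.smul ?_ continuous_const
  unfold cf
  refine Continuous.mul ?_ ?_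
  · exact (continuous_apply _).comp continuous_snd
  · refine RCLike.continuous_ofReal.comp (continuous_const.mul ?_)
    exact continuous_subtype_val.comp ((continuous_apply _).comp continuous_fst)

end Pool.Agent.HypB
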