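import Mathlib
import Pool.Agent.HypA
import Pool.Agent.HypB

set_option autoImplicit false

namespace Pool.Agent.HypC

open Filter Topology Set Pool.Agent.HypB

open scoped BoundedContinuousFunction

variable {𝕂 : Type} [RCLike 𝕂] {X : Type} [AddCommGroup X] [Module 𝕂 X] [UniformSpace X]
      [IsUniformAddGroup X] [CompleteSpace X] [ContinuousSMul 𝕂 X]
      [TopologicalSpace.MetrizableSpace X]

/-- vector -/
noncomputable def vec (y : ℕ → X) (δ : ℕ → ℝ) (M : ℕ) (s : ℕ → Icc (0:ℝ) 1)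
    (p : (Fin M → 𝕂) × (ℕ → 𝕂)) : X :=
  ∑ i : Fin M, p.1 i • y i + LL y δ s p.2

def KM (𝕂 : Type) [RCLike 𝕂] (M : ℕ) : Set ((Fin M → 𝕂) × (ℕ → 𝕂)) :=
  {p | (∀ i, ‖p.1 i‖ ≤ M) ∧ (∀ j, ‖p.2 j‖ ≤ M) ∧ ∃ j, j ∈ Finset.range M ∧ 1 / ((M:ℝ)+1) ≤ ‖p.2 j‖}

theorem KM_compact (M : ℕ) : IsCompact (KM 𝕂 M) := by
  have h1 : IsCompact ((Set.pi univ (fun _ : Fin M => Metric.closedBall (0:𝕂) M)) ×ˢ
      (Set.pi univ (fun _ : ℕ => Metric.closedBall (0:𝕂) M))) :=
    (isCompact_univ_pi (fun _ => isCompact_closedBall _ _)).prod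
      (isCompact_univ_pi (fun _ => isCompact_closedBall _ _))
  refine h1.of_isClosed_subset ?_ ?_
  · have e : KM 𝕂 M = (⋂ i : Fin M, {p | ‖p.1 i‖ ≤ M}) ∩ ((⋂ j : ℕ, {p | ‖p.2 j‖ ≤ M}) ∩
        (⋃ j ∈ Finset.range M, {p | 1 / ((M:ℝ)+1) ≤ ‖p.2 j‖})) := by
      ext p
      constructor
      · rintro ⟨h1, h2, j, hj, h3⟩
        exact ⟨mem_iInter.mpr h1, mem_iInter.mpr h2, mem_iUnion₂.mpr ⟨j, hj, h3⟩⟩
      · rintro ⟨h1, h2, h3⟩
        obtain ⟨j, hj, h3⟩ := mem_iUnion₂.mp h3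
        exact ⟨fun i => mem_iInter.mp h1 i, fun j => mem_iInter.mp h2 j, j, hj, h3⟩
    rw [e]
    refine IsClosed.inter ?_ (IsClosed.inter ?_ ?_)
    · exact isClosed_iInter (fun i => isClosed_le
        (continuous_norm.comp ((continuous_apply i).comp continuous_fst)) continuous_const)
    · exact isClosed_iInter (fun j => isClosed_le
        (continuous_norm.comp ((continuous_apply j).comp continuous_snd)) continuous_const)
    · refine (Finset.finite_toSet (Finset.range M)).isClosed_biUnion (fun j _ => isClosed_le continuous_const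
        (continuous_norm.comp ((continuous_apply j).comp continuous_snd)))
  · rintro p ⟨h1, h2, _⟩
    refine ⟨fun i _ => ?_, fun j _ => ?_⟩
    · exact mem_closedBall_zero_iff.mpr (h1 i)
    · exact mem_closedBall_zero_iff.mpr (h2 j)

def G (T : X →L[𝕂] X) (y : ℕ → X) (δ : ℕ → ℝ) (M : ℕ) (U : Set X) : Set (ℕ → Icc (0:ℝ) 1) :=
  {s | ∀ p ∈ KM 𝕂 M, ∃ n : ℕ, (T^n) (vec y δ M s p) ∈ U}

theorem G_open (T : X →L[𝕂] X) (W : ℕ → Set X) (h0 : ∀ n, W n ∈ 𝓝 (0:X))
    (h1 : ∀ n, ∀ a ∈ W (n+1), ∀ b ∈ W (n+1), a + b ∈ W n) (h2 : ∀ V ∈ 𝓝 (0:X), ∃ n, W n ⊆ V)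
    (y : ℕ → X) (δ : ℕ → ℝ)
    (hδ : ∀ k : ℕ, ∀ c : 𝕂, ‖c‖ ≤ k → (c * ((δ k : ℝ) : 𝕂)) • y k ∈ W (k+1)) (M : ℕ)
    (U : Set X) (hU : IsOpen U) : IsOpen (G T y δ M U) := by
  have hO : IsOpen (⋃ n : ℕ, (fun z => (T^n) z) ⁻¹' U) :=
    isOpen_iUnion (fun n => hU.preimage (T^n).continuous)
  let vf : (ℕ → Icc (0:ℝ) 1) × ((Fin M → 𝕂) × (ℕ → 𝕂)) → X := fun q => vec y δ M q.1 q.2
  have hKc : IsClosed {q : (ℕ → Icc (0:ℝ) 1) × ((Fin M → 𝕂) × (ℕ → 𝕂)) | q.2 ∈ KM 𝕂 M} :=
    (KM_compact M).isClosed.preimage continuous_snd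
  have hcont : ContinuousOn vf {q | q.2 ∈ KM 𝕂 M} := by
    refine ContinuousOn.add ?_ ?_
    · apply Continuous.continuousOn
      refine continuous_finsetSum _ (fun i _ => ?_)
      exact ((continuous_apply i).comp (continuous_fst.comp continuous_snd)).smul continuous_const
    · refine (LL_cont W h0 h1 h2 y δ hδ M).comp (f := fun q : (ℕ → Icc (0:ℝ) 1) × ((Fin M → 𝕂) × (ℕ → 𝕂)) =>
        (q.1, q.2.2)) ?_ ?_
      · exact (continuous_fst.prodMk (continuous_snd.comp continuous_snd)).continuousOn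
      · intro q hq
        exact hq.2.1
  have hcl := hcont.preimage_isClosed_of_isClosed hKc hO.isClosed_compl
  have hcomp : IsCompact ({q : (ℕ → Icc (0:ℝ) 1) × ((Fin M → 𝕂) × (ℕ → 𝕂)) | q.2 ∈ KM 𝕂 M} ∩
      vf ⁻¹' (⋃ n : ℕ, (fun z => (T^n) z) ⁻¹' U)ᶜ) := by
    refine (isCompact_univ.prod (KM_compact (𝕂 := 𝕂) M)).of_isClosed_subset hcl ?_
    rintro q ⟨hq, _⟩
    exact ⟨trivial, hq⟩
  have himg := (hcomp.image continuous_fst).isClosed
  rw [← isClosed_compl_iff]
  convert himg using 1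
  ext s
  constructor
  · intro hs
    have hs' : ¬ ∀ p ∈ KM 𝕂 M, ∃ n : ℕ, (T^n) (vec y δ M s p) ∈ U := hs
    push Not at hs'
    obtain ⟨p, hp, hp2⟩ := hs'
    refine ⟨(s, p), ⟨hp, ?_⟩, rfl⟩
    intro hmem
    obtain ⟨n, hn⟩ := mem_iUnion.mp hmem
    exact hp2 n hn
  · rintro ⟨⟨s', p⟩, ⟨hp, hp2⟩, rfl⟩ hs
    obtain ⟨n, hn⟩ := hs p hp
    exact hp2 (mem_iUnion.mpr ⟨n, hn⟩)

omit [IsUniformAddGroup X] [CompleteSpace X] [TopologicalSpace.MetrizableSpace X] in
theorem aeval_mono [IsTopologicalAddGroup X] (T : X →L[𝕂] X) (x : X) (n : ℕ) (r : 𝕂) :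
    (Polynomial.aeval T (Polynomial.monomial n r)) x = r • (T^n) x := by
  rw [Polynomial.aeval_monomial]
  rfl

theorem G_dense (T : X →L[𝕂] X) (x : X)
    (hHC : ∀ q : Polynomial 𝕂, q ≠ 0 → Dense (range fun n : ℕ => (T^n) (Polynomial.aeval T q x)))
    (δ : ℕ → ℝ) (hδ : ∀ k, 0 < δ k) (M : ℕ) (U : Set X) (hU : IsOpen U) (hUne : U.Nonempty) :
    Dense (G T (fun k => (T^k) x) δ M U) := by
  intro s0
  rw [mem_closure_iff]
  intro O hO hs0
  let Kp : ℕ → ℕ := fun K => (Finset.range M).sup (fun j => Nat.pair j (max K M)) + 1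
  let sK : ℕ → (ℕ → Icc (0:ℝ) 1) := fun K k => if k < K then s0 k else if k < Kp K then 1 else 0
  have htend : Tendsto sK atTop (𝓝 s0) := by
    rw [tendsto_pi_nhds]
    intro k
    refine tendsto_const_nhds.congr' ?_
    filter_upwards [eventually_gt_atTop k] with K hK
    show s0 k = if k < K then s0 k else if k < Kp K then 1 else 0
    rw [if_pos hK]
  obtain ⟨K, hK⟩ := (htend.eventually (hO.mem_nhds hs0)).exists
  refine ⟨sK K, hK, ?_⟩
  intro p hp
  set N := max K (Kp K) with hN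
  have hLL : LL (fun k => (T^k) x) δ (sK K) p.2 =
      ∑ k ∈ Finset.range N, cf δ k (sK K) p.2 • (T^k) x := by
    apply tsum_eq_sum
    intro k hk
    rw [Finset.mem_range, not_lt] at hk
    have h3 : sK K k = 0 := by
      show (if k < K then s0 k else if k < Kp K then 1 else 0) = 0
      rw [if_neg (by have := le_max_left K (Kp K); omega), if_neg (by have := le_max_right K (Kp K); omega)]
    unfold cf
    rw [h3]
    simp
  let q : Polynomial 𝕂 := ∑ i : Fin M, Polynomial.monomial (i:ℕ) (p.1 i) +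
    ∑ k ∈ Finset.range N, Polynomial.monomial k (cf δ k (sK K) p.2)
  have hq : Polynomial.aeval T q x = vec (fun k => (T^k) x) δ M (sK K) p := by
    show Polynomial.aeval T (∑ i : Fin M, Polynomial.monomial (i:ℕ) (p.1 i) +
      ∑ k ∈ Finset.range N, Polynomial.monomial k (cf δ k (sK K) p.2)) x = _
    rw [map_add, map_sum, map_sum, ContinuousLinearMap.add_apply, ContinuousLinearMap.sum_apply,
      ContinuousLinearMap.sum_apply]
    simp only [aeval_mono]
    rw [vec, hLL]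
  have hq0 : q ≠ 0 := by
    obtain ⟨_, _, j, hj, hwj⟩ := hp
    intro hq0
    have hc := congrArg (fun r : Polynomial 𝕂 => r.coeff (Nat.pair j (max K M))) hq0
    have hk1 : max K M ≤ Nat.pair j (max K M) := Nat.right_le_pair _ _
    have hk2 : Nat.pair j (max K M) < Kp K := Nat.lt_succ_of_le (Finset.le_sup (f := fun j => Nat.pair j (max K M)) hj)
    have hk3 : Nat.pair j (max K M) < N := hk2.trans_le (le_max_right _ _)
    have hMk : M ≤ Nat.pair j (max K M) := (le_max_right _ _).trans hk1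
    have hKk : K ≤ Nat.pair j (max K M) := (le_max_left _ _).trans hk1
    have e1 : (∑ i : Fin M, Polynomial.monomial (i:ℕ) (p.1 i)).coeff (Nat.pair j (max K M)) = 0 := by
      rw [Polynomial.finset_sum_coeff]
      apply Finset.sum_eq_zero
      intro i _
      rw [Polynomial.coeff_monomial, if_neg]
      have := i.2
      omega
    have e2 : (∑ k ∈ Finset.range N, Polynomial.monomial k (cf δ k (sK K) p.2)).coeff (Nat.pair j (max K M))
        = cf δ (Nat.pair j (max K M)) (sK K) p.2 := by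
      rw [Polynomial.finset_sum_coeff, Finset.sum_eq_single (Nat.pair j (max K M))]
      · rw [Polynomial.coeff_monomial, if_pos rfl]
      · intro k _ hk
        rw [Polynomial.coeff_monomial, if_neg hk]
      · intro h
        exact (h (Finset.mem_range.mpr hk3)).elim
    have hc' : (∑ i : Fin M, Polynomial.monomial (i:ℕ) (p.1 i) +
      ∑ k ∈ Finset.range N, Polynomial.monomial k (cf δ k (sK K) p.2)).coeff (Nat.pair j (max K M)) = 0 := hc
    rw [Polynomial.coeff_add, e1, e2, zero_add] at hc'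
    have h3 : sK K (Nat.pair j (max K M)) = 1 := by
      show (if Nat.pair j (max K M) < K then s0 _ else if Nat.pair j (max K M) < Kp K then 1 else 0) = 1
      rw [if_neg (by omega), if_pos hk2]
    unfold cf at hc'
    rw [h3, Nat.unpair_pair] at hc'
    rcases mul_eq_zero.mp hc' with h4 | h4
    · have h4' : p.2 j = 0 := h4
      rw [h4', norm_zero] at hwj
      have : 0 < 1 / ((M:ℝ)+1) := by positivity
      linarith
    · have h5 : δ (Nat.pair j (max K M)) * ((1 : Icc (0:ℝ) 1) : ℝ) = 0 := by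
        exact_mod_cast h4
      have h6 : ((1 : Icc (0:ℝ) 1) : ℝ) = 1 := rfl
      rw [h6, mul_one] at h5
      exact (hδ _).ne' h5
  obtain ⟨z, hzU, ⟨n, hn⟩⟩ := (hHC q hq0).inter_open_nonempty U hU hUne
  refine ⟨n, ?_⟩
  rw [← hq]
  have hn' : (T^n) (Polynomial.aeval T q x) = z := hn
  rw [hn']
  exact hzU

theorem main (T : X →L[𝕂] X) (x : X) (hx : Dense (range fun n : ℕ => (T^n) x)) :
    (∀ q : Polynomial 𝕂, q ≠ 0 → Dense (range fun n : ℕ => (T^n) (Polynomial.aeval T q x))) ∧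
    ∃ L : (ℕ →ᵇ 𝕂) →ₗ[𝕂] X, ∀ (q : Polynomial 𝕂) (w : ℕ →ᵇ 𝕂), w ≠ 0 →
      Dense (range fun n : ℕ => (T^n) (Polynomial.aeval T q x + L w)) := by
  have hHC : ∀ q : Polynomial 𝕂, q ≠ 0 → Dense (range fun n : ℕ => (T^n) (Polynomial.aeval T q x)) := by
    intro q hq
    have h1 := (Pool.Agent.HypA.dense_poly T x hx q hq).dense_image (Polynomial.aeval T q).continuous hx
    rw [← range_comp] at h1
    convert h1 using 2
    funext n
    have h2 : T^n * Polynomial.aeval T q = Polynomial.aeval T q * T^n := by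
      have e : T^n = Polynomial.aeval T (Polynomial.X ^ n : Polynomial 𝕂) := by simp
      rw [e, ← map_mul, ← map_mul, mul_comm]
    exact congrArg (fun f : X →L[𝕂] X => f x) h2
  refine ⟨hHC, ?_⟩
  obtain ⟨W, h0, h1, h2⟩ := exists_W (X := X)
  obtain ⟨δ, hδ0, hδ⟩ := exists_delta (𝕂 := 𝕂) W h0 (fun k => (T^k) x)
  have hug : (uniformity X).IsCountablyGenerated := IsUniformAddGroup.uniformity_countably_generated
  have hsep : TopologicalSpace.SeparableSpace X := ⟨⟨_, countable_range _, hx⟩⟩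
  have hsc : SecondCountableTopology X := UniformSpace.secondCountable_of_separable X
  have hcb : Countable (TopologicalSpace.countableBasis X) :=
    (TopologicalSpace.countable_countableBasis X).to_subtype
  have hdense : Dense (⋂ i : (TopologicalSpace.countableBasis X) × ℕ,
      G T (fun k => (T^k) x) δ i.2 i.1.1) := by
    apply dense_iInter_of_isOpen
    · intro i
      exact G_open T W h0 h1 h2 _ δ hδ i.2 i.1.1 (TopologicalSpace.isOpen_of_mem_countableBasis i.1.2)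
    · intro i
      exact G_dense T x hHC δ hδ0 i.2 i.1.1 (TopologicalSpace.isOpen_of_mem_countableBasis i.1.2)
        (TopologicalSpace.nonempty_of_mem_countableBasis i.1.2)
  obtain ⟨s, hs⟩ := hdense.nonempty
  have hsum : ∀ w : ℕ →ᵇ 𝕂, Summable (fun k => cf δ k s w • (T^k) x) := by
    intro w
    obtain ⟨M, hM⟩ := exists_nat_ge ‖w‖
    exact summ_W W h0 h1 h2 _ M (fun k hk => term_mem W (fun k => (T^k) x) δ hδ s w M
      (fun j => (w.norm_coe_le_norm j).trans hM) k hk)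
  let L : (ℕ →ᵇ 𝕂) →ₗ[𝕂] X :=
    { toFun := fun w => LL (fun k => (T^k) x) δ s w
      map_add' := fun w w' => by
        unfold LL
        rw [← (hsum w).tsum_add (hsum w')]
        refine tsum_congr (fun k => ?_)
        rw [← add_smul]
        congr 1
        unfold cf
        rw [BoundedContinuousFunction.coe_add, Pi.add_apply, add_mul]
      map_smul' := fun r w => by
        unfold LL
        rw [RingHom.id_apply, ← (hsum w).tsum_const_smul r]
        refine tsum_congr (fun k => ?_)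
        rw [smul_smul]
        congr 1
        unfold cf
        rw [BoundedContinuousFunction.coe_smul]
        simp only [smul_eq_mul, mul_assoc] }
  refine ⟨L, fun q w hw => ?_⟩
  rw [(TopologicalSpace.isBasis_countableBasis X).dense_iff]
  intro U hU hUne
  -- choose M
  obtain ⟨j, hj⟩ : ∃ j, w j ≠ 0 := by
    by_contra hcon
    push Not at hcon
    apply hw
    ext j
    exact hcon j
  have hjn : 0 < ‖w j‖ := norm_pos_iff.mpr hj
  obtain ⟨M1, hM1⟩ := exists_nat_ge ‖w‖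
  obtain ⟨M2, hM2⟩ := exists_nat_ge (1 / ‖w j‖)
  obtain ⟨M3, hM3⟩ : ∃ M3 : ℕ, ∀ i, ‖q.coeff i‖ ≤ M3 := by
    obtain ⟨C, hC⟩ := exists_nat_ge (∑ i ∈ q.support, ‖q.coeff i‖)
    refine ⟨C, fun i => ?_⟩
    by_cases hi : i ∈ q.support
    · exact (Finset.single_le_sum (f := fun i => ‖q.coeff i‖) (fun _ _ => norm_nonneg _) hi).trans hC
    · rw [Polynomial.notMem_support_iff.mp hi, norm_zero]
      exact Nat.cast_nonneg C
  set M := M1 + M2 + M3 + q.natDegree + j + 1 with hM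
  have hM1' : (M1:ℝ) ≤ M := by exact_mod_cast (by omega : M1 ≤ M)
  have hM2' : (M2:ℝ) ≤ M := by exact_mod_cast (by omega : M2 ≤ M)
  have hM3' : (M3:ℝ) ≤ M := by exact_mod_cast (by omega : M3 ≤ M)
  have hsG := mem_iInter.mp hs (⟨U, hU⟩, M)
  have hmem : ((fun i : Fin M => q.coeff i, (w : ℕ → 𝕂)) : (Fin M → 𝕂) × (ℕ → 𝕂)) ∈ KM 𝕂 M := by
    refine ⟨fun i => (hM3 i).trans hM3', fun i => (w.norm_coe_le_norm i).trans (hM1.trans hM1'), j,
      Finset.mem_range.mpr (by omega), ?_⟩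
    show 1 / ((M:ℝ) + 1) ≤ ‖w j‖
    rw [div_le_iff₀ (by positivity)]
    rw [div_le_iff₀ hjn] at hM2
    nlinarith
  obtain ⟨n, hn⟩ := hsG _ hmem
  refine ⟨_, hn, n, ?_⟩
  show (T^n) (Polynomial.aeval T q x + L w) = (T^n) (vec (fun k => (T^k) x) δ M s _)
  congr 1
  unfold vec
  congr 1
  rw [Polynomial.aeval_eq_sum_range' (show q.natDegree < M by omega), ContinuousLinearMap.sum_apply,
    Finset.sum_range]
  rfl

end Pool.Agent.HypC
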