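import Pool.Agent.GS2

set_option autoImplicit false

namespace Pool.Agent.NilRep

open MonoidAlgebra Pool.Agent.GS

noncomputable section

abbrev A := MonoidAlgebra ℚ W
abbrev T := MonoidAlgebra ℚ (W × W)

def L : A →+* T := MonoidAlgebra.mapDomainRingHom ℚ (MonoidHom.inl W W)
def R : A →+* T := MonoidAlgebra.mapDomainRingHom ℚ (MonoidHom.inr W W)

theorem L_single (w : W) (c : ℚ) : L (MonoidAlgebra.single w c) = MonoidAlgebra.single (w, 1) c := by
  simp [L]

theorem R_single (w : W) (c : ℚ) : R (MonoidAlgebra.single w c) = MonoidAlgebra.single (1, w) c := by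
  simp [R]

theorem LR_comm (a b : A) : L a * R b = R b * L a := by
  induction a using MonoidAlgebra.induction_linear with
  | zero => simp
  | add a a' ha ha' => rw [map_add, add_mul, mul_add, ha, ha']
  | single w c =>
    induction b using MonoidAlgebra.induction_linear with
    | zero => simp
    | add b b' hb hb' => rw [map_add, add_mul, mul_add, hb, hb']
    | single w' c' =>
      rw [L_single, R_single, MonoidAlgebra.single_mul_single, MonoidAlgebra.single_mul_single]
      simp [mul_comm]

theorem single_eq (w w' : W) (c : ℚ) : (MonoidAlgebra.single (w, w') c : T) = c • (L (m w) * R (m w')) := by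
  rw [m, m, L_single, R_single, MonoidAlgebra.single_mul_single]
  simp

/-- the element `u`. -/
def u : T := ∑ x : Fin 3, L (m (FreeMonoid.of x)) * R (m (FreeMonoid.of x))

/-- bilinear form `∑_{|v| = j} f (a v) f (c v)` -/
def B (f : A →ₗ[ℚ] ℚ) : ℕ → A → A → ℚ
  | 0, a, c => f a * f c
  | j + 1, a, c => ∑ x : Fin 3, B f j (a * m (FreeMonoid.of x)) (c * m (FreeMonoid.of x))

theorem B_add (f : A →ₗ[ℚ] ℚ) (j : ℕ) : ∀ a a' c, B f j (a + a') c = B f j a c + B f j a' c := by
  induction j with
  | zero => intro a a' c; simp [B, add_mul]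
  | succ j ih =>
    intro a a' c
    simp only [B, add_mul, ih, Finset.sum_add_distrib]

theorem B_smul (f : A →ₗ[ℚ] ℚ) (j : ℕ) : ∀ (q : ℚ) a c, B f j (q • a) c = q * B f j a c := by
  induction j with
  | zero => intro q a c; simp [B, mul_assoc]
  | succ j ih =>
    intro q a c
    simp only [B, smul_mul_assoc, ih, Finset.mul_sum]

theorem B_symm (f : A →ₗ[ℚ] ℚ) (j : ℕ) : ∀ a c, B f j a c = B f j c a := by
  induction j with
  | zero => intro a c; simp [B, mul_comm]
  | succ j ih =>
    intro a c
    simp only [B]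
    exact Finset.sum_congr rfl fun x _ => ih _ _

theorem B_zero_left (f : A →ₗ[ℚ] ℚ) (j : ℕ) : ∀ a c, (∀ v : W, f (a * m v) = 0) → B f j a c = 0 := by
  induction j with
  | zero =>
    intro a c h
    have := h 1
    rw [m_one, mul_one] at this
    simp [B, this]
  | succ j ih =>
    intro a c h
    simp only [B]
    apply Finset.sum_eq_zero
    intro x _
    apply ih
    intro v
    rw [mul_assoc, ← m_mul]
    exact h _

theorem B_nonneg (f : A →ₗ[ℚ] ℚ) (j : ℕ) : ∀ a, 0 ≤ B f j a a := by
  induction j with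
  | zero => intro a; simp only [B]; exact mul_self_nonneg _
  | succ j ih =>
    intro a
    simp only [B]
    exact Finset.sum_nonneg fun x _ => ih _

theorem B_eq_zero (f : A →ₗ[ℚ] ℚ) (j : ℕ) : ∀ a, B f j a a = 0 → ∀ v : W, v.length = j → f (a * m v) = 0 := by
  induction j with
  | zero =>
    intro a h v hv
    have : v = 1 := FreeMonoid.length_eq_zero.mp hv
    subst this
    simp only [B] at h
    rw [m_one, mul_one]
    exact mul_self_eq_zero.mp h
  | succ j ih =>
    intro a h v hv
    simp only [B] at h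
    rw [Finset.sum_eq_zero_iff_of_nonneg (fun x _ => B_nonneg f j _)] at h
    rcases word_cases v with rfl | ⟨x, v', rfl⟩
    · simp at hv
    · have h1 := ih _ (h x (Finset.mem_univ x)) v' (by
        rw [FreeMonoid.length_mul, FreeMonoid.length_of] at hv; omega)
      rw [m_mul, ← mul_assoc]
      exact h1

/-- the functional on `T` -/
def psi0 (f : A →ₗ[ℚ] ℚ) (n : ℕ) (p : W × W) : ℚ :=
  if p.1.length = p.2.length ∧ p.1.length ≤ n then B f (n - p.1.length) (m p.1) (m p.2) else 0

def psi (f : A →ₗ[ℚ] ℚ) (n : ℕ) : T →ₗ[ℚ] ℚ :=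
  (Finsupp.linearCombination ℚ (psi0 f n)) ∘ₗ (MonoidAlgebra.coeffLinearEquiv ℚ).toLinearMap

theorem psi_single (f : A →ₗ[ℚ] ℚ) (n : ℕ) (p : W × W) (c : ℚ) :
    psi f n (MonoidAlgebra.single p c) = c * psi0 f n p := by
  simp [psi]

theorem psi_LR (f : A →ₗ[ℚ] ℚ) (n i : ℕ) (x : A) (hx : Homog i x) (c : W) :
    psi f n (L x * R (m c)) = if i = c.length ∧ i ≤ n then B f (n - i) x (m c) else 0 := by
  have h1 : x = x.coeff.sum (fun w q => MonoidAlgebra.single w q) := (MonoidAlgebra.sum_coeff_single x).symm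
  have hB0 : ∀ j c, B f j 0 c = 0 := by
    intro j c
    have := B_smul f j 0 0 c
    simpa using this
  have hBsum : ∀ (s : Finset W) (g : W → A) j c, B f j (∑ w ∈ s, g w) c = ∑ w ∈ s, B f j (g w) c := by
    classical
    intro s g j c
    induction s using Finset.induction_on with
    | empty => simp [hB0]
    | insert a s ha ih => rw [Finset.sum_insert ha, Finset.sum_insert ha, B_add, ih]
  have h2 : psi f n (L x * R (m c)) = ∑ w ∈ x.coeff.support, x.coeff w * psi0 f n (w, c) := by
    conv_lhs => rw [h1]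
    rw [Finsupp.sum, map_sum, Finset.sum_mul, map_sum]
    apply Finset.sum_congr rfl
    intro w _
    rw [L_single, m, R_single, MonoidAlgebra.single_mul_single, psi_single]
    simp
  rw [h2]
  split_ifs with h
  · conv_rhs => rw [h1]
    rw [Finsupp.sum, hBsum]
    apply Finset.sum_congr rfl
    intro w hw
    have hw' := hx w (Finsupp.mem_support_iff.mp hw)
    have : (MonoidAlgebra.single w (x.coeff w) : A) = (x.coeff w) • m w := by simp [m]
    rw [this, B_smul, psi0]
    simp only [hw']
    rw [if_pos h]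
  · apply Finset.sum_eq_zero
    intro w hw
    have hw' := hx w (Finsupp.mem_support_iff.mp hw)
    rw [psi0]
    simp only [hw']
    rw [if_neg h, mul_zero]

theorem psi_RL (f : A →ₗ[ℚ] ℚ) (n i : ℕ) (x : A) (hx : Homog i x) (c : W) :
    psi f n (L (m c) * R x) = if i = c.length ∧ i ≤ n then B f (n - i) x (m c) else 0 := by
  have h1 : x = x.coeff.sum (fun w q => MonoidAlgebra.single w q) := (MonoidAlgebra.sum_coeff_single x).symm
  rw [← psi_LR f n i x hx c]
  conv_lhs => rw [h1]
  conv_rhs => rw [h1]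
  rw [Finsupp.sum, map_sum, map_sum, Finset.sum_mul, Finset.mul_sum, map_sum, map_sum]
  apply Finset.sum_congr rfl
  intro w hw
  rw [L_single, R_single, m, L_single, R_single, MonoidAlgebra.single_mul_single,
    MonoidAlgebra.single_mul_single, psi_single, psi_single]
  simp only [one_mul, mul_one, psi0, Prod.mk_mul_mk]
  by_cases h : w.length = c.length
  · rw [h, B_symm]
  · rw [if_neg (fun h' => h h'.1.symm), if_neg (fun h' => h h'.1)]

/-- annihilation of left relations -/
theorem psi_relL {r : ℕ → A} (hr : ∀ i, Homog i (r i)) {n : ℕ} {f : W → ℚ} (hf : f ∈ V r n) (i : ℕ) (t t' : T) :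
    psi (ext f) n (t * (L (r i) * t')) = 0 := by
  induction t using MonoidAlgebra.induction_linear with
  | zero => simp
  | add a b ha hb => rw [add_mul, map_add, ha, hb, add_zero]
  | single p c =>
    induction t' using MonoidAlgebra.induction_linear with
    | zero => simp
    | add a b ha hb => rw [mul_add, mul_add, map_add, ha, hb, add_zero]
    | single p' c' =>
      obtain ⟨a, a'⟩ := p
      obtain ⟨b, b'⟩ := p'
      rw [single_eq, single_eq]
      have h1 : (c • (L (m a) * R (m a')) * (L (r i) * c' • (L (m b) * R (m b'))) : T) =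
          (c * c') • (L (m a * r i * m b) * R (m (a' * b'))) := by
        rw [m_mul, map_mul, map_mul, map_mul]
        simp only [smul_mul_assoc, mul_smul_comm, smul_smul]
        rw [mul_comm c' c]
        congr 1
        have e1 := LR_comm (r i) (m a')
        have e2 := LR_comm (m b) (m a')
        calc L (m a) * R (m a') * (L (r i) * (L (m b) * R (m b')))
            = L (m a) * (R (m a') * L (r i)) * (L (m b) * R (m b')) := by simp only [mul_assoc]
          _ = L (m a) * L (r i) * (R (m a') * L (m b)) * R (m b') := by rw [← e1]; simp only [mul_assoc]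
          _ = L (m a) * L (r i) * L (m b) * (R (m a') * R (m b')) := by rw [← e2]; simp only [mul_assoc]
      rw [h1, map_smul, psi_LR _ n (a.length + i + b.length) _
        (homog_mul (homog_mul (homog_m a) (hr i)) (homog_m b))]
      split_ifs with h
      · rw [B_zero_left]
        · simp
        · intro v
          rw [mul_assoc, ← m_mul]
          exact V_rel hf i a (b * v)
      · simp

/-- annihilation of right relations -/
theorem psi_relR {r : ℕ → A} (hr : ∀ i, Homog i (r i)) {n : ℕ} {f : W → ℚ} (hf : f ∈ V r n) (i : ℕ) (t t' : T) :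
    psi (ext f) n (t * (R (r i) * t')) = 0 := by
  induction t using MonoidAlgebra.induction_linear with
  | zero => simp
  | add a b ha hb => rw [add_mul, map_add, ha, hb, add_zero]
  | single p c =>
    induction t' using MonoidAlgebra.induction_linear with
    | zero => simp
    | add a b ha hb => rw [mul_add, mul_add, map_add, ha, hb, add_zero]
    | single p' c' =>
      obtain ⟨a', a⟩ := p
      obtain ⟨b', b⟩ := p'
      rw [single_eq, single_eq]
      have h1 : (c • (L (m a') * R (m a)) * (R (r i) * c' • (L (m b') * R (m b))) : T) =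
          (c * c') • (L (m (a' * b')) * R (m a * r i * m b)) := by
        rw [m_mul, map_mul, map_mul, map_mul]
        simp only [smul_mul_assoc, mul_smul_comm, smul_smul]
        rw [mul_comm c' c]
        congr 1
        have e1 := LR_comm (m b') (r i)
        have e2 := LR_comm (m b') (m a)
        calc L (m a') * R (m a) * (R (r i) * (L (m b') * R (m b)))
            = L (m a') * R (m a) * (R (r i) * L (m b')) * R (m b) := by simp only [mul_assoc]
          _ = L (m a') * (R (m a) * L (m b')) * R (r i) * R (m b) := by rw [← e1]; simp only [mul_assoc]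
          _ = L (m a') * L (m b') * (R (m a) * R (r i) * R (m b)) := by rw [← e2]; simp only [mul_assoc]
      rw [h1, map_smul, psi_RL _ n (a.length + i + b.length) _
        (homog_mul (homog_mul (homog_m a) (hr i)) (homog_m b))]
      split_ifs with h
      · rw [B_zero_left]
        · simp
        · intro v
          rw [mul_assoc, ← m_mul]
          exact V_rel hf i a (b * v)
      · simp

theorem psi_u (t : T) : ∃ N : ℕ, ∀ (f : A →ₗ[ℚ] ℚ) (n : ℕ), N ≤ n → psi f n (t * (1 - u)) = 0 := by
  induction t using MonoidAlgebra.induction_linear with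
  | zero => exact ⟨0, fun f n _ => by simp⟩
  | add a b ha hb =>
    obtain ⟨N1, h1⟩ := ha
    obtain ⟨N2, h2⟩ := hb
    refine ⟨max N1 N2, fun f n hn => ?_⟩
    rw [add_mul, map_add, h1 f n (le_trans (le_max_left _ _) hn), h2 f n (le_trans (le_max_right _ _) hn), add_zero]
  | single p c =>
    obtain ⟨a, b⟩ := p
    refine ⟨a.length + 1, fun f n hn => ?_⟩
    have h1 : (MonoidAlgebra.single (a, b) c * (1 - u) : T) = MonoidAlgebra.single (a, b) c -
        ∑ x : Fin 3, MonoidAlgebra.single (a * FreeMonoid.of x, b * FreeMonoid.of x) c := by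
      rw [mul_sub, mul_one, u, Finset.mul_sum]
      congr 1
      apply Finset.sum_congr rfl
      intro x _
      rw [m, L_single, R_single, MonoidAlgebra.single_mul_single, MonoidAlgebra.single_mul_single]
      simp
    rw [h1, map_sub, map_sum, psi_single]
    simp only [psi_single]
    rw [← Finset.mul_sum, ← mul_sub]
    have h2 : psi0 f n (a, b) = ∑ x : Fin 3, psi0 f n (a * FreeMonoid.of x, b * FreeMonoid.of x) := by
      simp only [psi0, FreeMonoid.length_mul, FreeMonoid.length_of]
      by_cases h : a.length = b.length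
      · rw [if_pos ⟨h, by omega⟩]
        have h3 : n - a.length = (n - (a.length + 1)) + 1 := by omega
        rw [h3]
        simp only [B]
        apply Finset.sum_congr rfl
        intro x _
        rw [if_pos ⟨by omega, by omega⟩, m_mul, m_mul]
      · rw [if_neg (fun h' => h h'.1)]
        symm
        apply Finset.sum_eq_zero
        intro x _
        rw [if_neg (fun h' => h (by omega))]
    rw [h2, sub_self, mul_zero]

/-- the left ideal -/
def J (r : ℕ → A) : Ideal T := Ideal.span ({t | ∃ i t', t = L (r i) * t'} ∪ {t | ∃ i t', t = R (r i) * t'} ∪ {1 - u})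

theorem J_ne_top {r : ℕ → A} (hr : ∀ i, Homog i (r i)) (hr0 : r 0 = 0) (hr1 : r 1 = 0) : J r ≠ ⊤ := by
  intro htop
  choose f hfV hf0 using fun n => exists_functional r hr hr0 hr1 n
  have key : ∀ x ∈ J r, ∀ t : T, ∃ N : ℕ, ∀ n, N ≤ n → psi (ext (f n)) n (t * x) = 0 := by
    intro x hx
    refine Submodule.span_induction ?_ ?_ ?_ ?_ hx
    · rintro x ((⟨i, t', rfl⟩ | ⟨i, t', rfl⟩) | hx) t
      · exact ⟨0, fun n _ => psi_relL hr (hfV n) i t t'⟩
      · exact ⟨0, fun n _ => psi_relR hr (hfV n) i t t'⟩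
      · rw [Set.mem_singleton_iff.mp hx]
        obtain ⟨N, hN⟩ := psi_u t
        exact ⟨N, fun n hn => hN _ n hn⟩
    · intro t; exact ⟨0, fun n _ => by simp⟩
    · intro x y _ _ hx hy t
      obtain ⟨N1, h1⟩ := hx t
      obtain ⟨N2, h2⟩ := hy t
      refine ⟨max N1 N2, fun n hn => ?_⟩
      rw [mul_add, map_add, h1 n (le_trans (le_max_left _ _) hn), h2 n (le_trans (le_max_right _ _) hn), add_zero]
    · intro s x _ hx t
      obtain ⟨N1, h1⟩ := hx (t * s)
      refine ⟨N1, fun n hn => ?_⟩
      rw [smul_eq_mul, ← mul_assoc]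
      exact h1 n hn
  have h1 : (1 : T) ∈ J r := by rw [htop]; trivial
  obtain ⟨N, hN⟩ := key 1 h1 1
  have h2 := hN N le_rfl
  rw [one_mul] at h2
  have h3 : (1 : T) = MonoidAlgebra.single (1, 1) 1 := rfl
  rw [h3, psi_single, one_mul, psi0] at h2
  simp only [FreeMonoid.length_one, Nat.zero_le, and_self, if_true, Nat.sub_zero] at h2
  have h4 := B_eq_zero _ _ _ h2
  apply hf0 N
  funext w
  by_cases hw : w.length = N
  · have := h4 w hw
    rw [m_one, one_mul, ext_m] at this
    exact this
  · exact V_supp (hfV N) hw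

/-- augmentation -/
def eps : A →ₐ[ℚ] ℚ := MonoidAlgebra.lift ℚ ℚ W (FreeMonoid.lift (fun _ => (0 : ℚ)))

theorem eps_m (w : W) (hw : w ≠ 1) : eps (m w) = 0 := by
  rcases word_cases w with rfl | ⟨x, w', rfl⟩
  · exact absurd rfl hw
  · simp [eps, m]

theorem eps_coeff (a : A) : eps a = a.coeff 1 := by
  classical
  induction a using MonoidAlgebra.induction_linear with
  | zero => simp
  | add a b ha hb => rw [map_add, ha, hb]; simp
  | single w c =>
    have h1 : (MonoidAlgebra.single w c : A) = c • m w := by simp [m]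
    rw [h1, map_smul]
    by_cases hw : w = 1
    · subst hw; rw [m_one, map_one]; simp [MonoidAlgebra.one_def]
    · rw [eps_m w hw]
      simp [m, Finsupp.single_apply, hw]

section rep

variable {r : ℕ → A} {M : Type} [AddCommGroup M] [Module T M] [Module ℚ M] [IsScalarTower ℚ T M]

/-- the action -/
def Lam : T →ₐ[ℚ] Module.End ℚ M := Algebra.lsmul ℚ ℚ M

theorem Lam_apply (t : T) (v : M) : Lam t v = t • v := rfl

theorem nilX (φ : A →+* T) (hnil : ∀ a : A, a.coeff 1 = 0 → ∃ (N : ℕ) (s : Finset ℕ), a ^ N = ∑ n ∈ s, r n)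
    (h0 : ∀ i (v : M), φ (r i) • v = 0) (a : A) (ha : eps a = 0) : ∃ N, (Lam (M := M) (φ a)) ^ N = 0 := by
  obtain ⟨N, s, h⟩ := hnil a (by rw [← eps_coeff]; exact ha)
  refine ⟨N, ?_⟩
  rw [← map_pow, ← map_pow, h, map_sum, map_sum]
  apply Finset.sum_eq_zero
  intro n _
  apply LinearMap.ext
  intro v
  rw [Lam_apply, h0, LinearMap.zero_apply]

/-- group of units `1 + Λ(φ a)`, `a` in the augmentation ideal. -/
def Gp (φ : A →+* T) (hφ : ∀ a, eps a = 0 → ∃ N, (Lam (M := M) (φ a)) ^ N = 0) :
    Subgroup (Module.End ℚ M)ˣ where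
  carrier := {g | ∃ a : A, eps a = 0 ∧ (g : Module.End ℚ M) = 1 + Lam (φ a)}
  one_mem' := ⟨0, by simp, by simp⟩
  mul_mem' := by
    rintro g h ⟨a, ha, hg⟩ ⟨b, hb, hh⟩
    refine ⟨a + b + a * b, by simp [ha, hb], ?_⟩
    rw [Units.val_mul, hg, hh]
    simp only [map_add, map_mul]
    noncomm_ring
  inv_mem' := by
    rintro g ⟨a, ha, hg⟩
    obtain ⟨N, hN⟩ := hφ (-a) (by simp [ha])
    refine ⟨(∑ i ∈ Finset.range (N + 1), (-a) ^ i) - 1, ?_, ?_⟩
    · rw [map_sub, map_sum, map_one]
      simp only [map_pow, map_neg, ha, neg_zero]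
      rw [Finset.sum_range_succ']
      simp
    · have h1 : (g : Module.End ℚ M) * Lam (φ (∑ i ∈ Finset.range (N + 1), (-a) ^ i)) = 1 := by
        rw [hg]
        have h2 : (1 + Lam (φ a) : Module.End ℚ M) = Lam (φ (1 - (-a))) := by simp
        have h5 : (Lam (φ ((-a) ^ (N + 1))) : Module.End ℚ M) = 0 := by
          rw [pow_succ, map_mul, map_mul, map_pow, map_pow, hN, zero_mul]
        rw [h2, ← map_mul, ← map_mul, mul_neg_geom_sum, map_sub, map_sub, h5, map_one, map_one, sub_zero]
      have h3 : ((g⁻¹ : (Module.End ℚ M)ˣ) : Module.End ℚ M) =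
          Lam (φ (∑ i ∈ Finset.range (N + 1), (-a) ^ i)) := by
        rw [← one_mul (Lam (φ (∑ i ∈ Finset.range (N + 1), (-a) ^ i)) : Module.End ℚ M),
          ← Units.inv_mul g, mul_assoc, h1, mul_one]
      rw [h3]
      simp only [map_sub, map_one]
      abel

theorem exists_unit (φ : A →+* T) (hφ : ∀ a, eps a = 0 → ∃ N, (Lam (M := M) (φ a)) ^ N = 0) (a : A)
    (ha : eps a = 0) : ∃ g ∈ Gp φ hφ, (g : Module.End ℚ M) = 1 + Lam (φ a) := by
  obtain ⟨N, hN⟩ := hφ a ha
  have : IsUnit (1 + Lam (φ a) : Module.End ℚ M) := IsNilpotent.isUnit_one_add ⟨N, hN⟩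
  obtain ⟨g, hg⟩ := this
  exact ⟨g, ⟨a, ha, hg⟩, hg⟩

theorem final (hL : ∀ a, eps a = 0 → ∃ N, (Lam (M := M) (L a)) ^ N = 0)
    (hR : ∀ a, eps a = 0 → ∃ N, (Lam (M := M) (R a)) ^ N = 0) (hsimple : IsSimpleModule T M)
    (v0 : M) (hv0 : v0 ≠ 0) (hu : u • v0 = v0)
    (H : ∀ (k : Type) [Field k] [CharZero k] (G : Type) [Group G]
      (V : Type) [AddCommGroup V] [Module k V] (ρ : Representation k G V),
      Nontrivial V →
      (∀ W : Submodule k V, (∀ g : G, ∀ v ∈ W, ρ g v ∈ W) → W = ⊥ ∨ W = ⊤) →
      (∀ g : G, ∀ v : V, ∃ n : ℕ, ((ρ g - 1) ^ n) v = 0) →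
      ∀ g : G, ρ g = 1) : False := by
  have hcomm : ∀ (g : Gp L hL) (h : Gp R hR), Commute ((Units.coeHom (Module.End ℚ M)).comp (Gp L hL).subtype g)
      ((Units.coeHom (Module.End ℚ M)).comp (Gp R hR).subtype h) := by
    rintro ⟨g, a, ha, hg⟩ ⟨h, b, hb, hh⟩
    change (g : Module.End ℚ M) * (h : Module.End ℚ M) = (h : Module.End ℚ M) * (g : Module.End ℚ M)
    rw [hg, hh]
    have : (Lam (L a) * Lam (R b) : Module.End ℚ M) = Lam (R b) * Lam (L a) := by
      rw [← map_mul, LR_comm, map_mul]
    rw [mul_add, add_mul, add_mul, mul_add, this]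
    noncomm_ring
  let ρ : Representation ℚ (Gp L hL × Gp R hR) M := MonoidHom.noncommCoprod
    ((Units.coeHom (Module.End ℚ M)).comp (Gp L hL).subtype)
    ((Units.coeHom (Module.End ℚ M)).comp (Gp R hR).subtype) hcomm
  have hρ : ∀ g h, ρ (g, h) = ((g : (Module.End ℚ M)ˣ) : Module.End ℚ M) * ((h : (Module.End ℚ M)ˣ) : Module.End ℚ M) :=
    fun g h => rfl
  have hnt : Nontrivial M := ⟨⟨v0, 0, hv0⟩⟩
  have h1 := H ℚ (Gp L hL × Gp R hR) M ρ hnt ?_ ?_
  · -- triviality is absurd
    apply hv0
    rw [← hu, u, Finset.sum_smul]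
    apply Finset.sum_eq_zero
    intro x _
    obtain ⟨g, hg, hg'⟩ := exists_unit L hL (m (FreeMonoid.of x)) (eps_m _ (by
      intro h
      have := congrArg FreeMonoid.length h
      simp at this))
    have h2 := h1 (⟨g, hg⟩, 1)
    rw [hρ] at h2
    simp only [Subgroup.coe_one, Units.val_one, mul_one, hg'] at h2
    have h3 : (Lam (L (m (FreeMonoid.of x))) : Module.End ℚ M) = 0 := by
      have := congrArg (fun e => e - 1) h2
      simpa using this
    rw [mul_smul, ← Lam_apply (L (m (FreeMonoid.of x))), h3, LinearMap.zero_apply]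
  · -- irreducibility
    intro U hU
    have hUL : ∀ (a : A), eps a = 0 → ∀ v ∈ U, L a • v ∈ U := by
      intro a ha v hv
      obtain ⟨g, hg, hg'⟩ := exists_unit L hL a ha
      have h2 := hU (⟨g, hg⟩, 1) v hv
      rw [hρ] at h2
      simp only [Subgroup.coe_one, Units.val_one, mul_one, hg'] at h2
      have h3 : L a • v = (1 + Lam (L a) : Module.End ℚ M) v - v := by
        simp [Lam_apply]
      rw [h3]
      exact U.sub_mem h2 hv
    have hUR : ∀ (a : A), eps a = 0 → ∀ v ∈ U, R a • v ∈ U := by
      intro a ha v hv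
      obtain ⟨g, hg, hg'⟩ := exists_unit R hR a ha
      have h2 := hU (1, ⟨g, hg⟩) v hv
      rw [hρ] at h2
      simp only [Subgroup.coe_one, Units.val_one, one_mul, hg'] at h2
      have h3 : R a • v = (1 + Lam (R a) : Module.End ℚ M) v - v := by
        simp [Lam_apply]
      rw [h3]
      exact U.sub_mem h2 hv
    have hUL' : ∀ w : W, ∀ v ∈ U, L (m w) • v ∈ U := by
      intro w v hv
      by_cases hw : w = 1
      · rw [hw, m_one, map_one, one_smul]; exact hv
      · exact hUL _ (eps_m w hw) v hv
    have hUR' : ∀ w : W, ∀ v ∈ U, R (m w) • v ∈ U := by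
      intro w v hv
      by_cases hw : w = 1
      · rw [hw, m_one, map_one, one_smul]; exact hv
      · exact hUR _ (eps_m w hw) v hv
    have hUT : ∀ t : T, ∀ v ∈ U, t • v ∈ U := by
      intro t v hv
      induction t using MonoidAlgebra.induction_linear with
      | zero => rw [zero_smul]; exact U.zero_mem
      | add a b ha hb => rw [add_smul]; exact U.add_mem ha hb
      | single p c =>
        obtain ⟨w, w'⟩ := p
        rw [single_eq, smul_assoc, mul_smul]
        exact U.smul_mem c (hUL' w _ (hUR' w' v hv))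
    let U' : Submodule T M :=
      { carrier := U
        add_mem' := fun ha hb => U.add_mem ha hb
        zero_mem' := U.zero_mem
        smul_mem' := fun t v hv => hUT t v hv }
    rcases eq_bot_or_eq_top U' with h | h
    · left
      ext v
      have : v ∈ U' ↔ v ∈ (⊥ : Submodule T M) := by rw [h]
      exact this
    · right
      ext v
      have : v ∈ U' ↔ v ∈ (⊤ : Submodule T M) := by rw [h]
      exact this
  · -- local nilpotency
    rintro ⟨⟨g, a, ha, hg⟩, ⟨h, b, hb, hh⟩⟩ v
    have hc : (Lam (L a) * Lam (R b) : Module.End ℚ M) = Lam (R b) * Lam (L a) := by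
      rw [← map_mul, LR_comm, map_mul]
    have hcc : Commute (Lam (L a) : Module.End ℚ M) (Lam (R b)) := hc
    have hn1 : IsNilpotent (Lam (L a) : Module.End ℚ M) := hL a ha
    have hn2 : IsNilpotent (Lam (R b) : Module.End ℚ M) := hR b hb
    have hn3 : IsNilpotent (Lam (L a) * Lam (R b) : Module.End ℚ M) := hcc.isNilpotent_mul_left hn2
    have hn4 : IsNilpotent (Lam (L a) + Lam (R b) : Module.End ℚ M) := hcc.isNilpotent_add hn1 hn2
    have hn5 : IsNilpotent (Lam (L a) + Lam (R b) + Lam (L a) * Lam (R b) : Module.End ℚ M) := by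
      apply Commute.isNilpotent_add _ hn4 hn3
      apply Commute.add_left
      · exact (Commute.refl _).mul_right hcc
      · exact (hcc.symm).mul_right (Commute.refl _)
    obtain ⟨N, hN⟩ := hn5
    refine ⟨N, ?_⟩
    have e1 : ρ (⟨g, a, ha, hg⟩, ⟨h, b, hb, hh⟩) - 1 =
        Lam (L a) + Lam (R b) + Lam (L a) * Lam (R b) := by
      rw [hρ]
      change (g : Module.End ℚ M) * (h : Module.End ℚ M) - 1 = _
      rw [hg, hh]
      noncomm_ring
    rw [e1, hN, LinearMap.zero_apply]

end rep

end

end Pool.Agent.NilRep
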