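import Mathlib

set_option autoImplicit false

/-! Codes for oracle computations and the use principle, in topological form. -/

namespace Pool.Agent.OracleUse

/-- codes for oracle computations -/
inductive Cd
  | zero | succ | left | right | oracle
  | pair (a b : Cd) | comp (a b : Cd) | prec (a b : Cd) | rfind (a : Cd)
  deriving Encodable

/-- evaluation -/
def ev : Cd → (ℕ → Part ℕ) → ℕ → Part ℕ
  | .zero, _ => fun _ => 0
  | .succ, _ => fun n => Part.some (Nat.succ n)
  | .left, _ => fun n => (Nat.unpair n).1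
  | .right, _ => fun n => (Nat.unpair n).2
  | .oracle, O => O
  | .pair f h, O => fun n => (Nat.pair <$> ev f O n <*> ev h O n)
  | .comp f h, O => fun n => ev h O n >>= ev f O
  | .prec f h, O => fun p =>
        let (a, n) := Nat.unpair p
        n.rec (ev f O a) fun y IH => do
          let i ← IH
          ev h O (Nat.pair a (Nat.pair y i))
  | .rfind f, O => fun a => Nat.rfind fun n => (fun m => m = 0) <$> ev f O (Nat.pair a n)

theorem exists_code {O f : ℕ →. ℕ} (h : Nat.RecursiveIn {O} f) : ∃ c, ev c O = f := by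
  induction h with
  | zero => exact ⟨.zero, rfl⟩
  | succ => exact ⟨.succ, rfl⟩
  | left => exact ⟨.left, rfl⟩
  | right => exact ⟨.right, rfl⟩
  | oracle g hg => rw [Set.mem_singleton_iff] at hg; subst hg; exact ⟨.oracle, rfl⟩
  | pair _ _ ih1 ih2 =>
    obtain ⟨c, rfl⟩ := ih1
    obtain ⟨d, rfl⟩ := ih2
    exact ⟨.pair c d, rfl⟩
  | comp _ _ ih1 ih2 =>
    obtain ⟨c, rfl⟩ := ih1
    obtain ⟨d, rfl⟩ := ih2
    exact ⟨.comp c d, rfl⟩
  | prec _ _ ih1 ih2 =>
    obtain ⟨c, rfl⟩ := ih1
    obtain ⟨d, rfl⟩ := ih2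
    exact ⟨.prec c d, rfl⟩
  | rfind _ ih =>
    obtain ⟨c, rfl⟩ := ih
    exact ⟨.rfind c, rfl⟩

/-- the oracle of a Boolean function -/
def orc (A : ℕ → Bool) : ℕ → Part ℕ := fun n => Part.some (Bool.toNat (A n))

theorem isOpen_prop {X : Type*} [TopologicalSpace X] (p : Prop) : IsOpen {_x : X | p} := by
  by_cases h : p <;> simp [h]

theorem isOpen_ev (c : Cd) : ∀ n v : ℕ, IsOpen {A : ℕ → Bool | v ∈ ev c (orc A) n} := by
  induction c with
  | zero => intro n v; exact isOpen_prop (X := ℕ → Bool) (v ∈ (0 : Part ℕ))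
  | succ => intro n v; exact isOpen_prop (X := ℕ → Bool) (v ∈ Part.some (Nat.succ n))
  | left => intro n v; exact isOpen_prop (X := ℕ → Bool) (v ∈ (fun n => ((Nat.unpair n).1 : Part ℕ)) n)
  | right => intro n v; exact isOpen_prop (X := ℕ → Bool) (v ∈ (fun n => ((Nat.unpair n).2 : Part ℕ)) n)
  | oracle =>
    intro n v
    have : {A : ℕ → Bool | v ∈ ev .oracle (orc A) n} = (fun A : ℕ → Bool => A n) ⁻¹' {b | v = Bool.toNat b} := by
      ext A; simp [ev, orc]
    rw [this]
    exact (isOpen_discrete _).preimage (continuous_apply n)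
  | pair f h ihf ihh =>
    intro n v
    have : {A : ℕ → Bool | v ∈ ev (.pair f h) (orc A) n} =
        ⋃ a, ⋃ b, {A | a ∈ ev f (orc A) n} ∩ {A | b ∈ ev h (orc A) n} ∩ {_A | v = Nat.pair a b} := by
      ext A
      simp only [ev, Set.mem_ofPred_eq, Set.mem_iUnion, Set.mem_inter_iff]
      simp only [Seq.seq, Part.map_eq_map, Part.mem_bind_iff, Part.mem_map_iff]
      constructor
      · rintro ⟨g, ⟨a, ha, rfl⟩, b, hb, rfl⟩
        exact ⟨a, b, ⟨ha, hb⟩, rfl⟩
      · rintro ⟨a, b, ⟨ha, hb⟩, rfl⟩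
        exact ⟨_, ⟨a, ha, rfl⟩, b, hb, rfl⟩
    rw [this]
    exact isOpen_iUnion fun a => isOpen_iUnion fun b => ((ihf n a).inter (ihh n b)).inter (isOpen_prop _)
  | comp f h ihf ihh =>
    intro n v
    have : {A : ℕ → Bool | v ∈ ev (.comp f h) (orc A) n} =
        ⋃ a, {A | a ∈ ev h (orc A) n} ∩ {A | v ∈ ev f (orc A) a} := by
      ext A
      simp only [ev, Set.mem_ofPred_eq, Set.mem_iUnion, Set.mem_inter_iff, Part.bind_eq_bind]
      exact Part.mem_bind_iff
    rw [this]
    exact isOpen_iUnion fun a => (ihh n a).inter (ihf a v)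
  | prec f h ihf ihh =>
    intro p
    have key : ∀ (a n v : ℕ), IsOpen {A : ℕ → Bool | v ∈ (n.rec (ev f (orc A) a) (fun y IH => IH.bind
        (fun i => ev h (orc A) (Nat.pair a (Nat.pair y i)))) : Part ℕ)} := by
      intro a n
      induction n with
      | zero => intro v; exact ihf a v
      | succ n ih =>
        intro v
        have : {A : ℕ → Bool | v ∈ ((n+1).rec (ev f (orc A) a) (fun y IH => IH.bind
          (fun i => ev h (orc A) (Nat.pair a (Nat.pair y i)))) : Part ℕ)} =
          ⋃ i, {A : ℕ → Bool | i ∈ (n.rec (ev f (orc A) a) (fun y IH => IH.bind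
            (fun i => ev h (orc A) (Nat.pair a (Nat.pair y i)))) : Part ℕ)} ∩
            {A | v ∈ ev h (orc A) (Nat.pair a (Nat.pair n i))} := by
          ext A
          simp
        rw [this]
        exact isOpen_iUnion fun i => (ih i).inter (ihh _ v)
    intro v
    exact key (Nat.unpair p).1 (Nat.unpair p).2 v
  | rfind f ih =>
    intro a v
    have : {A : ℕ → Bool | v ∈ ev (.rfind f) (orc A) a} =
        {A | 0 ∈ ev f (orc A) (Nat.pair a v)} ∩
        ⋂ m ∈ Set.Iio v, ⋃ k, {A | (k+1) ∈ ev f (orc A) (Nat.pair a m)} := by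
      ext A
      simp only [Set.mem_ofPred_eq, Set.mem_inter_iff, Set.mem_iInter, Set.mem_iUnion,
        Set.mem_Iio]
      refine Nat.mem_rfind.trans ?_
      simp only [Part.map_eq_map, Part.mem_map_iff]
      constructor
      · rintro ⟨⟨w, hw, hw0⟩, h2⟩
        refine ⟨?_, ?_⟩
        · have : w = 0 := by simpa using hw0
          rwa [this] at hw
        · intro m hm
          obtain ⟨u, hu, hu0⟩ := h2 hm
          have : u ≠ 0 := by simpa using hu0
          obtain ⟨k, rfl⟩ := Nat.exists_eq_succ_of_ne_zero this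
          exact ⟨k, hu⟩
      · rintro ⟨h1, h2⟩
        refine ⟨⟨0, h1, by simp⟩, ?_⟩
        intro m hm
        obtain ⟨k, hk⟩ := h2 m hm
        exact ⟨k+1, hk, by simp⟩
    rw [this]
    refine (ih _ _).inter ?_
    exact (Set.finite_Iio v).isOpen_biInter (fun m _ => isOpen_iUnion fun k => ih _ _)

end Pool.Agent.OracleUse
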