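import Mathlib
set_option autoImplicit false
namespace Pool.MP_ede847_gt.Aux
open Cardinal Set Topology Pointwise

abbrev W : Type := (Cardinal.aleph 1 : Cardinal.{0}).ord.ToType
abbrev L : Type := W ×ₗ ℚ

lemma W_iic (w : W) : (Set.Iic w).Countable := by
  have h1 : (Set.Iio w).Countable := by
    rw [Cardinal.countable_iff_lt_aleph_one]
    exact Cardinal.mk_Iio_ord_toType w
  have : Set.Iic w = insert w (Set.Iio w) := by ext; simp [le_iff_eq_or_lt]
  rw [this]; exact h1.insert w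

lemma W_unc : ¬ (Set.univ : Set W).Countable := by
  rw [Cardinal.countable_iff_lt_aleph_one, Cardinal.mk_univ, Cardinal.mk_ord_toType]
  exact lt_irrefl _

lemma W_bd (F : Set W) (hF : F.Countable) : ∃ w : W, ∀ f ∈ F, f < w := by
  by_contra hcon
  push Not at hcon
  apply W_unc
  have : (Set.univ : Set W) ⊆ ⋃ f ∈ F, Set.Iic f := by
    intro w _
    obtain ⟨f, hf, hw⟩ := hcon w
    exact Set.mem_biUnion hf hw
  exact (hF.biUnion (fun f _ => W_iic f)).mono this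

lemma lt_iff' (a b : L) : a < b ↔ (ofLex a).1 < (ofLex b).1 ∨ (ofLex a).1 = (ofLex b).1 ∧ (ofLex a).2 < (ofLex b).2 :=
  Prod.Lex.lt_iff

lemma up (a : L) : a < toLex ((ofLex a).1, (ofLex a).2 + 1) := by
  rw [lt_iff']; right; exact ⟨rfl, by simp⟩

lemma down (a : L) : toLex ((ofLex a).1, (ofLex a).2 - 1) < a := by
  rw [lt_iff']; right; exact ⟨rfl, by simp⟩

lemma dense (a b : L) (h : a < b) : ∃ c, a < c ∧ c < b := by
  rw [lt_iff'] at h
  rcases h with h | ⟨h, h'⟩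
  · exact ⟨_, up a, by rw [lt_iff']; left; exact h⟩
  · refine ⟨toLex ((ofLex a).1, ((ofLex a).2 + (ofLex b).2)/2), ?_, ?_⟩
    · rw [lt_iff']; right; exact ⟨rfl, by simp; linarith⟩
    · rw [lt_iff']; right; exact ⟨h, by simp; linarith⟩

lemma iio_countable (z : L) : (Set.Iio z).Countable := by
  have h : Set.Iio z ⊆ (fun p : W × ℚ => toLex p) '' (Set.Iic (ofLex z).1 ×ˢ (Set.univ : Set ℚ)) := by
    intro a ha
    refine ⟨ofLex a, ⟨?_, trivial⟩, rfl⟩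
    rcases (lt_iff' a z).mp ha with h | ⟨h, _⟩
    · exact h.le
    · exact h.le
  exact (((W_iic _).prod (Set.countable_univ)).image _).mono h

lemma iio_iso (z : L) : Nonempty (Set.Iio z ≃o ℚ) := by
  haveI : Countable (Set.Iio z) := (iio_countable z).to_subtype
  haveI : DenselyOrdered (Set.Iio z) := ⟨fun a b hab => by
    obtain ⟨c, hc1, hc2⟩ := dense a.1 b.1 hab
    exact ⟨⟨c, lt_trans hc2 b.2⟩, hc1, hc2⟩⟩
  haveI : NoMinOrder (Set.Iio z) := ⟨fun a => ⟨⟨_, lt_trans (down a.1) a.2⟩, down a.1⟩⟩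
  haveI : NoMaxOrder (Set.Iio z) := ⟨fun a => by
    obtain ⟨c, hc1, hc2⟩ := dense a.1 z a.2
    exact ⟨⟨c, hc2⟩, hc1⟩⟩
  haveI : Nonempty (Set.Iio z) := ⟨⟨_, down z⟩⟩
  exact Order.iso_of_countable_dense _ _

lemma trans' (x y : L) : ∃ g : L ≃o L, g x = y := by
  classical
  set z : L := toLex ((ofLex (max x y)).1, (ofLex (max x y)).2 + 1) with hz
  have hxz : x < z := lt_of_le_of_lt (le_max_left x y) (up _)
  have hyz : y < z := lt_of_le_of_lt (le_max_right x y) (up _)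
  obtain ⟨φ⟩ := iio_iso z
  let ψ : Set.Iio z ≃o Set.Iio z := (φ.trans (OrderIso.addRight (φ ⟨y, hyz⟩ - φ ⟨x, hxz⟩))).trans φ.symm
  have hψ : ψ ⟨x, hxz⟩ = ⟨y, hyz⟩ := by
    show φ.symm (φ ⟨x, hxz⟩ + (φ ⟨y, hyz⟩ - φ ⟨x, hxz⟩)) = _
    rw [add_sub_cancel, OrderIso.symm_apply_apply]
  let f : L → L := fun t => if h : t < z then (ψ ⟨t, h⟩).1 else t
  have hf : StrictMono f := by
    intro t t' htt
    show (if h : t < z then (ψ ⟨t, h⟩).1 else t) < (if h : t' < z then (ψ ⟨t', h⟩).1 else t')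
    by_cases h' : t' < z
    · rw [dif_pos h', dif_pos (htt.trans h')]
      have : ψ ⟨t, htt.trans h'⟩ < ψ ⟨t', h'⟩ := ψ.strictMono htt
      exact this
    · rw [dif_neg h']
      by_cases h : t < z
      · rw [dif_pos h]; exact lt_of_lt_of_le (ψ ⟨t, h⟩).2 (not_lt.mp h')
      · rw [dif_neg h]; exact htt
  have hsurj : Function.Surjective f := by
    intro w
    by_cases h : w < z
    · refine ⟨(ψ.symm ⟨w, h⟩).1, ?_⟩
      have hlt : (ψ.symm ⟨w, h⟩).1 < z := (ψ.symm ⟨w, h⟩).2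
      have e1 : f (ψ.symm ⟨w, h⟩).1 = (ψ ⟨(ψ.symm ⟨w, h⟩).1, hlt⟩).1 := dif_pos hlt
      have e2 : (⟨(ψ.symm ⟨w, h⟩).1, hlt⟩ : Set.Iio z) = ψ.symm ⟨w, h⟩ := rfl
      rw [e1, e2, OrderIso.apply_symm_apply]
    · exact ⟨w, dif_neg h⟩
  refine ⟨hf.orderIsoOfSurjective f hsurj, ?_⟩
  show f x = y
  show (if h : x < z then (ψ ⟨x, h⟩).1 else x) = y
  rw [dif_pos hxz, hψ]

end Pool.MP_ede847_gt.Aux
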