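import Pool.Agent.ParaA
set_option autoImplicit false
namespace Pool.MP_ede847_gt.Aux
open Set Topology Pointwise

def G : Type := L ≃o L

noncomputable instance : Group G := inferInstanceAs (Group (L ≃o L))

/-- evaluation -/
noncomputable def ap (g : G) (x : L) : L := (show L ≃o L from g) x

lemma ap_mul (g h : G) (x : L) : ap (g * h) x = ap g (ap h x) := rfl
lemma ap_one (x : L) : ap 1 x = x := rfl
lemma ap_mono (g : G) {x y : L} (h : x ≤ y) : ap g x ≤ ap g y := (show L ≃o L from g).monotone h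
lemma ap_inv (g : G) (x : L) : ap g (ap g⁻¹ x) = x := by
  rw [← ap_mul, mul_inv_cancel, ap_one]
lemma ap_trans (x y : L) : ∃ g : G, ap g x = y := trans' x y

instance : TopologicalSpace G where
  IsOpen U := ∀ g ∈ U, ∃ A : Finset L, ∀ h : G, (∀ x ∈ A, ap h x ≤ ap g x) → h ∈ U
  isOpen_univ := fun _ _ => ⟨∅, fun _ _ => trivial⟩
  isOpen_inter := by
    classical
    intro U V hU hV g hg
    obtain ⟨A, hA⟩ := hU g hg.1
    obtain ⟨B, hB⟩ := hV g hg.2
    exact ⟨A ∪ B, fun h hh => ⟨hA h fun x hx => hh x (Finset.mem_union_left _ hx), hB h fun x hx => hh x (Finset.mem_union_right _ hx)⟩⟩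
  isOpen_sUnion := by
    intro S hS g hg
    obtain ⟨U, hU, hgU⟩ := hg
    obtain ⟨A, hA⟩ := hS U hU g hgU
    exact ⟨A, fun h hh => ⟨U, hU, hA h hh⟩⟩

def B (g : G) (A : Finset L) : Set G := {h | ∀ x ∈ A, ap h x ≤ ap g x}

lemma B_open (g : G) (A : Finset L) : IsOpen (B g A) := by
  intro h hh
  exact ⟨A, fun h' hh' x hx => (hh' x hx).trans (hh x hx)⟩

lemma B_self (g : G) (A : Finset L) : g ∈ B g A := fun _ _ => le_rfl

noncomputable instance : ContinuousMul G where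
  continuous_mul := by
    classical
    rw [continuous_def]
    intro U hU
    rw [isOpen_prod_iff]
    intro g h hgh
    obtain ⟨A, hA⟩ := (show ∀ g ∈ U, ∃ A : Finset L, ∀ h : G, (∀ x ∈ A, ap h x ≤ ap g x) → h ∈ U from hU) (g * h) hgh
    refine ⟨B g (A.image (ap h)), B h A, B_open _ _, B_open _ _, B_self _ _, B_self _ _, ?_⟩
    rintro ⟨g', h'⟩ ⟨hg', hh'⟩
    apply hA
    intro x hx
    show ap (g' * h') x ≤ ap (g * h) x
    rw [ap_mul, ap_mul]
    exact (ap_mono g' (hh' x hx)).trans (hg' _ (Finset.mem_image_of_mem _ hx))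

/-- countable coinitial sequence -/
lemma coinit : ∃ c : ℕ → L, ∀ y : L, ∃ n, c n ≤ y := by
  classical
  haveI : Nonempty W := by
    by_contra hne
    rw [not_nonempty_iff] at hne
    exact W_unc (Set.countable_univ_iff.mpr inferInstance)
  obtain ⟨w0, hw0⟩ : ∃ w0 : W, ∀ w : W, w0 ≤ w := by
    refine ⟨WellFounded.min (wellFounded_lt (α := W)) Set.univ Set.univ_nonempty, fun w => ?_⟩
    exact not_lt.mp (WellFounded.not_lt_min _ _ (Set.mem_univ w))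
  refine ⟨fun n => toLex (w0, -(n:ℚ)), fun y => ?_⟩
  obtain ⟨n, hn⟩ := exists_nat_gt (-(ofLex y).2)
  refine ⟨n, le_of_lt ?_⟩
  rw [lt_iff']
  rcases (hw0 (ofLex y).1).lt_or_eq with h | h
  · left; exact h
  · right; exact ⟨h, by show -(n:ℚ) < (ofLex y).2; linarith⟩

lemma upbd (F : Set L) (hF : F.Countable) : ∃ y : L, ∀ f ∈ F, f < y := by
  obtain ⟨w, hw⟩ := W_bd ((fun f : L => (ofLex f).1) '' F) (hF.image _)
  refine ⟨toLex (w, 0), fun f hf => ?_⟩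
  rw [lt_iff']; left
  exact hw _ ⟨f, hf, rfl⟩

lemma right_bdd (U : Set G) (hU : U ∈ 𝓝 (1 : G)) : ∃ F : Set G, F.Countable ∧ U * F = Set.univ := by
  classical
  obtain ⟨V, hVU, hV, h1⟩ := mem_nhds_iff.mp hU
  obtain ⟨A, hA⟩ := (show ∀ g ∈ V, ∃ A : Finset L, ∀ h : G, (∀ x ∈ A, ap h x ≤ ap g x) → h ∈ V from hV) 1 h1
  obtain ⟨c, hc⟩ := coinit
  haveI : Nonempty L := ⟨c 0⟩
  obtain ⟨M, hM⟩ := Finset.exists_le A
  obtain ⟨m, hm⟩ : ∃ m : L, ∀ x ∈ A, m ≤ x := by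
    by_cases hAe : A.Nonempty
    · exact ⟨A.min' hAe, fun x hx => A.min'_le x hx⟩
    · exact ⟨c 0, fun x hx => absurd ⟨x, hx⟩ hAe⟩
  choose k hk using fun n => ap_trans M (c n)
  refine ⟨Set.range fun n => (k n)⁻¹, Set.countable_range _, ?_⟩
  rw [Set.eq_univ_iff_forall]
  intro g
  obtain ⟨n, hn⟩ := hc (ap g⁻¹ m)
  refine Set.mem_mul.mpr ⟨g * k n, hVU (hA _ ?_), (k n)⁻¹, ⟨n, rfl⟩, by group⟩
  intro x hx
  rw [ap_mul, ap_one]
  calc ap g (ap (k n) x) ≤ ap g (ap (k n) M) := ap_mono _ (ap_mono _ (hM x hx))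
    _ = ap g (c n) := by rw [hk]
    _ ≤ ap g (ap g⁻¹ m) := ap_mono _ hn
    _ = m := ap_inv _ _
    _ ≤ x := hm x hx

theorem main :
    ¬ (∀ (G : Type) [Group G] [TopologicalSpace G] [ContinuousMul G],
      (∀ U ∈ 𝓝 (1 : G), ∃ F : Set G, F.Countable ∧ U * F = Set.univ) →
      (∀ U ∈ 𝓝 (1 : G), ∃ F : Set G, F.Countable ∧ F * U = Set.univ)) := by
  intro H
  obtain ⟨c, _⟩ := coinit
  obtain ⟨F, hF, hFU⟩ := H G right_bdd (B 1 {c 0}) ((B_open _ _).mem_nhds (B_self _ _))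
  obtain ⟨y, hy⟩ := upbd ((fun f => ap f (c 0)) '' F) (hF.image _)
  obtain ⟨g, hg⟩ := ap_trans (c 0) y
  have hgm : g ∈ F * B 1 {c 0} := by rw [hFU]; trivial
  obtain ⟨f, hf, u, hu, hfu⟩ := Set.mem_mul.mp hgm
  have h1 : ap u (c 0) ≤ c 0 := by
    have := hu (c 0) (Finset.mem_singleton_self _)
    rwa [ap_one] at this
  have h2 : y ≤ ap f (c 0) := by
    rw [← hg, ← hfu, ap_mul]
    exact ap_mono f h1
  exact absurd (hy _ ⟨f, hf, rfl⟩) (not_lt.mpr h2)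

end Pool.MP_ede847_gt.Aux
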