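import Mathlib

set_option autoImplicit false

/-! A calculus of definable relations (with parameters) in an ordered structure. -/

open FirstOrder FirstOrder.Language

namespace Pool.Agent.PosetDef

section dd
set_option linter.unusedSectionVars false
variable {M : Type} [LE M] [Language.order.Structure M] [Language.order.OrderedStructure M]

/-- definable predicate -/
def Dn (n : ℕ) (p : (Fin n → M) → Prop) : Prop := (Set.univ : Set M).Definable Language.order {v | p v}

theorem Dn.congr {n : ℕ} {p q : (Fin n → M) → Prop} (h : Dn n p) (hpq : ∀ v, p v ↔ q v) : Dn n q := by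
  have : {v | q v} = {v | p v} := by ext v; exact (hpq v).symm
  unfold Dn
  rw [this]
  exact h

theorem Dn.and {n : ℕ} {p q : (Fin n → M) → Prop} (hp : Dn n p) (hq : Dn n q) :
    Dn n (fun v => p v ∧ q v) := Set.Definable.inter hp hq

theorem Dn.or {n : ℕ} {p q : (Fin n → M) → Prop} (hp : Dn n p) (hq : Dn n q) :
    Dn n (fun v => p v ∨ q v) := Set.Definable.union hp hq

theorem Dn.not {n : ℕ} {p : (Fin n → M) → Prop} (hp : Dn n p) : Dn n (fun v => ¬ p v) :=
  Set.Definable.compl hp

theorem Dn.imp {n : ℕ} {p q : (Fin n → M) → Prop} (hp : Dn n p) (hq : Dn n q) :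
    Dn n (fun v => p v → q v) :=
  (hp.not.or hq).congr (fun v => by tauto)

theorem Dn.iff {n : ℕ} {p q : (Fin n → M) → Prop} (hp : Dn n p) (hq : Dn n q) :
    Dn n (fun v => (p v ↔ q v)) :=
  ((hp.imp hq).and (hq.imp hp)).congr (fun v => by tauto)

theorem Dn.ex {n : ℕ} {q : (Fin n → M) → M → Prop} (h : Dn (n+1) (fun w => q (fun i => w i.succ) (w 0))) :
    Dn n (fun v => ∃ x, q v x) := by
  have h2 := Set.Definable.image_comp h (Fin.succ : Fin n → Fin (n+1))
  unfold Dn
  convert h2 using 1
  ext v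
  simp only [Set.mem_image, Set.mem_ofPred_eq]
  constructor
  · rintro ⟨x, hx⟩
    exact ⟨Fin.cons x v, by simpa using hx, by funext i; simp⟩
  · rintro ⟨w, hw, rfl⟩
    exact ⟨w 0, hw⟩

theorem Dn.all {n : ℕ} {q : (Fin n → M) → M → Prop} (h : Dn (n+1) (fun w => q (fun i => w i.succ) (w 0))) :
    Dn n (fun v => ∀ x, q v x) :=
  (Dn.not (Dn.ex (q := fun v x => ¬ q v x) h.not)).congr (fun v => by push Not; rfl)

/-- simple terms: variables or constants -/
def Simple {n : ℕ} (t : (Fin n → M) → M) : Prop := (∃ i, t = fun v => v i) ∨ ∃ a, t = fun _ => a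

theorem Simple.var {n : ℕ} (i : Fin n) : Simple (fun v : Fin n → M => v i) := Or.inl ⟨i, rfl⟩
theorem Simple.const {n : ℕ} (a : M) : Simple (fun _ : Fin n → M => a) := Or.inr ⟨a, rfl⟩

theorem eq_const (n : ℕ) (i : Fin n) (a : M) : Dn n (fun v => v i = a) := by
  have h := Set.Definable.singleton_of_mem Language.order (Set.mem_univ a)
  exact Set.Definable.preimage_comp (fun _ : Fin 1 => i) h

/-- unary definable relation -/
def D1 (R : M → Prop) : Prop := Dn 1 (fun v => R (v 0))
/-- binary definable relation -/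
def D2 (R : M → M → Prop) : Prop := Dn 2 (fun v => R (v 0) (v 1))
/-- ternary definable relation -/
def D3 (R : M → M → M → Prop) : Prop := Dn 3 (fun v => R (v 0) (v 1) (v 2))

theorem at1 {R : M → Prop} (h : D1 R) {n : ℕ} {t : (Fin n → M) → M} (ht : Simple t) :
    Dn n (fun v => R (t v)) := by
  rcases ht with ⟨i, rfl⟩ | ⟨a, rfl⟩
  · exact Set.Definable.preimage_comp (fun _ : Fin 1 => i) h
  · have h1 : Dn (n+1) (fun w : Fin (n+1) → M => w 0 = a ∧ R (w 0)) :=
      (eq_const (n+1) 0 a).and (Set.Definable.preimage_comp (fun _ : Fin 1 => (0 : Fin (n+1))) h)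
    exact (Dn.ex (q := fun _ x => x = a ∧ R x) h1).congr (fun v => by simp)

theorem at2 {R : M → M → Prop} (h : D2 R) {n : ℕ} {t1 t2 : (Fin n → M) → M} (h1 : Simple t1)
    (h2 : Simple t2) : Dn n (fun v => R (t1 v) (t2 v)) := by
  have key : ∀ (m : ℕ) (i j : Fin m), Dn m (fun v => R (v i) (v j)) := by
    intro m i j
    have := Set.Definable.preimage_comp (![i, j]) h
    exact this
  rcases h1 with ⟨i, rfl⟩ | ⟨a, rfl⟩
  · rcases h2 with ⟨j, rfl⟩ | ⟨b, rfl⟩
    · exact key n i j
    · exact (Dn.ex (q := fun v x => x = b ∧ R (v i) x) ((eq_const (n+1) 0 b).and (key (n+1) i.succ 0))).congr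
        (fun v => by simp)
  · rcases h2 with ⟨j, rfl⟩ | ⟨b, rfl⟩
    · exact (Dn.ex (q := fun v x => x = a ∧ R x (v j)) ((eq_const (n+1) 0 a).and (key (n+1) 0 j.succ))).congr
        (fun v => by simp)
    · refine (Dn.ex (q := fun v x => x = a ∧ ∃ y, y = b ∧ R x y) ((eq_const (n+1) 0 a).and
        (Dn.ex (q := fun (v : Fin (n+1) → M) y => y = b ∧ R (v 0) y)
          ((eq_const (n+1+1) 0 b).and (key (n+1+1) (Fin.succ 0) 0))))).congr (fun v => by simp)

theorem at3 {R : M → M → M → Prop} (h : D3 R) {n : ℕ} (i j k : Fin n) :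
    Dn n (fun v => R (v i) (v j) (v k)) :=
  Set.Definable.preimage_comp (![i, j, k]) h

theorem d2_le : D2 (fun x y : M => x ≤ y) := by
  have h : (∅ : Set M).Definable Language.order {v : Fin 2 → M | v 0 ≤ v 1} := by
    rw [Set.empty_definable_iff]
    refine ⟨(leSymb : Language.order.Relations 2).formula₂ (Term.var 0) (Term.var 1), ?_⟩
    ext v
    simp
  exact h.mono (Set.empty_subset _)

theorem d2_eq : D2 (fun x y : M => x = y) := by
  have h : (∅ : Set M).Definable Language.order {v : Fin 2 → M | v 0 = v 1} := by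
    rw [Set.empty_definable_iff]
    refine ⟨(Term.var 0).equal (Term.var 1), ?_⟩
    ext v
    simp
  exact h.mono (Set.empty_subset _)

/-- constants on the right -/
theorem d1_const {R : M → M → Prop} (h : D2 R) (a : M) : D1 (fun x => R x a) :=
  at2 h (Simple.var 0) (Simple.const a)

end dd

end Pool.Agent.PosetDef
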