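import Pool.Agent.PosetDef

set_option autoImplicit false

open FirstOrder FirstOrder.Language

namespace Pool.Agent.PosetP

/-- bottom elements -/
inductive Bt
  | al | be | ga
  | om (n : ℕ) | os (j : ℕ)

/-- top elements -/
inductive Tp
  | ka (j : ℕ) (s : ℤ) | kb (j : ℕ) (s : ℤ) | kc (n : ℕ) (q : ℚ)

/-- the poset -/
inductive P
  | e (x : ℝ) | bt (b : Bt) | tp (t : Tp)

open Bt Tp P

/-- pairing -/
noncomputable def c : ℕ × ℚ ≃ ℕ := Denumerable.eqv (ℕ × ℚ)

/-- cuts -/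
noncomputable def cut : Tp → ℝ
  | ka j s => (4 * s + 2) / 4 ^ (j + 1)
  | kb j s => (4 * s + 3) / 4 ^ (j + 1)
  | kc _ q => q

/-- which bottoms are below a top -/
def F : Tp → Bt → Prop
  | ka j _, b => b = al ∨ b = os j
  | kb j _, b => b = be ∨ b = os j
  | kc n q, b => b = ga ∨ b = om n ∨ b = os (c (n, q))

/-- the order relation -/
def le : P → P → Prop
  | e x, e y => x ≤ y
  | e x, tp t => x ≤ cut t
  | bt b, bt b' => b = b'
  | bt b, tp t => F t b
  | tp t, tp t' => t = t'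
  | _, _ => False

noncomputable instance : PartialOrder P where
  le := le
  le_refl x := by cases x <;> simp [le]
  le_trans x y z h1 h2 := by
    cases x <;> cases y <;> cases z <;> simp_all [le]
    all_goals linarith
  le_antisymm x y h1 h2 := by
    cases x <;> cases y <;> simp_all [le]
    exact le_antisymm h1 h2

theorem e_le_e (x y : ℝ) : e x ≤ e y ↔ x ≤ y := Iff.rfl
theorem e_le_tp (x : ℝ) (t : Tp) : e x ≤ tp t ↔ x ≤ cut t := Iff.rfl
theorem bt_le_bt (b b' : Bt) : bt b ≤ bt b' ↔ b = b' := Iff.rfl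
theorem bt_le_tp (b : Bt) (t : Tp) : bt b ≤ tp t ↔ F t b := Iff.rfl
theorem tp_le_tp (t t' : Tp) : tp t ≤ tp t' ↔ t = t' := Iff.rfl
theorem e_le_bt (x : ℝ) (b : Bt) : ¬ (e x ≤ bt b) := fun h => h
theorem bt_le_e (x : ℝ) (b : Bt) : ¬ (bt b ≤ e x) := fun h => h
theorem tp_le_e (x : ℝ) (t : Tp) : ¬ (tp t ≤ e x) := fun h => h
theorem tp_le_bt (b : Bt) (t : Tp) : ¬ (tp t ≤ bt b) := fun h => h

/-- abbreviations for the special bottoms -/
abbrev AL : P := bt al
/-- special bottom -/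
abbrev BE : P := bt be
/-- special bottom -/
abbrev GA : P := bt ga

/-- chain elements -/
def E (x : P) : Prop := (∃ y, y ≤ x ∧ ¬ x ≤ y) ∧ ¬ AL ≤ x ∧ ¬ BE ≤ x ∧ ¬ GA ≤ x

theorem E_iff (x : P) : E x ↔ ∃ r, x = e r := by
  constructor
  · rintro ⟨⟨y, h1, h2⟩, h3, h4, h5⟩
    cases x with
    | e r => exact ⟨r, rfl⟩
    | bt b =>
      exfalso
      cases y with
      | e r => exact e_le_bt _ _ h1
      | bt b' => rw [bt_le_bt] at h1; subst h1; exact h2 le_rfl
      | tp t => exact tp_le_bt _ _ h1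
    | tp t =>
      exfalso
      cases t with
      | ka j s => exact h3 (Or.inl rfl)
      | kb j s => exact h4 (Or.inl rfl)
      | kc n q => exact h5 (Or.inl rfl)
  · rintro ⟨r, rfl⟩
    refine ⟨⟨e (r - 1), ?_, ?_⟩, bt_le_e _ _, bt_le_e _ _, bt_le_e _ _⟩
    · rw [e_le_e]; linarith
    · rw [e_le_e]; linarith

/-- minimal elements -/
def Mi (x : P) : Prop := ∀ y, y ≤ x → x ≤ y

theorem Mi_iff (x : P) : Mi x ↔ ∃ b, x = bt b := by
  constructor
  · intro h
    cases x with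
    | e r =>
      exfalso
      have := h (e (r - 1)) (by rw [e_le_e]; linarith)
      rw [e_le_e] at this
      linarith
    | bt b => exact ⟨b, rfl⟩
    | tp t =>
      exfalso
      have := h (e (cut t)) (by rw [e_le_tp])
      exact tp_le_e _ _ this
  · rintro ⟨b, rfl⟩ y hy
    cases y with
    | e r => exact absurd hy (e_le_bt _ _)
    | bt b' => rw [bt_le_bt] at hy; subst hy; exact le_rfl
    | tp t => exact absurd hy (tp_le_bt _ _)

theorem above_AL {K x : P} (hK : AL ≤ K) (hx : x ≤ K) (hne : x ≠ K) : ∃ j s, K = tp (ka j s) := by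
  cases K with
  | e r => exact absurd hK (bt_le_e _ _)
  | bt b =>
    exfalso
    cases x with
    | e r => exact e_le_bt _ _ hx
    | bt b' => rw [bt_le_bt] at hx; subst hx; exact hne rfl
    | tp t => exact tp_le_bt _ _ hx
  | tp t =>
    cases t with
    | ka j s => exact ⟨j, s, rfl⟩
    | kb j s =>
      exfalso
      rw [bt_le_tp] at hK
      rcases hK with h | h <;> cases h
    | kc n q =>
      exfalso
      rw [bt_le_tp] at hK
      rcases hK with h | h | h <;> cases h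

theorem above_BE {K x : P} (hK : BE ≤ K) (hx : x ≤ K) (hne : x ≠ K) : ∃ j s, K = tp (kb j s) := by
  cases K with
  | e r => exact absurd hK (bt_le_e _ _)
  | bt b =>
    exfalso
    cases x with
    | e r => exact e_le_bt _ _ hx
    | bt b' => rw [bt_le_bt] at hx; subst hx; exact hne rfl
    | tp t => exact tp_le_bt _ _ hx
  | tp t =>
    cases t with
    | kb j s => exact ⟨j, s, rfl⟩
    | ka j s =>
      exfalso
      rw [bt_le_tp] at hK
      rcases hK with h | h <;> cases h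
    | kc n q =>
      exfalso
      rw [bt_le_tp] at hK
      rcases hK with h | h | h <;> cases h

theorem above_GA {K x : P} (hK : GA ≤ K) (hx : x ≤ K) (hne : x ≠ K) : ∃ n q, K = tp (kc n q) := by
  cases K with
  | e r => exact absurd hK (bt_le_e _ _)
  | bt b =>
    exfalso
    cases x with
    | e r => exact e_le_bt _ _ hx
    | bt b' => rw [bt_le_bt] at hx; subst hx; exact hne rfl
    | tp t => exact tp_le_bt _ _ hx
  | tp t =>
    cases t with
    | kc n q => exact ⟨n, q, rfl⟩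
    | ka j s =>
      exfalso
      rw [bt_le_tp] at hK
      rcases hK with h | h <;> cases h
    | kb j s =>
      exfalso
      rw [bt_le_tp] at hK
      rcases hK with h | h <;> cases h

/-- level elements -/
def OS (x : P) : Prop := Mi x ∧ ∃ K, AL ≤ K ∧ x ≤ K ∧ ¬ K ≤ x ∧ ¬ x ≤ AL

theorem OS_iff (x : P) : OS x ↔ ∃ j, x = bt (os j) := by
  constructor
  · rintro ⟨hm, K, h1, h2, h3, h4⟩
    obtain ⟨b, rfl⟩ := (Mi_iff x).mp hm
    obtain ⟨j, s, rfl⟩ := above_AL h1 h2 (fun h => h3 (le_of_eq h.symm))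
    rw [bt_le_tp] at h2
    rcases h2 with rfl | rfl
    · exact absurd le_rfl h4
    · exact ⟨j, rfl⟩
  · rintro ⟨j, rfl⟩
    refine ⟨(Mi_iff _).mpr ⟨_, rfl⟩, tp (ka j 0), Or.inl rfl, Or.inr rfl, tp_le_bt _ _, ?_⟩
    rw [bt_le_bt]
    intro h; cases h

/-- index elements -/
def OM (x : P) : Prop := Mi x ∧ ¬ OS x ∧ ∃ K, GA ≤ K ∧ x ≤ K ∧ ¬ K ≤ x ∧ ¬ x ≤ GA

theorem OM_iff (x : P) : OM x ↔ ∃ n, x = bt (om n) := by
  constructor
  · rintro ⟨hm, hos, K, h1, h2, h3, h4⟩
    obtain ⟨b, rfl⟩ := (Mi_iff x).mp hm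
    obtain ⟨n, q, rfl⟩ := above_GA h1 h2 (fun h => h3 (le_of_eq h.symm))
    rw [bt_le_tp] at h2
    rcases h2 with rfl | rfl | rfl
    · exact absurd le_rfl h4
    · exact ⟨n, rfl⟩
    · exact absurd ((OS_iff _).mpr ⟨_, rfl⟩) hos
  · rintro ⟨n, rfl⟩
    refine ⟨(Mi_iff _).mpr ⟨_, rfl⟩, ?_, tp (kc n 0), Or.inl rfl, Or.inr (Or.inl rfl), tp_le_bt _ _, ?_⟩
    · rw [OS_iff]; rintro ⟨j, hj⟩; cases hj
    · rw [bt_le_bt]; intro h; cases h

/-- the cut of a top element -/
def Cut (K y : P) : Prop := E y ∧ y ≤ K ∧ ∀ z, E z → z ≤ K → z ≤ y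

theorem Cut_iff (t : Tp) (y : P) : Cut (tp t) y ↔ y = e (cut t) := by
  constructor
  · rintro ⟨h1, h2, h3⟩
    obtain ⟨r, rfl⟩ := (E_iff y).mp h1
    rw [e_le_tp] at h2
    have := h3 (e (cut t)) ((E_iff _).mpr ⟨_, rfl⟩) (by rw [e_le_tp])
    rw [e_le_e] at this
    rw [le_antisymm h2 this]
  · rintro rfl
    refine ⟨(E_iff _).mpr ⟨_, rfl⟩, by rw [e_le_tp], ?_⟩
    rintro z hz hz2
    obtain ⟨r, rfl⟩ := (E_iff z).mp hz
    exact hz2

/-- bits -/
def Bit (p w : P) : Prop := ∃ K, AL ≤ K ∧ p ≤ K ∧ ¬ w ≤ K ∧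
  ∀ K', BE ≤ K' → p ≤ K' → (∃ y, E y ∧ y ≤ K' ∧ ¬ y ≤ K) → w ≤ K'

/-- numerical bits -/
def bit (j : ℕ) (x : ℝ) : Prop := ∃ s : ℤ, ((4 * s + 2) / 4 ^ (j + 1) : ℝ) < x ∧
  ∀ s' : ℤ, ((4 * s + 2) / 4 ^ (j + 1) : ℝ) < (4 * s' + 3) / 4 ^ (j + 1) → x ≤ (4 * s' + 3) / 4 ^ (j + 1)

theorem Bit_iff (j : ℕ) (x : ℝ) : Bit (bt (os j)) (e x) ↔ bit j x := by
  constructor
  · rintro ⟨K, h1, h2, h3, h4⟩
    obtain ⟨j', s, rfl⟩ : ∃ j' s, K = tp (ka j' s) := by
      refine above_AL h1 h2 ?_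
      rintro rfl
      rw [bt_le_bt] at h1; cases h1
    have hj : j' = j := by
      rw [bt_le_tp] at h2
      rcases h2 with h | h
      · cases h
      · cases h; rfl
    subst hj
    refine ⟨s, ?_, ?_⟩
    · rw [e_le_tp, not_le] at h3; exact h3
    · intro s' hs'
      have := h4 (tp (kb j' s')) (Or.inl rfl) (Or.inr rfl)
        ⟨e (cut (kb j' s')), (E_iff _).mpr ⟨_, rfl⟩, by rw [e_le_tp], by rw [e_le_tp, not_le]; exact hs'⟩
      exact this
  · rintro ⟨s, h1, h2⟩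
    refine ⟨tp (ka j s), Or.inl rfl, Or.inr rfl, by rw [e_le_tp, not_le]; exact h1, ?_⟩
    rintro K' hK1 hK2 ⟨y, hy1, hy2, hy3⟩
    obtain ⟨r, rfl⟩ := (E_iff y).mp hy1
    obtain ⟨j', s', rfl⟩ : ∃ j' s', K' = tp (kb j' s') := by
      refine above_BE hK1 hK2 ?_
      rintro rfl
      rw [bt_le_bt] at hK1; cases hK1
    have hj : j' = j := by
      rw [bt_le_tp] at hK2
      rcases hK2 with h | h
      · cases h
      · cases h; rfl
    subst hj
    rw [e_le_tp] at hy2 hy3 ⊢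
    rw [not_le] at hy3
    exact h2 s' (lt_of_lt_of_le hy3 hy2)

/-- the auxiliary sequence of digits -/
noncomputable def NN (T : Set ℕ) : ℕ → ℤ := fun n => by
  classical exact Nat.rec (if 0 ∈ T then 2 else 1) (fun k N => 4 * N + (if k + 1 ∈ T then 2 else 1)) n

theorem exists_real (T : Set ℕ) : ∃ x : ℝ, ∀ j, bit j x ↔ j ∈ T := by
  classical
  let dg : ℕ → ℤ := fun k => if k ∈ T then 2 else 1
  have hN0 : NN T 0 = 4 * 0 + dg 0 := by simp [NN, dg]
  have hNs : ∀ k, NN T (k+1) = 4 * NN T k + dg (k+1) := fun k => by simp [NN, dg]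
  have hdg : ∀ k, 1 ≤ dg k ∧ dg k ≤ 2 := by
    intro k; simp only [dg]; split_ifs <;> norm_num
  have hform : ∀ k, ∃ s : ℤ, NN T k = 4 * s + dg k := by
    intro k
    cases k with
    | zero => exact ⟨0, hN0⟩
    | succ k => exact ⟨NN T k, hNs k⟩
  let L : ℕ → ℝ := fun k => (NN T k : ℝ) / 4 ^ (k + 1)
  let R : ℕ → ℝ := fun k => ((NN T k : ℝ) + 1) / 4 ^ (k + 1)
  have hL : ∀ k, L k < L (k+1) := by
    intro k
    simp only [L]
    rw [div_lt_div_iff₀ (by positivity) (by positivity), hNs k]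
    have h1 : (1:ℝ) ≤ dg (k+1) := by exact_mod_cast (hdg (k+1)).1
    have h2 : (0:ℝ) < 4 ^ (k+1) := by positivity
    push_cast
    rw [pow_succ (4:ℝ) (k+1)]
    nlinarith
  have hR : ∀ k, R (k+1) < R k := by
    intro k
    simp only [R]
    rw [div_lt_div_iff₀ (by positivity) (by positivity), hNs k]
    have h1 : (dg (k+1) : ℝ) ≤ 2 := by exact_mod_cast (hdg (k+1)).2
    have h2 : (0:ℝ) < 4 ^ (k+1) := by positivity
    push_cast
    rw [pow_succ (4:ℝ) (k+1)]
    nlinarith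
  have hLR : ∀ k, L k < R k := by
    intro k
    simp only [L, R]
    apply div_lt_div_of_pos_right _ (by positivity)
    linarith
  have hLm : StrictMono L := strictMono_nat_of_lt_succ hL
  have hRm : StrictAnti R := strictAnti_nat_of_succ_lt hR
  have hLR2 : ∀ i k, L i < R k := by
    intro i k
    calc L i ≤ L (max i k) := hLm.monotone (le_max_left _ _)
    _ < R (max i k) := hLR _
    _ ≤ R k := hRm.antitone (le_max_right _ _)
  have hbdd : BddAbove (Set.range L) := ⟨R 0, by rintro _ ⟨i, rfl⟩; exact (hLR2 i 0).le⟩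
  refine ⟨⨆ k, L k, fun j => ?_⟩
  set x := ⨆ k, L k with hx
  have hx1 : L j < x := (hL j).trans_le (le_ciSup hbdd (j+1))
  have hx2 : x < R j := (ciSup_le (fun i => (hLR2 i (j+1)).le)).trans_lt (hR j)
  obtain ⟨s, hs⟩ := hform j
  have hpos : (0:ℝ) < 4 ^ (j+1) := by positivity
  simp only [L, R] at hx1 hx2
  rw [div_lt_iff₀ hpos] at hx1
  rw [lt_div_iff₀ hpos] at hx2
  rw [hs] at hx1 hx2
  push_cast at hx1 hx2
  constructor
  · rintro ⟨s', h1, h2⟩
    by_contra hj
    have hd : dg j = 1 := by simp [dg, hj]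
    rw [hd] at hx1 hx2
    push_cast at hx1 hx2
    rw [div_lt_iff₀ hpos] at h1
    have h3 : (4 * (s':ℝ) + 2) < 4 * s + 2 := by linarith
    have h4 : s' < s := by
      have : (s':ℝ) < s := by linarith
      exact_mod_cast this
    have h5 := h2 s' (by apply div_lt_div_of_pos_right _ hpos; linarith)
    rw [le_div_iff₀ hpos] at h5
    have h6 : (s':ℝ) + 1 ≤ s := by exact_mod_cast h4
    linarith
  · intro hj
    have hd : dg j = 2 := by simp [dg, hj]
    rw [hd] at hx1 hx2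
    push_cast at hx1 hx2
    refine ⟨s, ?_, ?_⟩
    · rw [div_lt_iff₀ hpos]; linarith
    · intro s' hs'
      rw [div_lt_div_iff_of_pos_right hpos] at hs'
      rw [le_div_iff₀ hpos]
      have h4 : s ≤ s' := by
        have : (s:ℝ) < s' + 1 := by linarith
        have h5 : s < s' + 1 := by exact_mod_cast this
        omega
      have h6 : (s:ℝ) ≤ s' := by exact_mod_cast h4
      linarith

end Pool.Agent.PosetP
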