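import Pool.Agent.PosetP

set_option autoImplicit false

open FirstOrder FirstOrder.Language

namespace Pool.Agent.PosetP

open Pool.Agent.PosetDef Bt Tp P

noncomputable instance instStr : Language.order.Structure P := orderStructure P
instance instOrd : Language.order.OrderedStructure P where
  relMap_leSymb := fun _ => Iff.rfl

theorem d_E : D1 E := by
  unfold D1 E
  repeat' (first | apply at2 d2_le | exact Simple.var _ | exact Simple.const _ | apply Dn.and | apply Dn.not | apply Dn.ex)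

theorem d_Mi : D1 Mi := by
  unfold D1 Mi
  repeat' (first | apply at2 d2_le | exact Simple.var _ | exact Simple.const _ | apply Dn.and | apply Dn.not | apply Dn.all | apply Dn.imp)

theorem d_OS : D1 OS := by
  unfold D1 OS
  repeat' (first | apply at2 d2_le | apply at1 d_Mi | exact Simple.var _ | exact Simple.const _ | apply Dn.and | apply Dn.not | apply Dn.ex)

theorem d_OM : D1 OM := by
  unfold D1 OM
  repeat' (first | apply at2 d2_le | apply at1 d_Mi | apply at1 d_OS | exact Simple.var _ | exact Simple.const _ | apply Dn.and | apply Dn.ex | apply Dn.not)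

theorem d_Cut : D2 Cut := by
  unfold D2 Cut
  repeat' (first | apply at2 d2_le | apply at1 d_E | exact Simple.var _ | exact Simple.const _ | apply Dn.and | apply Dn.all | apply Dn.imp)

theorem d_Bit : D2 Bit := by
  unfold D2 Bit
  repeat' (first | apply at2 d2_le | apply at1 d_E | exact Simple.var _ | exact Simple.const _ | apply Dn.and | apply Dn.all | apply Dn.ex | apply Dn.not | apply Dn.imp)

/-- graph coded by a parameter -/
def GT (w o y : P) : Prop := ∃ K p, GA ≤ K ∧ OM o ∧ o ≤ K ∧ OS p ∧ p ≤ K ∧ Bit p w ∧ Cut K y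

theorem d_GT (w : P) : D2 (GT w) := by
  unfold D2 GT
  repeat' (first | apply at2 d2_le | apply at1 d_OM | apply at1 d_OS | apply at2 d_Bit | apply at2 d_Cut | exact Simple.var _ | exact Simple.const _ | apply Dn.and | apply Dn.ex)

theorem exists_GT (T : Set (ℕ × ℚ)) : ∃ w : P, ∀ o y, GT w o y ↔ ∃ n q, (n, q) ∈ T ∧ o = bt (om n) ∧ y = e q := by
  obtain ⟨x, hx⟩ := exists_real (c '' T)
  refine ⟨e x, fun o y => ?_⟩
  constructor
  · rintro ⟨K, p, h1, h2, h3, h4, h5, h6, h7⟩
    obtain ⟨n, rfl⟩ := (OM_iff _).mp h2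
    obtain ⟨j, rfl⟩ := (OS_iff _).mp h4
    obtain ⟨n', q, rfl⟩ := above_GA h1 h3 (by rintro rfl; rw [bt_le_bt] at h1; cases h1)
    rw [bt_le_tp] at h3 h5
    have hn : n = n' := by
      rcases h3 with h | h | h
      · cases h
      · cases h; rfl
      · cases h
    subst hn
    have hj : j = c (n, q) := by
      rcases h5 with h | h | h
      · cases h
      · cases h
      · cases h; rfl
    subst hj
    rw [Bit_iff, hx] at h6
    rw [Cut_iff] at h7
    refine ⟨n, q, ?_, rfl, h7⟩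
    obtain ⟨t, ht, htc⟩ := h6
    rwa [c.injective htc] at ht
  · rintro ⟨n, q, hT, rfl, rfl⟩
    refine ⟨tp (kc n q), bt (os (c (n, q))), Or.inl rfl, (OM_iff _).mpr ⟨_, rfl⟩, Or.inr (Or.inl rfl),
      (OS_iff _).mpr ⟨_, rfl⟩, Or.inr (Or.inr rfl), ?_, (Cut_iff _ _).mpr rfl⟩
    rw [Bit_iff, hx]
    exact ⟨_, hT, rfl⟩

/-- good sequences: the graph, indexed by the `om` elements, is definable -/
def Good (u : ℕ → P) : Prop := D2 (fun o w => ∃ n, o = bt (om n) ∧ w = u n)

theorem D2.congr {R S : P → P → Prop} (h : D2 R) (hRS : ∀ x y, R x y ↔ S x y) : D2 S :=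
  Dn.congr h (fun v => hRS (v 0) (v 1))

theorem D1.congr {R S : P → Prop} (h : D1 R) (hRS : ∀ x, R x ↔ S x) : D1 S :=
  Dn.congr h (fun v => hRS (v 0))

theorem good2 {u1 u2 v : ℕ → P} {R : P → P → P → Prop} (hR : D3 R) (h1 : Good u1) (h2 : Good u2)
    (h : ∀ n w, R (u1 n) (u2 n) w ↔ w = v n) : Good v := by
  have key : D2 (fun o w => ∃ x y, (∃ n, o = bt (om n) ∧ x = u1 n) ∧ (∃ n, o = bt (om n) ∧ y = u2 n)
      ∧ R x y w) := by
    unfold D2
    apply Dn.ex
    apply Dn.ex
    apply Dn.and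
    · apply at2 h1
      · exact Simple.var _
      · exact Simple.var _
    apply Dn.and
    · apply at2 h2
      · exact Simple.var _
      · exact Simple.var _
    · exact at3 hR _ _ _
  refine D2.congr key (fun o w => ?_)
  constructor
  · rintro ⟨x, y, ⟨n, rfl, rfl⟩, ⟨n', hn', rfl⟩, hr⟩
    cases hn'
    exact ⟨n, rfl, (h n w).mp hr⟩
  · rintro ⟨n, rfl, rfl⟩
    exact ⟨u1 n, u2 n, ⟨n, rfl, rfl⟩, ⟨n, rfl, rfl⟩, (h n _).mpr rfl⟩

theorem d_sub (N : Set ℕ) : D1 (fun o => ∃ n ∈ N, o = bt (om n)) := by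
  obtain ⟨w, hw⟩ := exists_GT {p | p.1 ∈ N ∧ p.2 = 0}
  refine D1.congr (d1_const (d_GT w) (e 0)) (fun o => ?_)
  rw [hw]
  constructor
  · rintro ⟨n, q, hT, rfl, h⟩
    exact ⟨n, hT.1, rfl⟩
  · rintro ⟨n, hn, rfl⟩
    exact ⟨n, 0, ⟨hn, rfl⟩, rfl, by simp⟩

theorem goodSplit {u v : ℕ → P} (hu : Good u) (hv : Good v) (N : ℕ → Prop) [DecidablePred N] :
    Good (fun n => if N n then u n else v n) := by
  have h1 : D2 (fun o w => ((∃ n ∈ {n | N n}, o = bt (om n)) ∧ ∃ n, o = bt (om n) ∧ w = u n) ∨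
      (¬ (∃ n ∈ {n | N n}, o = bt (om n)) ∧ ∃ n, o = bt (om n) ∧ w = v n)) := by
    unfold D2
    apply Dn.or
    · apply Dn.and
      · exact at1 (d_sub {n | N n}) (Simple.var _)
      · exact at2 hu (Simple.var _) (Simple.var _)
    · apply Dn.and
      · apply Dn.not
        exact at1 (d_sub {n | N n}) (Simple.var _)
      · exact at2 hv (Simple.var _) (Simple.var _)
  refine D2.congr h1 (fun o w => ?_)
  constructor
  · rintro (⟨⟨n, hn, rfl⟩, n', hn', rfl⟩ | ⟨hn, n', rfl, rfl⟩)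
    · cases hn'
      exact ⟨n, rfl, (if_pos hn).symm⟩
    · refine ⟨n', rfl, (if_neg ?_).symm⟩
      intro h; exact hn ⟨n', h, rfl⟩
  · rintro ⟨n, rfl, rfl⟩
    by_cases h : N n
    · left
      exact ⟨⟨n, h, rfl⟩, n, rfl, if_pos h⟩
    · right
      refine ⟨?_, n, rfl, if_neg h⟩
      rintro ⟨n', hn', h'⟩
      cases h'
      exact h hn'

theorem goodE (u : ℕ → ℝ) : Good (fun n => e (u n)) := by
  obtain ⟨w0, hw0⟩ := exists_GT {p | (p.2 : ℝ) < u p.1}
  have h1 : D2 (fun o w => OM o ∧ E w ∧ ∀ y, (∃ K, GA ≤ K ∧ Cut K y) → (GT w0 o y ↔ (y ≤ w ∧ ¬ w ≤ y))) := by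
    unfold D2
    repeat' (first | apply at2 d2_le | apply at1 d_E | apply at1 d_OM | apply at2 (d_GT w0) | apply at2 d_Cut | exact Simple.var _ | exact Simple.const _ | apply Dn.and | apply Dn.all | apply Dn.ex | apply Dn.iff | apply Dn.not | apply Dn.imp)
  refine D2.congr h1 (fun o w => ?_)
  constructor
  · rintro ⟨ho, hE, h⟩
    obtain ⟨n, rfl⟩ := (OM_iff _).mp ho
    obtain ⟨x, rfl⟩ := (E_iff _).mp hE
    refine ⟨n, rfl, ?_⟩
    have key : ∀ q : ℚ, (q : ℝ) < u n ↔ (q : ℝ) < x := by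
      intro q
      have h2 := h (e q) ⟨tp (kc 0 q), Or.inl rfl, (Cut_iff _ _).mpr rfl⟩
      rw [hw0, e_le_e, e_le_e, not_le] at h2
      constructor
      · intro hq
        exact (h2.mp ⟨n, q, hq, rfl, rfl⟩).2
      · intro hq
        obtain ⟨n', q', hT, h3, h4⟩ := h2.mpr ⟨hq.le, hq⟩
        cases h3
        have h5 : (q : ℝ) = q' := by injection h4
        rw [h5]; exact hT
    congr 1
    rcases lt_trichotomy x (u n) with h2 | h2 | h2
    · obtain ⟨q, hq1, hq2⟩ := exists_rat_btwn h2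
      exact absurd ((key q).mp hq2) (not_lt.mpr hq1.le)
    · exact h2
    · obtain ⟨q, hq1, hq2⟩ := exists_rat_btwn h2
      exact absurd ((key q).mpr hq2) (not_lt.mpr hq1.le)
  · rintro ⟨n, rfl, rfl⟩
    refine ⟨(OM_iff _).mpr ⟨_, rfl⟩, (E_iff _).mpr ⟨_, rfl⟩, ?_⟩
    rintro y ⟨K, hK, hC⟩
    have hyE := hC.1
    obtain ⟨n', q, rfl⟩ : ∃ n' q, K = tp (kc n' q) := by
      obtain ⟨r, hr⟩ := (E_iff _).mp hyE
      refine above_GA hK hC.2.1 ?_
      rintro rfl
      rw [hr] at hK
      exact bt_le_e _ _ hK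
    rw [Cut_iff] at hC
    subst hC
    change GT w0 _ (e q) ↔ _
    rw [hw0]
    change _ ↔ (e (q:ℝ) ≤ e (u n) ∧ ¬ e (u n) ≤ e (q:ℝ))
    rw [e_le_e, e_le_e, not_le]
    constructor
    · rintro ⟨n'', q', hT, h3, h4⟩
      cases h3
      have h5 : (q : ℝ) = q' := by injection h4
      have h6 : (q : ℝ) < u n := by rw [h5]; exact hT
      exact ⟨h6.le, h6⟩
    · rintro ⟨_, h⟩
      exact ⟨n, q, h, rfl, rfl⟩

theorem goodConst (a : P) : Good (fun _ => a) := by
  have hR : D3 (fun (_ _ w : P) => w = a) := by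
    unfold D3
    exact at1 (R := fun w => w = a) (eq_const 1 0 a) (Simple.var _)
  exact good2 hR (goodE (fun _ => 0)) (goodE (fun _ => 0)) (fun n w => Iff.rfl)

theorem goodOM (a : ℕ → ℕ) : Good (fun n => bt (om (a n))) := by
  obtain ⟨w0, hw0⟩ := exists_GT {p | p.2 = (p.1 : ℚ)}
  have hR : D3 (fun (x _ w : P) => GT w0 w x) := by
    unfold D3
    exact at2 (d_GT w0) (Simple.var _) (Simple.var _)
  refine good2 hR (goodE (fun n => ((a n : ℕ) : ℝ))) (goodE (fun _ => 0)) (fun n w => ?_)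
  change GT w0 w _ ↔ _
  rw [hw0]
  constructor
  · rintro ⟨n', q, hT, rfl, h⟩
    have h5 : ((a n : ℕ) : ℝ) = q := by injection h
    have h6 : q = n' := hT
    rw [h6] at h5
    have h7 : a n = n' := by exact_mod_cast h5
    rw [h7]
  · rintro rfl
    refine ⟨a n, a n, rfl, rfl, by simp⟩

theorem goodKC (a : ℕ → ℕ) (q : ℕ → ℚ) : Good (fun n => tp (kc (a n) (q n))) := by
  have hR : D3 (fun (x y w : P) => GA ≤ w ∧ OM x ∧ x ≤ w ∧ Cut w y) := by
    unfold D3
    repeat' (first | apply at2 d2_le | apply at1 d_OM | apply at2 d_Cut | exact Simple.var _ | exact Simple.const _ | apply Dn.and)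
  refine good2 hR (goodOM a) (goodE (fun n => (q n : ℝ))) (fun n w => ?_)
  constructor
  · rintro ⟨h1, h2, h3, h4⟩
    obtain ⟨n', q', rfl⟩ := above_GA h1 h3 (by rintro rfl; rw [bt_le_bt] at h1; cases h1)
    rw [bt_le_tp] at h3
    rw [Cut_iff] at h4
    have h5 : (q n : ℝ) = q' := by injection h4
    have h6 : q n = q' := by exact_mod_cast h5
    rcases h3 with h | h | h
    · cases h
    · injection h with h
      rw [h, h6]
    · cases h
  · rintro rfl
    exact ⟨Or.inl rfl, (OM_iff _).mpr ⟨_, rfl⟩, Or.inr (Or.inl rfl), (Cut_iff _ _).mpr rfl⟩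

theorem goodOS (j : ℕ → ℕ) : Good (fun n => bt (os (j n))) := by
  have hR : D3 (fun (x _ w : P) => OS w ∧ w ≤ x) := by
    unfold D3
    repeat' (first | apply at2 d2_le | apply at1 d_OS | exact Simple.var _ | exact Simple.const _ | apply Dn.and)
  refine good2 hR (goodKC (fun n => (c.symm (j n)).1) (fun n => (c.symm (j n)).2)) (goodE (fun _ => 0))
    (fun n w => ?_)
  constructor
  · rintro ⟨h1, h2⟩
    obtain ⟨j', rfl⟩ := (OS_iff _).mp h1
    rw [bt_le_tp] at h2
    rcases h2 with h | h | h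
    · cases h
    · cases h
    · injection h with h
      rw [h]; simp
  · rintro rfl
    refine ⟨(OS_iff _).mpr ⟨_, rfl⟩, ?_⟩
    change F (kc _ _) _
    refine Or.inr (Or.inr ?_)
    simp

theorem goodKA (j : ℕ → ℕ) (s : ℕ → ℤ) : Good (fun n => tp (ka (j n) (s n))) := by
  have hR : D3 (fun (x y w : P) => AL ≤ w ∧ OS x ∧ x ≤ w ∧ Cut w y) := by
    unfold D3
    repeat' (first | apply at2 d2_le | apply at1 d_OS | apply at2 d_Cut | exact Simple.var _ | exact Simple.const _ | apply Dn.and)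
  refine good2 hR (goodOS j) (goodE (fun n => cut (ka (j n) (s n)))) (fun n w => ?_)
  constructor
  · rintro ⟨h1, h2, h3, h4⟩
    obtain ⟨j', s', rfl⟩ := above_AL h1 h3 (by rintro rfl; rw [bt_le_bt] at h1; cases h1)
    rw [bt_le_tp] at h3
    rw [Cut_iff] at h4
    have hj : j n = j' := by
      rcases h3 with h | h
      · cases h
      · injection h
    subst hj
    have h5 : cut (ka (j n) (s n)) = cut (ka (j n) s') := by injection h4
    simp only [cut] at h5
    rw [div_left_inj' (by positivity)] at h5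
    have h6 : (s n : ℝ) = s' := by linarith
    have h7 : s n = s' := by exact_mod_cast h6
    rw [h7]
  · rintro rfl
    exact ⟨Or.inl rfl, (OS_iff _).mpr ⟨_, rfl⟩, Or.inr rfl, (Cut_iff _ _).mpr rfl⟩

theorem goodKB (j : ℕ → ℕ) (s : ℕ → ℤ) : Good (fun n => tp (kb (j n) (s n))) := by
  have hR : D3 (fun (x y w : P) => BE ≤ w ∧ OS x ∧ x ≤ w ∧ Cut w y) := by
    unfold D3
    repeat' (first | apply at2 d2_le | apply at1 d_OS | apply at2 d_Cut | exact Simple.var _ | exact Simple.const _ | apply Dn.and)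
  refine good2 hR (goodOS j) (goodE (fun n => cut (kb (j n) (s n)))) (fun n w => ?_)
  constructor
  · rintro ⟨h1, h2, h3, h4⟩
    obtain ⟨j', s', rfl⟩ := above_BE h1 h3 (by rintro rfl; rw [bt_le_bt] at h1; cases h1)
    rw [bt_le_tp] at h3
    rw [Cut_iff] at h4
    have hj : j n = j' := by
      rcases h3 with h | h
      · cases h
      · injection h
    subst hj
    have h5 : cut (kb (j n) (s n)) = cut (kb (j n) s') := by injection h4
    simp only [cut] at h5
    rw [div_left_inj' (by positivity)] at h5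
    have h6 : (s n : ℝ) = s' := by linarith
    have h7 : s n = s' := by exact_mod_cast h6
    rw [h7]
  · rintro rfl
    exact ⟨Or.inl rfl, (OS_iff _).mpr ⟨_, rfl⟩, Or.inr rfl, (Cut_iff _ _).mpr rfl⟩

/-- projections -/
def gE : P → ℝ | e x => x | _ => 0
/-- projections -/
def gOM : P → ℕ | bt (om n) => n | _ => 0
/-- projections -/
def gOS : P → ℕ | bt (os n) => n | _ => 0
/-- projections -/
def gKA : P → ℕ × ℤ | tp (ka j s) => (j, s) | _ => (0, 0)
/-- projections -/
def gKB : P → ℕ × ℤ | tp (kb j s) => (j, s) | _ => (0, 0)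
/-- projections -/
def gKC : P → ℕ × ℚ | tp (kc n q) => (n, q) | _ => (0, 0)

theorem good_all (u : ℕ → P) : Good u := by
  classical
  have h := goodSplit (goodE (fun n => gE (u n)))
    (goodSplit (goodOM (fun n => gOM (u n)))
    (goodSplit (goodOS (fun n => gOS (u n)))
    (goodSplit (goodKA (fun n => (gKA (u n)).1) (fun n => (gKA (u n)).2))
    (goodSplit (goodKB (fun n => (gKB (u n)).1) (fun n => (gKB (u n)).2))
    (goodSplit (goodKC (fun n => (gKC (u n)).1) (fun n => (gKC (u n)).2))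
    (goodSplit (goodConst AL)
    (goodSplit (goodConst BE) (goodConst GA) (fun n => u n = BE))
      (fun n => u n = AL))
      (fun n => ∃ a q, u n = tp (kc a q)))
      (fun n => ∃ a q, u n = tp (kb a q)))
      (fun n => ∃ a q, u n = tp (ka a q)))
      (fun n => ∃ a, u n = bt (os a)))
      (fun n => ∃ a, u n = bt (om a)))
      (fun n => ∃ a, u n = e a)
  convert h using 1
  funext n
  cases hun : u n with
  | e x => simp [gE]
  | bt b => cases b <;> simp [gOM, gOS]
  | tp t => cases t <;> simp [gKA, gKB, gKC]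

end Pool.Agent.PosetP
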