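import Mathlib

set_option autoImplicit false

namespace Pool.Agent.PrimA

noncomputable section

open LaurentPolynomial

instance fact7 : Fact (Nat.Prime 7) := ⟨by norm_num⟩

abbrev K := ZMod 7
abbrev R := LaurentPolynomial K
abbrev A := LaurentPolynomial R

/-- the unit `t`. -/
def tu : Rˣ := ⟨T 1, T (-1), by rw [← T_add]; simp, by rw [← T_add]; simp⟩

/-- the unit `s`. -/
def su : Aˣ := ⟨T 1, T (-1), by rw [← T_add]; simp, by rw [← T_add]; simp⟩

def sR : R →+* R := eval₂ C (-tu)

def sg : A →+* A := eval₂ (C.comp sR) su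

theorem hom_ext {k B : Type*} [CommRing k] [CommRing B] (f g : LaurentPolynomial k →+* B)
    (hC : ∀ a, f (C a) = g (C a)) (hT : f (T 1) = g (T 1)) : f = g := by
  have hT' : ∀ n : ℤ, f (T n) = g (T n) := by
    intro n
    have h1 : f (T (-1)) = g (T (-1)) := by
      have e1 : f (T 1) * f (T (-1)) = 1 := by rw [← map_mul, ← T_add]; simp
      have e2 : g (T 1) * g (T (-1)) = 1 := by rw [← map_mul, ← T_add]; simp
      calc f (T (-1)) = f (T (-1)) * (g (T 1) * g (T (-1))) := by rw [e2, mul_one]
        _ = (f (T 1) * f (T (-1))) * g (T (-1)) := by rw [hT]; ring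
        _ = g (T (-1)) := by rw [e1, one_mul]
    induction n using Int.induction_on with
    | zero => simp
    | succ n ih => rw [T_add, map_mul, map_mul, ih, hT]
    | pred n ih =>
      have : (T (-(n : ℤ) - 1) : LaurentPolynomial k) = T (-(n:ℤ)) * T (-1) := by
        rw [← T_add]; rfl
      rw [this, map_mul, map_mul, ih, h1]
  apply RingHom.ext
  intro p
  induction p using LaurentPolynomial.induction_on' with
  | add p q hp hq => rw [map_add, map_add, hp, hq]
  | C_mul_T n a => rw [map_mul, map_mul, hC, hT']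

/-- `t` in `A`. -/
def t : A := C (tu : R)
/-- `s` in `A`. -/
def s : A := (su : A)

theorem sR_tu : sR (tu : R) = -(tu : R) := by
  have : (tu : R) = T 1 := rfl
  rw [this, sR, eval₂_T]; simp [tu]

theorem sR_sR (r : R) : sR (sR r) = r := by
  have : sR.comp sR = RingHom.id R := by
    apply hom_ext
    · intro a
      simp [sR]
    · have : (tu : R) = T 1 := rfl
      simp only [RingHom.comp_apply, RingHom.id_apply]
      rw [← this, sR_tu, map_neg, sR_tu, neg_neg]
  exact congrArg (fun f : R →+* R => f r) this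

theorem sg_C (r : R) : sg (C r) = C (sR r) := by
  simp [sg]

theorem sg_s : sg s = s := by
  have : s = T 1 := rfl
  rw [this, sg, eval₂_T]; simp [su]

theorem sg_T (n : ℕ) : sg (T n) = T n := by
  have h1 : (T n : A) = s ^ n := by
    have : s = T 1 := rfl
    rw [this, T_pow]; simp
  rw [h1, map_pow, sg_s]

theorem sg_t : sg t = -t := by
  rw [t, sg_C, sR_tu, map_neg]

theorem sg_sg (a : A) : sg (sg a) = a := by
  have : sg.comp sg = RingHom.id A := by
    apply hom_ext
    · intro a
      simp only [RingHom.comp_apply, RingHom.id_apply, sg_C, sR_sR]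
    · have : (T 1 : A) = s := rfl
      simp only [RingHom.comp_apply, RingHom.id_apply]
      rw [this, sg_s, sg_s]
  exact congrArg (fun f : A →+* A => f a) this

theorem sg_inj {a : A} (h : sg a = 0) : a = 0 := by
  rw [← sg_sg a, h, map_zero]

/-- evaluation at `t = 3`, `s = 1`. -/
def evR : R →+* K := eval₂ (RingHom.id K) (Units.mk0 (3 : K) (by decide))

def ev : A →+* K := eval₂ evR 1

theorem ev_t : ev t = 3 := by
  have : (tu : R) = T 1 := rfl
  rw [t, ev, eval₂_C, this, evR, eval₂_T]; simp

/-- polynomial version of the involution -/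
def sP : Polynomial R →+* Polynomial R := Polynomial.mapRingHom sR

theorem sg_toLaurent (p : Polynomial R) : sg (Polynomial.toLaurent p) = Polynomial.toLaurent (sP p) := by
  induction p using Polynomial.induction_on' with
  | add p q hp hq => rw [map_add, map_add, map_add, map_add, hp, hq]
  | monomial n a =>
    rw [← Polynomial.C_mul_X_pow_eq_monomial]
    simp only [map_mul, Polynomial.toLaurent_C, sg_C, sP, Polynomial.coe_mapRingHom, Polynomial.map_C,
      Polynomial.map_X, map_pow, Polynomial.toLaurent_X]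
    congr 2
    exact sg_s

theorem sR_ne {r : R} (h : r ≠ 0) : sR r ≠ 0 := fun h' => h (by rw [← sR_sR r, h', map_zero])

theorem sP_natDegree (p : Polynomial R) : (sP p).natDegree = p.natDegree := by
  apply Polynomial.natDegree_map_eq_of_injective
  intro a b hab
  rw [← sR_sR a, hab, sR_sR]

theorem sP_coeff (p : Polynomial R) (n : ℕ) : (sP p).coeff n = sR (p.coeff n) := by
  simp [sP]

theorem sP_sP (p : Polynomial R) : sP (sP p) = p := by
  ext n : 1
  rw [sP_coeff, sP_coeff, sR_sR]

theorem sP_ne {p : Polynomial R} (h : p ≠ 0) : sP p ≠ 0 := fun h' => h (by rw [← sP_sP p, h', map_zero])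

theorem sP_trail_le {p : Polynomial R} (h : p ≠ 0) : (sP p).natTrailingDegree ≤ p.natTrailingDegree := by
  apply Polynomial.natTrailingDegree_le_of_ne_zero
  rw [sP_coeff]
  apply sR_ne
  exact Polynomial.trailingCoeff_nonzero_iff_nonzero.mpr h

theorem sP_natTrailingDegree {p : Polynomial R} (h : p ≠ 0) :
    (sP p).natTrailingDegree = p.natTrailingDegree := by
  apply le_antisymm (sP_trail_le h)
  have := sP_trail_le (sP_ne h)
  rwa [sP_sP] at this

theorem pow_clear (P : A) : ∃ n : ℕ, ∀ m : ℕ, n ≤ m → ∃ P' : Polynomial R, Polynomial.toLaurent P' = P * T m := by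
  obtain ⟨n, P', hP'⟩ := exists_T_pow P
  refine ⟨n, fun m hm => ⟨P' * Polynomial.X ^ (m - n), ?_⟩⟩
  rw [map_mul, hP', Polynomial.toLaurent_X_pow, mul_assoc, ← T_add]
  congr 2
  omega

/-- norm form -/
def nm (P Q : A) : A := P * sg P - s * (Q * sg Q)

theorem poly_nm (P Q : Polynomial R) (hP : P ≠ 0) (hQ : Q ≠ 0) (D : Polynomial R) (r : R) (hr : r ≠ 0) (N : ℕ)
    (h : (P * sP P - Polynomial.X * (Q * sP Q)) * D = Polynomial.C r * Polynomial.X ^ N) : False := by
  set U := P * sP P with hU
  set W := Polynomial.X * (Q * sP Q) with hW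
  have hU0 : U ≠ 0 := mul_ne_zero hP (sP_ne hP)
  have hQQ : Q * sP Q ≠ 0 := mul_ne_zero hQ (sP_ne hQ)
  have hW0 : W ≠ 0 := mul_ne_zero Polynomial.X_ne_zero hQQ
  have dU : U.natDegree = 2 * P.natDegree := by
    rw [hU, Polynomial.natDegree_mul hP (sP_ne hP), sP_natDegree]; ring
  have dW : W.natDegree = 2 * Q.natDegree + 1 := by
    rw [hW, Polynomial.natDegree_mul Polynomial.X_ne_zero hQQ,
      Polynomial.natDegree_mul hQ (sP_ne hQ), sP_natDegree, Polynomial.natDegree_X]; ring
  have tU : U.natTrailingDegree = 2 * P.natTrailingDegree := by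
    rw [hU, Polynomial.natTrailingDegree_mul hP (sP_ne hP), sP_natTrailingDegree hP]; ring
  have tW : W.natTrailingDegree = 2 * Q.natTrailingDegree + 1 := by
    rw [hW, Polynomial.natTrailingDegree_mul Polynomial.X_ne_zero hQQ,
      Polynomial.natTrailingDegree_mul hQ (sP_ne hQ), sP_natTrailingDegree hQ,
      Polynomial.natTrailingDegree_X]; ring
  have hprod : (U - W) * D ≠ 0 := by
    rw [h]
    exact mul_ne_zero (Polynomial.C_ne_zero.mpr hr) (pow_ne_zero _ Polynomial.X_ne_zero)
  have hN0 : U - W ≠ 0 := left_ne_zero_of_mul hprod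
  have hD0 : D ≠ 0 := right_ne_zero_of_mul hprod
  have e1 : (U - W).natDegree + D.natDegree = N := by
    rw [← Polynomial.natDegree_mul hN0 hD0, h, Polynomial.natDegree_C_mul_X_pow _ _ hr]
  have e2 : (U - W).natTrailingDegree + D.natTrailingDegree = N := by
    rw [← Polynomial.natTrailingDegree_mul hN0 hD0, h,
      Polynomial.natTrailingDegree_mul (Polynomial.C_ne_zero.mpr hr) (pow_ne_zero _ Polynomial.X_ne_zero)]
    simp
  have e3 := Polynomial.natTrailingDegree_le_natDegree (U - W)
  have e4 := Polynomial.natTrailingDegree_le_natDegree D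
  have e5 : (U - W).natDegree = (U - W).natTrailingDegree := by omega
  have hPt := Polynomial.natTrailingDegree_le_natDegree P
  have hQt := Polynomial.natTrailingDegree_le_natDegree Q
  have hcU : U.coeff U.natTrailingDegree ≠ 0 := Polynomial.trailingCoeff_nonzero_iff_nonzero.mpr hU0
  have hcW : W.coeff W.natTrailingDegree ≠ 0 := Polynomial.trailingCoeff_nonzero_iff_nonzero.mpr hW0
  have htr : (U - W).natTrailingDegree ≤ min U.natTrailingDegree W.natTrailingDegree := by
    apply Polynomial.natTrailingDegree_le_of_ne_zero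
    rcases lt_trichotomy U.natTrailingDegree W.natTrailingDegree with hlt | heq | hgt
    · rw [min_eq_left hlt.le, Polynomial.coeff_sub, Polynomial.coeff_eq_zero_of_lt_natTrailingDegree hlt,
        sub_zero]
      exact hcU
    · omega
    · rw [min_eq_right hgt.le, Polynomial.coeff_sub, Polynomial.coeff_eq_zero_of_lt_natTrailingDegree hgt,
        zero_sub]
      exact neg_ne_zero.mpr hcW
  rcases lt_trichotomy U.natDegree W.natDegree with hlt | heq | hgt
  · have := Polynomial.natDegree_sub_eq_right_of_natDegree_lt hlt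
    have h6 := htr.trans (min_le_left _ _)
    omega
  · omega
  · have := Polynomial.natDegree_sub_eq_left_of_natDegree_lt hgt
    have h6 := htr.trans (min_le_right _ _)
    omega

theorem nm_const (P Q D : A) (r : R) (hr : r ≠ 0) (h : nm P Q * D = C r) : P = 0 ∨ Q = 0 := by
  by_contra hcon
  push Not at hcon
  obtain ⟨hP, hQ⟩ := hcon
  obtain ⟨n1, h1⟩ := pow_clear P
  obtain ⟨n2, h2⟩ := pow_clear Q
  obtain ⟨n3, h3⟩ := pow_clear D
  set m := max n1 n2 with hm
  obtain ⟨P', hP'⟩ := h1 m (le_max_left _ _)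
  obtain ⟨Q', hQ'⟩ := h2 m (le_max_right _ _)
  obtain ⟨D', hD'⟩ := h3 n3 le_rfl
  have hz : ∀ (B : A) (k : ℕ), B ≠ 0 → B * T k ≠ 0 := by
    intro B k hB h0
    apply hB
    have : B = B * T k * T (-(k:ℤ)) := by rw [mul_assoc, ← T_add]; simp
    rw [this, h0, zero_mul]
  apply poly_nm P' Q' ?_ ?_ D' r hr (2 * m + n3)
  · apply Polynomial.toLaurent_injective
    simp only [map_mul, map_sub, ← sg_toLaurent, hP', hQ', hD', Polynomial.toLaurent_C,
      Polynomial.toLaurent_X, Polynomial.toLaurent_X_pow, sg_T]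
    have hs : s = T 1 := rfl
    rw [← h, nm, hs]
    have : (T ((2 * m + n3 : ℕ) : ℤ) : A) = T m * T m * T n3 := by
      rw [← T_add, ← T_add]; congr 1; push_cast; ring
    rw [this]
    ring
  · rintro rfl
    rw [map_zero] at hP'
    exact hz P m hP hP'.symm
  · rintro rfl
    rw [map_zero] at hQ'
    exact hz Q m hQ hQ'.symm

theorem nm_eq_zero (P Q : A) (h : nm P Q = 0) : P = 0 ∧ Q = 0 := by
  by_contra hcon
  have hor : P = 0 ∨ Q = 0 := by
    by_contra hcon2
    push Not at hcon2
    obtain ⟨hP, hQ⟩ := hcon2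
    obtain ⟨n1, h1⟩ := pow_clear P
    obtain ⟨n2, h2⟩ := pow_clear Q
    set m := max n1 n2 with hm
    obtain ⟨P', hP'⟩ := h1 m (le_max_left _ _)
    obtain ⟨Q', hQ'⟩ := h2 m (le_max_right _ _)
    have hz : ∀ (B : A) (k : ℕ), B ≠ 0 → B * T k ≠ 0 := by
      intro B k hB h0
      apply hB
      have : B = B * T k * T (-(k:ℤ)) := by rw [mul_assoc, ← T_add]; simp
      rw [this, h0, zero_mul]
    have hP0 : P' ≠ 0 := by
      rintro rfl
      rw [map_zero] at hP'
      exact hz P m hP hP'.symm
    have hQ0 : Q' ≠ 0 := by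
      rintro rfl
      rw [map_zero] at hQ'
      exact hz Q m hQ hQ'.symm
    have key : P' * sP P' = Polynomial.X * (Q' * sP Q') := by
      apply Polynomial.toLaurent_injective
      simp only [map_mul, ← sg_toLaurent, hP', hQ', Polynomial.toLaurent_X, sg_T]
      have hs : s = T 1 := rfl
      rw [nm, hs] at h
      linear_combination (T m * T m) * h
    have k2 := congrArg Polynomial.natDegree key
    rw [Polynomial.natDegree_mul hP0 (sP_ne hP0), sP_natDegree,
      Polynomial.natDegree_mul Polynomial.X_ne_zero (mul_ne_zero hQ0 (sP_ne hQ0)),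
      Polynomial.natDegree_mul hQ0 (sP_ne hQ0), sP_natDegree, Polynomial.natDegree_X] at k2
    omega
  rcases hor with h0 | h0
  · subst h0
    rw [nm, zero_mul, zero_sub, neg_eq_zero] at h
    have hs0 : s ≠ 0 := by
      have : IsUnit s := su.isUnit
      exact this.ne_zero
    rcases mul_eq_zero.mp ((mul_eq_zero.mp h).resolve_left hs0) with h1 | h1
    · exact hcon ⟨rfl, h1⟩
    · exact hcon ⟨rfl, sg_inj h1⟩
  · subst h0
    rw [nm, zero_mul, mul_zero, sub_zero] at h
    rcases mul_eq_zero.mp h with h1 | h1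
    · exact hcon ⟨h1, rfl⟩
    · exact hcon ⟨sg_inj h1, rfl⟩

end

end Pool.Agent.PrimA
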