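import Mathlib

set_option autoImplicit false

namespace Pool.Agent.PrimB

section general

variable {S : Type} [Ring S]

/-- the affine permutation `v ↦ g v + m`. -/
def aff (m : S) (g : Sˣ) : Equiv.Perm S where
  toFun v := g * v + m
  invFun v := (g⁻¹ : Sˣ) * (v - m)
  left_inv v := by simp
  right_inv v := by simp

theorem aff_apply (m : S) (g : Sˣ) (v : S) : aff m g v = g * v + m := rfl

theorem aff_mul (m m' : S) (g g' : Sˣ) : aff m g * aff m' g' = aff (m + g * m') (g * g') := by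
  ext v
  simp only [Equiv.Perm.mul_apply, aff_apply, Units.val_mul]
  noncomm_ring

theorem aff_one : aff (0 : S) 1 = 1 := by
  ext v; simp [aff_apply]

theorem aff_inv (m : S) (g : Sˣ) : (aff m g)⁻¹ = aff (-((g⁻¹ : Sˣ) * m)) g⁻¹ := by
  rw [inv_eq_iff_mul_eq_one, aff_mul]
  simp [aff_one]

theorem aff_inj {m m' : S} {g g' : Sˣ} (h : aff m g = aff m' g') : m = m' ∧ g = g' := by
  have h0 : m = m' := by
    have := congrArg (fun e : Equiv.Perm S => e 0) h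
    simpa [aff_apply] using this
  refine ⟨h0, ?_⟩
  have h1 := congrArg (fun e : Equiv.Perm S => e 1) h
  simp only [aff_apply, mul_one] at h1
  apply Units.ext
  rw [h0] at h1
  exact add_right_cancel h1

/-- evaluation of words in the affine group -/
def evw {ι : Type} (γ : ι → Sˣ) (m : ι → S) : FreeGroup ι →* Equiv.Perm S :=
  FreeGroup.lift (fun i => aff (m i) (γ i))

theorem evw_of {ι : Type} (γ : ι → Sˣ) (m : ι → S) (i : ι) : evw γ m (FreeGroup.of i) = aff (m i) (γ i) := by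
  simp [evw]

theorem fox (γ : Fin 2 → Sˣ) (w : FreeGroup (Fin 2)) :
    ∃ D : Fin 2 → S, ∀ m, evw γ m w = aff (D 0 * m 0 + D 1 * m 1) (FreeGroup.lift γ w) := by
  induction w using FreeGroup.induction_on with
  | C1 => exact ⟨0, fun m => by simp [aff_one]⟩
  | of i =>
    refine ⟨Pi.single i 1, fun m => ?_⟩
    rw [evw_of, FreeGroup.lift_apply_of]
    fin_cases i <;> simp
  | inv_of i ih =>
    obtain ⟨D, hD⟩ := ih
    refine ⟨fun k => -(((FreeGroup.lift γ (FreeGroup.of i))⁻¹ : Sˣ) * D k), fun m => ?_⟩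
    rw [map_inv, map_inv, hD, aff_inv]
    congr 1
    noncomm_ring
  | mul x y hx hy =>
    obtain ⟨D, hD⟩ := hx
    obtain ⟨D', hD'⟩ := hy
    refine ⟨fun k => D k + (FreeGroup.lift γ x : Sˣ) * D' k, fun m => ?_⟩
    rw [map_mul, map_mul, hD, hD', aff_mul]
    congr 1
    noncomm_ring

/-- points in `G` -/
def V (G : Subgroup Sˣ) : Subgroup (FreeGroup (Fin 2)) where
  carrier := {w | ∀ (γ : Fin 2 → Sˣ) (m : Fin 2 → S), (∀ i, γ i ∈ G) → evw γ m w = 1}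
  one_mem' := fun γ m _ => by simp
  mul_mem' := fun {a b} ha hb γ m h => by rw [map_mul, ha γ m h, hb γ m h, one_mul]
  inv_mem' := fun {a} ha γ m h => by rw [map_inv, ha γ m h, inv_one]

theorem mem_V (G : Subgroup Sˣ) (w : FreeGroup (Fin 2)) :
    w ∈ V G ↔ ∀ (γ : Fin 2 → Sˣ) (m : Fin 2 → S), (∀ i, γ i ∈ G) → evw γ m w = 1 := Iff.rfl

theorem V_eq (G : Subgroup Sˣ) : V G = Subgroup.closure
    {x : FreeGroup (Fin 2) | ∃ (f : ℕ → FreeGroup (Fin 2)) (w : FreeGroup ℕ),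
      w ∈ {w : FreeGroup ℕ | ∀ (γ : ℕ → Sˣ) (m : ℕ → S), (∀ i, γ i ∈ G) → evw γ m w = 1} ∧
        FreeGroup.lift f w = x} := by
  apply le_antisymm
  · intro v hv
    apply Subgroup.subset_closure
    refine ⟨fun n => if h : n < 2 then FreeGroup.of ⟨n, h⟩ else 1, FreeGroup.map Fin.val v, ?_, ?_⟩
    · intro γ m hγ
      have h1 : evw γ m (FreeGroup.map Fin.val v) = evw (fun i : Fin 2 => γ i) (fun i => m i) v := by
        have : (evw γ m).comp (FreeGroup.map (Fin.val : Fin 2 → ℕ)) =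
            evw (fun i : Fin 2 => γ i) (fun i => m i) := by
          apply FreeGroup.ext_hom
          intro i
          simp [evw]
        exact congrArg (fun f => f v) this
      rw [h1]
      exact hv _ _ (fun i => hγ _)
    · have : (FreeGroup.lift (fun n => if h : n < 2 then FreeGroup.of (⟨n, h⟩ : Fin 2) else 1)).comp
          (FreeGroup.map (Fin.val : Fin 2 → ℕ)) = MonoidHom.id _ := by
        apply FreeGroup.ext_hom
        intro i
        have := i.2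
        simp
        omega
      exact congrArg (fun f => f v) this
  · rw [Subgroup.closure_le]
    rintro _ ⟨f, w, hw, rfl⟩ γ m hγ
    choose D hD using fun n => fox γ (f n)
    have h1 : evw γ m (FreeGroup.lift f w) =
        evw (fun n => FreeGroup.lift γ (f n)) (fun n => D n 0 * m 0 + D n 1 * m 1) w := by
      have : (evw γ m).comp (FreeGroup.lift f) =
          evw (fun n => FreeGroup.lift γ (f n)) (fun n => D n 0 * m 0 + D n 1 * m 1) := by
        apply FreeGroup.ext_hom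
        intro n
        rw [MonoidHom.comp_apply, FreeGroup.lift_apply_of, evw_of, hD]
      exact congrArg (fun f => f w) this
    rw [h1]
    apply hw
    intro n
    have : (FreeGroup.lift γ).range ≤ G := by
      apply FreeGroup.range_lift_le
      rintro _ ⟨i, rfl⟩
      exact hγ i
    exact this ⟨f n, rfl⟩

theorem evw_lift (γ : Fin 2 → Sˣ) (m : Fin 2 → S) (a : Fin 2 → FreeGroup (Fin 2)) (γ' : Fin 2 → Sˣ)
    (m' : Fin 2 → S) (h : ∀ i, evw γ m (a i) = aff (m' i) (γ' i)) (w : FreeGroup (Fin 2)) :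
    evw γ m (FreeGroup.lift a w) = evw γ' m' w := by
  have : (evw γ m).comp (FreeGroup.lift a) = evw γ' m' := by
    apply FreeGroup.ext_hom
    intro n
    rw [MonoidHom.comp_apply, FreeGroup.lift_apply_of, evw_of, h]
  exact congrArg (fun f => f w) this

theorem lift_mem (G : Subgroup Sˣ) (γ : Fin 2 → Sˣ) (hγ : ∀ i, γ i ∈ G) (w : FreeGroup (Fin 2)) :
    FreeGroup.lift γ w ∈ G := by
  have : (FreeGroup.lift γ).range ≤ G := by
    apply FreeGroup.range_lift_le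
    rintro _ ⟨i, rfl⟩
    exact hγ i
  exact this ⟨w, rfl⟩

/-- the linear form -/
def E (γ : Fin 2 → Sˣ) (m : Fin 2 → S) : S :=
  (1 - (γ 1 : S) * γ 1) * m 0 + ((1 - (γ 1 : S)) * γ 0 - (1 + (γ 1 : S))) * m 1

def IsW (f : (Fin 2 → Sˣ) → S) : Prop :=
  ∃ ρ : FreeGroup (Fin 2), ∀ (γ : Fin 2 → Sˣ) (m : Fin 2 → S),
    ((γ 0 : S) * γ 1 = γ 1 * γ 0 → evw γ m ρ = 1) ∧
    ((γ 0 : S) * γ 1 = - (γ 1 * γ 0) → evw γ m ρ = aff (f γ * E γ m) 1)

theorem IsW_add {f f' : (Fin 2 → Sˣ) → S} (h : IsW f) (h' : IsW f') : IsW (f + f') := by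
  obtain ⟨ρ, hρ⟩ := h
  obtain ⟨ρ', hρ'⟩ := h'
  refine ⟨ρ * ρ', fun γ m => ⟨fun hc => ?_, fun hc => ?_⟩⟩
  · rw [map_mul, (hρ γ m).1 hc, (hρ' γ m).1 hc, one_mul]
  · rw [map_mul, (hρ γ m).2 hc, (hρ' γ m).2 hc, aff_mul]
    simp [add_mul]

theorem IsW_neg {f : (Fin 2 → Sˣ) → S} (h : IsW f) : IsW (-f) := by
  obtain ⟨ρ, hρ⟩ := h
  refine ⟨ρ⁻¹, fun γ m => ⟨fun hc => ?_, fun hc => ?_⟩⟩
  · rw [map_inv, (hρ γ m).1 hc, inv_one]
  · rw [map_inv, (hρ γ m).2 hc, aff_inv]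
    simp

theorem IsW_zero : IsW (0 : (Fin 2 → Sˣ) → S) :=
  ⟨1, fun γ m => ⟨fun _ => by simp, fun _ => by simp [aff_one]⟩⟩

theorem IsW_word {f : (Fin 2 → Sˣ) → S} (w : FreeGroup (Fin 2)) (h : IsW f) :
    IsW (fun γ => ((FreeGroup.lift γ w : Sˣ) : S) * f γ) := by
  obtain ⟨ρ, hρ⟩ := h
  refine ⟨w * ρ * w⁻¹, fun γ m => ⟨fun hc => ?_, fun hc => ?_⟩⟩
  · rw [map_mul, map_mul, (hρ γ m).1 hc, map_inv, mul_one, mul_inv_cancel]
  · rw [map_mul, map_mul, (hρ γ m).2 hc, map_inv]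
    obtain ⟨D, hD⟩ := fox γ w
    rw [hD, aff_inv, aff_mul, aff_mul]
    simp only [mul_one, Units.mul_inv_cancel_left, mul_neg, mul_assoc, mul_inv_cancel]
    congr 1
    abel

/-- functions which act on words -/
def Q : Subring ((Fin 2 → Sˣ) → S) where
  carrier := {p | ∀ f, IsW f → IsW (p * f)}
  mul_mem' := fun {a b} ha hb f hf => by rw [mul_assoc]; exact ha _ (hb _ hf)
  one_mem' := fun f hf => by rw [one_mul]; exact hf
  add_mem' := fun {a b} ha hb f hf => by rw [add_mul]; exact IsW_add (ha _ hf) (hb _ hf)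
  zero_mem' := fun f hf => by rw [zero_mul]; exact IsW_zero
  neg_mem' := fun {a} ha f hf => by rw [neg_mul]; exact IsW_neg (ha _ hf)

theorem Q_coord (i : Fin 2) : (fun γ : Fin 2 → Sˣ => ((γ i : Sˣ) : S)) ∈ (Q : Subring ((Fin 2 → Sˣ) → S)) := by
  intro f hf
  have := IsW_word (FreeGroup.of i) hf
  simp only [FreeGroup.lift_apply_of] at this
  exact this

theorem Q_coord_inv (i : Fin 2) :
    (fun γ : Fin 2 → Sˣ => (((γ i)⁻¹ : Sˣ) : S)) ∈ (Q : Subring ((Fin 2 → Sˣ) → S)) := by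
  intro f hf
  have := IsW_word (FreeGroup.of i)⁻¹ hf
  simp only [map_inv, FreeGroup.lift_apply_of] at this
  exact this

theorem comm1 (m m' : S) (g g' : Sˣ) (h : g * g' = g' * g) :
    aff m g * aff m' g' * (aff m' g' * aff m g)⁻¹ = aff ((m + g * m') - (m' + g' * m)) 1 := by
  rw [mul_inv_eq_iff_eq_mul, aff_mul, aff_mul, aff_mul, h]
  congr 1
  · simp
  · simp

theorem comm2 (m m' : S) (g g' : Sˣ) (h : g * g' = -(g' * g)) :
    aff m g * aff m' g' * (aff m' g' * aff m g)⁻¹ = aff ((m + g * m') + (m' + g' * m)) (-1) := by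
  rw [mul_inv_eq_iff_eq_mul, aff_mul, aff_mul, aff_mul, h]
  congr 1
  · simp
    abel
  · simp

theorem evcomm (γ : Fin 2 → Sˣ) (m : Fin 2 → S) (a b : FreeGroup (Fin 2)) :
    evw γ m (a * b * (b * a)⁻¹) = evw γ m a * evw γ m b * (evw γ m b * evw γ m a)⁻¹ := by
  simp only [map_mul, map_inv]

theorem IsW_base : IsW (fun _ => (-2 : S)) := by
  let x : FreeGroup (Fin 2) := FreeGroup.of 0
  let y : FreeGroup (Fin 2) := FreeGroup.of 1
  let z := x * y * (y * x)⁻¹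
  let r := z * y * (y * z)⁻¹
  refine ⟨z * r * (r * z)⁻¹, fun γ m => ⟨fun hc => ?_, fun hc => ?_⟩⟩
  · have hc' : γ 0 * γ 1 = γ 1 * γ 0 := Units.ext (by simpa using hc)
    obtain ⟨ζ, hz⟩ : ∃ ζ, evw γ m z = aff ζ 1 :=
      ⟨(m 0 + γ 0 * m 1) - (m 1 + γ 1 * m 0), by
        simp only [z, x, y, map_mul, map_inv, evw_of]
        exact comm1 _ _ _ _ hc'⟩
    obtain ⟨d, hr⟩ : ∃ d, evw γ m r = aff d 1 := by
      refine ⟨(ζ + ((1 : Sˣ) : S) * m 1) - (m 1 + γ 1 * ζ), ?_⟩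
      simp only [r, map_mul, map_inv, hz]
      simp only [y, evw_of]
      exact comm1 _ _ _ _ (by simp)
    rw [evcomm, hz, hr, comm1 _ _ _ _ (by simp)]
    simp [add_comm, aff_one]
  · have hc' : γ 0 * γ 1 = -(γ 1 * γ 0) := Units.ext (by simpa using hc)
    obtain ⟨ζ, hζ⟩ : ∃ ζ, ζ = (m 0 + γ 0 * m 1) + (m 1 + γ 1 * m 0) := ⟨_, rfl⟩
    have hz : evw γ m z = aff ζ (-1) := by
        simp only [z, x, y, map_mul, map_inv, evw_of, hζ]
        exact comm2 _ _ _ _ hc'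
    obtain ⟨d, hd⟩ : ∃ d, d = (ζ + ((-1 : Sˣ) : S) * m 1) - (m 1 + γ 1 * ζ) := ⟨_, rfl⟩
    have hr : evw γ m r = aff d 1 := by
      simp only [r, map_mul, map_inv, hz, hd]
      simp only [y, evw_of]
      exact comm1 _ _ _ _ (by simp)
    rw [evcomm, hz, hr, comm1 _ _ _ _ (by simp)]
    congr 1
    rw [E, hd, hζ]
    simp only [Units.val_neg, Units.val_one]
    noncomm_ring

/-- the commuting-or-anticommuting relation -/
def qc (g h : Sˣ) : Prop := g * h = h * g ∨ g * h = -(h * g)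

theorem qc_closure (X Y : Sˣ) (hXY : X * Y = -(Y * X)) :
    ∀ g ∈ Subgroup.closure {X, Y}, ∀ h ∈ Subgroup.closure {X, Y}, qc g h := by
  have hmul : ∀ g h h' : Sˣ, qc g h → qc g h' → qc g (h * h') := by
    intro g h h' h1 h2
    unfold qc at *
    rcases h1 with h1 | h1 <;> rcases h2 with h2 | h2
    · left; rw [← mul_assoc, h1, mul_assoc, h2, mul_assoc]
    · right; rw [← mul_assoc, h1, mul_assoc, h2, mul_neg, mul_assoc]
    · right; rw [← mul_assoc, h1, neg_mul, mul_assoc, h2, mul_assoc]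
    · left; rw [← mul_assoc, h1, neg_mul, mul_assoc, h2, mul_neg, neg_neg, mul_assoc]
  have hinv : ∀ g h : Sˣ, qc g h → qc g h⁻¹ := by
    intro g h h1
    unfold qc at *
    rcases h1 with h1 | h1
    · left
      have := congrArg (fun u => h⁻¹ * u * h⁻¹) h1
      simp only [mul_assoc, mul_inv_cancel, mul_one, inv_mul_cancel_left] at this
      exact this.symm
    · right
      have := congrArg (fun u => h⁻¹ * u * h⁻¹) h1
      simp only [mul_assoc, mul_inv_cancel, mul_one, inv_mul_cancel_left, mul_neg, neg_mul] at this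
      rw [this, neg_neg]
  have hsymm : ∀ g h : Sˣ, qc g h → qc h g := by
    intro g h h1
    unfold qc at *
    rcases h1 with h1 | h1
    · left; exact h1.symm
    · right; rw [h1, neg_neg]
  have hone : ∀ g : Sˣ, qc g 1 := fun g => Or.inl (by simp)
  have hgen : ∀ g ∈ ({X, Y} : Set Sˣ), ∀ h ∈ ({X, Y} : Set Sˣ), qc g h := by
    rintro g (rfl | rfl) h (rfl | rfl)
    · left; rfl
    · right; exact hXY
    · right; rw [hXY, neg_neg]
    · left; rfl
  have h1 : ∀ g ∈ ({X, Y} : Set Sˣ), ∀ h ∈ Subgroup.closure {X, Y}, qc g h := by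
    intro g hg h hh
    induction hh using Subgroup.closure_induction with
    | mem u hu => exact hgen g hg u hu
    | one => exact hone g
    | mul u v _ _ hu hv => exact hmul _ _ _ hu hv
    | inv u _ hu => exact hinv _ _ hu
  intro g hg h hh
  apply hsymm
  induction hg using Subgroup.closure_induction with
  | mem u hu => exact hsymm _ _ (h1 u hu h hh)
  | one => exact hone _
  | mul u v _ _ hu hv => exact hmul _ _ _ hu hv
  | inv u _ hu => exact hinv _ _ hu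

def c (γ : Fin 2 → Sˣ) : S := -2 * (γ 1 : S) * (1 - (γ 1 : S) * γ 1)
def t1 (γ : Fin 2 → Sˣ) : S := 1 + 3 * c γ * (1 + ((γ 0)⁻¹ : Sˣ))
def t2 (γ : Fin 2 → Sˣ) : S := 3 * ((γ 0)⁻¹ : Sˣ) * (1 - c γ) * (1 + γ 1)

theorem key0 (x x' y c : S) (hx : x * x' = 1) (h' : x' * y = -(y * x'))
    (hc : c = -2 * y * (1 - y * y)) :
    (1 - y * y) * (1 + 3 * c * (1 + x')) +
      ((1 - y) * x - (1 + y)) * (3 * x' * (1 - c) * (1 + y)) = (1 - y * y) * (4 - 3 * x') := by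
  have hyy : x' * (y * y) = y * y * x' := by
    rw [← mul_assoc, h', neg_mul, mul_assoc, h', mul_neg, neg_neg, mul_assoc]
  have hcx : x' * c = -(c * x') := by
    have e1 : x' * (-2 * y * (1 - y * y)) = -2 * (x' * y) + 2 * ((x' * y) * (y * y)) := by noncomm_ring
    have e2 : y * x' * (y * y) = y * (y * y) * x' := by rw [mul_assoc, hyy]; noncomm_ring
    rw [hc, e1, h', neg_mul (y * x'), e2]
    noncomm_ring
  have hcy : c * y = y * c := by rw [hc]; noncomm_ring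
  have e3 : x * (3 * x' * (1 - c) * (1 + y)) = 3 * (1 - c) * (1 + y) := by
    have : x * (3 * x' * (1 - c) * (1 + y)) = 3 * (x * x') * (1 - c) * (1 + y) := by noncomm_ring
    rw [this, hx]; noncomm_ring
  have e4 : x' * (1 - c) * (1 + y) = (1 + c) * (1 - y) * x' := by
    have f1 : x' * (1 - c) = (1 + c) * x' := by
      rw [mul_sub, hcx]; noncomm_ring
    have f2 : x' * (1 + y) = (1 - y) * x' := by
      rw [mul_add, h']; noncomm_ring
    rw [f1, mul_assoc, f2, mul_assoc]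
  have e5 : ((1 - y) * x - (1 + y)) * (3 * x' * (1 - c) * (1 + y)) =
      (1 - y) * (x * (3 * x' * (1 - c) * (1 + y))) - 3 * ((1 + y) * (x' * (1 - c) * (1 + y))) := by
    noncomm_ring
  rw [e5, e3, e4]
  have e6 : (1 - y) * (3 * (1 - c) * (1 + y)) = 3 * (1 - y * y) * (1 - c) := by
    have : (1 - y) * (3 * (1 - c) * (1 + y)) = 3 * (1 - y) * (1 + y) - 3 * (1 - y) * (c + c * y) := by
      noncomm_ring
    rw [this, hcy]; noncomm_ring
  have e7 : (1 + y) * ((1 + c) * (1 - y) * x') = (1 - y * y) * (1 + c) * x' := by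
    have : (1 + y) * ((1 + c) * (1 - y) * x') = ((1 + y) * (1 - y) + (1 + y) * (c - c * y)) * x' := by
      noncomm_ring
    rw [this, hcy]; noncomm_ring
  rw [e6, e7]
  noncomm_ring

theorem key (h7 : (7 : S) = 0) (γ : Fin 2 → Sˣ) (h : (γ 0 : S) * γ 1 = - (γ 1 * γ 0)) :
    t1 γ - 2 * γ 1 * ((1 - (γ 1 : S) * γ 1) * t1 γ + ((1 - (γ 1 : S)) * γ 0 - (1 + (γ 1 : S))) * t2 γ) = 1 := by
  have h' : (((γ 0)⁻¹ : Sˣ) : S) * γ 1 = -((γ 1 : S) * ((γ 0)⁻¹ : Sˣ)) := by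
    have := congrArg (fun u : S => (((γ 0)⁻¹ : Sˣ) : S) * u * (((γ 0)⁻¹ : Sˣ) : S)) h
    simp only [mul_assoc, Units.mul_inv, mul_one, Units.inv_mul_cancel_left, mul_neg, neg_mul] at this
    rw [this, neg_neg]
  rw [t1, t2, key0 (γ 0 : S) _ _ (c γ) (by simp) h' rfl]
  have : 1 + 3 * c γ * (1 + (((γ 0)⁻¹ : Sˣ) : S)) - 2 * γ 1 * ((1 - (γ 1 : S) * γ 1) * (4 - 3 * (((γ 0)⁻¹ : Sˣ) : S)))
      = 1 + 3 * c γ * (1 + (((γ 0)⁻¹ : Sˣ) : S)) + c γ * (4 - 3 * (((γ 0)⁻¹ : Sˣ) : S)) := by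
    rw [c]; noncomm_ring
  rw [this]
  have : 1 + 3 * c γ * (1 + (((γ 0)⁻¹ : Sˣ) : S)) + c γ * (4 - 3 * (((γ 0)⁻¹ : Sˣ) : S)) = 1 + 7 * c γ := by
    noncomm_ring
  rw [this, h7, zero_mul, add_zero]

theorem t1_ne (h7 : (7 : S) = 0) [Nontrivial S] (γ : Fin 2 → Sˣ) (h : (γ 0 : S) * γ 1 = - (γ 1 * γ 0)) :
    t1 γ ≠ 0 := by
  intro h0
  have hcx : (γ 0 : S) * c γ = -(c γ * γ 0) := by
    have e1 : (γ 0 : S) * (-2 * (γ 1 : S) * (1 - (γ 1 : S) * γ 1)) =
      -2 * ((γ 0 : S) * γ 1) + 2 * (((γ 0 : S) * γ 1) * γ 1 * γ 1) := by noncomm_ring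
    have e2 : (γ 1 : S) * γ 0 * γ 1 * γ 1 = γ 1 * γ 1 * γ 1 * γ 0 := by
      rw [mul_assoc (γ 1 : S), h, mul_neg, neg_mul, mul_assoc, mul_assoc, h, mul_neg, mul_neg, neg_neg]
      simp only [mul_assoc]
    rw [c, e1, h]
    simp only [neg_mul]
    rw [e2]
    noncomm_ring
  have e3 : (γ 0 : S) * t1 γ = γ 0 - 3 * c γ * (γ 0 + 1) := by
    rw [t1]
    have : (γ 0 : S) * (1 + 3 * c γ * (1 + ((γ 0)⁻¹ : Sˣ))) =
      γ 0 + 3 * (γ 0 * c γ) * (1 + ((γ 0)⁻¹ : Sˣ)) := by noncomm_ring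
    rw [this, hcx]
    have : (γ 0 : S) + 3 * -(c γ * γ 0) * (1 + ((γ 0)⁻¹ : Sˣ)) =
      γ 0 - 3 * c γ * (γ 0 + (γ 0) * ((γ 0)⁻¹ : Sˣ)) := by noncomm_ring
    rw [this, Units.mul_inv]
  have e4 : t1 γ * (γ 0 : S) = γ 0 + 3 * c γ * (γ 0 + 1) := by
    rw [t1]
    have : (1 + 3 * c γ * (1 + ((γ 0)⁻¹ : Sˣ))) * (γ 0 : S) =
      γ 0 + 3 * c γ * (γ 0 + ((γ 0)⁻¹ : Sˣ) * γ 0) := by noncomm_ring
    rw [this, Units.inv_mul]
  rw [h0, mul_zero] at e3
  rw [h0, zero_mul] at e4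
  have e5 : (0 : S) = 2 * γ 0 := by
    calc (0 : S) = 0 + 0 := by simp
      _ = (γ 0 - 3 * c γ * (γ 0 + 1)) + (γ 0 + 3 * c γ * (γ 0 + 1)) := by rw [← e3, ← e4]
      _ = 2 * γ 0 := by noncomm_ring
  have e6 : (0 : S) = 2 := by
    have := congrArg (fun u : S => u * ((γ 0)⁻¹ : Sˣ)) e5
    simpa [mul_assoc] using this
  have : (1 : S) = 0 := by
    have e8 : (1 : S) = 7 - 2 * 3 := by norm_num
    rw [e8, h7, ← e6]; simp
  exact one_ne_zero this

theorem E_add (γ : Fin 2 → Sˣ) (m m' : Fin 2 → S) : E γ (m + m') = E γ m + E γ m' := by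
  simp only [E, Pi.add_apply]; noncomm_ring

theorem E_mul (γ : Fin 2 → Sˣ) (m : Fin 2 → S) (u : S) : E γ (fun i => m i * u) = E γ m * u := by
  simp only [E]; noncomm_ring

def tt (γ : Fin 2 → Sˣ) : Fin 2 → S := ![t1 γ, t2 γ]

theorem key' (h7 : (7 : S) = 0) (γ : Fin 2 → Sˣ) (h : (γ 0 : S) * γ 1 = - (γ 1 * γ 0)) :
    t1 γ - 2 * γ 1 * E γ (tt γ) = 1 := key h7 γ h

theorem Q_c : (fun γ : Fin 2 → Sˣ => c γ) ∈ (Q : Subring ((Fin 2 → Sˣ) → S)) := by
  have h1 := Q_coord (S := S) 1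
  have h2 : (-2 : (Fin 2 → Sˣ) → S) ∈ (Q : Subring ((Fin 2 → Sˣ) → S)) := by
    have : (-2 : (Fin 2 → Sˣ) → S) = -(1 + 1) := by norm_num
    rw [this]
    exact neg_mem (add_mem (one_mem _) (one_mem _))
  exact mul_mem (mul_mem h2 h1) (sub_mem (one_mem _) (mul_mem h1 h1))

theorem Q_three : (3 : (Fin 2 → Sˣ) → S) ∈ (Q : Subring ((Fin 2 → Sˣ) → S)) := by
  have : (3 : (Fin 2 → Sˣ) → S) = 1 + 1 + 1 := by norm_num
  rw [this]
  exact add_mem (add_mem (one_mem _) (one_mem _)) (one_mem _)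

theorem Q_t1 : (fun γ : Fin 2 → Sˣ => t1 γ) ∈ (Q : Subring ((Fin 2 → Sˣ) → S)) :=
  add_mem (one_mem _) (mul_mem (mul_mem Q_three Q_c) (add_mem (one_mem _) (Q_coord_inv 0)))

theorem Q_t2 : (fun γ : Fin 2 → Sˣ => t2 γ) ∈ (Q : Subring ((Fin 2 → Sˣ) → S)) :=
  mul_mem (mul_mem (mul_mem Q_three (Q_coord_inv 0)) (sub_mem (one_mem _) Q_c))
    (add_mem (one_mem _) (Q_coord 1))

/-- every element of `Q` times `2 y` is realised -/
theorem IsW_Q {p : (Fin 2 → Sˣ) → S} (hp : p ∈ (Q : Subring ((Fin 2 → Sˣ) → S))) :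
    IsW (fun γ => 2 * (p γ * γ 1)) := by
  have h1 : -(p * fun γ : Fin 2 → Sˣ => ((γ 1 : Sˣ) : S)) ∈ (Q : Subring ((Fin 2 → Sˣ) → S)) :=
    neg_mem (mul_mem hp (Q_coord 1))
  have h2 := h1 _ IsW_base
  convert h2 using 1
  funext γ
  simp only [Pi.mul_apply, Pi.neg_apply]
  noncomm_ring

theorem main (G : Subgroup Sˣ) (hG : ∀ g ∈ G, ∀ h ∈ G, qc g h) [Nontrivial S] [NoZeroDivisors S]
    (h7 : (7 : S) = 0) (γ₀ : Fin 2 → Sˣ) (hγ₀ : ∀ i, γ₀ i ∈ G) (hanti : (γ₀ 0 : S) * γ₀ 1 = -(γ₀ 1 * γ₀ 0))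
    (hnc : ¬ ∃ a' b' p q : S, (1 - 2 * (γ₀ 1 : S) * (1 - γ₀ 1 * γ₀ 1)) * p +
      (-2 * (γ₀ 1 : S) * ((1 - γ₀ 1) * γ₀ 0 - (1 + γ₀ 1))) * q = 0 ∧ a' * p + b' * q = 1) :
    ∃ (h : FreeGroup (Fin 2)) (g : Fin 2 → FreeGroup (Fin 2)),
        (¬ ∃ (a b : Fin 2 → FreeGroup (Fin 2)) (i : Fin 2),
            (∀ j : Fin 2, (FreeGroup.lift b (a j))⁻¹ * FreeGroup.of j ∈ V G) ∧
            (∀ j : Fin 2, (FreeGroup.lift a (b j))⁻¹ * FreeGroup.of j ∈ V G) ∧
            (a i)⁻¹ * h ∈ V G) ∧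
        (∀ w : FreeGroup (Fin 2), FreeGroup.lift g w ∈ V G → w ∈ V G) ∧
        (∃ (a b : Fin 2 → FreeGroup (Fin 2)) (i : Fin 2),
            (∀ j : Fin 2, (FreeGroup.lift b (a j))⁻¹ * FreeGroup.of j ∈ V G) ∧
            (∀ j : Fin 2, (FreeGroup.lift a (b j))⁻¹ * FreeGroup.of j ∈ V G) ∧
            (a i)⁻¹ * FreeGroup.lift g h ∈ V G) := by
  obtain ⟨ρ, hρ⟩ := IsW_Q (S := S) (neg_mem (one_mem Q))
  obtain ⟨ρ1, hρ1⟩ := IsW_Q (S := S) Q_t1
  obtain ⟨ρ2, hρ2⟩ := IsW_Q (S := S) Q_t2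
  set h : FreeGroup (Fin 2) := ρ * FreeGroup.of 0 with hh
  set g : Fin 2 → FreeGroup (Fin 2) := ![ρ1 * FreeGroup.of 0, ρ2 * FreeGroup.of 1] with hg
  have hdich : ∀ γ : Fin 2 → Sˣ, (∀ i, γ i ∈ G) →
      ((γ 0 : S) * γ 1 = γ 1 * γ 0 ∨ (γ 0 : S) * γ 1 = -(γ 1 * γ 0)) := by
    intro γ hγ
    rcases hG _ (hγ 0) _ (hγ 1) with h1 | h1
    · left; simpa using congrArg Units.val h1
    · right; simpa using congrArg Units.val h1
  have hc1 : ∀ (γ : Fin 2 → Sˣ) (m : Fin 2 → S), ((γ 0 : S) * γ 1 = γ 1 * γ 0) → evw γ m h = aff (m 0) (γ 0) := by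
    intro γ m hc
    rw [hh, map_mul, (hρ γ m).1 hc, one_mul, evw_of]
  have ha1 : ∀ (γ : Fin 2 → Sˣ) (m : Fin 2 → S), ((γ 0 : S) * γ 1 = -(γ 1 * γ 0)) →
      evw γ m h = aff (m 0 - 2 * γ 1 * E γ m) (γ 0) := by
    intro γ m hc
    rw [hh, map_mul, (hρ γ m).2 hc, evw_of, aff_mul]
    congr 1
    · simp only [Pi.neg_apply, Pi.one_apply, Units.val_one]; noncomm_ring
    · simp
  have hc2 : ∀ (γ : Fin 2 → Sˣ) (m : Fin 2 → S), ((γ 0 : S) * γ 1 = γ 1 * γ 0) → ∀ i, evw γ m (g i) = aff (m i) (γ i) := by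
    intro γ m hc i
    fin_cases i
    · simp [hg, (hρ1 γ m).1 hc, evw_of]
    · simp [hg, (hρ2 γ m).1 hc, evw_of]
  have ha2 : ∀ (γ : Fin 2 → Sˣ) (m : Fin 2 → S), ((γ 0 : S) * γ 1 = -(γ 1 * γ 0)) →
      ∀ i, evw γ m (g i) = aff (m i + tt γ i * (2 * γ 1 * E γ m)) (γ i) := by
    intro γ m hc i
    fin_cases i
    · change evw γ m (ρ1 * FreeGroup.of 0) = aff (m 0 + t1 γ * (2 * γ 1 * E γ m)) (γ 0)
      rw [map_mul, (hρ1 γ m).2 hc, evw_of, aff_mul]
      congr 1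
      · simp only [Units.val_one]; noncomm_ring
      · simp
    · change evw γ m (ρ2 * FreeGroup.of 1) = aff (m 1 + t2 γ * (2 * γ 1 * E γ m)) (γ 1)
      rw [map_mul, (hρ2 γ m).2 hc, evw_of, aff_mul]
      congr 1
      · simp only [Units.val_one]; noncomm_ring
      · simp
  refine ⟨h, g, ?_, ?_, FreeGroup.of, FreeGroup.of, 0, ?_, ?_, ?_⟩
  · rintro ⟨a, b, i, hab, hba, hai⟩
    choose Da hDa using fun j => fox γ₀ (a j)
    set α : Fin 2 → Sˣ := fun j => FreeGroup.lift γ₀ (a j) with hα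
    have hαG : ∀ j, α j ∈ G := fun j => lift_mem G γ₀ hγ₀ (a j)
    choose Db hDb using fun j => fox α (b j)
    have h1 : ∀ (m : Fin 2 → S) (j : Fin 2), evw γ₀ m (FreeGroup.lift a (b j)) = aff (m j) (γ₀ j) := by
      intro m j
      have := hba j γ₀ m hγ₀
      rw [map_mul, map_inv, inv_mul_eq_one, evw_of] at this
      exact this
    have h2 : ∀ j, FreeGroup.lift α (b j) = γ₀ j := by
      intro j
      have := h1 0 j
      rw [evw_lift γ₀ 0 a α _ (fun i => hDa i 0), hDb] at this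
      exact (aff_inj this).2
    have h3 : ∀ (m : Fin 2 → S) (j : Fin 2), Da j 0 * (Db 0 0 * m 0 + Db 0 1 * m 1) +
        Da j 1 * (Db 1 0 * m 0 + Db 1 1 * m 1) = m j := by
      intro m j
      have := hab j α m hαG
      rw [map_mul, map_inv, inv_mul_eq_one, evw_of,
        evw_lift α m b γ₀ (fun i => Db i 0 * m 0 + Db i 1 * m 1) (fun i => by rw [hDb, h2]), hDa] at this
      exact (aff_inj this).1
    have h4 : ∀ m : Fin 2 → S, Da i 0 * m 0 + Da i 1 * m 1 = m 0 - 2 * γ₀ 1 * E γ₀ m := by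
      intro m
      have := hai γ₀ m hγ₀
      rw [map_mul, map_inv, inv_mul_eq_one, hDa, ha1 _ _ hanti] at this
      exact (aff_inj this).1
    have h5 : Da i 0 = 1 - 2 * (γ₀ 1 : S) * (1 - γ₀ 1 * γ₀ 1) := by
      have := h4 ![1, 0]
      simpa [E] using this
    have h6 : Da i 1 = -2 * (γ₀ 1 : S) * ((1 - γ₀ 1) * γ₀ 0 - (1 + γ₀ 1)) := by
      have := h4 ![0, 1]
      simpa [E] using this
    apply hnc
    have h7 : ∃ j : Fin 2, j ≠ i := ⟨i + 1, by fin_cases i <;> simp⟩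
    obtain ⟨j, hj⟩ := h7
    refine ⟨Da j 0, Da j 1, Db 0 j, Db 1 j, ?_, ?_⟩
    · rw [← h5, ← h6]
      have := h3 (Pi.single j 1) i
      rw [Pi.single_eq_of_ne hj.symm] at this
      rw [← this]
      fin_cases j <;> simp
    · have := h3 (Pi.single j 1) j
      rw [Pi.single_eq_same] at this
      rw [← this]
      fin_cases j <;> simp
  · intro w hw γ m hγ
    rcases hdich γ hγ with hc | hc
    · have := hw γ m hγ
      rwa [evw_lift γ m g γ m (hc2 γ m hc)] at this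
    · obtain ⟨D, hD⟩ := fox γ w
      have h1 : ∀ m : Fin 2 → S, aff (D 0 * (m 0 + tt γ 0 * (2 * γ 1 * E γ m)) +
          D 1 * (m 1 + tt γ 1 * (2 * γ 1 * E γ m))) (FreeGroup.lift γ w) = aff 0 1 := by
        intro m
        have := hw γ m hγ
        rw [evw_lift γ m g γ _ (ha2 γ m hc), hD] at this
        rw [this, aff_one]
      have h2 : ∀ m : Fin 2 → S, D 0 * m 0 + D 1 * m 1 +
          (D 0 * tt γ 0 + D 1 * tt γ 1) * (2 * γ 1 * E γ m) = 0 := by
        intro m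
        have := (aff_inj (h1 m)).1
        rw [← this]
        noncomm_ring
      have h3 := h2 (tt γ)
      set e := D 0 * tt γ 0 + D 1 * tt γ 1 with he
      have h4 : e * t1 γ = 0 := by
        have hk := key' h7 γ hc
        have : (2 * γ 1 * E γ (tt γ) : S) = t1 γ - 1 := by rw [← hk]; abel
        rw [this] at h3
        rw [← h3]
        noncomm_ring
      have h5 : e = 0 := (mul_eq_zero.mp h4).resolve_right (t1_ne h7 γ hc)
      have h6 := h2 m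
      rw [h5, zero_mul, add_zero] at h6
      rw [hD, h6, (aff_inj (h1 m)).2, aff_one]
  · intro j γ m _
    simp
  · intro j γ m _
    simp
  · intro γ m hγ
    rw [map_mul, map_inv, inv_mul_eq_one, evw_of]
    rcases hdich γ hγ with hc | hc
    · rw [evw_lift γ m g γ m (hc2 γ m hc), hc1 γ m hc]
    · rw [evw_lift γ m g γ _ (ha2 γ m hc), ha1 _ _ hc]
      congr 1
      have e1 : (fun i => m i + tt γ i * (2 * γ 1 * E γ m)) =
          m + (fun i => tt γ i * (2 * γ 1 * E γ m)) := rfl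
      rw [e1, E_add, E_mul]
      have hk := key' h7 γ hc
      have : (2 * γ 1 * E γ (tt γ) : S) = t1 γ - 1 := by rw [← hk]; abel
      have htt : tt γ 0 = t1 γ := rfl
      rw [mul_add (2 * (γ 1 : S)), ← mul_assoc (2 * (γ 1 : S)) (E γ (tt γ)), this, htt]
      noncomm_ring

end general

end Pool.Agent.PrimB
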