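import Pool.Agent.PrimA
import Pool.Agent.PrimB

set_option autoImplicit false

namespace Pool.Agent.PrimA

noncomputable section

open LaurentPolynomial

/-- The twisted ring, as a ring of matrices. -/
def SR : Subring (Matrix (Fin 2) (Fin 2) A) where
  carrier := {M | M 1 1 = sg (M 0 0) ∧ M 0 1 = s * sg (M 1 0)}
  mul_mem' := by
    rintro M N ⟨h1, h2⟩ ⟨h3, h4⟩
    refine ⟨?_, ?_⟩
    · simp only [Matrix.mul_apply, Fin.sum_univ_two, map_add, map_mul, h1, h2, h3, h4, sg_sg, sg_s]
      ring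
    · simp only [Matrix.mul_apply, Fin.sum_univ_two, map_add, map_mul, h1, h2, h3, h4, sg_sg, sg_s]
      ring
  one_mem' := by simp
  add_mem' := by
    rintro M N ⟨h1, h2⟩ ⟨h3, h4⟩
    refine ⟨?_, ?_⟩
    · simp only [Matrix.add_apply, map_add, h1, h3]
    · simp only [Matrix.add_apply, map_add, h2, h4]; ring
  zero_mem' := by simp
  neg_mem' := by
    rintro M ⟨h1, h2⟩
    refine ⟨?_, ?_⟩
    · simp only [Matrix.neg_apply, map_neg, h1]
    · simp only [Matrix.neg_apply, map_neg, h2]; ring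

theorem det_eq (M : SR) : (M : Matrix (Fin 2) (Fin 2) A).det = nm (M.1 0 0) (M.1 1 0) := by
  obtain ⟨M, h1, h2⟩ := M
  rw [Matrix.det_fin_two, nm]
  simp only
  rw [h1, h2]; ring

theorem det_zero (M : SR) (h : (M : Matrix (Fin 2) (Fin 2) A).det = 0) : M = 0 := by
  rw [det_eq] at h
  obtain ⟨h3, h4⟩ := nm_eq_zero _ _ h
  obtain ⟨M, h1, h2⟩ := M
  simp only at h3 h4
  apply Subtype.ext
  apply Matrix.ext
  intro i j
  fin_cases i <;> fin_cases j
  · exact h3
  · simp [h2, h4]
  · exact h4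
  · simp [h1, h3]

instance : NoZeroDivisors SR where
  eq_zero_or_eq_zero_of_mul_eq_zero := by
    intro M N h
    have h1 : (M : Matrix (Fin 2) (Fin 2) A).det * (N : Matrix (Fin 2) (Fin 2) A).det = 0 := by
      rw [← Matrix.det_mul]
      have : (M : Matrix (Fin 2) (Fin 2) A) * (N : Matrix (Fin 2) (Fin 2) A) = 0 := by
        have := congrArg Subtype.val h
        simpa using this
      rw [this]; simp
    rcases mul_eq_zero.mp h1 with h2 | h2
    · left; exact det_zero M h2
    · right; exact det_zero N h2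

instance : Nontrivial SR := inferInstance

theorem seven : (7 : SR) = 0 := by
  have h : (7 : K) = 0 := by decide
  have h1 : (7 : A) = 0 := by
    have : (7 : A) = C (C (7 : K)) := by rw [map_ofNat, map_ofNat]
    rw [this, h]; simp
  apply Subtype.ext
  have : ((7 : SR) : Matrix (Fin 2) (Fin 2) A) = (7 : Matrix (Fin 2) (Fin 2) A) := rfl
  rw [this]
  apply Matrix.ext
  intro i j
  rw [show (7 : Matrix (Fin 2) (Fin 2) A) = ((7 : ℕ) : Matrix (Fin 2) (Fin 2) A) from rfl,
    Matrix.natCast_apply]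
  split_ifs
  · simpa using h1
  · simp

def si : A := ((su⁻¹ : Aˣ) : A)
def ti : A := C ((tu⁻¹ : Rˣ) : R)

theorem s_si : s * si = 1 := by simp [s, si]
theorem t_ti : t * ti = 1 := by
  rw [t, ti, ← map_mul]; simp
theorem sg_si : sg si = si := by
  have h : s * sg si = 1 := by
    have := congrArg sg s_si
    rwa [map_mul, sg_s, map_one] at this
  calc sg si = (s * si) * sg si := by rw [s_si, one_mul]
    _ = si * (s * sg si) := by ring
    _ = si := by rw [h, mul_one]
theorem sg_ti : sg ti = -ti := by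
  have h : t * sg ti = -1 := by
    have := congrArg sg t_ti
    rw [map_mul, sg_t, map_one] at this
    rw [← this]; ring
  calc sg ti = (t * ti) * sg ti := by rw [t_ti, one_mul]
    _ = ti * (t * sg ti) := by ring
    _ = -ti := by rw [h]; ring

def X : SRˣ where
  val := ⟨!![0, s; 1, 0], by constructor <;> simp⟩
  inv := ⟨!![0, 1; si, 0], by constructor <;> simp [sg_si, s_si]⟩
  val_inv := by
    apply Subtype.ext
    apply Matrix.ext
    intro i j
    fin_cases i <;> fin_cases j <;> simp [Matrix.mul_apply, s_si]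
  inv_val := by
    apply Subtype.ext
    apply Matrix.ext
    intro i j
    fin_cases i <;> fin_cases j <;> simp [Matrix.mul_apply, mul_comm, s_si]

def Y : SRˣ where
  val := ⟨!![t, 0; 0, -t], by constructor <;> simp [sg_t]⟩
  inv := ⟨!![ti, 0; 0, -ti], by constructor <;> simp [sg_ti]⟩
  val_inv := by
    apply Subtype.ext
    apply Matrix.ext
    intro i j
    fin_cases i <;> fin_cases j <;> simp [Matrix.mul_apply, t_ti]
    linear_combination t_ti
  inv_val := by
    apply Subtype.ext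
    apply Matrix.ext
    intro i j
    fin_cases i <;> fin_cases j <;> simp [Matrix.mul_apply, mul_comm, t_ti]
    linear_combination t_ti

theorem XY : X * Y = -(Y * X) := by
  apply Units.ext
  apply Subtype.ext
  apply Matrix.ext
  intro i j
  fin_cases i <;> fin_cases j <;> simp [X, Y, Matrix.mul_apply, mul_comm]
  ring

def aR : R := 1 - 2 * (tu : R) * (1 - tu * tu)

theorem aR_add : aR + sR aR = 2 := by
  rw [aR]
  simp only [map_sub, map_mul, map_one, sR_tu, map_ofNat]
  ring

theorem ev_aR : ev (C aR) = 0 := by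
  have h : ev (C aR) = 1 - 2 * ev t * (1 - ev t * ev t) := by
    rw [aR, t]; simp only [map_sub, map_mul, map_one, map_ofNat]
  rw [h, ev_t]; decide

theorem ev_saR : ev (C (sR aR)) = 2 := by
  have : C aR + C (sR aR) = (2 : A) := by rw [← map_add, aR_add, map_ofNat]
  have h2 := congrArg ev this
  rw [map_add, ev_aR, zero_add] at h2
  rw [h2, map_ofNat]

theorem two_ne : (2 : K) ≠ 0 := by decide

theorem aR_ne : aR ≠ 0 := by
  intro h
  have := ev_saR
  rw [h] at this
  simp at this
  exact two_ne this.symm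

/-- final arithmetic contradiction -/
theorem final (f d : A) (u : A) (h1 : C aR ∣ f) (h2 : C aR ∣ sg f)
    (h3 : u * (f * sg f) * d = C aR * C (sR aR)) : False := by
  obtain ⟨f1, hf1⟩ := h1
  obtain ⟨f2, hf2⟩ := h2
  rw [hf2] at h3
  nth_rewrite 1 [hf1] at h3
  have h4 : (C aR : A) ≠ 0 := by
    intro h
    have h5 : (C aR : A) = C 0 := by rw [h]; simp
    have : aR = 0 := by
      have h6 := congrArg (fun p : A => p.coeff 0) h5
      simpa using h6
    exact aR_ne this
  have h5 : u * f1 * f2 * d * C aR = C (sR aR) := by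
    apply mul_left_cancel₀ h4
    rw [← h3]; ring
  have h6 := congrArg ev h5
  rw [map_mul, ev_aR, mul_zero, ev_saR] at h6
  exact two_ne h6.symm

theorem aM_eq : ((1 - 2 * (Y : SR) * (1 - Y * Y) : SR) : Matrix (Fin 2) (Fin 2) A) =
    !![C aR, 0; 0, C (sR aR)] := by
  have h1 : (C aR : A) = 1 - 2 * t * (1 - t * t) := by
    rw [aR, t]; simp only [map_sub, map_mul, map_one, map_ofNat]
  have h2 : (C (sR aR) : A) = 1 + 2 * t * (1 - t * t) := by
    rw [← sg_C, h1]; simp only [map_sub, map_mul, map_one, map_ofNat, sg_t]; ring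
  have h3 : ((1 - 2 * (Y : SR) * (1 - Y * Y) : SR) : Matrix (Fin 2) (Fin 2) A) =
    1 - (1 + 1) * !![t, 0; 0, -t] * (1 - !![t, 0; 0, -t] * !![t, 0; 0, -t]) := by
    have : (2 : SR) = 1 + 1 := by norm_num
    rw [this]
    rfl
  rw [h3, h1, h2]
  apply Matrix.ext
  intro i j
  fin_cases i <;> fin_cases j <;> simp [Matrix.mul_apply, Fin.sum_univ_two, Matrix.one_apply] <;> ring_nf <;> simp

theorem bM_eq : ((-2 * (Y : SR) * ((1 - Y) * X - (1 + Y)) : SR) : Matrix (Fin 2) (Fin 2) A) =
    !![2 * t * (1 + t), -2 * t * (1 - t) * s; 2 * t * (1 + t), -2 * t * (1 - t)] := by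
  have h3 : ((-2 * (Y : SR) * ((1 - Y) * X - (1 + Y)) : SR) : Matrix (Fin 2) (Fin 2) A) =
    -(1 + 1) * !![t, 0; 0, -t] * ((1 - !![t, 0; 0, -t]) * !![0, s; 1, 0] - (1 + !![t, 0; 0, -t])) := by
    have : (-2 : SR) = -(1 + 1) := by norm_num
    rw [this]
    rfl
  rw [h3]
  apply Matrix.ext
  intro i j
  fin_cases i <;> fin_cases j <;> simp [Matrix.mul_apply, Fin.sum_univ_two, Matrix.one_apply] <;> ring_nf <;> simp

theorem hnc : ¬ ∃ a' b' p q : SR, (1 - 2 * (Y : SR) * (1 - Y * Y)) * p +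
      (-2 * (Y : SR) * ((1 - Y) * X - (1 + Y))) * q = 0 ∧ a' * p + b' * q = 1 := by
  rintro ⟨a', b', p, q, h1, h2⟩
  have e1 := congrArg (Subtype.val) h1
  have e2 := congrArg (Subtype.val) h2
  simp only [Subring.coe_add, Subring.coe_mul, Subring.coe_one] at e2
  rw [Subring.coe_add, Subring.coe_mul _ _ p, Subring.coe_mul _ _ q, aM_eq, bM_eq, Subring.coe_zero] at e1
  set aM : Matrix (Fin 2) (Fin 2) A := !![C aR, 0; 0, C (sR aR)] with haM
  set bM : Matrix (Fin 2) (Fin 2) A :=
    !![2 * t * (1 + t), -2 * t * (1 - t) * s; 2 * t * (1 + t), -2 * t * (1 - t)] with hbM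
  have hU : Matrix.fromBlocks aM bM a'.1 b'.1 * Matrix.fromBlocks 1 p.1 0 q.1 =
      Matrix.fromBlocks aM 0 a'.1 1 := by
    rw [Matrix.fromBlocks_multiply, e1, e2]
    simp
  have hdet := congrArg Matrix.det hU
  rw [Matrix.det_mul, Matrix.det_fromBlocks_zero₂₁, Matrix.det_fromBlocks_zero₁₂, Matrix.det_one,
    one_mul, mul_one, det_eq q] at hdet
  set d := (Matrix.fromBlocks aM bM a'.1 b'.1).det with hd
  have hda : aM.det = C aR * C (sR aR) := by
    rw [haM, Matrix.det_fin_two]; simp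
  rw [hda] at hdet
  obtain ⟨hq1, hq2⟩ := q.2
  have r1 : C aR * p.1 0 0 + (2 * t * (1 + t) * q.1 0 0 + (-2 * t * (1 - t) * s) * q.1 1 0) = 0 := by
    have := congrArg (fun M : Matrix (Fin 2) (Fin 2) A => M 0 0) e1
    simp only [Matrix.add_apply, Matrix.mul_apply, Fin.sum_univ_two] at this
    simpa [haM, hbM] using this
  have r2 : C aR * p.1 0 1 + (2 * t * (1 + t) * q.1 0 1 + (-2 * t * (1 - t) * s) * q.1 1 1) = 0 := by
    have := congrArg (fun M : Matrix (Fin 2) (Fin 2) A => M 0 1) e1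
    simp only [Matrix.add_apply, Matrix.mul_apply, Fin.sum_univ_two] at this
    simpa [haM, hbM] using this
  have hca : (C aR : A) = 1 - 2 * t * (1 - t * t) := by
    rw [aR, t]; simp only [map_sub, map_mul, map_one, map_ofNat]
  have hne : aR * sR aR ≠ 0 := mul_ne_zero aR_ne (sR_ne aR_ne)
  have hdis := nm_const (q.1 0 0) (q.1 1 0) d (aR * sR aR) hne (by rw [mul_comm, hdet, map_mul])
  rcases hdis with h0 | h0
  · -- `q 0 0 = 0`
    have hq11 : q.1 1 1 = 0 := by rw [hq1, h0, map_zero]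
    rw [h0] at r1
    rw [hq11, hq2] at r2
    apply final (q.1 1 0) d (-s)
    · refine ⟨q.1 1 0 + (1 + t) * si * p.1 0 0, ?_⟩
      have hs := s_si
      linear_combination (-(q.1 1 0)) * hca - (1 + t) * si * r1 - (2 * t * (1 - t * t) * q.1 1 0) * hs
    · refine ⟨sg (q.1 1 0) - (1 - t) * si * p.1 0 1, ?_⟩
      have hs := s_si
      linear_combination (-sg (q.1 1 0)) * hca + (1 - t) * si * r2 - (2 * t * (1 - t * t) * sg (q.1 1 0)) * hs
    · rw [← hdet, h0, nm]; simp; ring
  · have hq01 : q.1 0 1 = 0 := by rw [hq2, h0, map_zero, mul_zero]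
    rw [h0] at r1
    rw [hq01, hq1] at r2
    apply final (q.1 0 0) d 1
    · refine ⟨q.1 0 0 - (1 - t) * p.1 0 0, ?_⟩
      linear_combination (-(q.1 0 0)) * hca + (1 - t) * r1
    · refine ⟨sg (q.1 0 0) + (1 + t) * si * p.1 0 1, ?_⟩
      have hs := s_si
      linear_combination (-sg (q.1 0 0)) * hca - (1 + t) * si * r2 - (2 * t * (1 - t * t) * sg (q.1 0 0)) * hs
    · rw [← hdet, h0, nm]; simp; ring

end

end Pool.Agent.PrimA
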