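import Mathlib

set_option autoImplicit false

/-! A dense set of reals such that every strictly increasing map from a relatively open interval of it to itself
has a fixed point. -/

open Cardinal Set

namespace Pool.Agent.RigidE

/-- codes -/
abbrev A := Set (ℚ × ℚ) × ℚ × ℕ

/-- left endpoint -/
noncomputable def lo (a : A) : ℝ := (a.2.1 : ℝ)
/-- right endpoint -/
noncomputable def hi (a : A) : ℝ := (a.2.1 : ℝ) + 1 / ((a.2.2 : ℝ) + 1)

theorem lo_lt_hi (a : A) : lo a < hi a := by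
  unfold lo hi
  have : (0:ℝ) < 1 / ((a.2.2 : ℝ) + 1) := by positivity
  linarith

/-- the set whose supremum is taken -/
def HS (a : A) (x : ℝ) : Set ℝ := {t : ℝ | ∃ q : ℚ, t = q ∧ ∃ r : ℚ, (r:ℝ) < x ∧ (r, q) ∈ a.1}

/-- coded monotone function -/
noncomputable def H (a : A) (x : ℝ) : ℝ := sSup (HS a x)

open Classical in
/-- a solution of `H b z = y` -/
noncomputable def G (b : A) (y : ℝ) : ℝ :=
  if h : ∃ z, z ∈ Set.Ioo (lo b) (hi b) ∧ H b z = y then h.choose else 0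

theorem G_spec (b : A) (y z : ℝ) (hz : z ∈ Set.Ioo (lo b) (hi b)) (h : H b z = y) :
    G b y ∈ Set.Ioo (lo b) (hi b) ∧ H b (G b y) = y := by
  have hex : ∃ z, z ∈ Set.Ioo (lo b) (hi b) ∧ H b z = y := ⟨z, hz, h⟩
  unfold G
  rw [dif_pos hex]
  exact hex.choose_spec

theorem mk_A : #A = 𝔠 := by
  simp only [A, Cardinal.mk_prod, Cardinal.mk_set, Cardinal.lift_id, Cardinal.mkRat, Cardinal.mk_nat]
  simp

theorem exists_good (r : A → A → Prop) (hr : ∀ a, #{b // r b a} < 𝔠) (a : A) (ih : ∀ b, r b a → ℝ) :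
    ∃ y ∈ Set.Ioo (lo a) (hi a), ∀ b, ∀ _ : r b a, ∀ c, ∀ hc : r c a,
      y ≠ ih c hc ∧ y ≠ H b (ih c hc) ∧ y ≠ G b (ih c hc) := by
  let g : {b // r b a} × {c // r c a} × Fin 3 → ℝ := fun t =>
    ![ih t.2.1.1 t.2.1.2, H t.1.1 (ih t.2.1.1 t.2.1.2), G t.1.1 (ih t.2.1.1 t.2.1.2)] t.2.2
  have hB : #(Set.range g) < 𝔠 := by
    refine lt_of_le_of_lt Cardinal.mk_range_le ?_
    simp only [Cardinal.mk_prod, Cardinal.lift_id]
    refine Cardinal.mul_lt_of_lt Cardinal.aleph0_le_continuum (hr a) ?_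
    refine Cardinal.mul_lt_of_lt Cardinal.aleph0_le_continuum (hr a) ?_
    exact lt_of_lt_of_le (Cardinal.lt_aleph0_of_finite _) Cardinal.aleph0_le_continuum
  have hne : ¬ (Set.Ioo (lo a) (hi a) ⊆ Set.range g) := by
    intro hsub
    have h1 := Cardinal.mk_le_mk_of_subset hsub
    rw [Cardinal.mk_Ioo_real (lo_lt_hi a)] at h1
    exact absurd h1 (not_le.mpr hB)
  rw [Set.not_subset] at hne
  obtain ⟨y, hy, hyg⟩ := hne
  refine ⟨y, hy, fun b hb c hc => ⟨?_, ?_, ?_⟩⟩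
  · rintro rfl
    exact hyg ⟨(⟨b, hb⟩, ⟨c, hc⟩, 0), rfl⟩
  · rintro rfl
    exact hyg ⟨(⟨b, hb⟩, ⟨c, hc⟩, 1), rfl⟩
  · rintro rfl
    exact hyg ⟨(⟨b, hb⟩, ⟨c, hc⟩, 2), rfl⟩

theorem exists_seq : ∃ (r : A → A → Prop) (_ : IsWellOrder A r), (∀ a, #{b // r b a} < 𝔠) ∧
    ∃ x : A → ℝ, (∀ a, x a ∈ Set.Ioo (lo a) (hi a)) ∧
      ∀ a b c, r b a → r c a → x a ≠ x c ∧ x a ≠ H b (x c) ∧ x a ≠ G b (x c) := by
  obtain ⟨r, hwo, hord⟩ := Cardinal.exists_ord_eq A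
  have hr : ∀ a, #{b // r b a} < 𝔠 := by
    intro a
    have := Cardinal.card_typein_lt a hord
    rw [mk_A] at this
    exact this
  refine ⟨r, hwo, hr, ?_⟩
  let F : ∀ a, (∀ b, r b a → ℝ) → ℝ := fun a ih => (exists_good r hr a ih).choose
  have hF : ∀ a ih, F a ih ∈ Set.Ioo (lo a) (hi a) ∧ ∀ b, ∀ _ : r b a, ∀ c, ∀ hc : r c a,
      F a ih ≠ ih c hc ∧ F a ih ≠ H b (ih c hc) ∧ F a ih ≠ G b (ih c hc) :=
    fun a ih => (exists_good r hr a ih).choose_spec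
  have hwf : WellFounded r := hwo.wf
  let x : A → ℝ := hwf.fix F
  have hx : ∀ a, x a = F a (fun b _ => x b) := fun a => hwf.fix_eq F a
  refine ⟨x, fun a => ?_, fun a b c hb hc => ?_⟩
  · rw [hx a]
    exact (hF a _).1
  · have := (hF a (fun b _ => x b)).2 b hb c hc
    rw [← hx a] at this
    exact this

theorem exists_E : ∃ E : Set ℝ, (∀ a b : ℝ, a < b → ∃ x ∈ E, a < x ∧ x < b) ∧
    ∀ a b : ℝ, a < b → ∀ φ : ℝ → ℝ, (∀ x ∈ E ∩ Set.Ioo a b, φ x ∈ E) →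
      StrictMonoOn φ (E ∩ Set.Ioo a b) → ∃ x ∈ E ∩ Set.Ioo a b, φ x = x := by
  obtain ⟨r, hwo, hr, x, hx1, hx2⟩ := exists_seq
  have hinj : Function.Injective x := by
    intro a c hac
    rcases trichotomous_of r a c with h | h | h
    · exact absurd hac.symm (hx2 c a a h h).1
    · exact h
    · exact absurd hac (hx2 a c c h h).1
  have hcode : ∀ a b : ℝ, a < b → ∃ (p : ℚ) (n : ℕ), a < p ∧ (p : ℝ) + 1 / ((n : ℝ) + 1) < b := by
    intro a b hab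
    obtain ⟨p, hp1, hp2⟩ := exists_rat_btwn hab
    obtain ⟨n, hn⟩ := exists_nat_one_div_lt (sub_pos.mpr hp2)
    exact ⟨p, n, hp1, by linarith⟩
  have hdense : ∀ a b : ℝ, a < b → ∃ y ∈ Set.range x, a < y ∧ y < b := by
    intro a b hab
    obtain ⟨p, n, h1, h2⟩ := hcode a b hab
    have := hx1 (∅, p, n)
    refine ⟨x (∅, p, n), ⟨_, rfl⟩, ?_, ?_⟩
    · exact h1.trans this.1
    · exact lt_trans this.2 h2
  refine ⟨Set.range x, hdense, ?_⟩
  intro a b hab φ hφE hφ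
  by_contra hno
  push Not at hno
  obtain ⟨p, n, h1, h2⟩ := hcode a b hab
  set J : Set ℝ := Set.Ioo (p : ℝ) ((p : ℝ) + 1 / ((n : ℝ) + 1)) with hJ
  set X : Set ℝ := Set.range x ∩ J with hX
  have hXsub : X ⊆ Set.range x ∩ Set.Ioo a b := by
    rintro y ⟨hy1, hy2, hy3⟩
    exact ⟨hy1, h1.trans hy2, hy3.trans h2⟩
  have hmono : ∀ y ∈ X, ∀ z ∈ X, y < z → φ y < φ z := fun y hy z hz h => hφ (hXsub hy) (hXsub hz) h
  have hXd : ∀ c d : ℝ, c < d → (p:ℝ) ≤ c → d ≤ (p : ℝ) + 1 / ((n : ℝ) + 1) → ∃ y ∈ X, c < y ∧ y < d := by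
    intro c d hcd hc hd
    obtain ⟨y, hy, hy1, hy2⟩ := hdense c d hcd
    exact ⟨y, ⟨hy, lt_of_le_of_lt hc hy1, lt_of_lt_of_le hy2 hd⟩, hy1, hy2⟩
  let S : Set (ℚ × ℚ) := {t | ∃ x' ∈ X, x' ≤ (t.1 : ℝ) ∧ (t.2 : ℝ) < φ x'}
  let β : A := (S, p, n)
  have hbd : ∀ y z : ℝ, z ∈ X → y ≤ z → ∀ t ∈ HS β y, t ≤ φ z := by
    rintro y z hz hyz t ⟨q, rfl, r', hr', x', hx', hx'1, hx'2⟩
    have h3 : x' < z := lt_of_le_of_lt hx'1 (lt_of_lt_of_le hr' hyz)
    exact (hx'2.trans (hmono x' hx' z hz h3)).le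
  have hmem : ∀ y x' : ℝ, x' ∈ X → x' < y → ∀ q : ℚ, (q : ℝ) < φ x' → (q : ℝ) ∈ HS β y := by
    intro y x' hx' hlt q hq
    obtain ⟨r', hr1, hr2⟩ := exists_rat_btwn hlt
    exact ⟨q, rfl, r', hr2, x', hx', hr1.le, hq⟩
  have hne : ∀ y ∈ J, (HS β y).Nonempty := by
    intro y hy
    obtain ⟨x', hx', hx'1, hx'2⟩ := hXd p y hy.1 le_rfl hy.2.le
    obtain ⟨q, hq⟩ := exists_rat_lt (φ x')
    exact ⟨q, hmem y x' hx' hx'2 q hq⟩
  have hP2 : ∀ y ∈ J, ∀ z ∈ X, y ≤ z → H β y ≤ φ z := fun y hy z hz hyz =>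
    csSup_le (hne y hy) (hbd y z hz hyz)
  have hP1 : ∀ y ∈ J, ∀ x' ∈ X, x' < y → φ x' ≤ H β y := by
    intro y hy x' hx' hlt
    by_contra hcon
    push Not at hcon
    obtain ⟨q, hq1, hq2⟩ := exists_rat_btwn hcon
    obtain ⟨z, hz, hz1, hz2⟩ := hXd y _ hy.2 hy.1.le le_rfl
    have : (q : ℝ) ≤ H β y := le_csSup ⟨φ z, hbd y z hz hz1.le⟩ (hmem y x' hx' hlt q hq2)
    linarith
  -- the exceptional set
  let Exc : Set ℝ := {y | y ∈ X ∧ H β y < φ y}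
  have hExc : Exc.Countable := by
    have hq : ∀ y : ℝ, ∃ q : ℚ, y ∈ Exc → H β y < q ∧ (q : ℝ) < φ y := by
      intro y
      by_cases hy : y ∈ Exc
      · obtain ⟨q, hq1, hq2⟩ := exists_rat_btwn hy.2
        exact ⟨q, fun _ => ⟨hq1, hq2⟩⟩
      · exact ⟨0, fun h => absurd h hy⟩
    choose q hq using hq
    have hlt : ∀ y ∈ Exc, ∀ z ∈ Exc, y < z → q y < q z := by
      intro y hy z hz hyz
      have h3 := (hq y hy).2
      have h4 := (hq z hz).1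
      have h5 := hP1 z hz.1.2 y hy.1 hyz
      have h6 : (q y : ℝ) < q z := by linarith
      exact_mod_cast h6
    have hinj' : Set.InjOn q Exc := by
      intro y hy z hz h
      rcases lt_trichotomy y z with h1 | h1 | h1
      · exact absurd h (hlt y hy z hz h1).ne
      · exact h1
      · exact absurd h (hlt z hz y hy h1).ne'
    exact Set.MapsTo.countable_of_injOn (Set.mapsTo_univ q Exc) hinj' (Set.countable_univ)
  obtain ⟨α, hα1, hα2, hα3⟩ : ∃ α : A, α.2 = (p, n) ∧ r β α ∧ x α ∉ Exc := by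
    by_contra hcon
    push Not at hcon
    have hsub : Set.range (fun T : Set (ℚ × ℚ) => ((T, p, n) : A)) ⊆ ({b | r b β} ∪ {β}) ∪ x ⁻¹' Exc := by
      rintro _ ⟨T, rfl⟩
      rcases trichotomous_of r (T, p, n) β with h | h | h
      · exact Or.inl (Or.inl h)
      · exact Or.inl (Or.inr h)
      · exact Or.inr (hcon _ rfl h)
    have h3 := Cardinal.mk_le_mk_of_subset hsub
    rw [Cardinal.mk_range_eq _ (fun T T' h => by simpa using h)] at h3
    have h4 : #(Set (ℚ × ℚ)) = 𝔠 := by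
      simp [Cardinal.mk_set, Cardinal.mkRat]
    rw [h4] at h3
    have h5 : #(({b | r b β} ∪ {β}) ∪ x ⁻¹' Exc : Set A) < 𝔠 := by
      refine lt_of_le_of_lt (Cardinal.mk_union_le _ _) ?_
      refine Cardinal.add_lt_of_lt Cardinal.aleph0_le_continuum ?_ ?_
      · refine lt_of_le_of_lt (Cardinal.mk_union_le _ _) ?_
        refine Cardinal.add_lt_of_lt Cardinal.aleph0_le_continuum (hr β) ?_
        exact lt_of_lt_of_le (Cardinal.lt_aleph0_of_finite _) Cardinal.aleph0_le_continuum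
      · have h6 : (x ⁻¹' Exc).Countable := hExc.preimage_of_injOn (hinj.injOn)
        exact lt_of_le_of_lt (Cardinal.mk_le_aleph0_iff.mpr h6.to_subtype) Cardinal.aleph0_lt_continuum
    exact absurd h3 (not_le.mpr h5)
  have hαJ : x α ∈ J := by
    have := hx1 α
    unfold lo hi at this
    rw [hα1] at this
    exact this
  have hαX : x α ∈ X := ⟨⟨α, rfl⟩, hαJ⟩
  obtain ⟨γ, hγ⟩ := hφE (x α) (hXsub hαX)
  have hHα : H β (x α) = x γ := by
    have h3 : φ (x α) ≤ H β (x α) := by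
      by_contra h
      exact hα3 ⟨hαX, not_le.mp h⟩
    rw [hγ]
    exact le_antisymm (hP2 _ hαJ _ hαX le_rfl) h3
  rcases trichotomous_of r γ α with h | h | h
  · obtain ⟨h3, h4⟩ := G_spec β (x γ) (x α) hαJ hHα
    have h5 := (hx2 α β γ hα2 h).2.2
    set y := G β (x γ) with hy
    rcases lt_or_gt_of_ne h5 with h6 | h6
    · obtain ⟨x1, hx1', h7, h8⟩ := hXd (x α) y h6 hαJ.1.le h3.2.le
      have h9 := hmono _ hαX _ hx1' h7
      have h10 := hP1 y h3 x1 hx1' h8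
      rw [h4, hγ] at h10
      linarith
    · obtain ⟨x1, hx1', h7, h8⟩ := hXd y (x α) h6 h3.1.le hαJ.2.le
      have h9 := hmono _ hx1' _ hαX h8
      have h10 := hP2 y h3 x1 hx1' h7.le
      rw [h4, hγ] at h10
      linarith
  · rw [h] at hγ
    exact hno (x α) (hXsub hαX) hγ.symm
  · exact (hx2 γ β α (trans_of r hα2 h) h).2.1 hHα.symm

end Pool.Agent.RigidE
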