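import Pool.Statements.S00308

set_option autoImplicit false
open Pool Pool.MP_0b625c_al

namespace Pool.Agent.S00308

open Filter Topology Uniformity UniformConvergence

/-- a sequence of distinct points of the circle -/
theorem exists_seq : ∃ a : ℕ → Circle, Function.Injective a := by
  refine ⟨fun n => Circle.exp (1 / ((n : ℝ) + 1)), ?_⟩
  intro m n h
  have key : ∀ k : ℕ, Complex.arg (Circle.exp (1 / ((k : ℝ) + 1)) : ℂ) = 1 / ((k : ℝ) + 1) := by
    intro k
    have hpos : (0 : ℝ) < (k : ℝ) + 1 := by positivity
    have h1 : 1 / ((k : ℝ) + 1) ≤ 1 := by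
      rw [div_le_one hpos]; linarith [Nat.cast_nonneg (α := ℝ) k]
    have h0 : 0 < 1 / ((k : ℝ) + 1) := by positivity
    apply Circle.arg_exp
    · linarith [Real.pi_gt_three]
    · linarith [Real.pi_gt_three]
  have h2 := congrArg (fun z : Circle => Complex.arg (z : ℂ)) h
  simp only [key] at h2
  have hm : (0 : ℝ) < (m : ℝ) + 1 := by positivity
  have hn : (0 : ℝ) < (n : ℝ) + 1 := by positivity
  rw [div_eq_div_iff hm.ne' hn.ne'] at h2
  have : (m : ℝ) = n := by linarith
  exact_mod_cast this

variable (a : ℕ → Circle)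

/-- the complement of the range of the sequence -/
abbrev Comp : Type := {q : Circle // q ∉ Set.range a}

/-- the big product group -/
abbrev X : Type := (Circle →ᵤ Circle) × ((Comp a) →ᵤ Circle) × (ℕ → Circle)

instance circle_cg : IsCountablyGenerated (𝓤 Circle) :=
  (Metric.uniformity_basis_dist_inv_nat_succ (α := Circle)).isCountablyGenerated

instance ufun_cg (α : Type) : IsCountablyGenerated (𝓤 (α →ᵤ Circle)) :=
  (Filter.HasBasis.isCountablyGenerated
    (UniformFun.hasBasis_uniformity_of_basis α Circle Metric.uniformity_basis_dist_inv_nat_succ))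

/-- the embedding `f ↦ (f², f off the sequence, f on the sequence)` -/
noncomputable def Phi : (Circle → Circle) →* X a where
  toFun f := (UniformFun.ofFun (f ^ 2), UniformFun.ofFun (fun q => f q.1), fun n => f (a n))
  map_one' := by
    refine Prod.ext ?_ (Prod.ext ?_ ?_)
    · show UniformFun.ofFun ((1 : Circle → Circle) ^ 2) = 1
      rw [one_pow]; rfl
    · rfl
    · rfl
  map_mul' f g := by
    refine Prod.ext ?_ (Prod.ext ?_ ?_)
    · show UniformFun.ofFun ((f * g) ^ 2) = UniformFun.ofFun (f ^ 2) * UniformFun.ofFun (g ^ 2)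
      rw [mul_pow]; rfl
    · rfl
    · rfl

theorem Phi_injective : Function.Injective (Phi a) := by
  intro f g h
  funext q
  by_cases hq : q ∈ Set.range a
  · obtain ⟨n, rfl⟩ := hq
    have := congrArg (fun x : X a => x.2.2 n) h
    exact this
  · have h1 : (Phi a f).2.1 = (Phi a g).2.1 := by rw [h]
    exact congrFun (show (fun q : Comp a => f q.1) = (fun q : Comp a => g q.1) from h1) ⟨q, hq⟩

abbrev E1 : Type := (Phi a).range

theorem mem_range_iff (x : X a) : x ∈ (Phi a).range ↔
    (∀ n, UniformFun.toFun x.1 (a n) = (x.2.2 n) ^ 2) ∧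
    (∀ q : Comp a, UniformFun.toFun x.1 q.1 = (UniformFun.toFun x.2.1 q) ^ 2) ∧
    (∀ m n, a m = a n → x.2.2 m = x.2.2 n) := by
  constructor
  · rintro ⟨f, rfl⟩
    refine ⟨fun n => rfl, fun q => rfl, fun m n h => ?_⟩
    show f (a m) = f (a n)
    rw [h]
  · rintro ⟨h1, h2, h3⟩
    classical
    refine ⟨fun q => if h : q ∈ Set.range a then x.2.2 h.choose else UniformFun.toFun x.2.1 ⟨q, h⟩, ?_⟩
    have hval : ∀ n, (if h : a n ∈ Set.range a then x.2.2 h.choose
        else UniformFun.toFun x.2.1 ⟨a n, h⟩) = x.2.2 n := by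
      intro n
      have h : a n ∈ Set.range a := ⟨n, rfl⟩
      rw [dif_pos h]
      exact h3 _ _ h.choose_spec
    refine Prod.ext ?_ (Prod.ext ?_ ?_)
    · apply UniformFun.toFun.injective
      funext q
      show (if h : q ∈ Set.range a then x.2.2 h.choose else UniformFun.toFun x.2.1 ⟨q, h⟩) ^ 2
        = UniformFun.toFun x.1 q
      by_cases hq : q ∈ Set.range a
      · obtain ⟨n, rfl⟩ := hq
        rw [hval n, h1 n]
      · rw [dif_neg hq]
        exact (h2 ⟨q, hq⟩).symm
    · apply UniformFun.toFun.injective
      funext q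
      show (if h : q.1 ∈ Set.range a then x.2.2 h.choose else UniformFun.toFun x.2.1 ⟨q.1, h⟩)
        = UniformFun.toFun x.2.1 q
      rw [dif_neg q.2]
    · funext n
      exact hval n

theorem isClosed_range : IsClosed ((Phi a).range : Set (X a)) := by
  have : ((Phi a).range : Set (X a)) =
      (⋂ n, {x : X a | UniformFun.toFun x.1 (a n) = (x.2.2 n) ^ 2}) ∩
      ((⋂ q : Comp a, {x : X a | UniformFun.toFun x.1 q.1 = (UniformFun.toFun x.2.1 q) ^ 2}) ∩
      (⋂ m, ⋂ n, {x : X a | a m = a n → x.2.2 m = x.2.2 n})) := by
    ext x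
    simp only [SetLike.mem_coe, mem_range_iff, Set.mem_inter_iff, Set.mem_iInter, Set.mem_ofPred_eq]
  rw [this]
  have e1 : ∀ q : Circle, Continuous (fun x : X a => UniformFun.toFun x.1 q) := fun q =>
    (UniformFun.uniformContinuous_eval Circle q).continuous.comp continuous_fst
  have e2 : ∀ q : Comp a, Continuous (fun x : X a => UniformFun.toFun x.2.1 q) := fun q =>
    (UniformFun.uniformContinuous_eval Circle q).continuous.comp (continuous_fst.comp continuous_snd)
  have e3 : ∀ n : ℕ, Continuous (fun x : X a => x.2.2 n) := fun n =>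
    (continuous_apply n).comp (continuous_snd.comp continuous_snd)
  refine IsClosed.inter ?_ (IsClosed.inter ?_ ?_)
  · exact isClosed_iInter fun n => isClosed_eq (e1 _) ((e3 n).pow 2)
  · exact isClosed_iInter fun q => isClosed_eq (e1 _) ((e2 q).pow 2)
  · refine isClosed_iInter fun m => isClosed_iInter fun n => ?_
    by_cases h : a m = a n
    · simp only [h, forall_const]
      exact isClosed_eq (e3 m) (e3 n)
    · simp only [h, false_implies]
      exact isClosed_univ

instance instCG : IsCountablyGenerated (𝓤 (E1 a)) := by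
  have h : 𝓤 (E1 a) = Filter.comap (Prod.map Subtype.val Subtype.val) (𝓤 (X a)) := rfl
  rw [h]
  infer_instance

noncomputable instance instMetric : MetricSpace (E1 a) := UniformSpace.metricSpace (E1 a)

instance instComplete : CompleteSpace (E1 a) :=
  (isClosed_range a).isComplete.completeSpace_coe

theorem continuous_V :
    Continuous (fun f : Circle →ᵤ Circle => (Phi a).rangeRestrict (UniformFun.toFun f)) := by
  apply Continuous.subtype_mk
  refine Continuous.prodMk ?_ (Continuous.prodMk ?_ ?_)
  · exact continuous_id.pow 2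
  · exact (UniformFun.precomp_uniformContinuous (f := fun q : Comp a => q.1)).continuous
  · exact continuous_pi fun n => (UniformFun.uniformContinuous_eval Circle (a n)).continuous

theorem exists_invol : ∃ m : Circle, m ≠ 1 ∧ m ^ 2 = 1 := by
  refine ⟨Circle.exp Real.pi, ?_, ?_⟩
  · intro h
    have := congrArg (fun z : Circle => (z : ℂ)) h
    simp only [Circle.coe_exp, Circle.coe_one, Complex.exp_pi_mul_I] at this
    norm_num at this
  · apply Circle.ext
    simp [Circle.coe_exp, Complex.exp_pi_mul_I]

/-- The negation of the preceding statement: Take the group of all unit-circle-valued maps on the unit circle, with pointwise product and sup metric. Every continuous bijective homomorphism from it onto a complete metric topological group has a continuous inverse. -/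
theorem result :
    ¬ (∀ (E₁ : Type) [Group E₁] [MetricSpace E₁] [CompleteSpace E₁] [IsTopologicalGroup E₁]
      (U : (Circle → Circle) →* E₁),
      Function.Bijective U →
      (∀ x : Circle → Circle, ∀ ε > (0 : ℝ), ∃ δ > (0 : ℝ), ∀ y : Circle → Circle,
          (∀ q : Circle, dist (x q) (y q) ≤ δ) → dist (U x) (U y) < ε) →
      (∀ x : Circle → Circle, ∀ ε > (0 : ℝ), ∃ δ > (0 : ℝ), ∀ y : Circle → Circle,
          dist (U x) (U y) < δ → ∀ q : Circle, dist (x q) (y q) ≤ ε)) := by
  intro H
  obtain ⟨a, ha⟩ := exists_seq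
  have h := H (E1 a) (Phi a).rangeRestrict
    ⟨fun f g hfg => Phi_injective a (congrArg Subtype.val hfg), (Phi a).rangeRestrict_surjective⟩
  have hcont : ∀ x : Circle → Circle, ∀ ε > (0 : ℝ), ∃ δ > (0 : ℝ), ∀ y : Circle → Circle,
      (∀ q : Circle, dist (x q) (y q) ≤ δ) →
        dist ((Phi a).rangeRestrict x) ((Phi a).rangeRestrict y) < ε := by
    intro x ε hε
    have hc := (continuous_V a).tendsto (UniformFun.ofFun x)
    have hb : Metric.ball ((Phi a).rangeRestrict x) ε ∈ 𝓝 ((Phi a).rangeRestrict x) :=
      Metric.ball_mem_nhds _ hε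
    have hpre := hc hb
    rw [Filter.mem_map] at hpre
    have hbas := UniformFun.hasBasis_nhds_of_basis Circle Circle (UniformFun.ofFun x)
      Metric.uniformity_basis_dist
    obtain ⟨δ, hδ, hsub⟩ := hbas.mem_iff.mp hpre
    refine ⟨δ / 2, by positivity, ?_⟩
    intro y hy
    have hmem : UniformFun.ofFun y ∈
        {g | (UniformFun.ofFun x, g) ∈ UniformFun.gen Circle Circle {p | dist p.1 p.2 < δ}} := by
      intro q
      show dist (x q) (y q) < δ
      linarith [hy q]
    have := hsub hmem
    rw [Set.mem_preimage, Metric.mem_ball, dist_comm] at this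
    exact this
  have h2 := h hcont
  obtain ⟨m, hm1, hm2⟩ := exists_invol
  have hd : 0 < dist (1 : Circle) m := dist_pos.mpr (Ne.symm hm1)
  obtain ⟨δ, hδ, h3⟩ := h2 1 (dist (1 : Circle) m / 2) (by positivity)
  classical
  let y : ℕ → (Circle → Circle) := fun n q => if q = a n then m else 1
  have hysq : ∀ n, (y n) ^ 2 = 1 := by
    intro n
    funext q
    show (if q = a n then m else 1) ^ 2 = 1
    split_ifs
    · exact hm2
    · simp
  have htend : Tendsto (fun n => (Phi a).rangeRestrict (y n)) atTop
      (𝓝 ((Phi a).rangeRestrict 1)) := by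
    rw [tendsto_subtype_rng]
    refine Tendsto.prodMk_nhds ?_ (Tendsto.prodMk_nhds ?_ ?_)
    · have : (fun n => UniformFun.ofFun ((y n) ^ 2)) =
          fun _ : ℕ => UniformFun.ofFun ((1 : Circle → Circle) ^ 2) := by
        funext n; rw [hysq n, one_pow]
      show Tendsto (fun n => UniformFun.ofFun ((y n) ^ 2)) atTop _
      rw [this]
      exact tendsto_const_nhds
    · have : (fun n => UniformFun.ofFun (fun q : Comp a => y n q.1)) =
          fun _ : ℕ => UniformFun.ofFun (fun q : Comp a => (1 : Circle → Circle) q.1) := by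
        funext n
        congr 1
        funext q
        show (if q.1 = a n then m else 1) = 1
        rw [if_neg]
        intro hq
        exact q.2 ⟨n, hq.symm⟩
      show Tendsto (fun n => UniformFun.ofFun (fun q : Comp a => y n q.1)) atTop _
      rw [this]
      exact tendsto_const_nhds
    · rw [tendsto_pi_nhds]
      intro k
      apply tendsto_const_nhds.congr'
      filter_upwards [eventually_gt_atTop k] with n hn
      show (1 : Circle) = if a k = a n then m else 1
      rw [if_neg]
      intro hk
      exact absurd (ha hk) (by omega)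
  rw [Metric.tendsto_atTop] at htend
  obtain ⟨N, hN⟩ := htend δ hδ
  have h4 := h3 (y N) (by rw [dist_comm]; exact hN N le_rfl) (a N)
  have h5 : y N (a N) = m := by
    show (if a N = a N then m else 1) = m
    simp
  rw [h5] at h4
  have h6 : dist (1 : Circle) m ≤ dist (1 : Circle) m / 2 := h4
  linarith

end Pool.Agent.S00308
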