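import Pool.Statements.S01091

set_option autoImplicit false
open scoped ComplexOrder
open Pool Pool.MP_65a4af_al

namespace Pool.Agent.S01091

open Matrix Polynomial

/-- Hadamard's inequality for nonsingular M-matrices, in the diagonally dominant form. -/
theorem hadamard : ∀ (k : ℕ) (M : Matrix (Fin k) (Fin k) ℝ) (x : Fin k → ℝ),
    (∀ i j, i ≠ j → M i j ≤ 0) → (∀ i, 0 < x i) → (∀ i, 0 < ∑ j, M i j * x j) →
    0 < M.det ∧ M.det ≤ ∏ i, M i i ∧ ∀ i, 0 < M i i := by
  intro k
  induction k with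
  | zero => intro M x _ _ _; simp
  | succ k ih =>
    intro M x hoff hx hdom
    have hdiag : ∀ i, 0 < M i i := by
      intro i
      have h := hdom i
      rw [← Finset.add_sum_erase _ _ (Finset.mem_univ i)] at h
      have h2 : ∑ j ∈ Finset.univ.erase i, M i j * x j ≤ 0 := by
        apply Finset.sum_nonpos
        intro j hj
        exact mul_nonpos_of_nonpos_of_nonneg (hoff i j (Finset.ne_of_mem_erase hj).symm) (hx j).le
      have h3 : 0 < M i i * x i := by linarith
      exact (pos_iff_pos_of_mul_pos h3).mpr (hx i)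
    have h00 := hdiag 0
    let c : Fin (k + 1) → ℝ := fun i => if i = 0 then 0 else M i 0 / M 0 0
    let B : Matrix (Fin (k + 1)) (Fin (k + 1)) ℝ := fun i j => M i j - c i * M 0 j
    have hc0 : c 0 = 0 := by simp [c]
    have hB0 : ∀ j, B 0 j = M 0 j := by intro j; simp [B, hc0]
    have hdetB : M.det = B.det := by
      apply det_eq_of_forall_row_eq_smul_add_const c 0 hc0
      intro i j
      rw [hB0]; simp [B]
    have hBcol : ∀ i : Fin k, B i.succ 0 = 0 := by
      intro i
      simp only [B, c, Fin.succ_ne_zero, if_false]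
      field_simp
      ring
    let M' : Matrix (Fin k) (Fin k) ℝ := fun i j => B i.succ j.succ
    have hdet' : B.det = M 0 0 * M'.det := by
      rw [det_succ_column_zero, Fin.sum_univ_succ]
      simp only [hBcol, hB0, Fin.val_zero, pow_zero, one_mul, mul_zero, zero_mul,
        Finset.sum_const_zero, add_zero]
      congr 1
    have hM' : ∀ i j : Fin k, M' i j = M i.succ j.succ - M i.succ 0 / M 0 0 * M 0 j.succ := by
      intro i j
      simp [M', B, c, Fin.succ_ne_zero]
    have hle : ∀ i j : Fin k, M' i j ≤ M i.succ j.succ := by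
      intro i j
      rw [hM']
      have h1 : M i.succ 0 ≤ 0 := hoff _ _ (Fin.succ_ne_zero i)
      have h2 : M 0 j.succ ≤ 0 := hoff _ _ (Fin.succ_ne_zero j).symm
      have h3 : 0 ≤ M i.succ 0 / M 0 0 * M 0 j.succ := by
        apply mul_nonneg_of_nonpos_of_nonpos _ h2
        exact div_nonpos_of_nonpos_of_nonneg h1 h00.le
      linarith
    obtain ⟨p1, p2, p3⟩ := ih M' (fun i => x i.succ)
      (fun i j hij => le_trans (hle i j) (hoff _ _ (fun h => hij (Fin.succ_injective _ h))))
      (fun i => hx _)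
      (by
        intro i
        have e : ∑ j : Fin k, M' i j * x j.succ =
            (∑ j, M i.succ j * x j) - M i.succ 0 / M 0 0 * (∑ j, M 0 j * x j) := by
          rw [Fin.sum_univ_succ, Fin.sum_univ_succ (f := fun j => M 0 j * x j)]
          have : M i.succ 0 / M 0 0 * (M 0 0 * x 0 + ∑ j : Fin k, M 0 j.succ * x j.succ)
              = M i.succ 0 * x 0 + ∑ j : Fin k, M i.succ 0 / M 0 0 * M 0 j.succ * x j.succ := by
            rw [mul_add, Finset.mul_sum]
            congr 1
            · field_simp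
            · apply Finset.sum_congr rfl; intro j _; ring
          rw [this]
          have : ∑ j : Fin k, M' i j * x j.succ = ∑ j : Fin k, M i.succ j.succ * x j.succ
              - ∑ j : Fin k, M i.succ 0 / M 0 0 * M 0 j.succ * x j.succ := by
            rw [← Finset.sum_sub_distrib]
            apply Finset.sum_congr rfl; intro j _; rw [hM']; ring
          rw [this]; ring
        rw [e]
        have h1 := hdom i.succ
        have h2 := hdom 0
        have h3 : M i.succ 0 / M 0 0 ≤ 0 :=
          div_nonpos_of_nonpos_of_nonneg (hoff _ _ (Fin.succ_ne_zero i)) h00.le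
        have h4 : M i.succ 0 / M 0 0 * (∑ j, M 0 j * x j) ≤ 0 :=
          mul_nonpos_of_nonpos_of_nonneg h3 h2.le
        linarith)
    refine ⟨?_, ?_, hdiag⟩
    · rw [hdetB, hdet']; positivity
    · rw [hdetB, hdet', Fin.prod_univ_succ]
      apply mul_le_mul_of_nonneg_left _ h00.le
      refine le_trans p2 ?_
      exact Finset.prod_le_prod (fun i _ => (p3 i).le) (fun i _ => hle i i)


section norms

attribute [local instance] Matrix.linftyOpNormedAddCommGroup Matrix.linftyOpNormedRing
  Matrix.linftyOpNormedAlgebra Matrix.linftyOpNormedSpace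

theorem entry_le {m : ℕ} (B : Matrix (Fin m) (Fin m) ℂ) (i j : Fin m) : ‖B i j‖ ≤ ‖B‖ := by
  have h1 : ‖B i j‖₊ ≤ ∑ l, ‖B i l‖₊ :=
    Finset.single_le_sum (f := fun l => ‖B i l‖₊) (fun _ _ => bot_le) (Finset.mem_univ j)
  have h2 : ∑ l, ‖B i l‖₊ ≤ ‖B‖₊ := by
    rw [Matrix.linfty_opNNNorm_def]
    exact Finset.le_sup (f := fun i => ∑ l, ‖B i l‖₊) (Finset.mem_univ i)
  exact_mod_cast h1.trans h2

theorem pow_bound {m : ℕ} (B : Matrix (Fin m) (Fin m) ℂ)
    (hB : ∀ z ∈ B.charpoly.roots, ‖z‖ ≤ 1) (r : ℝ) (hr : 1 < r) :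
    ∀ᶠ n : ℕ in Filter.atTop, ‖B ^ n‖ ≤ r ^ n := by
  have hsr : spectralRadius ℂ B < ENNReal.ofReal r := by
    have h1 : spectralRadius ℂ B ≤ 1 := by
      unfold spectralRadius
      apply iSup₂_le
      intro z hz
      rw [Matrix.mem_spectrum_iff_isRoot_charpoly] at hz
      have h2 : z ∈ B.charpoly.roots :=
        (Polynomial.mem_roots (Matrix.charpoly_monic B).ne_zero).mpr hz
      have h3 := hB z h2
      have h4 : ‖z‖₊ ≤ 1 := by exact_mod_cast h3
      exact_mod_cast h4
    refine lt_of_le_of_lt h1 ?_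
    rw [← ENNReal.ofReal_one]
    exact (ENNReal.ofReal_lt_ofReal_iff (by linarith)).mpr hr
  have ht := spectrum.pow_norm_pow_one_div_tendsto_nhds_spectralRadius B
  have h5 := ht.eventually (gt_mem_nhds hsr)
  filter_upwards [h5, Filter.eventually_ge_atTop 1] with n hn hn1
  have h6 : ‖B ^ n‖ ^ (1 / n : ℝ) < r := by
    exact (ENNReal.ofReal_lt_ofReal_iff (by linarith)).mp hn
  have h7 : (‖B ^ n‖ ^ (1 / n : ℝ)) ^ n ≤ r ^ n :=
    pow_le_pow_left₀ (Real.rpow_nonneg (norm_nonneg _) _) h6.le n
  have h8 : (‖B ^ n‖ ^ (1 / n : ℝ)) ^ n = ‖B ^ n‖ := by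
    rw [← Real.rpow_natCast, ← Real.rpow_mul (norm_nonneg _), one_div_mul_cancel, Real.rpow_one]
    positivity
  rwa [h8] at h7

theorem entry_pow_bound {m : ℕ} (A : Matrix (Fin m) (Fin m) ℝ)
    (hB : ∀ z ∈ (A.map (algebraMap ℝ ℂ)).charpoly.roots, ‖z‖ ≤ 1) (r : ℝ) (hr : 1 < r)
    (i j : Fin m) :
    ∀ᶠ n : ℕ in Filter.atTop, |(A ^ n) i j| ≤ r ^ n := by
  filter_upwards [pow_bound _ hB r hr] with n hn
  have h1 := entry_le ((A.map (algebraMap ℝ ℂ)) ^ n) i j
  have h2 : (A.map (algebraMap ℝ ℂ)) ^ n = (A ^ n).map (algebraMap ℝ ℂ) := by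
    rw [← RingHom.mapMatrix_apply, ← RingHom.mapMatrix_apply, map_pow]
  rw [h2] at h1 hn
  have h3 : ‖((A ^ n).map (algebraMap ℝ ℂ)) i j‖ = |(A ^ n) i j| := by
    simp [Matrix.map_apply]
  rw [h3] at h1
  exact h1.trans hn

end norms

theorem exists_x {m : ℕ} (A : Matrix (Fin m) (Fin m) ℝ) (hA : ∀ i j, 0 ≤ A i j)
    (hB : ∀ z ∈ (A.map (algebraMap ℝ ℂ)).charpoly.roots, ‖z‖ ≤ 1) (t : ℝ) (ht : 1 < t) :
    ∃ x : Fin m → ℝ, (∀ i, 0 < x i) ∧
      ∀ i, 0 < ∑ j, (t • (1 : Matrix (Fin m) (Fin m) ℝ) - A) i j * x j := by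
  have ht0 : 0 < t := by linarith
  have hpow : ∀ n i j, 0 ≤ (A ^ n) i j := by
    intro n
    induction n with
    | zero =>
      intro i j
      rw [pow_zero, Matrix.one_apply]; split_ifs <;> norm_num
    | succ n ih =>
      intro i j
      rw [pow_succ, Matrix.mul_apply]
      exact Finset.sum_nonneg fun l _ => mul_nonneg (ih i l) (hA l j)
  let g : ℕ → Fin m → ℝ := fun n i => (∑ j, (A ^ n) i j) / t ^ n
  have hgnn : ∀ n i, 0 ≤ g n i := fun n i =>
    div_nonneg (Finset.sum_nonneg fun j _ => hpow n i j) (by positivity)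
  have hsum0 : ∀ i j, Summable (fun n : ℕ => (A ^ n) i j / t ^ n) := by
    intro i j
    have hr1 : 1 < (1 + t) / 2 := by linarith
    apply Summable.of_norm_bounded_eventually_nat (g := fun n : ℕ => ((1 + t) / 2 / t) ^ n)
    · apply summable_geometric_of_lt_one (by positivity)
      rw [div_lt_one ht0]; linarith
    · filter_upwards [entry_pow_bound A hB ((1 + t) / 2) hr1 i j] with n hn
      rw [Real.norm_eq_abs, abs_div, abs_of_pos (show 0 < t ^ n by positivity), div_pow ((1 + t) / 2) t]
      gcongr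
  have hsum : ∀ i, Summable (fun n => g n i) := by
    intro i
    have : (fun n => g n i) = fun n => ∑ j, (A ^ n) i j / t ^ n := by
      funext n; simp only [g]; rw [Finset.sum_div]
    rw [this]
    exact summable_sum fun j _ => hsum0 i j
  have hg0 : ∀ i, g 0 i = 1 := by
    intro i; simp [g, Matrix.one_apply]
  have hrec : ∀ n i, ∑ j, A i j * g n j = t * g (n + 1) i := by
    intro n i
    simp only [g]
    have e1 : ∑ j, A i j * ((∑ l, (A ^ n) j l) / t ^ n) = (∑ l, (A ^ (n + 1)) i l) / t ^ n := by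
      rw [pow_succ']
      simp only [Matrix.mul_apply]
      rw [Finset.sum_comm (γ := Fin m), Finset.sum_div]
      apply Finset.sum_congr rfl; intro j _
      rw [← Finset.mul_sum, mul_div_assoc]
    rw [e1, pow_succ t n]
    field_simp
  refine ⟨fun i => ∑' n, g n i, ?_, ?_⟩
  · intro i
    have : g 0 i ≤ ∑' n, g n i := (hsum i).le_tsum 0 (fun n _ => hgnn n i)
    rw [hg0] at this
    linarith
  · intro i
    have h1 : ∑ j, A i j * ∑' n, g n j = t * ((∑' n, g n i) - 1) := by
      have e1 : ∑ j, A i j * ∑' n, g n j = ∑' n, ∑ j, A i j * g n j := by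
        rw [Summable.tsum_finsetSum (fun j _ => (hsum j).mul_left _)]
        apply Finset.sum_congr rfl; intro j _
        rw [tsum_mul_left]
      rw [e1]
      simp only [hrec]
      rw [tsum_mul_left]
      congr 1
      have := (hsum i).tsum_eq_zero_add
      rw [this, hg0]; ring
    have h2 : ∑ j, (t • (1 : Matrix (Fin m) (Fin m) ℝ) - A) i j * ∑' n, g n j = t := by
      have : ∀ j, (t • (1 : Matrix (Fin m) (Fin m) ℝ) - A) i j * ∑' n, g n j =
          (if i = j then t * ∑' n, g n j else 0) - A i j * ∑' n, g n j := by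
        intro j
        rw [Matrix.sub_apply, Matrix.smul_apply, Matrix.one_apply]
        split_ifs <;> simp <;> ring
      simp only [this]
      rw [Finset.sum_sub_distrib, h1]
      simp
      ring
    rw [h2]; exact ht0


theorem deriv_formula {m : ℕ} (A : Matrix (Fin m) (Fin m) ℝ) (t : ℝ)
    (h : (t • (1 : Matrix (Fin m) (Fin m) ℝ) - A).det ≠ 0) :
    (derivative A.charpoly).eval t = (adjugate (t • (1 : Matrix (Fin m) (Fin m) ℝ) - A)).trace := by
  set M := t • (1 : Matrix (Fin m) (Fin m) ℝ) - A with hM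
  have hu : IsUnit M.det := isUnit_iff_ne_zero.mpr h
  have key : A.charpoly.comp (X + C t) = C M.det * det (1 + (X : ℝ[X]) • (M⁻¹).map C) := by
    apply Polynomial.funext
    intro ε
    rw [eval_comp, eval_mul, eval_C, Matrix.eval_charpoly]
    have h1 : (det (1 + (X : ℝ[X]) • (M⁻¹).map C)).eval ε = det (1 + ε • M⁻¹) := by
      rw [← Polynomial.coe_evalRingHom, RingHom.map_det]
      congr 1
      ext i j
      simp [Matrix.one_apply]
      split_ifs <;> simp [mul_comm]
    rw [h1, ← det_mul]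
    congr 1
    rw [mul_add, mul_one, Matrix.mul_smul, Matrix.mul_nonsing_inv _ hu, hM]
    ext i j
    simp [Matrix.one_apply, Matrix.scalar_apply, Matrix.diagonal_apply]
    split_ifs <;> ring
  have h2 := congrArg (fun q : ℝ[X] => (derivative q).eval 0) key
  simp only [derivative_comp, derivative_mul, derivative_C, zero_mul, zero_add, eval_mul, eval_C,
    eval_comp, derivative_add, derivative_X, add_zero, eval_one, eval_add, eval_X, one_mul,
    derivative_det_one_add_X_smul] at h2
  rw [h2, Matrix.inv_def, Matrix.trace_smul, smul_eq_mul, ← mul_assoc,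
    Ring.mul_inverse_cancel _ hu, one_mul]

theorem deriv_le {n : ℕ} (A : Matrix (Fin (n + 1)) (Fin (n + 1)) ℝ) (hA : ∀ i j, 0 ≤ A i j)
    (hB : ∀ z ∈ (A.map (algebraMap ℝ ℂ)).charpoly.roots, ‖z‖ ≤ 1) (t : ℝ) (ht : 1 < t) :
    (derivative A.charpoly).eval t ≤ ∑ i : Fin (n + 1), ∏ j : Fin n, (t - A (i.succAbove j) (i.succAbove j)) ∧
    ∀ i, A i i < t := by
  obtain ⟨x, hx, hdom⟩ := exists_x A hA hB t ht
  set M := t • (1 : Matrix (Fin (n + 1)) (Fin (n + 1)) ℝ) - A with hM
  have hoff : ∀ i j, i ≠ j → M i j ≤ 0 := by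
    intro i j hij
    rw [hM, Matrix.sub_apply, Matrix.smul_apply, Matrix.one_apply_ne hij]
    simp; exact hA i j
  have hdiag : ∀ i, M i i = t - A i i := by
    intro i; rw [hM, Matrix.sub_apply, Matrix.smul_apply, Matrix.one_apply_eq]; simp
  obtain ⟨h1, h2, h3⟩ := hadamard (n + 1) M x hoff hx hdom
  refine ⟨?_, fun i => by have := h3 i; rw [hdiag] at this; linarith⟩
  rw [deriv_formula A t h1.ne', Matrix.trace]
  apply Finset.sum_le_sum
  intro i _
  rw [Matrix.diag_apply, Matrix.adjugate_fin_succ_eq_det_submatrix]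
  have hsign : ((-1 : ℝ) ^ (i.val + i.val)) = 1 := by
    rw [← two_mul, pow_mul]; norm_num
  rw [hsign, one_mul]
  have hsub := hadamard n (M.submatrix i.succAbove i.succAbove) (fun j => x (i.succAbove j))
    (fun a b hab => hoff _ _ (fun h => hab (Fin.succAbove_right_injective h)))
    (fun a => hx _)
    (by
      intro a
      have h4 := hdom (i.succAbove a)
      rw [Fin.sum_univ_succAbove _ i] at h4
      have h5 : M (i.succAbove a) i * x i ≤ 0 :=
        mul_nonpos_of_nonpos_of_nonneg (hoff _ _ (Fin.succAbove_ne i a)) (hx i).le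
      simp only [Matrix.submatrix_apply]
      linarith)
  refine le_trans hsub.2.1 (le_of_eq ?_)
  apply Finset.prod_congr rfl
  intro j _
  rw [Matrix.submatrix_apply, hdiag]

theorem real_ineq {n : ℕ} (hn : 1 ≤ n) (A : Matrix (Fin (n + 1)) (Fin (n + 1)) ℝ)
    (hA : ∀ i j, 0 ≤ A i j)
    (hB : ∀ z ∈ (A.map (algebraMap ℝ ℂ)).charpoly.roots, ‖z‖ ≤ 1) :
    (derivative A.charpoly).eval 1 ≤ ∑ i, (1 - A i i) := by
  have hlim1 : Filter.Tendsto (fun t => (derivative A.charpoly).eval t) (nhdsWithin 1 (Set.Ioi 1))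
      (nhds ((derivative A.charpoly).eval 1)) :=
    ((derivative A.charpoly).continuous.tendsto 1).mono_left nhdsWithin_le_nhds
  have hlim2 : Filter.Tendsto
      (fun t : ℝ => ∑ i : Fin (n + 1), ∏ j : Fin n, (t - A (i.succAbove j) (i.succAbove j)))
      (nhdsWithin 1 (Set.Ioi 1))
      (nhds (∑ i : Fin (n + 1), ∏ j : Fin n, ((1 : ℝ) - A (i.succAbove j) (i.succAbove j)))) := by
    have hc : Continuous (fun t : ℝ => ∑ i : Fin (n + 1), ∏ j : Fin n, (t - A (i.succAbove j) (i.succAbove j))) := by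
      fun_prop
    exact (hc.tendsto 1).mono_left nhdsWithin_le_nhds
  have h1 : (derivative A.charpoly).eval 1 ≤
      ∑ i : Fin (n + 1), ∏ j : Fin n, ((1 : ℝ) - A (i.succAbove j) (i.succAbove j)) := by
    apply le_of_tendsto_of_tendsto hlim1 hlim2
    filter_upwards [self_mem_nhdsWithin] with t ht
    exact (deriv_le A hA hB t ht).1
  have hle1 : ∀ i, A i i ≤ 1 := by
    intro i
    by_contra hcon
    push Not at hcon
    have := (deriv_le A hA hB (A i i) hcon).2 i
    exact lt_irrefl _ this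
  refine h1.trans ?_
  have h2 : ∀ i : Fin (n + 1), ∏ j : Fin n, ((1 : ℝ) - A (i.succAbove j) (i.succAbove j))
      ≤ 1 - A (i + 1) (i + 1) := by
    intro i
    have hne : i + 1 ≠ i := by
      intro h
      have h0 : (1 : Fin (n + 1)) = 0 := by
        have : i + 1 = i + 0 := by rw [h, add_zero]
        exact add_left_cancel this
      have := congrArg Fin.val h0
      rw [Fin.val_one', Fin.val_zero, Nat.mod_eq_of_lt (by omega)] at this
      omega
    obtain ⟨l, hl⟩ := Fin.exists_succAbove_eq hne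
    rw [← Finset.mul_prod_erase _ _ (Finset.mem_univ l), hl]
    have hd0 : 0 ≤ 1 - A (i + 1) (i + 1) := by linarith [hle1 (i + 1)]
    have hpr : ∏ x ∈ Finset.univ.erase l, ((1 : ℝ) - A (i.succAbove x) (i.succAbove x)) ≤ 1 := by
      apply Finset.prod_le_one
      · intro x _; linarith [hle1 (i.succAbove x)]
      · intro x _; linarith [hA (i.succAbove x) (i.succAbove x)]
    exact mul_le_of_le_one_right hd0 hpr
  calc ∑ i : Fin (n + 1), ∏ j : Fin n, ((1 : ℝ) - A (i.succAbove j) (i.succAbove j))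
      ≤ ∑ i, (1 - A (i + 1) (i + 1)) := Finset.sum_le_sum fun i _ => h2 i
    _ = ∑ i, (1 - A i i) := Equiv.sum_comp (Equiv.addRight (1 : Fin (n + 1))) (fun i => 1 - A i i)

/-- For every nonnegative real (n+1)×(n+1) matrix (n ≥ 1) with spectral radius 1, listing its eigenvalues with multiplicity as 1, λ₁,…,λₙ, the product of the (1−λⱼ) is at most their sum. -/
theorem result :
    ∀ n : ℕ, 1 ≤ n → ∀ A : Matrix (Fin (n + 1)) (Fin (n + 1)) ℝ,
      (∀ i j, 0 ≤ A i j) →
      (1 : ℂ) ∈ (A.map (algebraMap ℝ ℂ)).charpoly.roots →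
      (∀ z ∈ (A.map (algebraMap ℝ ℂ)).charpoly.roots, ‖z‖ ≤ 1) →
      ((((A.map (algebraMap ℝ ℂ)).charpoly.roots).erase 1).map (fun z : ℂ => 1 - z)).prod
        ≤ ((((A.map (algebraMap ℝ ℂ)).charpoly.roots).erase 1).map (fun z : ℂ => 1 - z)).sum := by
  intro n hn A hA h1 hB
  have hreal := real_ineq hn A hA hB
  set B := A.map (algebraMap ℝ ℂ) with hBdef
  have hcp : B.charpoly = A.charpoly.map (algebraMap ℝ ℂ) := Matrix.charpoly_map A _
  have hsplit : B.charpoly = (B.charpoly.roots.map (fun a => X - C a)).prod :=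
    (IsAlgClosed.splits B.charpoly).eq_prod_roots_of_monic (Matrix.charpoly_monic B)
  have hroots : B.charpoly.roots = 1 ::ₘ (B.charpoly.roots.erase 1) := (Multiset.cons_erase h1).symm
  set R := B.charpoly.roots.erase 1 with hR
  have hfac : B.charpoly = (X - C 1) * (R.map (fun a => X - C a)).prod := by
    rw [hsplit, hroots, Multiset.map_cons, Multiset.prod_cons]
  have hprod : (R.map (fun z : ℂ => 1 - z)).prod = (((derivative A.charpoly).eval 1 : ℝ) : ℂ) := by
    have e1 : (derivative B.charpoly).eval 1 = (R.map (fun z : ℂ => 1 - z)).prod := by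
      rw [hfac, derivative_mul]
      simp only [derivative_sub, derivative_X, derivative_C, sub_zero, one_mul, eval_add, eval_mul,
        eval_sub, eval_X, eval_C, sub_self, zero_mul, add_zero]
      rw [← Polynomial.coe_evalRingHom, map_multiset_prod, Multiset.map_map]
      simp
    rw [← e1, hcp, derivative_map]
    have : (1 : ℂ) = algebraMap ℝ ℂ 1 := by simp
    rw [this, eval_map_algebraMap, aeval_algebraMap_apply]
    simp [aeval_def, eval₂_eq_eval_map]
  have hsum : (R.map (fun z : ℂ => 1 - z)).sum = ((∑ i, (1 - A i i) : ℝ) : ℂ) := by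
    have hcard : Multiset.card B.charpoly.roots = n + 1 := by
      rw [← (IsAlgClosed.splits B.charpoly).natDegree_eq_card_roots, Matrix.charpoly_natDegree_eq_dim,
        Fintype.card_fin]
    have htr : B.trace = B.charpoly.roots.sum := Matrix.trace_eq_sum_roots_charpoly B
    have e1 : (B.charpoly.roots.map (fun z : ℂ => 1 - z)).sum = (n + 1 : ℂ) - B.trace := by
      rw [Multiset.sum_map_sub, Multiset.map_const', Multiset.sum_replicate, hcard, Multiset.map_id', htr]
      simp
    have e2 : (B.charpoly.roots.map (fun z : ℂ => 1 - z)).sum = (R.map (fun z : ℂ => 1 - z)).sum := by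
      rw [hroots, Multiset.map_cons, Multiset.sum_cons]; simp
    rw [← e2, e1, Finset.sum_sub_distrib, Matrix.trace]
    simp [hBdef]
  rw [hprod, hsum]
  exact_mod_cast hreal

end Pool.Agent.S01091
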