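import Pool.Agent.UnivNil

set_option autoImplicit false

namespace Pool.Agent.UnivNil

open MonoidAlgebra Pool.Agent.GS Pool.Agent.NilRep

noncomputable section

/-- a stage of the construction -/
structure St (r : ℕ → A) where
  D : ℕ
  rel : ℕ → A
  hD : ∀ i, D < i → rel i = 0
  good : GoodRel r rel

theorem eps_z (k : ℕ) (hk : 0 < k) : eps (z k) = 0 := by
  rw [eps_coeff]
  by_contra h
  have := z_homog k 1 h
  rw [FreeMonoid.length_one] at this
  omega

theorem step {r : ℕ → A} (hr : ∀ i, Homog i (r i)) (hr0 : r 0 = 0) (hr1 : r 1 = 0)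
    (hnil : ∀ a : A, a.coeff 1 = 0 → ∃ (N : ℕ) (s : Finset ℕ), a ^ N = ∑ n ∈ s, r n)
    {U : Type} [Ring U] [Algebra ℚ U] (S : St r) (g : A) (hg : eps g = 0) (e : A →ₐ[ℚ] U)
    (he : ∀ a, eps a = 0 → ∃ n, (e a) ^ n = 0) :
    ∃ S' : St r, ∃ D' M k n : ℕ, S.D ≤ D' ∧ D' < S'.D ∧ (∀ i, i ≤ D' → S'.rel i = S.rel i) ∧
      g ^ M = ∑ i ∈ Finset.Icc (D' + 1) S'.D, S'.rel i ∧ 2 * k * n ≤ D' ∧ (e (z k)) ^ n = 0 ∧
      ∃ f ∈ V S.rel (2 * k * n), ext f (z k ^ n) ≠ 0 := by
  obtain ⟨k, hk, hkn⟩ := node hr hr0 hr1 S.rel S.D S.hD S.good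
  obtain ⟨n, hn⟩ := he (z k) (eps_z k hk)
  obtain ⟨f, hf, hf'⟩ := hkn n
  have hg1 : g.coeff 1 = 0 := by rw [← eps_coeff]; exact hg
  obtain ⟨μ, s, hμ⟩ := hnil g hg1
  obtain ⟨δ, hδ0⟩ := exists_len g
  have hδ : Len 1 δ g := by
    intro w hw
    refine ⟨?_, (hδ0 w hw).2⟩
    by_contra hlt
    have h0 : w.length = 0 := by omega
    have h1 : w = 1 := FreeMonoid.length_eq_zero.mp h0
    rw [h1] at hw
    exact hw hg1
  let D' := max S.D (2 * k * n)
  let M := max (D' + 1) (2 * μ)
  let D'' := max (D' + 1) (M * δ)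
  have hD1 : S.D ≤ D' := le_max_left _ _
  have hD2 : 2 * k * n ≤ D' := le_max_right _ _
  have hM1 : D' + 1 ≤ M := le_max_left _ _
  have hM2 : 2 * μ ≤ M := le_max_right _ _
  have hD3 : D' + 1 ≤ D'' := le_max_left _ _
  have hD4 : M * δ ≤ D'' := le_max_right _ _
  have hlen0 := Len_pow hδ M
  rw [mul_one] at hlen0
  have hlen : Len (D' + 1) D'' (g ^ M) := by
    intro w hw
    have := hlen0 w hw
    omega
  refine ⟨⟨D'', fun i => if i ≤ D' then S.rel i else homc i (g ^ M), ?_, ?_⟩, D', M, k, n, hD1, ?_, ?_, ?_, hD2,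
    hn, f, hf, hf'⟩
  · intro i hi
    rw [if_neg (by omega)]
    exact homc_len hlen hi
  · intro i
    by_cases h : i ≤ D'
    · simp only [if_pos h]
      exact S.good i
    · simp only [if_neg h]
      exact Or.inr ⟨g, μ, M, s, hμ, hM2, rfl⟩
  · exact hD3
  · intro i hi
    simp only [if_pos hi]
  · conv_lhs => rw [sum_homc hlen]
    apply Finset.sum_congr rfl
    intro i hi
    rw [Finset.mem_Icc] at hi
    simp only
    rw [if_neg (by omega)]

/-- the full construction -/
theorem diag {r : ℕ → A} (hr : ∀ i, Homog i (r i)) (hr0 : r 0 = 0) (hr1 : r 1 = 0)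
    (hnil : ∀ a : A, a.coeff 1 = 0 → ∃ (N : ℕ) (s : Finset ℕ), a ^ N = ∑ n ∈ s, r n)
    {U : Type} [Ring U] [Algebra ℚ U] (e : ℕ → (A →ₐ[ℚ] U))
    (he : ∀ j a, eps a = 0 → ∃ n, (e j a) ^ n = 0) :
    ∃ rel : ℕ → A, (∀ a : A, eps a = 0 → ∃ (M : ℕ) (s : Finset ℕ), a ^ M = ∑ i ∈ s, rel i) ∧
      ∀ j, ∃ (q : A) (f : W → ℚ), e j q = 0 ∧ (∀ i a b, ext f (m a * rel i * m b) = 0) ∧ ext f q ≠ 0 := by
  have hcount : Countable A := by
    have : Countable (W →₀ ℚ) := inferInstance
    exact (MonoidAlgebra.coeff_injective (R := ℚ) (M := W)).countable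
  have hex : ∃ g : ℕ → {a : A // eps a = 0}, Function.Surjective g := by
    have : Nonempty {a : A // eps a = 0} := ⟨⟨0, by simp⟩⟩
    exact exists_surjective_nat _
  obtain ⟨g, hg⟩ := hex
  have hstep := fun (j : ℕ) (S : St r) => step hr hr0 hr1 hnil S (g j).1 (g j).2 (e j) (he j)
  choose nxt D' M k n h1 h2 h3 h4 h5 h6 h7 using hstep
  let S0 : St r := ⟨0, fun _ => 0, fun _ _ => rfl, fun _ => Or.inl rfl⟩
  let S : ℕ → St r := fun j => Nat.rec S0 (fun j Sj => nxt j Sj) j
  have hS : ∀ j, S (j + 1) = nxt j (S j) := fun j => rfl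
  have hDlt : ∀ j, (S j).D < (S (j + 1)).D := by
    intro j
    rw [hS]
    exact lt_of_le_of_lt (h1 j (S j)) (h2 j (S j))
  have hDmono : StrictMono (fun j => (S j).D) := strictMono_nat_of_lt_succ hDlt
  have hDge : ∀ j, j ≤ (S j).D := fun j => hDmono.id_le j
  have hstab : ∀ j d i, i ≤ (S j).D → (S (j + d)).rel i = (S j).rel i := by
    intro j d
    induction d with
    | zero => intro i _; rfl
    | succ d ih =>
      intro i hi
      rw [← ih i hi, ← add_assoc, hS]
      apply h3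
      refine le_trans hi (le_trans ?_ (h1 _ _))
      exact hDmono.monotone (Nat.le_add_right _ _)
  let rel : ℕ → A := fun i => (S i).rel i
  have hrel : ∀ j i, i ≤ (S j).D → rel i = (S j).rel i := by
    intro j i hi
    rcases le_total i j with h | h
    · obtain ⟨d, rfl⟩ := Nat.exists_eq_add_of_le h
      exact (hstab i d i (hDge i)).symm
    · obtain ⟨d, rfl⟩ := Nat.exists_eq_add_of_le h
      exact hstab j d _ hi
  have hhom : ∀ i, Homog i (rel i) := by
    intro i
    rcases (S i).good i with h | ⟨g, μ, M, s, h1, h2, h3⟩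
    · change Homog i ((S i).rel i)
      rw [h]; intro w hw; simp at hw
    · change Homog i ((S i).rel i)
      rw [h3]; exact homc_homog _ _
  refine ⟨rel, ?_, ?_⟩
  · intro a ha
    obtain ⟨j, hj⟩ := hg ⟨a, ha⟩
    refine ⟨M j (S j), Finset.Icc (D' j (S j) + 1) (nxt j (S j)).D, ?_⟩
    have h8 := h4 j (S j)
    rw [hj] at h8
    simp only at h8
    rw [h8]
    apply Finset.sum_congr rfl
    intro i hi
    rw [Finset.mem_Icc] at hi
    rw [hrel (j + 1) i (by rw [hS]; exact hi.2), hS]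
  · intro j
    obtain ⟨f, hf, hf'⟩ := h7 j (S j)
    refine ⟨z (k j (S j)) ^ (n j (S j)), f, ?_, ?_, hf'⟩
    · rw [map_pow]; exact h6 j (S j)
    · intro i a b
      by_cases hi : i ≤ D' j (S j)
      · have : rel i = (S j).rel i := by
          rw [hrel (j + 1) i (by rw [hS]; exact le_trans hi (h2 j (S j)).le), hS]
          exact h3 j (S j) i hi
        rw [this]
        exact V_rel hf i a b
      · apply ext_homog (homog_mul (homog_mul (homog_m a) (hhom i)) (homog_m b)) hf.1
        have := h5 j (S j)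
        omega

/-! ### the algebra -/

/-- functionals killing the relations -/
def VV (rel : ℕ → A) : Submodule ℚ (W → ℚ) where
  carrier := {f | ∀ i a b, ext f (m a * rel i * m b) = 0}
  add_mem' := by
    intro f g hf hg i a b
    rw [ext_add_left, hf, hg, add_zero]
  zero_mem' := by
    intro i a b
    have : ext (0 : W → ℚ) (m a * rel i * m b) = ext ((0 : ℚ) • (0 : W → ℚ)) (m a * rel i * m b) := by simp
    rw [this, ext_smul_left, zero_mul]
  smul_mem' := by
    intro q f hf i a b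
    rw [ext_smul_left, hf, mul_zero]

theorem ext_shift (f : W → ℚ) (x : W) (a : A) : ext (fun w => f (w * x)) a = ext f (a * m x) := by
  induction a using MonoidAlgebra.induction_linear with
  | zero => simp
  | add a b ha hb => rw [map_add, add_mul, map_add, ha, hb]
  | single w c =>
    have h1 : (MonoidAlgebra.single w c : A) = c • m w := by simp [m]
    rw [h1, map_smul, ext_m, smul_mul_assoc, map_smul, ← m_mul, ext_m]

def XX (rel : ℕ → A) (x : Fin 3) : Module.End ℚ (VV rel) where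
  toFun f := ⟨fun w => f.1 (w * FreeMonoid.of x), by
    intro i a b
    rw [ext_shift, mul_assoc, ← m_mul]
    exact f.2 i a _⟩
  map_add' f g := rfl
  map_smul' q f := rfl

def Th (rel : ℕ → A) : A →ₐ[ℚ] Module.End ℚ (VV rel) :=
  MonoidAlgebra.lift ℚ (Module.End ℚ (VV rel)) W (FreeMonoid.lift (XX rel))

theorem Th_m (rel : ℕ → A) (v : W) : ∀ (f : VV rel) (w : W), (Th rel (m v) f).1 w = f.1 (w * v) := by
  induction v using FreeMonoid.inductionOn' with
  | one => intro f w; rw [m_one, map_one]; simp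
  | of_mul x v ih =>
    intro f w
    rw [m_mul, map_mul, Module.End.mul_apply]
    have h1 : Th rel (m (FreeMonoid.of x)) = XX rel x := by simp [Th, m]
    rw [h1]
    change (Th rel (m v) f).1 (w * FreeMonoid.of x) = _
    rw [ih, mul_assoc]

theorem Th_apply (rel : ℕ → A) (a : A) (f : VV rel) (w : W) : (Th rel a f).1 w = ext f.1 (m w * a) := by
  induction a using MonoidAlgebra.induction_linear with
  | zero => simp
  | add a b ha hb =>
    rw [map_add, LinearMap.add_apply, mul_add, map_add, ← ha, ← hb]; rfl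
  | single v c =>
    have h1 : (MonoidAlgebra.single v c : A) = c • m v := by simp [m]
    rw [h1, map_smul, mul_smul_comm, map_smul, ← m_mul, ext_m, ← Th_m rel v f w]; rfl

/-- type synonym for the endomorphism ring -/
def EE (rel : ℕ → A) : Type := Module.End ℚ (VV rel)
instance instRingEE (rel : ℕ → A) : Ring (EE rel) := inferInstanceAs (Ring (Module.End ℚ (VV rel)))
instance instAlgEE (rel : ℕ → A) : Algebra ℚ (EE rel) := inferInstanceAs (Algebra ℚ (Module.End ℚ (VV rel)))

/-- the action, with values in the type synonym -/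
def Te (rel : ℕ → A) : A →ₐ[ℚ] EE rel := Th rel

theorem Te_eq (rel : ℕ → A) (a : A) : Te rel a = (Th rel a : Module.End ℚ (VV rel)) := rfl

def BB (rel : ℕ → A) : NonUnitalSubalgebra ℚ (EE rel) where
  carrier := {e | ∃ a : A, eps a = 0 ∧ e = Te rel a}
  add_mem' := by
    rintro _ _ ⟨a, ha, rfl⟩ ⟨b, hb, rfl⟩
    exact ⟨a + b, by simp [ha, hb], by simp⟩
  zero_mem' := ⟨0, by simp, by simp⟩
  mul_mem' := by
    rintro _ _ ⟨a, ha, rfl⟩ ⟨b, hb, rfl⟩
    exact ⟨a * b, by simp [ha], by simp⟩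
  smul_mem' := by
    rintro q _ ⟨a, ha, rfl⟩
    exact ⟨q • a, by simp [ha], by simp⟩

theorem BB_countable (rel : ℕ → A) : Countable (BB rel) := by
  have hcount : Countable A := by
    have : Countable (W →₀ ℚ) := inferInstance
    exact (MonoidAlgebra.coeff_injective (R := ℚ) (M := W)).countable
  let φ : {a : A // eps a = 0} → BB rel := fun a => ⟨Te rel a.1, a.1, a.2, rfl⟩
  have hφ : Function.Surjective φ := by
    rintro ⟨_, a, ha, rfl⟩
    exact ⟨⟨a, ha⟩, rfl⟩
  exact hφ.countable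

theorem iter_pow (rel : ℕ → A) (b : BB rel) (n : ℕ) :
    (((fun x : BB rel => b * x)^[n] b : BB rel) : EE rel) = (b : EE rel) ^ (n + 1) := by
  induction n with
  | zero => simp
  | succ n ih =>
    rw [Function.iterate_succ_apply', pow_succ', ← ih]
    rfl

theorem BB_nil (rel : ℕ → A)
    (h : ∀ a : A, eps a = 0 → ∃ (M : ℕ) (s : Finset ℕ), a ^ M = ∑ i ∈ s, rel i) (b : BB rel) :
    ∃ n : ℕ, (fun x : BB rel => b * x)^[n] b = 0 := by
  obtain ⟨a, ha, hb⟩ := b.2
  obtain ⟨M, s, hM⟩ := h a ha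
  refine ⟨M, ?_⟩
  apply Subtype.ext
  rw [iter_pow, hb, pow_succ, ← map_pow, hM, map_sum]
  have : ∑ i ∈ s, Te rel (rel i) = 0 := by
    apply Finset.sum_eq_zero
    intro i _
    change Th rel (rel i) = 0
    apply LinearMap.ext
    intro f
    apply Subtype.ext
    funext w
    rw [Th_apply]
    have := f.2 i w 1
    rw [m_one, mul_one] at this
    rw [this]; rfl
  rw [this, zero_mul]; rfl

end

end Pool.Agent.UnivNil
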