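import Pool.Statements.S01228
import Pool.Agent.UnivNil2

set_option autoImplicit false
open Pool Pool.MP_734462_al

namespace Pool.Agent.S01228

section univ

variable {A' : Type} [NonUnitalRing A'] [Module ℚ A'] [IsScalarTower ℚ A' A'] [SMulCommClass ℚ A' A']

/-- evaluation of noncommutative polynomials in the unitization -/
noncomputable def ev (a : Fin 3 → A') : MonoidAlgebra ℚ (FreeMonoid (Fin 3)) →ₐ[ℚ] Unitization ℚ A' :=
  MonoidAlgebra.lift ℚ (Unitization ℚ A') (FreeMonoid (Fin 3)) (FreeMonoid.lift (fun i => (a i : Unitization ℚ A')))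

theorem fst_ev (a : Fin 3 → A') (p : MonoidAlgebra ℚ (FreeMonoid (Fin 3))) :
    (ev a p).fst = Pool.Agent.NilRep.eps p := by
  have : (Unitization.fstHom ℚ A').comp (ev a) = Pool.Agent.NilRep.eps := by
    apply MonoidAlgebra.algHom_ext'
    · apply FreeMonoid.hom_eq
      intro x
      simp [ev, Pool.Agent.NilRep.eps]
    · exact Subsingleton.elim _ _
  exact congrArg (fun φ : MonoidAlgebra ℚ (FreeMonoid (Fin 3)) →ₐ[ℚ] ℚ => φ p) this

theorem inr_pow (b : A') (n : ℕ) :
    (b : Unitization ℚ A') ^ (n + 1) = (((fun x : A' => b * x)^[n] b : A') : Unitization ℚ A') := by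
  induction n with
  | zero => simp
  | succ n ih =>
    rw [Function.iterate_succ_apply', pow_succ', ih, Unitization.inr_mul]

theorem ev_nil (hnil : ∀ a : A', ∃ n : ℕ, (fun x : A' => a * x)^[n] a = 0) (a : Fin 3 → A')
    (p : MonoidAlgebra ℚ (FreeMonoid (Fin 3))) (hp : Pool.Agent.NilRep.eps p = 0) : ∃ n, (ev a p) ^ n = 0 := by
  have h1 : ev a p = (((ev a p).snd : A') : Unitization ℚ A') := by
    apply Unitization.ext
    · rw [fst_ev, hp]; simp
    · simp
  obtain ⟨n, hn⟩ := hnil (ev a p).snd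
  refine ⟨n + 1, ?_⟩
  rw [h1, inr_pow, hn, Unitization.inr_zero]

end univ

/-- The negation of the preceding statement: For every field F there is an associative nil F-algebra A of at most countable dimension such that every nil F-algebra of at most countable dimension is the image of a surjective algebra homomorphism from A. -/
theorem result :
    ¬ (∀ (F : Type) [Field F],
      ∃ (A : Type) (_instR : NonUnitalRing A) (_instM : Module F A)
        (_instT : IsScalarTower F A A) (_instC : SMulCommClass F A A),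
        (∀ a : A, ∃ n : ℕ, (fun x : A => a * x)^[n] a = 0) ∧
        Module.rank F A ≤ Cardinal.aleph0 ∧
        ∀ (B : Type) [NonUnitalRing B] [Module F B] [IsScalarTower F B B]
          [SMulCommClass F B B],
          (∀ b : B, ∃ n : ℕ, (fun x : B => b * x)^[n] b = 0) →
          Module.rank F B ≤ Cardinal.aleph0 →
            ∃ f : A →ₙₐ[F] B, Function.Surjective f) := by
  intro H
  obtain ⟨A', instR, instM, instT, instC, hnilA, hrank, huniv⟩ := H ℚ
  have hcA : Countable A' := by
    have hb := (Module.Basis.ofVectorSpace ℚ A')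
    have h1 : Cardinal.mk (Module.Basis.ofVectorSpaceIndex ℚ A') ≤ Cardinal.aleph0 := by
      rw [Module.Basis.mk_eq_rank'' hb]; exact hrank
    have h2 : Countable (Module.Basis.ofVectorSpaceIndex ℚ A') := Cardinal.mk_le_aleph0_iff.mp h1
    have h3 : Countable (Module.Basis.ofVectorSpaceIndex ℚ A' →₀ ℚ) := inferInstance
    exact hb.repr.toEquiv.countable_iff.mpr h3
  obtain ⟨enum, henum⟩ := exists_surjective_nat (Fin 3 → A')
  obtain ⟨r, hr, hr0, hr1, hnil⟩ := Pool.Agent.GS.exists_rel (k := ℚ)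
  obtain ⟨rel, hrel1, hrel2⟩ := Pool.Agent.UnivNil.diag hr hr0 hr1 hnil (fun j => ev (enum j))
    (fun j a ha => ev_nil hnilA (enum j) a ha)
  have hBrank : Module.rank ℚ (Pool.Agent.UnivNil.BB rel) ≤ Cardinal.aleph0 := by
    have := Pool.Agent.UnivNil.BB_countable rel
    exact (rank_le_card ℚ _).trans (Cardinal.mk_le_aleph0_iff.mpr this)
  obtain ⟨f, hf⟩ := huniv (Pool.Agent.UnivNil.BB rel) (Pool.Agent.UnivNil.BB_nil rel hrel1) hBrank
  have hgen : ∀ i : Fin 3, ∃ a : A', ((f a : Pool.Agent.UnivNil.BB rel) : Pool.Agent.UnivNil.EE rel) =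
      Pool.Agent.UnivNil.Te rel (Pool.Agent.GS.m (FreeMonoid.of i)) := by
    intro i
    obtain ⟨a, ha⟩ := hf ⟨Pool.Agent.UnivNil.Te rel (Pool.Agent.GS.m (FreeMonoid.of i)), _, Pool.Agent.NilRep.eps_m _ (by
      intro h
      have := congrArg FreeMonoid.length h
      simp at this), rfl⟩
    exact ⟨a, by rw [ha]⟩
  choose a ha using hgen
  obtain ⟨j, hj⟩ := henum a
  obtain ⟨q, φ, hq, hφ, hφq⟩ := hrel2 j
  simp only [hj] at hq
  let Fh : Unitization ℚ A' →ₐ[ℚ] Pool.Agent.UnivNil.EE rel :=
    Unitization.lift ((NonUnitalSubalgebraClass.subtype (Pool.Agent.UnivNil.BB rel)).comp f)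
  have hcomp : Fh.comp (ev a) = Pool.Agent.UnivNil.Te rel := by
    apply MonoidAlgebra.algHom_ext'
    rotate_left
    · exact Subsingleton.elim _ _
    · apply FreeMonoid.hom_eq
      intro x
      have h2 := ha x
      have h3 : (MonoidAlgebra.of ℚ (FreeMonoid (Fin 3)) (FreeMonoid.of x)) =
        Pool.Agent.GS.m (FreeMonoid.of x) := rfl
      have h4 : ev a (Pool.Agent.GS.m (FreeMonoid.of x)) = ((a x : A') : Unitization ℚ A') := by
        simp [ev, Pool.Agent.GS.m]
      have h5 : Fh ((a x : A') : Unitization ℚ A') = ((f (a x) : Pool.Agent.UnivNil.BB rel) : Pool.Agent.UnivNil.EE rel) := by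
        simp [Fh]
      change Fh (ev a (Pool.Agent.GS.m (FreeMonoid.of x))) =
        Pool.Agent.UnivNil.Te rel (Pool.Agent.GS.m (FreeMonoid.of x))
      rw [h4, h5, h2]
  have h0 : Pool.Agent.UnivNil.Te rel q = 0 := by
    rw [← hcomp, AlgHom.comp_apply, hq, map_zero]
  have h0' : Pool.Agent.UnivNil.Th rel q = 0 := h0
  have h1 := Pool.Agent.UnivNil.Th_apply rel q ⟨φ, hφ⟩ 1
  rw [h0', Pool.Agent.GS.m_one, one_mul] at h1
  exact hφq h1.symm

end Pool.Agent.S01228
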