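import Pool.Statements.S01626
import Pool.Agent.NilRep

set_option autoImplicit false
open Pool Pool.MP_99e35a_al

namespace Pool.Agent.S01626

/-- The negation of the preceding statement: For any group G and char-0 field k, any nonzero k-representation V with no invariant subspaces besides 0 and V, in which each g−1 is nilpotent on each vector, has G acting as the identity. -/
theorem result :
    ¬ (∀ (k : Type) [Field k] [CharZero k] (G : Type) [Group G]
      (V : Type) [AddCommGroup V] [Module k V] (ρ : Representation k G V),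
      Nontrivial V →
      (∀ W : Submodule k V, (∀ g : G, ∀ v ∈ W, ρ g v ∈ W) → W = ⊥ ∨ W = ⊤) →
      (∀ g : G, ∀ v : V, ∃ n : ℕ, ((ρ g - 1) ^ n) v = 0) →
      ∀ g : G, ρ g = 1) := by
  intro H
  obtain ⟨r, hr, hr0, hr1, hnil⟩ := Pool.Agent.GS.exists_rel (k := ℚ)
  obtain ⟨P, hP, hJ⟩ := Ideal.exists_le_maximal _ (Pool.Agent.NilRep.J_ne_top hr hr0 hr1)
  have hPc : IsCoatom P := hP.out
  have hsimple : IsSimpleModule Pool.Agent.NilRep.T (Pool.Agent.NilRep.T ⧸ P) :=
    isSimpleModule_iff_isCoatom.mpr hPc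
  have hLz : ∀ i (v : Pool.Agent.NilRep.T ⧸ P), Pool.Agent.NilRep.L (r i) • v = 0 := by
    intro i v
    induction v using Submodule.Quotient.induction_on with
    | _ t =>
      rw [← Submodule.Quotient.mk_smul, Submodule.Quotient.mk_eq_zero]
      exact hJ (Ideal.subset_span (Or.inl (Or.inl ⟨i, t, rfl⟩)))
  have hRz : ∀ i (v : Pool.Agent.NilRep.T ⧸ P), Pool.Agent.NilRep.R (r i) • v = 0 := by
    intro i v
    induction v using Submodule.Quotient.induction_on with
    | _ t =>
      rw [← Submodule.Quotient.mk_smul, Submodule.Quotient.mk_eq_zero]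
      exact hJ (Ideal.subset_span (Or.inl (Or.inr ⟨i, t, rfl⟩)))
  have hv0 : (Submodule.Quotient.mk (1 : Pool.Agent.NilRep.T) : Pool.Agent.NilRep.T ⧸ P) ≠ 0 := by
    rw [Ne, Submodule.Quotient.mk_eq_zero]
    intro h1
    exact hPc.1 ((Ideal.eq_top_iff_one P).mpr h1)
  have hu : Pool.Agent.NilRep.u • (Submodule.Quotient.mk (1 : Pool.Agent.NilRep.T) : Pool.Agent.NilRep.T ⧸ P) =
      Submodule.Quotient.mk (1 : Pool.Agent.NilRep.T) := by
    rw [← Submodule.Quotient.mk_smul, smul_eq_mul, mul_one, eq_comm, Submodule.Quotient.eq]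
    exact hJ (Ideal.subset_span (Or.inr rfl))
  exact Pool.Agent.NilRep.final (M := Pool.Agent.NilRep.T ⧸ P)
    (fun a ha => Pool.Agent.NilRep.nilX _ hnil hLz a ha)
    (fun a ha => Pool.Agent.NilRep.nilX _ hnil hRz a ha) hsimple _ hv0 hu H

end Pool.Agent.S01626
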