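import Pool.Statements.S01699
import Pool.Agent.PrimC

set_option autoImplicit false
open Pool Pool.MP_a23033_al

namespace Pool.Agent.S01699

/-- There is a variety of groups (given by laws), a rank r, and an element h of the relatively free group of rank r that is not primitive, together with an injective endomorphism of that group sending h to a primitive element. -/
theorem result :
    ∃ (W : Set (FreeGroup ℕ)) (r : ℕ) (V : Subgroup (FreeGroup (Fin r))),
      V = Subgroup.closure
        {x : FreeGroup (Fin r) | ∃ (f : ℕ → FreeGroup (Fin r)) (w : FreeGroup ℕ),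
          w ∈ W ∧ FreeGroup.lift f w = x} ∧
      ∃ (h : FreeGroup (Fin r)) (g : Fin r → FreeGroup (Fin r)),
        (¬ ∃ (a b : Fin r → FreeGroup (Fin r)) (i : Fin r),
            (∀ j : Fin r, (FreeGroup.lift b (a j))⁻¹ * FreeGroup.of j ∈ V) ∧
            (∀ j : Fin r, (FreeGroup.lift a (b j))⁻¹ * FreeGroup.of j ∈ V) ∧
            (a i)⁻¹ * h ∈ V) ∧
        (∀ w : FreeGroup (Fin r), FreeGroup.lift g w ∈ V → w ∈ V) ∧
        (∃ (a b : Fin r → FreeGroup (Fin r)) (i : Fin r),
            (∀ j : Fin r, (FreeGroup.lift b (a j))⁻¹ * FreeGroup.of j ∈ V) ∧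
            (∀ j : Fin r, (FreeGroup.lift a (b j))⁻¹ * FreeGroup.of j ∈ V) ∧
            (a i)⁻¹ * FreeGroup.lift g h ∈ V) := by
  refine ⟨_, 2, PrimB.V (Subgroup.closure {PrimA.X, PrimA.Y}), PrimB.V_eq _, ?_⟩
  have hanti : ((![PrimA.X, PrimA.Y] : Fin 2 → PrimA.SRˣ) 0 : PrimA.SR) *
      ((![PrimA.X, PrimA.Y] : Fin 2 → PrimA.SRˣ) 1 : PrimA.SR) =
      -(((![PrimA.X, PrimA.Y] : Fin 2 → PrimA.SRˣ) 1 : PrimA.SR) *
        ((![PrimA.X, PrimA.Y] : Fin 2 → PrimA.SRˣ) 0 : PrimA.SR)) := by
    have := congrArg Units.val PrimA.XY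
    simpa using this
  refine PrimB.main _ (PrimB.qc_closure _ _ PrimA.XY) PrimA.seven ![PrimA.X, PrimA.Y] ?_ hanti ?_
  · intro i
    fin_cases i
    · exact Subgroup.subset_closure (by simp)
    · exact Subgroup.subset_closure (by simp)
  · exact PrimA.hnc

end Pool.Agent.S01699
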