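import Pool.Statements.S01998

set_option autoImplicit false
open Pool Pool.MP_c12e41_al

namespace Pool.Agent.S01998

/-- functions on the integers -/
abbrev V := ℤ → ℚ

/-- the shift `(T f)(k) = f(k+1)` -/
def T : V ≃ₗ[ℚ] V := LinearEquiv.funCongrLeft ℚ ℚ (Equiv.addRight (1:ℤ))

lemma T_apply (f : V) (k : ℤ) : T f k = f (k+1) := rfl

/-- diagonal operators -/
def dg (u : ℤ → ℚˣ) : V ≃ₗ[ℚ] V where
  toFun f := fun k => (u k : ℚ) * f k
  invFun f := fun k => ((u k)⁻¹ : ℚˣ) * f k
  map_add' f g := by funext k; simp [mul_add]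
  map_smul' c f := by funext k; simp; ring
  left_inv f := by funext k; simp
  right_inv f := by funext k; simp

lemma dg_apply (u : ℤ → ℚˣ) (f : V) (k : ℤ) : dg u f k = (u k : ℚ) * f k := rfl

lemma dg_comm (u v : ℤ → ℚˣ) : dg u * dg v = dg v * dg u := by
  ext f k
  simp only [LinearEquiv.mul_apply, dg_apply]
  ring

lemma T_dg (u : ℤ → ℚˣ) : T * dg u = dg (fun k => u (k+1)) * T := by
  ext f k
  simp only [LinearEquiv.mul_apply, dg_apply, T_apply]

lemma conj_dg (u : ℤ → ℚˣ) (n : ℕ) : T^n * dg u * (T^n)⁻¹ = dg (fun k => u (k+n)) := by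
  induction n with
  | zero => simp
  | succ n ih =>
    rw [pow_succ']
    calc T * T^n * dg u * (T * T^n)⁻¹ = T * (T^n * dg u * (T^n)⁻¹) * T⁻¹ := by group
    _ = T * dg (fun k => u (k+n)) * T⁻¹ := by rw [ih]
    _ = dg (fun k => u (k+1+n)) * T * T⁻¹ := by rw [T_dg]
    _ = dg (fun k => u (k+1+n)) := by group
    _ = _ := by
      congr 1
      funext k
      push_cast
      congr 1
      ring

/-- the n-th lamp -/
def lamp (n : ℕ) : FreeGroup Bool :=
  (FreeGroup.of true)^n * FreeGroup.of false * ((FreeGroup.of true)^n)⁻¹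

/-- relations of the lamplighter group -/
def rels : Set (FreeGroup Bool) :=
  {r | r = FreeGroup.of false * FreeGroup.of false ∨
    ∃ m n : ℕ, r = lamp m * lamp n * (lamp m)⁻¹ * (lamp n)⁻¹}

/-- the lamplighter group -/
abbrev G := PresentedGroup rels

/-- the generator images -/
def gen (u : ℤ → ℚˣ) : Bool → (V ≃ₗ[ℚ] V)
  | true => T
  | false => dg u

lemma gen_lamp (u : ℤ → ℚˣ) (n : ℕ) :
    FreeGroup.lift (gen u) (lamp n) = dg (fun k => u (k+n)) := by
  rw [← conj_dg]
  simp [lamp, gen]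

lemma gen_rels (u : ℤ → ℚˣ) (hu : ∀ k, u k * u k = 1) :
    ∀ r ∈ rels, FreeGroup.lift (gen u) r = 1 := by
  rintro r (rfl | ⟨m, n, rfl⟩)
  · simp only [map_mul, FreeGroup.lift_apply_of, gen]
    ext f k
    simp only [LinearEquiv.mul_apply, dg_apply]
    have := congrArg (fun x : ℚˣ => (x : ℚ)) (hu k)
    simp only [Units.val_mul, Units.val_one] at this
    rw [← mul_assoc, this]
    simp
  · simp only [map_mul, map_inv, gen_lamp]
    rw [dg_comm]
    group

/-- the representation attached to a configuration -/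
def rep (u : ℤ → ℚˣ) (hu : ∀ k, u k * u k = 1) : G →* (V ≃ₗ[ℚ] V) :=
  PresentedGroup.toGroup (gen_rels u hu)

/-- monomial families of operators, with uniform shift -/
def Mono (S : (ℤ → ℚˣ) → (V ≃ₗ[ℚ] V)) : Prop := ∃ n : ℤ, ∀ u, ∀ (k : ℤ) (c : ℚ), ∃ c' : ℚ,
  S u (Pi.single k c) = Pi.single (k+n) c'

lemma mono_mul {S S' : (ℤ → ℚˣ) → (V ≃ₗ[ℚ] V)} (h : Mono S) (h' : Mono S') :
    Mono (fun u => S u * S' u) := by
  obtain ⟨n, hn⟩ := h
  obtain ⟨m, hm⟩ := h'
  refine ⟨m + n, fun u k c => ?_⟩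
  obtain ⟨c', hc'⟩ := hm u k c
  obtain ⟨c'', hc''⟩ := hn u (k+m) c'
  exact ⟨c'', by rw [LinearEquiv.mul_apply, hc', hc'', add_assoc]⟩

lemma mono_T : Mono (fun _ => T) := by
  refine ⟨-1, fun _ k c => ⟨c, ?_⟩⟩
  funext j
  rw [T_apply]
  by_cases h : j + 1 = k
  · have : j = k + -1 := by omega
    subst h
    simp
  · rw [Pi.single_eq_of_ne h, Pi.single_eq_of_ne (by omega)]

lemma mono_Tinv : Mono (fun _ => T⁻¹) := by
  refine ⟨1, fun _ k c => ⟨c, ?_⟩⟩
  have : T (Pi.single (k+1) c) = (Pi.single k c : V) := by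
    funext j
    rw [T_apply]
    by_cases h : j = k
    · subst h; simp
    · rw [Pi.single_eq_of_ne h, Pi.single_eq_of_ne (by omega)]
  rw [← this]
  change (T⁻¹ * T) _ = _
  simp

lemma mono_dg : Mono (fun u => dg u) := by
  refine ⟨0, fun u k c => ⟨u k * c, ?_⟩⟩
  funext j
  rw [dg_apply, add_zero]
  by_cases h : j = k
  · subst h; simp
  · rw [Pi.single_eq_of_ne h, Pi.single_eq_of_ne h]; simp

lemma dg_inv (u : ℤ → ℚˣ) : (dg u)⁻¹ = dg u⁻¹ := by
  rw [inv_eq_iff_mul_eq_one]
  ext f k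
  simp [LinearEquiv.mul_apply, dg_apply]

lemma mono_dginv : Mono (fun u => (dg u)⁻¹) := by
  refine ⟨0, fun u k c => ⟨(u⁻¹ : ℤ → ℚˣ) k * c, ?_⟩⟩
  beta_reduce
  rw [dg_inv]
  funext j
  rw [dg_apply, add_zero]
  by_cases h : j = k
  · subst h; simp
  · rw [Pi.single_eq_of_ne h, Pi.single_eq_of_ne h]; simp

lemma mono_lift (w : FreeGroup Bool) : Mono (fun u => FreeGroup.lift (gen u) w) := by
  induction w using FreeGroup.induction_on with
  | C1 => exact ⟨0, fun u k c => ⟨c, by simp⟩⟩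
  | of b => cases b with
    | true => simpa [gen] using mono_T
    | false => simpa [gen] using mono_dg
  | inv_of b _ => cases b with
    | true => simpa [gen] using mono_Tinv
    | false => simpa [gen] using mono_dginv
  | mul x y hx hy =>
    simp only [map_mul]
    exact mono_mul hx hy

/-- the representation of the group algebra -/
noncomputable def rho (u : ℤ → ℚˣ) (hu : ∀ k, u k * u k = 1) :
    MonoidAlgebra ℚ G →ₐ[ℚ] Module.End ℚ V :=
  MonoidAlgebra.lift ℚ (Module.End ℚ V) G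
    ((LinearEquiv.automorphismGroup.toLinearMapMonoidHom (R := ℚ) (M := V)).comp (rep u hu))

lemma rho_single (u : ℤ → ℚˣ) (hu : ∀ k, u k * u k = 1) (g : G) (c : ℚ) (f : V) :
    rho u hu (MonoidAlgebra.single g c) f = c • rep u hu g f := by
  simp [rho, MonoidAlgebra.lift_single]

/-- finite band width, uniform in the configuration -/
lemma band (y : MonoidAlgebra ℚ G) :
    ∃ N : ℕ, ∀ (u : ℤ → ℚˣ) (hu : ∀ k, u k * u k = 1),
      ∀ k j : ℤ, (N:ℤ) < |j - k| → rho u hu y (Pi.single k 1) j = 0 := by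
  induction y using MonoidAlgebra.induction_linear with
  | zero => exact ⟨0, fun u hu k j _ => by simp⟩
  | add x y hx hy =>
    obtain ⟨N, hN⟩ := hx
    obtain ⟨M, hM⟩ := hy
    refine ⟨max N M, fun u hu k j h => ?_⟩
    have h1 : (N:ℤ) < |j - k| := lt_of_le_of_lt (by exact_mod_cast le_max_left N M) h
    have h2 : (M:ℤ) < |j - k| := lt_of_le_of_lt (by exact_mod_cast le_max_right N M) h
    rw [map_add, LinearMap.add_apply, Pi.add_apply, hN u hu k j h1, hM u hu k j h2, add_zero]
  | single g c =>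
    obtain ⟨w, rfl⟩ := PresentedGroup.mk_surjective rels g
    obtain ⟨n, hn⟩ := mono_lift w
    refine ⟨n.natAbs, fun u hu k j h => ?_⟩
    obtain ⟨c', hc'⟩ := hn u k 1
    have key : rep u hu (PresentedGroup.mk rels w) = FreeGroup.lift (gen u) w := rfl
    rw [rho_single, key, hc', Pi.smul_apply, Pi.single_eq_of_ne, smul_zero]
    rintro rfl
    rw [show k + n - k = n by ring, ← Int.natCast_natAbs] at h
    exact lt_irrefl _ h

/-- group elements -/
def z (n : ℕ) : G := PresentedGroup.mk rels (lamp n)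
/-- the shift in the group -/
def τ : G := PresentedGroup.mk rels (FreeGroup.of true)

lemma z_comm (m n : ℕ) : z m * z n = z n * z m := by
  have : PresentedGroup.mk rels (lamp m * lamp n * (lamp m)⁻¹ * (lamp n)⁻¹) = 1 :=
    PresentedGroup.one_of_mem (Or.inr ⟨m, n, rfl⟩)
  simp only [map_mul, map_inv] at this
  change z m * z n * (z m)⁻¹ * (z n)⁻¹ = 1 at this
  calc z m * z n = (z m * z n * (z m)⁻¹ * (z n)⁻¹) * (z n * z m) := by group
  _ = _ := by rw [this, one_mul]

lemma z_sq (n : ℕ) : z n * z n = 1 := by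
  have h0 : PresentedGroup.mk rels (FreeGroup.of false * FreeGroup.of false) = 1 :=
    PresentedGroup.one_of_mem (Or.inl rfl)
  simp only [z, lamp, map_mul, map_inv, map_pow] at h0 ⊢
  calc _ = PresentedGroup.mk rels (FreeGroup.of true) ^ n *
      (PresentedGroup.mk rels (FreeGroup.of false) * PresentedGroup.mk rels (FreeGroup.of false))
      * (PresentedGroup.mk rels (FreeGroup.of true) ^ n)⁻¹ := by group
  _ = 1 := by rw [h0]; group

lemma τ_z (n : ℕ) : τ * z n = z (n+1) * τ := by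
  simp only [z, lamp, map_mul, map_inv, map_pow, pow_succ']
  change τ * (τ^n * _ * (τ^n)⁻¹) = τ * τ^n * _ * (τ * τ^n)⁻¹ * τ
  group

/-- algebra elements -/
noncomputable def Z (n : ℕ) : MonoidAlgebra ℚ G := MonoidAlgebra.single (z n) 1
/-- shift in the algebra -/
noncomputable def t : MonoidAlgebra ℚ G := MonoidAlgebra.single τ 1
/-- idempotents -/
noncomputable def p (n : ℕ) : MonoidAlgebra ℚ G := (1/2 : ℚ) • (1 - Z n)

lemma Z_sq (n : ℕ) : Z n * Z n = 1 := by
  simp [Z, MonoidAlgebra.single_mul_single, z_sq, MonoidAlgebra.one_def]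

lemma Z_comm (m n : ℕ) : Z m * Z n = Z n * Z m := by
  simp [Z, MonoidAlgebra.single_mul_single, z_comm m n]

lemma t_Z (n : ℕ) : t * Z n = Z (n+1) * t := by
  simp [Z, t, MonoidAlgebra.single_mul_single, τ_z]

lemma t_p (n : ℕ) : t * p n = p (n+1) * t := by
  simp only [p, mul_smul_comm, smul_mul_assoc, mul_sub, sub_mul, t_Z, mul_one, one_mul]

lemma p_idem (n : ℕ) : p n * p n = p n := by
  simp only [p, mul_smul_comm, smul_mul_assoc, mul_sub, sub_mul, Z_sq, mul_one, one_mul]
  module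

lemma p_comm (m n : ℕ) : p m * p n = p n * p m := by
  simp only [p, mul_smul_comm, smul_mul_assoc, mul_sub, sub_mul, Z_comm m n, mul_one, one_mul]
  module

lemma tpow_p (k n : ℕ) : t^k * p n = p (n+k) * t^k := by
  induction k with
  | zero => simp
  | succ k ih =>
    rw [pow_succ', mul_assoc, ih, ← mul_assoc, t_p, mul_assoc, add_assoc]

/-- the element whose annihilator is not finitely generated -/
noncomputable def a : MonoidAlgebra ℚ G := p 0 + p 1 * t

/-- alternating sums -/
noncomputable def S (L : ℕ) : MonoidAlgebra ℚ G := ∑ n ∈ Finset.range (L+1), (-1:ℚ)^n • t^n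

lemma S_a (L : ℕ) : S L * a = p 0 + (-1:ℚ)^L • (p (L+1) * t^(L+1)) := by
  induction L with
  | zero => simp [S, a]
  | succ L ih =>
    have : S (L+1) = S L + (-1:ℚ)^(L+1) • t^(L+1) := by
      unfold S; rw [Finset.sum_range_succ]
    rw [this, add_mul, ih]
    have h2 : t^(L+1) * a = p (L+1) * t^(L+1) + p (L+2) * t^(L+2) := by
      unfold a
      rw [mul_add, tpow_p, ← mul_assoc, tpow_p, mul_assoc, ← pow_succ]
      rw [show 0 + (L+1) = L+1 by ring, show 1 + (L+1) = L+2 by ring]
    rw [smul_mul_assoc, h2, pow_succ (-1:ℚ) L]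
    module

/-- annihilating elements -/
noncomputable def x (L : ℕ) : MonoidAlgebra ℚ G := (1 - p 0) * (1 - p (L+1)) * S L

lemma x_a (L : ℕ) : x L * a = 0 := by
  have h1 : (1 - p 0) * (1 - p (L+1)) * p 0 = 0 := by
    have e : (1 - p (L+1)) * p 0 = p 0 * (1 - p (L+1)) := by
      rw [sub_mul, mul_sub, p_comm]; simp
    rw [mul_assoc, e, ← mul_assoc, sub_mul, p_idem]
    simp
  have h2 : (1 - p (L+1)) * p (L+1) = 0 := by
    rw [sub_mul, p_idem]; simp
  rw [x, mul_assoc, S_a, mul_add, h1, zero_add, mul_smul_comm]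
  rw [mul_assoc, ← mul_assoc (1 - p (L+1)), h2]
  simp

/-- the configuration with ones exactly at 1..L -/
def cfg (L : ℕ) : ℤ → ℚˣ := fun k => if 1 ≤ k ∧ k ≤ L then -1 else 1

lemma cfg_sq (L : ℕ) (k : ℤ) : cfg L k * cfg L k = 1 := by
  unfold cfg; split_ifs <;> simp

lemma rho_Z (u : ℤ → ℚˣ) (hu : ∀ k, u k * u k = 1) (n : ℕ) (f : V) (k : ℤ) :
    rho u hu (Z n) f k = u (k+n) * f k := by
  rw [Z, rho_single]
  have key : rep u hu (z n) = FreeGroup.lift (gen u) (lamp n) := rfl
  rw [key, gen_lamp]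
  simp [dg_apply]

lemma rho_t (u : ℤ → ℚˣ) (hu : ∀ k, u k * u k = 1) (f : V) (k : ℤ) :
    rho u hu t f k = f (k+1) := by
  rw [t, rho_single]
  have key : rep u hu τ = FreeGroup.lift (gen u) (FreeGroup.of true) := rfl
  rw [key]
  simp [gen, T_apply]

lemma rho_p (u : ℤ → ℚˣ) (hu : ∀ k, u k * u k = 1) (n : ℕ) (f : V) (k : ℤ) :
    rho u hu (p n) f k = (1/2) * (1 - u (k+n)) * f k := by
  simp only [p, map_smul, map_sub, map_one, LinearMap.smul_apply, LinearMap.sub_apply,
    Module.End.one_apply, Pi.smul_apply, Pi.sub_apply, rho_Z, smul_eq_mul]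
  ring

lemma rho_tpow (u : ℤ → ℚˣ) (hu : ∀ k, u k * u k = 1) (n : ℕ) (f : V) (k : ℤ) :
    rho u hu (t^n) f k = f (k+n) := by
  induction n generalizing k with
  | zero => simp
  | succ n ih =>
    rw [pow_succ', map_mul, Module.End.mul_apply, rho_t, ih]
    push_cast
    congr 1
    ring

/-- action of `a` -/
lemma rho_a (L : ℕ) (k : ℤ) (h1 : 1 ≤ k) (h2 : k ≤ L) :
    rho (cfg L) (cfg_sq L) a (Pi.single k 1) = Pi.single k 1 + Pi.single (k-1) 1 := by
  funext j
  simp only [a, map_add, map_mul, LinearMap.add_apply, Module.End.mul_apply, Pi.add_apply,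
    rho_p, rho_t]
  have c : (cfg L k : ℚ) = -1 := by simp [cfg, h1, h2]
  congr 1
  · by_cases h : j = k
    · subst h
      simp [c]; norm_num
    · rw [Pi.single_eq_of_ne h]; simp
  · by_cases h : j + 1 = k
    · have h' : j = k - 1 := by omega
      rw [h, h']
      simp [c]; norm_num
    · rw [Pi.single_eq_of_ne h, Pi.single_eq_of_ne (by omega)]; simp

lemma ann_alt (L : ℕ) (y : MonoidAlgebra ℚ G) (hy : y * a = 0) (k : ℕ) (hk : k ≤ L) :
    rho (cfg L) (cfg_sq L) y (Pi.single (k:ℤ) 1)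
      = (-1:ℚ)^k • rho (cfg L) (cfg_sq L) y (Pi.single (0:ℤ) 1) := by
  induction k with
  | zero => simp
  | succ k ih =>
    have h := rho_a L (k+1) (by omega) (by omega)
    have h3 : rho (cfg L) (cfg_sq L) y
        (rho (cfg L) (cfg_sq L) a (Pi.single ((k:ℤ)+1) 1)) = 0 := by
      rw [← Module.End.mul_apply, ← map_mul, hy]; simp
    rw [h, map_add, show (k:ℤ) + 1 - 1 = k by ring, ih (by omega)] at h3
    push_cast
    rw [pow_succ]
    have := eq_neg_of_add_eq_zero_left h3
    rw [this]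
    module

lemma ann_zero (L : ℕ) (y : MonoidAlgebra ℚ G) (hy : y * a = 0) (N : ℕ) (hL : 2 * N + 1 ≤ L)
    (hN : ∀ (u : ℤ → ℚˣ) (hu : ∀ k, u k * u k = 1),
      ∀ k j : ℤ, (N:ℤ) < |j - k| → rho u hu y (Pi.single k 1) j = 0) :
    rho (cfg L) (cfg_sq L) y (Pi.single (0:ℤ) 1) = 0 := by
  funext j
  by_cases h : (N:ℤ) < |j - 0|
  · exact hN _ _ _ _ h
  · have h1 := ann_alt L y hy L le_rfl
    have h2 := hN (cfg L) (cfg_sq L) L j (by
      rw [sub_zero, not_lt, abs_le] at h
      rw [lt_abs]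
      right
      omega)
    rw [h1, Pi.smul_apply, smul_eq_mul] at h2
    rcases mul_eq_zero.mp h2 with h3 | h3
    · exact absurd h3 (pow_ne_zero _ (by norm_num))
    · exact h3

lemma rho_x (L : ℕ) : rho (cfg L) (cfg_sq L) (x L) (Pi.single (0:ℤ) 1) 0 = 1 := by
  simp only [x, map_mul, Module.End.mul_apply, map_sub, map_one, LinearMap.sub_apply,
    Module.End.one_apply, Pi.sub_apply, rho_p]
  have c0 : (cfg L 0 : ℚ) = 1 := by simp [cfg]
  have c1 : (cfg L ((L+1 : ℕ):ℤ) : ℚ) = 1 := by simp [cfg]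
  simp only [Nat.cast_zero, add_zero, zero_add, c0, c1, sub_self, mul_zero, zero_mul, sub_zero]
  simp only [S, map_sum, map_smul, LinearMap.sum_apply, Finset.sum_apply, LinearMap.smul_apply,
    Pi.smul_apply, rho_tpow, zero_add, smul_eq_mul]
  rw [Finset.sum_eq_single 0]
  · simp
  · intro n _ hn
    rw [Pi.single_eq_of_ne (by exact_mod_cast hn)]; simp
  · intro h; simp at h

/-- The negation of the preceding statement: For every field K, every group G and every element a of the group algebra K[G], the set of x with x·a = 0 equals the left ideal generated by some finite set of elements of K[G]. -/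
theorem result :
    ¬ (∀ (K : Type) [Field K] (G : Type) [Group G] (a : MonoidAlgebra K G),
      ∃ s : Finset (MonoidAlgebra K G),
        ((Submodule.span (MonoidAlgebra K G) (s : Set (MonoidAlgebra K G)) :
            Set (MonoidAlgebra K G)) = {x : MonoidAlgebra K G | x * a = 0})) := by
  intro H
  obtain ⟨s, hs⟩ := H ℚ G a
  choose N hN using band
  set M : ℕ := s.sup N with hM
  set L : ℕ := 2 * M + 1 with hL
  have hsub : ∀ y ∈ Submodule.span (MonoidAlgebra ℚ G) (s : Set (MonoidAlgebra ℚ G)),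
      rho (cfg L) (cfg_sq L) y (Pi.single (0:ℤ) 1) = 0 := by
    intro y hy
    induction hy using Submodule.span_induction with
    | mem y hy =>
      have hya : y * a = 0 := by
        have : y ∈ (Submodule.span (MonoidAlgebra ℚ G) (s : Set (MonoidAlgebra ℚ G)) :
            Set (MonoidAlgebra ℚ G)) := Submodule.subset_span hy
        rw [hs] at this
        exact this
      have hle : N y ≤ M := Finset.le_sup (f := N) hy
      exact ann_zero L y hya (N y) (by omega) (hN y)
    | zero => simp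
    | add y y' _ _ h h' => rw [map_add, LinearMap.add_apply, h, h', add_zero]
    | smul b y _ h => rw [smul_eq_mul, map_mul, Module.End.mul_apply, h, map_zero]
  have hx : x L ∈ (Submodule.span (MonoidAlgebra ℚ G) (s : Set (MonoidAlgebra ℚ G)) :
            Set (MonoidAlgebra ℚ G)) := by
    rw [hs]
    exact x_a L
  have h1 := hsub _ hx
  have h2 := rho_x L
  rw [h1] at h2
  simp at h2

end Pool.Agent.S01998
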