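import Pool.Statements.S02578
import Pool.Agent.GSchm

set_option autoImplicit false
open Pool Pool.MP_01e6d0_an

namespace Pool.Agent.S02578

open MeasureTheory

/-- the space -/
abbrev X := C(unitInterval, ℝ)

/-- constant extension -/
noncomputable def ext (f : X) : ℝ → ℝ := Set.IccExtend (zero_le_one' ℝ) f

theorem ext_cont (f : X) : Continuous (ext f) := f.continuous.Icc_extend'

theorem ext_apply (f : X) (t : ℝ) : ext f t = f (Set.projIcc 0 1 zero_le_one t) := rfl

theorem ext_of_mem (f : X) (t : ℝ) (ht : t ∈ Set.Icc (0:ℝ) 1) : ext f t = f ⟨t, ht⟩ :=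
  Set.IccExtend_of_mem _ _ ht

theorem ext_add (f g : X) (t : ℝ) : ext (f + g) t = ext f t + ext g t := rfl
theorem ext_smul (r : ℝ) (f : X) (t : ℝ) : ext (r • f) t = r * ext f t := rfl

/-- the inner product -/
noncomputable def ip (f g : X) : ℝ := ∫ t in (0:ℝ)..1, ext f t * ext g t

theorem ip_comm (f g : X) : ip f g = ip g f := by
  unfold ip; simp_rw [mul_comm]

theorem ip_add_left (f g k : X) : ip (f + g) k = ip f k + ip g k := by
  unfold ip
  simp_rw [ext_add, add_mul]
  exact intervalIntegral.integral_add (((ext_cont f).mul (ext_cont k)).intervalIntegrable _ _)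
    (((ext_cont g).mul (ext_cont k)).intervalIntegrable _ _)

theorem ip_smul_left (f k : X) (r : ℝ) : ip (r • f) k = r * ip f k := by
  unfold ip
  simp_rw [ext_smul, mul_assoc]
  exact intervalIntegral.integral_const_mul _ _

theorem ip_pos (f : X) (hf : f ≠ 0) : 0 < ip f f := by
  obtain ⟨t, ht⟩ : ∃ t, f t ≠ 0 := by
    by_contra h
    push Not at h
    exact hf (ContinuousMap.ext h)
  refine intervalIntegral.integral_pos zero_lt_one ((ext_cont f).mul (ext_cont f)).continuousOn
    (fun x _ => mul_self_nonneg _) ⟨t.1, t.2, ?_⟩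
  rw [ext_of_mem f t.1 t.2]
  exact mul_self_pos.mpr ht

theorem ip_nonneg (f : X) : 0 ≤ ip f f :=
  intervalIntegral.integral_nonneg zero_le_one (fun _ _ => mul_self_nonneg _)

/-- the core -/
noncomputable def core : InnerProductSpace.Core ℝ X where
  inner := ip
  conj_inner_symm f g := by
    change ip g f = ip f g
    exact ip_comm g f
  re_inner_nonneg f := ip_nonneg f
  add_left f g k := ip_add_left f g k
  smul_left f g r := by
    change ip (r • f) g = r * ip f g
    exact ip_smul_left f g r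
  definite f h := by
    by_contra hf
    exact absurd h (ip_pos f hf).ne'

/-- restriction -/
def res (F : ℝ → ℝ) (hF : Continuous F) : X := ⟨fun t => F t.1, hF.comp continuous_subtype_val⟩

theorem ext_res (F : ℝ → ℝ) (hF : Continuous F) (t : ℝ) (ht : t ∈ Set.Icc (0:ℝ) 1) : ext (res F hF) t = F t := by
  rw [ext_of_mem _ _ ht]; rfl

theorem ip_res (F G : ℝ → ℝ) (hF : Continuous F) (hG : Continuous G) :
    ip (res F hF) (res G hG) = ∫ t in (0:ℝ)..1, F t * G t := by
  unfold ip
  apply intervalIntegral.integral_congr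
  intro t ht
  rw [Set.uIcc_of_le zero_le_one] at ht
  change ext _ t * ext _ t = _
  rw [ext_res _ _ _ ht, ext_res _ _ _ ht]

theorem int01 (F : ℝ → ℝ) (hF : ∀ t, t ≤ 0 ∨ 1 ≤ t → F t = 0) : ∫ t in (0:ℝ)..1, F t = ∫ t, F t := by
  apply intervalIntegral.integral_eq_integral_of_support_subset
  intro t ht
  by_contra hc
  apply ht
  apply hF
  simp only [Set.mem_Ioc, not_and_or, not_lt, not_le] at hc
  rcases hc with h | h
  · exact Or.inl h
  · exact Or.inr h.le

theorem norm_le_of (f : X) (C : ℝ) (hC : 0 ≤ C) (h : ∀ t, |f t| ≤ C) : ‖f‖ ≤ C :=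
  (ContinuousMap.norm_le f hC).mpr h

/-- left endpoints -/
noncomputable def an (n : ℕ) : ℝ := 1 / ((n:ℝ) + 2)
/-- right endpoints -/
noncomputable def bn (n : ℕ) : ℝ := 1 / ((n:ℝ) + 1)

theorem an_lt_bn (n : ℕ) : an n < bn n := by
  unfold an bn
  apply one_div_lt_one_div_of_lt (by positivity); linarith

theorem an_pos (n : ℕ) : 0 < an n := by unfold an; positivity

theorem bn_le_one (n : ℕ) : bn n ≤ 1 := by
  unfold bn
  rw [div_le_one (by positivity)]
  have : (0:ℝ) ≤ n := Nat.cast_nonneg _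
  linarith

theorem bn_le_an {m n : ℕ} (h : m < n) : bn n ≤ an m := by
  unfold an bn
  apply one_div_le_one_div_of_le (by positivity)
  have : (m:ℝ) + 1 ≤ n := by exact_mod_cast h
  linarith

theorem disj {m n : ℕ} (h : m ≠ n) (t : ℝ) : (t ≤ an m ∨ bn m ≤ t) ∨ (t ≤ an n ∨ bn n ≤ t) := by
  rcases lt_or_gt_of_ne h with h1 | h1
  · have := bn_le_an h1
    rcases le_or_gt t (an m) with h2 | h2
    · exact Or.inl (Or.inl h2)
    · exact Or.inr (Or.inr (by linarith))
  · have := bn_le_an h1
    rcases le_or_gt t (an n) with h2 | h2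
    · exact Or.inr (Or.inl h2)
    · exact Or.inl (Or.inr (by linarith))

theorem main : ∃ φ : ℕ → X, (∀ n, φ n ≠ 0) ∧ (∀ m n, m ≠ n → ip (φ m) (φ n) = 0) ∧
    (∀ g : X, g ∈ closure (Submodule.span ℝ (Set.range φ) : Set X)) ∧
    ∃ (f : X) (ν : X →ₗ[ℝ] ℝ), ν f = 1 ∧ (∀ u, |ν u| ≤ ‖u‖) ∧ ∀ n, ip f (φ n) ≠ 0 → ν (φ n) = 0 := by
  have hb : ∀ n : ℕ, ∃ h w : ℝ → ℝ, Continuous h ∧ Continuous w ∧ (∀ t, t ≤ an n ∨ bn n ≤ t → h t = 0 ∧ w t = 0) ∧
      ∫ t, h t * w t = 0 ∧ ∫ t, w t = 0 ∧ (∀ t, |h t - w t| ≤ 1 / ((n:ℝ) + 1)) ∧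
      (∃ x, an n < x ∧ x < bn n ∧ (2:ℝ) ^ (n+1) ≤ h x) ∧ ∃ x, an n < x ∧ x < bn n ∧ w x ≠ 0 :=
    fun n => GSchm.bump (an n) (bn n) (1 / ((n:ℝ) + 1)) (2 ^ (n+1)) (an_lt_bn n) (by positivity) (by positivity)
  choose h w hc wc hz hort hint hclose hx hwx using hb
  choose x hx1 hx2 hx3 using hx
  choose y hy1 hy2 hy3 using hwx
  have hout : ∀ n t, t ≤ 0 ∨ 1 ≤ t → h n t = 0 ∧ w n t = 0 := by
    intro n t ht
    apply hz
    rcases ht with h1 | h1
    · left; linarith [an_pos n]
    · right; linarith [bn_le_one n]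
  let H : ℕ → X := fun n => res (h n) (hc n)
  let W : ℕ → X := fun n => res (w n) (wc n)
  let xx : ℕ → unitInterval := fun n => ⟨x n, by
    constructor
    · linarith [an_pos n, hx1 n]
    · linarith [bn_le_one n, hx2 n]⟩
  have hHx : ∀ n, (2:ℝ) ^ (n+1) ≤ H n (xx n) := fun n => hx3 n
  have hHx0 : ∀ m n, m ≠ n → H m (xx n) = 0 := by
    intro m n hmn
    apply (hz m _ _).1
    rcases disj hmn (x n) with h1 | h1
    · exact h1
    · exfalso
      rcases h1 with h1 | h1
      · linarith [hx1 n]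
      · linarith [hx2 n]
  have hHW : ∀ m n, ip (H m) (W n) = 0 := by
    intro m n
    rw [ip_res, int01]
    · by_cases hmn : m = n
      · subst hmn; exact hort m
      · have : ∀ t, h m t * w n t = 0 := by
          intro t
          rcases disj hmn t with h1 | h1
          · rw [(hz m t h1).1, zero_mul]
          · rw [(hz n t h1).2, mul_zero]
        simp_rw [this]
        simp
    · intro t ht
      rw [(hout m t ht).1, zero_mul]
  have hWW : ∀ m n, m ≠ n → ip (W m) (W n) = 0 := by
    intro m n hmn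
    rw [ip_res, int01]
    · have : ∀ t, w m t * w n t = 0 := by
        intro t
        rcases disj hmn t with h1 | h1
        · rw [(hz m t h1).2, zero_mul]
        · rw [(hz n t h1).2, mul_zero]
      simp_rw [this]
      simp
    · intro t ht
      rw [(hout m t ht).2, zero_mul]
  have hWne : ∀ n, W n ≠ 0 := by
    intro n h0
    have h1 : W n ⟨y n, by
      constructor
      · linarith [an_pos n, hy1 n]
      · linarith [bn_le_one n, hy2 n]⟩ = 0 := by rw [h0]; rfl
    exact hy3 n h1
  -- the functional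
  let c : ℕ → ℝ := fun n => (H n (xx n))⁻¹
  have hcb : ∀ n, |c n| ≤ (1/2:ℝ) ^ (n+1) := by
    intro n
    have h2 : (0:ℝ) < 2 ^ (n+1) := by positivity
    have h3 := hHx n
    change |(H n (xx n))⁻¹| ≤ _
    rw [abs_of_pos (inv_pos.mpr (lt_of_lt_of_le h2 h3)), one_div, inv_pow]
    exact inv_anti₀ h2 h3
  have hgeo : HasSum (fun n : ℕ => (1/2:ℝ) ^ (n+1)) 1 := by
    have h1 : HasSum (fun n : ℕ => (1/2:ℝ) * (1/2:ℝ) ^ n) ((1/2:ℝ) * 2) := hasSum_geometric_two.mul_left (1/2:ℝ)
    have h2 : (fun n : ℕ => (1/2:ℝ) ^ (n+1)) = (fun n : ℕ => (1/2:ℝ) * (1/2:ℝ) ^ n) := by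
      funext n; rw [pow_succ]; ring
    rw [h2]
    have h4 : (1/2:ℝ) * 2 = 1 := by norm_num
    rw [h4] at h1
    exact h1
  have hsum : ∀ u : X, Summable (fun n => u (xx n) * c n) := by
    intro u
    refine Summable.of_norm_bounded (g := fun n => ‖u‖ * (1/2:ℝ) ^ (n+1)) (hgeo.summable.mul_left _) ?_
    intro n
    rw [norm_mul]
    exact mul_le_mul (u.norm_coe_le_norm _) (hcb n) (norm_nonneg _) (norm_nonneg _)
  let ν : X →ₗ[ℝ] ℝ :=
    { toFun := fun u => ∑' n, u (xx n) * c n
      map_add' := by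
        intro u v
        rw [← Summable.tsum_add (hsum u) (hsum v)]
        congr 1; funext n
        rw [ContinuousMap.add_apply, add_mul]
      map_smul' := by
        intro r u
        rw [RingHom.id_apply, smul_eq_mul, ← tsum_mul_left]
        congr 1; funext n
        rw [ContinuousMap.smul_apply, smul_eq_mul, mul_assoc] }
  have hνb : ∀ u, |ν u| ≤ ‖u‖ := by
    intro u
    change ‖∑' n, u (xx n) * c n‖ ≤ ‖u‖
    have h1 : HasSum (fun n => ‖u‖ * (1/2:ℝ) ^ (n+1)) (‖u‖ * 1) := hgeo.mul_left _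
    rw [mul_one] at h1
    refine tsum_of_norm_bounded h1 ?_
    intro n
    rw [norm_mul]
    exact mul_le_mul (u.norm_coe_le_norm _) (hcb n) (norm_nonneg _) (norm_nonneg _)
  have hνH : ∀ n, ν (H n) = 1 := by
    intro n
    change ∑' k, H n (xx k) * c k = 1
    rw [tsum_eq_single n]
    · apply mul_inv_cancel₀
      have h2 : (0:ℝ) < 2 ^ (n+1) := by positivity
      exact (lt_of_lt_of_le h2 (hHx n)).ne'
    · intro k hk
      rw [hHx0 n k (Ne.symm hk), zero_mul]
  -- subspaces
  let Wp : Submodule ℝ X :=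
    { carrier := {u | ∀ n, ip u (W n) = 0}
      add_mem' := by
        intro a b ha hb n
        rw [ip_add_left, ha n, hb n, add_zero]
      zero_mem' := by
        intro n
        have := ip_smul_left (0:X) (W n) 0
        rw [zero_smul, zero_mul] at this
        exact this
      smul_mem' := by
        intro r a ha n
        rw [ip_smul_left, ha n, mul_zero] }
  let V : Submodule ℝ X := Wp ⊓ LinearMap.ker ν
  let d : ℕ → X := fun k => (TopologicalSpace.denseSeq V k : X)
  have hdV : ∀ k, d k ∈ V := fun k => (TopologicalSpace.denseSeq V k).2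
  have hVd : (V : Set X) ⊆ closure (Set.range d) := by
    intro v hv
    have h1 : (⟨v, hv⟩ : V) ∈ closure (Set.range (TopologicalSpace.denseSeq V)) :=
      TopologicalSpace.denseRange_denseSeq V ⟨v, hv⟩
    have h2 := image_closure_subset_closure_image (continuous_subtype_val (p := fun u : X => u ∈ V))
      (Set.mem_image_of_mem _ h1)
    rw [← Set.range_comp] at h2
    exact h2
  obtain ⟨a, ha1, ha2⟩ := GSchm.gs core d
  have haV : ∀ k, a k ∈ V := by
    intro k
    have h1 : a k ∈ Submodule.span ℝ (Set.range a) := Submodule.subset_span ⟨k, rfl⟩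
    rw [ha2] at h1
    have h2 : Submodule.span ℝ (Set.range d) ≤ V := Submodule.span_le.mpr (by rintro _ ⟨k, rfl⟩; exact hdV k)
    exact h2 h1
  let ψ : {k : ℕ // a k ≠ 0} ⊕ ℕ → X := Sum.elim (fun k => a k.1) W
  obtain ⟨e⟩ : Nonempty (ℕ ≃ ({k : ℕ // a k ≠ 0} ⊕ ℕ)) := nonempty_equiv_of_countable
  let φ : ℕ → X := ψ ∘ e
  have hrange : Set.range φ = Set.range ψ := e.surjective.range_comp ψ
  have hψ0 : ∀ i, ψ i ≠ 0 := by
    rintro (⟨k, hk⟩ | n)
    · exact hk
    · exact hWne n
  have hψort : ∀ i j, i ≠ j → ip (ψ i) (ψ j) = 0 := by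
    rintro (⟨k, hk⟩ | n) (⟨l, hl⟩ | m) hij
    · apply ha1
      rintro rfl
      exact hij rfl
    · exact (haV k).1 m
    · rw [ip_comm]; exact (haV l).1 n
    · exact hWW n m (fun h => hij (by rw [h]))
  set Sp := Submodule.span ℝ (Set.range φ) with hSp
  have hWS : ∀ n, W n ∈ Sp := by
    intro n
    apply Submodule.subset_span
    rw [hrange]
    exact ⟨Sum.inr n, rfl⟩
  have haS : ∀ k, a k ∈ Sp := by
    intro k
    by_cases hk : a k = 0
    · rw [hk]; exact Sp.zero_mem
    · apply Submodule.subset_span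
      rw [hrange]
      exact ⟨Sum.inl ⟨k, hk⟩, rfl⟩
  have hdS : ∀ k, d k ∈ Sp := by
    intro k
    have h1 : d k ∈ Submodule.span ℝ (Set.range d) := Submodule.subset_span ⟨k, rfl⟩
    rw [← ha2] at h1
    have h2 : Submodule.span ℝ (Set.range a) ≤ Sp := Submodule.span_le.mpr (by rintro _ ⟨k, rfl⟩; exact haS k)
    exact h2 h1
  let Cl : Submodule ℝ X := Sp.topologicalClosure
  have hVC : ∀ v ∈ V, v ∈ Cl := by
    intro v hv
    have h1 := hVd hv
    exact closure_mono (by rintro _ ⟨k, rfl⟩; exact hdS k) h1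
  have hWC : ∀ n, W n ∈ Cl := fun n => Sp.le_topologicalClosure (hWS n)
  have hHWn : ∀ n, ‖H n - W n‖ ≤ 1 / ((n:ℝ) + 1) := by
    intro n
    apply norm_le_of _ _ (by positivity)
    intro t
    exact hclose n t.1
  have hWpC : ∀ u ∈ Wp, u ∈ Cl := by
    intro u hu
    have hcl : IsClosed (Cl : Set X) := Sp.isClosed_topologicalClosure
    have hlim : Filter.Tendsto (fun n => u - ν u • (H n - W n)) Filter.atTop (nhds u) := by
      have h1 : Filter.Tendsto (fun n => ν u • (H n - W n)) Filter.atTop (nhds 0) := by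
        rw [tendsto_zero_iff_norm_tendsto_zero]
        have h2 : Filter.Tendsto (fun n : ℕ => |ν u| * (1 / ((n:ℝ) + 1))) Filter.atTop (nhds 0) := by
          have := tendsto_one_div_add_atTop_nhds_zero_nat (𝕜 := ℝ)
          simpa using this.const_mul (|ν u|)
        refine squeeze_zero (fun n => norm_nonneg _) (fun n => ?_) h2
        rw [norm_smul]
        exact mul_le_mul_of_nonneg_left (hHWn n) (norm_nonneg _)
      simpa using (tendsto_const_nhds (x := u)).sub h1
    refine hcl.mem_of_tendsto hlim (Filter.Eventually.of_forall (fun n => ?_))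
    have h3 : u - ν u • (H n - W n) = (u - ν u • H n) + ν u • W n := by
      rw [smul_sub]; abel
    change u - ν u • (H n - W n) ∈ Cl
    rw [h3]
    refine Cl.add_mem (hVC _ ⟨?_, ?_⟩) (Cl.smul_mem _ (hWC n))
    · exact Wp.sub_mem hu (Wp.smul_mem _ (fun m => hHW n m))
    · change ν (u - ν u • H n) = 0
      rw [map_sub, map_smul, hνH n]; simp
  -- functions constant near zero
  have hconst : ∀ (g : X) (δ : ℝ), 0 < δ → (∀ t : unitInterval, t.1 ≤ δ → g t = g 0) → g ∈ Cl := by
    intro g δ hδ hg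
    obtain ⟨N, hN⟩ := exists_nat_one_div_lt hδ
    have hbig : ∀ m, N ≤ m → ip g (W m) = 0 := by
      intro m hm
      have h1 : ip g (W m) = ∫ t in (0:ℝ)..1, g 0 * w m t := by
        unfold ip
        apply intervalIntegral.integral_congr
        intro t ht
        rw [Set.uIcc_of_le zero_le_one] at ht
        change ext g t * ext (W m) t = g 0 * w m t
        rw [ext_res _ _ _ ht, ext_of_mem _ _ ht]
        by_cases h2 : t ≤ δ
        · rw [hg ⟨t, ht⟩ h2]
        · have h3 : bn m ≤ t := by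
            have h4 : bn m ≤ 1 / ((N:ℝ) + 1) := by
              unfold bn
              apply one_div_le_one_div_of_le (by positivity)
              have : (N:ℝ) ≤ m := by exact_mod_cast hm
              linarith
            push Not at h2
            linarith
          rw [(hz m t (Or.inr h3)).2]; simp
      rw [h1, int01]
      · rw [integral_const_mul, hint m, mul_zero]
      · intro t ht
        rw [(hout m t ht).2, mul_zero]
    let q : ℕ → ℝ := fun m => ip g (W m) / ip (W m) (W m)
    have h5 : g - ∑ m ∈ Finset.range N, q m • W m ∈ Wp := by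
      intro n
      have hlin : ∀ (s : Finset ℕ), ip (∑ m ∈ s, q m • W m) (W n) = ∑ m ∈ s, q m * ip (W m) (W n) := by
        intro s
        induction s using Finset.induction_on with
        | empty => simpa using (Wp.zero_mem) n
        | insert i s hi ih => rw [Finset.sum_insert hi, Finset.sum_insert hi, ip_add_left, ip_smul_left, ih]
      have h6 : ip (g - ∑ m ∈ Finset.range N, q m • W m) (W n) =
          ip g (W n) - ip (∑ m ∈ Finset.range N, q m • W m) (W n) := by
        have h7 := ip_add_left (g - ∑ m ∈ Finset.range N, q m • W m) (∑ m ∈ Finset.range N, q m • W m) (W n)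
        rw [sub_add_cancel] at h7
        linarith
      rw [h6, hlin]
      by_cases hn : n < N
      · rw [Finset.sum_eq_single n]
        · have h8 := ip_pos (W n) (hWne n)
          change _ - ip g (W n) / ip (W n) (W n) * _ = 0
          field_simp
          simp
        · intro m _ hmn
          rw [hWW m n hmn, mul_zero]
        · intro hc2
          exact absurd (Finset.mem_range.mpr hn) hc2
      · rw [hbig n (not_lt.mp hn), Finset.sum_eq_zero]
        · simp
        · intro m hm
          rw [hWW m n, mul_zero]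
          rintro rfl
          exact hn (Finset.mem_range.mp hm)
    have h9 : g = (g - ∑ m ∈ Finset.range N, q m • W m) + ∑ m ∈ Finset.range N, q m • W m := by abel
    rw [h9]
    refine Cl.add_mem (hWpC _ h5) (Cl.sum_mem (fun m _ => Cl.smul_mem _ (hWC m)))
  refine ⟨φ, fun n => hψ0 _, fun m n hmn => hψort _ _ (fun h => hmn (e.injective h)), ?_,
    H 0, ν, hνH 0, hνb, ?_⟩
  · intro g
    rw [Metric.mem_closure_iff]
    intro ε hε
    -- truncate near zero
    obtain ⟨δ, hδ, hδ2⟩ := Metric.continuous_iff.mp (ext_cont g) 0 (ε/4) (by positivity)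
    let δ' := min (δ/2) (1/2)
    have hδ' : 0 < δ' := by positivity
    let g' : X := res (fun t => ext g (max t δ')) ((ext_cont g).comp (by fun_prop))
    have hg'C : g' ∈ Cl := by
      apply hconst g' δ' hδ'
      intro t ht
      change ext g (max t.1 δ') = ext g (max (0:ℝ) δ')
      rw [max_eq_right ht, max_eq_right hδ'.le]
    have hdist : ‖g - g'‖ ≤ ε / 2 := by
      apply norm_le_of _ _ (by positivity)
      intro t
      change |g t - ext g (max t.1 δ')| ≤ ε / 2
      have hgt : g t = ext g t.1 := (ext_of_mem g t.1 t.2).symm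
      rw [hgt]
      by_cases ht : t.1 ≤ δ'
      · rw [max_eq_right ht]
        have h1 := hδ2 t.1 (by
          rw [Real.dist_eq, sub_zero, abs_of_nonneg t.2.1]
          have : δ' ≤ δ/2 := min_le_left _ _
          linarith)
        have h2 := hδ2 δ' (by
          rw [Real.dist_eq, sub_zero, abs_of_nonneg hδ'.le]
          have : δ' ≤ δ/2 := min_le_left _ _
          linarith)
        rw [Real.dist_eq] at h1 h2
        have h3 := abs_lt.mp h1
        have h4 := abs_lt.mp h2
        rw [abs_le]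
        constructor <;> linarith [h3.1, h3.2, h4.1, h4.2]
      · push Not at ht
        rw [max_eq_left ht.le, sub_self, abs_zero]
        positivity
    have hg'' : g' ∈ closure (Sp : Set X) := hg'C
    rw [Metric.mem_closure_iff] at hg''
    obtain ⟨s, hs, hs2⟩ := hg'' (ε/2) (by positivity)
    refine ⟨s, hs, ?_⟩
    have hd1 : dist g g' ≤ ε / 2 := by rw [dist_eq_norm]; exact hdist
    calc dist g s ≤ dist g g' + dist g' s := dist_triangle _ _ _
      _ < ε := by linarith
  · intro n hn
    have h1 : ∀ i, ip (H 0) (ψ i) ≠ 0 → ν (ψ i) = 0 := by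
      rintro (⟨k, hk⟩ | m) hne
      · exact (haV k).2
      · exact absurd (hHW 0 m) hne
    exact h1 _ hn

/-- The negation of the preceding statement: For every system of nonzero continuous functions on [0,1] that is L²-orthogonal and uniformly dense in C[0,1], each continuous f is a uniform limit of finite combinations of those φ_n with nonzero Fourier coefficient of f. -/
theorem result :
    ¬ (∀ φ : ℕ → ℝ → ℝ,
      (∀ n, ContinuousOn (φ n) (Set.Icc (0:ℝ) 1)) →
      (∀ n, ∃ t ∈ Set.Icc (0:ℝ) 1, φ n t ≠ 0) →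
      (∀ m n : ℕ, m ≠ n → ∫ t in (0:ℝ)..1, φ m t * φ n t = 0) →
      (∀ g : ℝ → ℝ, ContinuousOn g (Set.Icc (0:ℝ) 1) → ∀ ε : ℝ, ε > 0 →
        ∃ s : Finset ℕ, ∃ c : ℕ → ℝ,
          ∀ t ∈ Set.Icc (0:ℝ) 1, |g t - ∑ i ∈ s, c i * φ i t| < ε) →
      ∀ f : ℝ → ℝ, ContinuousOn f (Set.Icc (0:ℝ) 1) → ∀ ε : ℝ, ε > 0 →
        ∃ s : Finset ℕ, (∀ i ∈ s, ∫ t in (0:ℝ)..1, f t * φ i t ≠ 0) ∧
          ∃ c : ℕ → ℝ, ∀ t ∈ Set.Icc (0:ℝ) 1, |f t - ∑ i ∈ s, c i * φ i t| < ε) := by
  intro Hall
  obtain ⟨φ, h0, hort, hdense, f, ν, hνf, hνb, hν⟩ := main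
  have A1 : ∀ n, ∃ t ∈ Set.Icc (0:ℝ) 1, ext (φ n) t ≠ 0 := by
    intro n
    by_contra hcon
    push Not at hcon
    apply h0 n
    ext t
    have := hcon t.1 t.2
    rw [ext_of_mem _ _ t.2] at this
    exact this
  have A2 : ∀ g : ℝ → ℝ, ContinuousOn g (Set.Icc (0:ℝ) 1) → ∀ ε : ℝ, ε > 0 →
        ∃ s : Finset ℕ, ∃ c : ℕ → ℝ,
          ∀ t ∈ Set.Icc (0:ℝ) 1, |g t - ∑ i ∈ s, c i * ext (φ i) t| < ε := by
    intro g hg ε hε
    let G : X := ⟨fun t => g t.1, continuousOn_iff_continuous_restrict.mp hg⟩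
    have h1 := hdense G
    rw [Metric.mem_closure_iff] at h1
    obtain ⟨v, hv, hv2⟩ := h1 ε hε
    obtain ⟨c, hc⟩ := (Finsupp.mem_span_range_iff_exists_finsupp).mp hv
    refine ⟨c.support, c, fun t ht => ?_⟩
    rw [dist_eq_norm] at hv2
    have h2 := lt_of_le_of_lt ((G - v).norm_coe_le_norm ⟨t, ht⟩) hv2
    have h3 : (G - v) ⟨t, ht⟩ = g t - ∑ i ∈ c.support, c i * ext (φ i) t := by
      rw [ContinuousMap.sub_apply, ← hc]
      change g t - (∑ i ∈ c.support, c i • φ i) ⟨t, ht⟩ = _
      rw [ContinuousMap.sum_apply]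
      congr 1
      apply Finset.sum_congr rfl
      intro i _
      rw [ContinuousMap.smul_apply, smul_eq_mul, ext_of_mem _ _ ht]
    rw [h3] at h2
    exact h2
  obtain ⟨s, hs, c, hc⟩ := Hall (fun n => ext (φ n)) (fun n => (ext_cont _).continuousOn) A1 hort A2
    (ext f) (ext_cont f).continuousOn (1/2) (by norm_num)
  let u : X := f - ∑ i ∈ s, c i • φ i
  have h1 : ν u = 1 := by
    change ν (f - ∑ i ∈ s, c i • φ i) = 1
    rw [map_sub, hνf, map_sum, Finset.sum_eq_zero]
    · simp
    · intro i hi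
      rw [map_smul, hν i (hs i hi), smul_zero]
  have h2 : ‖u‖ ≤ 1/2 := by
    apply norm_le_of _ _ (by norm_num)
    intro t
    have h3 := hc t.1 t.2
    rw [ext_of_mem _ _ t.2] at h3
    have h4 : u t = f t - ∑ i ∈ s, c i * ext (φ i) t.1 := by
      change (f - ∑ i ∈ s, c i • φ i) t = _
      rw [ContinuousMap.sub_apply, ContinuousMap.sum_apply]
      congr 1
      apply Finset.sum_congr rfl
      intro i _
      rw [ContinuousMap.smul_apply, smul_eq_mul, ext_of_mem _ _ t.2]
    rw [h4]
    exact h3.le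
  have h5 := hνb u
  rw [h1, abs_one] at h5
  linarith

end Pool.Agent.S02578
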