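import Pool.Statements.S02850
-- import your own Pool.Agent.* helpers here

set_option autoImplicit false
open Pool Pool.MP_275f89_an

namespace Pool.Agent.S02850

open Classical in
/-- The unit step `ε₀`. -/
noncomputable def e0 : ℝ → ℝ := fun x : ℝ => if 0 < x then (1 : ℝ) else 0

/-- The distance distribution functions. -/
def DD : Set (ℝ → ℝ) :=
  {F : ℝ → ℝ | Monotone F ∧ (∀ x, 0 ≤ F x ∧ F x ≤ 1) ∧ (∀ x : ℝ, x ≤ 0 → F x = 0) ∧
            ∀ x : ℝ, ContinuousWithinAt F (Set.Iio x) x}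

/-- Proper distribution functions: supremum one. -/
def Prp (F : ℝ → ℝ) : Prop := ∀ c : ℝ, c < 1 → ∃ x, c < F x

open Classical in
/-- The operation. -/
noncomputable def tau (F G : ℝ → ℝ) : ℝ → ℝ :=
  if F = e0 then G else if G = e0 then F else
    if Prp F ∧ Prp G then (fun x => min (F x) (G x)) else (fun _ => 0)

theorem tau_left {F G : ℝ → ℝ} (h : F = e0) : tau F G = G := by
  unfold tau; rw [if_pos h]

theorem tau_right {F G : ℝ → ℝ} (h : G = e0) : tau F G = F := by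
  unfold tau
  by_cases hF : F = e0
  · rw [if_pos hF, h, hF]
  · rw [if_neg hF, if_pos h]

theorem tau_min {F G : ℝ → ℝ} (hF : F ≠ e0) (hG : G ≠ e0) (hP : Prp F) (hQ : Prp G) :
    tau F G = fun x => min (F x) (G x) := by
  unfold tau; rw [if_neg hF, if_neg hG, if_pos ⟨hP, hQ⟩]

theorem tau_zero {F G : ℝ → ℝ} (hF : F ≠ e0) (hG : G ≠ e0) (hP : ¬ (Prp F ∧ Prp G)) :
    tau F G = fun _ => 0 := by
  unfold tau; rw [if_neg hF, if_neg hG, if_neg hP]

theorem le_e0 {F : ℝ → ℝ} (hF : F ∈ DD) : F ≤ e0 := by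
  intro x
  unfold e0
  by_cases hx : 0 < x
  · rw [if_pos hx]; exact (hF.2.1 x).2
  · rw [if_neg hx]; rw [hF.2.2.1 x (not_lt.mp hx)]

theorem zero_mem : (fun _ => 0 : ℝ → ℝ) ∈ DD := by
  refine ⟨fun _ _ _ => le_rfl, fun x => ⟨le_rfl, zero_le_one⟩, fun _ _ => rfl, fun x => ?_⟩
  exact continuousWithinAt_const

theorem min_mem {F G : ℝ → ℝ} (hF : F ∈ DD) (hG : G ∈ DD) :
    (fun x => min (F x) (G x)) ∈ DD := by
  refine ⟨fun x y h => min_le_min (hF.1 h) (hG.1 h), fun x => ⟨le_min (hF.2.1 x).1 (hG.2.1 x).1,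
    (min_le_left _ _).trans (hF.2.1 x).2⟩, fun x hx => ?_, fun x => ?_⟩
  · show min (F x) (G x) = 0
    rw [hF.2.2.1 x hx, hG.2.2.1 x hx, min_self]
  · exact (hF.2.2.2 x).min (hG.2.2.2 x)

theorem tau_mem {F G : ℝ → ℝ} (hF : F ∈ DD) (hG : G ∈ DD) : tau F G ∈ DD := by
  by_cases h1 : F = e0
  · rw [tau_left h1]; exact hG
  by_cases h2 : G = e0
  · rw [tau_right h2]; exact hF
  by_cases h3 : Prp F ∧ Prp G
  · rw [tau_min h1 h2 h3.1 h3.2]; exact min_mem hF hG
  · rw [tau_zero h1 h2 h3]; exact zero_mem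

theorem tau_comm (F G : ℝ → ℝ) : tau F G = tau G F := by
  by_cases h1 : F = e0
  · rw [tau_left h1, tau_right h1]
  by_cases h2 : G = e0
  · rw [tau_right h2, tau_left h2]
  by_cases h3 : Prp F ∧ Prp G
  · rw [tau_min h1 h2 h3.1 h3.2, tau_min h2 h1 h3.2 h3.1]
    funext x; exact min_comm _ _
  · rw [tau_zero h1 h2 h3, tau_zero h2 h1 (fun h => h3 ⟨h.2, h.1⟩)]

theorem not_prp_zero : ¬ Prp (fun _ => 0 : ℝ → ℝ) := by
  intro h
  obtain ⟨x, hx⟩ := h 0 one_pos
  exact lt_irrefl _ hx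

theorem zero_ne_e0 : (fun _ => 0 : ℝ → ℝ) ≠ e0 := by
  intro h
  have := congrFun h 1
  simp [e0] at this

theorem min_ne_e0 {F G : ℝ → ℝ} (hF : F ∈ DD) (h : F ≠ e0) :
    (fun x => min (F x) (G x)) ≠ e0 := by
  intro h'
  apply h
  apply le_antisymm (le_e0 hF)
  rw [← h']
  intro x
  exact min_le_left _ _

theorem prp_min {F G : ℝ → ℝ} (hF : F ∈ DD) (hG : G ∈ DD) (h1 : Prp F) (h2 : Prp G) :
    Prp (fun x => min (F x) (G x)) := by
  intro c hc
  obtain ⟨x, hx⟩ := h1 c hc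
  obtain ⟨y, hy⟩ := h2 c hc
  refine ⟨max x y, lt_min (hx.trans_le (hF.1 (le_max_left _ _))) (hy.trans_le (hG.1 (le_max_right _ _)))⟩

theorem prp_mono {F G : ℝ → ℝ} (h : F ≤ G) (h1 : Prp F) : Prp G := by
  intro c hc
  obtain ⟨x, hx⟩ := h1 c hc
  exact ⟨x, hx.trans_le (h x)⟩

theorem tau_assoc {F G H : ℝ → ℝ} (hF : F ∈ DD) (hG : G ∈ DD) (hH : H ∈ DD) :
    tau (tau F G) H = tau F (tau G H) := by
  by_cases h1 : F = e0
  · rw [tau_left h1, tau_left h1]
  by_cases h2 : G = e0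
  · rw [tau_right h2, tau_left h2]
  by_cases h3 : H = e0
  · rw [tau_right h3, tau_right h3]
  by_cases p1 : Prp F
  · by_cases p2 : Prp G
    · by_cases p3 : Prp H
      · rw [tau_min h1 h2 p1 p2, tau_min h2 h3 p2 p3,
          tau_min (min_ne_e0 hF h1) h3 (prp_min hF hG p1 p2) p3,
          tau_min h1 (min_ne_e0 hG h2) p1 (prp_min hG hH p2 p3)]
        funext x
        exact min_assoc _ _ _
      · rw [tau_min h1 h2 p1 p2, tau_zero h2 h3 (fun h => p3 h.2),
          tau_zero (min_ne_e0 hF h1) h3 (fun h => p3 h.2),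
          tau_zero h1 zero_ne_e0 (fun h => not_prp_zero h.2)]
    · rw [tau_zero h1 h2 (fun h => p2 h.2), tau_zero h2 h3 (fun h => p2 h.1),
        tau_zero zero_ne_e0 h3 (fun h => not_prp_zero h.1),
        tau_zero h1 zero_ne_e0 (fun h => not_prp_zero h.2)]
  · rw [tau_zero h1 h2 (fun h => p1 h.1), tau_zero zero_ne_e0 h3 (fun h => not_prp_zero h.1)]
    have h4 : tau G H ≠ e0 := by
      by_cases h5 : Prp G ∧ Prp H
      · rw [tau_min h2 h3 h5.1 h5.2]; exact min_ne_e0 hG h2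
      · rw [tau_zero h2 h3 h5]; exact zero_ne_e0
    rw [tau_zero h1 h4 (fun h => p1 h.1)]

theorem tau_mono {F₁ F₂ G : ℝ → ℝ} (hF1 : F₁ ∈ DD) (hF2 : F₂ ∈ DD) (hG : G ∈ DD)
    (h : F₁ ≤ F₂) : tau F₁ G ≤ tau F₂ G := by
  by_cases hg : G = e0
  · rw [tau_right hg, tau_right hg]; exact h
  by_cases h1 : F₁ = e0
  · have h2 : F₂ = e0 := le_antisymm (le_e0 hF2) (h1 ▸ h)
    rw [h1, h2]
  by_cases h2 : F₂ = e0
  · rw [tau_left h2]
    by_cases h3 : Prp F₁ ∧ Prp G
    · rw [tau_min h1 hg h3.1 h3.2]; intro x; exact min_le_right _ _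
    · rw [tau_zero h1 hg h3]; intro x; exact (hG.2.1 x).1
  by_cases h3 : Prp F₁ ∧ Prp G
  · rw [tau_min h1 hg h3.1 h3.2, tau_min h2 hg (prp_mono h h3.1) h3.2]
    intro x; exact min_le_min (h x) le_rfl
  · rw [tau_zero h1 hg h3]
    intro x
    exact ((tau_mem hF2 hG).2.1 x).1

/-- The first test function. -/
noncomputable def A1 : ℝ → ℝ := fun x => if x ≤ 0 then 0 else if x ≤ 2 then 1/2 else 1
/-- The second test function. -/
noncomputable def A2 : ℝ → ℝ := fun x => if x ≤ 0 then 0 else 1/2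

theorem step_cont (c : ℝ) (x : ℝ) :
    ContinuousWithinAt (fun x : ℝ => if x ≤ c then (0:ℝ) else 1) (Set.Iio x) x := by
  by_cases hx : x ≤ c
  · have : Set.EqOn (fun x : ℝ => if x ≤ c then (0:ℝ) else 1) (fun _ => 0) (Set.Iio x) := by
      intro y hy
      have : y ≤ c := (le_of_lt hy).trans hx
      simp [this]
    refine (continuousWithinAt_const).congr this ?_
    simp [hx]
  · have hx' : c < x := not_le.mp hx
    have : (fun x : ℝ => if x ≤ c then (0:ℝ) else 1) =ᶠ[nhds x] (fun _ => 1) := by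
      filter_upwards [Ioi_mem_nhds hx'] with y hy
      have : ¬ y ≤ c := not_le.mpr hy
      simp [this]
    exact (continuousAt_const.congr this.symm).continuousWithinAt

theorem A1_eq : A1 = fun x => (1/2) * (if x ≤ 0 then (0:ℝ) else 1) + (1/2) * (if x ≤ 2 then (0:ℝ) else 1) := by
  funext x
  unfold A1
  by_cases h : x ≤ 0
  · have h2 : x ≤ 2 := by linarith
    simp [h, h2]
  · by_cases h2 : x ≤ 2
    · simp [h, h2]
    · simp [h, h2]; norm_num

theorem A2_eq : A2 = fun x => (1/2) * (if x ≤ 0 then (0:ℝ) else 1) := by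
  funext x
  unfold A2
  by_cases h : x ≤ 0
  · simp [h]
  · simp [h]

theorem A1_mem : A1 ∈ DD := by
  refine ⟨?_, ?_, ?_, ?_⟩
  · intro x y h
    unfold A1
    split_ifs <;> first | linarith | norm_num | (exfalso; linarith)
  · intro x
    unfold A1
    split_ifs <;> norm_num
  · intro x hx
    simp [A1, hx]
  · intro x
    rw [A1_eq]
    exact (continuousWithinAt_const.mul (step_cont 0 x)).add (continuousWithinAt_const.mul (step_cont 2 x))

theorem A2_mem : A2 ∈ DD := by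
  refine ⟨?_, ?_, ?_, ?_⟩
  · intro x y h
    unfold A2
    split_ifs <;> first | linarith | norm_num | (exfalso; linarith)
  · intro x
    unfold A2
    split_ifs <;> norm_num
  · intro x hx
    simp [A2, hx]
  · intro x
    rw [A2_eq]
    exact (continuousWithinAt_const.mul (step_cont 0 x))

theorem A1_ne : A1 ≠ e0 := by
  intro h
  have := congrFun h 1
  simp [A1, e0] at this
  norm_num at this

theorem A2_ne : A2 ≠ e0 := by
  intro h
  have := congrFun h 1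
  simp [A2, e0] at this
  norm_num at this

theorem A1_prp : Prp A1 := by
  intro c hc
  refine ⟨3, ?_⟩
  have : A1 3 = 1 := by unfold A1; norm_num
  rw [this]; exact hc

theorem A2_not_prp : ¬ Prp A2 := by
  intro h
  obtain ⟨x, hx⟩ := h (1/2) (by norm_num)
  unfold A2 at hx
  split_ifs at hx <;> linarith

/-- The negation of the preceding statement: Every commutative, associative, monotone operation on distance distribution functions with identity ε₀ is causal: if F₁≤F₂ and G₁≤G₂ on (−∞,a] with a>0, then τ(F₁,G₁)≤τ(F₂,G₂) on (−∞,a]. -/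
theorem result :
    ¬ (∀ D : Set (ℝ → ℝ),
      D = {F : ℝ → ℝ | Monotone F ∧ (∀ x, 0 ≤ F x ∧ F x ≤ 1) ∧ (∀ x : ℝ, x ≤ 0 → F x = 0) ∧
            ∀ x : ℝ, ContinuousWithinAt F (Set.Iio x) x} →
      ∀ τ : (ℝ → ℝ) → (ℝ → ℝ) → (ℝ → ℝ),
        (∀ F ∈ D, ∀ G ∈ D, τ F G ∈ D) →
        (∀ F ∈ D, ∀ G ∈ D, τ F G = τ G F) →
        (∀ F ∈ D, ∀ G ∈ D, ∀ H ∈ D, τ (τ F G) H = τ F (τ G H)) →
        (∀ F ∈ D, τ F (fun x : ℝ => if 0 < x then (1 : ℝ) else 0) = F) →
        (∀ F₁ ∈ D, ∀ F₂ ∈ D, ∀ G ∈ D, F₁ ≤ F₂ → τ F₁ G ≤ τ F₂ G) →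
        ∀ a : ℝ, 0 < a →
          ∀ F₁ ∈ D, ∀ F₂ ∈ D, ∀ G₁ ∈ D, ∀ G₂ ∈ D,
            (∀ x : ℝ, x ≤ a → F₁ x ≤ F₂ x) →
            (∀ x : ℝ, x ≤ a → G₁ x ≤ G₂ x) →
            ∀ x : ℝ, x ≤ a → τ F₁ G₁ x ≤ τ F₂ G₂ x) := by
  intro H
  have he : (fun x : ℝ => if 0 < x then (1 : ℝ) else 0) = e0 := by
    funext x
    unfold e0
    by_cases h : 0 < x
    · simp only [if_pos h]
    · simp only [if_neg h]
  have key := H DD rfl tau (fun F hF G hG => tau_mem hF hG) (fun F _ G _ => tau_comm F G)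
    (fun F hF G hG K hK => tau_assoc hF hG hK) (fun F _ => tau_right he)
    (fun F₁ h1 F₂ h2 G hG h => tau_mono h1 h2 hG h) 1 one_pos
    A1 A1_mem A2 A2_mem A1 A1_mem A1 A1_mem (by
      intro x hx
      unfold A1 A2
      have h2 : x ≤ 2 := by linarith
      simp [h2]) (fun x _ => le_rfl) 1 le_rfl
  rw [tau_min A1_ne A1_ne A1_prp A1_prp, tau_zero A2_ne A1_ne (fun h => A2_not_prp h.1)] at key
  have h1 : A1 1 = 1/2 := by unfold A1; norm_num
  simp only [min_self] at key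
  rw [h1] at key
  norm_num at key

end Pool.Agent.S02850
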