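import Pool.Statements.S02874
-- import your own Pool.Agent.* helpers here

set_option autoImplicit false
open Pool Pool.MP_299699_an

namespace Pool.Agent.S02874

/-- The sequence space `ℓ²`. -/
abbrev E : Type := lp (fun _ : ℕ => ℝ) 2

theorem norm_sq (z : E) : ‖z‖ ^ 2 = ∑' k, (z k) ^ 2 := by
  have h := lp.norm_rpow_eq_tsum (p := 2) (by norm_num) z
  have h2 : (2 : ENNReal).toReal = 2 := by norm_num
  rw [h2] at h
  have h3 : ‖z‖ ^ (2:ℝ) = ‖z‖ ^ 2 := by norm_cast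
  rw [h3] at h
  rw [h]
  congr 1
  funext k
  have h4 : ‖z k‖ ^ (2:ℝ) = ‖z k‖ ^ 2 := by norm_cast
  rw [h4]
  simp [Real.norm_eq_abs, sq_abs]

theorem summ_sq (z : E) : Summable (fun k => (z k) ^ 2) := by
  have h := (lp.memℓp z).summable (p := 2) (by norm_num)
  have h2 : (2 : ENNReal).toReal = 2 := by norm_num
  rw [h2] at h
  refine h.congr (fun k => ?_)
  have h4 : ‖z k‖ ^ (2:ℝ) = ‖z k‖ ^ 2 := by norm_cast
  rw [h4]
  simp [Real.norm_eq_abs, sq_abs]

theorem mem_of_summ (a : ℕ → ℝ) (h : Summable (fun k => (a k) ^ 2)) :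
    Memℓp (E := fun _ : ℕ => ℝ) a 2 := by
  apply memℓp_gen
  have h2 : (2 : ENNReal).toReal = 2 := by norm_num
  rw [h2]
  refine h.congr (fun k => ?_)
  have h4 : ‖a k‖ ^ (2:ℝ) = ‖a k‖ ^ 2 := by norm_cast
  rw [h4]
  simp [Real.norm_eq_abs, sq_abs]

/-- A contractive diagonal operator. -/
noncomputable def diag (c : ℕ → ℝ) (hc : ∀ k, |c k| ≤ 1) (z : E) : E :=
  ⟨fun k => c k * z k, mem_of_summ _ (by
    refine Summable.of_nonneg_of_le (fun k => sq_nonneg _) (fun k => ?_) (summ_sq z)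
    rw [mul_pow]
    have h1 : (c k) ^ 2 ≤ 1 := by
      rw [← sq_abs]; exact pow_le_one₀ (abs_nonneg _) (hc k)
    nlinarith [sq_nonneg (z k)])⟩

theorem diag_apply (c : ℕ → ℝ) (hc : ∀ k, |c k| ≤ 1) (z : E) (k : ℕ) :
    (diag c hc z) k = c k * z k := rfl

theorem norm_diag_le (c : ℕ → ℝ) (hc : ∀ k, |c k| ≤ 1) (z : E) : ‖diag c hc z‖ ≤ ‖z‖ := by
  have h : ‖diag c hc z‖ ^ 2 ≤ ‖z‖ ^ 2 := by
    rw [norm_sq, norm_sq]
    refine Summable.tsum_le_tsum (fun k => ?_) (summ_sq _) (summ_sq z)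
    rw [diag_apply, mul_pow]
    have h1 : (c k) ^ 2 ≤ 1 := by
      rw [← sq_abs]; exact pow_le_one₀ (abs_nonneg _) (hc k)
    nlinarith [sq_nonneg (z k)]
  exact le_of_sq_le_sq h (norm_nonneg _) |> fun h => h

theorem diag_sub (c : ℕ → ℝ) (hc : ∀ k, |c k| ≤ 1) (z w : E) :
    diag c hc z - diag c hc w = diag c hc (z - w) := by
  ext k
  have h1 : (diag c hc z - diag c hc w : E) k = (diag c hc z) k - (diag c hc w) k := rfl
  have h2 : (z - w : E) k = z k - w k := rfl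
  rw [h1, diag_apply, diag_apply, diag_apply, h2]
  ring

/-- The diagonal entries. -/
noncomputable def cc (k : ℕ) : ℝ := 1 - 1 / ((k : ℝ) + 1)

theorem cc_le (k : ℕ) : |cc k| ≤ 1 := by
  unfold cc
  have h1 : (0:ℝ) < (k : ℝ) + 1 := by positivity
  have h2 : 0 < 1 / ((k : ℝ) + 1) := by positivity
  have h3 : 1 / ((k : ℝ) + 1) ≤ 1 := by
    rw [div_le_one h1]; linarith [Nat.cast_nonneg (α := ℝ) k]
  rw [abs_le]; constructor <;> linarith

/-- The space. -/
abbrev X : Type := ℝ × E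

/-- The map. -/
noncomputable def f (x : X) : X := (1 - ‖x.2‖, diag cc cc_le x.2)

theorem f_nonexp (x y : X) : dist (f x) (f y) ≤ dist x y := by
  rw [Prod.dist_eq, Prod.dist_eq]
  refine max_le ?_ ?_
  · refine le_trans ?_ (le_max_right _ _)
    show dist (1 - ‖x.2‖) (1 - ‖y.2‖) ≤ dist x.2 y.2
    rw [Real.dist_eq, dist_eq_norm]
    have : (1 - ‖x.2‖) - (1 - ‖y.2‖) = -(‖x.2‖ - ‖y.2‖) := by ring
    rw [this, abs_neg]
    exact abs_norm_sub_norm_le _ _
  · refine le_trans ?_ (le_max_right _ _)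
    show dist (diag cc cc_le x.2) (diag cc cc_le y.2) ≤ dist x.2 y.2
    rw [dist_eq_norm, dist_eq_norm, diag_sub]
    exact norm_diag_le _ _ _

theorem reflexive : Function.Surjective (NormedSpace.inclusionInDoubleDual ℝ X) := by
  intro φ
  -- second coordinate
  let P2 : StrongDual ℝ E →L[ℝ] StrongDual ℝ X :=
    (ContinuousLinearMap.compL ℝ X E ℝ).flip (ContinuousLinearMap.snd ℝ ℝ E)
  let ψ : StrongDual ℝ (StrongDual ℝ E) := φ.comp P2
  -- Riesz
  let T : E →L[ℝ] StrongDual ℝ E := innerSL ℝ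
  let θ : StrongDual ℝ E := ψ.comp T
  let z : E := (InnerProductSpace.toDual ℝ E).symm θ
  let t : ℝ := φ (ContinuousLinearMap.fst ℝ ℝ E)
  refine ⟨(t, z), ?_⟩
  ext ℓ
  rw [NormedSpace.dual_def]
  -- decompose ℓ
  have hdec : ℓ = (ℓ (1, 0)) • (ContinuousLinearMap.fst ℝ ℝ E)
      + P2 (ℓ.comp (ContinuousLinearMap.inr ℝ ℝ E)) := by
    apply ContinuousLinearMap.ext
    rintro ⟨a, b⟩
    have h1 : (a, b) = a • ((1, 0) : X) + ((0, b) : X) := by
      ext <;> simp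
    have h2 : ((ℓ (1, 0)) • (ContinuousLinearMap.fst ℝ ℝ E)
      + P2 (ℓ.comp (ContinuousLinearMap.inr ℝ ℝ E))) (a, b) = ℓ (1,0) * a + ℓ (0, b) := by
      simp [P2]
    rw [h2, h1, map_add, map_smul]
    simp [mul_comm]
  have hm : ∀ m : StrongDual ℝ E, ψ m = m z := by
    intro m
    obtain ⟨y, rfl⟩ := (InnerProductSpace.toDual ℝ E).surjective m
    have h1 : ψ ((InnerProductSpace.toDual ℝ E) y) = θ y := rfl
    rw [h1]
    have h2 : θ = (InnerProductSpace.toDual ℝ E) z := by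
      simp [z]
    rw [h2, InnerProductSpace.toDual_apply_apply, InnerProductSpace.toDual_apply_apply]
    exact real_inner_comm _ _
  have h3 : φ ℓ = ℓ (1,0) * t + ℓ (0, z) := by
    conv_lhs => rw [hdec]
    rw [map_add, map_smul]
    have h4 : φ (P2 (ℓ.comp (ContinuousLinearMap.inr ℝ ℝ E))) = ψ (ℓ.comp (ContinuousLinearMap.inr ℝ ℝ E)) := rfl
    rw [h4, hm]
    simp [t]
  rw [h3]
  have h1 : ((t, z) : X) = t • ((1, 0) : X) + ((0, z) : X) := by
    ext <;> simp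
  rw [h1, map_add, map_smul]
  simp [mul_comm]

theorem weak_compact : IsCompact ((toWeakSpace ℝ X) '' (Metric.closedBall (0 : X) 1)) := by
  have hc : (toWeakSpace ℝ X) '' (closure (Metric.closedBall (0 : X) 1))
      = closure (toWeakSpace ℝ X '' (Metric.closedBall (0 : X) 1)) :=
    Convex.toWeakSpace_closure ℝ (convex_closedBall _ _)
  rw [Metric.isClosed_closedBall.closure_eq] at hc
  rw [hc]
  apply NormedSpace.isCompact_closure_of_isBounded
  · rw [Set.preimage_image_eq _ (toWeakSpace ℝ X).injective]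
    exact Metric.isBounded_closedBall
  · intro φ _
    obtain ⟨x, hx⟩ := reflexive (WeakDual.toStrongDual φ)
    refine ⟨toWeakSpace ℝ X x, ?_⟩
    apply DFunLike.ext
    intro ℓ
    have := DFunLike.congr_fun hx ℓ
    rw [NormedSpace.dual_def] at this
    exact this

/-- Normal structure of a convex set in a Hilbert space, in a uniform form. -/
theorem hilbert_ns {F : Type} [NormedAddCommGroup F] [InnerProductSpace ℝ F] (K : Set F)
    (hK : Convex ℝ K) (hne : K.Nonempty) (d : ℝ) (hd : 0 < d) (h : ∀ x ∈ K, ∀ y ∈ K, dist x y ≤ d) :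
    ∃ x ∈ K, ∃ r : ℝ, r < d ∧ ∀ y ∈ K, dist x y ≤ r := by
  obtain ⟨x0, hx0⟩ := hne
  by_cases hall : ∀ y ∈ K, dist x0 y = 0
  · exact ⟨x0, hx0, 0, hd, fun y hy => (hall y hy).le⟩
  · push Not at hall
    obtain ⟨b, hb, hne⟩ := hall
    have hδ : 0 < dist x0 b := lt_of_le_of_ne dist_nonneg (Ne.symm hne)
    set δ := dist x0 b with hδd
    refine ⟨(1/2 : ℝ) • x0 + (1/2 : ℝ) • b, hK hx0 hb (by norm_num) (by norm_num) (by norm_num),
      Real.sqrt (d^2 - δ^2/4), ?_, ?_⟩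
    · rw [Real.sqrt_lt' hd]
      have : 0 < δ^2 := by positivity
      linarith
    · intro y hy
      apply Real.le_sqrt_of_sq_le
      have h1 := h x0 hx0 y hy
      have h2 := h b hb y hy
      have hp := parallelogram_law_with_norm ℝ (x0 - y) (b - y)
      have e1 : (x0 - y) - (b - y) = x0 - b := by abel
      have e2 : (x0 - y) + (b - y) = (2:ℝ) • ((1/2 : ℝ) • x0 + (1/2 : ℝ) • b - y) := by
        rw [smul_sub, smul_add, smul_smul, smul_smul, two_smul]
        norm_num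
        abel
      rw [e1, e2, norm_smul] at hp
      rw [dist_eq_norm] at h1 h2 hδd ⊢
      rw [← hδd] at hp
      have h3 : ‖(2:ℝ)‖ = 2 := by norm_num
      rw [h3] at hp
      have h4 : ‖x0 - y‖ * ‖x0 - y‖ ≤ d * d := mul_self_le_mul_self (norm_nonneg _) h1
      have h5 : ‖b - y‖ * ‖b - y‖ ≤ d * d := mul_self_le_mul_self (norm_nonneg _) h2
      nlinarith

theorem normal_structure (K : Set X) (hKC : K ⊆ Metric.closedBall (0 : X) 1) (hK : Convex ℝ K)
    (hne : ∃ a ∈ K, ∃ b ∈ K, a ≠ b) :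
    ∃ x ∈ K, ∃ r : ℝ, r < Metric.diam K ∧ ∀ y ∈ K, dist x y ≤ r := by
  obtain ⟨a, ha, b, hb, hab⟩ := hne
  have hbd : Bornology.IsBounded K := Metric.isBounded_closedBall.subset hKC
  set d := Metric.diam K with hd
  have hdist : ∀ x ∈ K, ∀ y ∈ K, dist x y ≤ d := fun x hx y hy => Metric.dist_le_diam_of_mem hbd hx hy
  have hd0 : 0 < d := (dist_pos.mpr hab).trans_le (hdist a ha b hb)
  have hc1 : Convex ℝ (Prod.fst '' K) := hK.linear_image (LinearMap.fst ℝ ℝ E)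
  have hc2 : Convex ℝ (Prod.snd '' K) := hK.linear_image (LinearMap.snd ℝ ℝ E)
  have hd1 : ∀ x ∈ (Prod.fst '' K), ∀ y ∈ (Prod.fst '' K), dist x y ≤ d := by
    rintro _ ⟨x, hx, rfl⟩ _ ⟨y, hy, rfl⟩
    exact (le_max_left _ _).trans (hdist x hx y hy)
  have hd2 : ∀ x ∈ (Prod.snd '' K), ∀ y ∈ (Prod.snd '' K), dist x y ≤ d := by
    rintro _ ⟨x, hx, rfl⟩ _ ⟨y, hy, rfl⟩
    exact (le_max_right _ _).trans (hdist x hx y hy)
  obtain ⟨_, ⟨x1, hx1, rfl⟩, r1, hr1, h1⟩ := hilbert_ns (Prod.fst '' K) hc1 ⟨_, a, ha, rfl⟩ d hd0 hd1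
  obtain ⟨_, ⟨x2, hx2, rfl⟩, r2, hr2, h2⟩ := hilbert_ns (Prod.snd '' K) hc2 ⟨_, a, ha, rfl⟩ d hd0 hd2
  have hmid : ∀ {F : Type} [NormedAddCommGroup F] [NormedSpace ℝ F] (u v y : F) (p q : ℝ),
      dist u y ≤ p → dist v y ≤ q → dist ((1/2 : ℝ) • u + (1/2 : ℝ) • v) y ≤ (p + q) / 2 := by
    intro F _ _ u v y p q hp hq
    rw [dist_eq_norm] at hp hq ⊢
    have e : (1/2 : ℝ) • u + (1/2 : ℝ) • v - y = (1/2 : ℝ) • (u - y) + (1/2 : ℝ) • (v - y) := by
      rw [smul_sub, smul_sub]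
      have : y = (1/2 : ℝ) • y + (1/2 : ℝ) • y := by
        rw [← add_smul]; norm_num
      conv_lhs => rw [this]
      abel
    rw [e]
    refine (norm_add_le _ _).trans ?_
    rw [norm_smul, norm_smul]
    have h3 : ‖(1/2:ℝ)‖ = 1/2 := by norm_num
    rw [h3]
    linarith
  refine ⟨(1/2 : ℝ) • x1 + (1/2 : ℝ) • x2, hK hx1 hx2 (by norm_num) (by norm_num) (by norm_num),
    max ((r1 + d)/2) ((d + r2)/2), ?_, ?_⟩
  · apply max_lt <;> linarith
  · intro y hy
    rw [Prod.dist_eq]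
    refine max_le_max ?_ ?_
    · exact hmid x1.1 x2.1 y.1 _ _ (h1 _ ⟨y, hy, rfl⟩) (hd1 _ ⟨x2, hx2, rfl⟩ _ ⟨y, hy, rfl⟩)
    · exact hmid x1.2 x2.2 y.2 _ _ (hd2 _ ⟨x1, hx1, rfl⟩ _ ⟨y, hy, rfl⟩) (h2 _ ⟨y, hy, rfl⟩)

/-- Unit vectors. -/
noncomputable def ee (k : ℕ) : E := lp.single 2 k (1 : ℝ)

theorem norm_ee (k : ℕ) : ‖ee k‖ = 1 := by
  have := lp.norm_single (p := 2) (E := fun _ : ℕ => ℝ) (by norm_num) k (1:ℝ)
  simpa [ee] using this

theorem diag_ee (k : ℕ) : ee k - diag cc cc_le (ee k) = (1 / ((k:ℝ) + 1)) • ee k := by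
  ext j
  have h1 : (ee k - diag cc cc_le (ee k) : E) j = (ee k) j - (diag cc cc_le (ee k)) j := rfl
  have h2 : ((1 / ((k:ℝ) + 1)) • ee k : E) j = (1 / ((k:ℝ) + 1)) * (ee k) j := rfl
  rw [h1, diag_apply, h2]
  by_cases hj : j = k
  · subst hj
    unfold cc
    ring
  · have : (ee k) j = 0 := by
      unfold ee
      rw [lp.single_apply_ne]
      exact hj
    rw [this]; ring

/-- The negation of the preceding statement: In every reflexive real Banach space, if C is closed, convex, weakly compact with normal structure and f is nonexpansive on C, then the set of values x minus f(x) for x in C is closed. -/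
theorem result :
    ¬ (∀ (X : Type) [NormedAddCommGroup X] [NormedSpace ℝ X] [CompleteSpace X],
    Function.Surjective (NormedSpace.inclusionInDoubleDual ℝ X) →
    ∀ (C : Set X), IsClosed C → Convex ℝ C → IsCompact ((toWeakSpace ℝ X) '' C) →
    (∀ K : Set X, K ⊆ C → Convex ℝ K → (∃ a ∈ K, ∃ b ∈ K, a ≠ b) →
        ∃ x ∈ K, ∃ r : ℝ, r < Metric.diam K ∧ ∀ y ∈ K, dist x y ≤ r) →
    ∀ f : X → X, (∀ x ∈ C, ∀ y ∈ C, dist (f x) (f y) ≤ dist x y) →
    IsClosed {z : X | ∃ x ∈ C, z = x - f x}) := by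
  intro H
  have hcl := H X reflexive (Metric.closedBall (0 : X) 1) Metric.isClosed_closedBall
    (convex_closedBall _ _) weak_compact normal_structure f (fun x _ y _ => f_nonexp x y)
  -- the limit point
  have hmem : ((1/2, 0) : X) ∈ {z : X | ∃ x ∈ Metric.closedBall (0 : X) 1, z = x - f x} := by
    refine hcl.mem_of_tendsto (b := Filter.atTop) (f := fun k : ℕ => ((1/2, (1 / ((k:ℝ) + 1)) • ee k) : X)) ?_ ?_
    · refine Filter.Tendsto.prodMk_nhds tendsto_const_nhds ?_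
      rw [tendsto_zero_iff_norm_tendsto_zero]
      have : (fun k : ℕ => ‖(1 / ((k:ℝ) + 1)) • ee k‖) = fun k : ℕ => 1 / ((k:ℝ) + 1) := by
        funext k
        rw [norm_smul, norm_ee, mul_one, Real.norm_of_nonneg (by positivity)]
      rw [this]
      exact tendsto_one_div_add_atTop_nhds_zero_nat
    · refine Filter.Eventually.of_forall (fun k => ?_)
      refine ⟨((1/2, ee k) : X), ?_, ?_⟩
      · rw [mem_closedBall_zero_iff, Prod.norm_def]
        refine max_le ?_ ?_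
        · show ‖(1/2:ℝ)‖ ≤ 1
          norm_num
        · show ‖ee k‖ ≤ 1
          rw [norm_ee]
      · unfold f
        rw [Prod.mk_sub_mk, diag_ee]
        refine Prod.ext ?_ rfl
        show (1/2 : ℝ) = 1/2 - (1 - ‖ee k‖)
        rw [norm_ee]; ring
  obtain ⟨x, hx, he⟩ := hmem
  have h1 : (1/2 : ℝ) = x.1 - (1 - ‖x.2‖) := congrArg Prod.fst he
  have h2 : (0 : E) = x.2 - diag cc cc_le x.2 := congrArg Prod.snd he
  have h3 : x.2 = 0 := by
    ext k
    have h4 : (0 : E) k = (x.2 - diag cc cc_le x.2 : E) k := by rw [← h2]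
    have h5 : (x.2 - diag cc cc_le x.2 : E) k = x.2 k - cc k * x.2 k := rfl
    rw [h5] at h4
    have h6 : (0 : E) k = 0 := rfl
    rw [h6] at h4 ⊢
    unfold cc at h4
    have h7 : (1 / ((k:ℝ) + 1)) * x.2 k = 0 := by linarith
    rcases mul_eq_zero.mp h7 with h8 | h8
    · exfalso
      have : (0:ℝ) < 1 / ((k:ℝ) + 1) := by positivity
      linarith
    · exact h8
  rw [h3, norm_zero] at h1
  rw [mem_closedBall_zero_iff, Prod.norm_def] at hx
  have h9 : ‖x.1‖ ≤ 1 := (le_max_left _ _).trans hx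
  rw [Real.norm_eq_abs, abs_le] at h9
  linarith

end Pool.Agent.S02874
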