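import Pool.Statements.S03220
-- import your own Pool.Agent.* helpers here

set_option autoImplicit false
open Pool Pool.MP_529e31_an

namespace Pool.Agent.S03220

/-- The radii. -/
def rr : ℕ → ℕ
  | 0 => 2
  | (j + 1) => 1024 * (rr j) ^ 4

theorem rr_pos (j : ℕ) : 2 ≤ rr j := by
  induction j with
  | zero => exact le_rfl
  | succ j ih =>
    show 2 ≤ 1024 * (rr j) ^ 4
    have : 1 ≤ (rr j) ^ 4 := Nat.one_le_pow _ _ (by omega)
    omega

theorem rr_step (j : ℕ) : rr j + 1 ≤ rr (j + 1) := by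
  show rr j + 1 ≤ 1024 * (rr j) ^ 4
  have h := rr_pos j
  have h2 : rr j ≤ (rr j) ^ 4 := Nat.le_self_pow (by norm_num) _
  omega

theorem rr_strict : StrictMono rr := strictMono_nat_of_lt_succ (fun j => rr_step j)

theorem rr_ge (j : ℕ) : j ≤ rr j := rr_strict.le_apply

/-- The union of sparse circles. -/
def S : Set ℂ := {z | ∃ j : ℕ, ‖z‖ = (rr j : ℝ)}

theorem S_bdd (f : ℂ → ℂ) (hf : Differentiable ℂ f) :
    Bornology.IsBounded (f '' S) ↔ Bornology.IsBounded (Set.range f) := by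
  constructor
  · intro h
    obtain ⟨C, hC⟩ := h.exists_norm_le
    rw [isBounded_iff_forall_norm_le]
    refine ⟨C, ?_⟩
    rintro _ ⟨z, rfl⟩
    obtain ⟨j, hj⟩ : ∃ j : ℕ, ‖z‖ < (rr j : ℝ) := by
      obtain ⟨n, hn⟩ := exists_nat_gt ‖z‖
      refine ⟨n, hn.trans_le ?_⟩
      exact_mod_cast rr_ge n
    have hr0 : (rr j : ℝ) ≠ 0 := by
      have := rr_pos j
      have h2 : (2:ℝ) ≤ rr j := by exact_mod_cast this
      linarith
    refine Complex.norm_le_of_forall_mem_frontier_norm_le (U := Metric.ball 0 (rr j : ℝ))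
      Metric.isBounded_ball hf.diffContOnCl ?_ ?_
    · intro w hw
      rw [frontier_ball _ hr0, mem_sphere_zero_iff_norm] at hw
      exact hC _ ⟨w, ⟨j, hw⟩, rfl⟩
    · apply subset_closure
      rw [mem_ball_zero_iff]
      exact hj
  · intro h
    exact h.subset (Set.image_subset_range _ _)

/-- The weight. -/
noncomputable def k (z : ℂ) : ℝ := Real.exp (‖z‖ ^ 2)

theorem k_little (A : ℝ) :
    Asymptotics.IsLittleO (Filter.cocompact ℂ) (fun z : ℂ => Real.exp (A * ‖z‖ ^ (1:ℝ))) k := by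
  refine (Asymptotics.isLittleO_iff_tendsto (fun z (h : k z = 0) => absurd h (Real.exp_pos _).ne')).mpr ?_
  have h1 : Filter.Tendsto (fun t : ℝ => Real.exp (A * t - t ^ 2)) Filter.atTop (nhds 0) := by
    apply Real.tendsto_exp_atBot.comp
    have h2 : (fun t : ℝ => A * t - t ^ 2) = fun t : ℝ => -(t * (t - A)) := by
      funext t; ring
    rw [h2]
    apply Filter.tendsto_neg_atTop_atBot.comp
    apply Filter.Tendsto.atTop_mul_atTop₀ Filter.tendsto_id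
    exact Filter.tendsto_atTop_add_const_right _ (-A) Filter.tendsto_id
  have h3 := h1.comp (tendsto_norm_cocompact_atTop (E := ℂ))
  refine h3.congr (fun z => ?_)
  show Real.exp (A * ‖z‖ - ‖z‖ ^ 2) = Real.exp (A * ‖z‖ ^ (1:ℝ)) / Real.exp (‖z‖ ^ 2)
  rw [Real.rpow_one, Real.exp_sub]

theorem growth (s t : ℝ) (hs : 1 ≤ s) (N : ℕ) (ht : 4 * (N:ℝ)^2 ≤ t) (ht0 : 0 < t) :
    (t / s) ^ N ≤ Real.exp t := by
  have h1 : (t / s) ^ N ≤ t ^ N := by
    apply pow_le_pow_left₀ (by positivity)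
    exact div_le_self ht0.le hs
  refine h1.trans ?_
  rw [← Real.exp_log (pow_pos ht0 N), Real.log_pow]
  apply Real.exp_le_exp.mpr
  have h2 : Real.log t ≤ 2 * Real.sqrt t := by
    have h3 : Real.log (Real.sqrt t) ≤ Real.sqrt t - 1 :=
      Real.log_le_sub_one_of_pos (Real.sqrt_pos.mpr ht0)
    rw [Real.log_sqrt ht0.le] at h3
    linarith
  have h4 : 2 * (N:ℝ) ≤ Real.sqrt t := by
    apply Real.le_sqrt_of_sq_le
    nlinarith
  have h5 : Real.sqrt t * Real.sqrt t = t := Real.mul_self_sqrt ht0.le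
  have h6 : (0:ℝ) ≤ N := Nat.cast_nonneg N
  have h7 : 0 ≤ Real.sqrt t := Real.sqrt_nonneg t
  calc (N:ℝ) * Real.log t ≤ N * (2 * Real.sqrt t) := mul_le_mul_of_nonneg_left h2 h6
    _ = (2 * N) * Real.sqrt t := by ring
    _ ≤ Real.sqrt t * Real.sqrt t := mul_le_mul_of_nonneg_right h4 h7
    _ = t := h5


/-- The negation of the preceding statement: For every ρ>0 and S in ℂ: if each entire f of order ρ finite type is bounded on S iff bounded on ℂ, then for each weight k in K_ρ there are k' in K_ρ and C>0 with ∣f∣≤k' on S implying ∣f∣≤Ck on ℂ (S sufficient). -/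
theorem result :
    ¬ (∀ ρ : ℝ, 0 < ρ → ∀ S : Set ℂ,
      (∀ f : ℂ → ℂ, Differentiable ℂ f →
        (∃ A B : ℝ, 0 < A ∧ 0 < B ∧ ∀ z : ℂ, ‖f z‖ ≤ B * Real.exp (A * ‖z‖ ^ ρ)) →
        (Bornology.IsBounded (f '' S) ↔ Bornology.IsBounded (Set.range f))) →
      ∀ k : ℂ → ℝ, Continuous k → (∀ z : ℂ, 0 < k z) →
        (∀ A : ℝ, 0 < A →
          Asymptotics.IsLittleO (Filter.cocompact ℂ) (fun z : ℂ => Real.exp (A * ‖z‖ ^ ρ)) k) →
        ∃ k' : ℂ → ℝ, Continuous k' ∧ (∀ z : ℂ, 0 < k' z) ∧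
          (∀ A : ℝ, 0 < A →
            Asymptotics.IsLittleO (Filter.cocompact ℂ) (fun z : ℂ => Real.exp (A * ‖z‖ ^ ρ)) k') ∧
          ∃ C : ℝ, 0 < C ∧
            ∀ f : ℂ → ℂ, Differentiable ℂ f →
              (∃ A B : ℝ, 0 < A ∧ 0 < B ∧ ∀ z : ℂ, ‖f z‖ ≤ B * Real.exp (A * ‖z‖ ^ ρ)) →
              (∀ z ∈ S, ‖f z‖ ≤ k' z) → ∀ z : ℂ, ‖f z‖ ≤ C * k z) := by
  intro H
  obtain ⟨k', hk'c, hk'pos, hk'lit, C, hC, hf⟩ := H 1 one_pos S (fun f hf _ => S_bdd f hf) k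
    (by unfold k; fun_prop) (fun z => Real.exp_pos _) (fun A _ => k_little A)
  -- k' dominates exp |z| far out
  have h1 := (hk'lit 1 one_pos).bound (c := 1) one_pos
  rw [Filter.Eventually, Filter.mem_cocompact] at h1
  obtain ⟨K, hK, hK2⟩ := h1
  obtain ⟨R, hR⟩ := hK.isBounded.exists_norm_le
  have hfar : ∀ z : ℂ, R < ‖z‖ → Real.exp ‖z‖ ≤ k' z := by
    intro z hz
    have hzK : z ∈ Kᶜ := fun h => absurd (hR z h) (not_le.mpr hz)
    have := hK2 hzK
    simp only [Set.mem_ofPred_eq, Real.rpow_one, one_mul, Real.norm_eq_abs] at this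
    rwa [abs_of_pos (Real.exp_pos _), abs_of_pos (hk'pos z)] at this
  -- positive lower bound
  obtain ⟨ε, hε, hε1, hεk⟩ : ∃ ε : ℝ, 0 < ε ∧ ε ≤ 1 ∧ ∀ z, ε ≤ k' z := by
    have hR' : (Metric.closedBall (0:ℂ) |R|).Nonempty := ⟨0, by simp⟩
    obtain ⟨w, _, hw⟩ := (isCompact_closedBall (0:ℂ) |R|).exists_isMinOn hR' hk'c.continuousOn
    refine ⟨min 1 (k' w), lt_min one_pos (hk'pos w), min_le_left _ _, fun z => ?_⟩
    by_cases hz : ‖z‖ ≤ |R|
    · refine (min_le_right _ _).trans (hw ?_)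
      rw [mem_closedBall_zero_iff]; exact hz
    · refine (min_le_left _ _).trans ?_
      have := hfar z ((le_abs_self R).trans_lt (not_le.mp hz))
      exact (Real.one_le_exp (norm_nonneg z)).trans this
  -- choose j
  obtain ⟨j, hj⟩ : ∃ j : ℕ, max (|R| + 1) (C / ε) < (j : ℝ) := exists_nat_gt _
  have hjR : |R| + 1 < (j : ℝ) := (le_max_left _ _).trans_lt hj
  have hjC : C / ε < (j : ℝ) := (le_max_right _ _).trans_lt hj
  have hrj : (j : ℝ) ≤ rr j := by exact_mod_cast rr_ge j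
  have hr2 : (2:ℝ) ≤ rr j := by exact_mod_cast rr_pos j
  obtain ⟨N, hN⟩ : ∃ N : ℕ, N = 16 * (rr j) ^ 2 := ⟨_, rfl⟩
  have hNr : 4 * (N:ℝ)^2 ≤ rr (j + 1) := by
    have : 4 * N ^ 2 ≤ rr (j + 1) := by
      show 4 * N ^ 2 ≤ 1024 * (rr j) ^ 4
      rw [hN]
      apply le_of_eq; ring
    exact_mod_cast this
  have hNN : (N : ℝ) = 16 * (rr j : ℝ) ^ 2 := by rw [hN]; push_cast; ring
  let g : ℂ → ℂ := fun z => (ε : ℂ) * (z / (rr j : ℂ)) ^ N
  have hg : ∀ z, ‖g z‖ = ε * (‖z‖ / rr j) ^ N := by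
    intro z
    show ‖(ε : ℂ) * (z / (rr j : ℂ)) ^ N‖ = _
    rw [norm_mul, norm_pow, norm_div, Complex.norm_real, Real.norm_of_nonneg hε.le, Complex.norm_natCast]
  have hgd : Differentiable ℂ g := by
    show Differentiable ℂ (fun z : ℂ => (ε : ℂ) * (z / (rr j : ℂ)) ^ N)
    fun_prop
  have hr1 : (1:ℝ) ≤ rr j := by linarith
  have hgS : ∀ z ∈ S, ‖g z‖ ≤ k' z := by
    rintro z ⟨i, hi⟩
    rw [hg]
    by_cases hij : i ≤ j
    · refine le_trans ?_ (hεk z)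
      have h2 : ‖z‖ / rr j ≤ 1 := by
        rw [div_le_one (by linarith), hi]
        exact_mod_cast rr_strict.monotone hij
      have h3 : (‖z‖ / rr j) ^ N ≤ 1 := pow_le_one₀ (by positivity) h2
      calc ε * (‖z‖ / rr j) ^ N ≤ ε * 1 := mul_le_mul_of_nonneg_left h3 hε.le
        _ = ε := mul_one _
    · have h4 : (rr (j+1) : ℝ) ≤ ‖z‖ := by
        rw [hi]; exact_mod_cast rr_strict.monotone (by omega : j + 1 ≤ i)
      have h5 : (rr j : ℝ) + 1 ≤ rr (j+1) := by exact_mod_cast rr_step j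
      have h6 := growth (rr j) ‖z‖ hr1 N (hNr.trans h4) (by linarith)
      have h7 : R < ‖z‖ := by
        have := le_abs_self R
        linarith
      calc ε * (‖z‖ / rr j) ^ N ≤ 1 * Real.exp ‖z‖ :=
            mul_le_mul hε1 h6 (by positivity) zero_le_one
        _ = Real.exp ‖z‖ := one_mul _
        _ ≤ k' z := hfar z h7
  have hgE : ∃ A B : ℝ, 0 < A ∧ 0 < B ∧ ∀ z : ℂ, ‖g z‖ ≤ B * Real.exp (A * ‖z‖ ^ (1:ℝ)) := by
    refine ⟨1, (N.factorial : ℝ), one_pos, by positivity, fun z => ?_⟩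
    rw [hg, Real.rpow_one, one_mul]
    have h8 : (‖z‖) ^ N / N.factorial ≤ Real.exp ‖z‖ := Real.pow_div_factorial_le_exp _ (norm_nonneg z) N
    have hfac : (0:ℝ) < N.factorial := by positivity
    rw [div_le_iff₀ hfac] at h8
    have h9 : (‖z‖ / rr j) ^ N ≤ ‖z‖ ^ N :=
      pow_le_pow_left₀ (by positivity) (div_le_self (norm_nonneg z) hr1) N
    calc ε * (‖z‖ / rr j) ^ N ≤ 1 * ‖z‖ ^ N := mul_le_mul hε1 h9 (by positivity) zero_le_one
      _ = ‖z‖ ^ N := one_mul _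
      _ ≤ N.factorial * Real.exp ‖z‖ := by rw [mul_comm]; exact h8
  have hfin := hf g hgd hgE hgS ((2 * rr j : ℝ) : ℂ)
  rw [hg] at hfin
  unfold k at hfin
  have hn : ‖((2 * rr j : ℝ) : ℂ)‖ = 2 * rr j := by
    rw [Complex.norm_real, Real.norm_of_nonneg (by positivity)]
  rw [hn] at hfin
  have h10 : (2 * (rr j : ℝ)) / rr j = 2 := by field_simp
  rw [h10] at hfin
  -- ε 2^N ≤ C exp (4 r^2), N = 16 r^2
  have h11 : Real.exp (8 * (rr j : ℝ)^2) ≤ (2:ℝ) ^ N := by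
    have h12 : (2:ℝ)^N = Real.exp (N * Real.log 2) := by
      rw [← Real.log_pow, Real.exp_log (by positivity)]
    rw [h12, hNN]
    apply Real.exp_le_exp.mpr
    have := Real.log_two_gt_d9
    nlinarith [sq_nonneg (rr j : ℝ)]
  have h13 : Real.exp (8 * (rr j : ℝ)^2) = Real.exp (4 * (rr j : ℝ)^2) * Real.exp (4 * (rr j : ℝ)^2) := by
    rw [← Real.exp_add]; congr 1; ring
  have h14 : (2 * (rr j : ℝ))^2 = 4 * (rr j : ℝ)^2 := by ring
  rw [h14] at hfin
  have h15 : ε * (Real.exp (4 * (rr j : ℝ)^2) * Real.exp (4 * (rr j : ℝ)^2)) ≤ C * Real.exp (4 * (rr j : ℝ)^2) := by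
    rw [← h13]
    exact (mul_le_mul_of_nonneg_left h11 hε.le).trans hfin
  have hE : 0 < Real.exp (4 * (rr j : ℝ)^2) := Real.exp_pos _
  have h16 : ε * Real.exp (4 * (rr j : ℝ)^2) ≤ C := by
    have : (ε * Real.exp (4 * (rr j : ℝ)^2)) * Real.exp (4 * (rr j : ℝ)^2) ≤ C * Real.exp (4 * (rr j : ℝ)^2) := by
      rw [mul_assoc]; exact h15
    exact le_of_mul_le_mul_right this hE
  have h17 : (rr j : ℝ) ≤ Real.exp (4 * (rr j : ℝ)^2) := by
    have := Real.add_one_le_exp (4 * (rr j : ℝ)^2)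
    nlinarith
  have h18 : C < ε * j := by
    rw [div_lt_iff₀ hε] at hjC
    linarith
  have h19 : ε * (j:ℝ) ≤ ε * Real.exp (4 * (rr j : ℝ)^2) :=
    mul_le_mul_of_nonneg_left (hrj.trans h17) hε.le
  linarith

end Pool.Agent.S03220
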