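import Pool.Statements.S03239
-- import your own Pool.Agent.* helpers here

set_option autoImplicit false
open Pool Pool.MP_555292_an

namespace Pool.Agent.S03239

theorem summ_of_ss (z : ℕ → ℝ) (p : ℕ) (h0 : ∀ n, 0 < z n)
    (hz : ∀ m, z (m + p) = z m / 15) (hp : 0 < p) : Summable z := by
  have hC : 0 ≤ ∑ i ∈ Finset.range p, z i := Finset.sum_nonneg (fun i _ => (h0 i).le)
  apply summable_of_sum_range_le (c := (15/14) * ∑ i ∈ Finset.range p, z i) (fun n => (h0 n).le)
  intro n
  induction n using Nat.strong_induction_on with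
  | _ n ih =>
    by_cases hn : n ≤ p
    · have : ∑ i ∈ Finset.range n, z i ≤ ∑ i ∈ Finset.range p, z i :=
        Finset.sum_le_sum_of_subset_of_nonneg (Finset.range_mono hn) (fun i _ _ => (h0 i).le)
      linarith
    · obtain ⟨m, rfl⟩ : ∃ m, n = p + m := ⟨n - p, by omega⟩
      rw [Finset.sum_range_add]
      have h1 : ∑ x ∈ Finset.range m, z (p + x) = (∑ x ∈ Finset.range m, z x) / 15 := by
        rw [Finset.sum_div]
        exact Finset.sum_congr rfl (fun x _ => by rw [add_comm, hz])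
      rw [h1]
      have := ih m (by omega)
      linarith

/-- Coinduction principle. -/
theorem coind (z : ℕ → ℝ) (p : ℕ) (hp : 0 < p) (hz : ∀ m, z (m + p) = z m / 15) (hs : Summable z)
    (B : Set ℝ) (M : ℝ) (hB : ∀ b ∈ B, |b| ≤ M)
    (h : ∀ b ∈ B, ∃ T : Set ℕ, ∃ b' ∈ B, b = (∑ i ∈ Finset.range p, T.indicator z i) + b' / 15)
    (b : ℝ) (hb : b ∈ B) : ∃ A : Set ℕ, b = ∑' n, A.indicator z n := by
  choose! T nx hnx hT using h
  let s : ℕ → ℝ := fun n => nx^[n] b
  have hs' : ∀ n, s (n+1) = nx (s n) := fun n => Function.iterate_succ_apply' nx n b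
  have hsB : ∀ n, s n ∈ B := by
    intro n
    induction n with
    | zero => exact hb
    | succ n ih => rw [hs']; exact hnx _ ih
  let A : Set ℕ := {m | m % p ∈ T (s (m / p))}
  have hzN : ∀ N i, z (p * N + i) = z i / 15 ^ N := by
    intro N i
    induction N with
    | zero => simp
    | succ N ih =>
      have : p * (N+1) + i = (p * N + i) + p := by ring
      rw [this, hz, ih, pow_succ, div_div]
  have hA : ∀ N, ∀ i < p, A.indicator z (p * N + i) = (T (s N)).indicator z i / 15 ^ N := by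
    intro N i hi
    have h1 : (p * N + i) % p = i := by rw [Nat.mul_add_mod]; exact Nat.mod_eq_of_lt hi
    have h2 : (p * N + i) / p = N := by
      rw [Nat.mul_add_div hp, Nat.div_eq_of_lt hi, add_zero]
    by_cases hm : i ∈ T (s N)
    · have : (p * N + i) ∈ A := by
        show (p*N+i) % p ∈ T (s ((p*N+i)/p))
        rw [h1, h2]; exact hm
      rw [Set.indicator_of_mem this, Set.indicator_of_mem hm, hzN]
    · have : (p * N + i) ∉ A := by
        show ¬ ((p*N+i) % p ∈ T (s ((p*N+i)/p)))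
        rw [h1, h2]; exact hm
      rw [Set.indicator_of_notMem this, Set.indicator_of_notMem hm, zero_div]
  have key : ∀ N, b = (∑ m ∈ Finset.range (p * N), A.indicator z m) + s N / 15 ^ N := by
    intro N
    induction N with
    | zero => simp [s]
    | succ N ih =>
      have e1 : p * (N+1) = p * N + p := by ring
      have e2 : ∑ x ∈ Finset.range p, A.indicator z (p * N + x)
          = (∑ x ∈ Finset.range p, (T (s N)).indicator z x) / 15 ^ N := by
        rw [Finset.sum_div]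
        exact Finset.sum_congr rfl (fun x hx => hA N x (Finset.mem_range.mp hx))
      have e3 := hT (s N) (hsB N)
      have e5 : s N / 15 ^ N = (∑ x ∈ Finset.range p, (T (s N)).indicator z x) / 15 ^ N
          + nx (s N) / 15 ^ (N+1) := by
        have e6 : s N / 15 ^ N = ((∑ x ∈ Finset.range p, (T (s N)).indicator z x)
          + nx (s N) / 15) / 15 ^ N := congrArg (fun t => t / 15 ^ N) e3
        rw [e6, add_div, pow_succ, div_div, mul_comm (15:ℝ)]
      rw [e1, Finset.sum_range_add, e2, hs' N]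
      linarith
  refine ⟨A, ?_⟩
  have hsA : Summable (A.indicator z) := hs.indicator A
  have t1 := hsA.hasSum.tendsto_sum_nat
  have t2 : Filter.Tendsto (fun N : ℕ => p * N) Filter.atTop Filter.atTop := by
    refine Filter.tendsto_atTop_mono (fun N => ?_) Filter.tendsto_id
    exact Nat.le_mul_of_pos_left N hp
  have t3 := t1.comp t2
  have t5 : Filter.Tendsto (fun N => s N / 15 ^ N) Filter.atTop (nhds 0) := by
    have t6 : Filter.Tendsto (fun N : ℕ => M * (1/15 : ℝ) ^ N) Filter.atTop (nhds 0) := by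
      have := (tendsto_pow_atTop_nhds_zero_of_lt_one (r := (1/15 : ℝ)) (by norm_num) (by norm_num)).const_mul M
      simpa using this
    refine squeeze_zero_norm (fun N => ?_) t6
    rw [Real.norm_eq_abs, abs_div, abs_of_pos (by positivity : (0:ℝ) < 15 ^ N), div_eq_mul_inv, one_div, inv_pow]
    exact mul_le_mul_of_nonneg_right (hB _ (hsB N)) (by positivity)
  have t4 : Filter.Tendsto (fun N => b - s N / 15 ^ N) Filter.atTop (nhds (b - 0)) :=
    tendsto_const_nhds.sub t5
  have t7 : (fun N => b - s N / 15 ^ N)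
      = ((fun n => ∑ i ∈ Finset.range n, A.indicator z i) ∘ fun N => p * N) := by
    funext N
    have := key N
    show b - s N / 15 ^ N = ∑ i ∈ Finset.range (p * N), A.indicator z i
    linarith
  rw [t7, sub_zero] at t4
  exact tendsto_nhds_unique t4 t3

theorem unfold1 (z : ℕ → ℝ) (p : ℕ) (hz : ∀ m, z (m + p) = z m / 15) (hs : Summable z) (A : Set ℕ) :
    ∃ A' : Set ℕ, ∑' n, A.indicator z n
      = (∑ i ∈ Finset.range p, A.indicator z i) + (∑' n, A'.indicator z n) / 15 := by
  refine ⟨{m | m + p ∈ A}, ?_⟩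
  rw [← (hs.indicator A).sum_add_tsum_nat_add p]
  congr 1
  rw [← tsum_div_const]
  congr 1
  funext m
  by_cases hm : m + p ∈ A
  · rw [Set.indicator_of_mem hm, Set.indicator_of_mem (s := {m | m + p ∈ A}) (a := m) hm, hz]
  · rw [Set.indicator_of_notMem hm, Set.indicator_of_notMem (s := {m | m + p ∈ A}) (a := m) hm, zero_div]

/-- The fast convergent sequence. -/
noncomputable def x (n : ℕ) : ℝ := (if n % 2 = 0 then 210 else 28) / 15 ^ (n / 2)

/-- Coefficients of the second sequence. -/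
def cf (n : ℕ) : ℝ := if n = 0 then 28 else if n = 1 then 42 else if n = 2 then 49 else
  if n = 3 then 56 else 63

/-- The second sequence. -/
noncomputable def y (n : ℕ) : ℝ := cf (n % 5) / 15 ^ (n / 5)

theorem x_ss (m : ℕ) : x (m + 2) = x m / 15 := by
  unfold x
  have h1 : (m + 2) % 2 = m % 2 := by omega
  have h2 : (m + 2) / 2 = m / 2 + 1 := by omega
  rw [h1, h2, pow_succ, div_div]

theorem y_ss (m : ℕ) : y (m + 5) = y m / 15 := by
  unfold y
  have h1 : (m + 5) % 5 = m % 5 := by omega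
  have h2 : (m + 5) / 5 = m / 5 + 1 := by omega
  rw [h1, h2, pow_succ, div_div]

theorem x_pos (n : ℕ) : 0 < x n := by
  unfold x
  split_ifs <;> positivity

theorem cf_pos (n : ℕ) : 0 < cf n := by
  unfold cf
  split_ifs <;> norm_num

theorem y_pos (n : ℕ) : 0 < y n := by
  unfold y
  have := cf_pos (n % 5)
  positivity

theorem x_summ : Summable x := summ_of_ss x 2 x_pos x_ss (by norm_num)
theorem y_summ : Summable y := summ_of_ss y 5 y_pos y_ss (by norm_num)

theorem x0 : x 0 = 210 := by unfold x; norm_num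
theorem x1 : x 1 = 28 := by unfold x; norm_num
theorem y0 : y 0 = 28 := by unfold y cf; norm_num
theorem y1 : y 1 = 42 := by unfold y cf; norm_num
theorem y2 : y 2 = 49 := by unfold y cf; norm_num
theorem y3 : y 3 = 56 := by unfold y cf; norm_num
theorem y4 : y 4 = 63 := by unfold y cf; norm_num

/-- Tail sums. -/
noncomputable def tl (n : ℕ) : ℝ := ∑' k, x (n + k)

theorem tl_ss (n : ℕ) : tl (n + 2) = tl n / 15 := by
  unfold tl
  rw [← tsum_div_const]
  congr 1
  funext k
  rw [← x_ss]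
  congr 1
  ring

theorem x_summ' (n : ℕ) : Summable (fun k => x (n + k)) := by
  have := (summable_nat_add_iff n).mpr x_summ
  refine this.congr (fun k => ?_)
  rw [add_comm]

theorem tl_succ (n : ℕ) : tl n = x n + tl (n + 1) := by
  unfold tl
  rw [(x_summ' n).tsum_eq_zero_add]
  congr 1
  congr 1
  funext k
  congr 1
  ring

theorem tl0 : tl 0 = 255 := by
  have h1 := tl_succ 0
  have h2 := tl_succ 1
  have h3 := tl_ss 0
  rw [x0] at h1
  rw [x1] at h2
  norm_num at h1 h2 h3
  linarith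

theorem tl1 : tl 1 = 45 := by
  have h1 := tl_succ 0
  rw [x0, tl0] at h1
  norm_num at h1
  linarith

theorem tl2 : tl 2 = 17 := by
  have h3 := tl_ss 0
  rw [tl0] at h3
  norm_num at h3
  linarith

theorem tl_nonneg (n : ℕ) : 0 ≤ tl n := tsum_nonneg (fun k => (x_pos _).le)

theorem fast (n : ℕ) : tl (n + 1) < x n := by
  induction n using Nat.strong_induction_on with
  | _ n ih =>
    match n, ih with
    | 0, _ => rw [x0, zero_add, tl1]; norm_num
    | 1, _ => rw [x1]; have := tl2; norm_num; rw [this]; norm_num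
    | (n + 2), ih =>
      have h1 := ih n (by omega)
      have h2 : tl (n + 2 + 1) = tl (n + 1) / 15 := tl_ss (n + 1)
      rw [h2, x_ss]
      linarith

/-- The achievement sets. -/
def AX : Set ℝ := {s : ℝ | ∃ A : Set ℕ, s = ∑' n, A.indicator x n}
/-- The achievement sets. -/
def AY : Set ℝ := {s : ℝ | ∃ A : Set ℕ, s = ∑' n, A.indicator y n}
/-- The gaps with even index. -/
def U : Set ℝ := {t : ℝ | ∃ n : ℕ, Even n ∧ ∃ T : Set ℕ,
    (∑ i ∈ Finset.range n, T.indicator x i) + tl (n + 1) < t ∧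
    t < (∑ i ∈ Finset.range n, T.indicator x i) + x n}

theorem U_mid (t : ℝ) (h1 : 45 < t) (h2 : t < 210) : t ∈ U := by
  refine ⟨0, by norm_num, ∅, ?_, ?_⟩
  · rw [Finset.range_zero, Finset.sum_empty, zero_add, zero_add, tl1]; exact h1
  · rw [Finset.range_zero, Finset.sum_empty, zero_add, x0]; exact h2

theorem ind_shift (T : Set ℕ) (i : ℕ) : T.indicator x (2 + i) = ({m | 2 + m ∈ T} : Set ℕ).indicator x i / 15 := by
  by_cases h : 2 + i ∈ T
  · rw [Set.indicator_of_mem h, Set.indicator_of_mem (s := {m | 2 + m ∈ T}) (a := i) h, add_comm, x_ss]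
  · rw [Set.indicator_of_notMem h, Set.indicator_of_notMem (s := {m | 2 + m ∈ T}) (a := i) h, zero_div]

theorem sum_shift (T : Set ℕ) (n : ℕ) : ∑ i ∈ Finset.range (2 + n), T.indicator x i
    = (∑ i ∈ Finset.range 2, T.indicator x i)
      + (∑ i ∈ Finset.range n, ({m | 2 + m ∈ T} : Set ℕ).indicator x i) / 15 := by
  rw [Finset.sum_range_add, Finset.sum_div]
  congr 1
  exact Finset.sum_congr rfl (fun i _ => ind_shift T i)

theorem U_in (t : ℝ) (ht : t ∈ U) (T : Set ℕ) :
    (∑ i ∈ Finset.range 2, T.indicator x i) + t / 15 ∈ U := by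
  obtain ⟨n, hn, S, h1, h2⟩ := ht
  let S' : Set ℕ := {m | (m < 2 ∧ m ∈ T) ∨ (2 ≤ m ∧ m - 2 ∈ S)}
  have e1 : ({m | 2 + m ∈ S'} : Set ℕ) = S := by
    ext m
    constructor
    · rintro (⟨h, _⟩ | ⟨_, h⟩)
      · omega
      · have : 2 + m - 2 = m := by omega
        rw [this] at h
        exact h
    · intro h
      right
      refine ⟨by omega, ?_⟩
      have : 2 + m - 2 = m := by omega
      rw [this]
      exact h
  have e2 : (∑ i ∈ Finset.range 2, S'.indicator x i) = (∑ i ∈ Finset.range 2, T.indicator x i) := by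
    refine Finset.sum_congr rfl (fun i hi => ?_)
    have hi' := Finset.mem_range.mp hi
    by_cases h : i ∈ T
    · have : i ∈ S' := Or.inl ⟨hi', h⟩
      rw [Set.indicator_of_mem h, Set.indicator_of_mem this]
    · have : i ∉ S' := by
        rintro (⟨_, h'⟩ | ⟨h', _⟩)
        · exact h h'
        · omega
      rw [Set.indicator_of_notMem h, Set.indicator_of_notMem this]
  refine ⟨2 + n, ?_, S', ?_, ?_⟩
  · exact Even.add (by norm_num) hn
  · rw [sum_shift, e1, e2]
    have h3 : tl (2 + n + 1) = tl (n + 1) / 15 := by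
      rw [← tl_ss]; congr 1; ring
    rw [h3]
    linarith
  · rw [sum_shift, e1, e2]
    have h3 : x (2 + n) = x n / 15 := by
      rw [← x_ss, add_comm]
    rw [h3]
    linarith

theorem U_out (t : ℝ) (ht : t ∈ U) : (45 < t ∧ t < 210) ∨
    ∃ T : Set ℕ, ∃ t' ∈ U, t = (∑ i ∈ Finset.range 2, T.indicator x i) + t' / 15 := by
  obtain ⟨n, hn, S, h1, h2⟩ := ht
  rcases Nat.eq_zero_or_pos n with h | h
  · subst h
    left
    rw [Finset.range_zero, Finset.sum_empty, zero_add] at h1 h2
    rw [zero_add, tl1] at h1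
    rw [x0] at h2
    exact ⟨h1, h2⟩
  · right
    obtain ⟨m, hm⟩ := hn
    obtain ⟨k, rfl⟩ : ∃ k, n = 2 + k := ⟨n - 2, by omega⟩
    refine ⟨S, 15 * (t - (∑ i ∈ Finset.range 2, S.indicator x i)), ?_, by ring⟩
    rw [sum_shift] at h1 h2
    have h3 : tl (2 + k + 1) = tl (k + 1) / 15 := by
      rw [← tl_ss]; congr 1; ring
    have h4 : x (2 + k) = x k / 15 := by
      rw [← x_ss, add_comm]
    rw [h3] at h1
    rw [h4] at h2
    refine ⟨k, ⟨m - 1, by omega⟩, {m | 2 + m ∈ S}, ?_, ?_⟩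
    · linarith
    · linarith

theorem ind_le (z : ℕ → ℝ) (hz : ∀ n, 0 < z n) (T : Set ℕ) (n : ℕ) : T.indicator z n ≤ z n := by
  by_cases h : n ∈ T
  · rw [Set.indicator_of_mem h]
  · rw [Set.indicator_of_notMem h]; exact (hz n).le

theorem ind_nonneg (z : ℕ → ℝ) (hz : ∀ n, 0 < z n) (T : Set ℕ) (n : ℕ) : 0 ≤ T.indicator z n :=
  Set.indicator_nonneg (fun n _ => (hz n).le) n

theorem tsx : ∑' n, x n = 255 := by
  have := tl0
  unfold tl at this
  simpa using this

theorem AX_bd (t : ℝ) (ht : t ∈ AX) : 0 ≤ t ∧ t ≤ 255 := by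
  obtain ⟨A, rfl⟩ := ht
  refine ⟨tsum_nonneg (ind_nonneg x x_pos A), ?_⟩
  rw [← tsx]
  exact Summable.tsum_le_tsum (ind_le x x_pos A) (x_summ.indicator A) x_summ

theorem U_bd (t : ℝ) (ht : t ∈ U) : 0 ≤ t ∧ t ≤ 255 := by
  obtain ⟨n, _, S, h1, h2⟩ := ht
  constructor
  · have h3 : 0 ≤ ∑ i ∈ Finset.range n, S.indicator x i :=
      Finset.sum_nonneg (fun i _ => ind_nonneg x x_pos S i)
    have := tl_nonneg (n + 1)
    linarith
  · have h3 : ∑ i ∈ Finset.range n, S.indicator x i ≤ ∑ i ∈ Finset.range n, x i :=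
      Finset.sum_le_sum (fun i _ => ind_le x x_pos S i)
    have h4 : ∑ i ∈ Finset.range (n + 1), x i ≤ ∑' n, x n :=
      x_summ.sum_le_tsum _ (fun i _ => (x_pos i).le)
    rw [Finset.sum_range_succ, tsx] at h4
    linarith

theorem Dx (T : Set ℕ) : ∃ a b : Bool, ∑ i ∈ Finset.range 2, T.indicator x i
    = (if a then 210 else 0) + (if b then 28 else 0) := by
  classical
  refine ⟨decide (0 ∈ T), decide (1 ∈ T), ?_⟩
  rw [Finset.sum_range_succ, Finset.sum_range_succ, Finset.sum_range_zero, zero_add]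
  congr 1
  · by_cases h : 0 ∈ T
    · rw [Set.indicator_of_mem h, x0]; simp [h]
    · rw [Set.indicator_of_notMem h]; simp [h]
  · by_cases h : 1 ∈ T
    · rw [Set.indicator_of_mem h, x1]; simp [h]
    · rw [Set.indicator_of_notMem h]; simp [h]

theorem Dx' (a b : Bool) : ∃ T : Set ℕ, ∑ i ∈ Finset.range 2, T.indicator x i
    = (if a then 210 else 0) + (if b then 28 else 0) := by
  refine ⟨{n | (n = 0 ∧ a = true) ∨ (n = 1 ∧ b = true)}, ?_⟩
  rw [Finset.sum_range_succ, Finset.sum_range_succ, Finset.sum_range_zero, zero_add]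
  cases a <;> cases b <;> simp [Set.indicator, x0, x1]

theorem Dy (T : Set ℕ) : ∃ a b c d e : Bool, ∑ i ∈ Finset.range 5, T.indicator y i
    = (if a then 28 else 0) + (if b then 42 else 0) + (if c then 49 else 0)
      + (if d then 56 else 0) + (if e then 63 else 0) := by
  classical
  refine ⟨decide (0 ∈ T), decide (1 ∈ T), decide (2 ∈ T), decide (3 ∈ T), decide (4 ∈ T), ?_⟩
  rw [Finset.sum_range_succ, Finset.sum_range_succ, Finset.sum_range_succ, Finset.sum_range_succ,
    Finset.sum_range_succ, Finset.sum_range_zero, zero_add]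
  congr 1
  · congr 1
    · congr 1
      · congr 1
        · by_cases h : 0 ∈ T
          · rw [Set.indicator_of_mem h, y0]; simp [h]
          · rw [Set.indicator_of_notMem h]; simp [h]
        · by_cases h : 1 ∈ T
          · rw [Set.indicator_of_mem h, y1]; simp [h]
          · rw [Set.indicator_of_notMem h]; simp [h]
      · by_cases h : 2 ∈ T
        · rw [Set.indicator_of_mem h, y2]; simp [h]
        · rw [Set.indicator_of_notMem h]; simp [h]
    · by_cases h : 3 ∈ T
      · rw [Set.indicator_of_mem h, y3]; simp [h]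
      · rw [Set.indicator_of_notMem h]; simp [h]
  · by_cases h : 4 ∈ T
    · rw [Set.indicator_of_mem h, y4]; simp [h]
    · rw [Set.indicator_of_notMem h]; simp [h]

theorem Dy' (a b c d e : Bool) : ∃ T : Set ℕ, ∑ i ∈ Finset.range 5, T.indicator y i
    = (if a then 28 else 0) + (if b then 42 else 0) + (if c then 49 else 0)
      + (if d then 56 else 0) + (if e then 63 else 0) := by
  refine ⟨{n | (n = 0 ∧ a = true) ∨ (n = 1 ∧ b = true) ∨ (n = 2 ∧ c = true) ∨ (n = 3 ∧ d = true)
    ∨ (n = 4 ∧ e = true)}, ?_⟩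
  rw [Finset.sum_range_succ, Finset.sum_range_succ, Finset.sum_range_succ, Finset.sum_range_succ,
    Finset.sum_range_succ, Finset.sum_range_zero, zero_add]
  cases a <;> cases b <;> cases c <;> cases d <;> cases e <;>
    simp [Set.indicator, y0, y1, y2, y3, y4]

theorem tsy : ∑' n, y n = 255 := by
  have h := y_summ.sum_add_tsum_nat_add 5
  rw [Finset.sum_range_succ, Finset.sum_range_succ, Finset.sum_range_succ, Finset.sum_range_succ,
    Finset.sum_range_succ, Finset.sum_range_zero, zero_add, y0, y1, y2, y3, y4] at h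
  have h2 : ∑' i, y (i + 5) = (∑' i, y i) / 15 := by
    rw [← tsum_div_const]
    congr 1
    funext m
    exact y_ss m
  rw [h2] at h
  linarith

theorem AY_bd (t : ℝ) (ht : t ∈ AY) : 0 ≤ t ∧ t ≤ 255 := by
  obtain ⟨A, rfl⟩ := ht
  refine ⟨tsum_nonneg (ind_nonneg y y_pos A), ?_⟩
  rw [← tsy]
  exact Summable.tsum_le_tsum (ind_le y y_pos A) (y_summ.indicator A) y_summ

/-- Digit analysis. -/
theorem digits (a b c d e : Bool) : ∃ f : ℝ, f = ((if a then 28 else 0) + (if b then 42 else 0) + (if c then 49 else 0)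
      + (if d then 56 else 0) + (if e then 63 else 0) : ℝ) ∧
    (f = 0 ∨ f = 28 ∨ f = 42 ∨ (49 ≤ f ∧ f ≤ 189) ∨ f = 196 ∨ f = 210 ∨ f = 238) := by
  refine ⟨_, rfl, ?_⟩
  cases a <;> cases b <;> cases c <;> cases d <;> cases e <;> norm_num

theorem AY_out (t : ℝ) (ht : t ∈ AY) : ∃ f : ℝ, ∃ t' ∈ AY, t = f + t' / 15 ∧
    (f = 0 ∨ f = 28 ∨ f = 42 ∨ (49 ≤ f ∧ f ≤ 189) ∨ f = 196 ∨ f = 210 ∨ f = 238) ∧
    ∃ T : Set ℕ, ∑ i ∈ Finset.range 5, T.indicator y i = f := by
  obtain ⟨A, rfl⟩ := ht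
  obtain ⟨A', h⟩ := unfold1 y 5 y_ss y_summ A
  obtain ⟨a, b, c, d, e, h2⟩ := Dy A
  obtain ⟨f, hf, h3⟩ := digits a b c d e
  refine ⟨f, _, ⟨A', rfl⟩, ?_, h3, A, ?_⟩
  · rw [h, h2, hf]
  · rw [h2, hf]

theorem coindY (B : Set ℝ) (M : ℝ) (hB : ∀ b ∈ B, |b| ≤ M)
    (h : ∀ b ∈ B, ∃ T : Set ℕ, ∃ b' ∈ B, b = (∑ i ∈ Finset.range 5, T.indicator y i) + b' / 15)
    (b : ℝ) (hb : b ∈ B) : b ∈ AY :=
  coind y 5 (by norm_num) y_ss y_summ B M hB h b hb

theorem AY_up (u : ℝ) (hu : u ∈ AY) (h45 : u ≤ 45) : u + 210 ∈ AY := by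
  refine coindY (AY ∪ {w | ∃ u ∈ AY, u ≤ 45 ∧ w = u + 210}) 500 ?_ ?_ _ (Or.inr ⟨u, hu, h45, rfl⟩)
  · rintro b (hb | ⟨v, hv, hv2, rfl⟩)
    · have := AY_bd b hb
      rw [abs_le]; constructor <;> linarith
    · have := AY_bd v hv
      rw [abs_le]; constructor <;> linarith
  · rintro b (hb | ⟨v, hv, hv2, rfl⟩)
    · obtain ⟨f, t', ht', h1, _, T, hT⟩ := AY_out b hb
      exact ⟨T, t', Or.inl ht', by rw [hT]; exact h1⟩
    · obtain ⟨f, t', ht', h1, h2, T, hT⟩ := AY_out v hv
      have hbd := AY_bd t' ht'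
      rcases h2 with h | h | h | h | h | h | h
      · obtain ⟨T', hT'⟩ := Dy' false true true true true
        refine ⟨T', t', Or.inl ht', ?_⟩
        rw [hT', h1, h]; norm_num; ring
      · obtain ⟨T', hT'⟩ := Dy' true true true true true
        refine ⟨T', t', Or.inl ht', ?_⟩
        rw [hT', h1, h]; norm_num; ring
      · obtain ⟨T', hT'⟩ := Dy' true true true true true
        refine ⟨T', t' + 210, Or.inr ⟨t', ht', ?_, rfl⟩, ?_⟩
        · rw [h1, h] at hv2; linarith
        · rw [hT', h1, h]; norm_num; ring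
      · exfalso; linarith [h.1]
      · exfalso; linarith
      · exfalso; linarith
      · exfalso; linarith

theorem AY_down (u : ℝ) (hu : u ∈ AY) (h210 : 210 ≤ u) : u - 210 ∈ AY := by
  refine coindY (AY ∪ {w | ∃ u ∈ AY, 210 ≤ u ∧ w = u - 210}) 500 ?_ ?_ _ (Or.inr ⟨u, hu, h210, rfl⟩)
  · rintro b (hb | ⟨v, hv, hv2, rfl⟩)
    · have := AY_bd b hb
      rw [abs_le]; constructor <;> linarith
    · have := AY_bd v hv
      rw [abs_le]; constructor <;> linarith
  · rintro b (hb | ⟨v, hv, hv2, rfl⟩)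
    · obtain ⟨f, t', ht', h1, _, T, hT⟩ := AY_out b hb
      exact ⟨T, t', Or.inl ht', by rw [hT]; exact h1⟩
    · obtain ⟨f, t', ht', h1, h2, T, hT⟩ := AY_out v hv
      have hbd := AY_bd t' ht'
      rcases h2 with h | h | h | h | h | h | h
      · exfalso; linarith
      · exfalso; linarith
      · exfalso; linarith
      · exfalso; linarith [h.2]
      · obtain ⟨T', hT'⟩ := Dy' false false false false false
        refine ⟨T', t' - 210, Or.inr ⟨t', ht', ?_, rfl⟩, ?_⟩
        · rw [h1, h] at hv2; linarith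
        · rw [hT', h1, h]; norm_num; ring
      · obtain ⟨T', hT'⟩ := Dy' false false false false false
        refine ⟨T', t', Or.inl ht', ?_⟩
        rw [hT', h1, h]; norm_num
      · obtain ⟨T', hT'⟩ := Dy' true false false false false
        refine ⟨T', t', Or.inl ht', ?_⟩
        rw [hT', h1, h]; norm_num; ring

/-- The key lemma. -/
theorem AY_key (t : ℝ) (ht : t ∈ AY) : (45 < t ∧ t < 210) ∨
    ∃ T : Set ℕ, ∃ t' ∈ AY, t = (∑ i ∈ Finset.range 2, T.indicator x i) + t' / 15 := by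
  obtain ⟨f, t', ht', h1, h2, T, hT⟩ := AY_out t ht
  have hbd := AY_bd t' ht'
  rcases h2 with h | h | h | h | h | h | h
  · right
    obtain ⟨T', hT'⟩ := Dx' false false
    refine ⟨T', t', ht', ?_⟩
    rw [hT', h1, h]; norm_num
  · right
    obtain ⟨T', hT'⟩ := Dx' false true
    refine ⟨T', t', ht', ?_⟩
    rw [hT', h1, h]; norm_num
  · by_cases h45 : 45 < t
    · left; exact ⟨h45, by linarith⟩
    · right
      have h5 : t' ≤ 45 := by linarith
      obtain ⟨T', hT'⟩ := Dx' false true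
      refine ⟨T', t' + 210, AY_up t' ht' h5, ?_⟩
      rw [hT', h1, h]; norm_num; ring
  · left
    exact ⟨by linarith [h.1], by linarith [h.2]⟩
  · by_cases h210 : t < 210
    · left; exact ⟨by linarith, h210⟩
    · right
      have h5 : 210 ≤ t' := by linarith
      obtain ⟨T', hT'⟩ := Dx' true false
      refine ⟨T', t' - 210, AY_down t' ht' h5, ?_⟩
      rw [hT', h1, h]; norm_num; ring
  · right
    obtain ⟨T', hT'⟩ := Dx' true false
    refine ⟨T', t', ht', ?_⟩
    rw [hT', h1, h]; norm_num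
  · right
    obtain ⟨T', hT'⟩ := Dx' true true
    refine ⟨T', t', ht', ?_⟩
    rw [hT', h1, h]; norm_num

theorem sub1 (t : ℝ) (ht : t ∈ AY) : t ∈ AX ∪ U := by
  by_cases hU : t ∈ U
  · exact Or.inr hU
  · left
    refine coind x 2 (by norm_num) x_ss x_summ {b | b ∈ AY ∧ b ∉ U} 255 ?_ ?_ t ⟨ht, hU⟩
    · rintro b ⟨hb, _⟩
      have := AY_bd b hb
      rw [abs_le]; constructor <;> linarith
    · rintro b ⟨hb, hbU⟩
      rcases AY_key b hb with ⟨h1, h2⟩ | ⟨T, b', hb', he⟩
      · exact absurd (U_mid b h1 h2) hbU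
      · refine ⟨T, b', ⟨hb', fun h => hbU ?_⟩, he⟩
        rw [he]
        exact U_in b' h T

theorem digits7 (k : ℕ) (h1 : 6 ≤ k) (h2 : k ≤ 28) : ∃ a b c d e : Bool,
    ((if a then 28 else 0) + (if b then 42 else 0) + (if c then 49 else 0)
      + (if d then 56 else 0) + (if e then 63 else 0) : ℕ) = 7 * k := by
  interval_cases k <;> decide

theorem digits7' (k : ℕ) (h1 : 6 ≤ k) (h2 : k ≤ 28) : ∃ T : Set ℕ,
    ∑ i ∈ Finset.range 5, T.indicator y i = 7 * (k : ℝ) := by
  obtain ⟨a, b, c, d, e, h⟩ := digits7 k h1 h2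
  obtain ⟨T, hT⟩ := Dy' a b c d e
  refine ⟨T, ?_⟩
  rw [hT]
  have := congrArg (fun n : ℕ => (n : ℝ)) h
  push_cast at this
  exact this

theorem find_k (b : ℝ) (h1 : 45 < b) (h2 : b < 210) : ∃ k : ℕ, 6 ≤ k ∧ k ≤ 28 ∧
    3 < b - 7 * (k : ℝ) ∧ b - 7 * (k : ℝ) < 14 := by
  by_cases hb : b < 100
  · -- k = ⌈(b-3)/7⌉ - 1
    obtain ⟨m, hm⟩ : ∃ m : ℕ, m = ⌈(b - 3) / 7⌉₊ := ⟨_, rfl⟩
    have h3 : (b - 3) / 7 ≤ (m : ℝ) := by rw [hm]; exact Nat.le_ceil _
    have h4 : (m : ℝ) < (b - 3) / 7 + 1 := by rw [hm]; exact Nat.ceil_lt_add_one (by linarith)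
    have h5 : 6 < m := by
      have : (6 : ℝ) < m := by linarith
      exact_mod_cast this
    have h6 : m < 16 := by
      have : (m : ℝ) < 16 := by linarith
      exact_mod_cast this
    obtain ⟨k, rfl⟩ : ∃ k, m = k + 1 := ⟨m - 1, by omega⟩
    push_cast at h3 h4
    refine ⟨k, by omega, by omega, by linarith, by linarith⟩
  · obtain ⟨m, hm⟩ : ∃ m : ℕ, m = ⌊(b - 14) / 7⌋₊ := ⟨_, rfl⟩
    have h3 : (m : ℝ) ≤ (b - 14) / 7 := by rw [hm]; exact Nat.floor_le (by linarith)
    have h4 : (b - 14) / 7 < (m : ℝ) + 1 := by rw [hm]; exact Nat.lt_floor_add_one _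
    have h5 : 11 < m + 1 := by
      have : (11 : ℝ) < (m : ℝ) + 1 := by linarith
      exact_mod_cast this
    have h6 : m < 28 := by
      have : (m : ℝ) < 28 := by linarith
      exact_mod_cast this
    refine ⟨m + 1, by omega, by omega, ?_, ?_⟩
    · push_cast; linarith
    · push_cast; linarith

theorem sub2 (t : ℝ) (ht : t ∈ AX ∪ U) : t ∈ AY := by
  refine coindY (AX ∪ U) 255 ?_ ?_ t ht
  · intro b hb
    have : 0 ≤ b ∧ b ≤ 255 := by
      rcases hb with hb | hb
      · exact AX_bd b hb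
      · exact U_bd b hb
    rw [abs_le]; constructor <;> linarith [this.1, this.2]
  · intro b hb
    have key : (45 < b ∧ b < 210) ∨ ∃ T : Set ℕ, ∃ b' ∈ AX ∪ U,
        b = (∑ i ∈ Finset.range 2, T.indicator x i) + b' / 15 := by
      rcases hb with hb | hb
      · right
        obtain ⟨A, rfl⟩ := hb
        obtain ⟨A', h⟩ := unfold1 x 2 x_ss x_summ A
        exact ⟨A, _, Or.inl ⟨A', rfl⟩, h⟩
      · rcases U_out b hb with h | ⟨T, b', hb', he⟩
        · exact Or.inl h
        · exact Or.inr ⟨T, b', Or.inr hb', he⟩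
    rcases key with ⟨h1, h2⟩ | ⟨T, b', hb', he⟩
    · obtain ⟨k, hk1, hk2, hk3, hk4⟩ := find_k b h1 h2
      obtain ⟨T, hT⟩ := digits7' k hk1 hk2
      refine ⟨T, 15 * (b - 7 * (k : ℝ)), Or.inr (U_mid _ (by linarith) (by linarith)), ?_⟩
      rw [hT]; ring
    · obtain ⟨p, q, hpq⟩ := Dx T
      rw [hpq] at he
      have : ∃ T' : Set ℕ, ∑ i ∈ Finset.range 5, T'.indicator y i
          = (if p then 210 else 0) + (if q then 28 else 0) := by
        cases p <;> cases q
        · obtain ⟨T', hT'⟩ := Dy' false false false false false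
          exact ⟨T', by rw [hT']; norm_num⟩
        · obtain ⟨T', hT'⟩ := Dy' true false false false false
          exact ⟨T', by rw [hT']; norm_num⟩
        · obtain ⟨T', hT'⟩ := Dy' false true true true true
          exact ⟨T', by rw [hT']; norm_num⟩
        · obtain ⟨T', hT'⟩ := Dy' true true true true true
          exact ⟨T', by rw [hT']; norm_num⟩
      obtain ⟨T', hT'⟩ := this
      exact ⟨T', b', hb', by rw [hT']; exact he⟩

open Classical in
theorem U_eq : U = {t : ℝ | ∃ n : ℕ, Even n ∧ ∃ F : Finset ℕ, F ⊆ Finset.range n ∧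
              (∑ i ∈ F, x i) + (∑' k, x (n + 1 + k)) < t ∧
              t < (∑ i ∈ F, x i) + x n} := by
  ext t
  constructor
  · rintro ⟨n, hn, T, h1, h2⟩
    refine ⟨n, hn, (Finset.range n).filter (fun i => i ∈ T), Finset.filter_subset _ _, ?_⟩
    have : ∑ i ∈ (Finset.range n).filter (fun i => i ∈ T), x i
        = ∑ i ∈ Finset.range n, T.indicator x i := by
      rw [Finset.sum_filter]
      refine Finset.sum_congr rfl (fun i _ => ?_)
      by_cases h : i ∈ T
      · rw [if_pos h, Set.indicator_of_mem h]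
      · rw [if_neg h, Set.indicator_of_notMem h]
    rw [this]
    exact ⟨h1, h2⟩
  · rintro ⟨n, hn, F, hF, h1, h2⟩
    refine ⟨n, hn, (F : Set ℕ), ?_⟩
    have : ∑ i ∈ Finset.range n, (F : Set ℕ).indicator x i = ∑ i ∈ F, x i :=
      Finset.sum_indicator_subset x hF
    rw [this]
    exact ⟨h1, h2⟩

/-- There is a positive summable x with each term exceeding its tail sum, such that the set of all its subsums together with the gaps removed at odd construction steps equals the set of all subsums of some positive summable sequence. -/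
theorem result :
    ∃ x : ℕ → ℝ, (∀ n, 0 < x n) ∧ Summable x ∧
      (∀ n, ∑' k, x (n + 1 + k) < x n) ∧
      ∃ y : ℕ → ℝ, (∀ n, 0 < y n) ∧ Summable y ∧
        {s : ℝ | ∃ A : Set ℕ, s = ∑' n, A.indicator y n} =
          {s : ℝ | ∃ A : Set ℕ, s = ∑' n, A.indicator x n} ∪
          {t : ℝ | ∃ n : ℕ, Even n ∧ ∃ F : Finset ℕ, F ⊆ Finset.range n ∧
              (∑ i ∈ F, x i) + (∑' k, x (n + 1 + k)) < t ∧
              t < (∑ i ∈ F, x i) + x n} := by
  refine ⟨x, x_pos, x_summ, fast, y, y_pos, y_summ, ?_⟩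
  rw [← U_eq]
  apply Set.Subset.antisymm
  · exact sub1
  · exact sub2

end Pool.Agent.S03239
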