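import Pool.Statements.S03308
-- import your own Pool.Agent.* helpers here

set_option autoImplicit false
open Pool Pool.MP_5e6479_an

namespace Pool.Agent.S03308

/-- The closed set. -/
def EE : Set ℂ := {z | z.re ≤ 0 ∨ ∃ k : ℤ, z.im = k * Real.pi}

theorem EE_closed : IsClosed EE := by
  have h1 : IsClosed {z : ℂ | z.re ≤ 0} := isClosed_le Complex.continuous_re continuous_const
  have h2 : IsClosed {z : ℂ | ∃ k : ℤ, z.im = k * Real.pi} := by
    have : {z : ℂ | ∃ k : ℤ, z.im = k * Real.pi} = {z : ℂ | Real.sin z.im = 0} := by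
      ext z
      constructor
      · rintro ⟨k, hk⟩
        show Real.sin z.im = 0
        rw [hk]; exact Real.sin_int_mul_pi k
      · intro h
        obtain ⟨k, hk⟩ := Real.sin_eq_zero_iff.mp h
        exact ⟨k, hk.symm⟩
    rw [this]
    exact isClosed_eq (Real.continuous_sin.comp Complex.continuous_im) continuous_const
  exact h1.union h2

theorem norm_sin_le (w : ℂ) : ‖Complex.sin w‖ ≤ Real.exp ‖w‖ := by
  unfold Complex.sin
  rw [norm_div, norm_mul, Complex.norm_I, mul_one]
  have h1 : ‖Complex.exp (-w * Complex.I)‖ ≤ Real.exp ‖w‖ := by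
    rw [Complex.norm_exp]
    apply Real.exp_le_exp.mpr
    refine (Complex.re_le_norm _).trans (le_of_eq ?_)
    rw [norm_mul, Complex.norm_I, mul_one, norm_neg]
  have h2 : ‖Complex.exp (w * Complex.I)‖ ≤ Real.exp ‖w‖ := by
    rw [Complex.norm_exp]
    apply Real.exp_le_exp.mpr
    refine (Complex.re_le_norm _).trans (le_of_eq ?_)
    rw [norm_mul, Complex.norm_I, mul_one]
  have h3 := norm_sub_le (Complex.exp (-w * Complex.I)) (Complex.exp (w * Complex.I))
  have h4 : ‖(2:ℂ)‖ = 2 := by norm_num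
  rw [h4, div_le_iff₀ two_pos]
  linarith

theorem f_bdd (z : ℂ) (hz : z ∈ EE) : ‖Complex.sin (Complex.exp z)‖ ≤ Real.exp 1 := by
  rcases hz with h | ⟨k, hk⟩
  · refine (norm_sin_le _).trans ?_
    apply Real.exp_le_exp.mpr
    rw [Complex.norm_exp]
    exact Real.exp_le_one_iff.mpr h
  · have h1 : (Complex.exp z).im = 0 := by
      rw [Complex.exp_im, hk, Real.sin_int_mul_pi, mul_zero]
    have h2 : Complex.exp z = (((Complex.exp z).re : ℝ) : ℂ) := by
      apply Complex.ext
      · rw [Complex.ofReal_re]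
      · rw [Complex.ofReal_im]; exact h1
    rw [h2, ← Complex.ofReal_sin, Complex.norm_real, Real.norm_eq_abs]
    refine (Real.abs_sin_le_one _).trans ?_
    exact Real.one_le_exp zero_le_one

theorem f_transc : ¬ ∃ p : Polynomial ℂ, ∀ z, Complex.sin (Complex.exp z) = p.eval z := by
  rintro ⟨p, hp⟩
  have hinf : Set.Infinite {z : ℂ | p.IsRoot z} := by
    let φ : ℕ → ℂ := fun n => ((Real.log (((n:ℝ) + 1) * Real.pi) : ℝ) : ℂ)
    have hpos : ∀ n : ℕ, 0 < ((n:ℝ) + 1) * Real.pi := fun n => mul_pos (by positivity) Real.pi_pos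
    have hinj : Function.Injective φ := by
      intro a b hab
      have h1 : Real.log (((a:ℝ) + 1) * Real.pi) = Real.log (((b:ℝ) + 1) * Real.pi) :=
        Complex.ofReal_injective hab
      have h2 := Real.log_injOn_pos (hpos a) (hpos b) h1
      have h3 := mul_right_cancel₀ Real.pi_pos.ne' h2
      have h4 : (a:ℝ) = b := by linarith
      exact_mod_cast h4
    refine Set.infinite_of_injective_forall_mem hinj (fun n => ?_)
    show p.eval (φ n) = 0
    rw [← hp]
    have h5 : Complex.exp (φ n) = (((((n:ℝ) + 1) * Real.pi) : ℝ) : ℂ) := by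
      show Complex.exp ((Real.log (((n:ℝ) + 1) * Real.pi) : ℝ) : ℂ) = _
      rw [← Complex.ofReal_exp, Real.exp_log (hpos n)]
    rw [h5, ← Complex.ofReal_sin]
    have h6 : Real.sin (((n:ℝ) + 1) * Real.pi) = 0 := by
      have := Real.sin_nat_mul_pi (n + 1)
      push_cast at this
      exact this
    rw [h6]; rfl
  have hp0 := Polynomial.eq_zero_of_infinite_isRoot p hinf
  have h7 := hp 0
  rw [hp0, Complex.exp_zero, Polynomial.eval_zero] at h7
  have h8 : Real.sin 1 = 0 := by
    have : ((Real.sin 1 : ℝ) : ℂ) = 0 := by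
      rw [Complex.ofReal_sin, Complex.ofReal_one]; exact h7
    exact_mod_cast this
  have h9 : 0 < Real.sin 1 := Real.sin_pos_of_pos_of_lt_pi one_pos (by linarith [Real.pi_gt_three])
  linarith

theorem g_transc : ¬ ∃ p : Polynomial ℂ, ∀ z, Complex.exp z = p.eval z := by
  rintro ⟨p, hp⟩
  have hinf : Set.Infinite {z : ℂ | (p - 1).IsRoot z} := by
    let φ : ℕ → ℂ := fun n => (n : ℂ) * (2 * Real.pi * Complex.I)
    have h2pi : (2 * (Real.pi : ℂ) * Complex.I) ≠ 0 := Complex.two_pi_I_ne_zero
    have hinj : Function.Injective φ := by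
      intro a b hab
      have h2 := mul_right_cancel₀ h2pi hab
      exact_mod_cast h2
    refine Set.infinite_of_injective_forall_mem hinj (fun n => ?_)
    show (p - 1).eval (φ n) = 0
    rw [Polynomial.eval_sub, Polynomial.eval_one, ← hp]
    have : Complex.exp (φ n) = 1 := Complex.exp_nat_mul_two_pi_mul_I n
    rw [this, sub_self]
  have hp0 := Polynomial.eq_zero_of_infinite_isRoot (p - 1) hinf
  have hp1 : p = 1 := sub_eq_zero.mp hp0
  have h7 := hp 1
  rw [hp1, Polynomial.eval_one] at h7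
  have h8 : ‖Complex.exp 1‖ = 1 := by rw [h7]; simp
  rw [Complex.norm_exp, Complex.one_re] at h8
  have : (1:ℝ) < Real.exp 1 := Real.one_lt_exp_iff.mpr one_pos
  linarith

/-- Harnack type estimate. -/
theorem harnack (h : ℂ → ℂ) (hd : Differentiable ℂ h) (c : ℂ) (δ M : ℝ) (hδ : 0 < δ)
    (hlow : ∀ w ∈ Metric.ball c 4, δ ≤ ‖h w‖) (hM : ‖h c‖ ≤ M) (z : ℂ) (hz : ‖z - c‖ ≤ 2) :
    ‖h z‖ ≤ M * Real.exp (2 * (Real.log (M / δ) + 1)) := by
  have hcb : c ∈ Metric.ball c 4 := Metric.mem_ball_self (by norm_num)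
  have hne : ∀ w ∈ Metric.ball c 4, h w ≠ 0 := by
    intro w hw h0
    have := hlow w hw
    rw [h0, norm_zero] at this
    linarith
  have hquot : DifferentiableOn ℂ (fun w => deriv h w / h w) (Metric.ball c 4) := by
    intro w hw
    exact ((hd.analyticAt w).deriv.differentiableAt.div (hd w) (hne w hw)).differentiableWithinAt
  obtain ⟨g, hgc, hg⟩ := (hquot.isExactOn_ball).with_val_at c 0
  -- h = h c * exp g
  have hconst : ∀ w ∈ Metric.ball c 4, h w * Complex.exp (-g w) = h c := by
    intro w hw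
    have hderiv : ∀ u ∈ Metric.ball c 4, HasDerivAt (fun u => h u * Complex.exp (-g u)) 0 u := by
      intro u hu
      have h1 := (hd u).hasDerivAt.mul ((hg u hu).neg.cexp)
      have e : deriv h u * Complex.exp (-g u) + h u * (Complex.exp (-g u) * (-(deriv h u / h u))) = 0 := by
        have := hne u hu
        field_simp
        ring
      rw [← e]
      exact h1
    have h2 := (convex_ball c 4).is_const_of_fderivWithin_eq_zero (𝕜 := ℂ)
      (f := fun u => h u * Complex.exp (-g u))
      (fun u hu => (hderiv u hu).differentiableAt.differentiableWithinAt)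
      (fun u hu => by
        rw [fderivWithin_of_isOpen Metric.isOpen_ball hu]
        exact (hderiv u hu).hasFDerivAt.fderiv.trans (by ext; simp))
      hw hcb
    have h3 : h w * Complex.exp (-g w) = h c * Complex.exp (-g c) := h2
    rw [h3, hgc]; simp
  have hform : ∀ w ∈ Metric.ball c 4, ‖h w‖ = ‖h c‖ * Real.exp (g w).re := by
    intro w hw
    have h1 := hconst w hw
    have h2 : h w = h c * Complex.exp (g w) := by
      rw [← h1, mul_assoc, ← Complex.exp_add, neg_add_cancel, Complex.exp_zero, mul_one]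
    rw [h2, norm_mul, Complex.norm_exp]
  have hc0 : δ ≤ ‖h c‖ := hlow c hcb
  have hcpos : 0 < ‖h c‖ := hδ.trans_le hc0
  have hMδ : δ ≤ M := hc0.trans hM
  have hlog : 0 ≤ Real.log (M / δ) := Real.log_nonneg (by rw [le_div_iff₀ hδ]; linarith)
  have hre : ∀ w ∈ Metric.ball c 4, -(g w).re ≤ Real.log (M / δ) + 1 := by
    intro w hw
    have h1 := hlow w hw
    rw [hform w hw] at h1
    have h2 : δ ≤ M * Real.exp (g w).re :=
      h1.trans (mul_le_mul_of_nonneg_right hM (Real.exp_pos _).le)
    have hMpos : 0 < M := hδ.trans_le hMδ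
    have h3 : Real.log δ ≤ Real.log M + (g w).re := by
      have := Real.log_le_log hδ h2
      rwa [Real.log_mul hMpos.ne' (Real.exp_pos _).ne', Real.log_exp] at this
    rw [Real.log_div hMpos.ne' hδ.ne']
    linarith
  -- Borel-Caratheodory
  have hshift : ∀ ζ ∈ Metric.ball (0:ℂ) 4, c + ζ ∈ Metric.ball c 4 := by
    intro ζ hζ
    rw [mem_ball_zero_iff] at hζ
    rw [Metric.mem_ball, dist_eq_norm]
    simpa using hζ
  have hBC := Complex.borelCaratheodory_zero (f := fun ζ => -g (c + ζ)) (R := 4)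
    (M := Real.log (M / δ) + 1) (z := z - c) (by linarith)
    (by
      intro ζ hζ
      have h1 := (hg (c + ζ) (hshift ζ hζ)).differentiableAt
      exact (DifferentiableAt.comp ζ h1 (by fun_prop)).neg.differentiableWithinAt)
    (by
      intro ζ hζ
      show (-g (c + ζ)).re ≤ _
      rw [Complex.neg_re]
      exact hre _ (hshift ζ hζ))
    (by norm_num)
    (by rw [mem_ball_zero_iff]; linarith)
    (by simp [hgc])
  have hzb : z ∈ Metric.ball c 4 := by
    rw [Metric.mem_ball, dist_eq_norm]; linarith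
  have h5 : ‖g z‖ ≤ 2 * (Real.log (M / δ) + 1) := by
    have h6 : c + (z - c) = z := by ring
    simp only [h6, norm_neg] at hBC
    refine hBC.trans ?_
    rw [div_le_iff₀ (by linarith)]
    nlinarith [norm_nonneg (z - c)]
  rw [hform z hzb]
  have h7 : (g z).re ≤ 2 * (Real.log (M / δ) + 1) := (Complex.re_le_norm _).trans h5
  exact mul_le_mul hM (Real.exp_le_exp.mpr h7) (Real.exp_pos _).le (hδ.le.trans hMδ)


/-- The negation of the preceding statement: For every closed set E in ℂ: if some non-polynomial entire function is bounded on E and some non-polynomial entire function has modulus at least a positive constant off E, then a single non-polynomial entire function does both. -/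
theorem result :
    ¬ (∀ E : Set ℂ, IsClosed E →
      (∃ f : ℂ → ℂ, Differentiable ℂ f ∧
          (¬ ∃ p : Polynomial ℂ, ∀ z, f z = p.eval z) ∧
          ∃ M : ℝ, ∀ z ∈ E, ‖f z‖ ≤ M) →
      (∃ g : ℂ → ℂ, Differentiable ℂ g ∧
          (¬ ∃ p : Polynomial ℂ, ∀ z, g z = p.eval z) ∧
          ∃ δ : ℝ, 0 < δ ∧ ∀ z ∉ E, δ ≤ ‖g z‖) →
      ∃ h : ℂ → ℂ, Differentiable ℂ h ∧
          (¬ ∃ p : Polynomial ℂ, ∀ z, h z = p.eval z) ∧
          (∃ M : ℝ, ∀ z ∈ E, ‖h z‖ ≤ M) ∧
          ∃ δ : ℝ, 0 < δ ∧ ∀ z ∉ E, δ ≤ ‖h z‖) := by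
  intro H
  obtain ⟨h, hd, htr, ⟨M, hM⟩, δ, hδ, hlow⟩ := H EE EE_closed
    ⟨fun z => Complex.sin (Complex.exp z), by fun_prop, f_transc, Real.exp 1, f_bdd⟩
    ⟨Complex.exp, Complex.differentiable_exp, g_transc, 1, one_pos, (by
      intro z hz
      have h1 : 0 < z.re := by
        by_contra h2
        exact hz (Or.inl (not_lt.mp h2))
      rw [Complex.norm_exp]
      exact Real.one_le_exp h1.le)⟩
  have hπ := Real.pi_pos
  have hπ3 := Real.pi_gt_three
  have hπ4 := Real.pi_le_four
  -- lower bound on the whole right half plane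
  have hlow' : ∀ z : ℂ, 0 < z.re → δ ≤ ‖h z‖ := by
    intro z hz
    by_contra hcon
    have hcon' : ‖h z‖ < δ := not_le.mp hcon
    have hopen : IsOpen {w : ℂ | ‖h w‖ < δ} := isOpen_lt (hd.continuous.norm) continuous_const
    obtain ⟨r, hr, hball⟩ := Metric.isOpen_iff.mp hopen z hcon'
    by_cases hzE : z ∈ EE
    · rcases hzE with h1 | ⟨k, hk⟩
      · linarith
      · let t : ℝ := min (r / 2) 1
        have ht : 0 < t := lt_min (by linarith) one_pos
        have ht1 : t ≤ 1 := min_le_right _ _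
        have htr : t < r := (min_le_left _ _).trans_lt (by linarith)
        have hw : (z + (t : ℂ) * Complex.I) ∈ Metric.ball z r := by
          rw [Metric.mem_ball, dist_eq_norm, add_sub_cancel_left, norm_mul, Complex.norm_I, mul_one,
            Complex.norm_real, Real.norm_of_nonneg ht.le]
          exact htr
        have h2 := hball hw
        have hnE : (z + (t : ℂ) * Complex.I) ∉ EE := by
          rintro (h3 | ⟨j, hj⟩)
          · simp at h3
            linarith
          · simp at hj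
            rw [hk] at hj
            have h4 : t = ((j:ℝ) - k) * Real.pi := by linarith
            have h5 : (0:ℝ) < (j:ℝ) - k := by
              by_contra h6
              have : ((j:ℝ) - k) * Real.pi ≤ 0 := mul_nonpos_of_nonpos_of_nonneg (not_lt.mp h6) hπ.le
              linarith
            have h7 : (1:ℤ) ≤ j - k := by
              have : (0:ℤ) < j - k := by exact_mod_cast h5
              omega
            have h8 : (1:ℝ) ≤ (j:ℝ) - k := by exact_mod_cast h7
            nlinarith
        exact absurd (hlow _ hnE) (not_le.mpr h2)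
    · exact absurd (hlow z hzE) hcon
  have hMδ : δ ≤ M := by
    have h1 := hlow' 1 (by simp)
    have h2 := hM 1 (Or.inr ⟨0, by simp⟩)
    exact h1.trans h2
  obtain ⟨B, hB⟩ : ∃ B, B = M * Real.exp (2 * (Real.log (M / δ) + 1)) := ⟨_, rfl⟩
  have hMpos : 0 < M := hδ.trans_le hMδ
  have hlog : 0 ≤ Real.log (M / δ) := Real.log_nonneg (by rw [le_div_iff₀ hδ]; linarith)
  have hMB : M ≤ B := by
    rw [hB]
    have : 1 ≤ Real.exp (2 * (Real.log (M / δ) + 1)) := Real.one_le_exp (by linarith)
    nlinarith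
  -- far right
  have hfar : ∀ z : ℂ, 4 ≤ z.re → ‖h z‖ ≤ B := by
    intro z hz
    obtain ⟨k, hk⟩ : ∃ k : ℤ, k = round (z.im / Real.pi) := ⟨_, rfl⟩
    have h1 : |z.im / Real.pi - k| ≤ 1 / 2 := by rw [hk]; exact abs_sub_round _
    let c : ℂ := ⟨z.re, k * Real.pi⟩
    have hcE : c ∈ EE := Or.inr ⟨k, rfl⟩
    have hzc : ‖z - c‖ ≤ 2 := by
      have h2 : z - c = ((z.im - k * Real.pi : ℝ) : ℂ) * Complex.I := by
        apply Complex.ext <;> simp [c]
      rw [h2, norm_mul, Complex.norm_I, mul_one, Complex.norm_real, Real.norm_eq_abs]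
      have h3 : z.im - k * Real.pi = (z.im / Real.pi - k) * Real.pi := by
        field_simp
      rw [h3, abs_mul, abs_of_pos hπ]
      nlinarith [abs_nonneg (z.im / Real.pi - k)]
    rw [hB]
    refine harnack h hd c δ M hδ (fun w hw => hlow' w ?_) (hM c hcE) z hzc
    rw [Metric.mem_ball, dist_eq_norm] at hw
    have h4 := (Complex.abs_re_le_norm (w - c)).trans_lt hw
    rw [Complex.sub_re, abs_lt] at h4
    have h5 : c.re = z.re := rfl
    linarith [h4.1]
  -- everywhere
  have hall : ∀ z : ℂ, ‖h z‖ ≤ B := by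
    intro z
    by_cases h1 : z.re ≤ 0
    · exact (hM z (Or.inl h1)).trans hMB
    by_cases h2 : 4 ≤ z.re
    · exact hfar z h2
    rw [not_le] at h1 h2
    obtain ⟨k, hk⟩ : ∃ k : ℤ, k = ⌊z.im / Real.pi⌋ := ⟨_, rfl⟩
    have h3 : (k:ℝ) * Real.pi ≤ z.im := by
      have : (k:ℝ) ≤ z.im / Real.pi := by rw [hk]; exact Int.floor_le _
      rwa [le_div_iff₀ hπ] at this
    have h4 : z.im < ((k:ℝ) + 1) * Real.pi := by
      have : z.im / Real.pi < (k:ℝ) + 1 := by rw [hk]; exact Int.lt_floor_add_one _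
      rwa [div_lt_iff₀ hπ] at this
    have hlt : (k:ℝ) * Real.pi < ((k:ℝ) + 1) * Real.pi := by nlinarith
    refine Complex.norm_le_of_forall_mem_frontier_norm_le
      (U := (Set.Ioo (0:ℝ) 4) ×ℂ (Set.Ioo ((k:ℝ) * Real.pi) (((k:ℝ) + 1) * Real.pi)))
      ?_ hd.diffContOnCl ?_ ?_
    · exact (Metric.isBounded_Ioo _ _).reProdIm (Metric.isBounded_Ioo _ _)
    · intro w hw
      rw [Complex.frontier_reProdIm, frontier_Ioo (by norm_num : (0:ℝ) < 4), frontier_Ioo hlt] at hw
      rcases hw with ⟨_, h6⟩ | ⟨h5, _⟩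
      · have h6' : w.im = (k:ℝ) * Real.pi ∨ w.im = ((k:ℝ) + 1) * Real.pi := by simpa using h6
        have hwE : w ∈ EE := by
          rcases h6' with h7 | h7
          · exact Or.inr ⟨k, h7⟩
          · exact Or.inr ⟨k + 1, by rw [h7]; push_cast; ring⟩
        exact (hM w hwE).trans hMB
      · have h5' : w.re = 0 ∨ w.re = 4 := by simpa using h5
        rcases h5' with h7 | h7
        · exact (hM w (Or.inl h7.le)).trans hMB
        · exact hfar w h7.ge
    · rw [Complex.closure_reProdIm, closure_Ioo (by norm_num : (0:ℝ) ≠ 4), closure_Ioo hlt.ne]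
      exact ⟨⟨h1.le, h2.le⟩, ⟨h3, h4.le⟩⟩
  -- Liouville
  apply htr
  refine ⟨Polynomial.C (h 0), fun z => ?_⟩
  rw [Polynomial.eval_C]
  apply hd.apply_eq_apply_of_bounded
  rw [isBounded_iff_forall_norm_le]
  refine ⟨B, ?_⟩
  rintro _ ⟨w, rfl⟩
  exact hall w

end Pool.Agent.S03308
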