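import Pool.Agent.SubC
set_option autoImplicit false
namespace Pool.MP_65dae3_an.Aux
open Finset

/-- the special codes -/
def PI (N j : ℕ) (i : I) : Bool :=
  decide ((i.1 = N ∧ i.2.1.val = j) ∨ (N < i.1 ∧ i.2.2.val = j+1))

/-- the special codes -/
noncomputable def ej (N j : ℕ) (n : ℕ) : Bool := PI N j (en.symm n)

lemma ej_en (N j : ℕ) (i : I) : ej N j (en i) = PI N j i := by
  unfold ej; rw [Equiv.symm_apply_apply]

lemma E_ej (N j k b a : ℕ) (hb : b < k+1) (ha : a < k+2) :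
    E (ej N j) k b a = if ((k = N ∧ b = j) ∨ (N < k ∧ a = j+1)) then 1 else 0 := by
  unfold E
  rw [dif_pos ⟨hb, ha⟩, ej_en]
  simp [PI]

lemma Zcol (N j : ℕ) : ∑ a ∈ range (N+2), Z N j a = 9^((N+1)*(N+1)) := by
  rw [Finset.sum_range_succ']
  have h1 : ∀ a, Z N j (a+1) = 9^(a*(N+1)+j) := by intro a; simp [Z]
  have h2 : Z N j 0 = 9^((N+1)*(N+1)) - ∑ a' ∈ range (N+1), 9^(a'*(N+1)+j) := by simp [Z]
  rw [h2]; simp only [h1]; ring

lemma S_ej (N j : ℕ) (hj : j < N+1) : S (ej N j) = s N * 9^((N+1)*(N+1)) := by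
  obtain ⟨hs, h1⟩ := S_eq (ej N j)
  rw [h1]
  have hXlt : ∀ k < N, X (E (ej N j)) k = 0 := by
    intro k hk
    apply X_zero
    intro b hb a ha
    rw [E_ej N j k b a hb ha, if_neg (by omega)]
  have hXN : X (E (ej N j)) N = s N * 9^((N+1)*(N+1)) - T N j := by
    unfold X
    have h2 : ∑ b ∈ range (N+1), ∑ a ∈ range (N+2), (E (ej N j) N b a : ℝ) * xx N b a =
        ∑ b ∈ range (N+1), (if b = j then ∑ a ∈ range (N+2), xx N b a else 0) := by
      apply Finset.sum_congr rfl; intro b hb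
      by_cases hbj : b = j
      · rw [if_pos hbj]
        apply Finset.sum_congr rfl; intro a ha
        rw [E_ej N j N b a (Finset.mem_range.mp hb) (Finset.mem_range.mp ha), if_pos (Or.inl ⟨rfl, hbj⟩)]
        simp
      · rw [if_neg hbj]
        apply Finset.sum_eq_zero; intro a ha
        rw [E_ej N j N b a (Finset.mem_range.mp hb) (Finset.mem_range.mp ha), if_neg (by omega)]
        simp
    rw [h2, Finset.sum_ite_eq' , if_pos (Finset.mem_range.mpr hj)]
    unfold xx
    rw [Finset.sum_sub_distrib, ← Finset.mul_sum]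
    have h3 : ((∑ a ∈ range (N+2), Z N j a : ℤ) : ℝ) = 9^((N+1)*(N+1)) := by rw [Zcol]; push_cast; rfl
    push_cast at h3
    rw [h3]
    congr 1
    simp
  have hXgt : ∀ i, X (E (ej N j)) (N+1+i) = s (N+1+i) * (R (N+1+i) j : ℝ) := by
    intro i
    unfold X R
    push_cast
    rw [Finset.mul_sum]
    apply Finset.sum_congr rfl; intro b hb
    have h2 : ∑ a ∈ range (N+1+i+2), (E (ej N j) (N+1+i) b a : ℝ) * xx (N+1+i) b a =
        ∑ a ∈ range (N+1+i+2), (if a = j+1 then xx (N+1+i) b a else 0) := by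
      apply Finset.sum_congr rfl; intro a ha
      rw [E_ej N j (N+1+i) b a (Finset.mem_range.mp hb) (Finset.mem_range.mp ha)]
      by_cases haj : a = j+1
      · rw [if_pos (Or.inr ⟨by omega, haj⟩), if_pos haj]; simp
      · rw [if_neg (by omega), if_neg haj]; simp
    rw [h2, Finset.sum_ite_eq', if_pos (Finset.mem_range.mpr (by omega))]
    unfold xx
    simp
  have h4 := hs.sum_add_tsum_nat_add (N+1)
  rw [Finset.sum_range_succ, Finset.sum_eq_zero (fun k hk => hXlt k (Finset.mem_range.mp hk)), zero_add, hXN] at h4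
  have h5 : ∑' i, X (E (ej N j)) (i + (N+1)) = T N j := by
    unfold T
    congr 1; ext i
    rw [add_comm i (N+1), hXgt]
  rw [h5] at h4
  linarith

lemma ej_inj (N j j' : ℕ) (hj : j < N+1) (h : ej N j = ej N j') : j = j' := by
  have h1 := E_ej N j N j 0 hj (by omega)
  have h2 := E_ej N j' N j 0 hj (by omega)
  rw [← h, h1] at h2
  by_contra hne
  rw [if_pos (Or.inl ⟨rfl, rfl⟩), if_neg (by omega)] at h2
  omega

theorem main : ∃ x : ℕ → ℝ, Summable (fun n => |x n|) ∧
      (∀ N : ℕ, ∃ t : ℝ, ∃ k : ℕ, N ≤ k ∧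
        Cardinal.mk {ε : ℕ → Bool // ∑' n, (if ε n = true then x n else 0) = t} = (k : Cardinal)) ∧
      (∀ t : ℝ,
        Cardinal.mk {ε : ℕ → Bool // ∑' n, (if ε n = true then x n else 0) = t} ≠ Cardinal.aleph0 ∧
        Cardinal.mk {ε : ℕ → Bool // ∑' n, (if ε n = true then x n else 0) = t} ≠ Cardinal.continuum) := by
  refine ⟨x, x_summable, ?_, ?_⟩
  · intro N
    refine ⟨s N * 9^((N+1)*(N+1)), Nat.card {ε : ℕ → Bool // S ε = s N * 9^((N+1)*(N+1))}, ?_, ?_⟩
    · haveI := fib_finite (s N * 9^((N+1)*(N+1)))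
      have h1 : Nat.card (Fin N) ≤ Nat.card {ε : ℕ → Bool // S ε = s N * 9^((N+1)*(N+1))} := by
        apply Nat.card_le_card_of_injective (fun j : Fin N => (⟨ej N j, S_ej N j (by have := j.2; omega)⟩ : {ε : ℕ → Bool // S ε = s N * 9^((N+1)*(N+1))}))
        intro j j' h
        have h2 := congrArg Subtype.val h
        exact Fin.ext (ej_inj N j j' (by have := j.2; omega) h2)
      simpa using h1
    · haveI := fib_finite (s N * 9^((N+1)*(N+1)))
      exact (Nat.cast_card (α := {ε : ℕ → Bool // S ε = s N * 9^((N+1)*(N+1))})).symm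
  · intro t
    haveI := fib_finite t
    have hlt : Cardinal.mk {ε : ℕ → Bool // S ε = t} < Cardinal.aleph0 := Cardinal.lt_aleph0_of_finite _
    exact ⟨hlt.ne, (hlt.trans Cardinal.aleph0_lt_continuum).ne⟩

end Pool.MP_65dae3_an.Aux
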