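import Pool.Statements.S03363
-- import your own Pool.Agent.* helpers here
import Pool.Agent.SubD

set_option autoImplicit false
open Pool Pool.MP_65dae3_an

namespace Pool.Agent.S03363



/-- There is an absolutely convergent real series such that, counting 0-1 sequences whose subsum equals t, some t gives arbitrarily large finite counts, and no t gives countably infinitely many or continuum many. -/
theorem result :
    ∃ x : ℕ → ℝ, Summable (fun n => |x n|) ∧
      (∀ N : ℕ, ∃ t : ℝ, ∃ k : ℕ, N ≤ k ∧
        Cardinal.mk {ε : ℕ → Bool // ∑' n, (if ε n = true then x n else 0) = t} = (k : Cardinal)) ∧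
      (∀ t : ℝ,
        Cardinal.mk {ε : ℕ → Bool // ∑' n, (if ε n = true then x n else 0) = t} ≠ Cardinal.aleph0 ∧
        Cardinal.mk {ε : ℕ → Bool // ∑' n, (if ε n = true then x n else 0) = t} ≠ Cardinal.continuum) := by
  exact Pool.MP_65dae3_an.Aux.main

end Pool.Agent.S03363
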