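import Pool.Statements.S03427
-- import your own Pool.Agent.* helpers here

set_option autoImplicit false
open Pool Pool.MP_6efd37_an

namespace Pool.Agent.S03427

/-- The golden ratio. -/
noncomputable def p : ℝ := (1 + Real.sqrt 5) / 2

theorem p_sq : p * p = p + 1 := by
  unfold p
  have h := Real.mul_self_sqrt (show (0:ℝ) ≤ 5 by norm_num)
  nlinarith

theorem p_gt : 1.6 < p := by
  unfold p
  have h : (2.2:ℝ) < Real.sqrt 5 := by
    apply Real.lt_sqrt_of_sq_lt
    norm_num
  linarith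

theorem p_lt : p < 1.7 := by
  unfold p
  have h : Real.sqrt 5 < 2.4 := by
    rw [Real.sqrt_lt' (by norm_num)]
    norm_num
  linarith

theorem p_pos : 0 < p := by linarith [p_gt]

/-- The real embedding. -/
noncomputable def L (X : ℤ × ℤ) : ℝ := (X.1 : ℝ) + (X.2 : ℝ) * p
/-- The conjugate embedding. -/
noncomputable def L' (X : ℤ × ℤ) : ℝ := (X.1 : ℝ) + (X.2 : ℝ) * (1 - p)

/-- Powers of the small unit. -/
def Y : ℕ → ℤ × ℤ
  | 0 => (1, 0)
  | (k + 1) => ((Y k).2 - (Y k).1, (Y k).1)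

theorem L_Y (k : ℕ) : L (Y k) = (p - 1) ^ k := by
  induction k with
  | zero => simp [L, Y]
  | succ k ih =>
    rw [pow_succ, ← ih]
    show (((Y k).2 - (Y k).1 : ℤ) : ℝ) + ((Y k).1 : ℝ) * p = (((Y k).1 : ℝ) + ((Y k).2 : ℝ) * p) * (p - 1)
    push_cast
    have := p_sq
    linear_combination -((Y k).2 : ℝ) * this

theorem L'_Y (k : ℕ) : L' (Y k) = (-p) ^ k := by
  induction k with
  | zero => simp [L', Y]
  | succ k ih =>
    rw [pow_succ, ← ih]
    show (((Y k).2 - (Y k).1 : ℤ) : ℝ) + ((Y k).1 : ℝ) * (1 - p)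
      = (((Y k).1 : ℝ) + ((Y k).2 : ℝ) * (1 - p)) * (-p)
    push_cast
    have := p_sq
    linear_combination -((Y k).2 : ℝ) * this

theorem g_pow (k : ℕ) : (p - 1) ^ k = 1 / p ^ k := by
  have h : (p - 1) * p = 1 := by have := p_sq; linarith
  rw [eq_div_iff (pow_pos p_pos k).ne', ← mul_pow, h, one_pow]

theorem L_add (X Z : ℤ × ℤ) : L (X + Z) = L X + L Z := by
  unfold L; push_cast [Prod.fst_add, Prod.snd_add]; ring

theorem L'_add (X Z : ℤ × ℤ) : L' (X + Z) = L' X + L' Z := by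
  unfold L'; push_cast [Prod.fst_add, Prod.snd_add]; ring

theorem L_sub (X Z : ℤ × ℤ) : L (X - Z) = L X - L Z := by
  unfold L; push_cast [Prod.fst_sub, Prod.snd_sub]; ring

/-- Powers of the golden ratio with prescribed parity in a window. -/
theorem pow_window (H : ℝ) (hH : 20 < H) (e : Bool) :
    ∃ k : ℕ, H / 4 ≤ p ^ k ∧ p ^ k ≤ 3 * H / 4 ∧ (-p) ^ k = (if e then p ^ k else -(p ^ k)) := by
  have hp1 : 1 < p * p := by nlinarith [p_gt]
  have hp3 : p * p < 3 := by nlinarith [p_lt, p_pos, p_sq]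
  have hp := p_pos
  cases e with
  | true =>
    obtain ⟨n, h1, h2⟩ := exists_nat_pow_near (x := 3 * H / 4) (y := p * p) (by linarith) hp1
    have h3 : p ^ (2 * n) = (p * p) ^ n := by rw [pow_mul, pow_two]
    refine ⟨2 * n, ?_, ?_, ?_⟩
    · rw [h3]
      rw [pow_succ] at h2
      have h4 : 0 < (p * p) ^ n := by positivity
      nlinarith
    · rw [h3]; exact h1
    · simp only [if_true]
      exact Even.neg_pow ⟨n, by ring⟩ p
  | false =>
    obtain ⟨n, h1, h2⟩ := exists_nat_pow_near (x := 3 * H / (4 * p)) (y := p * p)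
      (by rw [le_div_iff₀ (by positivity)]; nlinarith [p_lt]) hp1
    have h3 : p ^ (2 * n + 1) = (p * p) ^ n * p := by rw [pow_succ, pow_mul, pow_two]
    rw [le_div_iff₀ (by positivity)] at h1
    rw [div_lt_iff₀ (by positivity), pow_succ] at h2
    have h4 : 0 < (p * p) ^ n := by positivity
    refine ⟨2 * n + 1, ?_, ?_, ?_⟩
    · rw [h3]
      have h5 : 0 < (p * p) ^ n * p := by positivity
      nlinarith
    · rw [h3]
      nlinarith
    · simp only [Bool.false_eq_true, if_false]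
      exact Odd.neg_pow ⟨n, rfl⟩ p

theorem small_window (t : ℝ) (ht : 0 < t) (ht1 : t ≤ 1) :
    ∃ k : ℕ, t / 4 < (p - 1) ^ k ∧ (p - 1) ^ k < t / 2 := by
  have hp := p_pos
  obtain ⟨n, h1, h2⟩ := exists_nat_pow_near (x := 3.5 / t) (y := p)
    (by rw [le_div_iff₀ ht]; linarith) (by linarith [p_gt])
  refine ⟨n, ?_, ?_⟩
  · rw [g_pow, lt_div_iff₀ (pow_pos hp n)]
    rw [le_div_iff₀ ht] at h1
    linarith
  · rw [g_pow, div_lt_iff₀ (pow_pos hp n)]
    rw [div_lt_iff₀ ht, pow_succ] at h2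
    have h3 : 0 < p ^ n := pow_pos hp n
    have h4 := p_lt
    have h5 : p ^ n * p * t ≤ p ^ n * 1.7 * t := by
      apply mul_le_mul_of_nonneg_right _ ht.le
      exact mul_le_mul_of_nonneg_left h4.le h3.le
    linarith

theorem fin_box : Set.Finite {X : ℤ × ℤ | 0 ≤ L X ∧ L X ≤ 2 ∧ |L' X| ≤ 20} := by
  apply Set.Finite.subset ((Set.finite_Icc (-100 : ℤ) 100).prod (Set.finite_Icc (-100 : ℤ) 100))
  rintro ⟨m, n⟩ ⟨h1, h2, h3⟩
  unfold L at h1 h2
  unfold L' at h3
  simp only at h1 h2 h3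
  rw [abs_le] at h3
  have hg := p_gt
  have hl := p_lt
  -- n * (2p - 1) in [-20, 22]
  have h4 : (n : ℝ) * (2 * p - 1) ≤ 22 := by nlinarith [h3.1]
  have h5 : -20 ≤ (n : ℝ) * (2 * p - 1) := by nlinarith [h3.2]
  have h6 : (n : ℝ) ≤ 22 := by
    by_contra h
    rw [not_le] at h
    nlinarith
  have h7 : -22 ≤ (n : ℝ) := by
    by_contra h
    rw [not_le] at h
    nlinarith
  have h8 : (m : ℝ) ≤ 100 := by nlinarith
  have h9 : -100 ≤ (m : ℝ) := by nlinarith
  refine ⟨⟨?_, ?_⟩, ⟨?_, ?_⟩⟩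
  · exact_mod_cast h9
  · exact_mod_cast h8
  · have : (-22 : ℤ) ≤ n := by exact_mod_cast h7
    show (-100 : ℤ) ≤ n
    omega
  · have : n ≤ (22 : ℤ) := by exact_mod_cast h6
    show n ≤ (100 : ℤ)
    omega

/-- Boundedness above on the ring of integers. -/
theorem bdd (f : ℝ → ℝ) (hf : ∀ x h : ℝ, 0 < h → 2 * f x ≤ f (x + h) + f (x + 2 * h)) :
    ∃ M : ℝ, ∀ X : ℤ × ℤ, 0 ≤ L X → L X < 1 → f (L X) ≤ M := by
  obtain ⟨M, hM⟩ := (fin_box.image (fun X => f (L X))).bddAbove
  have hbase : ∀ X : ℤ × ℤ, 0 ≤ L X → L X ≤ 2 → |L' X| ≤ 20 → f (L X) ≤ M :=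
    fun X h1 h2 h3 => hM ⟨X, ⟨h1, h2, h3⟩, rfl⟩
  have claim : ∀ n : ℕ, ∀ X : ℤ × ℤ, |L' X| ≤ 20 * (4/3) ^ n → 0 ≤ L X →
      ((|L' X| ≤ 20 ∧ L X ≤ 2) ∨ (20 < |L' X| ∧ L X ≤ 1 + 12 / |L' X|)) → f (L X) ≤ M := by
    intro n
    induction n with
    | zero =>
      intro X h1 h2 h3
      rw [pow_zero, mul_one] at h1
      rcases h3 with h | h
      · exact hbase X h2 h.2 h1
      · linarith [h.1]
    | succ n ih =>
      intro X h1 h2 h3
      rcases h3 with h | ⟨h20, hL⟩
      · exact hbase X h2 h.2 h.1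
      · obtain ⟨H, hH⟩ : ∃ H, H = |L' X| := ⟨_, rfl⟩
        rw [← hH] at h1 h20 hL
        -- choose the unit
        obtain ⟨k, hk1, hk2, hk3⟩ : ∃ k : ℕ, H / 4 ≤ p ^ k ∧ p ^ k ≤ 3 * H / 4 ∧
            |L' X + (-p) ^ k| = |H - p ^ k| ∧ |L' X + (-p) ^ k + (-p) ^ k| = |H - 2 * p ^ k| := by
          rcases le_total 0 (L' X) with hs | hs
          · obtain ⟨k, h4, h5, h6⟩ := pow_window H h20 false
            rw [abs_of_nonneg hs] at hH
            refine ⟨k, h4, h5, ?_, ?_⟩
            · rw [h6, ← hH]; simp only [Bool.false_eq_true, if_false]; congr 1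
            · rw [h6, ← hH]; simp only [Bool.false_eq_true, if_false]; congr 1; ring
          · obtain ⟨k, h4, h5, h6⟩ := pow_window H h20 true
            rw [abs_of_nonpos hs] at hH
            have hLX : L' X = -H := by linarith
            refine ⟨k, h4, h5, ?_, ?_⟩
            · rw [h6, hLX]; simp only [if_true]
              rw [← abs_neg]; congr 1; ring
            · rw [h6, hLX]; simp only [if_true]
              rw [← abs_neg]; congr 1; ring
        have hHpos : 0 < H := by linarith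
        have hpk : 0 < p ^ k := pow_pos p_pos k
        have hg : (p - 1) ^ k ≤ 4 / H := by
          rw [g_pow, div_le_div_iff₀ hpk hHpos]
          linarith
        have hgpos : 0 < (p - 1) ^ k := by rw [g_pow]; positivity
        have hP1 : L (X + Y k) = L X + (p - 1) ^ k := by rw [L_add, L_Y]
        have hQ1 : L (X + Y k + Y k) = L X + 2 * (p - 1) ^ k := by rw [L_add, L_add, L_Y]; ring
        have hP2 : |L' (X + Y k)| = |H - p ^ k| := by rw [L'_add, L'_Y]; exact hk3.1
        have hQ2 : |L' (X + Y k + Y k)| = |H - 2 * p ^ k| := by rw [L'_add, L'_add, L'_Y]; exact hk3.2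
        have hP3 : |H - p ^ k| ≤ 3 * H / 4 := by rw [abs_le]; constructor <;> linarith
        have hQ3 : |H - 2 * p ^ k| ≤ H / 2 := by rw [abs_le]; constructor <;> linarith
        have hpow : H ≤ 20 * (4/3)^n * (4/3) := by rw [pow_succ] at h1; linarith
        have e1 : 4 / H = 4 * (1 / H) := by ring
        have e2 : 12 / H = 12 * (1 / H) := by ring
        have hinv : 1 / H ≤ 1 / 20 := by
          rw [div_le_div_iff₀ hHpos (by norm_num)]; linarith
        rw [e1] at hg
        rw [e2] at hL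
        have hfP : f (L (X + Y k)) ≤ M := by
          apply ih
          · rw [hP2]; linarith
          · rw [hP1]; linarith
          · rw [hP2, hP1]
            by_cases h7 : |H - p ^ k| ≤ 20
            · left; exact ⟨h7, by linarith⟩
            · right
              rw [not_le] at h7
              refine ⟨h7, ?_⟩
              have h8 : 16 * (1 / H) ≤ 12 / |H - p ^ k| := by
                rw [mul_one_div, div_le_div_iff₀ hHpos (by linarith)]
                linarith
              linarith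
        have hfQ : f (L (X + Y k + Y k)) ≤ M := by
          apply ih
          · rw [hQ2]; linarith
          · rw [hQ1]; linarith
          · rw [hQ2, hQ1]
            by_cases h7 : |H - 2 * p ^ k| ≤ 20
            · left; exact ⟨h7, by linarith⟩
            · right
              rw [not_le] at h7
              refine ⟨h7, ?_⟩
              have h8 : 20 * (1 / H) ≤ 12 / |H - 2 * p ^ k| := by
                rw [mul_one_div, div_le_div_iff₀ hHpos (by linarith)]
                linarith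
              linarith
        have h9 := hf (L X) ((p - 1) ^ k) hgpos
        rw [← hP1, ← hQ1] at h9
        linarith
  refine ⟨M, fun X h1 h2 => ?_⟩
  obtain ⟨n, hn⟩ := pow_unbounded_of_one_lt (|L' X| / 20) (show (1:ℝ) < 4/3 by norm_num)
  refine claim n X ?_ h1 ?_
  · rw [div_lt_iff₀ (by norm_num)] at hn
    linarith
  · by_cases h3 : |L' X| ≤ 20
    · left; exact ⟨h3, by linarith⟩
    · right
      rw [not_le] at h3
      refine ⟨h3, ?_⟩
      have : 0 < 12 / |L' X| := by
        have : 0 < |L' X| := by linarith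
        positivity
      linarith

theorem mono01 (f : ℝ → ℝ) (hf : ∀ x h : ℝ, 0 < h → 2 * f x ≤ f (x + h) + f (x + 2 * h)) :
    f 0 ≤ f 1 := by
  obtain ⟨M, hM⟩ := bdd f hf
  let S : Set ℝ := {r | ∃ X : ℤ × ℤ, 0 ≤ L X ∧ L X < 1 ∧ r = f (L X)}
  have hL0 : L (0, 0) = 0 := by simp [L]
  have hL1 : L (1, 0) = 1 := by simp [L]
  have h0S : f 0 ∈ S := ⟨(0, 0), by rw [hL0], by rw [hL0]; norm_num, by rw [hL0]⟩
  have hbdd : BddAbove S := ⟨M, by rintro r ⟨X, h1, h2, rfl⟩; exact hM X h1 h2⟩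
  obtain ⟨σ, hσ⟩ : ∃ σ, σ = sSup S := ⟨_, rfl⟩
  have hle : ∀ X : ℤ × ℤ, 0 ≤ L X → L X < 1 → f (L X) ≤ σ := by
    intro X h1 h2
    rw [hσ]
    exact le_csSup hbdd ⟨X, h1, h2, rfl⟩
  have h0 : f 0 ≤ σ := by rw [hσ]; exact le_csSup hbdd h0S
  refine h0.trans ?_
  apply le_of_forall_pos_sub_le
  intro ε hε
  -- pick y
  obtain ⟨r, ⟨X, hX0, hX1, rfl⟩, hr⟩ := exists_lt_of_lt_csSup ⟨_, h0S⟩ (show σ - ε / 4 < sSup S by rw [← hσ]; linarith)
  obtain ⟨k, hk1, hk2⟩ := small_window (1 - L X) (by linarith) (by linarith)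
  -- W = Y k
  have hw : L (Y k) = (p - 1) ^ k := L_Y k
  obtain ⟨w, hwd⟩ : ∃ w, w = (p - 1) ^ k := ⟨_, rfl⟩
  rw [← hwd] at hk1 hk2 hw
  -- u = 1 - 2 w
  have hu : L ((1, 0) - Y k - Y k) = 1 - 2 * w := by rw [L_sub, L_sub, hL1, hw]; ring
  have hm : L ((1, 0) - Y k) = 1 - w := by rw [L_sub, hL1, hw]
  have hv : L ((1, 0) - Y k - Y k + ((1, 0) - Y k - Y k - X)) = 2 * (1 - 2 * w) - L X := by
    rw [L_add, L_sub _ X, hu]; ring
  have hfu := hle _ (by rw [hu]; linarith) (by rw [hu]; linarith)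
  have hfm := hle _ (by rw [hm]; linarith) (by rw [hm]; linarith)
  have hfv := hle _ (by rw [hv]; linarith) (by rw [hv]; linarith)
  rw [hu] at hfu
  rw [hm] at hfm
  rw [hv] at hfv
  have h1 := hf (L X) (1 - 2 * w - L X) (by linarith)
  have e1 : L X + (1 - 2 * w - L X) = 1 - 2 * w := by ring
  have e2 : L X + 2 * (1 - 2 * w - L X) = 2 * (1 - 2 * w) - L X := by ring
  rw [e1, e2] at h1
  have h2 := hf (1 - 2 * w) w (by linarith)
  have e3 : 1 - 2 * w + w = 1 - w := by ring
  have e4 : 1 - 2 * w + 2 * w = 1 := by ring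
  rw [e3, e4] at h2
  linarith


/-- Every function from the reals to the reals with 2f(x) ≤ f(x+h)+f(x+2h) for all x and all h>0 is monotone (nondecreasing or nonincreasing), with no measurability assumed. -/
theorem result :
    ∀ f : ℝ → ℝ, (∀ x h : ℝ, 0 < h → 2 * f x ≤ f (x + h) + f (x + 2 * h)) →
      (Monotone f ∨ Antitone f) := by
  intro f hf
  left
  intro a b hab
  rcases hab.eq_or_lt with h | h
  · rw [h]
  · have hpos : 0 < b - a := by linarith
    have := mono01 (fun x => f (a + (b - a) * x)) (by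
      intro x t ht
      have h1 := hf (a + (b - a) * x) ((b - a) * t) (mul_pos hpos ht)
      have e1 : a + (b - a) * x + (b - a) * t = a + (b - a) * (x + t) := by ring
      have e2 : a + (b - a) * x + 2 * ((b - a) * t) = a + (b - a) * (x + 2 * t) := by ring
      rw [e1, e2] at h1
      exact h1)
    simp only [mul_zero, mul_one, add_zero, add_sub_cancel] at this
    exact this

end Pool.Agent.S03427
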