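import Pool.Statements.S03916
-- import your own Pool.Agent.* helpers here

set_option autoImplicit false
open Pool Pool.MP_aba4f2_an

namespace Pool.Agent.S03916

open MeasureTheory Filter Topology

abbrev T : Type := UnitAddCircle

/-- Averaging along an arithmetic progression. -/
noncomputable def S (L : ℕ) (a : T) : (T → ℝ) →ₗ[ℝ] (T → ℝ) where
  toFun F := fun x => (∑ i ∈ Finset.range L, F (x + i • a)) / L
  map_add' F G := by
    funext x
    simp only [Pi.add_apply, Finset.sum_add_distrib, add_div]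
  map_smul' c F := by
    funext x
    simp only [Pi.smul_apply, smul_eq_mul, RingHom.id_apply, ← Finset.mul_sum, mul_div_assoc]

/-- Averaging along a generalised arithmetic progression. -/
noncomputable def AA (L : ℕ) : List T → ((T → ℝ) →ₗ[ℝ] (T → ℝ))
  | [] => LinearMap.id
  | (a :: l) => (S L a).comp (AA L l)

theorem S_apply (L : ℕ) (a : T) (F : T → ℝ) (x : T) :
    S L a F x = (∑ i ∈ Finset.range L, F (x + i • a)) / L := rfl

theorem AA_nil (L : ℕ) (F : T → ℝ) : AA L [] F = F := rfl
theorem AA_cons (L : ℕ) (a : T) (l : List T) (F : T → ℝ) : AA L (a :: l) F = S L a (AA L l F) := rfl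

theorem S_bd (L : ℕ) (hL : 0 < L) (a : T) (F : T → ℝ) (c B : ℝ) (h : ∀ y, |F y - c| ≤ B) (x : T) :
    |S L a F x - c| ≤ B := by
  have hL' : (0:ℝ) < L := by exact_mod_cast hL
  have e : S L a F x - c = (∑ i ∈ Finset.range L, (F (x + i • a) - c)) / L := by
    rw [S_apply, Finset.sum_sub_distrib, Finset.sum_const, Finset.card_range, nsmul_eq_mul]
    field_simp
  rw [e, abs_div, abs_of_pos hL', div_le_iff₀ hL']
  refine (Finset.abs_sum_le_sum_abs _ _).trans ?_
  calc ∑ i ∈ Finset.range L, |F (x + i • a) - c| ≤ ∑ _i ∈ Finset.range L, B :=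
        Finset.sum_le_sum (fun i _ => h _)
    _ = B * L := by rw [Finset.sum_const, Finset.card_range, nsmul_eq_mul, mul_comm]

theorem AA_bd (L : ℕ) (hL : 0 < L) (l : List T) (F : T → ℝ) (c B : ℝ) (h : ∀ y, |F y - c| ≤ B) :
    ∀ x, |AA L l F x - c| ≤ B := by
  induction l with
  | nil => exact h
  | cons a l ih => intro x; rw [AA_cons]; exact S_bd L hL a _ c B ih x

theorem S_tele (L : ℕ) (a : T) (g : T → ℝ) (B : ℝ) (h : ∀ y, |g y| ≤ B) (x : T) :
    |S L a (fun y => g y - g (y - a)) x| ≤ 2 * B / L := by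
  have e : ∑ i ∈ Finset.range L, (g (x + i • a) - g (x + i • a - a))
      = g (x + L • a - a) - g (x + 0 • a - a) := by
    rw [← Finset.sum_range_sub (fun i => g (x + i • a - a)) L]
    refine Finset.sum_congr rfl (fun i _ => ?_)
    congr 2
    rw [succ_nsmul]; abel
  rw [S_apply, e, abs_div, Nat.abs_cast]
  apply div_le_div_of_nonneg_right _ (Nat.cast_nonneg L)
  have h1 := abs_sub (g (x + L • a - a)) (g (x + 0 • a - a))
  have h2 := h (x + L • a - a)
  have h3 := h (x + 0 • a - a)
  linarith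

theorem S_comm (L : ℕ) (a b : T) (F : T → ℝ) : S L a (S L b F) = S L b (S L a F) := by
  funext x
  rw [S_apply, S_apply]
  simp only [S_apply]
  rw [← Finset.sum_div, ← Finset.sum_div, Finset.sum_comm]
  congr 2
  refine Finset.sum_congr rfl (fun i _ => Finset.sum_congr rfl (fun j _ => ?_))
  congr 1
  abel

theorem AA_S_comm (L : ℕ) (l : List T) (b : T) (F : T → ℝ) : AA L l (S L b F) = S L b (AA L l F) := by
  induction l with
  | nil => rfl
  | cons a l ih => rw [AA_cons, AA_cons, ih, S_comm]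

theorem AA_comm (L : ℕ) (l m : List T) (F : T → ℝ) : AA L l (AA L m F) = AA L m (AA L l F) := by
  induction l with
  | nil => rfl
  | cons a l ih => rw [AA_cons, AA_cons, ih, AA_S_comm]

theorem AA_append (L : ℕ) (l m : List T) (F : T → ℝ) : AA L (l ++ m) F = AA L l (AA L m F) := by
  induction l with
  | nil => rfl
  | cons a l ih => rw [List.cons_append, AA_cons, AA_cons, ih]

theorem AA_tele (L : ℕ) (hL : 0 < L) (l : List T) (b : T) (hb : b ∈ l) (g : T → ℝ) (B : ℝ)
    (h : ∀ y, |g y| ≤ B) : ∀ x, |AA L l (fun y => g y - g (y - b)) x| ≤ 2 * B / L := by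
  induction l with
  | nil => simp at hb
  | cons a l ih =>
    intro x
    rcases List.mem_cons.mp hb with h1 | h1
    · subst h1
      rw [AA_cons, ← AA_S_comm]
      have := AA_bd L hL l (S L b (fun y => g y - g (y - b))) 0 (2 * B / L)
        (fun y => by rw [sub_zero]; exact S_tele L b g B h y) x
      rwa [sub_zero] at this
    · rw [AA_cons]
      have := S_bd L hL a (AA L l (fun y => g y - g (y - b))) 0 (2 * B / L)
        (fun y => by rw [sub_zero]; exact ih h1 y) x
      rwa [sub_zero] at this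

theorem AA_const (L : ℕ) (hL : 0 < L) (l : List T) (c : ℝ) (x : T) : AA L l (fun _ => c) x = c := by
  have := AA_bd L hL l (fun _ => c) c 0 (fun y => by simp) x
  have h2 := abs_nonpos_iff.mp this
  linarith

theorem AA_mono (L : ℕ) (l : List T) (F G : T → ℝ) (h : ∀ y, F y ≤ G y) : ∀ x, AA L l F x ≤ AA L l G x := by
  induction l with
  | nil => exact h
  | cons a l ih =>
    intro x
    rw [AA_cons, AA_cons, S_apply, S_apply]
    exact div_le_div_of_nonneg_right (Finset.sum_le_sum (fun i _ => ih _)) (Nat.cast_nonneg L)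

theorem claim1 (L : ℕ) (hL : 0 < L) (N : ℕ) (α : Fin N → T) (G : Fin N → T → ℝ) (B : Fin N → ℝ)
    (hB : ∀ j y, |G j y| ≤ B j) (F : T → ℝ) (c : ℝ)
    (hF : ∀ y, F y = c + ∑ j, (G j y - G j (y - α j))) (x : T) :
    |AA L (List.ofFn α) F x - c| ≤ (∑ j, 2 * B j) / L := by
  have e : F = (fun _ => c) + ∑ j, (fun y => G j y - G j (y - α j)) := by
    funext y
    rw [hF y, Pi.add_apply, Finset.sum_apply]
  rw [e, map_add, map_sum, Pi.add_apply, Finset.sum_apply, AA_const L hL, add_sub_cancel_left]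
  refine (Finset.abs_sum_le_sum_abs _ _).trans ?_
  rw [Finset.sum_div]
  refine Finset.sum_le_sum (fun j _ => ?_)
  exact AA_tele L hL _ (α j) (List.mem_ofFn.mpr ⟨j, rfl⟩) (G j) (B j) (hB j) x

theorem AA_cont (L n : ℕ) : Continuous (fun p : C(T, ℝ) × (Fin n → T) × T =>
    AA L (List.ofFn p.2.1) (p.1 : T → ℝ) p.2.2) := by
  induction n with
  | zero =>
    have : (fun p : C(T, ℝ) × (Fin 0 → T) × T => AA L (List.ofFn p.2.1) (p.1 : T → ℝ) p.2.2)
        = fun p => p.1 p.2.2 := by
      funext p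
      rw [List.ofFn_zero, AA_nil]
    rw [this]
    fun_prop
  | succ n ih =>
    have : (fun p : C(T, ℝ) × (Fin (n+1) → T) × T => AA L (List.ofFn p.2.1) (p.1 : T → ℝ) p.2.2)
        = fun p => (∑ i ∈ Finset.range L,
          (fun q : C(T, ℝ) × (Fin n → T) × T => AA L (List.ofFn q.2.1) (q.1 : T → ℝ) q.2.2)
            (p.1, (fun i => p.2.1 i.succ), p.2.2 + i • p.2.1 0)) / L := by
      funext p
      rw [List.ofFn_succ, AA_cons, S_apply]
    rw [this]
    refine (continuous_finset_sum _ (fun i _ => ?_)).div_const _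
    apply ih.comp
    refine continuous_fst.prodMk (Continuous.prodMk ?_ ?_)
    · exact continuous_pi (fun j => (continuous_apply _).comp (continuous_fst.comp continuous_snd))
    · exact (continuous_snd.comp continuous_snd).add
        ((continuous_nsmul i).comp ((continuous_apply 0).comp (continuous_fst.comp continuous_snd)))

/-- The sets in the Baire argument. -/
def P (n : ℕ) (M : ℕ) : Set C(T, ℝ) := {F | ∃ α : Fin n → T, ∃ c : ℝ, c ∈ Set.Icc (-(M:ℝ)) M ∧
  ∀ L : ℕ, 0 < L → ∀ x, |AA L (List.ofFn α) (F : T → ℝ) x - c| ≤ M / L}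

theorem P_closed (n M : ℕ) : IsClosed (P n M) := by
  let Z : Set (C(T, ℝ) × ((Fin n → T) × Set.Icc (-(M:ℝ)) M)) :=
    {q | ∀ L : ℕ, 0 < L → ∀ x, |AA L (List.ofFn q.2.1) (q.1 : T → ℝ) x - q.2.2| ≤ M / L}
  have hZ : IsClosed Z := by
    have : Z = ⋂ L : ℕ, ⋂ _ : 0 < L, ⋂ x : T,
        {q | |AA L (List.ofFn q.2.1) (q.1 : T → ℝ) x - q.2.2| ≤ M / L} := by
      ext q; simp [Z]
    rw [this]
    refine isClosed_iInter (fun L => isClosed_iInter (fun _ => isClosed_iInter (fun x => ?_)))
    refine isClosed_le ?_ continuous_const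
    refine Continuous.abs (Continuous.sub ?_ ?_)
    · exact (AA_cont L n).comp (continuous_fst.prodMk
        ((continuous_fst.comp continuous_snd).prodMk continuous_const))
    · exact continuous_subtype_val.comp (continuous_snd.comp continuous_snd)
  have hPZ : P n M = Prod.fst '' Z := by
    ext F
    constructor
    · rintro ⟨α, c, hc, h⟩
      exact ⟨(F, (α, ⟨c, hc⟩)), h, rfl⟩
    · rintro ⟨⟨F', α, c⟩, h, rfl⟩
      exact ⟨α, c.1, c.2, h⟩
  rw [hPZ]
  exact isClosedMap_fst_of_compactSpace _ hZ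

/-- All sample points lie in `U`. -/
def In (U : Set T) (L : ℕ) : List T → T → Prop
  | [], x => x ∈ U
  | (a :: l), x => ∀ i ∈ Finset.range L, In U L l (x + i • a)

theorem In_open_dense (U : Set T) (hU : IsOpen U) (hd : Dense U) (L : ℕ) (l : List T) :
    IsOpen {x | In U L l x} ∧ Dense {x | In U L l x} := by
  induction l with
  | nil => exact ⟨hU, hd⟩
  | cons a l ih =>
    have e : {x | In U L (a :: l) x} = ⋂ i ∈ Finset.range L, (fun x => x + i • a) ⁻¹' {x | In U L l x} := by
      ext x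
      simp only [Set.mem_iInter]
      rfl
    have ho : ∀ i : ℕ, IsOpen ((fun x : T => x + i • a) ⁻¹' {x | In U L l x}) :=
      fun i => ih.1.preimage (by fun_prop)
    have hde : ∀ i : ℕ, Dense ((fun x : T => x + i • a) ⁻¹' {x | In U L l x}) :=
      fun i => ih.2.preimage (Homeomorph.addRight (i • a)).isOpenMap
    rw [e]
    refine ⟨isOpen_biInter_finset (fun i _ => ho i), ?_⟩
    exact dense_biInter_of_isOpen (fun i _ => ho i) (Finset.countable_toSet (Finset.range L)) (fun i _ => hde i)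

/-- The approximating functions. -/
noncomputable def hk (U : Set T) (k : ℕ) : C(T, ℝ) :=
  ⟨fun y => min 1 (k * Metric.infDist y Uᶜ), by
    exact continuous_const.min (continuous_const.mul (Metric.continuous_infDist_pt _))⟩

theorem hk_apply (U : Set T) (k : ℕ) (y : T) : hk U k y = min 1 (k * Metric.infDist y Uᶜ) := rfl

theorem hk_nonneg (U : Set T) (k : ℕ) (y : T) : 0 ≤ hk U k y := by
  rw [hk_apply]
  exact le_min zero_le_one (mul_nonneg (Nat.cast_nonneg k) Metric.infDist_nonneg)

theorem hk_le (U : Set T) (k : ℕ) (y : T) : hk U k y ≤ 1 := by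
  rw [hk_apply]; exact min_le_left _ _

theorem hk_mono (U : Set T) (k m : ℕ) (h : k ≤ m) (y : T) : hk U k y ≤ hk U m y := by
  rw [hk_apply, hk_apply]
  apply min_le_min le_rfl
  apply mul_le_mul_of_nonneg_right _ Metric.infDist_nonneg
  exact_mod_cast h

theorem hk_event (U : Set T) (hU : IsOpen U) (hne : (Uᶜ).Nonempty) (L : ℕ) (hL : 0 < L) (l : List T) :
    ∀ x, In U L l x → ∀ᶠ k in atTop, AA L l (hk U k : T → ℝ) x = 1 := by
  induction l with
  | nil =>
    intro x hx
    have hpos : 0 < Metric.infDist x Uᶜ := by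
      rw [← IsClosed.notMem_iff_infDist_pos hU.isClosed_compl hne]
      exact fun h => h hx
    obtain ⟨n, hn⟩ := exists_nat_gt (1 / Metric.infDist x Uᶜ)
    filter_upwards [eventually_ge_atTop n] with k hkn
    rw [AA_nil, hk_apply, min_eq_left]
    rw [div_lt_iff₀ hpos] at hn
    have : (n:ℝ) ≤ k := by exact_mod_cast hkn
    nlinarith
  | cons a l ih =>
    intro x hx
    have h1 : ∀ i ∈ Finset.range L, ∀ᶠ k in atTop, AA L l (hk U k : T → ℝ) (x + i • a) = 1 :=
      fun i hi => ih _ (hx i hi)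
    have h2 := (Filter.eventually_all_finset (Finset.range L)).mpr h1
    filter_upwards [h2] with k hk'
    rw [AA_cons, S_apply, Finset.sum_congr rfl hk', Finset.sum_const, Finset.card_range, nsmul_eq_mul,
      mul_one, div_self]
    exact_mod_cast hL.ne'

theorem AA_continuous (L : ℕ) (l : List T) (F : T → ℝ) (hF : Continuous F) : Continuous (AA L l F) := by
  induction l with
  | nil => exact hF
  | cons a l ih =>
    have : AA L (a :: l) F = fun x => (∑ i ∈ Finset.range L, (AA L l F) (x + i • a)) / L := rfl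
    rw [this]
    exact (continuous_finset_sum _ (fun i _ => ih.comp (by fun_prop))).div_const _

theorem AA_integral (L : ℕ) (hL : 0 < L) (l : List T) (F : T → ℝ) (hF : Continuous F) :
    ∫ x, AA L l F x = ∫ x, F x := by
  induction l with
  | nil => rfl
  | cons a l ih =>
    have hc := AA_continuous L l F hF
    have : ∀ x, AA L (a :: l) F x = (∑ i ∈ Finset.range L, (AA L l F) (x + i • a)) / L := fun x => rfl
    simp only [this]
    rw [integral_div, integral_finset_sum]
    · have h2 : ∀ i ∈ Finset.range L, ∫ x, (AA L l F) (x + i • a) = ∫ x, F x := by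
        intro i _
        rw [integral_add_right_eq_self (fun x => AA L l F x)]
        exact ih
      rw [Finset.sum_congr rfl h2, Finset.sum_const, Finset.card_range, nsmul_eq_mul, mul_div_cancel_left₀]
      exact_mod_cast hL.ne'
    · intro i _
      exact (hc.comp (by fun_prop)).integrable_of_hasCompactSupport (HasCompactSupport.of_compactSpace _)

theorem exists_U : ∃ U : Set T, IsOpen U ∧ Dense U ∧ volume U < ENNReal.ofReal (1/4) := by
  obtain ⟨D, hDc, hDd⟩ := TopologicalSpace.exists_countable_dense T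
  have hpt : ∀ x : T, volume ({x} : Set T) = 0 := by
    intro x
    have := AddCircle.volume_closedBall (T := (1:ℝ)) (x := x) 0
    rw [Metric.closedBall_zero] at this
    rw [this]
    simp
  have hD0 : volume D = 0 := by
    rw [← Set.biUnion_of_singleton D]
    exact (measure_biUnion_null_iff hDc).mpr (fun x _ => hpt x)
  obtain ⟨U, hDU, hUo, hUm⟩ := D.exists_isOpen_lt_of_lt (ENNReal.ofReal (1/4)) (by
    rw [hD0]; exact ENNReal.ofReal_pos.mpr (by norm_num))
  exact ⟨U, hUo, hDd.mono hDU, hUm⟩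

theorem exists_h (L : ℕ) (hL : 0 < L) (N : ℕ) : ∃ h : C(T, ℝ), (∀ y, 0 ≤ h y ∧ h y ≤ 1) ∧
    ∀ α : Fin N → T, (∃ x, 1/2 < AA L (List.ofFn α) (h : T → ℝ) x) ∧
      (∃ x, AA L (List.ofFn α) (h : T → ℝ) x ≤ 1/4) := by
  obtain ⟨U, hU, hd, hm⟩ := exists_U
  have hne : (Uᶜ).Nonempty := by
    rw [Set.nonempty_compl]
    intro h
    rw [h, UnitAddCircle.measure_univ] at hm
    have : ENNReal.ofReal (1/4) ≤ 1 := by
      rw [ENNReal.ofReal_le_one]; norm_num
    exact absurd hm (not_lt.mpr this)
  -- compactness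
  let O : ℕ → Set (Fin N → T) := fun k => {α | ∃ x, 1/2 < AA L (List.ofFn α) (hk U k : T → ℝ) x}
  have hO : ∀ k, IsOpen (O k) := by
    intro k
    have : O k = ⋃ x : T, {α | 1/2 < AA L (List.ofFn α) (hk U k : T → ℝ) x} := by
      ext α; simp [O]
    rw [this]
    refine isOpen_iUnion (fun x => ?_)
    refine isOpen_lt continuous_const ?_
    exact (AA_cont L N).comp (continuous_const.prodMk (continuous_id.prodMk continuous_const))
  have hcov : (Set.univ : Set (Fin N → T)) ⊆ ⋃ k, O k := by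
    intro α _
    obtain ⟨x, hx⟩ := (In_open_dense U hU hd L (List.ofFn α)).2.nonempty
    obtain ⟨k, hk'⟩ := (hk_event U hU hne L hL (List.ofFn α) x hx).exists
    exact Set.mem_iUnion.mpr ⟨k, x, by rw [hk']; norm_num⟩
  have hdir : Directed (· ⊆ ·) O := by
    refine Monotone.directed_le (fun k m hkm α => ?_)
    rintro ⟨x, hx⟩
    exact ⟨x, hx.trans_le (AA_mono L _ _ _ (hk_mono U k m hkm) x)⟩
  obtain ⟨k, hk'⟩ := isCompact_univ.elim_directed_cover O hO hcov hdir
  refine ⟨hk U k, fun y => ⟨hk_nonneg U k y, hk_le U k y⟩, fun α => ⟨hk' (Set.mem_univ α), ?_⟩⟩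
  by_contra hcon
  push Not at hcon
  have hint : ∀ F : T → ℝ, Continuous F → Integrable F volume := fun F hF =>
    hF.integrable_of_hasCompactSupport (HasCompactSupport.of_compactSpace _)
  have h1 : (1/4 : ℝ) ≤ ∫ x, AA L (List.ofFn α) (hk U k : T → ℝ) x := by
    have : ∫ _x : T, (1/4 : ℝ) = 1/4 := by
      rw [integral_const]
      simp [Measure.real]
    rw [← this]
    exact integral_mono (integrable_const _) (hint _ (AA_continuous _ _ _ (hk U k).continuous))
      (fun x => (hcon x).le)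
  rw [AA_integral L hL _ _ (hk U k).continuous] at h1
  have h2 : ∫ x, hk U k x ≤ ∫ x, U.indicator (fun _ => (1:ℝ)) x := by
    refine integral_mono (hint _ (hk U k).continuous)
      ((integrable_const _).indicator hU.measurableSet) (fun y => ?_)
    by_cases hy : y ∈ U
    · rw [Set.indicator_of_mem hy]; exact hk_le U k y
    · rw [Set.indicator_of_notMem hy, hk_apply, Metric.infDist_zero_of_mem hy, mul_zero]
      exact min_le_right _ _
  have h3 : ∫ x, U.indicator (fun _ => (1:ℝ)) x = (volume U).toReal := by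
    rw [integral_indicator hU.measurableSet]
    simp [Measure.real]
  rw [h3] at h2
  have h4 : (volume U).toReal < 1/4 := by
    have := (ENNReal.toReal_lt_toReal hm.ne_top ENNReal.ofReal_ne_top).mpr hm
    rwa [ENNReal.toReal_ofReal (by norm_num)] at this
  linarith


/-- The negation of the preceding statement: Every continuous 1-periodic complex function on the reals with zero integral over [0,1] equals a finite sum of differences g_j(t) − g_j(t − a_j), with each g_j continuous and 1-periodic and each a_j real. -/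
theorem result :
    ¬ (∀ f : ℝ → ℂ, Continuous f → Function.Periodic f 1 →
      (∫ t in (0:ℝ)..1, f t) = 0 →
      ∃ N : ℕ, 1 ≤ N ∧ ∃ a : Fin N → ℝ, ∃ g : Fin N → ℝ → ℂ,
        (∀ j, Continuous (g j) ∧ Function.Periodic (g j) 1) ∧
        ∀ t : ℝ, f t = ∑ j : Fin N, (g j t - g j (t - a j))) := by
  intro H
  -- every F lies in some P n M
  have hall : ∀ F : C(T, ℝ), ∃ q : ℕ × ℕ, F ∈ P q.1 q.2 := by
    intro F
    let c : ℝ := ∫ t in (0:ℝ)..1, F (t : T)
    have hFc : Continuous (fun t : ℝ => F (t : T)) := F.continuous.comp (AddCircle.continuous_mk' 1)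
    obtain ⟨N, _, a, g, hg, hfg⟩ := H (fun t => ((F (t : T) - c : ℝ) : ℂ))
      (Complex.continuous_ofReal.comp (hFc.sub continuous_const))
      (by
        intro t
        show ((F ((t + 1 : ℝ) : T) - c : ℝ) : ℂ) = ((F (t : T) - c : ℝ) : ℂ)
        have : ((t + 1 : ℝ) : T) = (t : T) := AddCircle.coe_add_period 1 t
        rw [this])
      (by
        rw [intervalIntegral.integral_ofReal, intervalIntegral.integral_sub (hFc.intervalIntegrable _ _)
          (continuous_const.intervalIntegrable _ _)]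
        simp [c])
    -- descend
    have hper : ∀ j, Function.Periodic (fun t => (g j t).re) 1 := fun j t => by
      show (g j (t + 1)).re = (g j t).re
      rw [(hg j).2 t]
    let G : Fin N → T → ℝ := fun j => (hper j).lift
    have hG : ∀ j (t : ℝ), G j (t : T) = (g j t).re := fun j t => (hper j).lift_coe t
    have hB : ∀ j, ∃ B : ℝ, ∀ y, |G j y| ≤ B := by
      intro j
      obtain ⟨B, hB⟩ := isCompact_Icc.exists_bound_of_continuousOn
        (s := Set.Icc (0:ℝ) 1) (f := fun t => (g j t).re)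
        (Complex.continuous_re.comp (hg j).1).continuousOn
      refine ⟨B, fun y => ?_⟩
      obtain ⟨t, ht, rfl⟩ : ∃ t ∈ Set.Ico (0:ℝ) (0 + 1), (t : T) = y := by
        have := AddCircle.coe_image_Ico_eq (1:ℝ) 0
        have hy : y ∈ (QuotientAddGroup.mk '' Set.Ico (0:ℝ) (0+1) : Set T) := by
          rw [this]; trivial
        obtain ⟨t, ht, h⟩ := hy
        exact ⟨t, ht, h⟩
      rw [hG]
      exact hB t ⟨ht.1, by have := ht.2; linarith⟩
    choose B hB using hB
    obtain ⟨M, hM⟩ := exists_nat_ge (max |c| (∑ j, 2 * B j))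
    refine ⟨(N, M), fun j => ((a j : ℝ) : T), c, abs_le.mp ((le_max_left _ _).trans hM), ?_⟩
    intro L hL x
    refine (claim1 L hL N (fun j => ((a j : ℝ) : T)) G B hB F c ?_ x).trans ?_
    · intro y
      obtain ⟨t, rfl⟩ := QuotientAddGroup.mk_surjective y
      have h1 := congrArg Complex.re (hfg t)
      rw [Complex.ofReal_re, Complex.re_sum] at h1
      have h2 : ∀ j, G j ((t : T) - ((a j : ℝ) : T)) = (g j (t - a j)).re := by
        intro j
        rw [← hG]; rfl
      show F (t : T) = c + ∑ j, (G j (t : T) - G j ((t : T) - ((a j : ℝ) : T)))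
      have h3 : ∑ j, (G j (t : T) - G j ((t : T) - ((a j : ℝ) : T))) = ∑ j, (g j t - g j (t - a j)).re := by
        refine Finset.sum_congr rfl (fun j _ => ?_)
        rw [hG, h2, Complex.sub_re]
      rw [h3, ← h1]; ring
    · exact div_le_div_of_nonneg_right ((le_max_right _ _).trans hM) (Nat.cast_nonneg L)
  -- Baire
  obtain ⟨⟨n, M⟩, F0, hF0⟩ := nonempty_interior_of_iUnion_of_closed (f := fun q : ℕ × ℕ => P q.1 q.2)
    (fun q => P_closed q.1 q.2) (by
      rw [Set.eq_univ_iff_forall]
      intro F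
      obtain ⟨q, hq⟩ := hall F
      exact Set.mem_iUnion.mpr ⟨q, hq⟩)
  obtain ⟨ε, hε, hball⟩ := Metric.isOpen_iff.mp isOpen_interior F0 hF0
  obtain ⟨α0, c0, _, h0⟩ := interior_subset (hball (Metric.mem_ball_self hε))
  -- choose L
  obtain ⟨L, hLgt⟩ := exists_nat_gt (32 * (M:ℝ) / ε + 1)
  have hLpos : (0:ℝ) < L := by
    have : 0 ≤ 32 * (M:ℝ) / ε := by positivity
    linarith
  have hL : 0 < L := by exact_mod_cast hLpos
  obtain ⟨h, hh, hα⟩ := exists_h L hL (n + n)
  have hmem : F0 + (ε/2) • h ∈ Metric.ball F0 ε := by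
    rw [Metric.mem_ball, dist_eq_norm, add_sub_cancel_left, norm_smul, Real.norm_of_nonneg (by positivity)]
    have : ‖h‖ ≤ 1 := by
      rw [ContinuousMap.norm_le _ zero_le_one]
      intro y
      rw [Real.norm_of_nonneg (hh y).1]
      exact (hh y).2
    nlinarith
  obtain ⟨α1, c1, _, h1⟩ := interior_subset (hball hmem)
  let BB : (T → ℝ) →ₗ[ℝ] (T → ℝ) := (AA L (List.ofFn α0)).comp (AA L (List.ofFn α1))
  have hBBh : ∀ x, BB (h : T → ℝ) x = AA L (List.ofFn (Fin.append α0 α1)) (h : T → ℝ) x := by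
    intro x
    rw [List.ofFn_fin_append, AA_append]
    rfl
  have hb1 : ∀ x, |BB ((F0 + (ε/2) • h : C(T, ℝ)) : T → ℝ) x - c1| ≤ M / L :=
    AA_bd L hL _ _ c1 _ (h1 L hL)
  have hb0 : ∀ x, |BB (F0 : T → ℝ) x - c0| ≤ M / L := by
    intro x
    show |AA L (List.ofFn α0) (AA L (List.ofFn α1) (F0 : T → ℝ)) x - c0| ≤ M / L
    rw [AA_comm]
    exact AA_bd L hL _ _ c0 _ (h0 L hL) x
  have hlin : ∀ x, BB ((F0 + (ε/2) • h : C(T, ℝ)) : T → ℝ) x = BB (F0 : T → ℝ) x + (ε/2) * BB (h : T → ℝ) x := by
    intro x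
    have e : ((F0 + (ε/2) • h : C(T, ℝ)) : T → ℝ) = (F0 : T → ℝ) + (ε/2) • (h : T → ℝ) := rfl
    rw [e, map_add, map_smul]; rfl
  obtain ⟨⟨x, hx⟩, ⟨x', hx'⟩⟩ := hα (Fin.append α0 α1)
  rw [← hBBh] at hx hx'
  have k1 := hb1 x
  have k2 := hb1 x'
  have k3 := hb0 x
  have k4 := hb0 x'
  rw [hlin, abs_le] at k1 k2
  rw [abs_le] at k3 k4
  have k5 : (ε/2) * (BB (h : T → ℝ) x - BB (h : T → ℝ) x') ≤ 4 * (M / L) := by
    nlinarith [k1.2, k2.1, k3.1, k4.2]
  have k6 : (ε/2) * (1/4) < (ε/2) * (BB (h : T → ℝ) x - BB (h : T → ℝ) x') := by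
    apply mul_lt_mul_of_pos_left _ (by positivity)
    linarith
  have k7 : 32 * ((M:ℝ) / L) < ε := by
    rw [← mul_div_assoc, div_lt_iff₀ hLpos]
    have : 32 * (M:ℝ) / ε < L := by linarith
    rw [div_lt_iff₀ hε] at this
    linarith
  have k8 : 4 * ((M:ℝ)/L) < ε/8 := by linarith
  linarith

end Pool.Agent.S03916
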