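import Pool.Statements.S04260
-- import your own Pool.Agent.* helpers here

set_option autoImplicit false
open Pool Pool.MP_d50981_an

namespace Pool.Agent.S04260


open Filter Topology Set

/-- The hat functions. -/
noncomputable def hat (q : ℚ × ℕ) (t : ℝ) : ℝ := max 0 (1 - q.2 * |t - q.1|)

theorem hat_nonneg (q : ℚ × ℕ) (t : ℝ) : 0 ≤ hat q t := le_max_left _ _
theorem hat_le (q : ℚ × ℕ) (t : ℝ) : hat q t ≤ 1 := by
  apply max_le zero_le_one
  have : 0 ≤ (q.2:ℝ) * |t - q.1| := by positivity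
  linarith

theorem hat_cont (q : ℚ × ℕ) : Continuous (hat q) := by
  unfold hat
  fun_prop

theorem hat_abs (q : ℚ × ℕ) (t : ℝ) : |hat q t| ≤ 1 := abs_le.mpr ⟨by linarith [hat_nonneg q t], hat_le q t⟩

theorem summ (A : Set ℝ) (c : lp (fun _ : A => ℝ) 1) : Summable (fun t : A => ‖c t‖) := by
  have h := lp.memℓp c
  rw [memℓp_gen_iff (by simp)] at h
  simpa using h

theorem norm_one (A : Set ℝ) (c : lp (fun _ : A => ℝ) 1) : ‖c‖ = ∑' t : A, ‖c t‖ := by
  rw [lp.norm_eq_tsum_rpow (by simp)]
  simp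

theorem summ2 (A : Set ℝ) (c : lp (fun _ : A => ℝ) 1) (q : ℚ × ℕ) : Summable (fun t : A => c t * hat q t) := by
  refine Summable.of_norm_bounded (summ A c) (fun t => ?_)
  rw [norm_mul]
  exact mul_le_of_le_one_right (norm_nonneg _) (hat_abs q t)

/-- The functional. -/
noncomputable def fn (A : Set ℝ) (q : ℚ × ℕ) : lp (fun _ : A => ℝ) 1 →L[ℝ] ℝ :=
  LinearMap.mkContinuous
    { toFun := fun c => ∑' t : A, c t * hat q t
      map_add' := fun c d => by
        rw [← (summ2 A c q).tsum_add (summ2 A d q)]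
        refine tsum_congr (fun t => ?_)
        rw [lp.coeFn_add, Pi.add_apply, add_mul]
      map_smul' := fun r c => by
        rw [RingHom.id_apply, smul_eq_mul, ← tsum_mul_left]
        refine tsum_congr (fun t => ?_)
        rw [lp.coeFn_smul, Pi.smul_apply, smul_eq_mul, mul_assoc] } 1 (fun c => by
    rw [one_mul, norm_one]
    refine (norm_tsum_le_tsum_norm ?_).trans ?_
    · exact (summ2 A c q).norm
    · refine ((summ2 A c q).norm).tsum_le_tsum (fun t => ?_) (summ A c)
      rw [norm_mul]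
      exact mul_le_of_le_one_right (norm_nonneg _) (hat_abs q t))

theorem fn_apply (A : Set ℝ) (q : ℚ × ℕ) (c : lp (fun _ : A => ℝ) 1) : fn A q c = ∑' t : A, c t * hat q t := rfl

/-- The operator. -/
noncomputable def U (A : Set ℝ) : lp (fun _ : A => ℝ) 1 →L[ℝ] (ℚ × ℕ → ℝ) :=
  ContinuousLinearMap.pi (fun q => fn A q)

/-- the curve -/
noncomputable def X (s : ℝ) : ℚ × ℕ → ℝ := fun q => hat q s

theorem X_cont : Continuous X := continuous_pi (fun q => hat_cont q)

theorem mem_range (A : Set ℝ) (s : ℝ) : X s ∈ Set.range (U A) ↔ s ∈ A := by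
  constructor
  · rintro ⟨c, hc⟩
    by_contra hs
    -- approximating rationals
    have hq : ∀ n : ℕ, ∃ q : ℚ, |s - q| < 1 / ((n:ℝ)+1)^2 := by
      intro n
      have hpos : (0:ℝ) < 1 / ((n:ℝ)+1)^2 := by positivity
      obtain ⟨q, h1, h2⟩ := exists_rat_btwn (show s < s + 1 / ((n:ℝ)+1)^2 by linarith)
      refine ⟨q, ?_⟩
      rw [abs_lt]; constructor <;> linarith
    choose q hq using hq
    have hc2 : ∀ n : ℕ, ∑' t : A, c t * hat (q n, n+1) t = hat (q n, n+1) s := fun n =>
      congrFun hc (q n, n+1)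
    have hn1 : Tendsto (fun n : ℕ => (n:ℝ) + 1) atTop atTop :=
      tendsto_atTop_add_const_right _ _ tendsto_natCast_atTop_atTop
    have hinv : Tendsto (fun n : ℕ => 1 / ((n:ℝ) + 1)) atTop (𝓝 0) := tendsto_one_div_add_atTop_nhds_zero_nat
    have hlim1 : Tendsto (fun n : ℕ => hat (q n, n+1) s) atTop (𝓝 1) := by
      have hlow : Tendsto (fun n : ℕ => 1 - 1 / ((n:ℝ) + 1)) atTop (𝓝 1) := by
        simpa using hinv.const_sub 1
      refine tendsto_of_tendsto_of_tendsto_of_le_of_le hlow tendsto_const_nhds (fun n => ?_)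
        (fun n => hat_le _ _)
      refine le_trans ?_ (le_max_right _ _)
      have h1 : ((n:ℝ)+1) * |s - q n| ≤ 1 / ((n:ℝ)+1) := by
        have hp : (0:ℝ) < (n:ℝ)+1 := by positivity
        calc ((n:ℝ)+1) * |s - q n| ≤ ((n:ℝ)+1) * (1 / ((n:ℝ)+1)^2) :=
              mul_le_mul_of_nonneg_left (hq n).le hp.le
          _ = 1 / ((n:ℝ)+1) := by field_simp
      push_cast
      linarith
    have hlim0 : Tendsto (fun n : ℕ => ∑' t : A, c t * hat (q n, n+1) t) atTop (𝓝 (∑' t : A, (0:ℝ))) := by
      refine tendsto_tsum_of_dominated_convergence (summ A c) (fun t => ?_) ?_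
      · have hts : (t:ℝ) ≠ s := fun h => hs (h ▸ t.2)
        have hd : 0 < |(t:ℝ) - s| := abs_pos.mpr (sub_ne_zero.mpr hts)
        have hev : ∀ᶠ n : ℕ in atTop, hat (q n, n+1) (t:ℝ) = 0 := by
          have e1 : ∀ᶠ n : ℕ in atTop, 1 / ((n:ℝ)+1) < |(t:ℝ) - s| / 2 :=
            hinv.eventually_lt_const (by positivity)
          filter_upwards [e1] with n hn
          apply max_eq_left
          have hp : (0:ℝ) < (n:ℝ)+1 := by positivity
          have hp1 : (1:ℝ) ≤ (n:ℝ)+1 := by
            have : (0:ℝ) ≤ n := Nat.cast_nonneg n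
            linarith
          have h2 : 1 / ((n:ℝ)+1)^2 ≤ 1 / ((n:ℝ)+1) := by
            apply one_div_le_one_div_of_le hp
            nlinarith
          have h3 := hq n
          have h4 : |(t:ℝ) - s| ≤ |(t:ℝ) - q n| + |s - q n| := by
            have := abs_sub_le (t:ℝ) (q n) s
            rwa [abs_sub_comm ((q n : ℚ):ℝ) s] at this
          have h5 : |(t:ℝ) - s| / 2 ≤ |(t:ℝ) - q n| := by linarith
          have h6 : 1 < ((n:ℝ)+1) * (|(t:ℝ) - s| / 2) := by
            rw [div_lt_iff₀ hp] at hn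
            linarith
          have h7 : ((n:ℝ)+1) * (|(t:ℝ) - s| / 2) ≤ ((n:ℝ)+1) * |(t:ℝ) - q n| :=
            mul_le_mul_of_nonneg_left h5 hp.le
          push_cast
          linarith
        refine tendsto_const_nhds.congr' ?_
        filter_upwards [hev] with n hn
        rw [hn, mul_zero]
      · refine Eventually.of_forall (fun n t => ?_)
        rw [norm_mul]
        exact mul_le_of_le_one_right (norm_nonneg _) (hat_abs _ t)
    rw [tsum_zero] at hlim0
    simp only [hc2] at hlim0
    exact zero_ne_one (tendsto_nhds_unique hlim0 hlim1)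
  · intro hs
    refine ⟨lp.single 1 (⟨s, hs⟩ : A) (1:ℝ), ?_⟩
    funext q
    show fn A q (lp.single 1 (⟨s, hs⟩ : A) (1:ℝ)) = hat q s
    rw [fn_apply, tsum_eq_single (⟨s, hs⟩ : A)]
    · rw [lp.single_apply_self, one_mul]
    · intro t ht
      rw [lp.single_apply_ne _ _ _ ht, zero_mul]

theorem exists_nonmeas : ∃ A : Set ℝ, ¬ MeasurableSet A := by
  by_contra h
  push Not at h
  have h1 : (Set.univ : Set (Set ℝ)) = {s | MeasurableSet s} := by
    ext s; simp [h s]
  obtain ⟨b, hb, _, hbm⟩ : ∃ b : Set (Set ℝ), b.Countable ∧ True ∧ (Real.measurableSpace = MeasurableSpace.generateFrom b) := by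
    obtain ⟨b, hb, h⟩ := (inferInstance : MeasurableSpace.CountablyGenerated ℝ).isCountablyGenerated
    exact ⟨b, hb, trivial, h⟩
  have h2 : Cardinal.mk {t : Set ℝ | @MeasurableSet ℝ (MeasurableSpace.generateFrom b) t} ≤ Cardinal.continuum := 
    MeasurableSpace.cardinal_measurableSet_le_continuum (hb.le_aleph0.trans Cardinal.aleph0_le_continuum)
  rw [← hbm] at h2
  have h3 : Cardinal.mk (Set ℝ) ≤ Cardinal.continuum := by
    rw [← Cardinal.mk_univ, h1]
    exact h2
  rw [Cardinal.mk_set, Cardinal.mk_real] at h3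
  exact absurd h3 (not_le.mpr (Cardinal.cantor _))


/-- The negation of the preceding statement: For any two real F-spaces E, E₁ (complete metrizable topological vector spaces, not necessarily separable) and any continuous linear map U from E to E₁, the range of U is a Borel subset of E₁. -/
theorem result :
    ¬ (∀ (E E₁ : Type) [AddCommGroup E] [Module ℝ E] [UniformSpace E] [IsUniformAddGroup E]
      [ContinuousSMul ℝ E] [CompleteSpace E] [T2Space E] [(uniformity E).IsCountablyGenerated]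
      [AddCommGroup E₁] [Module ℝ E₁] [UniformSpace E₁] [IsUniformAddGroup E₁]
      [ContinuousSMul ℝ E₁] [CompleteSpace E₁] [T2Space E₁] [(uniformity E₁).IsCountablyGenerated]
      (U : E →L[ℝ] E₁), @MeasurableSet E₁ (borel E₁) (Set.range U)) := by
  intro H
  obtain ⟨A, hA⟩ := exists_nonmeas
  have h1 := H (lp (fun _ : A => ℝ) 1) (ℚ × ℕ → ℝ) (U A)
  apply hA
  have h2 : @Measurable ℝ (ℚ × ℕ → ℝ) (borel ℝ) (borel (ℚ × ℕ → ℝ)) X := X_cont.borel_measurable
  have h3 := h2 h1
  have h4 : X ⁻¹' (Set.range (U A)) = A := by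
    ext s
    exact mem_range A s
  rw [h4] at h3
  rwa [← (inferInstance : BorelSpace ℝ).measurable_eq] at h3

end Pool.Agent.S04260
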