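import Pool.Statements.S04362
-- import your own Pool.Agent.* helpers here

set_option autoImplicit false
open Pool Pool.MP_df9bac_an

namespace Pool.Agent.S04362


open Filter Topology

def Sp (n : ℕ) (t : ℝ) : Prop := ∃ j : ℕ, j < 64 ^ n ∧ t = (2 * (j:ℝ) + 1) / (2 * 64 ^ n)

def ty (n : ℕ) : Bool := decide (n % 2 = 1)

abbrev I : Type := Bool ⊕ (ℕ × Bool × Finset ℕ)

theorem Sp_lt (n m : ℕ) (t : ℝ) (h : n < m) (h1 : Sp n t) (h2 : Sp m t) : False := by
  obtain ⟨j, _, hj⟩ := h1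
  obtain ⟨i, _, hi⟩ := h2
  obtain ⟨d, rfl⟩ := Nat.exists_eq_add_of_lt h
  rw [hj, div_eq_div_iff (by positivity) (by positivity)] at hi
  have h3 : (2 * (j:ℝ) + 1) * (64 ^ (d + 1)) = 2 * (i:ℝ) + 1 := by
    have e : (2:ℝ) * 64 ^ (n + d + 1) = (2 * 64 ^ n) * 64 ^ (d + 1) := by
      rw [show n + d + 1 = n + (d + 1) by ring, pow_add]; ring
    rw [e] at hi
    have hp : (0:ℝ) < 2 * 64 ^ n := by positivity
    have : (2 * 64 ^ n) * ((2 * (j:ℝ) + 1) * (64 ^ (d + 1))) = (2 * 64 ^ n) * (2 * (i:ℝ) + 1) := by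
      linarith
    exact mul_left_cancel₀ hp.ne' this
  have h4 : (2 * j + 1) * (64 ^ (d + 1)) = 2 * i + 1 := by exact_mod_cast h3
  have h5 : 2 ∣ (2 * j + 1) * (64 ^ (d + 1)) :=
    Dvd.dvd.mul_left (dvd_pow (by norm_num : 2 ∣ 64) (Nat.succ_ne_zero d)) _
  rw [h4] at h5
  omega

theorem Sp_unique (n m : ℕ) (t : ℝ) (h1 : Sp n t) (h2 : Sp m t) : n = m := by
  rcases lt_trichotomy n m with h | h | h
  · exact (Sp_lt n m t h h1 h2).elim
  · exact h
  · exact (Sp_lt m n t h h2 h1).elim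

open Classical in
noncomputable def F (t : ℝ) : I → ℝ
  | Sum.inl b => if ∃ n, Sp n t ∧ ty n = b then 1 else 0
  | Sum.inr p => if (∃ n, p.1 ≤ n ∧ Sp n t ∧ ty n = p.2.1) ∧ p.2.2 ⊆ Finset.range (64 ^ p.1) then
      (if ⌊(64:ℝ) ^ p.1 * t⌋₊ ∈ p.2.2 then 1 else 0) - (p.2.2.card : ℝ) / 64 ^ p.1 else 0

noncomputable def V (b : Bool) : I → ℝ
  | Sum.inl b' => if b' = b then 1 else 0
  | Sum.inr _ => 0

theorem V_fin (b : Bool) : {i | V b i ≠ 0}.Finite := by
  refine (Set.finite_range (Sum.inl : Bool → I)).subset ?_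
  rintro (b' | p) h
  · exact ⟨b', rfl⟩
  · exact (h rfl).elim

theorem F_fin (t : ℝ) : {i | F t i ≠ 0}.Finite := by
  by_cases hs : ∃ n, Sp n t
  · obtain ⟨n, hn⟩ := hs
    have hfin : ((Set.Iic n) ×ˢ ((Set.univ : Set Bool) ×ˢ
        ((Finset.range (64 ^ n)).powerset : Set (Finset ℕ)))).Finite :=
      (Set.finite_Iic n).prod (Set.finite_univ.prod (Finset.finite_toSet _))
    refine ((Set.finite_range (Sum.inl : Bool → I)).union (hfin.image Sum.inr)).subset ?_
    rintro (b' | ⟨l, b, B⟩) h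
    · exact Or.inl ⟨b', rfl⟩
    · right
      refine ⟨(l, b, B), ?_, rfl⟩
      have h' : (∃ n, l ≤ n ∧ Sp n t ∧ ty n = b) ∧ B ⊆ Finset.range (64 ^ l) := by
        by_contra hc
        exact h (if_neg hc)
      obtain ⟨⟨m, hm, hm2, _⟩, hB⟩ := h'
      have : m = n := Sp_unique m n t hm2 hn
      subst this
      refine ⟨hm, Set.mem_univ _, ?_⟩
      rw [Finset.mem_coe, Finset.mem_powerset]
      exact hB.trans (Finset.range_mono (Nat.pow_le_pow_right (by norm_num) hm))
  · have : {i | F t i ≠ 0} = ∅ := by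
      rw [Set.eq_empty_iff_forall_notMem]
      intro i hi
      apply hi
      rcases i with b | p
      · apply if_neg
        rintro ⟨n, hn, _⟩
        exact hs ⟨n, hn⟩
      · apply if_neg
        rintro ⟨⟨n, _, hn, _⟩, _⟩
        exact hs ⟨n, hn⟩
    rw [this]
    exact Set.finite_empty

noncomputable def coord (G : I → ℝ) (m : ℕ) : ℝ :=
  match (Encodable.decode₂ I m) with
  | some i => G i
  | none => 0

theorem coord_encode (G : I → ℝ) (i : I) : coord G (Encodable.encode i) = G i := by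
  unfold coord
  rw [Encodable.decode₂_encode]

theorem coord_fin (G : I → ℝ) (h : {i | G i ≠ 0}.Finite) : {m | coord G m ≠ 0}.Finite := by
  refine (h.image Encodable.encode).subset ?_
  intro m hm
  have hm' : coord G m ≠ 0 := hm
  unfold coord at hm'
  cases hd : (Encodable.decode₂ I m) with
  | none => rw [hd] at hm'; exact (hm' rfl).elim
  | some i =>
    rw [hd] at hm'
    exact ⟨i, hm', Encodable.decode₂_eq_some.mp hd⟩

noncomputable def mk (G : I → ℝ) (h : {i | G i ≠ 0}.Finite) : ZeroAtInftyContinuousMap ℕ ℝ where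
  toFun := coord G
  continuous_toFun := continuous_of_discreteTopology
  zero_at_infty' := by
    rw [Filter.cocompact_eq_cofinite]
    refine tendsto_const_nhds.congr' ?_
    have := (coord_fin G h).compl_mem_cofinite
    filter_upwards [this] with m hm
    by_contra hc
    exact hm (fun h => hc h.symm)

theorem mk_encode (G : I → ℝ) (h : {i | G i ≠ 0}.Finite) (i : I) : mk G h (Encodable.encode i) = G i :=
  coord_encode G i

theorem ext_encode (g h : ZeroAtInftyContinuousMap ℕ ℝ)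
    (h1 : ∀ i : I, g (Encodable.encode i) = h (Encodable.encode i))
    (h2 : ∀ m, Encodable.decode₂ I m = none → g m = h m) : g = h := by
  ext m
  cases hd : (Encodable.decode₂ I m) with
  | none => exact h2 m hd
  | some i =>
    rw [← Encodable.decode₂_eq_some.mp hd]
    exact h1 i

theorem mk_none (G : I → ℝ) (h : {i | G i ≠ 0}.Finite) (m : ℕ) (hm : Encodable.decode₂ I m = none) :
    mk G h m = 0 := by
  show coord G m = 0
  unfold coord
  rw [hm]

/-- evaluation -/
noncomputable def ev (m : ℕ) : ZeroAtInftyContinuousMap ℕ ℝ →ₗ[ℝ] ℝ where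
  toFun g := g m
  map_add' _ _ := rfl
  map_smul' _ _ := rfl

theorem ev_apply (m : ℕ) (g : ZeroAtInftyContinuousMap ℕ ℝ) : ev m g = g m := rfl

theorem abs_le_norm (g : ZeroAtInftyContinuousMap ℕ ℝ) (m : ℕ) : |g m| ≤ ‖g‖ := by
  rw [← ZeroAtInftyContinuousMap.norm_toBCF_eq_norm]
  exact g.toBCF.norm_coe_le_norm m

noncomputable def f (t : ℝ) : ZeroAtInftyContinuousMap ℕ ℝ := mk (F t) (F_fin t)

open Classical in
theorem F_bd (t : ℝ) (i : I) : |F t i| ≤ 1 := by
  rcases i with b | ⟨l, b, B⟩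
  · show |if ∃ n, Sp n t ∧ ty n = b then (1:ℝ) else 0| ≤ 1
    split_ifs <;> simp
  · show |if (∃ n, l ≤ n ∧ Sp n t ∧ ty n = b) ∧ B ⊆ Finset.range (64 ^ l) then
      (if ⌊(64:ℝ) ^ l * t⌋₊ ∈ B then (1:ℝ) else 0) - (B.card : ℝ) / 64 ^ l else 0| ≤ 1
    by_cases h : (∃ n, l ≤ n ∧ Sp n t ∧ ty n = b) ∧ B ⊆ Finset.range (64 ^ l)
    · rw [if_pos h]
      have hc : B.card ≤ 64 ^ l := by
        have := Finset.card_le_card h.2
        rwa [Finset.card_range] at this
      have hc' : (B.card:ℝ) ≤ 64 ^ l := by exact_mod_cast hc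
      have h1 : (B.card:ℝ) / 64 ^ l ≤ 1 := (div_le_one (by positivity)).mpr hc'
      have h0 : 0 ≤ (B.card:ℝ) / 64 ^ l := by positivity
      rw [abs_le]
      split_ifs <;> constructor <;> linarith
    · rw [if_neg h]; simp

theorem f_bd (t : ℝ) : ‖f t‖ ≤ 1 := by
  rw [← ZeroAtInftyContinuousMap.norm_toBCF_eq_norm, BoundedContinuousFunction.norm_le zero_le_one]
  intro m
  show |coord (F t) m| ≤ 1
  unfold coord
  cases hd : (Encodable.decode₂ I m) with
  | none => simp
  | some i => exact F_bd t i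

/-! first part: the two points -/

theorem count (M D : ℕ) (hD : 0 < D) (B : Finset ℕ) (hB : B ⊆ Finset.range M) :
    ((Finset.range (M * D)).filter (fun i => i / D ∈ B)).card = B.card * D := by
  have e : (Finset.range (M * D)).filter (fun i => i / D ∈ B) =
      B.biUnion (fun j => Finset.Ico (j * D) (j * D + D)) := by
    ext i
    simp only [Finset.mem_filter, Finset.mem_range, Finset.mem_biUnion, Finset.mem_Ico]
    constructor
    · rintro ⟨h1, h2⟩
      refine ⟨i / D, h2, Nat.div_mul_le_self i D, ?_⟩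
      have := Nat.lt_div_mul_add (a := i) hD
      exact this
    · rintro ⟨j, hj, h1, h2⟩
      have hd : i / D = j := by
        apply Nat.div_eq_of_lt_le h1
        rw [Nat.succ_mul]; exact h2
      have hjM := Finset.mem_range.mp (hB hj)
      refine ⟨?_, by rw [hd]; exact hj⟩
      calc i < j * D + D := h2
        _ = (j + 1) * D := by ring
        _ ≤ M * D := Nat.mul_le_mul_right D hjM
  rw [e, Finset.card_biUnion]
  · simp
  · intro a _ b _ hab
    show Disjoint (Finset.Ico (a * D) (a * D + D)) (Finset.Ico (b * D) (b * D + D))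
    rw [Finset.disjoint_left]
    intro i hi hi'
    rw [Finset.mem_Ico] at hi hi'
    apply hab
    have h1 : i / D = a := by
      apply Nat.div_eq_of_lt_le hi.1
      rw [Nat.succ_mul]; exact hi.2
    have h2 : i / D = b := by
      apply Nat.div_eq_of_lt_le hi'.1
      rw [Nat.succ_mul]; exact hi'.2
    rw [← h1, h2]

theorem floor_pt (l n i : ℕ) (h : l ≤ n) :
    ⌊(64:ℝ) ^ l * ((2 * (i:ℝ) + 1) / (2 * 64 ^ n))⌋₊ = i / 64 ^ (n - l) := by
  have e : (64:ℝ) ^ l * ((2 * (i:ℝ) + 1) / (2 * 64 ^ n)) =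
      ((2 * i + 1 : ℕ) : ℝ) / ((2 * 64 ^ (n - l) : ℕ) : ℝ) := by
    have : (64:ℝ) ^ n = 64 ^ l * 64 ^ (n - l) := by rw [← pow_add]; congr 1; omega
    rw [this]
    push_cast
    field_simp
  rw [e, Nat.floor_div_eq_div, ← Nat.div_div_eq_div_mul]
  congr 1
  omega

open Classical in
theorem Fpt_inl (n i : ℕ) (hi : i < 64 ^ n) (b : Bool) :
    F ((2 * (i:ℝ) + 1) / (2 * 64 ^ n)) (Sum.inl b) = if ty n = b then 1 else 0 := by
  have hs : Sp n ((2 * (i:ℝ) + 1) / (2 * 64 ^ n)) := ⟨i, hi, rfl⟩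
  show (if ∃ m, Sp m ((2 * (i:ℝ) + 1) / (2 * 64 ^ n)) ∧ ty m = b then (1:ℝ) else 0) = _
  by_cases h : ty n = b
  · rw [if_pos h, if_pos ⟨n, hs, h⟩]
  · rw [if_neg h, if_neg]
    rintro ⟨m, hm, hm2⟩
    rw [Sp_unique m n _ hm hs] at hm2
    exact h hm2

open Classical in
theorem Fpt_inr (n i : ℕ) (hi : i < 64 ^ n) (l : ℕ) (b : Bool) (B : Finset ℕ) :
    F ((2 * (i:ℝ) + 1) / (2 * 64 ^ n)) (Sum.inr (l, b, B)) =
      if (l ≤ n ∧ ty n = b) ∧ B ⊆ Finset.range (64 ^ l) then
        (if i / 64 ^ (n - l) ∈ B then 1 else 0) - (B.card : ℝ) / 64 ^ l else 0 := by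
  have hs : Sp n ((2 * (i:ℝ) + 1) / (2 * 64 ^ n)) := ⟨i, hi, rfl⟩
  show (if (∃ m, l ≤ m ∧ Sp m ((2 * (i:ℝ) + 1) / (2 * 64 ^ n)) ∧ ty m = b) ∧ B ⊆ Finset.range (64 ^ l) then
      (if ⌊(64:ℝ) ^ l * ((2 * (i:ℝ) + 1) / (2 * 64 ^ n))⌋₊ ∈ B then (1:ℝ) else 0) - (B.card : ℝ) / 64 ^ l
      else 0) = _
  by_cases h : (l ≤ n ∧ ty n = b) ∧ B ⊆ Finset.range (64 ^ l)
  · rw [if_pos h, if_pos ⟨⟨n, h.1.1, hs, h.1.2⟩, h.2⟩, floor_pt l n i h.1.1]
  · rw [if_neg h, if_neg]
    rintro ⟨⟨m, hm0, hm, hm2⟩, hm3⟩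
    rw [Sp_unique m n _ hm hs] at hm2 hm0
    exact h ⟨⟨hm0, hm2⟩, hm3⟩

open Classical in
theorem sum_eq (n : ℕ) :
    ∑ i ∈ Finset.range (64 ^ n), ((1:ℝ) / 64 ^ n) • f ((2 * (i:ℝ) + 1) / (2 * 64 ^ n)) =
      mk (V (ty n)) (V_fin (ty n)) := by
  have hp : (0:ℝ) < 64 ^ n := by positivity
  apply ext_encode
  · intro i
    rw [← ev_apply, map_sum]
    simp only [map_smul, ev_apply, smul_eq_mul, f, mk_encode]
    rw [← Finset.mul_sum]
    rcases i with b | ⟨l, b, B⟩
    · rw [Finset.sum_congr rfl (fun i hi => Fpt_inl n i (Finset.mem_range.mp hi) b)]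
      rw [Finset.sum_const, Finset.card_range, nsmul_eq_mul]
      show _ = if b = ty n then (1:ℝ) else 0
      push_cast
      by_cases h : ty n = b
      · rw [if_pos h, if_pos h.symm, mul_one, one_div, inv_mul_cancel₀ hp.ne']
      · rw [if_neg h, if_neg (fun h' => h h'.symm), mul_zero, mul_zero]
    · rw [Finset.sum_congr rfl (fun i hi => Fpt_inr n i (Finset.mem_range.mp hi) l b B)]
      show _ = (0:ℝ)
      by_cases h : (l ≤ n ∧ ty n = b) ∧ B ⊆ Finset.range (64 ^ l)
      · simp only [if_pos h]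
        rw [Finset.sum_sub_distrib, Finset.sum_const, Finset.card_range, nsmul_eq_mul,
          ← Finset.sum_filter, Finset.sum_const, nsmul_eq_mul, mul_one]
        have hpow : 64 ^ n = 64 ^ l * 64 ^ (n - l) := by rw [← pow_add]; congr 1; omega
        have hc : ((Finset.range (64 ^ n)).filter (fun i => i / 64 ^ (n - l) ∈ B)).card
            = B.card * 64 ^ (n - l) := by
          rw [hpow]
          exact count (64 ^ l) (64 ^ (n - l)) (by positivity) B h.2
        rw [hc]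
        have hpow' : (64:ℝ) ^ n = 64 ^ l * 64 ^ (n - l) := by exact_mod_cast hpow
        push_cast
        rw [hpow']
        field_simp
        ring
      · simp only [if_neg h]
        simp
  · intro m hm
    rw [← ev_apply, map_sum, mk_none _ _ m hm]
    apply Finset.sum_eq_zero
    intro i _
    rw [map_smul, ev_apply, f, mk_none _ _ m hm, smul_zero]

theorem mono_X (N : ℕ) (X : ℕ → ℝ) (hX : ∀ i, i < N → X i < X (i+1)) :
    ∀ i j, i ≤ j → j ≤ N → X i ≤ X j := by
  intro i j hij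
  induction j, hij using Nat.le_induction with
  | base => intro _; exact le_rfl
  | succ j hij ih => intro hj; exact (ih (by omega)).trans (hX j (by omega)).le

open Classical in
theorem card_J (N : ℕ) (X τ : ℕ → ℝ) (hX : ∀ i, i < N → X i < X (i+1))
    (hτ : ∀ i, i < N → X i ≤ τ i ∧ τ i ≤ X (i+1)) (s : ℕ) :
    (((Finset.range N).filter (fun i => ∃ r, r < s ∧ Sp r (τ i))).card : ℝ) * 63 ≤ 2 * 64 ^ s := by
  set J := (Finset.range N).filter (fun i => ∃ r, r < s ∧ Sp r (τ i)) with hJ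
  have hm := mono_X N X hX
  have h1 : J.card ≤ 2 * (J.image τ).card := by
    apply Finset.card_le_mul_card_image
    intro a _
    have key : ∀ i ∈ J.filter (fun x => τ x = a), ∀ j ∈ J.filter (fun x => τ x = a), i < j → j = i + 1 := by
      intro i hi j hj hij
      rw [Finset.mem_filter] at hi hj
      have hiN := Finset.mem_range.mp (Finset.mem_filter.mp hi.1).1
      have hjN := Finset.mem_range.mp (Finset.mem_filter.mp hj.1).1
      by_contra hne
      have h2 : i + 1 < j := by omega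
      have h3 := (hτ i hiN).2
      have h4 := (hτ j hjN).1
      have h5 := hX (i+1) (by omega)
      have h6 := hm (i+1+1) j (by omega) (by omega)
      rw [hi.2] at h3
      rw [hj.2] at h4
      linarith
    rcases (J.filter (fun x => τ x = a)).eq_empty_or_nonempty with he | hne
    · rw [he]; simp
    · set i0 := (J.filter (fun x => τ x = a)).min' hne with hi0
      have hmem := (J.filter (fun x => τ x = a)).min'_mem hne
      have hsub : J.filter (fun x => τ x = a) ⊆ {i0, i0 + 1} := by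
        intro j hj
        have hle := (J.filter (fun x => τ x = a)).min'_le j hj
        rw [Finset.mem_insert, Finset.mem_singleton]
        rcases eq_or_lt_of_le hle with h | h
        · left; exact h.symm
        · right; exact key _ hmem j hj h
      exact (Finset.card_le_card hsub).trans Finset.card_le_two
  have h2 : (J.image τ).card ≤ ∑ r ∈ Finset.range s, 64 ^ r := by
    have hsub : J.image τ ⊆ (Finset.range s).biUnion (fun r =>
        (Finset.range (64 ^ r)).image (fun j : ℕ => (2 * (j:ℝ) + 1) / (2 * 64 ^ r))) := by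
      intro t ht
      obtain ⟨i, hi, rfl⟩ := Finset.mem_image.mp ht
      obtain ⟨r, hr, j, hj, hj2⟩ := (Finset.mem_filter.mp hi).2
      rw [Finset.mem_biUnion]
      refine ⟨r, Finset.mem_range.mpr hr, ?_⟩
      rw [Finset.mem_image]
      exact ⟨j, Finset.mem_range.mpr hj, hj2.symm⟩
    refine (Finset.card_le_card hsub).trans (Finset.card_biUnion_le.trans ?_)
    refine Finset.sum_le_sum (fun r _ => ?_)
    refine Finset.card_image_le.trans ?_
    rw [Finset.card_range]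
  have h3 : ∀ s : ℕ, (∑ r ∈ Finset.range s, (64:ℕ) ^ r) * 63 ≤ 64 ^ s := by
    intro s
    induction s with
    | zero => simp
    | succ s ih => rw [Finset.sum_range_succ, pow_succ]; omega
  have h4 : J.card * 63 ≤ 2 * 64 ^ s := by
    have := h3 s
    calc J.card * 63 ≤ 2 * (∑ r ∈ Finset.range s, 64 ^ r) * 63 :=
          Nat.mul_le_mul_right _ (h1.trans (Nat.mul_le_mul_left 2 h2))
      _ = 2 * ((∑ r ∈ Finset.range s, 64 ^ r) * 63) := by ring
      _ ≤ 2 * 64 ^ s := Nat.mul_le_mul_left 2 this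
  exact_mod_cast h4

open Classical in
/-- the number of level-`s` cells contained in the intervals whose tag has level `< s` -/
theorem cells (N : ℕ) (X τ : ℕ → ℝ) (h0 : X 0 = 0) (h1 : X N = 1) (hX : ∀ i, i < N → X i < X (i+1))
    (hτ : ∀ i, i < N → X i ≤ τ i ∧ τ i ≤ X (i+1)) (s : ℕ) :
    ∃ Bc : Finset ℕ, Bc ⊆ Finset.range (64 ^ s) ∧
      (64:ℝ) ^ s * (∑ i ∈ Finset.range N, if (∃ r, r < s ∧ Sp r (τ i)) then (X (i+1) - X i) else 0)
        - 4 / 63 * 64 ^ s ≤ Bc.card ∧
      ∀ i, i < N → (∃ n, s ≤ n ∧ Sp n (τ i)) → ⌊(64:ℝ) ^ s * τ i⌋₊ ∉ Bc ∧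
        ⌊(64:ℝ) ^ s * τ i⌋₊ ∈ Finset.range (64 ^ s) := by
  have hm := mono_X N X hX
  set J := (Finset.range N).filter (fun i => ∃ r, r < s ∧ Sp r (τ i)) with hJ
  have hp : (0:ℝ) < 64 ^ s := by positivity
  have hX0 : ∀ i, i ≤ N → 0 ≤ X i := fun i hi => by
    have := hm 0 i (Nat.zero_le _) hi
    rwa [h0] at this
  have hX1 : ∀ i, i ≤ N → X i ≤ 1 := fun i hi => by
    have := hm i N hi le_rfl
    rwa [h1] at this
  let C : ℕ → Finset ℕ := fun i => Finset.Ico ⌈(64:ℝ) ^ s * X i⌉₊ ⌊(64:ℝ) ^ s * X (i+1)⌋₊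
  refine ⟨J.biUnion C, ?_, ?_, ?_⟩
  · intro c hc
    obtain ⟨i, hi, hci⟩ := Finset.mem_biUnion.mp hc
    have hiN := Finset.mem_range.mp (Finset.mem_filter.mp hi).1
    have h2 := (Finset.mem_Ico.mp hci).2
    rw [Finset.mem_range]
    refine h2.trans_le ?_
    have : ⌊(64:ℝ) ^ s * X (i+1)⌋₊ ≤ ⌊((64 ^ s : ℕ) : ℝ)⌋₊ := by
      apply Nat.floor_mono
      push_cast
      have := hX1 (i+1) (by omega)
      nlinarith
    rwa [Nat.floor_natCast] at this
  · rw [Finset.card_biUnion]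
    · have hc1 : ∀ i ∈ J, (64:ℝ) ^ s * (X (i+1) - X i) - 2 ≤ ((C i).card : ℝ) := by
        intro i hi
        have hiN := Finset.mem_range.mp (Finset.mem_filter.mp hi).1
        have ha : 0 ≤ (64:ℝ) ^ s * X i := mul_nonneg hp.le (hX0 i (by omega))
        have h2 : (⌈(64:ℝ) ^ s * X i⌉₊ : ℝ) < 64 ^ s * X i + 1 := Nat.ceil_lt_add_one ha
        have h3 : (64:ℝ) ^ s * X (i+1) < ⌊(64:ℝ) ^ s * X (i+1)⌋₊ + 1 := Nat.lt_floor_add_one _
        have h4 : (⌊(64:ℝ) ^ s * X (i+1)⌋₊ : ℝ) - ⌈(64:ℝ) ^ s * X i⌉₊ ≤ ((C i).card : ℝ) := by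
          show _ ≤ (((Finset.Ico ⌈(64:ℝ) ^ s * X i⌉₊ ⌊(64:ℝ) ^ s * X (i+1)⌋₊).card : ℕ) : ℝ)
          rw [Nat.card_Ico, sub_le_iff_le_add]
          have hpq : ∀ p q : ℕ, p ≤ (p - q) + q := fun p q => by omega
          exact_mod_cast hpq _ _
        linarith
      have hc2 := Finset.sum_le_sum hc1
      have hc3 := card_J N X τ hX hτ s
      rw [← hJ] at hc3
      rw [Finset.sum_sub_distrib, ← Finset.mul_sum, Finset.sum_const, nsmul_eq_mul] at hc2
      rw [← Finset.sum_filter, ← hJ]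
      push_cast
      linarith
    · intro i hi j hj hij
      show Disjoint (C i) (C j)
      have key : ∀ i j, i ∈ J → j ∈ J → i < j → Disjoint (C i) (C j) := by
        intro i j hi hj hij
        have hjN := Finset.mem_range.mp (Finset.mem_filter.mp hj).1
        rw [Finset.disjoint_left]
        intro c hc hc'
        have h2 := (Finset.mem_Ico.mp hc).2
        have h3 := (Finset.mem_Ico.mp hc').1
        have h4 : (c:ℝ) + 1 ≤ (64:ℝ) ^ s * X (i+1) := by
          have := Nat.floor_le (show 0 ≤ (64:ℝ) ^ s * X (i+1) from mul_nonneg hp.le (hX0 (i+1) (by omega)))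
          have h5 : ((c+1 : ℕ) : ℝ) ≤ ⌊(64:ℝ) ^ s * X (i+1)⌋₊ := by exact_mod_cast h2
          push_cast at h5
          linarith
        have h6 : (64:ℝ) ^ s * X j ≤ c := by
          exact (Nat.le_ceil _).trans (by exact_mod_cast h3)
        have h7 := hm (i+1) j (by omega) (by omega)
        nlinarith
      rcases lt_or_gt_of_ne hij with h | h
      · exact key i j hi hj h
      · exact (key j i hj hi h).symm
  · intro i hiN hlev
    obtain ⟨n, hsn, hn⟩ := hlev
    have hn' := hn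
    obtain ⟨k, hk, hk2⟩ := hn'
    have hpow : (64:ℝ) ^ n = 64 ^ s * 64 ^ (n - s) := by rw [← pow_add]; congr 1; omega
    have hτ0 : 0 < τ i := by rw [hk2]; positivity
    have hτ1 : τ i < 1 := by
      rw [hk2, div_lt_one (by positivity)]
      have : (k:ℝ) + 1 ≤ 64 ^ n := by exact_mod_cast hk
      linarith
    set c := ⌊(64:ℝ) ^ s * τ i⌋₊ with hc
    have hc1 : (c:ℝ) ≤ 64 ^ s * τ i := Nat.floor_le (by positivity)
    have hc2 : (64:ℝ) ^ s * τ i < c + 1 := Nat.lt_floor_add_one _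
    have hcne : (c:ℝ) ≠ 64 ^ s * τ i := by
      intro he
      rw [hk2, hpow] at he
      have : (c:ℝ) * (2 * 64 ^ (n - s)) = 2 * k + 1 := by
        rw [he]; field_simp
      have h' : c * (2 * 64 ^ (n - s)) = 2 * k + 1 := by exact_mod_cast this
      have h2 : 2 ∣ c * (2 * 64 ^ (n - s)) := Dvd.dvd.mul_left (Dvd.intro _ rfl) _
      rw [h'] at h2
      omega
    have hc3 : (c:ℝ) < 64 ^ s * τ i := lt_of_le_of_ne hc1 hcne
    refine ⟨?_, ?_⟩
    · intro hmem
      obtain ⟨j, hj, hcj⟩ := Finset.mem_biUnion.mp hmem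
      have hj' := Finset.mem_filter.mp hj
      have hjN := Finset.mem_range.mp hj'.1
      obtain ⟨r, hr, hr2⟩ := hj'.2
      have hij : i ≠ j := by
        rintro rfl
        have := Sp_unique n r _ hn hr2
        omega
      have h2 := (Finset.mem_Ico.mp hcj).2
      have h3 := (Finset.mem_Ico.mp hcj).1
      have h4 : (c:ℝ) + 1 ≤ (64:ℝ) ^ s * X (j+1) := by
        have := Nat.floor_le (show 0 ≤ (64:ℝ) ^ s * X (j+1) from mul_nonneg hp.le (hX0 (j+1) (by omega)))
        have h5 : ((c+1 : ℕ) : ℝ) ≤ ⌊(64:ℝ) ^ s * X (j+1)⌋₊ := by exact_mod_cast h2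
        push_cast at h5
        linarith
      have h6 : (64:ℝ) ^ s * X j ≤ c := (Nat.le_ceil _).trans (by exact_mod_cast h3)
      have h7 : X j < τ i := by
        have : (64:ℝ) ^ s * X j < 64 ^ s * τ i := by linarith
        exact lt_of_mul_lt_mul_left this hp.le
      have h8 : τ i < X (j+1) := by
        have : (64:ℝ) ^ s * τ i < 64 ^ s * X (j+1) := by linarith
        exact lt_of_mul_lt_mul_left this hp.le
      rcases lt_or_gt_of_ne hij with h | h
      · have := hm (i+1) j (by omega) (by omega)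
        have := (hτ i hiN).2
        linarith
      · have := hm (j+1) i (by omega) (by omega)
        have := (hτ i hiN).1
        linarith
    · rw [Finset.mem_range]
      have : (c:ℝ) < 64 ^ s := by nlinarith
      exact_mod_cast this

open Classical in
theorem part2 (N : ℕ) (X τ : ℕ → ℝ) (h0 : X 0 = 0) (h1 : X N = 1) (hX : ∀ i, i < N → X i < X (i+1))
    (hτ : ∀ i, i < N → X i ≤ τ i ∧ τ i ≤ X (i+1))
    (hv : ‖∑ i ∈ Finset.range N, (X (i+1) - X i) • f (τ i) -
      ((1/2:ℝ) • mk (V false) (V_fin false) + (1/2:ℝ) • mk (V true) (V_fin true))‖ < 1/100) : False := by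
  have hcoord : ∀ i : I, |∑ j ∈ Finset.range N, (X (j+1) - X j) * F (τ j) i -
      ((1/2:ℝ) * V false i + (1/2:ℝ) * V true i)| < 1/100 := by
    intro i
    refine lt_of_le_of_lt ?_ hv
    refine le_trans (le_of_eq ?_) (abs_le_norm _ (Encodable.encode i))
    rw [← ev_apply, map_sub, map_add, map_sum]
    simp only [map_smul, ev_apply, smul_eq_mul, f, mk_encode]
  have hcpos : ∀ j ∈ Finset.range N, 0 ≤ X (j+1) - X j := fun j hj => by
    have := hX j (Finset.mem_range.mp hj)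
    linarith
  -- masses
  have hmass : ∀ b : Bool, 49/100 < ∑ j ∈ Finset.range N,
      if (∃ n, Sp n (τ j) ∧ ty n = b) then (X (j+1) - X j) else 0 := by
    intro b
    have h := hcoord (Sum.inl b)
    have e1 : ∑ j ∈ Finset.range N, (X (j+1) - X j) * F (τ j) (Sum.inl b) =
        ∑ j ∈ Finset.range N, if (∃ n, Sp n (τ j) ∧ ty n = b) then (X (j+1) - X j) else 0 := by
      refine Finset.sum_congr rfl (fun j _ => ?_)
      show (X (j+1) - X j) * (if ∃ n, Sp n (τ j) ∧ ty n = b then (1:ℝ) else 0) = _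
      split_ifs <;> ring
    have e2 : (1/2:ℝ) * V false (Sum.inl b) + (1/2:ℝ) * V true (Sum.inl b) = 1/2 := by
      show (1/2:ℝ) * (if b = false then 1 else 0) + (1/2:ℝ) * (if b = true then 1 else 0) = 1/2
      cases b <;> norm_num
    rw [e1, e2, abs_lt] at h
    linarith [h.1]
  let M : ℕ → ℝ := fun s => ∑ j ∈ Finset.range N,
    if (∃ r, r < s ∧ Sp r (τ j)) then (X (j+1) - X j) else 0
  have hM0 : M 0 = 0 := by
    apply Finset.sum_eq_zero
    intro j _
    apply if_neg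
    rintro ⟨r, hr, _⟩
    omega
  have hMex : ∃ s, 1/4 ≤ M s := by
    have hlev : ∀ j : ℕ, ∃ L : ℕ, ∀ n, Sp n (τ j) → n < L := by
      intro j
      by_cases h : ∃ n, Sp n (τ j)
      · obtain ⟨n, hn⟩ := h
        exact ⟨n + 1, fun m hm => by rw [Sp_unique m n _ hm hn]; omega⟩
      · exact ⟨0, fun m hm => (h ⟨m, hm⟩).elim⟩
    choose L hL using hlev
    refine ⟨(Finset.range N).sup L, ?_⟩
    have h := hmass true
    have h2 : (∑ j ∈ Finset.range N, if (∃ n, Sp n (τ j) ∧ ty n = true) then (X (j+1) - X j) else 0)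
        ≤ M ((Finset.range N).sup L) := by
      refine Finset.sum_le_sum (fun j hj => ?_)
      have hc := hcpos j hj
      by_cases h3 : ∃ n, Sp n (τ j) ∧ ty n = true
      · obtain ⟨n, hn, hn2⟩ := h3
        rw [if_pos ⟨n, hn, hn2⟩, if_pos ⟨n, (hL j n hn).trans_le (Finset.le_sup hj), hn⟩]
      · rw [if_neg h3]
        split_ifs
        · exact hc
        · exact le_rfl
    linarith
  -- minimal s
  set s0 := Nat.find hMex with hs0
  have hs1 : 1/4 ≤ M s0 := Nat.find_spec hMex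
  have hs0pos : s0 ≠ 0 := by
    intro h
    rw [h, hM0] at hs1
    linarith
  obtain ⟨q, hq⟩ := Nat.exists_eq_succ_of_ne_zero hs0pos
  have hMq : M q < 1/4 := by
    by_contra hc
    push Not at hc
    have := Nat.find_min' hMex hc
    omega
  -- the other type
  have hY : 24/100 < ∑ j ∈ Finset.range N,
      if (∃ n, s0 ≤ n ∧ Sp n (τ j) ∧ ty n = !(ty q)) then (X (j+1) - X j) else 0 := by
    have h := hmass (!(ty q))
    have h2 : (∑ j ∈ Finset.range N, if (∃ n, Sp n (τ j) ∧ ty n = !(ty q)) then (X (j+1) - X j) else 0)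
        ≤ (∑ j ∈ Finset.range N,
          if (∃ n, s0 ≤ n ∧ Sp n (τ j) ∧ ty n = !(ty q)) then (X (j+1) - X j) else 0) + M q := by
      rw [← Finset.sum_add_distrib]
      refine Finset.sum_le_sum (fun j hj => ?_)
      have hc := hcpos j hj
      by_cases h3 : ∃ n, Sp n (τ j) ∧ ty n = !(ty q)
      · obtain ⟨n, hn, hn2⟩ := h3
        rw [if_pos ⟨n, hn, hn2⟩]
        rcases lt_or_ge n s0 with h4 | h4
        · have hnq : n ≠ q := by
            rintro rfl
            cases h5 : ty n <;> rw [h5] at hn2 <;> simp at hn2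
          have h5 : ∃ r, r < q ∧ Sp r (τ j) := ⟨n, by omega, hn⟩
          rw [if_pos h5]
          split_ifs <;> linarith
        · rw [if_pos ⟨n, h4, hn, hn2⟩]
          split_ifs <;> linarith
      · rw [if_neg h3]
        split_ifs <;> linarith
    linarith
  obtain ⟨Bc, hBc1, hBc2, hBc3⟩ := cells N X τ h0 h1 hX hτ s0
  have h := hcoord (Sum.inr (s0, !(ty q), Finset.range (64 ^ s0) \ Bc))
  have hp : (0:ℝ) < 64 ^ s0 := by positivity
  have hcard : (((Finset.range (64 ^ s0) \ Bc).card : ℕ) : ℝ) = 64 ^ s0 - Bc.card := by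
    rw [Finset.card_sdiff_of_subset hBc1, Finset.card_range, Nat.cast_sub]
    · push_cast; rfl
    · have := Finset.card_le_card hBc1
      rwa [Finset.card_range] at this
  have e1 : ∑ j ∈ Finset.range N, (X (j+1) - X j) *
      F (τ j) (Sum.inr (s0, !(ty q), Finset.range (64 ^ s0) \ Bc)) =
      (∑ j ∈ Finset.range N,
        if (∃ n, s0 ≤ n ∧ Sp n (τ j) ∧ ty n = !(ty q)) then (X (j+1) - X j) else 0) *
        ((Bc.card : ℝ) / 64 ^ s0) := by
    rw [Finset.sum_mul]
    refine Finset.sum_congr rfl (fun j hj => ?_)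
    have hjN := Finset.mem_range.mp hj
    show (X (j+1) - X j) * (if (∃ n, s0 ≤ n ∧ Sp n (τ j) ∧ ty n = !(ty q)) ∧
      Finset.range (64 ^ s0) \ Bc ⊆ Finset.range (64 ^ s0) then
      (if ⌊(64:ℝ) ^ s0 * τ j⌋₊ ∈ Finset.range (64 ^ s0) \ Bc then (1:ℝ) else 0) -
        (((Finset.range (64 ^ s0) \ Bc).card : ℕ) : ℝ) / 64 ^ s0 else 0) = _
    by_cases h3 : ∃ n, s0 ≤ n ∧ Sp n (τ j) ∧ ty n = !(ty q)
    · rw [if_pos ⟨h3, Finset.sdiff_subset⟩, if_pos h3]
      obtain ⟨n, hn1, hn2, _⟩ := h3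
      have h4 := hBc3 j hjN ⟨n, hn1, hn2⟩
      rw [if_pos (Finset.mem_sdiff.mpr ⟨h4.2, h4.1⟩), hcard]
      field_simp
      ring
    · rw [if_neg (fun h4 => h3 h4.1), if_neg h3]
      ring
  have e2 : (1/2:ℝ) * V false (Sum.inr (s0, !(ty q), Finset.range (64 ^ s0) \ Bc)) +
      (1/2:ℝ) * V true (Sum.inr (s0, !(ty q), Finset.range (64 ^ s0) \ Bc)) = 0 := by
    show (1/2:ℝ) * 0 + (1/2:ℝ) * 0 = 0
    norm_num
  rw [e1, e2, sub_zero, abs_lt] at h
  have h5 : 18/100 < (Bc.card : ℝ) / 64 ^ s0 := by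
    rw [lt_div_iff₀ hp]
    have : (64:ℝ) ^ s0 * (1/4) ≤ 64 ^ s0 * M s0 := mul_le_mul_of_nonneg_left hs1 hp.le
    have h6 : (64:ℝ) ^ s0 * M s0 - 4 / 63 * 64 ^ s0 ≤ Bc.card := hBc2
    nlinarith
  have h6 : (24/100:ℝ) * (18/100) < (∑ j ∈ Finset.range N,
        if (∃ n, s0 ≤ n ∧ Sp n (τ j) ∧ ty n = !(ty q)) then (X (j+1) - X j) else 0) *
        ((Bc.card : ℝ) / 64 ^ s0) := mul_lt_mul'' hY h5 (by norm_num) (by norm_num)
  linarith [h.2]


/-- The negation of the preceding statement: For every bounded f from [0,1] into real c_0, the set of all norm limits of Riemann sums of f along tagged partitions of [0,1] whose mesh tends to 0 is a convex set. -/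
theorem result :
    ¬ (∀ f : ℝ → ZeroAtInftyContinuousMap ℕ ℝ,
      (∃ M : ℝ, ∀ s ∈ Set.Icc (0:ℝ) 1, ‖f s‖ ≤ M) →
      Convex ℝ {v : ZeroAtInftyContinuousMap ℕ ℝ |
        ∃ (n : ℕ → ℕ) (x t : ℕ → ℕ → ℝ),
          (∀ k, x k 0 = 0 ∧ x k (n k) = 1 ∧
            (∀ i, i < n k → x k i < x k (i+1)) ∧
            (∀ i, i < n k → x k i ≤ t k i ∧ t k i ≤ x k (i+1))) ∧
          (∀ ε : ℝ, 0 < ε → ∃ K : ℕ, ∀ k, K ≤ k → ∀ i, i < n k → x k (i+1) - x k i < ε) ∧
          Filter.Tendsto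
            (fun k => ∑ i ∈ Finset.range (n k), (x k (i+1) - x k i) • f (t k i))
            Filter.atTop (nhds v)}) := by
  intro H
  have hconv := H f ⟨1, fun s _ => f_bd s⟩
  have hpt : ∀ g : ℕ → ℕ, (∀ k, k ≤ g k) → ∀ b : Bool, (∀ k, ty (g k) = b) →
      mk (V b) (V_fin b) ∈ {v : ZeroAtInftyContinuousMap ℕ ℝ |
        ∃ (n : ℕ → ℕ) (x t : ℕ → ℕ → ℝ),
          (∀ k, x k 0 = 0 ∧ x k (n k) = 1 ∧
            (∀ i, i < n k → x k i < x k (i+1)) ∧
            (∀ i, i < n k → x k i ≤ t k i ∧ t k i ≤ x k (i+1))) ∧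
          (∀ ε : ℝ, 0 < ε → ∃ K : ℕ, ∀ k, K ≤ k → ∀ i, i < n k → x k (i+1) - x k i < ε) ∧
          Filter.Tendsto
            (fun k => ∑ i ∈ Finset.range (n k), (x k (i+1) - x k i) • f (t k i))
            Filter.atTop (nhds v)} := by
    intro g hg b hb
    have hd : ∀ k i : ℕ, ((i + 1 : ℕ) : ℝ) / 64 ^ (g k) - (i : ℝ) / 64 ^ (g k) = 1 / 64 ^ (g k) := by
      intro k i
      push_cast
      ring
    refine ⟨fun k => 64 ^ (g k), fun k i => (i:ℝ) / 64 ^ (g k),
      fun k i => (2 * (i:ℝ) + 1) / (2 * 64 ^ (g k)), fun k => ⟨by simp, ?_, ?_, ?_⟩, ?_, ?_⟩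
    · push_cast
      exact div_self (by positivity)
    · intro i _
      have : (0:ℝ) < 1 / 64 ^ (g k) := by positivity
      have := hd k i
      linarith
    · intro i _
      have hp : (0:ℝ) < 64 ^ (g k) := by positivity
      constructor
      · rw [div_le_div_iff₀ hp (by positivity)]
        nlinarith
      · rw [div_le_div_iff₀ (by positivity) hp]
        push_cast
        nlinarith
    · intro ε hε
      obtain ⟨K, hK⟩ := exists_pow_lt_of_lt_one hε (show (1/64:ℝ) < 1 by norm_num)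
      refine ⟨K, fun k hk i _ => ?_⟩
      show ((i + 1 : ℕ) : ℝ) / 64 ^ (g k) - (i : ℝ) / 64 ^ (g k) < ε
      rw [hd]
      refine lt_of_le_of_lt ?_ hK
      have : (1:ℝ) / 64 ^ (g k) = (1/64) ^ (g k) := by rw [one_div_pow]
      rw [this]
      exact pow_le_pow_of_le_one (by norm_num) (by norm_num) (hk.trans (hg k))
    · have : (fun k => ∑ i ∈ Finset.range (64 ^ (g k)),
          (((i + 1 : ℕ) : ℝ) / 64 ^ (g k) - (i : ℝ) / 64 ^ (g k)) •
            f ((2 * (i:ℝ) + 1) / (2 * 64 ^ (g k)))) = fun _ => mk (V b) (V_fin b) := by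
        funext k
        simp only [hd]
        rw [sum_eq, ]
        congr 2
        exact hb k
      rw [this]
      exact tendsto_const_nhds
  have h1 := hpt (fun k => 2 * k) (fun k => by omega) false (fun k => by simp [ty])
  have h2 := hpt (fun k => 2 * k + 1) (fun k => by omega) true (fun k => by simp [ty])
  have h3 := hconv h1 h2 (show (0:ℝ) ≤ 1/2 by norm_num) (show (0:ℝ) ≤ 1/2 by norm_num) (by norm_num)
  obtain ⟨n, x, t, hx, _, hlim⟩ := h3
  rw [Metric.tendsto_atTop] at hlim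
  obtain ⟨k, hk⟩ := hlim (1/100) (by norm_num)
  have h4 := hk k le_rfl
  rw [dist_eq_norm] at h4
  exact part2 (n k) (x k) (t k) (hx k).1 (hx k).2.1 (hx k).2.2.1 (hx k).2.2.2 h4

end Pool.Agent.S04362
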