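import Pool.Statements.S04390
-- import your own Pool.Agent.* helpers here

set_option autoImplicit false
open Pool Pool.MP_e29dfb_an

namespace Pool.Agent.S04390


open Set Filter Topology

theorem step (K : Set ℝ) (hK : IsClosed K) (hS : ∀ t : ℝ, 0 ≤ t → t ≤ 1 → ∀ x ∈ K, x + t ∈ K ∨ x - t ∈ K)
    (b ε : ℝ) (hε : 0 < ε) (hgap : ∀ t, 0 < t → t < ε → b - t ∉ K)
    (y : ℝ) (hy : y ∉ K) (hby : b < y) (hy2 : y < b + 2) : (b + y) / 2 ∉ K := by
  intro hz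
  obtain ⟨η, hη, hball⟩ := Metric.isOpen_iff.mp hK.isOpen_compl y hy
  set s := min (min ε η) (1 - (y - b) / 2) / 2 with hs
  have hpos : 0 < min (min ε η) (1 - (y - b) / 2) := lt_min (lt_min hε hη) (by linarith)
  have hs0 : 0 < s := by rw [hs]; linarith
  have h1 : s < ε := by
    have := (min_le_left (min ε η) (1 - (y - b) / 2)).trans (min_le_left _ _)
    rw [hs]; linarith
  have h2 : s < η := by
    have := (min_le_left (min ε η) (1 - (y - b) / 2)).trans (min_le_right _ _)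
    rw [hs]; linarith
  have h3 : s < 1 - (y - b) / 2 := by
    have := (min_le_right (min ε η) (1 - (y - b) / 2))
    rw [hs]; linarith
  rcases hS ((y - b) / 2 + s) (by linarith) (by linarith) _ hz with h | h
  · have e : (b + y) / 2 + ((y - b) / 2 + s) = y + s := by ring
    rw [e] at h
    have : y + s ∈ Kᶜ := hball (by
      rw [Metric.mem_ball, Real.dist_eq, add_sub_cancel_left, abs_of_pos hs0]; exact h2)
    exact this h
  · have e : (b + y) / 2 - ((y - b) / 2 + s) = b - s := by ring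
    rw [e] at h
    exact hgap s hs0 h1 h

theorem gap (K : Set ℝ) (hK : IsClosed K) (hS : ∀ t : ℝ, 0 ≤ t → t ≤ 1 → ∀ x ∈ K, x + t ∈ K ∨ x - t ∈ K)
    (b ε : ℝ) (hb : b ∈ K) (hε : 0 < ε) (hgap : ∀ t, 0 < t → t < ε → b - t ∉ K)
    (y : ℝ) (hby : b < y) (hy2 : y < b + 2) : y ∈ K := by
  by_contra hy
  have key : ∀ n : ℕ, b + (y - b) / 2 ^ n ∉ K := by
    intro n
    induction n with
    | zero => simpa using hy
    | succ n ih =>
      have hp : (0:ℝ) < 2 ^ n := by positivity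
      have hp1 : (1:ℝ) ≤ 2 ^ n := one_le_pow₀ one_le_two
      have h1 : 0 < (y - b) / 2 ^ n := div_pos (by linarith) hp
      have h2 : (y - b) / 2 ^ n ≤ y - b := div_le_self (by linarith) hp1
      have := step K hK hS b ε hε hgap _ ih (by linarith) (by linarith)
      have e : (b + (b + (y - b) / 2 ^ n)) / 2 = b + (y - b) / 2 ^ (n + 1) := by
        rw [pow_succ]; field_simp; ring
      rwa [e] at this
  obtain ⟨n, hn⟩ := exists_pow_lt_of_lt_one (show 0 < min ε 1 / 2 by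
    have := lt_min hε one_pos
    linarith) (show (1/2:ℝ) < 1 by norm_num)
  have hp : (0:ℝ) < 2 ^ n := by positivity
  have e : (y - b) / 2 ^ n = (y - b) * (1/2)^n := by rw [one_div, inv_pow]; rfl
  have hq : (0:ℝ) < (1/2)^n := by positivity
  have h1 : (y - b) / 2 ^ n < min ε 1 := by
    rw [e]; nlinarith
  have h0 : 0 < (y - b) / 2 ^ n := div_pos (by linarith) hp
  rcases hS ((y - b) / 2 ^ n) h0.le (h1.le.trans (min_le_right _ _)) b hb with h | h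
  · exact key n h
  · exact hgap _ h0 (h1.trans_le (min_le_left _ _)) h

theorem lemA (K : Set ℝ) (hK : IsCompact K) (hS : ∀ t : ℝ, 0 ≤ t → t ≤ 1 → ∀ x ∈ K, x + t ∈ K ∨ x - t ∈ K)
    (u v w : ℝ) (hu : u ∉ K) (hv : v ∉ K) (huv : v - u < 2) (h1 : u ≤ w) (h2 : w ≤ v) : w ∉ K := by
  intro hw
  have hne : (K ∩ Icc u w).Nonempty := ⟨w, hw, h1, le_rfl⟩
  have hc : IsCompact (K ∩ Icc u w) := hK.inter isCompact_Icc
  have hb := hc.sInf_mem hne
  set b := sInf (K ∩ Icc u w) with hbdef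
  have hub : u < b := lt_of_le_of_ne hb.2.1 (fun h => hu (h ▸ hb.1))
  have hbw : b ≤ w := hb.2.2
  have hgap : ∀ t, 0 < t → t < b - u → b - t ∉ K := by
    intro t ht htu hmem
    have : b ≤ b - t := csInf_le hc.bddBelow ⟨hmem, by linarith, by linarith⟩
    linarith
  have hbv : b < v := lt_of_le_of_ne (hbw.trans h2) (fun h => hv (h ▸ hb.1))
  exact hv (gap K hK.isClosed hS b (b - u) hb.1 (by linarith) hgap v hbv (by linarith))

theorem lemB (K : Set ℝ) (hK : IsCompact K) (hS : ∀ t : ℝ, 0 ≤ t → t ≤ 1 → ∀ x ∈ K, x + t ∈ K ∨ x - t ∈ K)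
    (u v θ : ℝ) (hu : u ∉ K) (hv : v ∉ K) (huv : |u - v| < 2) (h0 : 0 ≤ θ) (h1 : θ ≤ 1) :
    θ * u + (1 - θ) * v ∉ K := by
  rw [abs_lt] at huv
  rcases le_total u v with h | h
  · exact lemA K hK hS u v _ hu hv (by linarith) (by nlinarith) (by nlinarith)
  · exact lemA K hK hS v u _ hv hu (by linarith) (by nlinarith) (by nlinarith)

/-- the label -/
def Q (K : Set ℝ) (x : ℝ) : Prop := ∃ y, y ∉ K ∧ (⌊x⌋ : ℝ) ≤ y ∧ y < x

theorem lemC' (K : Set ℝ) (hK : IsCompact K) (hS : ∀ t : ℝ, 0 ≤ t → t ≤ 1 → ∀ x ∈ K, x + t ∈ K ∨ x - t ∈ K)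
    (u v w : ℝ) (hu : u ∈ K) (hv : v ∈ K) (hf : ⌊u⌋ = ⌊v⌋) (hQ : Q K v → Q K u) (h1 : u ≤ w) (h2 : w ≤ v) :
    w ∈ K := by
  by_contra hw
  have h1' : u < w := lt_of_le_of_ne h1 (fun h => hw (h ▸ hu))
  have h2' : w < v := lt_of_le_of_ne h2 (fun h => hw (h ▸ hv))
  have hfu := Int.floor_le u
  have hfv := Int.lt_floor_add_one v
  have hfc : (⌊u⌋ : ℝ) = ⌊v⌋ := by exact_mod_cast hf
  obtain ⟨y, hy, hy1, hy2⟩ := hQ ⟨w, hw, by linarith, h2'⟩
  exact lemA K hK hS y w u hy hw (by linarith) hy2.le h1'.le hu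

theorem lemC (K : Set ℝ) (hK : IsCompact K) (hS : ∀ t : ℝ, 0 ≤ t → t ≤ 1 → ∀ x ∈ K, x + t ∈ K ∨ x - t ∈ K)
    (u v θ : ℝ) (hu : u ∈ K) (hv : v ∈ K) (hf : ⌊u⌋ = ⌊v⌋) (hQ : Q K v ↔ Q K u) (h0 : 0 ≤ θ) (h1 : θ ≤ 1) :
    θ * u + (1 - θ) * v ∈ K := by
  rcases le_total u v with h | h
  · exact lemC' K hK hS u v _ hu hv hf hQ.mp (by nlinarith) (by nlinarith)
  · exact lemC' K hK hS v u _ hv hu hf.symm hQ.mpr (by nlinarith) (by nlinarith)

theorem floor_close (u v : ℝ) (h : ⌊u⌋ = ⌊v⌋) : |u - v| < 2 := by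
  have := Int.abs_sub_lt_one_of_floor_eq_floor h
  linarith

/-- the compact set -/
def CC : Set ℝ := Icc 0 1 ∪ insert (2:ℝ) (range (fun n : ℕ => 2 + 1 / ((n:ℝ) + 1)))

theorem CC_compact : IsCompact CC := by
  refine isCompact_Icc.union ?_
  refine Tendsto.isCompact_insert_range ?_
  simpa using tendsto_one_div_add_atTop_nhds_zero_nat.const_add (2:ℝ)

theorem CC_not (n : ℕ) : 2 + 2 / (2 * (n:ℝ) + 3) ∉ CC := by
  have hp : (0:ℝ) < 2 * (n:ℝ) + 3 := by positivity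
  have hq : (0:ℝ) < 2 / (2 * (n:ℝ) + 3) := by positivity
  rintro (h | h | ⟨m, h⟩)
  · have := h.2; linarith
  · linarith
  · have hm : (0:ℝ) < (m:ℝ) + 1 := by positivity
    have h' : 1 / ((m:ℝ) + 1) = 2 / (2 * (n:ℝ) + 3) := by
      simp only at h; linarith
    rw [div_eq_div_iff hm.ne' hp.ne'] at h'
    have h'' : 1 * (2 * n + 3) = 2 * (m + 1) := by exact_mod_cast h'
    omega

theorem final (K : Set ℝ) (hK : IsCompact K)
    (hC : {α : ℝ | 0 ≤ α ∧ ∀ x ∈ K, ∃ y ∈ K, |x - y| = α} = CC) : False := by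
  have hmem : ∀ α ∈ CC, ∀ x ∈ K, x + α ∈ K ∨ x - α ∈ K := by
    intro α hα x hx
    rw [← hC] at hα
    obtain ⟨y, hy, hxy⟩ := hα.2 x hx
    rcases abs_choice (x - y) with h | h
    · right
      have : x - α = y := by linarith
      rw [this]; exact hy
    · left
      have : x + α = y := by linarith
      rw [this]; exact hy
  have hS : ∀ t : ℝ, 0 ≤ t → t ≤ 1 → ∀ x ∈ K, x + t ∈ K ∨ x - t ∈ K :=
    fun t h0 h1 => hmem t (Or.inl ⟨h0, h1⟩)
  have hbad : ∀ n : ℕ, ∃ x ∈ K, x + (2 + 2 / (2 * (n:ℝ) + 3)) ∉ K ∧ x - (2 + 2 / (2 * (n:ℝ) + 3)) ∉ K := by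
    intro n
    by_contra hcon
    push Not at hcon
    apply CC_not n
    rw [← hC]
    have hnn : 0 ≤ 2 + 2 / (2 * (n:ℝ) + 3) := by positivity
    refine ⟨hnn, fun x hx => ?_⟩
    by_cases h : x + (2 + 2 / (2 * (n:ℝ) + 3)) ∈ K
    · exact ⟨_, h, by rw [sub_add_cancel_left, abs_neg, abs_of_nonneg hnn]⟩
    · exact ⟨_, hcon x hx h, by rw [sub_sub_cancel, abs_of_nonneg hnn]⟩
  choose x hxK hx1 hx2 using hbad
  obtain ⟨R, hR⟩ := hK.isBounded.exists_norm_le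
  have hxR : ∀ n, |x n| ≤ R := fun n => hR _ (hxK n)
  have hα : ∀ n : ℕ, (0:ℝ) ≤ 2 + 2 / (2 * (n:ℝ) + 3) ∧ 2 + 2 / (2 * (n:ℝ) + 3) ≤ 3 := by
    intro n
    refine ⟨by positivity, ?_⟩
    have : 2 / (2 * (n:ℝ) + 3) ≤ 1 := by
      rw [div_le_one (by positivity)]
      have : (0:ℝ) ≤ n := Nat.cast_nonneg n
      linarith
    linarith
  let lo : ℤ := ⌊-R - 3⌋
  let hi : ℤ := ⌊R + 3⌋
  have hI : ∀ z : ℝ, |z| ≤ R + 3 → ⌊z⌋ ∈ Set.Icc lo hi := by
    intro z hz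
    rw [abs_le] at hz
    exact ⟨Int.floor_mono (by linarith), Int.floor_mono (by linarith)⟩
  have b1 : ∀ n, |x n + (2 + 2 / (2 * (n:ℝ) + 3))| ≤ R + 3 := fun n => by
    refine (abs_add_le _ _).trans ?_
    rw [abs_of_nonneg (hα n).1]
    linarith [hxR n, (hα n).2]
  have b2 : ∀ n, |x n - (2 + 2 / (2 * (n:ℝ) + 3))| ≤ R + 3 := fun n => by
    refine (abs_sub (x n) (2 + 2 / (2 * (n:ℝ) + 3))).trans ?_
    rw [abs_of_nonneg (hα n).1]
    linarith [hxR n, (hα n).2]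
  have b3 : ∀ n, |x n| ≤ R + 3 := fun n => by linarith [hxR n]
  let L : ℕ → (Set.Icc lo hi) × (Set.Icc lo hi) × (Set.Icc lo hi) × Prop := fun n =>
    (⟨⌊x n + (2 + 2 / (2 * (n:ℝ) + 3))⌋, hI _ (b1 n)⟩, ⟨⌊x n - (2 + 2 / (2 * (n:ℝ) + 3))⌋, hI _ (b2 n)⟩,
      ⟨⌊x n⌋, hI _ (b3 n)⟩, Q K (x n))
  obtain ⟨m', n', hne, heq⟩ := Finite.exists_ne_map_eq_of_infinite L
  -- reduce to m < n
  have main : ∀ m n : ℕ, m < n → L m = L n → False := by
    intro m n hmn he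
    have e1 : ⌊x m + (2 + 2 / (2 * (m:ℝ) + 3))⌋ = ⌊x n + (2 + 2 / (2 * (n:ℝ) + 3))⌋ :=
      congrArg (fun p => (p.1 : ℤ)) he
    have e2 : ⌊x m - (2 + 2 / (2 * (m:ℝ) + 3))⌋ = ⌊x n - (2 + 2 / (2 * (n:ℝ) + 3))⌋ :=
      congrArg (fun p => (p.2.1 : ℤ)) he
    have e3 : ⌊x m⌋ = ⌊x n⌋ := congrArg (fun p => (p.2.2.1 : ℤ)) he
    have e4 : Q K (x m) = Q K (x n) := congrArg (fun p => p.2.2.2) he
    set A := 2 + 2 / (2 * (m:ℝ) + 3) with hA
    set B := 2 + 2 / (2 * (n:ℝ) + 3) with hB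
    set c := 2 + 1 / ((n:ℝ) + 1) with hc
    have hmn' : (m:ℝ) + 1 ≤ n := by exact_mod_cast hmn
    have hcB : B < c := by
      have : 2 / (2 * (n:ℝ) + 3) < 1 / ((n:ℝ) + 1) := by
        rw [div_lt_div_iff₀ (by positivity) (by positivity)]
        linarith
      linarith
    have hcA : c < A := by
      have : 1 / ((n:ℝ) + 1) < 2 / (2 * (m:ℝ) + 3) := by
        rw [div_lt_div_iff₀ (by positivity) (by positivity)]
        linarith
      linarith
    have hAB : 0 < A - B := by linarith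
    set θ := (c - B) / (A - B) with hθ
    have hθ0 : 0 ≤ θ := div_nonneg (by linarith) hAB.le
    have hθ1 : θ ≤ 1 := by rw [hθ, div_le_one hAB]; linarith
    have hcθ : θ * A + (1 - θ) * B = c := by
      rw [hθ]; field_simp; ring
    have k1 := lemB K hK hS _ _ θ (hx1 m) (hx1 n) (floor_close _ _ e1) hθ0 hθ1
    have k2 := lemB K hK hS _ _ θ (hx2 m) (hx2 n) (floor_close _ _ e2) hθ0 hθ1
    have k3 := lemC K hK hS _ _ θ (hxK m) (hxK n) e3 (by rw [e4]) hθ0 hθ1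
    have hcC : c ∈ CC := Or.inr (Or.inr ⟨n, rfl⟩)
    rcases hmem c hcC _ k3 with h | h
    · apply k1
      have : θ * (x m + A) + (1 - θ) * (x n + B) = θ * x m + (1 - θ) * x n + c := by
        rw [← hcθ]; ring
      rw [this]; exact h
    · apply k2
      have : θ * (x m - A) + (1 - θ) * (x n - B) = θ * x m + (1 - θ) * x n - c := by
        rw [← hcθ]; ring
      rw [this]; exact h
  rcases lt_or_gt_of_ne hne with h | h
  · exact main _ _ h heq
  · exact main _ _ h heq.symm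


/-- The negation of the preceding statement: For every compact set C of nonnegative reals containing 0, there is a compact K ⊆ ℝ whose center of distances (the α ≥ 0 such that every x in K has some y in K with ∣x−y∣ = α) is exactly C. -/
theorem result :
    ¬ (∀ C : Set ℝ, IsCompact C → (0 : ℝ) ∈ C → C ⊆ Set.Ici (0 : ℝ) →
      ∃ K : Set ℝ, IsCompact K ∧
        {α : ℝ | 0 ≤ α ∧ ∀ x ∈ K, ∃ y ∈ K, |x - y| = α} = C) := by
  intro H
  obtain ⟨K, hK, hC⟩ := H CC CC_compact (Or.inl ⟨le_rfl, zero_le_one⟩) (by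
    rintro z (h | h | ⟨n, rfl⟩)
    · exact h.1
    · rw [h]; show (0:ℝ) ≤ 2; norm_num
    · show (0:ℝ) ≤ 2 + 1 / ((n:ℝ) + 1)
      positivity)
  exact final K hK hC

end Pool.Agent.S04390
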