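import Pool.Statements.S04611
-- import your own Pool.Agent.* helpers here
import Pool.Agent.HypC

set_option autoImplicit false
open Pool Pool.MP_fd6048_an

namespace Pool.Agent.S04611


open Filter Topology Set Cardinal

open scoped BoundedContinuousFunction

theorem iter_eq {𝕂 : Type} [RCLike 𝕂] {X : Type} [AddCommGroup X] [Module 𝕂 X] [TopologicalSpace X]
    (T : X →L[𝕂] X) (n : ℕ) (x : X) : (⇑T)^[n] x = (T^n) x := by
  induction n generalizing x with
  | zero => rfl
  | succ n ih => rw [Function.iterate_succ_apply, ih, pow_succ]; rfl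

/-- geometric sequences -/
noncomputable def geo (𝕂 : Type) [RCLike 𝕂] (t : Icc (0:ℝ) 1) : ℕ →ᵇ 𝕂 :=
  BoundedContinuousFunction.ofNormedAddCommGroupDiscrete (fun k => (((t : ℝ)) : 𝕂) ^ k) 1 (by
    intro k
    rw [norm_pow, RCLike.norm_ofReal, abs_of_nonneg t.2.1]
    exact pow_le_one₀ t.2.1 t.2.2)

noncomputable def Phi (𝕂 : Type) [RCLike 𝕂] : (ℕ →ᵇ 𝕂) →ₗ[𝕂] (Multiplicative ℕ → 𝕂) where
  toFun w m := w (Multiplicative.toAdd m)
  map_add' _ _ := rfl
  map_smul' _ _ := rfl

theorem geo_li (𝕂 : Type) [RCLike 𝕂] : LinearIndependent 𝕂 (geo 𝕂) := by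
  apply LinearIndependent.of_comp (Phi 𝕂)
  have h := linearIndependent_monoidHom (Multiplicative ℕ) 𝕂
  have hinj : Function.Injective (fun t : Icc (0:ℝ) 1 => powersHom 𝕂 (((t : ℝ)) : 𝕂)) := by
    intro t t' h
    have := (powersHom 𝕂).injective h
    apply Subtype.ext
    exact_mod_cast this
  have h2 := h.comp _ hinj
  exact h2

theorem card_bcf (𝕂 : Type) [RCLike 𝕂] : Cardinal.continuum ≤ Module.rank 𝕂 (ℕ →ᵇ 𝕂) := by
  have h := (geo_li 𝕂).cardinal_le_rank
  rwa [Cardinal.mk_Icc_real zero_lt_one] at h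

theorem card_X (X : Type) [TopologicalSpace X] [RegularSpace X] [T0Space X] [SecondCountableTopology X] :
    #X ≤ Cardinal.continuum := by
  obtain ⟨f, hf⟩ := TopologicalSpace.exists_embedding_l_infty X
  have h1 : #X ≤ #(ℕ →ᵇ ℝ) := Cardinal.mk_le_of_injective hf.injective
  have h2 : #(ℕ →ᵇ ℝ) ≤ #(ℕ → ℝ) := Cardinal.mk_le_of_injective (f := fun g => (g : ℕ → ℝ)) DFunLike.coe_injective
  have h3 : #(ℕ → ℝ) = Cardinal.continuum := by
    rw [← Cardinal.power_def, Cardinal.mk_real, Cardinal.mk_nat, Cardinal.continuum_power_aleph0]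
  exact h1.trans (h2.trans h3.le)


/-- For every real or complex F-space X and every hypercyclic operator T on X, some dense subspace of X, with the same Hamel dimension as X, has all its nonzero vectors hypercyclic for T. -/
theorem result :
    ∀ (𝕂 : Type) [RCLike 𝕂] (X : Type) [AddCommGroup X] [Module 𝕂 X] [UniformSpace X]
      [IsUniformAddGroup X] [CompleteSpace X] [ContinuousSMul 𝕂 X]
      [TopologicalSpace.MetrizableSpace X] (T : X →L[𝕂] X),
      (∃ x : X, Dense (Set.range fun n : ℕ => (⇑T)^[n] x)) →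
      ∃ M : Submodule 𝕂 X, Dense (M : Set X) ∧
        (∀ x ∈ M, x ≠ 0 → Dense (Set.range fun n : ℕ => (⇑T)^[n] x)) ∧
        Module.rank 𝕂 M = Module.rank 𝕂 X := by
  intro 𝕂 _ X _ _ _ _ _ _ _ T hx
  obtain ⟨x, hx⟩ := hx
  have hx' : Dense (range fun n : ℕ => (T^n) x) := by
    have : (fun n : ℕ => (⇑T)^[n] x) = fun n : ℕ => (T^n) x := by
      funext n; exact iter_eq T n x
    rwa [this] at hx
  have hconv : ∀ z : X, Dense (range fun n : ℕ => (T^n) z) → Dense (Set.range fun n : ℕ => (⇑T)^[n] z) := by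
    intro z hz
    have : (fun n : ℕ => (⇑T)^[n] z) = fun n : ℕ => (T^n) z := by
      funext n; exact iter_eq T n z
    rwa [this]
  rcases subsingleton_or_nontrivial X with hsub | hnt
  · refine ⟨⊤, ?_, fun z _ hz => (hz (Subsingleton.elim z 0)).elim, rank_top 𝕂 X⟩
    rw [Submodule.top_coe]
    exact dense_univ
  · obtain ⟨hHC, L, hL⟩ := Pool.Agent.HypC.main T x hx'
    let Cx : Polynomial 𝕂 →ₗ[𝕂] X :=
      { toFun := fun q => Polynomial.aeval T q x
        map_add' := fun q r => by rw [map_add]; rfl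
        map_smul' := fun r q => by rw [map_smul]; rfl }
    have hCx : ∀ q, Cx q = Polynomial.aeval T q x := fun q => rfl
    let Λ : (Polynomial 𝕂 × (ℕ →ᵇ 𝕂)) →ₗ[𝕂] X := LinearMap.coprod Cx L
    have hΛ : ∀ q w, Λ (q, w) = Polynomial.aeval T q x + L w := fun q w => rfl
    refine ⟨LinearMap.range Λ, ?_, ?_, ?_⟩
    · refine hx'.mono ?_
      rintro _ ⟨n, rfl⟩
      refine ⟨(Polynomial.X ^ n, 0), ?_⟩
      rw [hΛ, map_zero, add_zero]
      simp
    · rintro z ⟨⟨q, w⟩, rfl⟩ hz
      apply hconv
      rw [hΛ] at hz ⊢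
      by_cases hw : w = 0
      · subst hw
        rw [map_zero, add_zero] at hz ⊢
        apply hHC
        rintro rfl
        apply hz
        rw [map_zero]; rfl
      · exact hL q w hw
    · apply le_antisymm (Submodule.rank_le _)
      have hug : (uniformity X).IsCountablyGenerated := IsUniformAddGroup.uniformity_countably_generated
      have hsep : TopologicalSpace.SeparableSpace X := ⟨⟨_, countable_range _, hx⟩⟩
      have hsc : SecondCountableTopology X := UniformSpace.secondCountable_of_separable X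
      have h1 : Module.rank 𝕂 X ≤ Cardinal.continuum := (rank_le_card 𝕂 X).trans (card_X X)
      have hLinj : Function.Injective L := by
        rw [← LinearMap.ker_eq_bot, LinearMap.ker_eq_bot']
        intro w hw
        by_contra hne
        have h2 := hL 0 w hne
        rw [hw, map_zero, add_zero] at h2
        have h3 : (range fun n : ℕ => (T^n) ((0 : X →L[𝕂] X) x)) = {0} := by
          ext z
          constructor
          · rintro ⟨n, rfl⟩
            show (T^n) ((0 : X →L[𝕂] X) x) = 0
            rw [ContinuousLinearMap.zero_apply, map_zero]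
          · rintro rfl
            exact ⟨0, by simp⟩
        rw [h3] at h2
        obtain ⟨y, hy⟩ := exists_ne (0:X)
        have h4 := h2 y
        rw [closure_singleton] at h4
        exact hy h4
      let L' : (ℕ →ᵇ 𝕂) →ₗ[𝕂] LinearMap.range Λ := L.codRestrict _ (fun w => ⟨(0, w), by
        rw [hΛ, map_zero]
        show (0 : X) + L w = L w
        rw [zero_add]⟩)
      have hL' : Function.Injective L' := by
        intro w w' h
        apply hLinj
        exact congrArg Subtype.val h
      exact h1.trans ((card_bcf 𝕂).trans (LinearMap.rank_le_of_injective L' hL'))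

end Pool.Agent.S04611
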