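import Pool.Statements.S08763
-- import your own Pool.Agent.* helpers here

set_option autoImplicit false
open Filter Topology
open Pool Pool.MP_1a07a1_gt

namespace Pool.Agent.S08763


open Set OnePoint

section general
variable {V : Type} [NormedAddCommGroup V] [NormedSpace ℝ V] [CompleteSpace V]

open Classical in
noncomputable def phi (D : Set V) (x : V) : ℝ := if D.Nonempty then (1/2) * Metric.infDist x D else 1/2

omit [NormedSpace ℝ V] [CompleteSpace V] in
theorem phi_nonneg (D : Set V) (x : V) : 0 ≤ phi D x := by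
  unfold phi
  split_ifs
  · exact mul_nonneg (by norm_num) Metric.infDist_nonneg
  · norm_num

omit [NormedSpace ℝ V] [CompleteSpace V] in
theorem phi_lip (D : Set V) (x y : V) : |phi D x - phi D y| ≤ (1/2) * ‖x - y‖ := by
  unfold phi
  split_ifs
  · rw [← mul_sub, abs_mul, abs_of_pos (by norm_num : (0:ℝ) < 1/2)]
    apply mul_le_mul_of_nonneg_left _ (by norm_num)
    have := (Metric.lipschitz_infDist_pt D).dist_le_mul x y
    rw [Real.dist_eq, dist_eq_norm] at this
    simpa using this
  · simp only [sub_self, abs_zero]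
    positivity

omit [NormedSpace ℝ V] [CompleteSpace V] in
theorem phi_zero (D : Set V) (hD : IsClosed D) (x : V) : phi D x = 0 ↔ x ∈ D := by
  unfold phi
  split_ifs with h
  · constructor
    · intro h2
      have : Metric.infDist x D = 0 := by linarith
      exact (hD.mem_iff_infDist_zero h).mpr this
    · intro h2
      rw [Metric.infDist_zero_of_mem h2, mul_zero]
  · constructor
    · intro h2; norm_num at h2
    · intro h2; exact (h ⟨x, h2⟩).elim

omit [NormedSpace ℝ V] [CompleteSpace V] in
theorem phi_cont (D : Set V) : Continuous (phi D) := by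
  have : LipschitzWith (1/2) (phi D) := by
    apply LipschitzWith.of_dist_le_mul
    intro x y
    rw [Real.dist_eq, dist_eq_norm]
    have := phi_lip D x y
    simpa using this
  exact this.continuous

theorem exists_h [Nontrivial V] (D : Set V) (e : V) (he : ‖e‖ = 1) :
    ∃ h : V ≃ₜ V, ∀ x, h x = x + phi D x • e := by
  have happ : ApproximatesLinearOn (fun x : V => x + phi D x • e)
      ((ContinuousLinearEquiv.refl ℝ V : V ≃L[ℝ] V) : V →L[ℝ] V) univ (1/2) := by
    rw [ApproximatesLinearOn]
    intro x _ y _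
    have e1 : x + phi D x • e - (y + phi D y • e) - ((ContinuousLinearEquiv.refl ℝ V : V ≃L[ℝ] V) : V →L[ℝ] V) (x - y)
        = (phi D x - phi D y) • e := by
      show x + phi D x • e - (y + phi D y • e) - (x - y) = _
      rw [sub_smul]; abel
    rw [e1, norm_smul, he, mul_one, Real.norm_eq_abs]
    simpa using phi_lip D x y
  refine ⟨happ.toHomeomorph _ (Or.inr ?_), fun x => rfl⟩
  have : ‖(((ContinuousLinearEquiv.refl ℝ V).symm : V ≃L[ℝ] V) : V →L[ℝ] V)‖₊ = 1 := by
    have h1 : (((ContinuousLinearEquiv.refl ℝ V).symm : V ≃L[ℝ] V) : V →L[ℝ] V) = ContinuousLinearMap.id ℝ V := rfl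
    rw [h1]
    apply NNReal.eq
    rw [coe_nnnorm, ContinuousLinearMap.norm_id]
    rfl
  rw [this]
  rw [inv_one]
  exact NNReal.half_lt_self one_ne_zero

noncomputable def hk (h : V ≃ₜ V) : ℕ → (V ≃ₜ V)
  | 0 => Homeomorph.refl V
  | (k+1) => (hk h k).trans h

theorem dich (D : Set V) (hD : IsClosed D) (e : V) (he : ‖e‖ = 1) (h : V ≃ₜ V)
    (hh : ∀ x, h x = x + phi D x • e) (x : V) :
    (∃ y ∈ D, Tendsto (fun k => hk h k x) atTop (𝓝 y)) ∨ Tendsto (fun k => ‖hk h k x‖) atTop atTop := by
  let s : ℕ → ℝ := fun k => ∑ i ∈ Finset.range k, phi D (hk h i x)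
  have hs : ∀ k, hk h k x = x + s k • e := by
    intro k
    induction k with
    | zero =>
      show x = x + (∑ i ∈ Finset.range 0, phi D (hk h i x)) • e
      simp
    | succ k ih =>
      have e1 : hk h (k+1) x = h (hk h k x) := rfl
      have e2 : s (k+1) = s k + phi D (hk h k x) := Finset.sum_range_succ _ _
      rw [e1, hh, e2, add_smul, ← add_assoc, ← ih]
  have hmono : Monotone s := monotone_nat_of_le_succ (fun k => by
    have e2 : s (k+1) = s k + phi D (hk h k x) := Finset.sum_range_succ _ _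
    rw [e2]
    linarith [phi_nonneg D (hk h k x)])
  rcases tendsto_of_monotone hmono with hinf | ⟨l, hl⟩
  · right
    have hge : ∀ k, s k - ‖x‖ ≤ ‖hk h k x‖ := by
      intro k
      rw [hs]
      have h1 : ‖s k • e‖ = s k := by
        rw [norm_smul, he, mul_one, Real.norm_of_nonneg]
        exact Finset.sum_nonneg (fun i _ => phi_nonneg D _)
      have h2 : ‖s k • e‖ ≤ ‖x + s k • e‖ + ‖x‖ := by
        have h3 : s k • e = (x + s k • e) - x := by abel
        calc ‖s k • e‖ = ‖(x + s k • e) - x‖ := by rw [← h3]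
          _ ≤ _ := norm_sub_le _ _
      linarith
    refine tendsto_atTop_mono hge ?_
    exact tendsto_atTop_add_const_right _ _ hinf
  · left
    have hlim : Tendsto (fun k => hk h k x) atTop (𝓝 (x + l • e)) := by
      have : (fun k => hk h k x) = fun k => x + s k • e := funext hs
      rw [this]
      exact (hl.smul_const e).const_add x
    refine ⟨x + l • e, ?_, hlim⟩
    rw [← phi_zero D hD]
    have h1 : Tendsto (fun k => phi D (hk h k x)) atTop (𝓝 (phi D (x + l • e))) :=
      ((phi_cont D).tendsto _).comp hlim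
    have h2 : Tendsto (fun k => s (k+1) - s k) atTop (𝓝 (l - l)) :=
      (hl.comp (tendsto_add_atTop_nat 1)).sub hl
    have h3 : (fun k => s (k+1) - s k) = fun k => phi D (hk h k x) := by
      funext k
      have e2 : s (k+1) = s k + phi D (hk h k x) := Finset.sum_range_succ _ _
      rw [e2]; ring
    rw [h3, sub_self] at h2
    exact tendsto_nhds_unique h1 h2

end general


/-- For every n ≥ 2 and every nonempty closed set C in the unit sphere of ℝⁿ, some sequence of self-homeomorphisms of the sphere converges pointwise everywhere to points of C, with every point of C attained as a limit. -/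
theorem result :
    ∀ n : ℕ, 2 ≤ n →
      ∀ C : Set ↥(Metric.sphere (0 : EuclideanSpace ℝ (Fin n)) (1 : ℝ)),
        IsClosed C → C.Nonempty →
        ∃ H : ℕ → (↥(Metric.sphere (0 : EuclideanSpace ℝ (Fin n)) (1 : ℝ)) ≃ₜ
                    ↥(Metric.sphere (0 : EuclideanSpace ℝ (Fin n)) (1 : ℝ))),
          (∀ p : ↥(Metric.sphere (0 : EuclideanSpace ℝ (Fin n)) (1 : ℝ)),
              ∃ q ∈ C, Tendsto (fun k : ℕ => H k p) atTop (𝓝 q)) ∧
          (∀ q ∈ C, ∃ p : ↥(Metric.sphere (0 : EuclideanSpace ℝ (Fin n)) (1 : ℝ)),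
              Tendsto (fun k : ℕ => H k p) atTop (𝓝 q)) := by
  intro n hn C hC hCne
  obtain ⟨c, hc⟩ := hCne
  have hcn : ‖(c : EuclideanSpace ℝ (Fin n))‖ = 1 := by
    have := c.2
    rwa [mem_sphere_zero_iff_norm] at this
  have hc0 : (c : EuclideanSpace ℝ (Fin n)) ≠ 0 := by
    intro h
    rw [h, norm_zero] at hcn
    exact zero_ne_one hcn
  let V := (Submodule.span ℝ {(c : EuclideanSpace ℝ (Fin n))})ᗮ
  have hfr : Module.finrank ℝ V = n - 1 := by
    have hf : Fact (Module.finrank ℝ (EuclideanSpace ℝ (Fin n)) = (n - 1) + 1) :=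
      ⟨by rw [finrank_euclideanSpace_fin]; omega⟩
    exact Submodule.finrank_orthogonal_span_singleton hc0
  have hnt : Nontrivial V := Module.nontrivial_of_finrank_pos (R := ℝ) (by rw [hfr]; omega)
  obtain ⟨e, he⟩ : ∃ e : V, ‖e‖ = 1 := by
    obtain ⟨w, hw⟩ := exists_ne (0 : V)
    exact ⟨(‖w‖⁻¹ : ℝ) • w, norm_smul_inv_norm (𝕜 := ℝ) hw⟩
  let Φ : OnePoint V ≃ₜ Metric.sphere (0 : EuclideanSpace ℝ (Fin n)) 1 := onePointHyperplaneHomeoUnitSphere hcn
  have hΦ : Φ ∞ = c := rfl
  let D : Set V := {x | Φ (x : OnePoint V) ∈ C}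
  have hD : IsClosed D := hC.preimage (Φ.continuous.comp OnePoint.continuous_coe)
  obtain ⟨h, hh⟩ := exists_h D e he
  let H : ℕ → (Metric.sphere (0 : EuclideanSpace ℝ (Fin n)) (1 : ℝ) ≃ₜ
      Metric.sphere (0 : EuclideanSpace ℝ (Fin n)) (1 : ℝ)) :=
    fun k => Φ.symm.trans (((hk h k).onePointCongr).trans Φ)
  have hH1 : ∀ k, H k (Φ ∞) = Φ ∞ := by
    intro k
    show Φ (((hk h k).onePointCongr) (Φ.symm (Φ ∞))) = Φ ∞
    rw [Φ.symm_apply_apply]
    rfl
  have hH2 : ∀ k (x : V), H k (Φ (x : OnePoint V)) = Φ ((hk h k x : V) : OnePoint V) := by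
    intro k x
    show Φ (((hk h k).onePointCongr) (Φ.symm (Φ (x : OnePoint V)))) = _
    rw [Φ.symm_apply_apply]
    rfl
  refine ⟨H, ?_, ?_⟩
  · intro p
    obtain ⟨z, rfl⟩ := Φ.surjective p
    induction z using OnePoint.rec with
    | infty =>
      refine ⟨Φ ∞, by rw [hΦ]; exact hc, ?_⟩
      simp only [hH1]
      exact tendsto_const_nhds
    | coe x =>
      simp only [hH2]
      rcases dich D hD e he h hh x with ⟨y, hy, hlim⟩ | hlim
      · exact ⟨Φ (y : OnePoint V), hy, (Φ.continuous.tendsto _).comp ((OnePoint.continuous_coe.tendsto _).comp hlim)⟩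
      · refine ⟨Φ ∞, by rw [hΦ]; exact hc, ?_⟩
        have h1 : Tendsto (fun k => hk h k x) atTop (coclosedCompact V) := by
          rw [coclosedCompact_eq_cocompact, ← Metric.cobounded_eq_cocompact, ← tendsto_norm_atTop_iff_cobounded]
          exact hlim
        exact (Φ.continuous.tendsto _).comp (OnePoint.tendsto_coe_infty.comp h1)
  · intro q hq
    refine ⟨q, ?_⟩
    obtain ⟨z, rfl⟩ := Φ.surjective q
    induction z using OnePoint.rec with
    | infty =>
      simp only [hH1]
      exact tendsto_const_nhds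
    | coe x =>
      have hx : ∀ k, hk h k x = x := by
        intro k
        induction k with
        | zero => rfl
        | succ k ih =>
          show h (hk h k x) = x
          rw [ih, hh, (phi_zero D hD x).mpr hq, zero_smul, add_zero]
      simp only [hH2, hx]
      exact tendsto_const_nhds

end Pool.Agent.S08763
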