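import Pool.Statements.S09566
-- import your own Pool.Agent.* helpers here

set_option autoImplicit false
open Pool Pool.MP_cc19c9_gt

namespace Pool.Agent.S09566


open Filter Topology Set Cardinal OnePoint

/-- a discrete space of size continuum -/
def D : Type := ℝ

instance : TopologicalSpace D := ⊥
instance : DiscreteTopology D := ⟨rfl⟩
instance : Nonempty D := ⟨(0:ℝ)⟩

def d0 : D := (0:ℝ)

abbrev XX : Type := OnePoint D

abbrev CX : Type := {f : XX → ℝ // Continuous f}

theorem clopen_pt (d : D) : IsClopen ({(d : XX)} : Set XX) := by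
  refine ⟨isClosed_singleton, ?_⟩
  have h := OnePoint.isOpenEmbedding_coe.isOpenMap ({d} : Set D) (isOpen_discrete _)
  rwa [image_singleton] at h

open Classical in
noncomputable def modi (f : XX → ℝ) (d : D) (v : ℝ) : XX → ℝ := fun x => if x = (d : XX) then v else f x

open Classical in
theorem modi_cont (f : XX → ℝ) (hf : Continuous f) (d : D) (v : ℝ) : Continuous (modi f d v) := by
  unfold modi
  refine Continuous.if ?_ continuous_const hf
  intro a ha
  have : frontier {x : XX | x = (d : XX)} = ∅ := (clopen_pt d).frontier_eq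
  rw [this] at ha
  exact ha.elim

theorem supp_countable (f : XX → ℝ) (hf : Continuous f) : {d : D | f (d : XX) ≠ f ∞}.Countable := by
  have ht : Tendsto (fun d : D => f (d : XX)) cofinite (𝓝 (f ∞)) := by
    have h1 : Tendsto ((↑) : D → XX) (coclosedCompact D) (𝓝 ∞) := OnePoint.tendsto_coe_infty
    rw [coclosedCompact_eq_cocompact, cocompact_eq_cofinite] at h1
    exact (hf.tendsto _).comp h1
  have h2 : ∀ n : ℕ, {d : D | ¬ (|f (d : XX) - f ∞| < 1 / ((n:ℝ)+1))}.Finite := by
    intro n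
    have := ht (Metric.ball_mem_nhds (f ∞) (show (0:ℝ) < 1 / ((n:ℝ)+1) by positivity))
    have h3 : {d : D | |f (d : XX) - f ∞| < 1 / ((n:ℝ)+1)} ∈ (cofinite : Filter D) := this
    exact h3
  refine (countable_iUnion (fun n => (h2 n).countable)).mono ?_
  intro d hd
  have hpos : 0 < |f (d : XX) - f ∞| := abs_pos.mpr (sub_ne_zero.mpr hd)
  obtain ⟨n, hn⟩ := exists_nat_one_div_lt hpos
  exact mem_iUnion.mpr ⟨n, not_lt.mpr hn.le⟩

theorem card_CX : #CX ≤ Cardinal.continuum := by
  have h : ∀ f : CX, ∃ s : ℕ → D, {d : D | f.1 (d : XX) ≠ f.1 ∞} ⊆ range s := by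
    intro f
    obtain ⟨s, hs⟩ := ((supp_countable f.1 f.2).union (countable_singleton d0)).exists_eq_range
      ⟨d0, Or.inr rfl⟩
    exact ⟨s, hs ▸ subset_union_left⟩
  choose s hs using h
  let Ψ : CX → ℝ × ((ℕ → ℝ) × (ℕ → ℝ)) := fun f => (f.1 ∞, (s f, fun n => f.1 ((s f n : D) : XX)))
  have hinj : Function.Injective Ψ := by
    intro f g hfg
    have e1 : f.1 ∞ = g.1 ∞ := congrArg Prod.fst hfg
    have e2 : s f = s g := congrArg (fun p => p.2.1) hfg
    have e3 : (fun n => f.1 ((s f n : D) : XX)) = fun n => g.1 ((s g n : D) : XX) := congrArg (fun p => p.2.2) hfg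
    apply Subtype.ext
    funext x
    induction x using OnePoint.rec with
    | infty => exact e1
    | coe d =>
      by_cases hd : d ∈ range (s f)
      · obtain ⟨n, rfl⟩ := hd
        have h5 : f.1 ((s f n : D) : XX) = g.1 ((s g n : D) : XX) := congrFun e3 n
        rw [h5, e2]
      · have h1 : f.1 (d : XX) = f.1 ∞ := by
          by_contra hne
          exact hd (hs f hne)
        have h2 : g.1 (d : XX) = g.1 ∞ := by
          by_contra hne
          exact hd (e2 ▸ hs g hne)
        rw [h1, h2, e1]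
  have h3 : #(ℕ → ℝ) = Cardinal.continuum := by
    rw [← Cardinal.power_def, Cardinal.mk_real, Cardinal.mk_nat, Cardinal.continuum_power_aleph0]
  have h4 : #(ℝ × ((ℕ → ℝ) × (ℕ → ℝ))) = Cardinal.continuum := by
    rw [Cardinal.mk_prod, Cardinal.mk_prod]
    simp only [Cardinal.lift_id]
    rw [h3, Cardinal.mk_real, Cardinal.continuum_mul_self, Cardinal.continuum_mul_self]
  exact (Cardinal.mk_le_of_injective hinj).trans h4.le

noncomputable def Q : AddSubgroup ℝ := ((Rat.castHom ℝ).toAddMonoidHom).range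

theorem card_quot : Cardinal.continuum ≤ #(ℝ ⧸ Q) := by
  by_contra hcon
  rw [not_le] at hcon
  have h1 : #ℝ = #((ℝ ⧸ Q) × Q) := Cardinal.mk_congr AddSubgroup.addGroupEquivQuotientProdAddSubgroup
  rw [Cardinal.mk_prod, Cardinal.lift_id, Cardinal.lift_id, Cardinal.mk_real] at h1
  have h2 : #Q < Cardinal.continuum := by
    have hc : (Q : Set ℝ).Countable := by
      have : (Q : Set ℝ) = range (fun q : ℚ => (q : ℝ)) := by
        ext x
        rfl
      rw [this]
      exact countable_range _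
    exact (Cardinal.mk_le_aleph0_iff.mpr hc.to_subtype).trans_lt Cardinal.aleph0_lt_continuum
  have h3 := Cardinal.mul_lt_of_lt Cardinal.aleph0_le_continuum hcon h2
  rw [← h1] at h3
  exact lt_irrefl _ h3

theorem exists_theta : ∃ θ : CX × ℕ → ℝ, Function.Injective θ ∧
    ∀ z, |z.1.1 (d0 : XX) - θ z| < 1 / ((z.2:ℝ)+1) := by
  have hc : #(CX × ℕ) ≤ #(ℝ ⧸ Q) := by
    rw [Cardinal.mk_prod, Cardinal.lift_id, Cardinal.lift_id, Cardinal.mk_nat]
    refine le_trans ?_ card_quot
    calc #CX * ℵ₀ ≤ Cardinal.continuum * Cardinal.continuum :=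
          mul_le_mul' card_CX Cardinal.aleph0_le_continuum
      _ = Cardinal.continuum := Cardinal.continuum_mul_self
  obtain ⟨j⟩ := Cardinal.le_def _ _ |>.mp hc
  have h : ∀ z : CX × ℕ, ∃ t : ℝ, (QuotientAddGroup.mk t : ℝ ⧸ Q) = j z ∧
      |z.1.1 (d0 : XX) - t| < 1 / ((z.2:ℝ)+1) := by
    intro z
    obtain ⟨t0, ht0⟩ := QuotientAddGroup.mk_surjective (s := Q) (j z)
    have hpos : (0:ℝ) < 1 / ((z.2:ℝ)+1) := by positivity
    obtain ⟨q, hq1, hq2⟩ := exists_rat_btwn (show z.1.1 (d0 : XX) - t0 - 1 / ((z.2:ℝ)+1) < z.1.1 (d0 : XX) - t0 by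
      linarith)
    refine ⟨t0 + q, ?_, ?_⟩
    · rw [← ht0]
      symm
      rw [QuotientAddGroup.eq]
      refine ⟨q, ?_⟩
      show (q : ℝ) = -t0 + (t0 + q)
      ring
    · rw [abs_lt]
      constructor <;> linarith
  choose θ hθ using h
  refine ⟨θ, fun z z' hzz => ?_, fun z => (hθ z).2⟩
  apply j.injective
  rw [← (hθ z).1, ← (hθ z').1, hzz]


/-- The negation of the preceding statement: For every Tychonoff X: if some uniformly dense subset Y of C_p(X) continuously injects into ℝ^ℕ (iw(Y) ≤ ω), then C_p(X) itself continuously injects into ℝ^ℕ (iw(C_p(X)) ≤ ω). -/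
theorem result :
    ¬ (∀ (X : Type) [TopologicalSpace X] [T35Space X] (Y : Set (X → ℝ)),
      Y ⊆ {f : X → ℝ | Continuous f} →
      (∀ f : X → ℝ, Continuous f → ∀ ε : ℝ, 0 < ε → ∃ g ∈ Y, ∀ x : X, |f x - g x| < ε) →
      (∃ h : (X → ℝ) → (ℕ → ℝ), ContinuousOn h Y ∧ Set.InjOn h Y) →
      ∃ h : (X → ℝ) → (ℕ → ℝ),
        ContinuousOn h {f : X → ℝ | Continuous f} ∧ Set.InjOn h {f : X → ℝ | Continuous f}) := by
  intro H
  obtain ⟨θ, hθinj, hθ⟩ := exists_theta
  let Y : Set (XX → ℝ) := {y | ∃ z : CX × ℕ, y = modi z.1.1 d0 (θ z)}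
  have key := H XX Y (by
      rintro _ ⟨z, rfl⟩
      exact modi_cont z.1.1 z.1.2 d0 _) (by
      intro f hf ε hε
      obtain ⟨n, hn⟩ := exists_nat_one_div_lt hε
      refine ⟨modi f d0 (θ (⟨f, hf⟩, n)), ⟨(⟨f, hf⟩, n), rfl⟩, fun x => ?_⟩
      unfold modi
      split_ifs with h
      · rw [h]
        exact (hθ (⟨f, hf⟩, n)).trans hn
      · rw [sub_self, abs_zero]; exact hε) (by
      refine ⟨fun y _ => y (d0 : XX), ?_, ?_⟩
      · apply Continuous.continuousOn
        exact continuous_pi (fun _ => continuous_apply _)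
      · rintro _ ⟨z, rfl⟩ _ ⟨z', rfl⟩ h
        have h1 : modi z.1.1 d0 (θ z) (d0 : XX) = modi z'.1.1 d0 (θ z') (d0 : XX) := congrFun h 0
        unfold modi at h1
        rw [if_pos rfl, if_pos rfl] at h1
        have h2 := hθinj h1
        rw [h2])
  obtain ⟨h', hcont, hinj⟩ := key
  have h0C : (fun _ : XX => (0:ℝ)) ∈ {f : XX → ℝ | Continuous f} := continuous_const
  have hc0 := hcont _ h0C
  obtain ⟨V, hV⟩ := (𝓝 (h' (fun _ => 0))).exists_antitone_basis
  have hF : ∀ k : ℕ, ∃ I : Set XX, I.Finite ∧ ∀ y : XX → ℝ, Continuous y → (∀ x ∈ I, y x = 0) → h' y ∈ V k := by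
    intro k
    have h1 := hc0 (hV.1.mem_of_mem trivial : V k ∈ 𝓝 (h' (fun _ => 0)))
    rw [mem_map, mem_nhdsWithin_iff_exists_mem_nhds_inter] at h1
    obtain ⟨U, hU, hUV⟩ := h1
    rw [nhds_pi] at hU
    obtain ⟨I, hI, t, ht, htU⟩ := Filter.mem_pi.mp hU
    refine ⟨I, hI, fun y hy hy0 => ?_⟩
    apply hUV
    refine ⟨htU (fun x hx => ?_), hy⟩
    rw [hy0 x hx]
    exact mem_of_mem_nhds (ht x)
  choose I hI hIV using hF
  have hcount : (⋃ k, I k).Countable := countable_iUnion (fun k => (hI k).countable)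
  obtain ⟨d, hd⟩ : ∃ d : D, (d : XX) ∉ ⋃ k, I k := by
    by_contra hcon
    push Not at hcon
    have h1 : (univ : Set D).Countable := by
      have h2 : (((↑) : D → XX) ⁻¹' (⋃ k, I k)).Countable :=
        hcount.preimage OnePoint.coe_injective
      exact h2.mono (fun d _ => hcon d)
    have h2 : (univ : Set ℝ).Countable := h1
    exact Cardinal.not_countable_real h2
  have hy : Continuous (modi (fun _ => 0) d 1) := modi_cont _ continuous_const d 1
  have h2 : ∀ k, h' (modi (fun _ => 0) d 1) ∈ V k := by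
    intro k
    apply hIV k _ hy
    intro x hx
    unfold modi
    rw [if_neg]
    rintro rfl
    exact hd (mem_iUnion.mpr ⟨k, hx⟩)
  have h3 : h' (modi (fun _ => 0) d 1) = h' (fun _ => 0) := by
    by_contra hne
    have h4 : {h' (modi (fun _ => 0) d 1)}ᶜ ∈ 𝓝 (h' (fun _ => 0)) :=
      isOpen_compl_singleton.mem_nhds (fun h => hne h.symm)
    obtain ⟨k, _, hk⟩ := hV.1.mem_iff.mp h4
    exact hk (h2 k) rfl
  have h4 := hinj (show modi (fun _ => 0) d 1 ∈ {f : XX → ℝ | Continuous f} from hy) h0C h3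
  have h5 := congrFun h4 (d : XX)
  unfold modi at h5
  rw [if_pos rfl] at h5
  exact one_ne_zero h5

end Pool.Agent.S09566
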