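import Pool.Statements.S10038

set_option autoImplicit false
open Pool Pool.MP_40e9ab_lc

namespace Pool.Agent.S10038

open Cardinal Set

/-- the interval -/
abbrev I := Set.Icc (0:ℝ) 1

/-- a well-order -/
abbrev lt : I → I → Prop := WellOrderingRel

theorem lt_wf : WellFounded lt := WellOrderingRel.isWellOrder.wf

theorem lt_trans' {x y z : I} (h : lt x y) (h' : lt y z) : lt x z :=
  _root_.trans_of lt h h'

theorem lt_irrefl' (x : I) : ¬ lt x x := (inferInstance : Std.Irrefl lt).irrefl x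

theorem lt_tri (x y : I) : lt x y ∨ x = y ∨ lt y x := trichotomous_of lt x y

/-- the ideal -/
def J (S : Set I) : Prop := ∃ r : I → I, (∀ x ∈ S, lt (r x) x) ∧ ∀ y, {x | x ∈ S ∧ r x = y}.Countable

theorem J_mono {S T : Set I} (h : S ⊆ T) (hT : J T) : J S := by
  obtain ⟨r, h1, h2⟩ := hT
  refine ⟨r, fun x hx => h1 x (h hx), fun y => (h2 y).mono ?_⟩
  rintro x ⟨hx1, hx2⟩
  exact ⟨h hx1, hx2⟩

theorem J_union {S : ℕ → Set I} (h : ∀ n, J (S n)) : J (⋃ n, S n) := by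
  classical
  choose r h1 h2 using h
  refine ⟨fun x => if hx : ∃ n, x ∈ S n then r (Nat.find hx) x else x, ?_, ?_⟩
  · intro x hx
    have hx' : ∃ n, x ∈ S n := Set.mem_iUnion.mp hx
    simp only [dif_pos hx']
    exact h1 _ x (Nat.find_spec hx')
  · intro y
    refine (Set.countable_iUnion (fun n => h2 n y)).mono ?_
    rintro x ⟨hx, hxy⟩
    have hx' : ∃ n, x ∈ S n := Set.mem_iUnion.mp hx
    simp only [dif_pos hx'] at hxy
    exact Set.mem_iUnion.mpr ⟨Nat.find hx', Nat.find_spec hx', hxy⟩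

theorem exists_F : ∃ F : Set I, (∀ x ∈ F, ∀ y, lt y x → y ∈ F) ∧
    (∀ b ∈ F, #(Set {x // lt x b}) ≤ 𝔠) ∧ 𝔠 < #(Set F) := by
  by_cases h : ∃ a : I, 𝔠 < #(Set {x // lt x a})
  · obtain ⟨a, ha, hmin⟩ := lt_wf.has_min {a | 𝔠 < #(Set {x // lt x a})} h
    refine ⟨{x | lt x a}, fun x hx y hy => lt_trans' hy hx, fun b hb => ?_, ha⟩
    by_contra hc
    exact hmin b (not_le.mp hc) hb
  · push Not at h
    refine ⟨Set.univ, fun _ _ _ _ => Set.mem_univ _, fun b _ => h b, ?_⟩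
    rw [Cardinal.mk_set, Cardinal.mk_univ, Cardinal.mk_Icc_real (by norm_num)]
    exact Cardinal.cantor _

theorem not_J {F : Set I} (hF1 : ∀ x ∈ F, ∀ y, lt y x → y ∈ F)
    (hF2 : ∀ b ∈ F, #(Set {x // lt x b}) ≤ 𝔠) (hF3 : 𝔠 < #(Set F)) (b : I) (hb : b ∈ F) :
    ¬ J {x | x ∈ F ∧ lt b x} := by
  rintro ⟨r, h1, h2⟩
  let μ : Cardinal := max (#{x // lt x b}) ℵ₀
  have hμ : ℵ₀ ≤ μ := le_max_right _ _
  have hμ2 : (2 : Cardinal) ^ μ ≤ 𝔠 := by
    rcases max_cases (#{x // lt x b}) ℵ₀ with ⟨h, _⟩ | ⟨h, _⟩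
    · simp only [μ, h]
      rw [← Cardinal.mk_set]; exact hF2 b hb
    · simp only [μ, h]
      exact le_of_eq Cardinal.two_power_aleph0
  let A : ℕ → Set I := fun n => Nat.rec (motive := fun _ => Set I) {x | x ∈ F ∧ ¬ lt b x} (fun _ B => {x | (x ∈ F ∧ lt b x) ∧ r x ∈ B}) n
  have hA0 : A 0 = {x | x ∈ F ∧ ¬ lt b x} := rfl
  have hAs : ∀ n, A (n+1) = {x | (x ∈ F ∧ lt b x) ∧ r x ∈ A n} := fun n => rfl
  have hcard : ∀ n, #(A n) ≤ μ := by
    intro n
    induction n with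
    | zero =>
      have hsub : A 0 ⊆ {x | lt x b} ∪ {b} := by
        intro x hx
        rcases lt_tri x b with h | h | h
        · exact Or.inl h
        · exact Or.inr h
        · exact absurd h hx.2
      refine (Cardinal.mk_le_mk_of_subset hsub).trans ((Cardinal.mk_union_le _ _).trans ?_)
      rw [Cardinal.mk_singleton]
      exact Cardinal.add_le_of_le hμ (le_max_left _ _) (Cardinal.one_le_aleph0.trans hμ)
    | succ n ih =>
      have hsub : A (n+1) ⊆ ⋃ y ∈ A n, {x | x ∈ {x | x ∈ F ∧ lt b x} ∧ r x = y} := by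
        intro x hx
        rw [hAs] at hx
        exact Set.mem_biUnion hx.2 ⟨hx.1, rfl⟩
      refine (Cardinal.mk_le_mk_of_subset hsub).trans ?_
      refine (Cardinal.mk_biUnion_le _ _).trans ?_
      refine Cardinal.mul_le_of_le hμ ih ?_
      apply ciSup_le'
      intro y
      exact (Cardinal.mk_le_aleph0_iff.mpr (h2 y.1).to_subtype).trans hμ
  have hcov : F ⊆ ⋃ n, A n := by
    intro x
    induction x using lt_wf.induction with
    | _ x ih =>
      intro hx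
      by_cases hbx : lt b x
      · have hr := h1 x ⟨hx, hbx⟩
        obtain ⟨n, hn⟩ := Set.mem_iUnion.mp (ih (r x) hr (hF1 x hx _ hr))
        exact Set.mem_iUnion.mpr ⟨n+1, ⟨hx, hbx⟩, hn⟩
      · exact Set.mem_iUnion.mpr ⟨0, hx, hbx⟩
  have hFc : #F ≤ μ := by
    refine (Cardinal.mk_le_mk_of_subset hcov).trans ?_
    refine (Cardinal.mk_iUnion_le _).trans ?_
    refine Cardinal.mul_le_of_le hμ ?_ ?_
    · rw [Cardinal.mk_nat]; exact hμ
    · exact ciSup_le' hcard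
  rw [Cardinal.mk_set] at hF3
  exact absurd (hF3.trans_le ((Cardinal.power_le_power_left two_ne_zero hFc).trans hμ2)) (lt_irrefl _)

theorem J_union2 {S T : Set I} (hS : J S) (hT : J T) : J (S ∪ T) := by
  have h := J_union (S := fun n => if n = 0 then S else T) (fun n => by
    by_cases h : n = 0
    · simpa [h] using hS
    · simpa [h] using hT)
  refine J_mono ?_ h
  rintro x (hx | hx)
  · exact Set.mem_iUnion.mpr ⟨0, by simpa using hx⟩
  · exact Set.mem_iUnion.mpr ⟨1, by simpa using hx⟩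

theorem J_empty : J ∅ := ⟨id, by simp, by simp⟩

theorem meas_card : #{t : Set I // MeasurableSet t} ≤ 𝔠 := by
  obtain ⟨b, hb, hm⟩ := MeasurableSpace.CountablyGenerated.isCountablyGenerated (α := I)
  rw [hm]
  exact MeasurableSpace.cardinal_measurableSet_le_continuum
    ((Cardinal.mk_le_aleph0_iff.mpr hb.to_subtype).trans Cardinal.aleph0_le_continuum)

/-- the sigma-algebra -/
def N (F : Set I) : Set (Set I) := {X | ∃ B : Set I, MeasurableSet B ∧ J (symmDiff X B ∩ F)}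

theorem N_meas (F : Set I) {B : Set I} (hB : MeasurableSet B) : B ∈ N F :=
  ⟨B, hB, by simpa using J_empty⟩

theorem N_compl (F : Set I) {X : Set I} (hX : X ∈ N F) : Xᶜ ∈ N F := by
  obtain ⟨B, hB, hJ⟩ := hX
  refine ⟨Bᶜ, hB.compl, ?_⟩
  have : symmDiff Xᶜ Bᶜ = symmDiff X B := by
    ext x
    simp only [Set.mem_symmDiff, Set.mem_compl_iff]
    tauto
  rwa [this]

theorem N_union (F : Set I) {X : ℕ → Set I} (hX : ∀ n, X n ∈ N F) : (⋃ n, X n) ∈ N F := by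
  choose B hB hJ using hX
  refine ⟨⋃ n, B n, MeasurableSet.iUnion hB, ?_⟩
  refine J_mono ?_ (J_union hJ)
  rintro x ⟨hx, hxF⟩
  rw [Set.mem_symmDiff] at hx
  rcases hx with ⟨h1, h2⟩ | ⟨h1, h2⟩
  · obtain ⟨n, hn⟩ := Set.mem_iUnion.mp h1
    refine Set.mem_iUnion.mpr ⟨n, ?_, hxF⟩
    exact Or.inl ⟨hn, fun h => h2 (Set.mem_iUnion.mpr ⟨n, h⟩)⟩
  · obtain ⟨n, hn⟩ := Set.mem_iUnion.mp h1
    refine Set.mem_iUnion.mpr ⟨n, ?_, hxF⟩
    exact Or.inr ⟨hn, fun h => h2 (Set.mem_iUnion.mpr ⟨n, h⟩)⟩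

theorem N_sel (F : Set I) (P : Set (Set I)) (hP : P.PairwiseDisjoint id)
    (h2 : ∀ p ∈ P, ∃ x ∈ p, ∃ y ∈ p, x ≠ y) :
    ∃ S ∈ N F, ∀ p ∈ P, ∃! x, x ∈ p ∧ x ∈ S := by
  classical
  have key : ∀ p : P, ∃ x ∈ p.1, x ∈ F → ∃ y ∈ p.1, lt y x := by
    rintro ⟨p, hp⟩
    obtain ⟨x, hx, y, hy, hxy⟩ := h2 p hp
    rcases lt_tri x y with h | h | h
    · exact ⟨y, hy, fun _ => ⟨x, hx, h⟩⟩
    · exact absurd h hxy
    · exact ⟨x, hx, fun _ => ⟨y, hy, h⟩⟩
  choose s hs hs2 using key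
  have huniq : ∀ p q : P, ∀ x, x ∈ p.1 → x ∈ q.1 → p = q := by
    intro p q x hx hx'
    by_contra hne
    have := hP p.2 q.2 (fun h => hne (Subtype.ext h))
    exact Set.disjoint_left.mp this hx hx'
  refine ⟨Set.range s, ⟨∅, MeasurableSet.empty, ?_⟩, ?_⟩
  · have hr : ∀ x : I, ∃ y, (x ∈ Set.range s ∩ F → ∃ p : P, s p = x ∧ y ∈ p.1 ∧ lt y x) := by
      intro x
      by_cases hx : x ∈ Set.range s ∩ F
      · obtain ⟨⟨p, hp⟩, hxF⟩ := hx
        have hsF : s p ∈ F := by rw [hp]; exact hxF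
        obtain ⟨y, hy, hlt⟩ := hs2 p hsF
        exact ⟨y, fun _ => ⟨p, hp, hy, by rw [← hp]; exact hlt⟩⟩
      · exact ⟨x, fun h => absurd h hx⟩
    choose r hr using hr
    have hset : symmDiff (Set.range s) ∅ ∩ F = Set.range s ∩ F := by
      rw [← Set.bot_eq_empty, symmDiff_bot]
    rw [hset]
    refine ⟨r, fun x hx => ?_, fun y => ?_⟩
    · obtain ⟨p, _, _, h⟩ := hr x hx
      exact h
    · apply Set.Subsingleton.countable
      rintro x ⟨hx, hxy⟩ x' ⟨hx', hxy'⟩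
      obtain ⟨p, hp, hpy, _⟩ := hr x hx
      obtain ⟨q, hq, hqy, _⟩ := hr x' hx'
      rw [hxy] at hpy
      rw [hxy'] at hqy
      have := huniq p q y hpy hqy
      rw [← hp, ← hq, this]
  · intro p hp
    refine ⟨s ⟨p, hp⟩, ⟨hs ⟨p, hp⟩, ⟨p, hp⟩, rfl⟩, ?_⟩
    rintro x ⟨hx, ⟨q, rfl⟩⟩
    have := huniq q ⟨p, hp⟩ (s q) (hs q) hx
    rw [this]

theorem N_proper {F : Set I} (hF1 : ∀ x ∈ F, ∀ y, lt y x → y ∈ F)
    (hF2 : ∀ b ∈ F, #(Set {x // lt x b}) ≤ 𝔠) (hF3 : 𝔠 < #(Set F)) : N F ≠ Set.univ := by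
  classical
  intro hN
  have hcode : ∀ b : F, Nonempty (Set {x // lt x b.1} ↪ (ℕ → Bool)) := by
    intro b
    rw [← Cardinal.le_def]
    refine (hF2 b.1 b.2).trans (le_of_eq ?_)
    simp
  have code : ∀ b : F, Set {x // lt x b.1} ↪ (ℕ → Bool) := fun b => (hcode b).some
  let restr : Set F → (b : F) → Set {x // lt x b.1} := fun X b => {y | ∃ hy : y.1 ∈ F, (⟨y.1, hy⟩ : F) ∈ X}
  let Z : Set F → ℕ → Set I := fun X n => {x | ∃ h : x ∈ F, code ⟨x, h⟩ (restr X ⟨x, h⟩) n = true}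
  have hB : ∀ X n, ∃ B : {t : Set I // MeasurableSet t}, J (symmDiff (Z X n) B.1 ∩ F) := by
    intro X n
    have : Z X n ∈ N F := by rw [hN]; exact Set.mem_univ _
    obtain ⟨B, hB, hJ⟩ := this
    exact ⟨⟨B, hB⟩, hJ⟩
  choose B hB using hB
  have hinj : Function.Injective B := by
    intro X Y hXY
    ext b
    by_contra hne
    apply not_J hF1 hF2 hF3 b.1 b.2
    have hJ : J (⋃ n, (symmDiff (Z X n) (B X n).1 ∩ F) ∪ (symmDiff (Z Y n) (B Y n).1 ∩ F)) :=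
      J_union (fun n => J_union2 (hB X n) (hB Y n))
    refine J_mono ?_ hJ
    rintro x ⟨hxF, hbx⟩
    have hneq : restr X ⟨x, hxF⟩ ≠ restr Y ⟨x, hxF⟩ := by
      intro h
      apply hne
      have h1 : ∀ W : Set F, (⟨b.1, hbx⟩ : {y // lt y x}) ∈ restr W ⟨x, hxF⟩ ↔ b ∈ W := by
        intro W
        constructor
        · rintro ⟨hy, h⟩; exact h
        · intro h; exact ⟨b.2, h⟩
      rw [← h1 X, ← h1 Y, h]
    have hneq2 : code ⟨x, hxF⟩ (restr X ⟨x, hxF⟩) ≠ code ⟨x, hxF⟩ (restr Y ⟨x, hxF⟩) :=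
      fun h => hneq ((code ⟨x, hxF⟩).injective h)
    obtain ⟨n, hn⟩ := Function.ne_iff.mp hneq2
    refine Set.mem_iUnion.mpr ⟨n, ?_⟩
    have hZ : ∀ W : Set F, x ∈ Z W n ↔ code ⟨x, hxF⟩ (restr W ⟨x, hxF⟩) n = true := by
      intro W
      constructor
      · rintro ⟨_, h⟩; exact h
      · intro h; exact ⟨hxF, h⟩
    have hZne : ¬ (x ∈ Z X n ↔ x ∈ Z Y n) := by
      rw [hZ, hZ]
      intro h
      apply hn
      exact Bool.eq_iff_iff.mpr h
    have hBe : x ∈ (B X n).1 ↔ x ∈ (B Y n).1 := by rw [hXY]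
    by_cases h1 : x ∈ Z X n <;> by_cases h2 : x ∈ Z Y n <;> by_cases h3 : x ∈ (B X n).1
    · exact absurd ⟨fun _ => h2, fun _ => h1⟩ hZne
    · exact absurd ⟨fun _ => h2, fun _ => h1⟩ hZne
    · exact Or.inr ⟨Or.inr ⟨hBe.mp h3, h2⟩, hxF⟩
    · exact Or.inl ⟨Or.inl ⟨h1, h3⟩, hxF⟩
    · exact Or.inl ⟨Or.inr ⟨h3, h1⟩, hxF⟩
    · exact Or.inr ⟨Or.inl ⟨h2, fun h => h3 (hBe.mpr h)⟩, hxF⟩
    · exact absurd ⟨fun h => absurd h h1, fun h => absurd h h2⟩ hZne
    · exact absurd ⟨fun h => absurd h h1, fun h => absurd h h2⟩ hZne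
  have h1 : #(Set F) ≤ #(ℕ → {t : Set I // MeasurableSet t}) := Cardinal.mk_le_of_injective hinj
  have h2 : #(ℕ → {t : Set I // MeasurableSet t}) ≤ 𝔠 := by
    rw [← Cardinal.power_def, Cardinal.mk_nat]
    exact (Cardinal.power_le_power_right meas_card).trans (le_of_eq Cardinal.continuum_power_aleph0)
  exact absurd (hF3.trans_le (h1.trans h2)) (lt_irrefl _)

/-- The negation of the preceding statement: Any sigma-algebra on [0,1] that contains all subintervals and contains a one-point-per-part selector for every partition of [0,1] into parts of size at least two must consist of all subsets of [0,1]. -/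
theorem result :
    ¬ (∀ N : Set (Set (Set.Icc (0:ℝ) 1)),
      (∀ a b : ℝ,
        (Subtype.val : Set.Icc (0:ℝ) 1 → ℝ) ⁻¹' Set.Icc a b ∈ N ∧
        (Subtype.val : Set.Icc (0:ℝ) 1 → ℝ) ⁻¹' Set.Ico a b ∈ N ∧
        (Subtype.val : Set.Icc (0:ℝ) 1 → ℝ) ⁻¹' Set.Ioc a b ∈ N ∧
        (Subtype.val : Set.Icc (0:ℝ) 1 → ℝ) ⁻¹' Set.Ioo a b ∈ N) →
      (∀ s ∈ N, sᶜ ∈ N) →
      (∀ f : ℕ → Set (Set.Icc (0:ℝ) 1), (∀ n, f n ∈ N) → (⋃ n, f n) ∈ N) →
      (∀ P : Set (Set (Set.Icc (0:ℝ) 1)),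
        P.PairwiseDisjoint id →
        ⋃₀ P = Set.univ →
        (∀ p ∈ P, ∃ x ∈ p, ∃ y ∈ p, x ≠ y) →
        ∃ S ∈ N, ∀ p ∈ P, ∃! x, x ∈ p ∧ x ∈ S) →
      N = Set.univ) := by
  intro H
  obtain ⟨F, hF1, hF2, hF3⟩ := exists_F
  apply N_proper hF1 hF2 hF3
  apply H (N F)
  · intro a b
    exact ⟨N_meas F (measurableSet_Icc.preimage measurable_subtype_coe),
      N_meas F (measurableSet_Ico.preimage measurable_subtype_coe),
      N_meas F (measurableSet_Ioc.preimage measurable_subtype_coe),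
      N_meas F (measurableSet_Ioo.preimage measurable_subtype_coe)⟩
  · intro s hs
    exact N_compl F hs
  · intro f hf
    exact N_union F hf
  · intro P hP _ h2
    exact N_sel F P hP h2

end Pool.Agent.S10038
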