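import Pool.Statements.S10106

set_option autoImplicit false
open Pool Pool.MP_5708a2_lc

namespace Pool.Agent.S10106

/-- sets which are determined by finite colourings of both coordinates and membership in the sets of `G` -/
def Cl (G : Set (Set (ℝ × ℝ))) : Set (Set (ℝ × ℝ)) :=
  {T | ∃ (α : Type) (_ : Finite α) (a b : ℝ → α), ∀ p q : ℝ × ℝ, a p.1 = a q.1 → b p.2 = b q.2 →
    (∀ U ∈ G, (p ∈ U ↔ q ∈ U)) → (p ∈ T ↔ q ∈ T)}

theorem exists_phi : ∃ φ : ℝ → (ℕ → ℕ), Function.Surjective φ := by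
  have h : Cardinal.mk (ℕ → ℕ) ≤ Cardinal.mk ℝ := by
    rw [Cardinal.mk_real]
    simp
  obtain ⟨e⟩ := Cardinal.le_def _ _ |>.mp h
  exact ⟨Function.invFun e, Function.invFun_surjective e.injective⟩

/-- The negation of the preceding statement: For every countable family of subsets of the real plane there is a finite family of plane sets such that every class containing it and closed under complement, union, projections onto the axes and products of axis sets contains the whole countable family. -/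
theorem result :
    ¬ (∀ F : Set (Set (ℝ × ℝ)), F.Countable →
      ∃ G : Set (Set (ℝ × ℝ)), G.Finite ∧
        ∀ S ∈ F, ∀ C : Set (Set (ℝ × ℝ)),
          (∀ T ∈ C, Tᶜ ∈ C) →
          (∀ T ∈ C, ∀ U ∈ C, T ∪ U ∈ C) →
          (∀ T ∈ C, {p : ℝ × ℝ | p.2 = 0 ∧ ∃ y : ℝ, (p.1, y) ∈ T} ∈ C) →
          (∀ T ∈ C, {p : ℝ × ℝ | p.1 = 0 ∧ ∃ x : ℝ, (x, p.2) ∈ T} ∈ C) →
          (∀ A ∈ C, ∀ B ∈ C, A ⊆ {p : ℝ × ℝ | p.2 = 0} → B ⊆ {p : ℝ × ℝ | p.1 = 0} →
            {p : ℝ × ℝ | ((p.1, (0:ℝ)) ∈ A) ∧ (((0:ℝ), p.2) ∈ B)} ∈ C) →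
          G ⊆ C → S ∈ C) := by
  classical
  intro H
  obtain ⟨φ, hφ⟩ := exists_phi
  let S : ℕ → Set (ℝ × ℝ) := fun n => {p | ∃ j : ℕ, p.2 = (j : ℝ) ∧ φ p.1 j = n}
  obtain ⟨G, hG, hH⟩ := H (Set.range S) (Set.countable_range S)
  have hcl : ∀ n, S n ∈ Cl G := by
    intro n
    apply hH (S n) ⟨n, rfl⟩ (Cl G)
    · rintro T ⟨α, hα, a, b, h⟩
      exact ⟨α, hα, a, b, fun p q h1 h2 h3 => not_congr (h p q h1 h2 h3)⟩
    · rintro T ⟨α, hα, a, b, h⟩ U ⟨α', hα', a', b', h'⟩
      refine ⟨α × α', inferInstance, fun x => (a x, a' x), fun x => (b x, b' x), fun p q h1 h2 h3 => ?_⟩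
      simp only [Prod.mk.injEq] at h1 h2
      exact or_congr (h p q h1.1 h2.1 h3) (h' p q h1.2 h2.2 h3)
    · intro T _
      refine ⟨Prop, inferInstance, fun x => ∃ y, (x, y) ∈ T, fun y => y = 0, fun p q h1 h2 _ => ?_⟩
      exact and_congr (iff_of_eq h2) (iff_of_eq h1)
    · intro T _
      refine ⟨Prop, inferInstance, fun x => x = 0, fun y => ∃ x, (x, y) ∈ T, fun p q h1 h2 _ => ?_⟩
      exact and_congr (iff_of_eq h1) (iff_of_eq h2)
    · intro A _ B _ _ _
      refine ⟨Prop, inferInstance, fun x => (x, (0:ℝ)) ∈ A, fun y => ((0:ℝ), y) ∈ B, fun p q h1 h2 _ => ?_⟩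
      exact and_congr (iff_of_eq h1) (iff_of_eq h2)
    · intro U hU
      exact ⟨Unit, inferInstance, fun _ => (), fun _ => (), fun p q _ _ h3 => h3 U hU⟩
  choose α hα a b hab using hcl
  have hGf : Finite G := hG.to_subtype
  have := Fintype.ofFinite (Set G)
  let N : ℕ := Fintype.card (Set G) + 1
  let col : ℕ → ((n : Fin N) → α n) := fun j n => b n (j : ℝ)
  have hfin : Finite ((n : Fin N) → α n) := inferInstance
  obtain ⟨c, hc⟩ := Finite.exists_infinite_fiber col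
  let e : ℕ ↪ (col ⁻¹' {c}) := Infinite.natEmbedding _
  let e' : ℕ → ℕ := fun n => (e n).1
  have he' : Function.Injective e' := fun x y h => e.injective (Subtype.ext h)
  obtain ⟨x, hx⟩ := hφ (Function.invFun e')
  have hxe : ∀ n, φ x (e' n) = n := fun n => by rw [hx]; exact Function.leftInverse_invFun he' n
  let ty : Fin N → Set G := fun n => {U | (x, (e' n : ℝ)) ∈ U.1}
  obtain ⟨n, n', hne, hty⟩ := Fintype.exists_ne_map_eq_of_card_lt ty (by simp [N])
  have h := hab n (x, (e' n : ℝ)) (x, (e' n' : ℝ)) rfl ?_ ?_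
  · have h1 : (x, (e' n : ℝ)) ∈ S n := ⟨e' n, rfl, hxe n⟩
    obtain ⟨j, hj, hj2⟩ := h.mp h1
    have hj3 : e' n' = j := Nat.cast_injective (R := ℝ) hj
    rw [← hj3] at hj2
    rw [hxe] at hj2
    exact hne (Fin.ext hj2.symm)
  · have h1 := congrFun (e n).2 n
    have h2 := congrFun (e n').2 n
    change col (e' n) n = c n at h1
    change col (e' n') n = c n at h2
    exact h1.trans h2.symm
  · intro U hU
    have := Set.ext_iff.mp hty ⟨U, hU⟩
    exact this

end Pool.Agent.S10106
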