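import Pool.Statements.S10481
import Pool.Agent.PosetQ

set_option autoImplicit false
open FirstOrder FirstOrder.Language
open Pool Pool.MP_b47165_lc

namespace Pool.Agent.S10481

open Pool.Agent.PosetP Pool.Agent.PosetDef Bt Tp P

/-- the nonchain part -/
def D : Set P := {AL, BE, GA} ∪ Set.range (fun n => bt (om n)) ∪ Set.range (fun n => bt (os n)) ∪
  Set.range (fun p : ℕ × ℤ => tp (ka p.1 p.2)) ∪ Set.range (fun p : ℕ × ℤ => tp (kb p.1 p.2)) ∪
  Set.range (fun p : ℕ × ℚ => tp (kc p.1 p.2))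

theorem D_countable : D.Countable := by
  unfold D
  refine (((((Set.Finite.countable ?_).union (Set.countable_range _)).union (Set.countable_range _)).union
    (Set.countable_range _)).union (Set.countable_range _)).union (Set.countable_range _)
  exact Set.toFinite _

theorem mem_D (x : P) (hx : ∀ r, x ≠ e r) : x ∈ D := by
  unfold D
  cases x with
  | e r => exact absurd rfl (hx r)
  | bt b => cases b <;> simp
  | tp t => cases t <;> simp

theorem finite_of_no_three (S : Set ℝ) (h : ∀ x ∈ S, ∀ y ∈ S, ∀ z ∈ S, x < y → y < z → False) :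
    S.Finite := by
  by_contra hS
  obtain ⟨t, hts, htc⟩ := Set.Infinite.exists_subset_card_eq hS 3
  have o := t.orderEmbOfFin htc
  have hm : ∀ i, t.orderEmbOfFin htc i ∈ S := fun i => hts (t.orderEmbOfFin_mem htc i)
  exact h _ (hm 0) _ (hm 1) _ (hm 2) ((t.orderEmbOfFin htc).strictMono (by decide))
    ((t.orderEmbOfFin htc).strictMono (by decide))

/-- consistency -/
def Cons (f : P → P) (X : Set P) (x y : P) : Prop := ∀ u ∈ X, (u ≤ x → f u ≤ y) ∧ (x ≤ u → y ≤ f u)

theorem Cons.self {f : P → P} {X : Set P} {x y : P} (h : Cons f X x y) (hx : x ∈ X) : y = f x :=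
  le_antisymm ((h x hx).2 le_rfl) ((h x hx).1 le_rfl)

theorem exists_countable (f : P → P) (hf : Monotone f) :
    ∃ X : Set P, X.Countable ∧ ∀ x y, Cons f X x y → y = f x := by
  classical
  let X0 : Set P := D ∪ Set.range (fun q : ℚ => e (q : ℝ))
  have hX0 : X0.Countable := D_countable.union (Set.countable_range _)
  let Bad : Set ℝ := {x | ∃ y, y ≠ f (e x) ∧ Cons f X0 (e x) y}
  have hex : ∀ x : ℝ, ∃ y, x ∈ Bad → (y ≠ f (e x) ∧ Cons f X0 (e x) y) := by
    intro x
    by_cases hx : x ∈ Bad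
    · obtain ⟨y, hy⟩ := hx
      exact ⟨y, fun _ => hy⟩
    · exact ⟨e 0, fun h => absurd h hx⟩
  choose g hg using hex
  have hle : ∀ x ∈ Bad, ∀ x' ∈ Bad, x < x' → ∀ a, (a = f (e x) ∨ a = g x) →
      ∀ b, (b = f (e x') ∨ b = g x') → a ≤ b := by
    intro x hx x' hx' hlt a ha b hb
    obtain ⟨q, hq1, hq2⟩ := exists_rat_btwn hlt
    have hqX : e (q : ℝ) ∈ X0 := Or.inr ⟨q, rfl⟩
    have h1 : e x ≤ e (q : ℝ) := hq1.le
    have h2 : e (q : ℝ) ≤ e x' := hq2.le
    have ha' : a ≤ f (e q) := by
      rcases ha with rfl | rfl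
      · exact hf h1
      · exact ((hg x hx).2 _ hqX).2 h1
    have hb' : f (e q) ≤ b := by
      rcases hb with rfl | rfl
      · exact hf h2
      · exact ((hg x' hx').2 _ hqX).1 h2
    exact ha'.trans hb'
  have hBd : ∀ d : P, {x | x ∈ Bad ∧ (d = f (e x) ∨ d = g x)}.Finite := by
    intro d
    apply finite_of_no_three
    rintro x ⟨hx, hxd⟩ y ⟨hy, hyd⟩ z ⟨hz, hzd⟩ hxy hyz
    have h1 : ∀ a, (a = f (e y) ∨ a = g y) → a = d := fun a ha =>
      le_antisymm (hle y hy z hz hyz a ha d hzd) (hle x hx y hy hxy d hxd a ha)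
    exact (hg y hy).1 ((h1 _ (Or.inr rfl)).trans (h1 _ (Or.inl rfl)).symm)
  have hB1 : (⋃ d ∈ D, {x | x ∈ Bad ∧ (d = f (e x) ∨ d = g x)}).Countable :=
    D_countable.biUnion (fun d _ => (hBd d).countable)
  let B2 : Set ℝ := {x | x ∈ Bad ∧ (∃ a, f (e x) = e a) ∧ ∃ b, g x = e b}
  have hB2 : B2.Countable := by
    have hq : ∀ x : ℝ, ∃ q : ℚ, x ∈ B2 → ∃ a b : ℝ, a < q ∧ q < b ∧
        (e a = f (e x) ∨ e a = g x) ∧ (e b = f (e x) ∨ e b = g x) := by
      intro x
      by_cases hx : x ∈ B2
      · obtain ⟨hxB, ⟨a, ha⟩, b, hb⟩ := hx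
        have hab : a ≠ b := by
          rintro rfl
          exact (hg x hxB).1 (hb.trans ha.symm)
        rcases lt_or_gt_of_ne hab with h | h
        · obtain ⟨q, hq1, hq2⟩ := exists_rat_btwn h
          exact ⟨q, fun _ => ⟨a, b, hq1, hq2, Or.inl ha.symm, Or.inr hb.symm⟩⟩
        · obtain ⟨q, hq1, hq2⟩ := exists_rat_btwn h
          exact ⟨q, fun _ => ⟨b, a, hq1, hq2, Or.inr hb.symm, Or.inl ha.symm⟩⟩
      · exact ⟨0, fun h => absurd h hx⟩
    choose q hq using hq
    have hlt : ∀ x ∈ B2, ∀ x' ∈ B2, x < x' → q x < q x' := by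
      intro x hx x' hx' hxx
      obtain ⟨a, b, h1, h2, h3, h4⟩ := hq x hx
      obtain ⟨a', b', h1', h2', h3', h4'⟩ := hq x' hx'
      have h5 : b ≤ a' := hle x hx.1 x' hx'.1 hxx _ h4 _ h3'
      have h6 : (q x : ℝ) < q x' := by linarith
      exact_mod_cast h6
    have hinj : Set.InjOn q B2 := by
      intro x hx x' hx' h
      rcases lt_trichotomy x x' with h1 | h1 | h1
      · exact absurd h (hlt x hx x' hx' h1).ne
      · exact h1
      · exact absurd h (hlt x' hx' x hx h1).ne'
    exact Set.MapsTo.countable_of_injOn (Set.mapsTo_univ q B2) hinj (Set.countable_univ)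
  have hBad : Bad.Countable := by
    refine (hB1.union hB2).mono ?_
    intro x hx
    by_cases h1 : ∃ a, f (e x) = e a
    · by_cases h2 : ∃ b, g x = e b
      · exact Or.inr ⟨hx, h1, h2⟩
      · left
        simp only [Set.mem_iUnion]
        exact ⟨g x, mem_D _ (fun r hr => h2 ⟨r, hr⟩), hx, Or.inr rfl⟩
    · left
      simp only [Set.mem_iUnion]
      exact ⟨f (e x), mem_D _ (fun r hr => h1 ⟨r, hr⟩), hx, Or.inl rfl⟩
  refine ⟨X0 ∪ e '' Bad, hX0.union (hBad.image _), ?_⟩
  intro x y hxy
  by_cases hx : x ∈ X0 ∪ e '' Bad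
  · exact hxy.self hx
  · obtain ⟨r, rfl⟩ : ∃ r, x = e r := by
      by_contra h
      push Not at h
      exact hx (Or.inl (Or.inl (mem_D x h)))
    by_contra hne
    exact hx (Or.inr ⟨r, ⟨y, hne, fun u hu => hxy u (Or.inl hu)⟩, rfl⟩)

theorem graph_def (f : P → P) (hf : Monotone f) : D2 (fun a b : P => f a = b) := by
  obtain ⟨X, hXc, hX⟩ := exists_countable f hf
  have hne : X.Nonempty := by
    by_contra h
    rw [Set.not_nonempty_iff_eq_empty] at h
    subst h
    have h1 := hX AL AL (fun u hu => absurd hu (by simp))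
    have h2 := hX AL BE (fun u hu => absurd hu (by simp))
    rw [← h1] at h2
    injection h2 with h2
    cases h2
  obtain ⟨x, hx⟩ := hXc.exists_eq_range hne
  have g1 := good_all x
  have g2 := good_all (fun n => f (x n))
  have key : D2 (fun a b : P => ∀ o p q, (∃ n, o = bt (om n) ∧ p = x n) →
      (∃ n, o = bt (om n) ∧ q = f (x n)) → ((p ≤ a → q ≤ b) ∧ (a ≤ p → b ≤ q))) := by
    unfold D2
    repeat' (first | apply at2 d2_le | apply at2 g1 | apply at2 g2 | exact Simple.var _ | exact Simple.const _ | apply Dn.and | apply Dn.all | apply Dn.imp)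
  refine D2.congr key (fun a b => ?_)
  constructor
  · intro h
    refine (hX a b ?_).symm
    intro u hu
    rw [hx] at hu
    obtain ⟨n, rfl⟩ := hu
    exact h _ _ _ ⟨n, rfl, rfl⟩ ⟨n, rfl, rfl⟩
  · rintro rfl o p q ⟨n, rfl, rfl⟩ ⟨n', hn', rfl⟩
    injection hn' with hn'
    injection hn' with hn'
    subst hn'
    exact ⟨fun h => hf h, fun h => hf h⟩

/-- There is an infinite partial order in which the graph of every order-preserving self-map is first-order definable, with parameters, in the language of the order. -/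
theorem result :
    ∃ (M : Type) (_ : PartialOrder M) (_ : Language.order.Structure M)
      (_ : Language.order.OrderedStructure M),
      Infinite M ∧
      ∀ f : M → M, Monotone f →
        (Set.univ : Set M).Definable Language.order {v : Fin 2 → M | f (v 0) = v 1} := by
  refine ⟨P, inferInstance, inferInstance, inferInstance, ?_, ?_⟩
  · exact Infinite.of_injective (fun n : ℕ => bt (om n)) (fun a b h => by
      injection h with h
      injection h)
  · intro f hf
    exact graph_def f hf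

end Pool.Agent.S10481
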