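import Pool.Statements.S10674
import Pool.Agent.RigidE

set_option autoImplicit false
open Pool Pool.MP_e29ee7_lc

namespace Pool.Agent.S10674

/-- points -/
inductive W
  | u (j : ℕ) (x : ℝ)
  | v (x : ℝ) (s : List ℕ)

open W

/-- the order relation -/
def le' : W → W → Prop
  | u j x, u j' x' => j' < j ∨ (j = j' ∧ x ≤ x')
  | u _ _, v _ _ => True
  | v x s, v y t => x ≤ y ∧ s <+: t
  | v _ _, u _ _ => False

instance : PartialOrder W where
  le := le'
  le_refl p := by
    cases p with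
    | u j x => exact Or.inr ⟨rfl, le_rfl⟩
    | v x s => exact ⟨le_rfl, List.prefix_rfl⟩
  le_trans p q r h1 h2 := by
    cases p with
    | u j x =>
      cases r with
      | v x'' s'' => trivial
      | u j'' x'' =>
        cases q with
        | v x' s' => exact absurd h2 (fun h => h)
        | u j' x' =>
          rcases h1 with h1 | ⟨h1, h1'⟩
          · rcases h2 with h2 | ⟨h2, h2'⟩
            · exact Or.inl (by omega)
            · exact Or.inl (by omega)
          · rcases h2 with h2 | ⟨h2, h2'⟩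
            · exact Or.inl (by omega)
            · exact Or.inr ⟨by omega, h1'.trans h2'⟩
    | v x s =>
      cases q with
      | u j' x' => exact absurd h1 (fun h => h)
      | v x' s' =>
        cases r with
        | u j'' x'' => exact absurd h2 (fun h => h)
        | v x'' s'' => exact ⟨h1.1.trans h2.1, h1.2.trans h2.2⟩
  le_antisymm p q h1 h2 := by
    cases p with
    | u j x =>
      cases q with
      | v x' s' => exact absurd h2 (fun h => h)
      | u j' x' =>
        rcases h1 with h1 | ⟨h1, h1'⟩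
        · rcases h2 with h2 | ⟨h2, h2'⟩ <;> omega
        · rcases h2 with h2 | ⟨h2, h2'⟩
          · omega
          · rw [h1, le_antisymm h1' h2']
    | v x s =>
      cases q with
      | u j' x' => exact absurd h1 (fun h => h)
      | v x' s' =>
        have h3 : s = s' := List.IsPrefix.eq_of_length h1.2 (le_antisymm h1.2.length_le h2.2.length_le)
        rw [le_antisymm h1.1 h2.1, h3]

theorem uu (j j' : ℕ) (x x' : ℝ) : u j x ≤ u j' x' ↔ j' < j ∨ (j = j' ∧ x ≤ x') := Iff.rfl
theorem uv (j : ℕ) (x y : ℝ) (s : List ℕ) : u j x ≤ v y s := trivial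
theorem vv (x y : ℝ) (s t : List ℕ) : v x s ≤ v y t ↔ x ≤ y ∧ s <+: t := Iff.rfl
theorem vu (j : ℕ) (x y : ℝ) (s : List ℕ) : ¬ (v y s ≤ u j x) := fun h => h

/-- admissible points -/
def ok (E : Set ℝ) : W → Prop
  | u j x => x ∈ E ∧ 0 < x ∧ x < j
  | v x s => x ∈ E ∧ ∃ (s' : List ℕ) (k : ℕ), s = s' ++ [k] ∧ (s'.length : ℝ) < x ∧
      x < s'.length + 1 - 1 / ((k : ℝ) + 2)

/-- the tree -/
abbrev T (E : Set ℝ) := {p : W // ok E p}

theorem ok_len {E : Set ℝ} {x : ℝ} {s : List ℕ} (h : ok E (v x s)) :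
    0 < s.length ∧ (s.length : ℝ) - 1 < x ∧ x < s.length := by
  obtain ⟨_, s', k, rfl, h1, h2⟩ := h
  have h3 : (0:ℝ) < 1 / ((k : ℝ) + 2) := by positivity
  refine ⟨by simp, ?_, ?_⟩
  · simp only [List.length_append, List.length_singleton]; push_cast; linarith
  · simp only [List.length_append, List.length_singleton]; push_cast; linarith

theorem len_le {E : Set ℝ} {x y : ℝ} {s t : List ℕ} (h : ok E (v x s)) (h' : ok E (v y t)) (hxy : x ≤ y) :
    s.length ≤ t.length := by
  have h1 := ok_len h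
  have h2 := ok_len h'
  have h3 : (s.length : ℝ) < t.length + 1 := by linarith [h1.2.1, h2.2.2]
  have h4 : s.length < t.length + 1 := by exact_mod_cast h3
  omega

/-- initial segments of a sequence -/
def L (f : ℕ → ℕ) (n : ℕ) : List ℕ := (List.range n).map f

theorem L_len (f : ℕ → ℕ) (n : ℕ) : (L f n).length = n := by simp [L]
theorem L_succ (f : ℕ → ℕ) (n : ℕ) : L f (n+1) = L f n ++ [f n] := by simp [L, List.range_succ]

theorem L_prefix (f : ℕ → ℕ) {m n : ℕ} (h : m ≤ n) : L f m <+: L f n := by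
  induction n, h using Nat.le_induction with
  | base => exact List.prefix_rfl
  | succ n _ ih =>
    rw [L_succ]
    exact ih.trans (List.prefix_append _ _)

/-- the branch of a sequence -/
def K (E : Set ℝ) (f : ℕ → ℕ) : Set (T E) := {p | ∀ x s, p.1 = v x s → s = L f s.length}

theorem Kle {E : Set ℝ} {f : ℕ → ℕ} {p q : T E} (hp : p ∈ K E f) (hq : q ∈ K E f) {x y : ℝ}
    {s t : List ℕ} (h1 : p.1 = v x s) (h2 : q.1 = v y t) : p ≤ q ↔ x ≤ y := by
  change p.1 ≤ q.1 ↔ _
  have ho1 : ok E (v x s) := h1 ▸ p.2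
  have ho2 : ok E (v y t) := h2 ▸ q.2
  rw [h1, h2, vv]
  constructor
  · exact fun h => h.1
  · intro h
    refine ⟨h, ?_⟩
    rw [hp x s h1, hq y t h2]
    exact L_prefix f (len_le ho1 ho2 h)

theorem total_u {E : Set ℝ} (p q : T E) (j j' : ℕ) (x x' : ℝ) (h1 : p.1 = u j x) (h2 : q.1 = u j' x') :
    p ≤ q ∨ q ≤ p := by
  change p.1 ≤ q.1 ∨ q.1 ≤ p.1
  rw [h1, h2, uu, uu]
  rcases lt_trichotomy j j' with h | h | h
  · exact Or.inr (Or.inl h)
  · rcases le_total x x' with h3 | h3
    · exact Or.inl (Or.inr ⟨h, h3⟩)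
    · exact Or.inr (Or.inr ⟨h.symm, h3⟩)
  · exact Or.inl (Or.inl h)

theorem K_chain (E : Set ℝ) (f : ℕ → ℕ) : IsChain (· ≤ ·) (K E f) := by
  intro p hp q hq _
  change p ≤ q ∨ q ≤ p
  cases h1 : p.1 with
  | u j x =>
    cases h2 : q.1 with
    | u j' x' => exact total_u p q j j' x x' h1 h2
    | v y t => left; change p.1 ≤ q.1; rw [h1, h2]; exact uv _ _ _ _
  | v x s =>
    cases h2 : q.1 with
    | u j' x' => right; change q.1 ≤ p.1; rw [h1, h2]; exact uv _ _ _ _
    | v y t =>
      rw [Kle hp hq h1 h2, Kle hq hp h2 h1]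
      exact le_total x y

theorem below {E : Set ℝ} (p q r : T E) (h1 : p ≤ r) (h2 : q ≤ r) : p ≤ q ∨ q ≤ p := by
  cases hp : p.1 with
  | u j x =>
    cases hq : q.1 with
    | u j' x' => exact total_u p q j j' x x' hp hq
    | v y t => left; change p.1 ≤ q.1; rw [hp, hq]; exact uv _ _ _ _
  | v x s =>
    cases hq : q.1 with
    | u j' x' => right; change q.1 ≤ p.1; rw [hp, hq]; exact uv _ _ _ _
    | v y t =>
      change p.1 ≤ r.1 at h1
      change q.1 ≤ r.1 at h2
      change p.1 ≤ q.1 ∨ q.1 ≤ p.1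
      have ho1 : ok E (v x s) := hp ▸ p.2
      have ho2 : ok E (v y t) := hq ▸ q.2
      rw [hp] at h1
      rw [hq] at h2
      rw [hp, hq]
      cases hr : r.1 with
      | u j z => rw [hr] at h1; exact absurd h1 (vu _ _ _ _)
      | v z w =>
        rw [hr] at h1 h2
        rcases le_total x y with h | h
        · left
          exact ⟨h, List.prefix_of_prefix_length_le h1.2 h2.2 (len_le ho1 ho2 h)⟩
        · right
          exact ⟨h, List.prefix_of_prefix_length_le h2.2 h1.2 (len_le ho2 ho1 h)⟩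

theorem chain_sub {E : Set ℝ} (c : Set (T E)) (hc : IsChain (· ≤ ·) c) : ∃ f, c ⊆ K E f := by
  classical
  have hex : ∀ n : ℕ, ∃ m : ℕ, ∀ p ∈ c, ∀ x s, p.1 = v x s → n < s.length → s[n]? = some m := by
    intro n
    by_cases h : ∃ p ∈ c, ∃ x s, p.1 = v x s ∧ n < s.length
    · obtain ⟨p, hp, x, s, h1, h2⟩ := h
      refine ⟨s[n], ?_⟩
      intro q hq y t h3 h4
      have hcmp : p ≤ q ∨ q ≤ p := by
        by_cases hpq : p = q
        · exact Or.inl hpq.le
        · exact hc hp hq hpq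
      have hs : s[n]? = some s[n] := List.getElem?_eq_getElem h2
      rcases hcmp with h | h
      · change p.1 ≤ q.1 at h
        rw [h1, h3] at h
        obtain ⟨w, hw⟩ := h.2
        rw [← hw, List.getElem?_append_left h2, hs]
      · change q.1 ≤ p.1 at h
        rw [h1, h3] at h
        obtain ⟨w, hw⟩ := h.2
        rw [← hs, ← hw, List.getElem?_append_left h4]
    · push Not at h
      exact ⟨0, fun p hp x s h1 h2 => absurd h2 (not_lt.mpr (h p hp x s h1))⟩
  choose f hf using hex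
  refine ⟨f, ?_⟩
  intro p hp x s h1
  apply List.ext_getElem?
  intro i
  by_cases hi : i < s.length
  · rw [hf i p hp x s h1 hi]
    simp [L, hi]
  · rw [List.getElem?_eq_none (not_lt.mp hi), List.getElem?_eq_none (by rw [L_len]; exact not_lt.mp hi)]

theorem K_le_eq {E : Set ℝ} (hE : ∀ a b : ℝ, a < b → ∃ x ∈ E, a < x ∧ x < b) {f g : ℕ → ℕ}
    (h : K E f ⊆ K E g) : f = g := by
  funext n
  have h2 : (0:ℝ) < 1 - 1 / ((f n : ℝ) + 2) := by
    rw [sub_pos, div_lt_one (by positivity)]
    have : (0:ℝ) ≤ f n := Nat.cast_nonneg _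
    linarith
  obtain ⟨x, hxE, hx1, hx2⟩ := hE n (n + 1 - 1 / ((f n : ℝ) + 2)) (by linarith)
  have hok : ok E (v x (L f (n+1))) := ⟨hxE, L f n, f n, L_succ f n, by rw [L_len]; exact hx1,
    by rw [L_len]; exact hx2⟩
  have hmem : (⟨v x (L f (n+1)), hok⟩ : T E) ∈ K E f := by
    intro y s hs
    change v x (L f (n+1)) = v y s at hs
    injection hs with h3 h4
    rw [← h4, L_len]
  have h3 := h hmem x (L f (n+1)) rfl
  rw [L_len, L_succ, L_succ] at h3
  have h4 := List.append_inj_right h3 (by rw [L_len, L_len])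
  simpa using h4

theorem K_max {E : Set ℝ} (hE : ∀ a b : ℝ, a < b → ∃ x ∈ E, a < x ∧ x < b) (f : ℕ → ℕ) :
    IsMaxChain (· ≤ ·) (K E f) := by
  refine ⟨K_chain E f, ?_⟩
  intro t ht hsub
  obtain ⟨g, hg⟩ := chain_sub t ht
  have : f = g := K_le_eq hE (hsub.trans hg)
  subst this
  exact Set.Subset.antisymm hsub hg

theorem max_eq {E : Set ℝ} (c : Set (T E)) (hc : IsMaxChain (· ≤ ·) c) : ∃ f, c = K E f := by
  obtain ⟨f, hf⟩ := chain_sub c hc.1
  exact ⟨f, hc.2 (K_chain E f) hf⟩

/-- the embedding on points -/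
noncomputable def emb (g : ℕ → ℕ) (N : ℕ) : W → W
  | u j x => u (j + N + 1) x
  | v x s => if x < N then u N x else v x (L g s.length)

theorem F1 (E : Set ℝ) (f g : ℕ → ℕ) (N : ℕ) (h : ∀ n ≥ N, f n ≤ g n) : Nonempty (K E f ↪o K E g) := by
  classical
  have hok : ∀ p : T E, p ∈ K E f → ok E (emb g N p.1) := by
    intro p hp
    have hpo := p.2
    cases h1 : p.1 with
    | u j x =>
      rw [h1] at hpo
      obtain ⟨h2, h3, h4⟩ := hpo
      refine ⟨h2, h3, ?_⟩
      push_cast
      have : (0:ℝ) ≤ N := Nat.cast_nonneg _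
      linarith
    | v x s =>
      rw [h1] at hpo
      have hs := hp x s h1
      obtain ⟨h2, s', k, h3, h4, h5⟩ := hpo
      unfold emb
      by_cases hx : x < N
      · simp only [if_pos hx]
        refine ⟨h2, ?_, hx⟩
        have : (0:ℝ) ≤ s'.length := Nat.cast_nonneg _
        linarith
      · simp only [if_neg hx]
        have hlen : s.length = s'.length + 1 := by rw [h3]; simp
        refine ⟨h2, L g s'.length, g s'.length, ?_, by rw [L_len]; exact h4, ?_⟩
        · rw [hlen, L_succ]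
        · rw [L_len]
          have hk : k = f s'.length := by
            rw [hlen, L_succ, h3] at hs
            have := List.append_inj_right hs (by rw [L_len])
            simpa using this
          have h6 : N ≤ s'.length := by
            have h7 : (N:ℝ) < s'.length + 1 := by
              have : (0:ℝ) < 1 / ((k : ℝ) + 2) := by positivity
              linarith [not_lt.mp hx]
            have h8 : N < s'.length + 1 := by exact_mod_cast h7
            omega
          have h9 : k ≤ g s'.length := hk ▸ h _ h6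
          have h10 : (k:ℝ) ≤ g s'.length := by exact_mod_cast h9
          have h11 : 1 / ((g s'.length : ℝ) + 2) ≤ 1 / ((k : ℝ) + 2) := by
            apply one_div_le_one_div_of_le (by positivity)
            linarith
          linarith
  have hmem : ∀ (p : T E) (hp : p ∈ K E f), (⟨emb g N p.1, hok p hp⟩ : T E) ∈ K E g := by
    intro p hp y t ht
    change emb g N p.1 = v y t at ht
    cases h1 : p.1 with
    | u j x => rw [h1] at ht; cases ht
    | v x s =>
      rw [h1] at ht
      unfold emb at ht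
      by_cases hx : x < N
      · simp only [if_pos hx] at ht; cases ht
      · simp only [if_neg hx] at ht
        injection ht with h3 h4
        rw [← h4, L_len]
  refine ⟨OrderEmbedding.ofMapLEIff (fun p : K E f => (⟨⟨emb g N p.1.1, hok p.1 p.2⟩, hmem p.1 p.2⟩ : K E g)) ?_⟩
  rintro ⟨p, hp⟩ ⟨q, hq⟩
  have hL : ∀ {x y : ℝ} {s t : List ℕ}, emb g N p.1 = v x s → emb g N q.1 = v y t →
      (emb g N p.1 ≤ emb g N q.1 ↔ x ≤ y) :=
    fun e1 e2 => Kle (hmem p hp) (hmem q hq) e1 e2
  change emb g N p.1 ≤ emb g N q.1 ↔ p ≤ q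
  cases h1 : p.1 with
  | u j x =>
    cases h2 : q.1 with
    | u j' x' =>
      change _ ↔ p.1 ≤ q.1
      rw [h1, h2]
      unfold emb
      rw [uu, uu]
      constructor
      · rintro (h | ⟨h, h'⟩)
        · exact Or.inl (by omega)
        · exact Or.inr ⟨by omega, h'⟩
      · rintro (h | ⟨h, h'⟩)
        · exact Or.inl (by omega)
        · exact Or.inr ⟨by omega, h'⟩
    | v y t =>
      change _ ↔ p.1 ≤ q.1
      rw [h1, h2]
      unfold emb
      by_cases hy : y < N
      · simp only [if_pos hy]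
        rw [uu]
        exact ⟨fun _ => trivial, fun _ => Or.inl (by omega)⟩
      · simp only [if_neg hy]
        exact ⟨fun _ => trivial, fun _ => trivial⟩
  | v x s =>
    cases h2 : q.1 with
    | u j' x' =>
      change _ ↔ p.1 ≤ q.1
      rw [h1, h2]
      unfold emb
      by_cases hx : x < N
      · simp only [if_pos hx]
        rw [uu]
        constructor
        · rintro (h | ⟨h, h'⟩)
          · omega
          · omega
        · intro h; exact absurd h (vu _ _ _ _)
      · simp only [if_neg hx]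
        exact ⟨fun h => absurd h (vu _ _ _ _), fun h => absurd h (vu _ _ _ _)⟩
    | v y t =>
      rw [Kle hp hq h1 h2]
      by_cases hx : x < N
      · by_cases hy : y < N
        · unfold emb
          simp only [if_pos hx, if_pos hy]
          rw [uu]
          constructor
          · rintro (h | ⟨h, h'⟩)
            · omega
            · exact h'
          · intro h; exact Or.inr ⟨rfl, h⟩
        · unfold emb
          simp only [if_pos hx, if_neg hy]
          exact ⟨fun _ => by linarith [not_lt.mp hy], fun _ => trivial⟩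
      · by_cases hy : y < N
        · unfold emb
          simp only [if_neg hx, if_pos hy]
          exact ⟨fun h => absurd h (vu _ _ _ _), fun h => by linarith [not_lt.mp hx]⟩
        · have e1 : emb g N p.1 = v x (L g s.length) := by
            rw [h1]; unfold emb; simp only [if_neg hx]
          have e2 : emb g N q.1 = v y (L g t.length) := by
            rw [h2]; unfold emb; simp only [if_neg hy]
          have h3 := hL e1 e2
          rw [h1, h2] at h3
          exact h3

/-- real component -/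
def rl : W → ℝ
  | u _ x => x
  | v x _ => x

/-- level -/
def jj : W → ℕ
  | u j _ => j
  | v _ _ => 0

theorem F2 (E : Set ℝ) (hE : ∀ a b : ℝ, a < b → ∃ x ∈ E, a < x ∧ x < b)
    (hR : ∀ a b : ℝ, a < b → ∀ φ : ℝ → ℝ, (∀ x ∈ E ∩ Set.Ioo a b, φ x ∈ E) →
      StrictMonoOn φ (E ∩ Set.Ioo a b) → ∃ x ∈ E ∩ Set.Ioo a b, φ x = x)
    (f : ℕ → ℕ) : ¬ Nonempty (K E (fun n => f n + 1) ↪o K E f) := by
  classical
  rintro ⟨h⟩
  let f' : ℕ → ℕ := fun n => f n + 1
  let D : Set ℝ := {x | x ∈ E ∧ ∃ n : ℕ, (n : ℝ) < x ∧ x < n + 1 - 1 / ((f n : ℝ) + 3)}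
  have hpt : ∀ x : ℝ, ∃ P : W, x ∈ D → (ok E P ∧ (∀ y s, P = v y s → s = L f' s.length) ∧ ∃ s, P = v x s) := by
    intro x
    by_cases hx : x ∈ D
    · obtain ⟨hxE, n, h1, h2⟩ := hx
      refine ⟨v x (L f' (n+1)), fun _ => ⟨⟨hxE, L f' n, f' n, L_succ f' n, by rw [L_len]; exact h1, ?_⟩, ?_, _, rfl⟩⟩
      · rw [L_len]
        have : ((f' n : ℕ) : ℝ) + 2 = (f n : ℝ) + 3 := by simp only [f']; push_cast; ring
        rw [this]; exact h2
      · intro y s hs
        injection hs with h3 h4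
        rw [← h4, L_len]
    · exact ⟨u 0 0, fun h => absurd h hx⟩
  choose P hP using hpt
  let Q : ∀ x, x ∈ D → K E f' := fun x hx => ⟨⟨P x, (hP x hx).1⟩, (hP x hx).2.1⟩
  let Φ : ℝ → W := fun x => if hx : x ∈ D then (h (Q x hx)).1.1 else u 0 0
  have hΦ : ∀ x (hx : x ∈ D), Φ x = (h (Q x hx)).1.1 := fun x hx => dif_pos hx
  have hmono : ∀ x ∈ D, ∀ y ∈ D, Φ x ≤ Φ y ↔ x ≤ y := by
    intro x hx y hy
    rw [hΦ x hx, hΦ y hy]
    have h1 : (h (Q x hx)) ≤ (h (Q y hy)) ↔ Q x hx ≤ Q y hy := h.le_iff_le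
    obtain ⟨s, hs⟩ := (hP x hx).2.2
    obtain ⟨t, ht⟩ := (hP y hy).2.2
    have h2 := Kle (hp := (Q x hx).2) (hq := (Q y hy).2) (x := x) (y := y) (s := s) (t := t) hs ht
    exact h1.trans h2
  have hΦok : ∀ x ∈ D, ok E (Φ x) := by
    intro x hx; rw [hΦ x hx]; exact (h (Q x hx)).1.2
  have hΦK : ∀ x ∈ D, ∀ y s, Φ x = v y s → s = L f s.length := by
    intro x hx y s hs; rw [hΦ x hx] at hs; exact (h (Q x hx)).2 y s hs
  have hrl : ∀ p : W, ok E p → rl p ∈ E := by
    intro p hp
    cases p with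
    | u j x => exact hp.1
    | v x s => exact hp.1
  -- good start
  obtain ⟨x0, j0, hx0⟩ : ∃ (x0 : ℝ) (j0 : ℕ), ∀ x ∈ D, x0 < x → ∀ y ∈ D, x0 < y → x < y →
      (rl (Φ x) < rl (Φ y) ∧ ((∃ s, Φ x = v (rl (Φ x)) s) ∨ rl (Φ x) < j0)) := by
    by_cases hA : ∃ x0 ∈ D, ∃ y s, Φ x0 = v y s
    · obtain ⟨x0, hx0, y0, s0, hv⟩ := hA
      have hall : ∀ x ∈ D, x0 < x → ∃ y s, Φ x = v y s := by
        intro x hx hlt
        have h1 := (hmono x0 hx0 x hx).mpr hlt.le
        rw [hv] at h1
        cases h2 : Φ x with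
        | u j y => rw [h2] at h1; exact absurd h1 (vu _ _ _ _)
        | v y s => exact ⟨y, s, rfl⟩
      refine ⟨x0, 0, fun x hx hlx y hy hly hxy => ?_⟩
      obtain ⟨a, s, h1⟩ := hall x hx hlx
      obtain ⟨b, t, h2⟩ := hall y hy hly
      refine ⟨?_, Or.inl ⟨s, by rw [h1]; rfl⟩⟩
      rw [h1, h2]
      change a < b
      by_contra hcon
      push Not at hcon
      have hok1 : ok E (v a s) := h1 ▸ hΦok x hx
      have hok2 : ok E (v b t) := h2 ▸ hΦok y hy
      have h3 : Φ y ≤ Φ x := by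
        rw [h1, h2]
        refine ⟨hcon, ?_⟩
        rw [hΦK x hx a s h1, hΦK y hy b t h2]
        exact L_prefix f (len_le hok2 hok1 hcon)
      rw [hmono y hy x hx] at h3
      linarith
    · push Not at hA
      have hall : ∀ x ∈ D, Φ x = u (jj (Φ x)) (rl (Φ x)) := by
        intro x hx
        cases h1 : Φ x with
        | u j y => rfl
        | v y s => exact absurd h1 (hA x hx y s)
      have hDne : ∃ j, ∃ x ∈ D, jj (Φ x) = j := by
        have h2 : (0:ℝ) < 1 - 1 / ((f 0 : ℝ) + 3) := by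
          rw [sub_pos, div_lt_one (by positivity)]
          have : (0:ℝ) ≤ f 0 := Nat.cast_nonneg _
          linarith
        obtain ⟨x, hxE, h3, h4⟩ := hE 0 _ h2
        exact ⟨_, x, ⟨hxE, 0, by simpa using h3, by push_cast; linarith⟩, rfl⟩
      obtain ⟨x0, hx0D, hx0⟩ := Nat.find_spec hDne
      have hmin : ∀ x ∈ D, jj (Φ x0) ≤ jj (Φ x) := by
        intro x hx
        rw [hx0]
        exact Nat.find_min' hDne ⟨x, hx, rfl⟩
      have hj : ∀ x ∈ D, x0 < x → jj (Φ x) = jj (Φ x0) := by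
        intro x hx hlt
        have h1 := (hmono x0 hx0D x hx).mpr hlt.le
        rw [hall x0 hx0D, hall x hx, uu] at h1
        have := hmin x hx
        omega
      refine ⟨x0, jj (Φ x0), fun x hx hlx y hy hly hxy => ?_⟩
      have h1 := hj x hx hlx
      have h2 := hj y hy hly
      refine ⟨?_, Or.inr ?_⟩
      · by_contra hcon
        push Not at hcon
        have h3 : Φ y ≤ Φ x := by
          rw [hall x hx, hall y hy, uu]
          exact Or.inr ⟨by rw [h1, h2], hcon⟩
        rw [hmono y hy x hx] at h3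
        linarith
      · have h3 := hΦok x hx
        rw [hall x hx] at h3
        have h4 := h3.2.2
        rw [h1] at h4
        exact h4
  obtain ⟨n, hn⟩ := exists_nat_gt (max x0 j0)
  have hn1 : x0 < n := lt_of_le_of_lt (le_max_left _ _) hn
  have hn2 : (j0 : ℝ) < n := lt_of_le_of_lt (le_max_right _ _) hn
  have hfn : (0:ℝ) ≤ f n := Nat.cast_nonneg _
  have hab : (n : ℝ) + 1 - 1 / ((f n : ℝ) + 2) < (n : ℝ) + 1 - 1 / ((f n : ℝ) + 3) := by
    have : 1 / ((f n : ℝ) + 3) < 1 / ((f n : ℝ) + 2) := by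
      apply one_div_lt_one_div_of_lt (by positivity); linarith
    linarith
  have hna : (n : ℝ) < (n : ℝ) + 1 - 1 / ((f n : ℝ) + 2) := by
    have : 1 / ((f n : ℝ) + 2) < 1 := by
      rw [div_lt_one (by positivity)]; linarith
    linarith
  have hsub : ∀ x ∈ E ∩ Set.Ioo ((n : ℝ) + 1 - 1 / ((f n : ℝ) + 2)) ((n : ℝ) + 1 - 1 / ((f n : ℝ) + 3)),
      x ∈ D ∧ x0 < x := by
    rintro x ⟨hxE, hx1, hx2⟩
    exact ⟨⟨hxE, n, hna.trans hx1, hx2⟩, hn1.trans (hna.trans hx1)⟩
  have hbig : ∀ x ∈ D, ∃ y ∈ D, x < y := by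
    intro x hx
    obtain ⟨m, hm⟩ := exists_nat_gt x
    have hfm : (0:ℝ) ≤ f m := Nat.cast_nonneg _
    have h2 : (0:ℝ) < 1 - 1 / ((f m : ℝ) + 3) := by
      rw [sub_pos, div_lt_one (by positivity)]
      linarith
    obtain ⟨y, hyE, h3, h4⟩ := hE m (m + 1 - 1 / ((f m : ℝ) + 3)) (by linarith)
    exact ⟨y, ⟨hyE, m, h3, h4⟩, hm.trans h3⟩
  obtain ⟨x, hx, hfix⟩ := hR _ _ hab (fun x => rl (Φ x)) (fun x hx => hrl _ (hΦok x (hsub x hx).1))
    (fun x hx y hy hxy => (hx0 x (hsub x hx).1 (hsub x hx).2 y (hsub y hy).1 (hsub y hy).2 hxy).1)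
  change rl (Φ x) = x at hfix
  obtain ⟨hxD, hxx0⟩ := hsub x hx
  obtain ⟨y, hyD, hxy⟩ := hbig x hxD
  rcases (hx0 x hxD hxx0 y hyD (hxx0.trans hxy) hxy).2 with ⟨s, hs⟩ | hs
  · rw [hfix] at hs
    have h3 := hΦok x hxD
    have h4 := hΦK x hxD x s hs
    rw [hs] at h3
    obtain ⟨_, s', k, rfl, h5, h6⟩ := h3
    have h7 : k = f s'.length := by
      have hlen : (s' ++ [k]).length = s'.length + 1 := by simp
      rw [hlen, L_succ] at h4
      have := List.append_inj_right h4 (by rw [L_len])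
      simpa using this
    have h8 : (0:ℝ) < 1 / ((k : ℝ) + 2) := by positivity
    have h9 : (0:ℝ) < 1 / ((f n : ℝ) + 3) := by positivity
    have h10 : (n : ℝ) < s'.length + 1 := by linarith [hx.2.1]
    have h11 : (s'.length : ℝ) < n + 1 := by linarith [hx.2.2]
    have h12 : n = s'.length := by
      have h13 : n < s'.length + 1 := by exact_mod_cast h10
      have h14 : s'.length < n + 1 := by exact_mod_cast h11
      omega
    rw [h7, ← h12] at h6
    linarith [hx.2.1]
  · rw [hfix] at hs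
    linarith [hx.2.1]

/-- The negation of the preceding statement: Let T be a tree that is a countable union of chains. Order its maximal chains by order-embeddability. Then every maximal linearly ordered family of such chains has a countable cofinal subfamily: every member embeds into one of countably many members. -/
theorem result :
    ¬ (∀ (T : Type) [PartialOrder T],
      (∀ x : T, IsChain (· ≤ ·) {y : T | y < x}) →
      (∃ f : ℕ → Set T, (∀ n, IsChain (· ≤ ·) (f n)) ∧ (⋃ n, f n) = Set.univ) →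
      ∀ S : Set (Set T),
        (∀ c ∈ S, IsMaxChain (· ≤ ·) c) →
        IsChain (fun c d : Set T => Nonempty (↥c ↪o ↥d)) S →
        (∀ U : Set (Set T), (∀ c ∈ U, IsMaxChain (· ≤ ·) c) →
            IsChain (fun c d : Set T => Nonempty (↥c ↪o ↥d)) U → S ⊆ U → U = S) →
        ∃ D : Set (Set T), D ⊆ S ∧ D.Countable ∧
          ∀ c ∈ S, ∃ d ∈ D, Nonempty (↥c ↪o ↥d)) := by
  classical
  intro H
  obtain ⟨E, hE, hR⟩ := RigidE.exists_E
  let r : (ℕ → ℕ) → (ℕ → ℕ) → Prop := fun f g => Nonempty (K E f ↪o K E g)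
  have htrans : ∀ {a b c : ℕ → ℕ}, r a b → r b c → r a c := by
    rintro a b c ⟨h1⟩ ⟨h2⟩
    exact ⟨h1.trans h2⟩
  obtain ⟨c, hc, hcub⟩ : ∃ c : Set (ℕ → ℕ), IsChain r c ∧ ∀ ub, ∃ a ∈ c, ¬ r a ub := by
    by_contra hcon
    push Not at hcon
    obtain ⟨m, hm⟩ := exists_maximal_of_chains_bounded (r := r) hcon htrans
    have h1 : r m (fun n => m n + 1) := F1 E m _ 0 (fun n _ => Nat.le_succ _)
    exact F2 E hE hR m (hm _ h1)
  obtain ⟨M, hM, hcM⟩ := hc.exists_maxChain
  have hKinj : ∀ f g, K E f = K E g → f = g := fun f g h => K_le_eq hE h.subset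
  have key := H (T E) (fun x => fun p hp q hq _ => below p q x (le_of_lt hp) (le_of_lt hq)) ?_
    (K E '' M) ?_ ?_ ?_
  · obtain ⟨D, hDS, hDc, hDcof⟩ := key
    have hMne : M.Nonempty := by
      obtain ⟨a, ha, _⟩ := hcub 0
      exact ⟨a, hcM ha⟩
    have hDne : D.Nonempty := by
      obtain ⟨a, ha⟩ := hMne
      obtain ⟨d, hd, _⟩ := hDcof (K E a) ⟨a, ha, rfl⟩
      exact ⟨d, hd⟩
    obtain ⟨e, he⟩ := hDc.exists_eq_range hDne
    have hch : ∀ n, ∃ f, K E f = e n := by
      intro n
      have : e n ∈ D := by rw [he]; exact ⟨n, rfl⟩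
      obtain ⟨f, _, hf⟩ := hDS this
      exact ⟨f, hf⟩
    choose F hF using hch
    let g : ℕ → ℕ := fun k => ∑ n ∈ Finset.range (k+1), F n k
    have hg : ∀ n, r (F n) g := by
      intro n
      refine F1 E (F n) g n (fun k hk => ?_)
      exact Finset.single_le_sum (f := fun n => F n k) (fun _ _ => Nat.zero_le _)
        (Finset.mem_range.mpr (by omega))
    obtain ⟨a, ha, hna⟩ := hcub g
    apply hna
    obtain ⟨d, hd, hed⟩ := hDcof (K E a) ⟨a, hcM ha, rfl⟩
    rw [he] at hd
    obtain ⟨n, rfl⟩ := hd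
    rw [← hF n] at hed
    exact htrans hed (hg n)
  · refine ⟨fun n => if n = 0 then {p | ∃ j x, p.1 = u j x} else
      {p | ∃ x s, p.1 = v x s ∧ Encodable.encode s + 1 = n}, ?_, ?_⟩
    · intro n
      by_cases hn : n = 0
      · simp only [if_pos hn]
        rintro p ⟨j, x, hp⟩ q ⟨j', x', hq⟩ _
        exact total_u p q j j' x x' hp hq
      · simp only [if_neg hn]
        rintro p ⟨x, s, hp, hs⟩ q ⟨y, t, hq, ht⟩ _
        have hst : s = t := Encodable.encode_injective (by omega)
        subst hst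
        change p.1 ≤ q.1 ∨ q.1 ≤ p.1
        rw [hp, hq, vv, vv]
        rcases le_total x y with h | h
        · exact Or.inl ⟨h, List.prefix_rfl⟩
        · exact Or.inr ⟨h, List.prefix_rfl⟩
    · rw [Set.eq_univ_iff_forall]
      intro p
      rw [Set.mem_iUnion]
      cases hp : p.1 with
      | u j x => exact ⟨0, by simp only [if_pos]; exact ⟨j, x, hp⟩⟩
      | v x s =>
        refine ⟨Encodable.encode s + 1, ?_⟩
        simp only [if_neg (Nat.succ_ne_zero _)]
        exact ⟨x, s, hp, rfl⟩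
  · rintro _ ⟨f, _, rfl⟩
    exact K_max hE f
  · rintro _ ⟨f, hf, rfl⟩ _ ⟨g, hg, rfl⟩ hne
    exact hM.1 hf hg (fun h => hne (by rw [h]))
  · intro U hU1 hU2 hSU
    have hM' : IsChain r {f | K E f ∈ U} := by
      intro f hf g hg hne
      exact hU2 hf hg (fun h => hne (hKinj f g h))
    have hMM : M = {f | K E f ∈ U} := hM.2 hM' (fun f hf => hSU ⟨f, hf, rfl⟩)
    refine Set.Subset.antisymm ?_ hSU
    intro c hc
    obtain ⟨f, rfl⟩ := max_eq c (hU1 c hc)
    refine ⟨f, ?_, rfl⟩
    rw [hMM]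
    exact hc

end Pool.Agent.S10674
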