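import Pool.Statements.S10730
import Pool.Agent.OracleUse

set_option autoImplicit false
open Pool Pool.MP_efd717_lc

namespace Pool.Agent.S10730

open Pool.Agent.OracleUse

/-- other elements of the triple -/
def u (x : ℕ) : ℕ := 3 * (x / 3) + (x + 1) % 3
/-- other elements of the triple -/
def w (x : ℕ) : ℕ := 3 * (x / 3) + (x + 2) % 3

/-- the parameter space -/
abbrev Y := ℕ → Bool × Bool

/-- the set coded by a parameter -/
def T (y : Y) (n : ℕ) : Bool :=
  if n % 3 = 0 then (y (n/3)).1 else if n % 3 = 1 then (y (n/3)).2 else xor (y (n/3)).1 (y (n/3)).2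

theorem T0 (y : Y) (k : ℕ) : T y (3 * k) = (y k).1 := by
  have h1 : 3 * k % 3 = 0 := by omega
  have h2 : 3 * k / 3 = k := by omega
  simp [T, h1, h2]

theorem T1 (y : Y) (k : ℕ) : T y (3 * k + 1) = (y k).2 := by
  have h1 : (3 * k + 1) % 3 = 1 := by omega
  have h2 : (3 * k + 1) / 3 = k := by omega
  simp [T, h1, h2]

theorem T2 (y : Y) (k : ℕ) : T y (3 * k + 2) = xor (y k).1 (y k).2 := by
  have h1 : (3 * k + 2) % 3 = 2 := by omega
  have h2 : (3 * k + 2) / 3 = k := by omega
  simp [T, h1, h2]

theorem split3 (x : ℕ) : ∃ k, x = 3 * k ∨ x = 3 * k + 1 ∨ x = 3 * k + 2 :=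
  ⟨x / 3, by omega⟩

theorem T_rel (y : Y) (x : ℕ) : T y x = xor (T y (u x)) (T y (w x)) := by
  obtain ⟨k, rfl | rfl | rfl⟩ := split3 x
  · have h1 : u (3 * k) = 3 * k + 1 := by unfold u; omega
    have h2 : w (3 * k) = 3 * k + 2 := by unfold w; omega
    rw [h1, h2, T0, T1, T2]
    cases (y k).1 <;> cases (y k).2 <;> rfl
  · have h1 : u (3 * k + 1) = 3 * k + 2 := by unfold u; omega
    have h2 : w (3 * k + 1) = 3 * k := by unfold w; omega
    rw [h1, h2, T0, T1, T2]
    cases (y k).1 <;> cases (y k).2 <;> rfl
  · have h1 : u (3 * k + 2) = 3 * k := by unfold u; omega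
    have h2 : w (3 * k + 2) = 3 * k + 1 := by unfold w; omega
    rw [h1, h2, T0, T1, T2]

theorem u_ne (x : ℕ) : u x ≠ x := by unfold u; omega
theorem w_ne (x : ℕ) : w x ≠ x := by unfold w; omega

/-- `S` has at most one element in the triple -/
def few (S : ℕ → Bool) (k : ℕ) : Prop :=
  (S (3*k) = false ∧ S (3*k+1) = false) ∨ (S (3*k) = false ∧ S (3*k+2) = false) ∨
    (S (3*k+1) = false ∧ S (3*k+2) = false)

theorem few_or (S : ℕ → Bool) (k : ℕ) : few S k ∨ few (fun n => !S n) k := by
  unfold few
  cases h0 : S (3*k) <;> cases h1 : S (3*k+1) <;> cases h2 : S (3*k+2) <;> simp [h0, h1, h2]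

theorem flip (y : Y) (k : ℕ) (S : ℕ → Bool) (h : few S k) :
    ∃ (y' : Y) (z : ℕ), (∀ j, j ≠ k → y' j = y j) ∧ T y' z ≠ T y z ∧
      (∀ n, (T y' n && S n) = (T y n && S n)) := by
  have hoff : ∀ (p : Bool × Bool) (n j : ℕ), j ≠ k → (n = 3 * j ∨ n = 3 * j + 1 ∨ n = 3 * j + 2) →
      T (Function.update y k p) n = T y n := by
    intro p n j hj hn
    rcases hn with rfl | rfl | rfl
    · rw [T0, T0, Function.update_of_ne hj]
    · rw [T1, T1, Function.update_of_ne hj]
    · rw [T2, T2, Function.update_of_ne hj]
  have main : ∀ (p : Bool × Bool), (p.1 = (y k).1 ∨ S (3*k) = false) → (p.2 = (y k).2 ∨ S (3*k+1) = false) →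
      (xor p.1 p.2 = xor (y k).1 (y k).2 ∨ S (3*k+2) = false) →
      ∀ n, (T (Function.update y k p) n && S n) = (T y n && S n) := by
    intro p h0 h1 h2 n
    obtain ⟨j, hj⟩ := split3 n
    by_cases hjk : j = k
    · subst hjk
      rcases hj with rfl | rfl | rfl
      · rw [T0, T0, Function.update_self]
        rcases h0 with h | h
        · rw [h]
        · rw [h]; simp
      · rw [T1, T1, Function.update_self]
        rcases h1 with h | h
        · rw [h]
        · rw [h]; simp
      · rw [T2, T2, Function.update_self]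
        rcases h2 with h | h
        · rw [h]
        · rw [h]; simp
    · rw [hoff p n j hjk hj]
  rcases h with ⟨ha, hb⟩ | ⟨ha, hb⟩ | ⟨ha, hb⟩
  · refine ⟨Function.update y k (!(y k).1, !(y k).2), 3 * k, fun j hj => Function.update_of_ne hj _ _, ?_, ?_⟩
    · rw [T0, T0, Function.update_self]; simp
    · exact main _ (Or.inr ha) (Or.inr hb) (Or.inl (by simp))
  · refine ⟨Function.update y k (!(y k).1, (y k).2), 3 * k, fun j hj => Function.update_of_ne hj _ _, ?_, ?_⟩
    · rw [T0, T0, Function.update_self]; simp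
    · exact main _ (Or.inr ha) (Or.inl rfl) (Or.inr hb)
  · refine ⟨Function.update y k ((y k).1, !(y k).2), 3 * k + 1, fun j hj => Function.update_of_ne hj _ _, ?_, ?_⟩
    · rw [T1, T1, Function.update_self]; simp
    · exact main _ (Or.inl rfl) (Or.inr ha) (Or.inr hb)

theorem cont_T : Continuous T := by
  refine continuous_pi (fun n => ?_)
  have : (fun y : Y => T y n) = (fun p : Bool × Bool => if n % 3 = 0 then p.1 else if n % 3 = 1 then p.2
      else xor p.1 p.2) ∘ (fun y : Y => y (n/3)) := by
    funext y; rfl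
  rw [this]
  exact (continuous_of_discreteTopology).comp (continuous_apply _)

theorem cont_TS (S : ℕ → Bool) : Continuous (fun (y : Y) (n : ℕ) => (T y n && S n)) := by
  refine continuous_pi (fun n => ?_)
  have : (fun y : Y => (T y n && S n)) = (fun b : Bool => (b && S n)) ∘ (fun y : Y => T y n) := by
    funext y; rfl
  rw [this]
  exact (continuous_of_discreteTopology).comp ((continuous_apply n).comp cont_T)

/-- wrong computations -/
def U (S : ℕ → Bool) (c : Cd) : Set Y :=
  {y | ∃ z v, v ∈ ev c (orc (fun n => (T y n && S n))) z ∧ v ≠ Bool.toNat (T y z)}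

theorem open_U (S : ℕ → Bool) (c : Cd) : IsOpen (U S c) := by
  have : U S c = ⋃ z, ⋃ v, ((fun (y : Y) (n : ℕ) => (T y n && S n)) ⁻¹' {A | v ∈ ev c (orc A) z}) ∩
      ((fun y : Y => T y z) ⁻¹' {b | v ≠ Bool.toNat b}) := by
    ext y
    simp [U]
  rw [this]
  refine isOpen_iUnion fun z => isOpen_iUnion fun v => IsOpen.inter ?_ ?_
  · exact (isOpen_ev c z v).preimage (cont_TS S)
  · exact (isOpen_discrete _).preimage ((continuous_apply z).comp cont_T)

/-- the dense open set -/
def W (S : ℕ → Bool) (c : Cd) : Set Y := U S c ∪ interior (U S c)ᶜ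

theorem open_W (S : ℕ → Bool) (c : Cd) : IsOpen (W S c) := (open_U S c).union isOpen_interior

theorem dense_W (S : ℕ → Bool) (c : Cd) : Dense (W S c) := by
  intro y
  by_cases hy : y ∈ closure (U S c)
  · exact closure_mono Set.subset_union_left hy
  · apply subset_closure
    right
    rw [interior_compl]
    exact hy

theorem key (S : ℕ → Bool) (c : Cd) (hS : ∀ N, ∃ k ≥ N, few S k) (y : Y) (hy : y ∈ W S c) :
    ev c (orc (fun n => (T y n && S n))) ≠ orc (T y) := by
  intro heq
  rcases hy with hy | hy
  · obtain ⟨z, v, hv, hne⟩ := hy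
    rw [heq] at hv
    exact hne (Part.mem_some_iff.mp hv)
  · obtain ⟨I, O, hO, hsub⟩ := isOpen_pi_iff.mp isOpen_interior y hy
    obtain ⟨k, hk, hfew⟩ := hS (I.sup id + 1)
    obtain ⟨y', z, h1, h2, h3⟩ := flip y k S hfew
    have hy' : y' ∈ (U S c)ᶜ := by
      apply interior_subset
      apply hsub
      intro i hi
      have hik : i ≠ k := by
        rintro rfl
        have : i ≤ I.sup id := Finset.le_sup (f := id) (Finset.mem_coe.mp hi)
        omega
      rw [h1 i hik]
      exact (hO i (Finset.mem_coe.mp hi)).2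
    apply hy'
    refine ⟨z, Bool.toNat (T y z), ?_, ?_⟩
    · have : (fun n => (T y' n && S n)) = (fun n => (T y n && S n)) := funext h3
      rw [this, heq]
      exact Part.mem_some _
    · intro h
      have : T y z = T y' z := by
        revert h
        cases T y z <;> cases T y' z <;> simp
      exact h2 this.symm

open Classical in
/-- the Boolean function of a code -/
noncomputable def SS (d : Nat.Partrec.Code) : ℕ → Bool := fun n => decide (1 ∈ d.eval n)

theorem exists_SS (S : ℕ → Bool) (hS : Computable S) : ∃ d, SS d = S := by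
  obtain ⟨d, hd⟩ := Nat.Partrec.Code.exists_code.mp hS
  refine ⟨d, ?_⟩
  funext n
  have h : d.eval n = Part.some (Encodable.encode (S n)) := by
    rw [hd]
    simp
  unfold SS
  rw [h]
  cases hSn : S n <;> simp

/-- the autoreduction -/
def R (t : List ℕ × List ℕ × ℕ × Bool) : Prop :=
  t = ([u t.2.2.1, w t.2.2.1], [], t.2.2.1, false) ∨
  t = ([u t.2.2.1], [w t.2.2.1], t.2.2.1, true) ∨
  t = ([w t.2.2.1], [u t.2.2.1], t.2.2.1, true) ∨
  t = ([], [u t.2.2.1, w t.2.2.1], t.2.2.1, false)

theorem prim_u : Primrec u := by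
  unfold u
  exact Primrec.nat_add.comp (Primrec.nat_mul.comp (Primrec.const 3) (Primrec.nat_div.comp Primrec.id (Primrec.const 3)))
    (Primrec.nat_mod.comp (Primrec.nat_add.comp Primrec.id (Primrec.const 1)) (Primrec.const 3))

theorem prim_w : Primrec w := by
  unfold w
  exact Primrec.nat_add.comp (Primrec.nat_mul.comp (Primrec.const 3) (Primrec.nat_div.comp Primrec.id (Primrec.const 3)))
    (Primrec.nat_mod.comp (Primrec.nat_add.comp Primrec.id (Primrec.const 2)) (Primrec.const 3))

theorem re_R : REPred R := by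
  apply ComputablePred.to_re
  apply PrimrecPred.computablePred
  have hx : Primrec (fun t : List ℕ × List ℕ × ℕ × Bool => t.2.2.1) :=
    Primrec.fst.comp (Primrec.snd.comp Primrec.snd)
  have hu := prim_u.comp hx
  have hw := prim_w.comp hx
  have l1 : ∀ {f : List ℕ × List ℕ × ℕ × Bool → ℕ}, Primrec f → Primrec (fun t => [f t]) := fun hf =>
    Primrec.list_cons.comp hf (Primrec.const [])
  have l2 : ∀ {f g : List ℕ × List ℕ × ℕ × Bool → ℕ}, Primrec f → Primrec g → Primrec (fun t => [f t, g t]) :=
    fun hf hg => Primrec.list_cons.comp hf (l1 hg)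
  unfold R
  refine PrimrecPred.or ?_ (PrimrecPred.or ?_ (PrimrecPred.or ?_ ?_))
  · exact Primrec.eq.comp Primrec.id ((l2 hu hw).pair ((Primrec.const []).pair (hx.pair (Primrec.const false))))
  · exact Primrec.eq.comp Primrec.id ((l1 hu).pair ((l1 hw).pair (hx.pair (Primrec.const true))))
  · exact Primrec.eq.comp Primrec.id ((l1 hw).pair ((l1 hu).pair (hx.pair (Primrec.const true))))
  · exact Primrec.eq.comp Primrec.id ((Primrec.const []).pair ((l2 hu hw).pair (hx.pair (Primrec.const false))))

/-- The negation of the preceding statement: Every nontrivial set A of naturals that is Turing-autoreducible (A(x) computable from A by a procedure never querying x) is Turing-mitotic: some computable S has A∩S and A minus S both Turing-equivalent to A. -/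
theorem result :
    ¬ (∀ A : ℕ → Bool, (∃ n, A n = true) → (∃ n, A n = false) →
      (∃ R : List ℕ × List ℕ × ℕ × Bool → Prop, REPred R ∧
        ∀ x : ℕ,
          (∃ P N : List ℕ, ∃ b : Bool, R (P, N, x, b) ∧
              (∀ y ∈ P, y ≠ x ∧ A y = true) ∧ (∀ y ∈ N, y ≠ x ∧ A y = false)) ∧
          (∀ P N : List ℕ, ∀ b : Bool, R (P, N, x, b) →
              (∀ y ∈ P, y ≠ x ∧ A y = true) → (∀ y ∈ N, y ≠ x ∧ A y = false) →
              b = A x)) →
      ∃ S : ℕ → Bool, Computable S ∧
        TuringEquivalent (fun n => Part.some (Bool.toNat (A n && S n)))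
          (fun n => Part.some (Bool.toNat (A n))) ∧
        TuringEquivalent (fun n => Part.some (Bool.toNat (A n && !S n)))
          (fun n => Part.some (Bool.toNat (A n)))) := by
  intro H
  have hd : Dense (⋂ p : Cd × Nat.Partrec.Code, W (SS p.2) p.1) :=
    dense_iInter_of_isOpen (fun p => open_W _ _) (fun p => dense_W _ _)
  obtain ⟨y, hy⟩ := hd.nonempty
  simp only [Set.mem_iInter] at hy
  -- no good splitting
  have hno : ¬ ∃ S : ℕ → Bool, Computable S ∧
        TuringEquivalent (fun n => Part.some (Bool.toNat (T y n && S n)))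
          (fun n => Part.some (Bool.toNat (T y n))) ∧
        TuringEquivalent (fun n => Part.some (Bool.toNat (T y n && !S n)))
          (fun n => Part.some (Bool.toNat (T y n))) := by
    rintro ⟨S, hS, h1, h2⟩
    have hnS : Computable (fun n => !S n) := (Primrec.not.to_comp).comp hS
    have aux : ∀ S' : ℕ → Bool, Computable S' →
        TuringEquivalent (fun n => Part.some (Bool.toNat (T y n && S' n)))
          (fun n => Part.some (Bool.toNat (T y n))) → ¬ (∀ N, ∃ k ≥ N, few S' k) := by
      intro S' hS' he hf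
      obtain ⟨d, rfl⟩ := exists_SS S' hS'
      have h3 := RecursiveIn.iff_nat.mp he.2
      obtain ⟨c, hc⟩ := exists_code h3
      exact key _ c hf y (hy (c, d)) hc
    have ha := aux S hS h1
    have hb := aux _ hnS h2
    push Not at ha hb
    obtain ⟨N1, h3⟩ := ha
    obtain ⟨N2, h4⟩ := hb
    rcases few_or S (max N1 N2) with h | h
    · exact h3 _ (le_max_left _ _) h
    · exact h4 _ (le_max_right _ _) h
  apply hno
  apply H
  · by_contra hall
    push Not at hall
    have hz : ∀ n, T y n = false := fun n => by simpa using hall n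
    apply hno
    refine ⟨fun _ => false, Computable.const false, ?_, ?_⟩
    · have : (fun n => Part.some (Bool.toNat (T y n && false))) = (fun n => Part.some (Bool.toNat (T y n))) := by
        funext n; simp [hz n]
      rw [this]
      try exact TuringEquivalent.refl _
    · have : (fun n => Part.some (Bool.toNat (T y n && !false))) = (fun n => Part.some (Bool.toNat (T y n))) := by
        funext n; simp
      rw [this]
      try exact TuringEquivalent.refl _
  · by_contra hall
    push Not at hall
    have hz : ∀ n, T y n = true := fun n => by simpa using hall n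
    have := T_rel y 0
    rw [hz, hz, hz] at this
    simp at this
  · refine ⟨R, re_R, fun x => ⟨?_, ?_⟩⟩
    · have hrel := T_rel y x
      have hu := u_ne x
      have hw := w_ne x
      cases hTu : T y (u x) <;> cases hTw : T y (w x)
      · exact ⟨[], [u x, w x], false, Or.inr (Or.inr (Or.inr rfl)), by simp, by simp [hu, hw, hTu, hTw]⟩
      · exact ⟨[w x], [u x], true, Or.inr (Or.inr (Or.inl rfl)), by simp [hw, hTw], by simp [hu, hTu]⟩
      · exact ⟨[u x], [w x], true, Or.inr (Or.inl rfl), by simp [hu, hTu], by simp [hw, hTw]⟩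
      · exact ⟨[u x, w x], [], false, Or.inl rfl, by simp [hu, hw, hTu, hTw], by simp⟩
    · intro P N b hR hP hN
      have hrel := T_rel y x
      rcases hR with h | h | h | h
      · simp only [Prod.mk.injEq] at h
        obtain ⟨rfl, rfl, -, rfl⟩ := h
        have h1 := (hP (u x) (by simp)).2
        have h2 := (hP (w x) (by simp)).2
        rw [h1, h2] at hrel
        simp [hrel]
      · simp only [Prod.mk.injEq] at h
        obtain ⟨rfl, rfl, -, rfl⟩ := h
        have h1 := (hP (u x) (by simp)).2
        have h2 := (hN (w x) (by simp)).2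
        rw [h1, h2] at hrel
        simp [hrel]
      · simp only [Prod.mk.injEq] at h
        obtain ⟨rfl, rfl, -, rfl⟩ := h
        have h1 := (hN (u x) (by simp)).2
        have h2 := (hP (w x) (by simp)).2
        rw [h1, h2] at hrel
        simp [hrel]
      · simp only [Prod.mk.injEq] at h
        obtain ⟨rfl, rfl, -, rfl⟩ := h
        have h1 := (hN (u x) (by simp)).2
        have h2 := (hN (w x) (by simp)).2
        rw [h1, h2] at hrel
        simp [hrel]

end Pool.Agent.S10730
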