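import Mathlib
set_option autoImplicit false
namespace Pool.MP_65dae3_an.Aux
open Finset

lemma digits (B : ℤ) (hB : 0 < B) : ∀ (n : ℕ) (d : ℕ → ℤ) (e : ℤ), (∀ i < n, 2 * |d i| < B) →
    ∑ i ∈ range n, d i * B^i + B^n * e = 0 → (∀ i < n, d i = 0) ∧ e = 0 := by
  intro n
  induction n with
  | zero =>
    intro d e _ h
    simp at h
    exact ⟨by intro i hi; omega, h⟩
  | succ n ih =>
    intro d e hd h
    rw [Finset.sum_range_succ'] at h
    have hd0 : d 0 = - B * (∑ i ∈ range n, d (i+1) * B^i + B^n * e) := by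
      have e1 : B * ∑ i ∈ range n, d (i+1) * B^i = ∑ i ∈ range n, d (i+1) * B^(i+1) := by
        rw [Finset.mul_sum]; apply Finset.sum_congr rfl; intro i _; ring
      simp only [pow_zero, mul_one] at h
      have e2 : B^(n+1) * e = B * (B^n * e) := by ring
      linarith
    have h0 : B ∣ d 0 := ⟨-(∑ i ∈ range n, d (i+1) * B^i + B^n * e), by rw [hd0]; ring⟩
    have h00 : d 0 = 0 := Int.eq_zero_of_abs_lt_dvd h0 (by
      have := hd 0 (by omega); have := abs_nonneg (d 0); linarith)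
    have h2 : ∑ i ∈ range n, d (i+1) * B^i + B^n * e = 0 := by
      rw [h00] at hd0
      have h5 : B * (∑ i ∈ range n, d (i+1) * B^i + B^n * e) = 0 := by linarith
      rcases mul_eq_zero.mp h5 with h6 | h6
      · omega
      · exact h6
    obtain ⟨h3, h4⟩ := ih (fun i => d (i+1)) e (fun i hi => hd (i+1) (by omega)) h2
    refine ⟨?_, h4⟩
    intro i hi
    cases i with
    | zero => exact h00
    | succ j => exact h3 j (by omega)

lemma dbound (n : ℕ) (d : ℕ → ℤ) (hd : ∀ i < n, |d i| ≤ 4) :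
    2 * |∑ i ∈ range n, d i * 9^i| < 9^n := by
  induction n with
  | zero => simp
  | succ n ih =>
    rw [Finset.sum_range_succ]
    have h1 := ih (fun i hi => hd i (by omega))
    have h2 := abs_add_le (∑ i ∈ range n, d i * 9^i) (d n * 9^n)
    have h3 : |d n * 9^n| = |d n| * 9^n := by
      rw [abs_mul, abs_of_nonneg (by positivity : (0:ℤ) ≤ 9^n)]
    have h4 := hd n (by omega)
    have h5 : (0:ℤ) < 9^n := by positivity
    rw [pow_succ]
    nlinarith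

lemma digits2 (n : ℕ) (d : ℕ → ℕ → ℤ) (e : ℤ) (hd : ∀ b < n, ∀ a < n, |d b a| ≤ 4)
   (h : ∑ b ∈ range n, ∑ a ∈ range n, d b a * 9^(a*n+b) + 9^(n*n) * e = 0) :
   (∀ b < n, ∀ a < n, d b a = 0) ∧ e = 0 := by
  have h1 : ∑ a ∈ range n, (∑ b ∈ range n, d b a * 9^b) * (9^n)^a + (9^n)^n * e = 0 := by
    rw [Finset.sum_comm] at h
    rw [← h, ← pow_mul]
    congr 1
    apply Finset.sum_congr rfl; intro a _
    rw [Finset.sum_mul]
    apply Finset.sum_congr rfl; intro b _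
    rw [pow_add, ← pow_mul, mul_comm n a]; ring
  obtain ⟨h2, h3⟩ := digits (9^n) (by positivity) n _ e
    (fun a ha => dbound n (fun b => d b a) (fun b hb => hd b hb a ha)) h1
  refine ⟨?_, h3⟩
  intro b hb a ha
  have h4 := h2 a ha
  have := digits 9 (by norm_num) n (fun b => d b a) 0
    (fun b hb => by have := hd b hb a ha; show 2 * |d b a| < 9; linarith) (by simpa using h4)
  exact this.1 b hb

def Z (k b a : ℕ) : ℤ :=
  if a = 0 then 9^((k+1)*(k+1)) - ∑ a' ∈ range (k+1), 9^(a'*(k+1)+b) else 9^((a-1)*(k+1)+b)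

lemma Zkey (k : ℕ) (d : ℕ → ℕ → ℤ) :
    ∑ b ∈ range (k+1), ∑ a ∈ range (k+2), d b a * Z k b a = 
     ∑ b ∈ range (k+1), ∑ a ∈ range (k+1), (d b (a+1) - d b 0) * 9^(a*(k+1)+b)
      + 9^((k+1)*(k+1)) * ∑ b ∈ range (k+1), d b 0 := by
  rw [Finset.mul_sum, ← Finset.sum_add_distrib]
  apply Finset.sum_congr rfl; intro b _
  rw [Finset.sum_range_succ']
  have h1 : ∀ a, Z k b (a+1) = 9^(a*(k+1)+b) := by intro a; simp [Z]
  have h2 : Z k b 0 = 9^((k+1)*(k+1)) - ∑ a' ∈ range (k+1), 9^(a'*(k+1)+b) := by simp [Z]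
  rw [h2]
  simp only [h1, sub_mul, Finset.sum_sub_distrib, mul_sub, Finset.mul_sum]
  ring

lemma Zsum (k : ℕ) (d : ℕ → ℕ → ℤ) (hd : ∀ b < k+1, ∀ a < k+2, |d b a| ≤ 2)
   (h : ∑ b ∈ range (k+1), ∑ a ∈ range (k+2), d b a * Z k b a = 0) :
   (∀ b < k+1, ∀ a < k+2, d b a = d b 0) ∧ ∑ b ∈ range (k+1), d b 0 = 0 := by
  rw [Zkey] at h
  obtain ⟨h1, h2⟩ := digits2 (k+1) (fun b a => d b (a+1) - d b 0) _ (by
    intro b hb a ha
    have h3 := hd b hb (a+1) (by omega)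
    have h4 := hd b hb 0 (by omega)
    have h5 := abs_sub (d b (a+1)) (d b 0)
    show |d b (a+1) - d b 0| ≤ 4
    linarith) h
  refine ⟨?_, h2⟩
  intro b hb a ha
  cases a with
  | zero => rfl
  | succ a => have := h1 b hb a (by omega); linarith

noncomputable def D (k : ℕ) : ℝ := 1 + ∑ b ∈ range (k+1), ∑ a ∈ range (k+2), |(Z k b a : ℝ)|

lemma D_ge (k : ℕ) : 1 ≤ D k := by
  unfold D
  have : 0 ≤ ∑ b ∈ range (k+1), ∑ a ∈ range (k+2), |(Z k b a : ℝ)| :=
    Finset.sum_nonneg fun b _ => Finset.sum_nonneg fun a _ => abs_nonneg _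
  linarith

noncomputable def s : ℕ → ℝ
  | 0 => 1
  | (k+1) => s k / (1000 * ((k+2) * D (k+1)))

noncomputable def u (k : ℕ) : ℝ := s k * ((k+1) * D k)

lemma s_pos (k : ℕ) : 0 < s k := by
  induction k with
  | zero => simp [s]
  | succ k ih =>
    rw [s]
    have := D_ge (k+1)
    positivity

lemma u_succ (k : ℕ) : u (k+1) = s k / 1000 := by
  unfold u
  rw [s]
  have := D_ge (k+1)
  have h0 : D (k+1) ≠ 0 := by linarith
  have h1 : (k:ℝ) + 2 ≠ 0 := by positivity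
  have h2 : (k:ℝ) + 1 + 1 ≠ 0 := by positivity
  push_cast
  field_simp
  ring

lemma sD_le_u (k : ℕ) : s k * D k ≤ u k := by
  unfold u
  have h := D_ge k
  have h1 := s_pos k
  have h2 : (0:ℝ) ≤ k := by positivity
  have : D k ≤ (k+1) * D k := by nlinarith
  exact mul_le_mul_of_nonneg_left this h1.le

lemma s_le_u (k : ℕ) : s k ≤ u k := by
  have h := sD_le_u k
  have h1 := D_ge k
  have h2 := s_pos k
  nlinarith

lemma u_geo (k j : ℕ) : u (k+1+j) ≤ (s k/1000) * (1/1000)^j := by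
  induction j with
  | zero => simp [u_succ]
  | succ j ih =>
    have : k + 1 + (j+1) = (k+1+j) + 1 := by ring
    rw [this, u_succ]
    have h1 := s_le_u (k+1+j)
    rw [pow_succ]
    linarith

lemma u_pos (k : ℕ) : 0 < u k := lt_of_lt_of_le (s_pos k) (s_le_u k)

lemma tail_bound (k : ℕ) (f : ℕ → ℝ) (c : ℝ) (hc : 0 ≤ c) (hf : ∀ j, |f j| ≤ c * u (k+1+j)) :
    Summable f ∧ |∑' j, f j| ≤ c * (s k / 999) := by
  have hg : HasSum (fun j : ℕ => (c * (s k/1000)) * (1/1000:ℝ)^j) (c * (s k / 999)) := by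
    have := (hasSum_geometric_of_lt_one (by norm_num : (0:ℝ) ≤ 1/1000) (by norm_num)).mul_left (c * (s k/1000))
    have e : c * (s k/1000) * (1 - 1/1000:ℝ)⁻¹ = c * (s k / 999) := by
      have : (1 - 1/1000:ℝ)⁻¹ = 1000/999 := by norm_num
      rw [this]; ring
    rw [e] at this
    exact this
  have hb : ∀ j, ‖f j‖ ≤ (c * (s k/1000)) * (1/1000:ℝ)^j := by
    intro j
    rw [Real.norm_eq_abs]
    refine (hf j).trans ?_
    rw [mul_assoc]
    exact mul_le_mul_of_nonneg_left (u_geo k j) hc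
  refine ⟨Summable.of_norm_bounded hg.summable hb, ?_⟩
  have := tsum_of_norm_bounded hg hb
  rwa [Real.norm_eq_abs] at this

def R (k b : ℕ) : ℤ := ∑ b' ∈ range (k+1), Z k b' (b+1)

lemma R_le (k b : ℕ) (hb : b < k+1) : |(R k b : ℝ)| ≤ D k := by
  unfold R D
  push_cast
  refine (Finset.abs_sum_le_sum_abs _ _).trans ?_
  have : ∑ b' ∈ range (k+1), |(Z k b' (b+1) : ℝ)| ≤ ∑ b' ∈ range (k+1), ∑ a ∈ range (k+2), |(Z k b' a : ℝ)| := by
    apply Finset.sum_le_sum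
    intro b' _
    exact Finset.single_le_sum (f := fun a => |(Z k b' a : ℝ)|) (fun a _ => abs_nonneg _) (Finset.mem_range.mpr (by omega))
  linarith

lemma T_aux (k b : ℕ) (hb : b < k+1) (j : ℕ) :
    |s (k+1+j) * (R (k+1+j) b : ℝ)| ≤ (1/((k:ℝ)+1)) * u (k+1+j) := by
  rw [abs_mul, abs_of_pos (s_pos _)]
  have h1 := R_le (k+1+j) b (by omega)
  have h2 := s_pos (k+1+j)
  have h3 := D_ge (k+1+j)
  have h4 : s (k+1+j) * |(R (k+1+j) b : ℝ)| ≤ s (k+1+j) * D (k+1+j) := mul_le_mul_of_nonneg_left h1 h2.le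
  refine h4.trans ?_
  unfold u
  rw [div_mul_eq_mul_div, one_mul, le_div_iff₀ (by positivity)]
  push_cast
  have h5 : (0:ℝ) ≤ k := by positivity
  have h6 : (0:ℝ) ≤ j := by positivity
  have h7 : 0 ≤ s (k+1+j) * D (k+1+j) := by positivity
  nlinarith

noncomputable def T (k b : ℕ) : ℝ := ∑' j, s (k+1+j) * (R (k+1+j) b : ℝ)

lemma T_le (k b : ℕ) (hb : b < k+1) : |T k b| ≤ (1/((k:ℝ)+1)) * (s k / 999) :=
  (tail_bound k _ _ (by positivity) (T_aux k b hb)).2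

lemma T_summable (k b : ℕ) (hb : b < k+1) : Summable (fun j => s (k+1+j) * (R (k+1+j) b : ℝ)) :=
  (tail_bound k _ _ (by positivity) (T_aux k b hb)).1

noncomputable def xx (k b a : ℕ) : ℝ := s k * (Z k b a : ℝ) - (if a = 0 then T k b else 0)

noncomputable def X (d : ℕ → ℕ → ℕ → ℤ) (k : ℕ) : ℝ :=
  ∑ b ∈ range (k+1), ∑ a ∈ range (k+2), (d k b a : ℝ) * xx k b a

lemma X_eq (d : ℕ → ℕ → ℕ → ℤ) (k : ℕ) :
    X d k = s k * ((∑ b ∈ range (k+1), ∑ a ∈ range (k+2), d k b a * Z k b a : ℤ) : ℝ)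
      - ∑ b ∈ range (k+1), (d k b 0 : ℝ) * T k b := by
  unfold X xx
  push_cast
  rw [Finset.mul_sum, ← Finset.sum_sub_distrib]
  apply Finset.sum_congr rfl; intro b _
  rw [Finset.mul_sum]
  have h1 : ∑ a ∈ range (k+2), (d k b a : ℝ) * (s k * (Z k b a : ℝ) - (if a = 0 then T k b else 0))
     = ∑ a ∈ range (k+2), (s k * ((d k b a : ℝ) * (Z k b a : ℝ)) - (if a = 0 then (d k b 0 : ℝ) * T k b else 0)) := by
    apply Finset.sum_congr rfl; intro a _
    by_cases h : a = 0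
    · subst h; simp; ring
    · simp [h]; ring
  rw [h1, Finset.sum_sub_distrib]
  congr 1
  simp

lemma r_le (d : ℕ → ℕ → ℕ → ℤ) (hd : ∀ k b a, |d k b a| ≤ 1) (k : ℕ) :
    |∑ b ∈ range (k+1), (d k b 0 : ℝ) * T k b| ≤ s k / 999 := by
  refine (Finset.abs_sum_le_sum_abs _ _).trans ?_
  have : ∑ b ∈ range (k+1), |(d k b 0 : ℝ) * T k b| ≤ ∑ b ∈ range (k+1), (1/((k:ℝ)+1)) * (s k / 999) := by
    apply Finset.sum_le_sum
    intro b hb
    rw [abs_mul]
    have h1 : |(d k b 0 : ℝ)| ≤ 1 := by exact_mod_cast hd k b 0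
    have h2 := T_le k b (Finset.mem_range.mp hb)
    have h3 := abs_nonneg (T k b)
    nlinarith
  refine this.trans ?_
  rw [Finset.sum_const, Finset.card_range, nsmul_eq_mul]
  push_cast
  have h4 : (k:ℝ) + 1 ≠ 0 := by positivity
  field_simp
  exact le_refl _

lemma A_le (c : ℝ) (k : ℕ) (d : ℕ → ℕ → ℤ) (hd : ∀ b < k+1, ∀ a < k+2, |(d b a : ℝ)| ≤ c) (hc : 0 ≤ c) :
    |((∑ b ∈ range (k+1), ∑ a ∈ range (k+2), d b a * Z k b a : ℤ) : ℝ)| ≤ c * D k := by
  push_cast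
  refine (Finset.abs_sum_le_sum_abs _ _).trans ?_
  have : ∑ b ∈ range (k+1), |∑ a ∈ range (k+2), (d b a : ℝ) * (Z k b a : ℝ)| ≤ ∑ b ∈ range (k+1), c * ∑ a ∈ range (k+2), |(Z k b a : ℝ)| := by
    apply Finset.sum_le_sum
    intro b hb
    refine (Finset.abs_sum_le_sum_abs _ _).trans ?_
    rw [Finset.mul_sum]
    apply Finset.sum_le_sum
    intro a ha
    rw [abs_mul]
    exact mul_le_mul_of_nonneg_right (hd b (Finset.mem_range.mp hb) a (Finset.mem_range.mp ha)) (abs_nonneg _)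
  refine this.trans ?_
  rw [← Finset.mul_sum]
  unfold D
  nlinarith

lemma head (k : ℕ) (Y : ℕ → ℝ) (B : ℕ → ℤ) (r : ℕ → ℝ)
    (hY : ∀ j, k ≤ j → Y j = s j * B j + r j) (hB : ∀ j, k ≤ j → |(B j:ℝ)| ≤ 2 * D j)
    (hr : ∀ j, k ≤ j → |r j| ≤ s j/999) (hz : ∀ j < k, Y j = 0) (hsum : ∑' j, Y j = 0) : B k = 0 := by
  have hYb : ∀ j, |Y (k+1+j)| ≤ 3 * u (k+1+j) := by
    intro j
    rw [hY _ (by omega)]
    have h1 := abs_add_le (s (k+1+j) * (B (k+1+j):ℝ)) (r (k+1+j))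
    rw [abs_mul, abs_of_pos (s_pos _)] at h1
    have h2 := hB (k+1+j) (by omega)
    have h3 := hr (k+1+j) (by omega)
    have h4 := s_le_u (k+1+j)
    have h5 := sD_le_u (k+1+j)
    have h6 := s_pos (k+1+j)
    have h7 : s (k+1+j) * |(B (k+1+j):ℝ)| ≤ s (k+1+j) * (2 * D (k+1+j)) := mul_le_mul_of_nonneg_left h2 h6.le
    have h8 := u_pos (k+1+j)
    have h9 : s (k+1+j) / 999 ≤ u (k+1+j) := by linarith
    linarith
  obtain ⟨hs1, hs2⟩ := tail_bound k (fun j => Y (k+1+j)) 3 (by norm_num) hYb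
  have hs3 : Summable Y := by
    have : Summable (fun j => Y (j + (k+1))) := by
      simpa [add_comm] using hs1
    exact (summable_nat_add_iff (k+1)).mp this
  have h4 := hs3.sum_add_tsum_nat_add (k+1)
  rw [hsum, Finset.sum_range_succ, Finset.sum_eq_zero (fun j hj => hz j (Finset.mem_range.mp hj)), zero_add] at h4
  have h5 : ∑' j, Y (j + (k+1)) = ∑' j, Y (k+1+j) := by
    congr 1; ext j; rw [add_comm]
  rw [h5, hY k le_rfl] at h4
  have h6 := hr k le_rfl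
  have h7 := s_pos k
  have h8 : |s k * (B k : ℝ)| < s k * 1 := by
    have : s k * (B k : ℝ) = - (r k) - ∑' j, Y (k+1+j) := by linarith
    rw [this]
    have h9 := abs_sub (- r k) (∑' j, Y (k+1+j))
    rw [abs_neg] at h9
    linarith
  rw [abs_mul, abs_of_pos h7] at h8
  have h9 : |(B k : ℝ)| < 1 := lt_of_mul_lt_mul_left h8 h7.le
  have h10 : |B k| < 1 := by exact_mod_cast h9
  exact Int.abs_lt_one_iff.mp h10

end Pool.MP_65dae3_an.Aux
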