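import Pool.Agent.SubA
set_option autoImplicit false
namespace Pool.MP_65dae3_an.Aux
open Finset

/-- from nonzero with sum zero and values in {-1,0,1}: exists 1 and -1 -/
lemma pos_neg (n : ℕ) (h : ℕ → ℤ) (hb : ∀ b < n, |h b| ≤ 1) (hs : ∑ b ∈ range n, h b = 0) (hn : ∃ b < n, h b ≠ 0) :
    (∃ b < n, h b = 1) ∧ (∃ b < n, h b = -1) := by
  obtain ⟨b0, hb0, hne⟩ := hn
  constructor
  · by_contra hcon
    push Not at hcon
    have h1 : ∀ b ∈ range n, h b ≤ 0 := by
      intro b hb'
      have h2 := hcon b (Finset.mem_range.mp hb')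
      have h3 := abs_le.mp (hb b (Finset.mem_range.mp hb'))
      omega
    have := (Finset.sum_eq_zero_iff_of_nonpos h1).mp hs b0 (Finset.mem_range.mpr hb0)
    exact hne this
  · by_contra hcon
    push Not at hcon
    have h1 : ∀ b ∈ range n, 0 ≤ h b := by
      intro b hb'
      have h2 := hcon b (Finset.mem_range.mp hb')
      have h3 := abs_le.mp (hb b (Finset.mem_range.mp hb'))
      omega
    have := (Finset.sum_eq_zero_iff_of_nonneg h1).mp hs b0 (Finset.mem_range.mpr hb0)
    exact hne this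

lemma X_zero (d : ℕ → ℕ → ℕ → ℤ) (j : ℕ) (h : ∀ b < j+1, ∀ a < j+2, d j b a = 0) : X d j = 0 := by
  unfold X
  apply Finset.sum_eq_zero; intro b hb
  apply Finset.sum_eq_zero; intro a ha
  rw [h b (Finset.mem_range.mp hb) a (Finset.mem_range.mp ha)]
  simp

lemma first_block (d : ℕ → ℕ → ℕ → ℤ) (hd : ∀ k b a, |d k b a| ≤ 1) (hs : ∑' k, X d k = 0) (k : ℕ)
    (hz : ∀ j < k, ∀ b < j+1, ∀ a < j+2, d j b a = 0) :
    (∀ b < k+1, ∀ a < k+2, d k b a = d k b 0) ∧ ∑ b ∈ range (k+1), d k b 0 = 0 := by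
  apply Zsum
  · intro b _ a _; exact (hd k b a).trans (by norm_num)
  · exact head k (X d) (fun j => ∑ b ∈ range (j+1), ∑ a ∈ range (j+2), d j b a * Z j b a)
      (fun j => - ∑ b ∈ range (j+1), (d j b 0 : ℝ) * T j b) 
      (fun j _ => by rw [X_eq]; ring)
      (fun j _ => by
        have h1 := A_le 1 j (fun b a => d j b a) (fun b _ a _ => by exact_mod_cast hd j b a) (by norm_num)
        have h2 := D_ge j
        refine h1.trans ?_
        linarith)
      (fun j _ => by rw [abs_neg]; exact r_le d hd j)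
      (fun j hj => X_zero d j (hz j hj)) hs

/-- `H d k a` -/
def H (d : ℕ → ℕ → ℕ → ℤ) (k a : ℕ) : ℤ := if a = 0 then 0 else if a - 1 < k + 1 then d k (a-1) 0 else 0

lemma H_le (d : ℕ → ℕ → ℕ → ℤ) (hd : ∀ k b a, |d k b a| ≤ 1) (k a : ℕ) : |H d k a| ≤ 1 := by
  unfold H
  split_ifs
  · simp
  · exact hd _ _ _
  · simp

lemma H_sum (d : ℕ → ℕ → ℕ → ℤ) (k j : ℕ) (hj : k < j) :
    ∑ b ∈ range (j+1), ∑ a ∈ range (j+2), H d k a * Z j b a = ∑ b ∈ range (k+1), d k b 0 * R j b := by
  rw [Finset.sum_comm, Finset.sum_range_succ']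
  have h0 : ∑ b ∈ range (j+1), H d k 0 * Z j b 0 = 0 := by simp [H]
  rw [h0, add_zero]
  have h1 : ∑ a ∈ range (j+1), ∑ b ∈ range (j+1), H d k (a+1) * Z j b (a+1) = ∑ a ∈ range (j+1), (if a < k+1 then d k a 0 * R j a else 0) := by
    apply Finset.sum_congr rfl; intro a _
    unfold R H
    rw [← Finset.mul_sum]
    by_cases h : a < k+1
    · simp [h]
    · simp [h]
  rw [h1, ← Finset.sum_filter]
  apply Finset.sum_congr _ (fun _ _ => rfl)
  ext a
  simp only [Finset.mem_filter, Finset.mem_range]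
  omega

lemma later_blocks (d : ℕ → ℕ → ℕ → ℤ) (hd : ∀ k b a, |d k b a| ≤ 1) (hs : ∑' k, X d k = 0) 
    (hsm : Summable (X d)) (k : ℕ)
    (hz : ∀ j < k, ∀ b < j+1, ∀ a < j+2, d j b a = 0)
    (hne : ∃ b < k+1, ∃ a < k+2, d k b a ≠ 0) :
    ∀ j, k < j → ∀ b < j+1, ∀ a < j+2, d j b a = H d k a := by
  obtain ⟨hA, hB⟩ := first_block d hd hs k hz
  obtain ⟨⟨bp, hbp, hbp1⟩, ⟨bm, hbm, hbm1⟩⟩ := pos_neg (k+1) (fun b => d k b 0) (fun b _ => hd k b 0) hB (by
    obtain ⟨b, hb, a, ha, h⟩ := hne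
    exact ⟨b, hb, by rw [← hA b hb a ha]; exact h⟩)
  -- value of X at k
  have hXk : X d k = - ∑ b ∈ range (k+1), (d k b 0 : ℝ) * T k b := by
    rw [X_eq, Zkey]
    have h1 : ∑ b ∈ range (k+1), ∑ a ∈ range (k+1), (d k b (a+1) - d k b 0) * 9^(a*(k+1)+b) = 0 := by
      apply Finset.sum_eq_zero; intro b hb
      apply Finset.sum_eq_zero; intro a ha
      rw [hA b (Finset.mem_range.mp hb) (a+1) (by have := Finset.mem_range.mp ha; omega)]
      simp
    rw [h1, hB]; simp
  let Y : ℕ → ℝ := fun j => if j ≤ k then 0 else X d j - s j * ((∑ b ∈ range (k+1), d k b 0 * R j b : ℤ) : ℝ)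
  have hTsum : HasSum (fun j => s (k+1+j) * ((∑ b ∈ range (k+1), d k b 0 * R (k+1+j) b : ℤ) : ℝ)) (∑ b ∈ range (k+1), (d k b 0 : ℝ) * T k b) := by
    have h1 : HasSum (fun j => ∑ b ∈ range (k+1), (d k b 0 : ℝ) * (s (k+1+j) * (R (k+1+j) b : ℝ))) (∑ b ∈ range (k+1), (d k b 0 : ℝ) * T k b) := by
      apply hasSum_sum
      intro b hb
      exact ((T_summable k b (Finset.mem_range.mp hb)).hasSum).mul_left _
    convert h1 using 2 with j
    push_cast
    rw [Finset.mul_sum]
    apply Finset.sum_congr rfl; intro b _; ring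
  have hYsum : ∑' j, Y j = 0 := by
    have hXt : HasSum (fun j => X d (k+1+j)) (∑ b ∈ range (k+1), (d k b 0 : ℝ) * T k b) := by
      have h1 := hsm.sum_add_tsum_nat_add (k+1)
      rw [hs, Finset.sum_range_succ, Finset.sum_eq_zero (fun j hj => X_zero d j (hz j (Finset.mem_range.mp hj))), zero_add, hXk] at h1
      have h2 : Summable (fun j => X d (j + (k+1))) := (summable_nat_add_iff (k+1)).mpr hsm
      have h3 := h2.hasSum
      have h4 : ∑' j, X d (j + (k+1)) = ∑ b ∈ range (k+1), (d k b 0 : ℝ) * T k b := by linarith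
      rw [h4] at h3
      convert h3 using 3 with j
      omega
    have h5 := hXt.sub hTsum
    rw [sub_self] at h5
    have h6 : HasSum (fun j => Y (j + (k+1))) 0 := by
      have e : (fun j => Y (j + (k+1))) = (fun b => X d (k + 1 + b) - s (k + 1 + b) * ((∑ b_1 ∈ range (k + 1), d k b_1 0 * R (k + 1 + b) b_1 : ℤ) : ℝ)) := by
        funext j
        show (if j + (k+1) ≤ k then (0:ℝ) else _) = _
        rw [if_neg (by omega), add_comm j (k+1)]
      rw [e]
      exact h5
    have h7 := (hasSum_nat_add_iff (k+1)).mp h6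
    have h8 : ∑ i ∈ range (k+1), Y i = 0 := by
      apply Finset.sum_eq_zero; intro i hi
      show (if i ≤ k then (0:ℝ) else _) = 0
      rw [if_pos (by have := Finset.mem_range.mp hi; omega)]
    rw [h8, add_zero] at h7
    exact h7.tsum_eq
  intro j
  induction j using Nat.strong_induction_on with
  | _ j ih =>
  intro hkj
  have hBj : ∑ b ∈ range (j+1), ∑ a ∈ range (j+2), (d j b a - H d k a) * Z j b a = 0 := by
    refine head j Y (fun i => ∑ b ∈ range (i+1), ∑ a ∈ range (i+2), (d i b a - H d k a) * Z i b a)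
      (fun i => - ∑ b ∈ range (i+1), (d i b 0 : ℝ) * T i b) ?_ ?_ (fun i _ => by rw [abs_neg]; exact r_le d hd i) ?_ hYsum
    · intro i hi
      show (if i ≤ k then (0:ℝ) else _) = _
      rw [if_neg (by omega), X_eq, ← H_sum d k i (by omega)]
      simp only [sub_mul, Finset.sum_sub_distrib]
      push_cast
      ring
    · intro i _
      exact A_le 2 i (fun b a => d i b a - H d k a) (fun b _ a _ => by
        have h1 := hd i b a
        have h2 := H_le d hd k a
        have h3 := abs_sub (d i b a) (H d k a)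
        have h4 : |d i b a - H d k a| ≤ 2 := by linarith
        exact_mod_cast h4) (by norm_num)
    · intro i hi
      show (if i ≤ k then (0:ℝ) else _) = 0
      by_cases hik : i ≤ k
      · rw [if_pos hik]
      · rw [if_neg hik]
        have h1 := ih i hi (by omega)
        rw [X_eq, ← H_sum d k i (by omega)]
        have h2 : ∑ b ∈ range (i+1), (d i b 0 : ℝ) * T i b = 0 := by
          apply Finset.sum_eq_zero; intro b hb
          rw [h1 b (Finset.mem_range.mp hb) 0 (by omega)]
          simp [H]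
        have h3 : ∑ b ∈ range (i+1), ∑ a ∈ range (i+2), d i b a * Z i b a = ∑ b ∈ range (i+1), ∑ a ∈ range (i+2), H d k a * Z i b a := by
          apply Finset.sum_congr rfl; intro b hb
          apply Finset.sum_congr rfl; intro a ha
          rw [h1 b (Finset.mem_range.mp hb) a (Finset.mem_range.mp ha)]
        rw [h2, h3]; ring
  obtain ⟨h1, _⟩ := Zsum j (fun b a => d j b a - H d k a) (fun b _ a _ => by
        have h1 := hd j b a
        have h2 := H_le d hd k a
        have h3 := abs_sub (d j b a) (H d k a)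
        show |d j b a - H d k a| ≤ 2
        linarith) hBj
  have hH0 : H d k 0 = 0 := by simp [H]
  have hHp : H d k (bp+1) = 1 := by simp [H, hbp]; exact hbp1
  have hHm : H d k (bm+1) = -1 := by simp [H, hbm]; exact hbm1
  have h0 : ∀ b < j+1, d j b 0 = 0 := by
    intro b hb
    have h2 := h1 b hb (bp+1) (by omega)
    have h3 := h1 b hb (bm+1) (by omega)
    simp only [hH0, hHp, hHm] at h2 h3
    have h4 := abs_le.mp (hd j b (bp+1))
    have h5 := abs_le.mp (hd j b (bm+1))
    omega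
  intro b hb a ha
  have h2 := h1 b hb a ha
  simp only [hH0, h0 b hb] at h2
  omega

end Pool.MP_65dae3_an.Aux
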