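import Pool.Agent.SubB
set_option autoImplicit false
namespace Pool.MP_65dae3_an.Aux
open Finset

abbrev I := Σ k : ℕ, Fin (k+1) × Fin (k+2)

instance : Infinite I := Infinite.of_injective (fun k : ℕ => (⟨k, 0, 0⟩ : I)) (by
  intro a b h
  exact congrArg Sigma.fst h)

noncomputable instance : Denumerable I := (nonempty_denumerable I).some

noncomputable def en : I ≃ ℕ := Denumerable.eqv I

noncomputable def xI (i : I) : ℝ := xx i.1 i.2.1 i.2.2

noncomputable def E (ε : ℕ → Bool) (k b a : ℕ) : ℤ :=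
  if h : b < k+1 ∧ a < k+2 then (if ε (en ⟨k, ⟨b,h.1⟩, ⟨a,h.2⟩⟩) = true then 1 else 0) else 0

lemma E_01 (ε : ℕ → Bool) (k b a : ℕ) : E ε k b a = 0 ∨ E ε k b a = 1 := by
  unfold E; split_ifs <;> simp

lemma xx_sum (k : ℕ) : ∑ b ∈ range (k+1), ∑ a ∈ range (k+2), |xx k b a| ≤ 2 * u k := by
  have h1 : ∀ b ∈ range (k+1), ∑ a ∈ range (k+2), |xx k b a| ≤ s k * ∑ a ∈ range (k+2), |(Z k b a:ℝ)| + (1/((k:ℝ)+1)) * (s k / 999) := by
    intro b hb
    have : ∑ a ∈ range (k+2), |xx k b a| ≤ ∑ a ∈ range (k+2), (s k * |(Z k b a:ℝ)| + (if a = 0 then |T k b| else 0)) := by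
      apply Finset.sum_le_sum; intro a _
      unfold xx
      refine (abs_sub _ _).trans ?_
      rw [abs_mul, abs_of_pos (s_pos k)]
      split_ifs <;> simp
    refine this.trans ?_
    rw [Finset.sum_add_distrib, ← Finset.mul_sum]
    have h2 : ∑ a ∈ range (k+2), (if a = 0 then |T k b| else 0) = |T k b| := by simp
    rw [h2]
    linarith [T_le k b (Finset.mem_range.mp hb)]
  refine (Finset.sum_le_sum h1).trans ?_
  rw [Finset.sum_add_distrib, ← Finset.mul_sum, Finset.sum_const, Finset.card_range, nsmul_eq_mul]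
  have h3 : ((k+1 : ℕ):ℝ) * (1/((k:ℝ)+1) * (s k/999)) = s k/999 := by
    push_cast; field_simp
  rw [h3]
  have h4 := sD_le_u k
  have h5 := s_le_u k
  have h6 := s_pos k
  unfold D at h4
  linarith

lemma xI_summable : Summable (fun i : I => |xI i|) := by
  rw [summable_sigma_of_nonneg (fun _ => abs_nonneg _)]
  refine ⟨fun k => Summable.of_finite, ?_⟩
  have hu : Summable (fun k => 2 * u k) := by
    apply Summable.mul_left
    have h1 := (tail_bound 0 (fun j => u (0+1+j)) 1 (by norm_num) (fun j => by rw [abs_of_pos (u_pos _), one_mul])).1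
    have : Summable (fun j => u (j + 1)) := by
      refine h1.congr ?_
      intro j
      rw [show 0+1+j = j+1 by ring]
    exact (summable_nat_add_iff 1).mp this
  refine Summable.of_nonneg_of_le (fun k => tsum_nonneg fun _ => abs_nonneg _) ?_ hu
  intro k
  rw [tsum_fintype, Fintype.sum_prod_type]
  have := xx_sum k
  rw [Finset.sum_range] at this
  simp only [Finset.sum_range] at this
  exact this

noncomputable def x (n : ℕ) : ℝ := xI (en.symm n)

lemma x_summable : Summable (fun n => |x n|) := by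
  have := (Equiv.summable_iff en.symm (f := fun i : I => |xI i|)).mpr xI_summable
  exact this

noncomputable def S (ε : ℕ → Bool) : ℝ := ∑' n, (if ε n = true then x n else 0)

lemma S_eq (ε : ℕ → Bool) : Summable (X (E ε)) ∧ S ε = ∑' k, X (E ε) k := by
  let g : I → ℝ := fun i => if ε (en i) = true then xI i else 0
  have hg : Summable g := by
    refine Summable.of_norm_bounded xI_summable ?_
    intro i
    rw [Real.norm_eq_abs]
    show |if ε (en i) = true then xI i else 0| ≤ |xI i|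
    split_ifs
    · exact le_refl _
    · simp
  have hblock : ∀ k, ∑' c : Fin (k+1) × Fin (k+2), g ⟨k, c⟩ = X (E ε) k := by
    intro k
    rw [tsum_fintype, Fintype.sum_prod_type]
    unfold X
    rw [Finset.sum_range]
    apply Finset.sum_congr rfl; intro b _
    rw [Finset.sum_range]
    apply Finset.sum_congr rfl; intro a _
    show (if ε (en ⟨k, b, a⟩) = true then xx k b a else 0) = (E ε k b a : ℝ) * xx k b a
    unfold E
    rw [dif_pos ⟨b.2, a.2⟩]
    split_ifs <;> simp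
  constructor
  · have := hg.sigma
    refine this.congr ?_
    intro k
    exact hblock k
  · have h1 : S ε = ∑' i, g i := by
      unfold S
      rw [← Equiv.tsum_eq en.symm g]
      congr 1; ext n
      show _ = if ε (en (en.symm n)) = true then xI (en.symm n) else 0
      rw [Equiv.apply_symm_apply]
      rfl
    rw [h1, hg.tsum_sigma]
    congr 1; ext k
    exact hblock k

def FB (ε ε' : ℕ → Bool) (k : ℕ) : Prop :=
  (∀ j < k, ∀ b < j+1, ∀ a < j+2, E ε' j b a - E ε j b a = 0) ∧ (∃ b < k+1, ∃ a < k+2, E ε' k b a - E ε k b a ≠ 0)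

lemma FB_symm (ε ε' : ℕ → Bool) (k : ℕ) (h : FB ε ε' k) : FB ε' ε k := by
  obtain ⟨h1, b, hb, a, ha, h2⟩ := h
  exact ⟨fun j hj b hb a ha => by have := h1 j hj b hb a ha; omega, b, hb, a, ha, by omega⟩

lemma FB_exists (ε ε' : ℕ → Bool) (h : ε ≠ ε') : ∃ k, FB ε ε' k := by
  classical
  have hex : ∃ k, ∃ b < k+1, ∃ a < k+2, E ε' k b a - E ε k b a ≠ 0 := by
    obtain ⟨n, hn⟩ := Function.ne_iff.mp h
    obtain ⟨⟨k, b, a⟩, rfl⟩ := en.surjective n
    refine ⟨k, b, b.2, a, a.2, ?_⟩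
    unfold E
    rw [dif_pos ⟨b.2, a.2⟩, dif_pos ⟨b.2, a.2⟩]
    intro hcon
    apply hn
    simp only [Fin.eta] at hcon
    cases h1 : ε (en ⟨k, b, a⟩) <;> cases h2 : ε' (en ⟨k, b, a⟩) <;> simp [h1, h2] at hcon ⊢
  refine ⟨Nat.find hex, ?_, Nat.find_spec hex⟩
  intro j hj b hb a ha
  by_contra hcon
  exact Nat.find_min hex hj ⟨b, hb, a, ha, hcon⟩

lemma struct (ε ε' : ℕ → Bool) (hS : S ε = S ε') (k : ℕ) (hF : FB ε ε' k) :
    (∀ b < k+1, ∀ a < k+2, E ε' k b a - E ε k b a = E ε' k b 0 - E ε k b 0) ∧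
    (∃ b < k+1, E ε' k b 0 - E ε k b 0 = 1) ∧
    (∃ m < k+1, ∀ j, k < j → ∀ b < j+1, E ε' j b (m+1) - E ε j b (m+1) = -1) := by
  set d : ℕ → ℕ → ℕ → ℤ := fun k b a => E ε' k b a - E ε k b a with hd
  have hd1 : ∀ k b a, |d k b a| ≤ 1 := by
    intro k b a
    rw [abs_le]
    rcases E_01 ε k b a with h | h <;> rcases E_01 ε' k b a with h' | h' <;> simp [hd, h, h']
  obtain ⟨h1, h2⟩ := S_eq ε
  obtain ⟨h3, h4⟩ := S_eq ε'
  have hX : X d = fun k => X (E ε') k - X (E ε) k := by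
    funext k
    unfold X
    rw [← Finset.sum_sub_distrib]
    apply Finset.sum_congr rfl; intro b _
    rw [← Finset.sum_sub_distrib]
    apply Finset.sum_congr rfl; intro a _
    simp only [hd]; push_cast; ring
  have hsm : Summable (X d) := by rw [hX]; exact h3.sub h1
  have hs : ∑' k, X d k = 0 := by
    rw [hX, h3.tsum_sub h1, ← h4, ← h2, hS]; ring
  obtain ⟨hz, hne⟩ := hF
  obtain ⟨hA, hB⟩ := first_block d hd1 hs k hz
  obtain ⟨hp, ⟨m, hm, hm1⟩⟩ := pos_neg (k+1) (fun b => d k b 0) (fun b _ => hd1 k b 0) hB (by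
    obtain ⟨b, hb, a, ha, h⟩ := hne
    exact ⟨b, hb, by rw [← hA b hb a ha]; exact h⟩)
  refine ⟨hA, hp, m, hm, ?_⟩
  intro j hj b hb
  have h5 := later_blocks d hd1 hs hsm k hz hne j hj b hb (m+1) (by omega)
  have h6 : H d k (m+1) = -1 := by simp [H, hm]; exact hm1
  rw [h6] at h5
  exact h5

lemma uniq (ε ε' ε'' : ℕ → Bool) (h1 : S ε = S ε') (h2 : S ε = S ε'') (k k2 : ℕ) (hF : FB ε ε' k) (hF2 : FB ε ε'' k2) :
    ¬ k < k2 := by
  intro hlt
  obtain ⟨_, _, m, hm, hm1⟩ := struct ε ε' h1 k hF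
  obtain ⟨hA, ⟨c, hc, hc1⟩, _⟩ := struct ε ε'' h2 k2 hF2
  have h3 := hm1 k2 hlt c hc
  have h4 := hA c hc (m+1) (by omega)
  rcases E_01 ε k2 c (m+1) with h | h <;> rcases E_01 ε' k2 c (m+1) with h' | h' <;> rcases E_01 ε'' k2 c (m+1) with h'' | h'' <;> omega

lemma uniq' (ε ε' ε'' : ℕ → Bool) (h1 : S ε = S ε') (h2 : S ε = S ε'') (k k2 : ℕ) (hF : FB ε ε' k) (hF2 : FB ε ε'' k2) :
    k = k2 := by
  have := uniq ε ε' ε'' h1 h2 k k2 hF hF2
  have := uniq ε ε'' ε' h2 h1 k2 k hF2 hF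
  omega

lemma fib_finite (t : ℝ) : Finite {ε : ℕ → Bool // S ε = t} := by
  by_cases hsub : Subsingleton {ε : ℕ → Bool // S ε = t}
  · infer_instance
  · rw [not_subsingleton_iff_nontrivial] at hsub
    obtain ⟨⟨e0, he0⟩, ⟨e1, he1⟩, hne⟩ := hsub.exists_pair_ne
    have hne' : e0 ≠ e1 := fun h => hne (Subtype.ext h)
    obtain ⟨k0, hk0⟩ := FB_exists e0 e1 hne'
    have hall : ∀ ε ε' : ℕ → Bool, S ε = t → S ε' = t → ∀ k, FB ε ε' k → k = k0 := by
      intro ε ε' hε hε' k hk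
      by_cases h0 : e0 = ε
      · subst h0
        exact uniq' e0 ε' e1 (by rw [hε, hε']) (by rw [he0, he1]) k k0 hk hk0
      · obtain ⟨k', hk'⟩ := FB_exists e0 ε h0
        have h3 : k' = k0 := uniq' e0 ε e1 (by rw [he0, hε]) (by rw [he0, he1]) k' k0 hk' hk0
        subst h3
        exact uniq' ε ε' e0 (by rw [hε, hε']) (by rw [hε, he0]) k k' hk (FB_symm _ _ _ hk')
    refine Finite.of_injective (fun (ε : {ε : ℕ → Bool // S ε = t}) (b : Fin (k0+1)) => ε.1 (en ⟨k0, b, 0⟩)) ?_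
    rintro ⟨ε, hε⟩ ⟨ε', hε'⟩ hEq
    by_contra hcon
    have hcon' : ε ≠ ε' := fun h => hcon (Subtype.ext h)
    obtain ⟨k, hk⟩ := FB_exists ε ε' hcon'
    have hkk := hall ε ε' hε hε' k hk
    subst hkk
    obtain ⟨_, b, hb, a, ha, h2⟩ := hk
    obtain ⟨hA, _, _⟩ := struct ε ε' (by rw [hε, hε']) k ⟨‹_›, b, hb, a, ha, h2⟩
    rw [hA b hb a ha] at h2
    apply h2
    have h3 := congrFun hEq ⟨b, hb⟩
    simp only at h3
    unfold E
    rw [dif_pos ⟨hb, by omega⟩, dif_pos ⟨hb, by omega⟩]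
    have h4 : (⟨0, by omega⟩ : Fin (k+2)) = 0 := rfl
    rw [h4, h3]; simp

end Pool.MP_65dae3_an.Aux
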