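import Pool.Agent.NilRep

set_option autoImplicit false

namespace Pool.Agent.UnivNil

open MonoidAlgebra Pool.Agent.GS Pool.Agent.NilRep

noncomputable section

/-! ### tensor functionals -/

/-- `f ⊗ g` -/
def tens (f g : W → ℚ) : T →ₗ[ℚ] ℚ :=
  (Finsupp.linearCombination ℚ (fun p : W × W => f p.1 * g p.2)) ∘ₗ
    (MonoidAlgebra.coeffLinearEquiv ℚ).toLinearMap

theorem tens_single (f g : W → ℚ) (a b : W) (c : ℚ) :
    tens f g (MonoidAlgebra.single (a, b) c) = c * (f a * g b) := by
  simp [tens]

theorem tens_LR (f g : W → ℚ) (a b : A) : tens f g (L a * R b) = ext f a * ext g b := by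
  induction a using MonoidAlgebra.induction_linear with
  | zero => simp
  | add a a' ha ha' => rw [map_add, add_mul, map_add, ha, ha', map_add, add_mul]
  | single w c =>
    induction b using MonoidAlgebra.induction_linear with
    | zero => simp
    | add b b' hb hb' => rw [map_add, mul_add, map_add, hb, hb', map_add, mul_add]
    | single w' c' =>
      rw [L_single, R_single, MonoidAlgebra.single_mul_single, ext_single, ext_single]
      simp only [Prod.mk_mul_mk, one_mul, mul_one, tens_single]
      ring

theorem tens_u (f : W → ℚ) (j : ℕ) : ∀ a c : A, tens f f (L a * R c * u ^ j) = B (ext f) j a c := by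
  induction j with
  | zero => intro a c; simp [B, tens_LR]
  | succ j ih =>
    intro a c
    have : (L a * R c * u ^ (j + 1) : T) =
        ∑ x : Fin 3, L (a * m (FreeMonoid.of x)) * R (c * m (FreeMonoid.of x)) * u ^ j := by
      rw [pow_succ', ← mul_assoc, u, Finset.mul_sum, Finset.sum_mul]
      apply Finset.sum_congr rfl
      intro x _
      congr 1
      rw [map_mul, map_mul]
      have e := LR_comm (m (FreeMonoid.of x)) c
      calc L a * R c * (L (m (FreeMonoid.of x)) * R (m (FreeMonoid.of x)))
          = L a * (R c * L (m (FreeMonoid.of x))) * R (m (FreeMonoid.of x)) := by simp only [mul_assoc]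
        _ = L a * L (m (FreeMonoid.of x)) * (R c * R (m (FreeMonoid.of x))) := by rw [← e]; simp only [mul_assoc]
    rw [this, map_sum]
    simp only [ih, B]

/-- the ideal of tensors killed by everything -/
def InK (r : ℕ → A) (κ : T) : Prop :=
  ∀ (n n' : ℕ) (f g : W → ℚ), f ∈ V r n → g ∈ V r n' → ∀ s t : T, tens f g (s * κ * t) = 0

theorem InK_zero (r : ℕ → A) : InK r 0 := by
  intro n n' f g _ _ s t; simp

theorem InK_add {r : ℕ → A} {κ κ' : T} (h : InK r κ) (h' : InK r κ') : InK r (κ + κ') := by
  intro n n' f g hf hg s t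
  rw [mul_add, add_mul, map_add, h n n' f g hf hg, h' n n' f g hf hg, add_zero]

theorem InK_sum {r : ℕ → A} {ι : Type} (s : Finset ι) (κ : ι → T) (h : ∀ i ∈ s, InK r (κ i)) :
    InK r (∑ i ∈ s, κ i) := by
  classical
  induction s using Finset.induction_on with
  | empty => simpa using InK_zero r
  | insert a s ha ih =>
    rw [Finset.sum_insert ha]
    exact InK_add (h a (Finset.mem_insert_self a s)) (ih fun i hi => h i (Finset.mem_insert_of_mem hi))

theorem InK_mul_left {r : ℕ → A} {κ : T} (h : InK r κ) (a : T) : InK r (a * κ) := by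
  intro n n' f g hf hg s t
  rw [← mul_assoc]
  exact h n n' f g hf hg _ _

theorem InK_mul_right {r : ℕ → A} {κ : T} (h : InK r κ) (a : T) : InK r (κ * a) := by
  intro n n' f g hf hg s t
  rw [← mul_assoc, mul_assoc]
  exact h n n' f g hf hg _ _

theorem V_rel' {r : ℕ → A} {n : ℕ} {f : W → ℚ} (hf : f ∈ V r n) (i : ℕ) (a b : A) :
    ext f (a * r i * b) = 0 := by
  induction a using MonoidAlgebra.induction_linear with
  | zero => simp
  | add a a' ha ha' => rw [add_mul, add_mul, map_add, ha, ha', add_zero]
  | single w c =>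
    induction b using MonoidAlgebra.induction_linear with
    | zero => simp
    | add b b' hb hb' => rw [mul_add, map_add, hb, hb', add_zero]
    | single w' c' =>
      have h1 : (MonoidAlgebra.single w c : A) = c • m w := by simp [m]
      have h2 : (MonoidAlgebra.single w' c' : A) = c' • m w' := by simp [m]
      rw [h1, h2]
      simp only [smul_mul_assoc, mul_smul_comm, map_smul]
      rw [V_rel hf]
      simp

theorem T_span (t : T) (P : T → Prop) (h0 : P 0) (hadd : ∀ a b, P a → P b → P (a + b))
    (hLR : ∀ (c : ℚ) (a b : A), P (c • (L a * R b))) : P t := by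
  induction t using MonoidAlgebra.induction_linear with
  | zero => exact h0
  | add a b ha hb => exact hadd a b ha hb
  | single p c =>
    obtain ⟨w, w'⟩ := p
    rw [single_eq]
    exact hLR c _ _

theorem InK_L (r : ℕ → A) (i : ℕ) : InK r (L (r i)) := by
  intro n n' f g hf hg s t
  refine T_span s (fun s => tens f g (s * L (r i) * t) = 0) (by simp)
    (fun a b ha hb => by rw [add_mul, add_mul, map_add, ha, hb, add_zero]) ?_
  intro c a b
  refine T_span t (fun t => tens f g (c • (L a * R b) * L (r i) * t) = 0) (by simp)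
    (fun a b ha hb => by rw [mul_add, map_add, ha, hb, add_zero]) ?_
  intro c' a' b'
  have : (c • (L a * R b) * L (r i) * c' • (L a' * R b') : T) =
      (c * c') • (L (a * r i * a') * R (b * b')) := by
    simp only [smul_mul_assoc, mul_smul_comm, smul_smul, map_mul]
    rw [mul_comm c' c]
    congr 1
    have e1 := LR_comm (r i) b
    have e2 := LR_comm a' b
    calc L a * R b * L (r i) * (L a' * R b')
        = L a * (R b * L (r i)) * L a' * R b' := by simp only [mul_assoc]
      _ = L a * L (r i) * (R b * L a') * R b' := by rw [← e1]; simp only [mul_assoc]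
      _ = L a * L (r i) * L a' * (R b * R b') := by rw [← e2]; simp only [mul_assoc]
  rw [this, map_smul, tens_LR, V_rel' hf]
  simp

theorem InK_R (r : ℕ → A) (i : ℕ) : InK r (R (r i)) := by
  intro n n' f g hf hg s t
  refine T_span s (fun s => tens f g (s * R (r i) * t) = 0) (by simp)
    (fun a b ha hb => by rw [add_mul, add_mul, map_add, ha, hb, add_zero]) ?_
  intro c a b
  refine T_span t (fun t => tens f g (c • (L a * R b) * R (r i) * t) = 0) (by simp)
    (fun a b ha hb => by rw [mul_add, map_add, ha, hb, add_zero]) ?_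
  intro c' a' b'
  have : (c • (L a * R b) * R (r i) * c' • (L a' * R b') : T) =
      (c * c') • (L (a * a') * R (b * r i * b')) := by
    simp only [smul_mul_assoc, mul_smul_comm, smul_smul, map_mul]
    rw [mul_comm c' c]
    congr 1
    have e1 := LR_comm a' (r i)
    have e2 := LR_comm a' b
    calc L a * R b * R (r i) * (L a' * R b')
        = L a * R b * (R (r i) * L a') * R b' := by simp only [mul_assoc]
      _ = L a * (R b * L a') * R (r i) * R b' := by rw [← e1]; simp only [mul_assoc]
      _ = L a * L a' * (R b * R (r i) * R b') := by rw [← e2]; simp only [mul_assoc]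
  rw [this, map_smul, tens_LR, V_rel' hg]
  simp

/-! ### the splitting maps -/

/-- letter map -/
def lt (k p : ℕ) (x : Fin 3) : T :=
  if (p / k) % 2 = 0 then L (m (FreeMonoid.of x)) else R (m (FreeMonoid.of x))

/-- splitting of words from position `p` -/
def spW (k : ℕ) : ℕ → List (Fin 3) → T
  | _, [] => 1
  | p, x :: w => lt k p x * spW k (p + 1) w

def sp (k p : ℕ) : A →ₗ[ℚ] T :=
  (Finsupp.linearCombination ℚ (fun w : W => spW k p (FreeMonoid.toList w))) ∘ₗ
    (MonoidAlgebra.coeffLinearEquiv ℚ).toLinearMap

theorem sp_single (k p : ℕ) (w : W) (c : ℚ) :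
    sp k p (MonoidAlgebra.single w c) = c • spW k p (FreeMonoid.toList w) := by
  simp [sp]

theorem sp_m (k p : ℕ) (w : W) : sp k p (m w) = spW k p (FreeMonoid.toList w) := by
  simp [m, sp_single]

theorem spW_append (k : ℕ) (w w' : List (Fin 3)) : ∀ p, spW k p (w ++ w') = spW k p w * spW k (p + w.length) w' := by
  induction w with
  | nil => intro p; simp [spW]
  | cons x w ih =>
    intro p
    simp only [List.cons_append, spW, List.length_cons]
    rw [ih (p + 1), mul_assoc]
    congr 3
    omega

theorem sp_mul (k p i : ℕ) (a b : A) (ha : Homog i a) : sp k p (a * b) = sp k p a * sp k (p + i) b := by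
  have h1 : a = ∑ w ∈ a.coeff.support, MonoidAlgebra.single w (a.coeff w) :=
    (MonoidAlgebra.sum_coeff_single a).symm
  rw [h1, Finset.sum_mul, map_sum, map_sum, Finset.sum_mul]
  apply Finset.sum_congr rfl
  intro w hw
  have hw' := ha w (Finsupp.mem_support_iff.mp hw)
  generalize a.coeff w = c
  induction b using MonoidAlgebra.induction_linear with
  | zero => simp
  | add b b' hb hb' => rw [mul_add, map_add, hb, hb', map_add, mul_add]
  | single w' c' =>
    rw [MonoidAlgebra.single_mul_single, sp_single, sp_single, sp_single, FreeMonoid.toList_mul, spW_append]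
    have : (FreeMonoid.toList w).length = i := hw'
    rw [this]
    simp only [smul_mul_assoc, mul_smul_comm, smul_smul]
    rw [mul_comm c' c]

theorem spW_zone (k c : ℕ) (w : List (Fin 3)) : ∀ p, (∀ l < w.length, (p + l) / k = c) →
    spW k p w = if c % 2 = 0 then L (m (FreeMonoid.ofList w)) else R (m (FreeMonoid.ofList w)) := by
  induction w with
  | nil => intro p _; simp only [spW]; split_ifs <;> exact (map_one _).symm
  | cons x w ih =>
    intro p h
    have h0 := h 0 (by simp)
    rw [add_zero] at h0
    have h1 := ih (p + 1) (fun l hl => by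
      have := h (l + 1) (by simp; omega)
      rw [← this]; congr 1; omega)
    simp only [spW, h1, lt, h0]
    have hm : (m (FreeMonoid.ofList (x :: w)) : A) = m (FreeMonoid.of x) * m (FreeMonoid.ofList w) := by
      rw [← m_mul]; rfl
    rw [hm]
    split_ifs <;> rw [map_mul]

theorem sp_zone (k p i c : ℕ) (a : A) (ha : Homog i a) (h : ∀ l < i, (p + l) / k = c) :
    sp k p a = if c % 2 = 0 then L a else R a := by
  have h1 : a = ∑ w ∈ a.coeff.support, MonoidAlgebra.single w (a.coeff w) :=
    (MonoidAlgebra.sum_coeff_single a).symm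
  have h2 : ∀ w ∈ a.coeff.support, sp k p (MonoidAlgebra.single w (a.coeff w)) =
      if c % 2 = 0 then L (MonoidAlgebra.single w (a.coeff w)) else R (MonoidAlgebra.single w (a.coeff w)) := by
    intro w hw
    have hw' : (FreeMonoid.toList w).length = i := ha w (Finsupp.mem_support_iff.mp hw)
    rw [sp_single, spW_zone k c _ p (by rw [hw']; exact h), FreeMonoid.ofList_toList, m]
    split_ifs
    · rw [L_single, L_single]; simp
    · rw [R_single, R_single]; simp
  conv_lhs => rw [h1]
  rw [map_sum, Finset.sum_congr rfl h2]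
  split_ifs
  · rw [← map_sum, ← h1]
  · rw [← map_sum, ← h1]

/-! ### homogeneous components -/

theorem homc_add (n : ℕ) (a b : A) : homc n (a + b) = homc n a + homc n b := by
  apply MonoidAlgebra.coeff_injective
  ext w
  simp only [homc, MonoidAlgebra.coeff_ofCoeff, MonoidAlgebra.coeff_add, Finsupp.filter_apply,
    Finsupp.add_apply]
  split_ifs <;> simp

theorem homc_single (n : ℕ) (w : W) (c : ℚ) :
    homc n (MonoidAlgebra.single w c : A) = if w.length = n then MonoidAlgebra.single w c else 0 := by
  classical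
  apply MonoidAlgebra.coeff_injective
  ext v
  simp only [homc, MonoidAlgebra.coeff_ofCoeff, MonoidAlgebra.coeff_single, Finsupp.filter_apply]
  split_ifs with h1 h2 h2
  · rfl
  · rw [Finsupp.single_apply, if_neg]
    · rfl
    · rintro rfl; exact h2 h1
  · rw [MonoidAlgebra.coeff_single, Finsupp.single_apply, if_neg]
    rintro rfl; exact h1 h2
  · rfl

theorem homc_zero (n : ℕ) : homc n (0 : A) = 0 := by
  have := homc_single n 1 (0 : ℚ)
  simpa using this

theorem homc_sum {ι : Type} (n : ℕ) (s : Finset ι) (f : ι → A) : homc n (∑ i ∈ s, f i) = ∑ i ∈ s, homc n (f i) := by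
  classical
  induction s using Finset.induction_on with
  | empty => simp [homc_zero]
  | insert a s ha ih => rw [Finset.sum_insert ha, homc_add, ih, Finset.sum_insert ha]

theorem homc_mul (n : ℕ) (a b : A) :
    homc n (a * b) = ∑ p ∈ Finset.HasAntidiagonal.antidiagonal n, homc p.1 a * homc p.2 b := by
  induction a using MonoidAlgebra.induction_linear with
  | zero => simp [homc_zero]
  | add a a' ha ha' =>
    rw [add_mul, homc_add, ha, ha', ← Finset.sum_add_distrib]
    apply Finset.sum_congr rfl
    intro p _
    rw [homc_add, add_mul]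
  | single w c =>
    induction b using MonoidAlgebra.induction_linear with
    | zero => simp [homc_zero]
    | add b b' hb hb' =>
      rw [mul_add, homc_add, hb, hb', ← Finset.sum_add_distrib]
      apply Finset.sum_congr rfl
      intro p _
      rw [homc_add, mul_add]
    | single w' c' =>
      rw [MonoidAlgebra.single_mul_single, homc_single, FreeMonoid.length_mul]
      by_cases h : w.length + w'.length = n
      · rw [if_pos h, Finset.sum_eq_single (w.length, w'.length)]
        · simp only [homc_single, if_true, MonoidAlgebra.single_mul_single]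
        · rintro ⟨i, j⟩ hij hne
          simp only [homc_single]
          by_cases h1 : w.length = i
          · have : w'.length ≠ j := by
              intro h2; exact hne (by rw [h1, h2])
            rw [if_neg this, mul_zero]
          · rw [if_neg h1, zero_mul]
        · intro hnot
          exact absurd (Finset.HasAntidiagonal.mem_antidiagonal.mpr h) hnot
      · rw [if_neg h]
        symm
        apply Finset.sum_eq_zero
        rintro ⟨i, j⟩ hij
        rw [Finset.HasAntidiagonal.mem_antidiagonal] at hij
        simp only [homc_single] at hij ⊢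
        by_cases h1 : w.length = i
        · have : w'.length ≠ j := by omega
          rw [if_neg this, mul_zero]
        · rw [if_neg h1, zero_mul]

theorem homc_of_homog {n i : ℕ} {a : A} (ha : Homog i a) : homc n a = if n = i then a else 0 := by
  have h1 : a = ∑ w ∈ a.coeff.support, MonoidAlgebra.single w (a.coeff w) :=
    (MonoidAlgebra.sum_coeff_single a).symm
  conv_lhs => rw [h1]
  rw [homc_sum]
  split_ifs with h
  · conv_rhs => rw [h1]
    apply Finset.sum_congr rfl
    intro w hw
    rw [homc_single, if_pos (by rw [ha w (Finsupp.mem_support_iff.mp hw), h])]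
  · apply Finset.sum_eq_zero
    intro w hw
    rw [homc_single, if_neg (by rw [ha w (Finsupp.mem_support_iff.mp hw)]; exact fun h' => h h'.symm)]

theorem homc_len {n lo hi : ℕ} {a : A} (ha : Len lo hi a) (h : hi < n) : homc n a = 0 := by
  apply MonoidAlgebra.coeff_injective
  ext w
  simp only [homc, MonoidAlgebra.coeff_ofCoeff, Finsupp.filter_apply, MonoidAlgebra.coeff_zero,
    Finsupp.coe_zero, Pi.zero_apply]
  split_ifs with h1
  · by_contra h2
    have := ha w h2
    omega
  · rfl

theorem InK_homc_L {r : ℕ → A} (hr : ∀ i, Homog i (r i)) {g : A} {s : Finset ℕ} (h : g = ∑ n ∈ s, r n) (n : ℕ) :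
    InK r (L (homc n g)) := by
  rw [h, homc_sum, map_sum]
  apply InK_sum
  intro i _
  rw [homc_of_homog (hr i)]
  split_ifs
  · exact InK_L r i
  · rw [map_zero]; exact InK_zero r

theorem InK_homc_R {r : ℕ → A} (hr : ∀ i, Homog i (r i)) {g : A} {s : Finset ℕ} (h : g = ∑ n ∈ s, r n) (n : ℕ) :
    InK r (R (homc n g)) := by
  rw [h, homc_sum, map_sum]
  apply InK_sum
  intro i _
  rw [homc_of_homog (hr i)]
  split_ifs
  · exact InK_R r i
  · rw [map_zero]; exact InK_zero r

theorem InK_sp_zone {r : ℕ → A} (hr : ∀ i, Homog i (r i)) {g : A} {s : Finset ℕ} (h : g = ∑ n ∈ s, r n)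
    (n k p c : ℕ) (hz : ∀ l < n, (p + l) / k = c) : InK r (sp k p (homc n g)) := by
  rw [sp_zone k p n c _ (homc_homog _ _) hz]
  split_ifs
  · exact InK_homc_L hr h n
  · exact InK_homc_R hr h n

/-- the key vanishing -/
theorem InK_rel {r : ℕ → A} (hr : ∀ i, Homog i (r i)) {g : A} {μ δ : ℕ} {s : Finset ℕ}
    (h : g ^ μ = ∑ n ∈ s, r n) (hδ : Len 0 δ g) (M : ℕ) (hM : 2 * μ ≤ M) (k : ℕ) (hk : 2 * (μ * δ) + 1 ≤ k)
    (p n : ℕ) : InK r (sp k p (homc n (g ^ M))) := by
  obtain ⟨M', rfl⟩ : ∃ M', M = μ + (μ + M') := ⟨M - 2 * μ, by omega⟩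
  rw [pow_add, pow_add, homc_mul, map_sum]
  apply InK_sum
  rintro ⟨i, j⟩ _
  rw [sp_mul _ _ i _ _ (homc_homog _ _), homc_mul, map_sum, Finset.mul_sum]
  apply InK_sum
  rintro ⟨i', j'⟩ _
  rw [sp_mul _ _ i' _ _ (homc_homog _ _)]
  simp only
  have hlen : Len 0 (μ * δ) (g ^ μ) := by
    have := Len_pow hδ μ
    simpa using this
  by_cases h1 : μ * δ < i
  · rw [homc_len hlen h1, map_zero, zero_mul]; exact InK_zero r
  by_cases h2 : μ * δ < i'
  · rw [homc_len hlen h2, map_zero, zero_mul, mul_zero]; exact InK_zero r
  have hk0 : 0 < k := by omega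
  have hp1 := Nat.div_add_mod p k
  have hp2 := Nat.mod_lt p hk0
  by_cases h3 : p % k + i ≤ k
  · apply InK_mul_right
    apply InK_sp_zone hr h i k p (p / k)
    intro l hl
    have : p + l = k * (p / k) + (p % k + l) := by omega
    rw [this, Nat.mul_add_div hk0, Nat.div_eq_of_lt (show p % k + l < k by omega), add_zero]
  · apply InK_mul_left
    apply InK_mul_right
    apply InK_sp_zone hr h i' k (p + i) (p / k + 1)
    intro l hl
    have : p + i + l = k * (p / k + 1) + (p % k + i - k + l) := by
      rw [mul_add, mul_one]; omega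
    rw [this, Nat.mul_add_div hk0, Nat.div_eq_of_lt (show p % k + i - k + l < k by omega), add_zero]

/-! ### sums over words -/

def sumW {M : Type} [AddCommMonoid M] : ℕ → (W → M) → M
  | 0, G => G 1
  | k + 1, G => ∑ x : Fin 3, sumW k (fun w => G (FreeMonoid.of x * w))

theorem sumW_map {M M' : Type} [AddCommMonoid M] [AddCommMonoid M'] (φ : M →+ M') (k : ℕ) :
    ∀ G : W → M, φ (sumW k G) = sumW k (fun w => φ (G w)) := by
  induction k with
  | zero => intro G; rfl
  | succ k ih =>
    intro G
    simp only [sumW, map_sum, ih]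

theorem sumW_congr {M : Type} [AddCommMonoid M] (k : ℕ) :
    ∀ G G' : W → M, (∀ w, w.length = k → G w = G' w) → sumW k G = sumW k G' := by
  induction k with
  | zero => intro G G' h; exact h 1 rfl
  | succ k ih =>
    intro G G' h
    simp only [sumW]
    apply Finset.sum_congr rfl
    intro x _
    apply ih
    intro w hw
    apply h
    rw [FreeMonoid.length_mul, FreeMonoid.length_of, hw]; omega

theorem sumW_u (k : ℕ) : ∀ a c : W, sumW k (fun w => L (m (a * w)) * R (m (c * w))) = L (m a) * R (m c) * u ^ k := by
  induction k with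
  | zero => intro a c; simp [sumW]
  | succ k ih =>
    intro a c
    simp only [sumW]
    have h1 : ∀ x : Fin 3, sumW k (fun w => L (m (a * (FreeMonoid.of x * w))) * R (m (c * (FreeMonoid.of x * w)))) =
        L (m (a * FreeMonoid.of x)) * R (m (c * FreeMonoid.of x)) * u ^ k := by
      intro x
      rw [← ih]
      simp only [mul_assoc]
    simp only [h1]
    rw [← Finset.sum_mul, pow_succ', ← mul_assoc]
    congr 1
    rw [u, Finset.mul_sum]
    apply Finset.sum_congr rfl
    intro x _
    rw [m_mul, m_mul, map_mul, map_mul]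
    have e := LR_comm (m (FreeMonoid.of x)) (m c)
    calc L (m a) * L (m (FreeMonoid.of x)) * (R (m c) * R (m (FreeMonoid.of x)))
        = L (m a) * (L (m (FreeMonoid.of x)) * R (m c)) * R (m (FreeMonoid.of x)) := by simp only [mul_assoc]
      _ = L (m a) * R (m c) * (L (m (FreeMonoid.of x)) * R (m (FreeMonoid.of x))) := by
          rw [e]; simp only [mul_assoc]

/-- the non-nil element -/
def z (k : ℕ) : A := sumW k (fun w => m (w * w))

theorem homog_sumW (k n : ℕ) : ∀ G : W → A, (∀ w, w.length = k → Homog n (G w)) → Homog n (sumW k G) := by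
  induction k with
  | zero => intro G h; exact h 1 rfl
  | succ k ih =>
    intro G h
    simp only [sumW]
    intro v hv
    rw [MonoidAlgebra.coeff_sum, Finsupp.finsetSum_apply] at hv
    obtain ⟨x, _, hx⟩ := Finset.exists_ne_zero_of_sum_ne_zero hv
    refine ih (fun w => G (FreeMonoid.of x * w)) ?_ v hx
    intro w hw
    apply h
    rw [FreeMonoid.length_mul, FreeMonoid.length_of, hw]; omega

theorem z_homog (k : ℕ) : Homog (2 * k) (z k) := by
  apply homog_sumW
  intro w hw
  have := homog_m (k := ℚ) (w * w)
  rw [FreeMonoid.length_mul, hw] at this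
  rwa [two_mul]

theorem sp_z (k t : ℕ) (hk : 0 < k) : sp k (2 * k * t) (z k) = u ^ k := by
  have h1 := sumW_u k 1 1
  simp only [one_mul, m_one, map_one] at h1
  rw [← h1, z]
  have h2 := sumW_map (sp k (2 * k * t)).toAddMonoidHom k (fun w => (m (w * w) : A))
  simp only [LinearMap.toAddMonoidHom_coe] at h2
  rw [h2]
  apply sumW_congr
  intro w hw
  have hw' : Homog k (m w : A) := by
    have := homog_m (k := ℚ) w
    rwa [hw] at this
  rw [m_mul, sp_mul k _ k _ _ hw', sp_zone k _ k (2 * t) _ hw', sp_zone k _ k (2 * t + 1) _ hw']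
  · rw [if_pos (by omega), if_neg (by omega)]
  · intro l hl
    have : 2 * k * t + k + l = k * (2 * t + 1) + l := by ring
    rw [this, Nat.mul_add_div hk, Nat.div_eq_of_lt hl, add_zero]
  · intro l hl
    have : 2 * k * t + l = k * (2 * t) + l := by ring
    rw [this, Nat.mul_add_div hk, Nat.div_eq_of_lt hl, add_zero]

theorem sp_z_pow (k n : ℕ) (hk : 0 < k) : ∀ t, sp k (2 * k * t) (z k ^ n) = u ^ (k * n) := by
  induction n with
  | zero =>
    intro t
    rw [pow_zero, mul_zero, pow_zero]
    have := sp_m k (2 * k * t) 1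
    rw [m_one] at this
    rw [this]; rfl
  | succ n ih =>
    intro t
    rw [pow_succ', sp_mul k _ (2 * k) _ _ (z_homog k), sp_z k t hk]
    have : 2 * k * t + 2 * k = 2 * k * (t + 1) := by ring
    rw [this, ih, ← pow_add]
    congr 1; ring

theorem spW_form (k : ℕ) (w : List (Fin 3)) : ∀ p, ∃ a b : W, spW k p w = MonoidAlgebra.single (a, b) 1 ∧
    a.length + b.length = w.length := by
  induction w with
  | nil => intro p; exact ⟨1, 1, rfl, rfl⟩
  | cons x w ih =>
    intro p
    obtain ⟨a, b, h1, h2⟩ := ih (p + 1)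
    simp only [spW, h1, lt]
    split_ifs
    · refine ⟨FreeMonoid.of x * a, b, ?_, ?_⟩
      · rw [m, L_single, MonoidAlgebra.single_mul_single]; simp
      · rw [FreeMonoid.length_mul, FreeMonoid.length_of, List.length_cons]; omega
    · refine ⟨a, FreeMonoid.of x * b, ?_, ?_⟩
      · rw [m, R_single, MonoidAlgebra.single_mul_single]; simp
      · rw [FreeMonoid.length_mul, FreeMonoid.length_of, List.length_cons]; omega

/-- relations of the node type -/
def GoodRel (r : ℕ → A) (rel : ℕ → A) : Prop :=
  ∀ i, rel i = 0 ∨ ∃ (g : A) (μ M : ℕ) (s : Finset ℕ), g ^ μ = ∑ n ∈ s, r n ∧ 2 * μ ≤ M ∧ rel i = homc i (g ^ M)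

theorem exists_len (g : A) : ∃ δ, Len 0 δ g :=
  ⟨g.coeff.support.sup FreeMonoid.length, fun _ hw =>
    ⟨Nat.zero_le _, Finset.le_sup (f := FreeMonoid.length) (Finsupp.mem_support_iff.mpr hw)⟩⟩

theorem node {r : ℕ → A} (hr : ∀ i, Homog i (r i)) (hr0 : r 0 = 0) (hr1 : r 1 = 0) (rel : ℕ → A) (D : ℕ)
    (hD : ∀ i, D < i → rel i = 0) (hgood : GoodRel r rel) :
    ∃ (k : ℕ), 0 < k ∧ ∀ n : ℕ, ∃ f ∈ V rel (2 * k * n), ext f (z k ^ n) ≠ 0 := by
  have hk1 : ∀ i, ∃ K, ∀ k, K ≤ k → ∀ p, InK r (sp k p (rel i)) := by
    intro i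
    rcases hgood i with h | ⟨g, μ, M, s, h1, h2, h3⟩
    · exact ⟨0, fun k _ p => by rw [h, map_zero]; exact InK_zero r⟩
    · obtain ⟨δ, hδ⟩ := exists_len g
      exact ⟨2 * (μ * δ) + 1, fun k hk p => by rw [h3]; exact InK_rel hr h1 hδ M h2 k hk p i⟩
  choose K hK using hk1
  let k := (Finset.range (D + 1)).sup K + 1
  have hk : ∀ i p, InK r (sp k p (rel i)) := by
    intro i p
    by_cases hi : i ≤ D
    · apply hK i
      have : K i ≤ (Finset.range (D + 1)).sup K := Finset.le_sup (Finset.mem_range.mpr (by omega))
      omega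
    · rw [hD i (by omega), map_zero]; exact InK_zero r
  refine ⟨k, by omega, fun n => ?_⟩
  obtain ⟨φ, hφ, hφ0⟩ := exists_functional r hr hr0 hr1 (k * n)
  have hrelhom : ∀ i, Homog i (rel i) := by
    intro i
    rcases hgood i with h | ⟨g, μ, M, s, h1, h2, h3⟩
    · rw [h]; intro w hw; simp at hw
    · rw [h3]; exact homc_homog _ _
  let f : W → ℚ := fun w => tens φ φ (sp k 0 (m w))
  have hf : ∀ a : A, ext f a = tens φ φ (sp k 0 a) := by
    intro a
    induction a using MonoidAlgebra.induction_linear with
    | zero => simp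
    | add a b ha hb => rw [map_add, ha, hb, map_add, map_add]
    | single w c =>
      have h1 : (MonoidAlgebra.single w c : A) = c • m w := by simp [m]
      rw [h1, map_smul, ext_m, map_smul, map_smul]
  refine ⟨f, ⟨?_, ?_⟩, ?_⟩
  · intro w hw
    obtain ⟨a, b, h1, h2⟩ := spW_form k (FreeMonoid.toList w) 0
    simp only [f, sp_m, h1, tens_single]
    have h3 : a.length + b.length = w.length := h2
    by_cases ha : a.length = k * n
    · have hb : b.length ≠ k * n := by
        intro hb; apply hw; rw [← h3, ha, hb]; ring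
      rw [V_supp hφ hb]; ring
    · rw [V_supp hφ ha]; ring
  · intro i a b
    rw [hf, mul_assoc, sp_mul k 0 a.length _ _ (homog_m a), sp_mul k _ i _ _ (hrelhom i), ← mul_assoc]
    exact hk i _ _ _ _ _ hφ hφ _ _
  · rw [hf]
    have h1 := sp_z_pow k n (by omega) 0
    rw [mul_zero] at h1
    rw [h1]
    have h2 := tens_u φ (k * n) 1 1
    simp only [map_one, one_mul] at h2
    rw [h2]
    intro h3
    have h4 := B_eq_zero _ _ _ h3
    apply hφ0
    funext w
    by_cases hw : w.length = k * n
    · have := h4 w hw
      rw [one_mul, ext_m] at this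
      exact this
    · exact V_supp hφ hw

end

end Pool.Agent.UnivNil
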